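import Mathlib

/-!
A packing lemma in the style of Sauer and Spencer: a graph of maximum degree at most `a` and a graph
of maximum degree at most `b` on the same number of vertices can be placed edge-disjointly if
`2ab + a + 1` is smaller than the number of vertices.
-/

namespace Pool.Agent.BD48

open Finset

attribute [local instance] Classical.propDecidable

variable {V W : Type*} [Fintype V] [Fintype W]

/-- the set of neighbours of a vertex -/
noncomputable def nb (Z : SimpleGraph V) (x : V) : Finset V := univ.filter (fun y => Z.Adj x y)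

/-- the degree of a vertex -/
noncomputable def dg (Z : SimpleGraph V) (x : V) : ℕ := (nb Z x).card

lemma mem_nb {Z : SimpleGraph V} {x y : V} : y ∈ nb Z x ↔ Z.Adj x y := by
  simp [nb]

lemma dg_eq_card (Z : SimpleGraph V) (x : V) (s : Finset V) (h : ∀ y, y ∈ s ↔ Z.Adj x y) :
    dg Z x = s.card := by
  unfold dg
  congr 1
  ext y
  rw [mem_nb, h]

/-- the packing lemma -/
theorem pack (G : SimpleGraph V) (R : SimpleGraph W) (e : V ≃ W) (a b : ℕ)
    (ha : ∀ v, dg G v ≤ a) (hb : ∀ w, dg R w ≤ b) (hn : 2 * (a * b) + a + 1 < Fintype.card V) :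
    ∃ π : V ≃ W, ∀ u v, G.Adj u v → ¬ R.Adj (π u) (π v) := by
  have : Nonempty (V ≃ W) := ⟨e⟩
  let cs : (V ≃ W) → Finset (V × V) := fun π =>
    univ.filter (fun p : V × V => G.Adj p.1 p.2 ∧ R.Adj (π p.1) (π p.2))
  obtain ⟨π, hπ⟩ := Finite.exists_min (fun π : V ≃ W => (cs π).card)
  refine ⟨π, ?_⟩
  intro u v huv hR
  -- the bad set
  let N1 : Finset V := nb G u
  let T1 : Finset V := N1.biUnion (fun x => univ.filter (fun w => R.Adj (π x) (π w)))
  let N2 : Finset V := univ.filter (fun x => R.Adj (π u) (π x))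
  let T2 : Finset V := N2.biUnion (fun x => nb G x)
  have hRdeg : ∀ x : V, (univ.filter (fun w : V => R.Adj (π x) (π w))).card ≤ b := by
    intro x
    refine le_trans ?_ (hb (π x))
    unfold dg
    refine Finset.card_le_card_of_injOn (fun w => π w) ?_ (π.injective.injOn)
    intro w hw
    simp only [coe_filter, mem_univ, true_and, Set.mem_ofPred_eq] at hw
    rw [Finset.mem_coe, mem_nb]
    exact hw
  have hT1 : T1.card ≤ a * b := by
    refine le_trans Finset.card_biUnion_le ?_
    refine le_trans (Finset.sum_le_sum (fun x _ => hRdeg x)) ?_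
    rw [Finset.sum_const, smul_eq_mul]
    exact Nat.mul_le_mul_right _ (ha u)
  have hT2 : T2.card ≤ a * b := by
    refine le_trans Finset.card_biUnion_le ?_
    refine le_trans (Finset.sum_le_sum (fun x _ => ha x)) ?_
    rw [Finset.sum_const, smul_eq_mul, mul_comm a b]
    exact Nat.mul_le_mul_right _ (hRdeg u)
  have hbad : (T1 ∪ T2 ∪ N1 ∪ {u}).card < Fintype.card V := by
    have h1 := Finset.card_union_le (T1 ∪ T2 ∪ N1) {u}
    have h2 := Finset.card_union_le (T1 ∪ T2) N1
    have h3 := Finset.card_union_le T1 T2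
    have h4 : N1.card ≤ a := ha u
    rw [Finset.card_singleton] at h1
    omega
  obtain ⟨w, hw⟩ : ∃ w, w ∉ T1 ∪ T2 ∪ N1 ∪ {u} := by
    by_contra hcon
    push Not at hcon
    have : (T1 ∪ T2 ∪ N1 ∪ {u}) = univ := Finset.eq_univ_iff_forall.mpr hcon
    rw [this, Finset.card_univ] at hbad
    exact lt_irrefl _ hbad
  simp only [Finset.mem_union, Finset.mem_singleton, not_or] at hw
  obtain ⟨⟨⟨hw1, hw2⟩, hw3⟩, hw4⟩ := hw
  have hw1' : ∀ x, G.Adj u x → ¬ R.Adj (π x) (π w) := by
    intro x hx hR'
    apply hw1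
    refine Finset.mem_biUnion.mpr ⟨x, ?_, ?_⟩
    · simp [N1, mem_nb, hx]
    · simp [hR']
  have hw2' : ∀ x, R.Adj (π u) (π x) → ¬ G.Adj x w := by
    intro x hx hR'
    apply hw2
    refine Finset.mem_biUnion.mpr ⟨x, ?_, ?_⟩
    · simp [N2, hx]
    · simp [mem_nb, hR']
  have hw3' : ¬ G.Adj u w := by
    intro h
    apply hw3
    simp [N1, mem_nb, h]
  let π' : V ≃ W := (Equiv.swap u w).trans π
  have hπ'u : π' u = π w := by simp [π']
  have hπ'w : π' w = π u := by simp [π']
  have hπ'x : ∀ x, x ≠ u → x ≠ w → π' x = π x := by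
    intro x h1 h2
    simp [π', Equiv.swap_apply_of_ne_of_ne h1 h2]
  have hkey : ∀ x y, G.Adj x y → R.Adj (π' x) (π' y) → x ≠ u ∧ x ≠ w := by
    intro x y hG hR'
    refine ⟨?_, ?_⟩
    · rintro rfl
      rw [hπ'u] at hR'
      by_cases hy : y = w
      · subst hy
        exact hw3' hG
      · rw [hπ'x y hG.ne' hy] at hR'
        exact hw1' y hG hR'.symm
    · rintro rfl
      rw [hπ'w] at hR'
      by_cases hy : y = u
      · subst hy
        exact hw3' hG.symm
      · rw [hπ'x y hy hG.ne'] at hR'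
        exact hw2' y hR' hG.symm
  have hsub : cs π' ⊆ (cs π).erase (u, v) := by
    intro p hp
    simp only [cs, Finset.mem_filter, Finset.mem_univ, true_and] at hp
    obtain ⟨hG, hR'⟩ := hp
    have h1 := hkey p.1 p.2 hG hR'
    have h2 := hkey p.2 p.1 hG.symm hR'.symm
    rw [Finset.mem_erase]
    refine ⟨?_, ?_⟩
    · intro h
      exact h1.1 (by rw [h])
    · simp only [cs, Finset.mem_filter, Finset.mem_univ, true_and]
      refine ⟨hG, ?_⟩
      rw [hπ'x _ h1.1 h1.2, hπ'x _ h2.1 h2.2] at hR'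
      exact hR'
  have hmem : (u, v) ∈ cs π := by
    simp only [cs, Finset.mem_filter, Finset.mem_univ, true_and]
    exact ⟨huv, hR⟩
  have hlt : (cs π').card < (cs π).card :=
    lt_of_le_of_lt (Finset.card_le_card hsub) (Finset.card_erase_lt_of_mem hmem)
  exact absurd (hπ π') (not_le.mpr hlt)

end Pool.Agent.BD48
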