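import Mathlib
import Pool.Agent.BD48.Pack

/-!
Forests have orientations with at most one out-neighbour.
-/

namespace Pool.Agent.BD48

open Finset

attribute [local instance] Classical.propDecidable

/-- rooting a forest -/
theorem acyclic_out {V : Type*} (G : SimpleGraph V) (hG : G.IsAcyclic) :
    ∃ out : V → V, ∀ x y, G.Adj x y → out x = y ∨ out y = x := by
  have hr : ∀ c : G.ConnectedComponent, ∃ r : V, G.connectedComponentMk r = c := fun c =>
    c.exists_rep
  choose r hr using hr
  have hp : ∀ x : V, ∃ p : G.Walk x (r (G.connectedComponentMk x)), p.IsPath := by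
    intro x
    have h : G.Reachable x (r (G.connectedComponentMk x)) :=
      SimpleGraph.ConnectedComponent.exact (hr _).symm
    obtain ⟨p, hp⟩ := h.exists_isPath
    exact ⟨p, hp⟩
  choose p hp using hp
  refine ⟨fun x => (p x).snd, ?_⟩
  intro x y hxy
  have hc : G.connectedComponentMk x = G.connectedComponentMk y :=
    SimpleGraph.ConnectedComponent.sound hxy.reachable
  -- the path from `y`
  by_cases hx : x ∈ (p y).support
  · right
    have h1 : (p y).takeUntil x hx = SimpleGraph.Walk.cons hxy.symm SimpleGraph.Walk.nil := by
      have h := hG.path_unique ⟨(p y).takeUntil x hx, (hp y).takeUntil hx⟩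
        ⟨SimpleGraph.Walk.cons hxy.symm SimpleGraph.Walk.nil, by simp [hxy.ne']⟩
      exact congrArg Subtype.val h
    have h2 := (p y).take_spec hx
    rw [h1] at h2
    show (p y).snd = x
    rw [← h2]
    simp
  · left
    have h1 : ∀ (a b : V) (q : G.Walk x a) (q' : G.Walk y b), q.IsPath → q'.IsPath → a = b →
        x ∉ q'.support → q.snd = y := by
      intro a b q q' hq hq' hab hx'
      subst hab
      have h := hG.path_unique ⟨q, hq⟩ ⟨SimpleGraph.Walk.cons hxy q', hq'.cons hx'⟩
      have h3 : q = SimpleGraph.Walk.cons hxy q' := congrArg Subtype.val h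
      rw [h3]
      simp
    exact h1 _ _ (p x) (p y) (hp x) (hp y) (by rw [hc]) hx

/-- a graph with such an orientation has at most as many edges as vertices -/
theorem sum_dg_out {V : Type*} [Fintype V] (G : SimpleGraph V) (out : V → V)
    (hout : ∀ x y, G.Adj x y → out x = y ∨ out y = x) : ∑ v, dg G v ≤ 2 * Fintype.card V := by
  have h1 : ∀ v, dg G v ≤ 1 + (univ.filter (fun y => out y = v)).card := by
    intro v
    have hsub : nb G v ⊆ {out v} ∪ univ.filter (fun y => out y = v) := by
      intro y hy
      rw [mem_nb] at hy
      rw [Finset.mem_union, Finset.mem_singleton, Finset.mem_filter]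
      rcases hout v y hy with h | h
      · exact Or.inl h.symm
      · exact Or.inr ⟨Finset.mem_univ _, h⟩
    refine le_trans (Finset.card_le_card hsub) (le_trans (Finset.card_union_le _ _) ?_)
    rw [Finset.card_singleton]
  have h2 : ∑ v, (univ.filter (fun y => out y = v)).card = Fintype.card V := by
    have h := Finset.card_eq_sum_card_fiberwise (f := out) (s := (univ : Finset V))
      (t := (univ : Finset V)) (fun x _ => Finset.mem_univ _)
    rw [Finset.card_univ] at h
    exact h.symm
  refine le_trans (Finset.sum_le_sum (fun v _ => h1 v)) ?_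
  rw [Finset.sum_add_distrib, h2, Finset.sum_const, smul_eq_mul, Finset.card_univ]
  omega

end Pool.Agent.BD48
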