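import Mathlib
import Pool.Agent.BD48.Pack

/-!
Graphs with prescribed small degrees on a large set, and on an interval with short edges.
-/

namespace Pool.Agent.BD48

open Finset

attribute [local instance] Classical.propDecidable

variable {V : Type*} [Fintype V]

lemma dg_add (Z : SimpleGraph V) (a b : V) (hab : a ≠ b) (hn : ¬ Z.Adj a b) (w : V) :
    dg (Z ⊔ SimpleGraph.edge a b) w
      = dg Z w + (if w = a then 1 else 0) + (if w = b then 1 else 0) := by
  have hadj : ∀ y, (Z ⊔ SimpleGraph.edge a b).Adj w y ↔
      Z.Adj w y ∨ (w = a ∧ y = b) ∨ (w = b ∧ y = a) := by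
    intro y
    rw [SimpleGraph.sup_adj, SimpleGraph.edge_adj]
    constructor
    · rintro (h | ⟨h, _⟩)
      · exact Or.inl h
      · exact Or.inr h
    · rintro (h | h | h)
      · exact Or.inl h
      · refine Or.inr ⟨Or.inl h, ?_⟩
        rw [h.1, h.2]
        exact hab
      · refine Or.inr ⟨Or.inr h, ?_⟩
        rw [h.1, h.2]
        exact hab.symm
  by_cases hwa : w = a
  · subst hwa
    rw [dg_eq_card _ _ (insert b (nb Z w)), Finset.card_insert_of_notMem]
    · simp [hab, dg]
    · rw [mem_nb]
      exact hn
    · intro y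
      rw [Finset.mem_insert, mem_nb, hadj]
      constructor
      · rintro (h | h)
        · exact Or.inr (Or.inl ⟨rfl, h⟩)
        · exact Or.inl h
      · rintro (h | h | h)
        · exact Or.inr h
        · exact Or.inl h.2
        · exact absurd h.1 hab
  · by_cases hwb : w = b
    · subst hwb
      rw [dg_eq_card _ _ (insert a (nb Z w)), Finset.card_insert_of_notMem]
      · simp [hwa, dg]
      · rw [mem_nb]
        exact fun h => hn h.symm
      · intro y
        rw [Finset.mem_insert, mem_nb, hadj]
        constructor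
        · rintro (h | h)
          · exact Or.inr (Or.inr ⟨rfl, h⟩)
          · exact Or.inl h
        · rintro (h | h | h)
          · exact Or.inr h
          · exact absurd h.1 hwa
          · exact Or.inl h.2
    · rw [dg_eq_card _ _ (nb Z w)]
      · simp [hwa, hwb, dg]
      · intro y
        rw [mem_nb, hadj]
        constructor
        · exact Or.inl
        · rintro (h | h | h)
          · exact h
          · exact absurd h.1 hwa
          · exact absurd h.1 hwb

/-- remove an edge -/
lemma exists_remove (Z : SimpleGraph V) (x y : V) (h : Z.Adj x y) :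
    ∃ Z₀ : SimpleGraph V, Z₀ ≤ Z ∧ ¬ Z₀.Adj x y ∧
      ∀ w, dg Z w = dg Z₀ w + (if w = x then 1 else 0) + (if w = y then 1 else 0) := by
  refine ⟨Z.deleteEdges {s(x, y)}, SimpleGraph.deleteEdges_le _, ?_, ?_⟩
  · simp [SimpleGraph.deleteEdges_adj]
  · intro w
    have hn : ¬ (Z.deleteEdges {s(x, y)}).Adj x y := by
      simp [SimpleGraph.deleteEdges_adj]
    have hEq : Z.deleteEdges {s(x, y)} ⊔ SimpleGraph.edge x y = Z := by
      ext p q
      rw [SimpleGraph.sup_adj, SimpleGraph.edge_adj, SimpleGraph.deleteEdges_adj]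
      simp only [Set.mem_singleton_iff, Sym2.eq_iff]
      constructor
      · rintro (⟨h1, _⟩ | ⟨h1 | h1, _⟩)
        · exact h1
        · rw [h1.1, h1.2]
          exact h
        · rw [h1.1, h1.2]
          exact h.symm
      · intro h1
        by_cases h2 : (p = x ∧ q = y) ∨ (p = y ∧ q = x)
        · exact Or.inr ⟨h2, h1.ne⟩
        · exact Or.inl ⟨h1, h2⟩
    rw [← dg_add _ x y h.ne hn w, hEq]

/-- the sum of the degrees is even -/
lemma even_sum_dg (Z : SimpleGraph V) : Even (∑ v, dg Z v) := by
  have h : ∀ v, dg Z v = Z.degree v := by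
    intro v
    rw [← SimpleGraph.card_neighborFinset_eq_degree]
    refine dg_eq_card _ _ _ ?_
    intro y
    simp
  rw [Finset.sum_congr rfl (fun v _ => h v), SimpleGraph.sum_degrees_eq_twice_card_edges]
  exact even_two_mul _

/-- the set of all vertices with a neighbour in `N(v)` is small -/
lemma card_second (Z : SimpleGraph V) (D : ℕ) (hD : ∀ w, dg Z w ≤ D) (v : V) :
    ((nb Z v).biUnion (fun y => nb Z y)).card ≤ D * D := by
  refine le_trans Finset.card_biUnion_le ?_
  refine le_trans (Finset.sum_le_sum (fun x _ => hD x)) ?_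
  rw [Finset.sum_const, smul_eq_mul]
  exact Nat.mul_le_mul_right _ (hD v)

/-- A degree sequence on `S` with even sum, values at most `D` and many positive values is the degree
sequence of a graph on `S`. -/
theorem block (S : Finset V) (f : V → ℕ) (D : ℕ) (hD : ∀ x ∈ S, f x ≤ D)
    (hpos : D * D + 2 * D + 3 ≤ (S.filter (fun x => 1 ≤ f x)).card)
    (heven : Even (∑ x ∈ S, f x)) :
    ∃ Z : SimpleGraph V, (∀ x y, Z.Adj x y → x ∈ S ∧ y ∈ S) ∧ ∀ x ∈ S, dg Z x = f x := by
  let good : SimpleGraph V → Prop := fun Z =>
    (∀ x y, Z.Adj x y → x ∈ S ∧ y ∈ S) ∧ ∀ x ∈ S, dg Z x ≤ f x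
  have hfin : {Z | good Z}.Finite := Set.toFinite _
  have hne : {Z | good Z}.Nonempty := by
    refine ⟨⊥, ?_, ?_⟩
    · intro x y h
      exact absurd h (by simp)
    · intro x _
      rw [dg_eq_card ⊥ x ∅ (by simp)]
      simp
  obtain ⟨Z, hZ, hmax⟩ := Set.exists_max_image {Z | good Z} (fun Z => ∑ v, dg Z v) hfin hne
  obtain ⟨hZS, hZf⟩ := hZ
  refine ⟨Z, hZS, ?_⟩
  -- degrees vanish outside `S`
  have hout : ∀ x, x ∉ S → dg Z x = 0 := by
    intro x hx
    rw [dg_eq_card Z x ∅]
    · simp
    · intro y
      constructor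
      · intro h
        simp at h
      · intro h
        exact absurd (hZS x y h).1 hx
  have hZD : ∀ x, dg Z x ≤ D := by
    intro x
    by_cases hx : x ∈ S
    · exact le_trans (hZf x hx) (hD x hx)
    · rw [hout x hx]
      exact Nat.zero_le _
  have hmax' : ∀ Z' : SimpleGraph V, good Z' → ∑ v, dg Z' v ≤ ∑ v, dg Z v := fun Z' h => hmax Z' h
  by_contra hcon
  push Not at hcon
  obtain ⟨u, huS, hu⟩ := hcon
  have hu' : dg Z u < f u := lt_of_le_of_ne (hZf u huS) hu
  -- a deficient vertex other than `u` is adjacent to `u`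
  have hadj : ∀ v ∈ S, v ≠ u → dg Z v < f v → Z.Adj u v := by
    intro v hvS hvu hv
    by_contra hnadj
    have hdeg := dg_add Z u v hvu.symm hnadj
    have hgood : good (Z ⊔ SimpleGraph.edge u v) := by
      refine ⟨?_, ?_⟩
      · intro x y h
        rw [SimpleGraph.sup_adj, SimpleGraph.edge_adj] at h
        rcases h with h | ⟨h | h, _⟩
        · exact hZS x y h
        · rw [h.1, h.2]
          exact ⟨huS, hvS⟩
        · rw [h.1, h.2]
          exact ⟨hvS, huS⟩
      · intro x hx
        rw [hdeg x]
        have := hZf x hx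
        by_cases h1 : x = u
        · subst h1
          simp only [if_true, if_neg hvu.symm]
          omega
        · by_cases h2 : x = v
          · subst h2
            simp only [if_true, if_neg h1]
            omega
          · simp only [if_neg h1, if_neg h2]
            omega
    have hsum := hmax' _ hgood
    rw [Finset.sum_congr rfl (fun w _ => hdeg w), Finset.sum_add_distrib,
      Finset.sum_add_distrib] at hsum
    simp only [Finset.sum_ite_eq', Finset.mem_univ, if_true] at hsum
    omega
  -- the exchange
  have hexch : ∀ v ∈ S, (v ≠ u → dg Z v < f v) → (v = u → dg Z u + 2 ≤ f u) → False := by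
    intro v hvS hv1 hv2
    let N : V → Finset V := fun x => nb Z x
    let N2 : Finset V := (N v).biUnion (fun y => nb Z y)
    let P : Finset V := S.filter (fun x => 1 ≤ f x)
    have hcard : (({u, v} : Finset V) ∪ N u ∪ N v ∪ N2).card < P.card := by
      have h1 := Finset.card_union_le (({u, v} : Finset V) ∪ N u ∪ N v) N2
      have h2 := Finset.card_union_le (({u, v} : Finset V) ∪ N u) (N v)
      have h3 := Finset.card_union_le ({u, v} : Finset V) (N u)
      have h4 : ({u, v} : Finset V).card ≤ 2 := Finset.card_le_two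
      have h5 : (N u).card ≤ D := hZD u
      have h6 : (N v).card ≤ D := hZD v
      have h7 : N2.card ≤ D * D := card_second Z D hZD v
      have h8 : D * D + 2 * D + 3 ≤ P.card := hpos
      omega
    obtain ⟨x, hxP, hx⟩ : ∃ x ∈ P, x ∉ (({u, v} : Finset V) ∪ N u ∪ N v ∪ N2) := by
      by_contra hcon
      push Not at hcon
      exact absurd (Finset.card_le_card (fun x hx => hcon x hx)) (not_le.mpr hcard)
    simp only [Finset.mem_union, Finset.mem_insert, Finset.mem_singleton, not_or] at hx
    obtain ⟨⟨⟨⟨hxu, hxv⟩, hxNu⟩, hxNv⟩, hxN2⟩ := hx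
    have hxNu' : ¬ Z.Adj u x := by
      intro h
      exact hxNu (by simp [N, mem_nb, h])
    have hxNv' : ¬ Z.Adj v x := by
      intro h
      exact hxNv (by simp [N, mem_nb, h])
    have hxS : x ∈ S := (Finset.mem_filter.mp hxP).1
    have hfx : 1 ≤ f x := (Finset.mem_filter.mp hxP).2
    have hxeq : dg Z x = f x := by
      by_contra hne
      exact hxNu' (hadj x hxS hxu (lt_of_le_of_ne (hZf x hxS) hne))
    obtain ⟨y, hy⟩ : ∃ y, Z.Adj x y := by
      by_contra hcon
      push Not at hcon
      have : dg Z x = 0 := by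
        rw [dg_eq_card Z x ∅]
        · simp
        · intro y
          simp [hcon y]
      omega
    have hyu : y ≠ u := by
      rintro rfl
      exact hxNu' hy.symm
    have hyv : y ≠ v := by
      rintro rfl
      exact hxNv' hy.symm
    have hvy : ¬ Z.Adj v y := by
      intro h
      apply hxN2
      refine Finset.mem_biUnion.mpr ⟨y, ?_, ?_⟩
      · simp [N, mem_nb, h]
      · simp [mem_nb, hy.symm]
    have hyS : y ∈ S := (hZS x y hy).2
    obtain ⟨Z₀, hZ₀, hZ₀xy, hdeg₀⟩ := exists_remove Z x y hy
    have hn1 : ¬ Z₀.Adj u x := fun h => hxNu' (hZ₀ h)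
    have hd1 := dg_add Z₀ u x (Ne.symm hxu) hn1
    have hn2 : ¬ (Z₀ ⊔ SimpleGraph.edge u x).Adj v y := by
      rw [SimpleGraph.sup_adj, SimpleGraph.edge_adj]
      rintro (h | ⟨h | h, _⟩)
      · exact hvy (hZ₀ h)
      · exact hy.ne h.2.symm
      · exact hyu h.2
    have hd2 := dg_add (Z₀ ⊔ SimpleGraph.edge u x) v y hyv.symm hn2
    have hgood : good (Z₀ ⊔ SimpleGraph.edge u x ⊔ SimpleGraph.edge v y) := by
      refine ⟨?_, ?_⟩
      · intro p q h
        rw [SimpleGraph.sup_adj, SimpleGraph.edge_adj, SimpleGraph.sup_adj,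
          SimpleGraph.edge_adj] at h
        rcases h with (h | ⟨h | h, _⟩) | ⟨h | h, _⟩
        · exact hZS p q (hZ₀ h)
        · rw [h.1, h.2]
          exact ⟨huS, hxS⟩
        · rw [h.1, h.2]
          exact ⟨hxS, huS⟩
        · rw [h.1, h.2]
          exact ⟨hvS, hyS⟩
        · rw [h.1, h.2]
          exact ⟨hyS, hvS⟩
      · intro w hw
        rw [hd2 w, hd1 w]
        have h1 := hZf w hw
        have h2 := hdeg₀ w
        by_cases hwx : w = x
        · subst hwx
          rw [if_neg hxu, if_pos rfl, if_neg hxv, if_neg hy.ne]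
          rw [if_pos rfl, if_neg hy.ne] at h2
          omega
        · by_cases hwy : w = y
          · subst hwy
            rw [if_neg hyu, if_neg hwx, if_neg hyv, if_pos rfl]
            rw [if_neg hwx, if_pos rfl] at h2
            omega
          · rw [if_neg hwx, if_neg hwy]
            rw [if_neg hwx, if_neg hwy] at h2
            by_cases hwu : w = u
            · rw [if_pos hwu]
              by_cases hwv : w = v
              · rw [if_pos hwv]
                have h3 := hv2 (by rw [← hwu, hwv])
                rw [hwu] at h2 ⊢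
                omega
              · rw [if_neg hwv]
                rw [hwu] at h2 ⊢
                omega
            · rw [if_neg hwu]
              by_cases hwv : w = v
              · rw [if_pos hwv]
                have h3 := hv1 (by rw [← hwv]; exact hwu)
                rw [hwv] at h2 ⊢
                omega
              · rw [if_neg hwv]
                omega
    have hsum := hmax' _ hgood
    rw [Finset.sum_congr rfl (fun w _ => hd2 w), Finset.sum_add_distrib,
      Finset.sum_add_distrib, Finset.sum_congr rfl (fun w _ => hd1 w), Finset.sum_add_distrib,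
      Finset.sum_add_distrib, Finset.sum_congr rfl (fun w _ => hdeg₀ w), Finset.sum_add_distrib,
      Finset.sum_add_distrib] at hsum
    simp only [Finset.sum_ite_eq', Finset.mem_univ, if_true] at hsum
    omega
  by_cases hother : ∃ v ∈ S, v ≠ u ∧ dg Z v < f v
  · obtain ⟨v, hvS, hvu, hv⟩ := hother
    exact hexch v hvS (fun _ => hv) (fun h => absurd h hvu)
  · push Not at hother
    refine hexch u huS (fun h => absurd rfl h) (fun _ => ?_)
    -- parity
    have h1 : ∑ x ∈ S, dg Z x = ∑ v, dg Z v := by
      refine Finset.sum_subset (Finset.subset_univ S) ?_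
      intro x _ hx
      exact hout x hx
    have h2 : Even (∑ x ∈ S, dg Z x) := by
      rw [h1]
      exact even_sum_dg Z
    have h3 : ∑ x ∈ S, f x = ∑ x ∈ S.erase u, f x + f u := (Finset.sum_erase_add S f huS).symm
    have h4 : ∑ x ∈ S, dg Z x = ∑ x ∈ S.erase u, dg Z x + dg Z u :=
      (Finset.sum_erase_add S _ huS).symm
    have h5 : ∑ x ∈ S.erase u, f x = ∑ x ∈ S.erase u, dg Z x := by
      refine Finset.sum_congr rfl ?_
      intro x hx
      rw [Finset.mem_erase] at hx
      exact le_antisymm (hother x hx.2 hx.1) (hZf x hx.2)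
    rw [h3, h5] at heven
    rw [h4] at h2
    obtain ⟨a, ha⟩ := heven
    obtain ⟨b, hb⟩ := h2
    omega

end Pool.Agent.BD48
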