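import Mathlib
import Pool.Agent.BD48.Block

/-!
Degree sequences on an interval realised by short edges.
-/

namespace Pool.Agent.BD48

open Finset

attribute [local instance] Classical.propDecidable

/-- the interval of the `len` residues starting with `a` -/
noncomputable def itv (n : ℕ) [NeZero n] (a len : ℕ) : Finset (ZMod n) :=
  univ.filter (fun v => a ≤ v.val ∧ v.val < a + len)

variable {n : ℕ} [NeZero n]

lemma mem_itv {a len : ℕ} {v : ZMod n} : v ∈ itv n a len ↔ a ≤ v.val ∧ v.val < a + len := by
  simp [itv]

lemma card_itv (a len : ℕ) (h : a + len ≤ n) : (itv n a len).card = len := by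
  have : (itv n a len) = (Finset.range len).image (fun i => ((a + i : ℕ) : ZMod n)) := by
    ext v
    rw [mem_itv, Finset.mem_image]
    constructor
    · rintro ⟨h1, h2⟩
      refine ⟨v.val - a, Finset.mem_range.mpr (by omega), ?_⟩
      have : a + (v.val - a) = v.val := by omega
      rw [this]
      exact ZMod.natCast_zmod_val v
    · rintro ⟨i, hi, rfl⟩
      rw [Finset.mem_range] at hi
      rw [ZMod.val_natCast_of_lt (by omega)]
      omega
  rw [this, Finset.card_image_of_injOn, Finset.card_range]
  intro i hi j hj hij
  rw [Finset.mem_coe, Finset.mem_range] at hi hj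
  have h1 := congrArg ZMod.val hij
  rw [ZMod.val_natCast_of_lt (by omega), ZMod.val_natCast_of_lt (by omega)] at h1
  omega

lemma card_pos_itv (a len : ℕ) (h : a + len ≤ n) (f : ZMod n → ℕ)
    (hf : ∀ v : ZMod n, a < v.val → v.val + 1 < a + len → 1 ≤ f v) :
    len ≤ ((itv n a len).filter (fun x => 1 ≤ f x)).card + 2 := by
  have hsub : (itv n a len) ⊆ ((itv n a len).filter (fun x => 1 ≤ f x)) ∪
      {((a : ℕ) : ZMod n), ((a + len - 1 : ℕ) : ZMod n)} := by
    intro v hv
    have hv' := mem_itv.mp hv
    rw [Finset.mem_union, Finset.mem_filter, Finset.mem_insert, Finset.mem_singleton]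
    by_cases h1 : v.val = a
    · right
      left
      rw [← h1]
      exact (ZMod.natCast_zmod_val v).symm
    · by_cases h2 : v.val + 1 = a + len
      · right
        right
        have : a + len - 1 = v.val := by omega
        rw [this]
        exact (ZMod.natCast_zmod_val v).symm
      · left
        refine ⟨hv, hf v (by omega) (by omega)⟩
  have h1 := Finset.card_le_card hsub
  rw [card_itv a len h] at h1
  have h2 := Finset.card_union_le ((itv n a len).filter (fun x => 1 ≤ f x))
    {((a : ℕ) : ZMod n), ((a + len - 1 : ℕ) : ZMod n)}
  have h3 : ({((a : ℕ) : ZMod n), ((a + len - 1 : ℕ) : ZMod n)} : Finset (ZMod n)).card ≤ 2 :=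
    Finset.card_le_two
  omega

lemma dg_sup_left (Z₁ Z₂ : SimpleGraph (ZMod n)) (v : ZMod n) (h : ∀ y, ¬ Z₂.Adj v y) :
    dg (Z₁ ⊔ Z₂) v = dg Z₁ v := by
  rw [dg_eq_card (Z₁ ⊔ Z₂) v (nb Z₁ v)]
  · rfl
  · intro y
    rw [mem_nb, SimpleGraph.sup_adj]
    constructor
    · exact Or.inl
    · rintro (h1 | h1)
      · exact h1
      · exact absurd h1 (h y)

lemma dg_sup_right (Z₁ Z₂ : SimpleGraph (ZMod n)) (v : ZMod n) (h : ∀ y, ¬ Z₁.Adj v y) :
    dg (Z₁ ⊔ Z₂) v = dg Z₂ v := by
  rw [sup_comm]
  exact dg_sup_left Z₂ Z₁ v h

theorem interval (D b : ℕ) (hb : b = D * D + 2 * D + 5) :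
    ∀ (len a : ℕ) (f : ZMod n → ℕ), b ≤ len → a + len ≤ n → (∀ v, f v ≤ D) →
      (∀ v : ZMod n, a < v.val → v.val < a + len → 1 ≤ f v) →
      Even (∑ v ∈ itv n a len, f v) →
      ∃ Z : SimpleGraph (ZMod n),
        (∀ x y, Z.Adj x y → (a ≤ x.val ∧ x.val < a + len) ∧ (a ≤ y.val ∧ y.val < a + len) ∧
          y.val < x.val + 2 * b) ∧ ∀ v ∈ itv n a len, dg Z v = f v := by
  intro len
  induction len using Nat.strong_induction_on with
  | _ len ih =>
    intro a f hlen han hD hpos heven
    by_cases hsmall : len < 2 * b
    · obtain ⟨Z, hZ1, hZ2⟩ := block (itv n a len) f D (fun x _ => hD x) (by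
        have := card_pos_itv a len han f (fun v h1 h2 => hpos v h1 (by omega))
        omega) heven
      refine ⟨Z, ?_, hZ2⟩
      intro x y hxy
      have h1 := mem_itv.mp (hZ1 x y hxy).1
      have h2 := mem_itv.mp (hZ1 x y hxy).2
      refine ⟨h1, h2, ?_⟩
      omega
    · push Not at hsmall
      -- split
      have hsplit : itv n a len = itv n a b ∪ itv n (a + b) (len - b) := by
        ext v
        rw [Finset.mem_union, mem_itv, mem_itv, mem_itv]
        omega
      have hdis : Disjoint (itv n a b) (itv n (a + b) (len - b)) := by
        rw [Finset.disjoint_left]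
        intro v h1 h2
        rw [mem_itv] at h1 h2
        omega
      rw [hsplit, Finset.sum_union hdis] at heven
      by_cases hev : Even (∑ v ∈ itv n a b, f v)
      · have hev2 : Even (∑ v ∈ itv n (a + b) (len - b), f v) := by
          rw [Nat.even_add] at heven
          exact heven.mp hev
        obtain ⟨Z₁, hZ11, hZ12⟩ := block (itv n a b) f D (fun x _ => hD x) (by
          have := card_pos_itv a b (by omega) f (fun v h1 h2 => hpos v h1 (by omega))
          omega) hev
        obtain ⟨Z₂, hZ21, hZ22⟩ := ih (len - b) (by omega) (a + b) f (by omega) (by omega) hD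
          (fun v h1 h2 => hpos v (by omega) (by omega)) hev2
        refine ⟨Z₁ ⊔ Z₂, ?_, ?_⟩
        · intro x y hxy
          rw [SimpleGraph.sup_adj] at hxy
          rcases hxy with hxy | hxy
          · have h1 := mem_itv.mp (hZ11 x y hxy).1
            have h2 := mem_itv.mp (hZ11 x y hxy).2
            omega
          · have h1 := hZ21 x y hxy
            omega
        · intro v hv
          rw [hsplit, Finset.mem_union] at hv
          rcases hv with hv | hv
          · rw [dg_sup_left, hZ12 v hv]
            intro y hy
            have h1 := hZ21 v y hy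
            rw [mem_itv] at hv
            omega
          · rw [dg_sup_right, hZ22 v hv]
            intro y hy
            have h1 := mem_itv.mp (hZ11 v y hy).1
            rw [mem_itv] at hv
            omega
      · -- use a crossing edge
        have hb2 : 5 ≤ b := by omega
        let p : ZMod n := ((a + b - 1 : ℕ) : ZMod n)
        let q : ZMod n := ((a + b : ℕ) : ZMod n)
        have hp : p.val = a + b - 1 := ZMod.val_natCast_of_lt (by omega)
        have hq : q.val = a + b := ZMod.val_natCast_of_lt (by omega)
        have hpq : p ≠ q := by
          intro h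
          rw [h] at hp
          omega
        have hfp : 1 ≤ f p := hpos p (by omega) (by omega)
        have hfq : 1 ≤ f q := hpos q (by omega) (by omega)
        have hpS : p ∈ itv n a b := mem_itv.mpr (by omega)
        have hqT : q ∈ itv n (a + b) (len - b) := mem_itv.mpr (by omega)
        let g : ZMod n → ℕ := fun v => f v - (if v = p then 1 else 0) - (if v = q then 1 else 0)
        have hg1 : ∀ v, g v ≤ f v := by
          intro v
          simp only [g]
          omega
        have hg2 : ∀ v, v ≠ p → v ≠ q → g v = f v := by
          intro v h1 h2
          simp [g, h1, h2]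
        have hgp : g p + 1 = f p := by
          simp only [g, if_true, if_neg hpq]
          omega
        have hgq : g q + 1 = f q := by
          simp only [g, if_true, if_neg hpq.symm]
          omega
        have hS : ∑ v ∈ itv n a b, f v = ∑ v ∈ itv n a b, g v + 1 := by
          rw [← Finset.sum_erase_add _ f hpS, ← Finset.sum_erase_add _ g hpS]
          have : ∑ v ∈ (itv n a b).erase p, f v = ∑ v ∈ (itv n a b).erase p, g v := by
            refine Finset.sum_congr rfl ?_
            intro v hv
            rw [Finset.mem_erase, mem_itv] at hv
            refine (hg2 v hv.1 ?_).symm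
            intro h
            rw [h] at hv
            omega
          omega
        have hT : ∑ v ∈ itv n (a + b) (len - b), f v
            = ∑ v ∈ itv n (a + b) (len - b), g v + 1 := by
          rw [← Finset.sum_erase_add _ f hqT, ← Finset.sum_erase_add _ g hqT]
          have : ∑ v ∈ (itv n (a + b) (len - b)).erase q, f v
              = ∑ v ∈ (itv n (a + b) (len - b)).erase q, g v := by
            refine Finset.sum_congr rfl ?_
            intro v hv
            rw [Finset.mem_erase, mem_itv] at hv
            refine (hg2 v ?_ hv.1).symm
            intro h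
            rw [h] at hv
            omega
          omega
        have hev1 : Even (∑ v ∈ itv n a b, g v) := by
          rw [hS] at hev
          rcases Nat.even_or_odd (∑ v ∈ itv n a b, g v) with h | h
          · exact h
          · exact absurd h.add_one hev
        have hev2 : Even (∑ v ∈ itv n (a + b) (len - b), g v) := by
          rw [hS, hT] at heven
          obtain ⟨x, hx⟩ := heven
          obtain ⟨y, hy⟩ := hev1
          exact ⟨x - y - 1, by omega⟩
        obtain ⟨Z₁, hZ11, hZ12⟩ := block (itv n a b) g D
          (fun x _ => le_trans (hg1 x) (hD x)) (by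
          have := card_pos_itv a b (by omega) g (fun v h1 h2 => by
            rw [hg2 v (by intro h; rw [h] at h2; omega) (by intro h; rw [h] at h2; omega)]
            exact hpos v h1 (by omega))
          omega) hev1
        obtain ⟨Z₂, hZ21, hZ22⟩ := ih (len - b) (by omega) (a + b) g (by omega) (by omega)
          (fun v => le_trans (hg1 v) (hD v))
          (fun v h1 h2 => by
            rw [hg2 v (by intro h; rw [h] at h1; omega) (by intro h; rw [h] at h1; omega)]
            exact hpos v (by omega) (by omega)) hev2
        have hnpq : ¬ (Z₁ ⊔ Z₂).Adj p q := by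
          rw [SimpleGraph.sup_adj]
          rintro (h | h)
          · have h1 := mem_itv.mp (hZ11 p q h).2
            omega
          · have h1 := hZ21 p q h
            omega
        refine ⟨Z₁ ⊔ Z₂ ⊔ SimpleGraph.edge p q, ?_, ?_⟩
        · intro x y hxy
          rw [SimpleGraph.sup_adj, SimpleGraph.sup_adj, SimpleGraph.edge_adj] at hxy
          rcases hxy with (hxy | hxy) | ⟨hxy | hxy, _⟩
          · have h1 := mem_itv.mp (hZ11 x y hxy).1
            have h2 := mem_itv.mp (hZ11 x y hxy).2
            omega
          · have h1 := hZ21 x y hxy
            omega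
          · rw [hxy.1, hxy.2]
            omega
          · rw [hxy.1, hxy.2]
            omega
        · intro v hv
          rw [dg_add _ p q hpq hnpq]
          rw [hsplit, Finset.mem_union] at hv
          rcases hv with hv | hv
          · have hvq : v ≠ q := by
              intro h
              rw [h, mem_itv] at hv
              omega
            rw [dg_sup_left, hZ12 v hv, if_neg hvq]
            · by_cases hvp : v = p
              · rw [if_pos hvp, hvp]
                omega
              · rw [if_neg hvp, hg2 v hvp hvq]
                omega
            · intro y hy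
              have h1 := hZ21 v y hy
              rw [mem_itv] at hv
              omega
          · have hvp : v ≠ p := by
              intro h
              rw [h, mem_itv] at hv
              omega
            rw [dg_sup_right, hZ22 v hv, if_neg hvp]
            · by_cases hvq : v = q
              · rw [if_pos hvq, hvq]
                omega
              · rw [if_neg hvq, hg2 v hvp hvq]
                omega
            · intro y hy
              have h1 := mem_itv.mp (hZ11 v y hy).1
              rw [mem_itv] at hv
              omega

end Pool.Agent.BD48
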