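import Mathlib
import Pool.Agent.BD48.Interval

/-!
Separations on a cycle of residues: colour changes and the case without short changes.
-/

namespace Pool.Agent.BD48

open Finset

attribute [local instance] Classical.propDecidable

variable {n : ℕ} [NeZero n]

lemma cast_add_inj {c : ZMod n} {i j : ℕ} (hi : i < n) (hj : j < n)
    (h : c + (i : ZMod n) = c + (j : ZMod n)) : i = j := by
  have h1 := add_left_cancel h
  have h2 := congrArg ZMod.val h1
  rwa [ZMod.val_natCast_of_lt hi, ZMod.val_natCast_of_lt hj] at h2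

lemma exists_offset (c d : ZMod n) : ∃ y : ℕ, y < n ∧ d = c + (y : ZMod n) := by
  refine ⟨(d - c).val, ZMod.val_lt _, ?_⟩
  rw [ZMod.natCast_zmod_val]
  ring

lemma eq_zero_of_cast {y : ℕ} (h : (y : ZMod n) = 0) (h2 : y < n) : y = 0 := by
  have h1 := (ZMod.natCast_eq_zero_iff y n).mp h
  exact Nat.eq_zero_of_dvd_of_lt h1 h2

/-- there is a colour change -/
lemma change {C D X : Finset (ZMod n)} (hcov : ∀ x, x ∈ C ∨ x ∈ D ∨ x ∈ X)
    (hCD : ∀ x, x ∈ C → x ∉ D) (hC : C.Nonempty) (hD : D.Nonempty) :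
    ∃ c ∈ C, ∃ j : ℕ, 1 ≤ j ∧ j < n ∧ c + (j : ZMod n) ∈ D ∧
      ∀ i : ℕ, 1 ≤ i → i < j → c + (i : ZMod n) ∈ X := by
  obtain ⟨c0, hc0⟩ := hC
  obtain ⟨d0, hd0⟩ := hD
  have hex : ∃ j : ℕ, 1 ≤ j ∧ ∃ c ∈ C, c + (j : ZMod n) ∈ D := by
    obtain ⟨y, hy, hd⟩ := exists_offset c0 d0
    refine ⟨y, ?_, c0, hc0, by rw [← hd]; exact hd0⟩
    rcases Nat.eq_zero_or_pos y with h | h
    · exfalso
      subst h
      rw [Nat.cast_zero, add_zero] at hd
      exact hCD c0 hc0 (by rw [← hd]; exact hd0)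
    · exact h
  obtain ⟨hj1, c, hc, hcj⟩ := Nat.find_spec hex
  have hmin : ∀ m < Nat.find hex, ¬ (1 ≤ m ∧ ∃ c ∈ C, c + (m : ZMod n) ∈ D) :=
    fun m hm => Nat.find_min hex hm
  refine ⟨c, hc, Nat.find hex, hj1, ?_, hcj, ?_⟩
  · obtain ⟨y, hy, hd⟩ := exists_offset c0 d0
    have hy1 : 1 ≤ y := by
      rcases Nat.eq_zero_or_pos y with h | h
      · exfalso
        subst h
        rw [Nat.cast_zero, add_zero] at hd
        exact hCD c0 hc0 (by rw [← hd]; exact hd0)
      · exact h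
    exact lt_of_le_of_lt (Nat.find_min' hex ⟨hy1, c0, hc0, by rw [← hd]; exact hd0⟩) hy
  · intro i hi1 hi2
    rcases hcov (c + (i : ZMod n)) with h | h | h
    · exfalso
      refine hmin (Nat.find hex - i) (by omega) ⟨by omega, c + (i : ZMod n), h, ?_⟩
      have : c + (i : ZMod n) + ((Nat.find hex - i : ℕ) : ZMod n)
          = c + ((Nat.find hex : ℕ) : ZMod n) := by
        rw [Nat.cast_sub (by omega)]
        ring
      rw [this]
      exact hcj
    · exact absurd ⟨hi1, c, hc, h⟩ (hmin i hi2)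
    · exact h

lemma arcfill (r : ℕ) (hr : 1 ≤ r) {C D X : Finset (ZMod n)} (c d : ZMod n) (y : ℕ)
    (hcov : ∀ x, x ∈ C ∨ x ∈ D ∨ x ∈ X)
    (hX : ∀ x ∈ X, (∃ i : ℕ, 1 ≤ i ∧ i ≤ r ∧ x = c + (i : ZMod n)) ∨
      (∃ i : ℕ, 1 ≤ i ∧ i ≤ r ∧ x = d + (i : ZMod n)))
    (hd : d = c + (y : ZMod n)) (hyn : y + r + 1 ≤ n)
    (h2 : ∀ (x : ZMod n) (i : ℕ), 1 ≤ i → i ≤ r → x ∈ D → x + (i : ZMod n) ∈ C → False)
    (hbase : c + ((r + 1 : ℕ) : ZMod n) ∈ D) :
    ∀ i : ℕ, r + 1 ≤ i → i ≤ y → c + (i : ZMod n) ∈ D := by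
  intro i hi
  induction i, hi using Nat.le_induction with
  | base => exact fun _ => hbase
  | succ i hi ih =>
    intro hiy
    have h := ih (by omega)
    rcases hcov (c + ((i + 1 : ℕ) : ZMod n)) with h' | h' | h'
    · exfalso
      refine h2 (c + (i : ZMod n)) 1 le_rfl hr h ?_
      have : c + (i : ZMod n) + ((1 : ℕ) : ZMod n) = c + ((i + 1 : ℕ) : ZMod n) := by
        push_cast
        ring
      rw [this]
      exact h'
    · exact h'
    · exfalso
      rcases hX _ h' with ⟨t, ht1, ht2, ht⟩ | ⟨t, ht1, ht2, ht⟩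
      · have := cast_add_inj (by omega) (by omega) ht
        omega
      · rw [hd] at ht
        have h3 : ((t + (y - (i + 1)) : ℕ) : ZMod n) = 0 := by
          have h4 : c + ((i + 1 : ℕ) : ZMod n) + ((y - (i + 1) : ℕ) : ZMod n)
              = c + (y : ZMod n) := by
            rw [Nat.cast_sub hiy]
            ring
          rw [ht] at h4
          have h5 : c + (y : ZMod n) + ((t : ZMod n) + ((y - (i + 1) : ℕ) : ZMod n))
              = c + (y : ZMod n) + 0 := by
            rw [add_zero]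
            rw [← add_assoc]
            exact h4
          have h6 := add_left_cancel h5
          rw [Nat.cast_add]
          exact h6
        have h7 := eq_zero_of_cast h3 (by omega)
        omega

/-- the case without short colour changes -/
theorem caseB (r : ℕ) (hr : 1 ≤ r) {C D X : Finset (ZMod n)}
    (hcov : ∀ x, x ∈ C ∨ x ∈ D ∨ x ∈ X)
    (hCD : ∀ x, x ∈ C → x ∉ D) (hCX : ∀ x, x ∈ C → x ∉ X) (hDX : ∀ x, x ∈ D → x ∉ X)
    (hC : C.Nonempty) (hD : D.Nonempty) (hXr : X.card ≤ 2 * r)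
    (h1 : ∀ (x : ZMod n) (i : ℕ), 1 ≤ i → i ≤ r → x ∈ C → x + (i : ZMod n) ∈ D → False)
    (h2 : ∀ (x : ZMod n) (i : ℕ), 1 ≤ i → i ≤ r → x ∈ D → x + (i : ZMod n) ∈ C → False) :
    X.card = 2 * r ∧
      ((∃ c ∈ C, ∀ h : ℕ, r + 1 ≤ h → 2 * h ≤ n + 1 → c + (h : ZMod n) ∈ D) ∨
        (∃ d ∈ D, ∀ h : ℕ, r + 1 ≤ h → 2 * h ≤ n + 1 → d + (h : ZMod n) ∈ C)) := by
  obtain ⟨c, hc, j, hj1, hjn, hcj, hbet⟩ := change hcov hCD hC hD
  obtain ⟨d, hd, j', hj1', hjn', hdj, hbet'⟩ := change (C := D) (D := C) (X := X)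
    (fun x => by
      rcases hcov x with h | h | h
      · exact Or.inr (Or.inl h)
      · exact Or.inl h
      · exact Or.inr (Or.inr h)) (fun x hx hx' => hCD x hx' hx) hD hC
  have hjr : r + 1 ≤ j := by
    by_contra hcon
    exact h1 c j hj1 (by omega) hc hcj
  have hjr' : r + 1 ≤ j' := by
    by_contra hcon
    exact h2 d j' hj1' (by omega) hd hdj
  let A1 : Finset (ZMod n) := (Finset.Ico 1 j).image (fun i : ℕ => c + (i : ZMod n))
  let A2 : Finset (ZMod n) := (Finset.Ico 1 j').image (fun i : ℕ => d + (i : ZMod n))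
  have hA1 : A1 ⊆ X := by
    intro x hx
    obtain ⟨i, hi, rfl⟩ := Finset.mem_image.mp hx
    rw [Finset.mem_Ico] at hi
    exact hbet i hi.1 hi.2
  have hA2 : A2 ⊆ X := by
    intro x hx
    obtain ⟨i, hi, rfl⟩ := Finset.mem_image.mp hx
    rw [Finset.mem_Ico] at hi
    exact hbet' i hi.1 hi.2
  have hA1c : A1.card = j - 1 := by
    rw [Finset.card_image_of_injOn, Nat.card_Ico]
    intro a ha b hb hab
    rw [Finset.mem_coe, Finset.mem_Ico] at ha hb
    exact cast_add_inj (by omega) (by omega) hab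
  have hA2c : A2.card = j' - 1 := by
    rw [Finset.card_image_of_injOn, Nat.card_Ico]
    intro a ha b hb hab
    rw [Finset.mem_coe, Finset.mem_Ico] at ha hb
    exact cast_add_inj (by omega) (by omega) hab
  have hdis : Disjoint A1 A2 := by
    rw [Finset.disjoint_left]
    intro x hx1 hx2
    obtain ⟨i, hi, rfl⟩ := Finset.mem_image.mp hx1
    obtain ⟨i', hi', hEq⟩ := Finset.mem_image.mp hx2
    rw [Finset.mem_Ico] at hi hi'
    rcases Nat.lt_trichotomy i i' with h | h | h
    · have h3 : d + ((i' - i : ℕ) : ZMod n) = c := by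
        rw [Nat.cast_sub h.le]
        have : d + (i' : ZMod n) = c + (i : ZMod n) := hEq
        linear_combination this
      exact hCX c hc (by rw [← h3]; exact hbet' (i' - i) (by omega) (by omega))
    · subst h
      have h3 : d = c := add_right_cancel hEq
      exact hCD c hc (by rw [← h3]; exact hd)
    · have h3 : c + ((i - i' : ℕ) : ZMod n) = d := by
        rw [Nat.cast_sub h.le]
        have : d + (i' : ZMod n) = c + (i : ZMod n) := hEq
        linear_combination -this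
      exact hDX d hd (by rw [← h3]; exact hbet (i - i') (by omega) (by omega))
  have hsub : A1 ∪ A2 ⊆ X := Finset.union_subset hA1 hA2
  have hcard : (A1 ∪ A2).card = (j - 1) + (j' - 1) := by
    rw [Finset.card_union_of_disjoint hdis, hA1c, hA2c]
  have hle := Finset.card_le_card hsub
  rw [hcard] at hle
  have hj : j = r + 1 := by omega
  have hj' : j' = r + 1 := by omega
  have hXc : X.card = 2 * r := by omega
  have hXeq : A1 ∪ A2 = X := Finset.eq_of_subset_of_card_le hsub (by rw [hcard]; omega)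
  have hXarc : ∀ x ∈ X, (∃ i : ℕ, 1 ≤ i ∧ i ≤ r ∧ x = c + (i : ZMod n)) ∨
      (∃ i : ℕ, 1 ≤ i ∧ i ≤ r ∧ x = d + (i : ZMod n)) := by
    intro x hx
    rw [← hXeq, Finset.mem_union] at hx
    rcases hx with hx | hx
    · obtain ⟨i, hi, rfl⟩ := Finset.mem_image.mp hx
      rw [Finset.mem_Ico] at hi
      exact Or.inl ⟨i, hi.1, by omega, rfl⟩
    · obtain ⟨i, hi, rfl⟩ := Finset.mem_image.mp hx
      rw [Finset.mem_Ico] at hi
      exact Or.inr ⟨i, hi.1, by omega, rfl⟩
  refine ⟨hXc, ?_⟩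
  obtain ⟨y, hyn, hy⟩ := exists_offset c d
  have hy0 : r + 1 ≤ y := by
    by_contra hcon
    rcases Nat.eq_zero_or_pos y with h | h
    · subst h
      rw [Nat.cast_zero, add_zero] at hy
      exact hCD c hc (by rw [← hy]; exact hd)
    · exact hDX d hd (by rw [hy]; exact hbet y (by omega) (by omega))
  have hy' : c = d + ((n - y : ℕ) : ZMod n) := by
    rw [hy, Nat.cast_sub hyn.le, ZMod.natCast_self]
    ring
  have hy0' : r + 1 ≤ n - y := by
    by_contra hcon
    exact hCX c hc (by rw [hy']; exact hbet' (n - y) (by omega) (by omega))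
  have hbase : c + ((r + 1 : ℕ) : ZMod n) ∈ D := by rw [← hj]; exact hcj
  have hbase' : d + ((r + 1 : ℕ) : ZMod n) ∈ C := by rw [← hj']; exact hdj
  have hfillD := arcfill r hr c d y hcov hXarc hy (by omega) h2 hbase
  have hfillC := arcfill (C := D) (D := C) (X := X) r hr d c (n - y)
    (fun x => by
      rcases hcov x with h | h | h
      · exact Or.inr (Or.inl h)
      · exact Or.inl h
      · exact Or.inr (Or.inr h)) (fun x hx => (hXarc x hx).symm) hy' (by omega) h1 hbase'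
  by_cases hcmp : n - y ≤ y
  · left
    exact ⟨c, hc, fun h hh1 hh2 => hfillD h hh1 (by omega)⟩
  · right
    exact ⟨d, hd, fun h hh1 hh2 => hfillC h hh1 (by omega)⟩

end Pool.Agent.BD48
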