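import Mathlib
import Pool.Agent.BD48.CircB

/-!
Separations on a cycle of residues: a short colour change localises one of the two sides.
-/

namespace Pool.Agent.BD48

open Finset

attribute [local instance] Classical.propDecidable

variable {n : ℕ} [NeZero n]

lemma window (m r : ℕ) {C D X : Finset (ZMod n)}
    (hcov : ∀ x, x ∈ C ∨ x ∈ D ∨ x ∈ X)
    (h1 : ∀ (x : ZMod n) (i : ℕ), m < i → i ≤ r → x ∈ C → x + (i : ZMod n) ∈ D → False)
    (h2 : ∀ (x : ZMod n) (i : ℕ), m < i → i ≤ r → x ∈ D → x + (i : ZMod n) ∈ C → False)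
    (p : ZMod n) (j : ℕ) (hp : p ∈ C) (hq : p + (j : ZMod n) ∈ D) :
    (∀ i : ℕ, j + m < i → i ≤ r → p + (i : ZMod n) ∈ X) ∧
      (∀ (x : ZMod n) (i : ℕ), j + m < i → i ≤ r → x + (i : ZMod n) = p + (j : ZMod n) →
        x ∈ X) := by
  refine ⟨?_, ?_⟩
  · intro i hi1 hi2
    rcases hcov (p + (i : ZMod n)) with h | h | h
    · exfalso
      refine h2 (p + (j : ZMod n)) (i - j) (by omega) (by omega) hq ?_
      have : p + (j : ZMod n) + ((i - j : ℕ) : ZMod n) = p + (i : ZMod n) := by
        rw [Nat.cast_sub (by omega)]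
        ring
      rw [this]
      exact h
    · exact absurd h (fun h => h1 p i (by omega) hi2 hp h)
    · exact h
  · intro x i hi1 hi2 hx
    rcases hcov x with h | h | h
    · exfalso
      exact h1 x i (by omega) hi2 h (by rw [hx]; exact hq)
    · exfalso
      refine h2 x (i - j) (by omega) (by omega) h ?_
      have : x + ((i - j : ℕ) : ZMod n) = p := by
        rw [Nat.cast_sub (by omega)]
        linear_combination hx
      rw [this]
      exact hp
    · exact h

/-- a short colour change localises one of the two sides -/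
theorem localize (m r : ℕ) {C D X : Finset (ZMod n)} (hm : 1 ≤ m) (hr : 6 * m < r)
    (hn : 2 * r + 7 * m + 2 ≤ n)
    (hcov : ∀ x, x ∈ C ∨ x ∈ D ∨ x ∈ X)
    (hCD : ∀ x, x ∈ C → x ∉ D) (hCX : ∀ x, x ∈ C → x ∉ X) (hDX : ∀ x, x ∈ D → x ∉ X)
    (hXr : X.card ≤ 2 * r)
    (h1 : ∀ (x : ZMod n) (i : ℕ), m < i → i ≤ r → x ∈ C → x + (i : ZMod n) ∈ D → False)
    (h2 : ∀ (x : ZMod n) (i : ℕ), m < i → i ≤ r → x ∈ D → x + (i : ZMod n) ∈ C → False)
    (p : ZMod n) (j : ℕ) (hj1 : 1 ≤ j) (hjm : j ≤ m) (hp : p ∈ C) (hq : p + (j : ZMod n) ∈ D) :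
    (∀ x ∈ C, ∃ i : ℕ, i ≤ 3 * m ∧ x = (p - (m : ZMod n)) + (i : ZMod n)) ∨
      (∀ x ∈ D, ∃ i : ℕ, i ≤ 3 * m ∧ x = (p - (m : ZMod n)) + (i : ZMod n)) := by
  obtain ⟨hWR, hWL⟩ := window m r hcov h1 h2 p j hp hq
  -- the far positions in `X`
  let XF : Finset ℕ := (Finset.Ioo r (n + j - r)).filter (fun i => p + (i : ZMod n) ∈ X)
  have hWL' : ∀ t : ℕ, n + j - r ≤ t → t < n - m → p + (t : ZMod n) ∈ X := by
    intro t ht1 ht2
    refine hWL _ (n + j - t) (by omega) (by omega) ?_
    have : ((n + j - t : ℕ) : ZMod n) = (n : ZMod n) + (j : ZMod n) - (t : ZMod n) := by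
      rw [Nat.cast_sub (by omega), Nat.cast_add]
    rw [this, ZMod.natCast_self]
    ring
  have hXF : XF.card ≤ 4 * m := by
    let P : Finset ℕ := (Finset.Ioc (j + m) r ∪ Finset.Ico (n + j - r) (n - m)) ∪ XF
    have hPX : P.card ≤ X.card := by
      refine Finset.card_le_card_of_injOn (fun i : ℕ => p + (i : ZMod n)) ?_ ?_
      · intro i hi
        rw [Finset.mem_coe, Finset.mem_union, Finset.mem_union, Finset.mem_Ioc, Finset.mem_Ico,
          Finset.mem_filter] at hi
        rcases hi with (hi | hi) | hi
        · exact hWR i hi.1 hi.2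
        · exact hWL' i hi.1 hi.2
        · exact hi.2
      · intro a ha b hb hab
        rw [Finset.mem_coe, Finset.mem_union, Finset.mem_union, Finset.mem_Ioc, Finset.mem_Ico,
          Finset.mem_filter, Finset.mem_Ioo] at ha hb
        refine cast_add_inj ?_ ?_ hab
        · rcases ha with (ha | ha) | ha <;> omega
        · rcases hb with (hb | hb) | hb <;> omega
    have hd1 : Disjoint (Finset.Ioc (j + m) r) (Finset.Ico (n + j - r) (n - m)) := by
      rw [Finset.disjoint_left]
      intro i hi hi'
      rw [Finset.mem_Ioc] at hi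
      rw [Finset.mem_Ico] at hi'
      omega
    have hd2 : Disjoint (Finset.Ioc (j + m) r ∪ Finset.Ico (n + j - r) (n - m)) XF := by
      rw [Finset.disjoint_left]
      intro i hi hi'
      rw [Finset.mem_union, Finset.mem_Ioc, Finset.mem_Ico] at hi
      rw [Finset.mem_filter, Finset.mem_Ioo] at hi'
      rcases hi with hi | hi <;> omega
    have hPc : P.card = (r - (j + m)) + ((n - m) - (n + j - r)) + XF.card := by
      rw [Finset.card_union_of_disjoint hd2, Finset.card_union_of_disjoint hd1, Nat.card_Ioc,
        Nat.card_Ico]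
    omega
  -- the far region is monochromatic
  have hmono : ∀ k : ℕ, 1 ≤ k → ∀ a : ℕ, r < a → a + k < n + j - r →
      ¬ ((p + (a : ZMod n) ∈ C ∧ p + ((a + k : ℕ) : ZMod n) ∈ D) ∨
        (p + (a : ZMod n) ∈ D ∧ p + ((a + k : ℕ) : ZMod n) ∈ C)) := by
    intro k
    induction k using Nat.strong_induction_on with
    | _ k ih =>
      intro hk a ha hak hpair
      -- everything in between is in `X`
      have hbet : ∀ t : ℕ, 1 ≤ t → t < k → p + ((a + t : ℕ) : ZMod n) ∈ X := by
        intro t ht1 ht2
        have e : a + t + (k - t) = a + k := by omega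
        rcases hcov (p + ((a + t : ℕ) : ZMod n)) with h | h | h
        · exfalso
          rcases hpair with hpair | hpair
          · refine ih (k - t) (by omega) (by omega) (a + t) (by omega) (by omega) ?_
            rw [e]
            exact Or.inl ⟨h, hpair.2⟩
          · exact ih t ht2 ht1 a ha (by omega) (Or.inr ⟨hpair.1, h⟩)
        · exfalso
          rcases hpair with hpair | hpair
          · exact ih t ht2 ht1 a ha (by omega) (Or.inl ⟨hpair.1, h⟩)
          · refine ih (k - t) (by omega) (by omega) (a + t) (by omega) (by omega) ?_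
            rw [e]
            exact Or.inr ⟨h, hpair.2⟩
        · exact h
      have hk4 : k - 1 ≤ 4 * m := by
        have : (Finset.Ioo a (a + k)) ⊆ XF := by
          intro t ht
          rw [Finset.mem_Ioo] at ht
          rw [Finset.mem_filter, Finset.mem_Ioo]
          refine ⟨by omega, ?_⟩
          have e : a + (t - a) = t := by omega
          have := hbet (t - a) (by omega) (by omega)
          rw [e] at this
          exact this
        have h3 := Finset.card_le_card this
        rw [Nat.card_Ioo] at h3
        omega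
      have hcast : p + (a : ZMod n) + (k : ZMod n) = p + ((a + k : ℕ) : ZMod n) := by
        push_cast
        ring
      have hkm : k ≤ m := by
        by_contra hcon
        rcases hpair with hpair | hpair
        · exact h1 (p + (a : ZMod n)) k (by omega) (by omega) hpair.1 (by rw [hcast]; exact hpair.2)
        · exact h2 (p + (a : ZMod n)) k (by omega) (by omega) hpair.1 (by rw [hcast]; exact hpair.2)
      have hwin : (∀ i : ℕ, k + m < i → i ≤ r → p + (a : ZMod n) + (i : ZMod n) ∈ X) ∧
          (∀ (x : ZMod n) (i : ℕ), k + m < i → i ≤ r →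
            x + (i : ZMod n) = p + (a : ZMod n) + (k : ZMod n) → x ∈ X) := by
        rcases hpair with hpair | hpair
        · exact window m r hcov h1 h2 (p + (a : ZMod n)) k hpair.1 (by rw [hcast]; exact hpair.2)
        · refine window (C := D) (D := C) (X := X) m r ?_ h2 h1 (p + (a : ZMod n)) k hpair.1
            (by rw [hcast]; exact hpair.2)
          intro x
          rcases hcov x with h | h | h
          · exact Or.inr (Or.inl h)
          · exact Or.inl h
          · exact Or.inr (Or.inr h)
      let S1 : Finset ℕ := Finset.Ioo (a + k + m) (min (a + r + 1) (n + j - r))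
      let S2 : Finset ℕ := Finset.Ico (max (a + k - r) (r + 1)) (a - m)
      have hS1 : S1 ⊆ XF := by
        intro t ht
        rw [Finset.mem_Ioo, lt_min_iff] at ht
        rw [Finset.mem_filter, Finset.mem_Ioo]
        refine ⟨by omega, ?_⟩
        have h3 := hwin.1 (t - a) (by omega) (by omega)
        have e : p + (a : ZMod n) + ((t - a : ℕ) : ZMod n) = p + (t : ZMod n) := by
          rw [Nat.cast_sub (by omega)]
          ring
        rw [e] at h3
        exact h3
      have hS2 : S2 ⊆ XF := by
        intro t ht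
        rw [Finset.mem_Ico, max_le_iff] at ht
        rw [Finset.mem_filter, Finset.mem_Ioo]
        refine ⟨by omega, ?_⟩
        refine hwin.2 _ (a + k - t) (by omega) (by omega) ?_
        rw [Nat.cast_sub (by omega)]
        push_cast
        ring
      have hS12 : Disjoint S1 S2 := by
        rw [Finset.disjoint_left]
        intro t ht ht'
        rw [Finset.mem_Ioo] at ht
        rw [Finset.mem_Ico] at ht'
        omega
      have hle := Finset.card_le_card (Finset.union_subset hS1 hS2)
      rw [Finset.card_union_of_disjoint hS12, Nat.card_Ioo, Nat.card_Ico] at hle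
      omega
  have hmono' : ∀ a b : ℕ, r < a → a < n + j - r → r < b → b < n + j - r →
      p + (a : ZMod n) ∈ C → p + (b : ZMod n) ∈ D → False := by
    intro a b ha1 ha2 hb1 hb2 haC hbD
    rcases Nat.lt_trichotomy a b with h | h | h
    · refine hmono (b - a) (by omega) a ha1 (by omega) (Or.inl ⟨haC, ?_⟩)
      have e : a + (b - a) = b := by omega
      rw [e]
      exact hbD
    · subst h
      exact hCD _ haC hbD
    · refine hmono (a - b) (by omega) b hb1 (by omega) (Or.inr ⟨hbD, ?_⟩)
      have e : b + (a - b) = a := by omega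
      rw [e]
      exact haC
  -- a far vertex outside `X`
  obtain ⟨t0, ht0, ht0X⟩ : ∃ t0 ∈ Finset.Ioo r (n + j - r), p + (t0 : ZMod n) ∉ X := by
    by_contra hcon
    push Not at hcon
    have : Finset.Ioo r (n + j - r) ⊆ XF := by
      intro t ht
      exact Finset.mem_filter.mpr ⟨ht, hcon t ht⟩
    have h3 := Finset.card_le_card this
    rw [Nat.card_Ioo] at h3
    omega
  rw [Finset.mem_Ioo] at ht0
  have hfinal : ∀ x : ZMod n, x ∉ X →
      (∀ i : ℕ, r < i → i < n + j - r → x ≠ p + (i : ZMod n)) →
      ∃ i : ℕ, i ≤ 3 * m ∧ x = (p - (m : ZMod n)) + (i : ZMod n) := by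
    intro x hx hfar
    obtain ⟨i, hin, hi⟩ := exists_offset p x
    have hcases : i ≤ j + m ∨ n - m ≤ i := by
      by_contra hcon
      push Not at hcon
      by_cases hA : i ≤ r
      · exact hx (by rw [hi]; exact hWR i hcon.1 hA)
      · by_cases hB : i < n + j - r
        · exact hfar i (by omega) hB hi
        · exact hx (by rw [hi]; exact hWL' i (by omega) hcon.2)
    rcases hcases with h | h
    · refine ⟨m + i, by omega, ?_⟩
      rw [hi]
      push_cast
      ring
    · refine ⟨m + i - n, by omega, ?_⟩
      rw [hi, Nat.cast_sub (by omega), ZMod.natCast_self]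
      push_cast
      ring
  rcases hcov (p + (t0 : ZMod n)) with h | h | h
  · right
    intro x hx
    refine hfinal x (hDX x hx) ?_
    intro i hi1 hi2 hxi
    exact hmono' t0 i ht0.1 ht0.2 hi1 hi2 h (by rw [← hxi]; exact hx)
  · left
    intro x hx
    refine hfinal x (hCX x hx) ?_
    intro i hi1 hi2 hxi
    exact hmono' i t0 hi1 hi2 ht0.1 ht0.2 (by rw [← hxi]; exact hx) h
  · exact absurd h ht0X

end Pool.Agent.BD48
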