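import Mathlib
import Pool.Agent.BD48.CircA

/-!
The separation theorem: a power of a cycle, minus a sparse graph of short edges, plus a graph of long
edges is highly connected.
-/

namespace Pool.Agent.BD48

open Finset

attribute [local instance] Classical.propDecidable

/-- no separation with fewer than `k` separating vertices -/
def SepFree {V : Type*} (H : SimpleGraph V) (k : ℕ) : Prop :=
  ∀ C D X : Finset V, (∀ x, x ∈ C ∨ x ∈ D ∨ x ∈ X) → (∀ x, x ∈ C → x ∉ D) →
    (∀ x, x ∈ C → x ∉ X) → (∀ x, x ∈ D → x ∉ X) → C.Nonempty → D.Nonempty →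
    X.card + 1 ≤ k → (∀ x ∈ C, ∀ y ∈ D, ¬ H.Adj x y) → False

variable {n : ℕ} [NeZero n]

lemma small_side (H Z : SimpleGraph (ZMod n)) (L : ZMod n → Finset (ZMod n)) (k r m : ℕ)
    (hk1 : 2 * r ≤ k) (hn : 2 * r + 7 * m + 2 ≤ n)
    (H1 : ∀ (v : ZMod n) (i : ℕ), 1 ≤ i → i ≤ r → ¬ Z.Adj v (v + (i : ZMod n)) →
      H.Adj v (v + (i : ZMod n)))
    (HL1 : ∀ v x : ZMod n, x ∈ L v → H.Adj v x)
    (HL2 : ∀ v x : ZMod n, x ∈ L v → ∀ i : ℕ, i ≤ r + 3 * m →
      x ≠ v + (i : ZMod n) ∧ v ≠ x + (i : ZMod n))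
    (HL3 : ∀ (v : ZMod n) (i : ℕ), 1 ≤ i → i ≤ 3 * m → Disjoint (L v) (L (v + (i : ZMod n))))
    (HL4 : ∀ v, dg Z v + (k - 2 * r) ≤ (L v).card)
    (Hdeg : ∀ v, k ≤ dg H v)
    (C D X : Finset (ZMod n)) (hcov : ∀ x, x ∈ C ∨ x ∈ D ∨ x ∈ X)
    (hCne : C.Nonempty)
    (hno : ∀ x ∈ C, ∀ y ∈ D, ¬ H.Adj x y) (o : ZMod n)
    (hloc : ∀ x ∈ C, ∃ i : ℕ, i ≤ 3 * m ∧ x = o + (i : ZMod n)) :
    k ≤ X.card := by
  let I : Finset ℕ := (Finset.range (3 * m + 1)).filter (fun i => o + (i : ZMod n) ∈ C)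
  have hIne : I.Nonempty := by
    obtain ⟨x, hx⟩ := hCne
    obtain ⟨i, hi, hxi⟩ := hloc x hx
    exact ⟨i, Finset.mem_filter.mpr ⟨Finset.mem_range.mpr (by omega), by rw [← hxi]; exact hx⟩⟩
  obtain ⟨s, hsI, hsmin⟩ : ∃ s ∈ I, ∀ t ∈ I, s ≤ t :=
    ⟨I.min' hIne, I.min'_mem hIne, fun t ht => I.min'_le t ht⟩
  obtain ⟨e, heI, hemax⟩ : ∃ e ∈ I, ∀ t ∈ I, t ≤ e :=
    ⟨I.max' hIne, I.max'_mem hIne, fun t ht => I.le_max' t ht⟩
  have hs := Finset.mem_filter.mp hsI
  have he := Finset.mem_filter.mp heI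
  rw [Finset.mem_range] at hs he
  have hCt : ∀ x ∈ C, ∃ t : ℕ, s ≤ t ∧ t ≤ e ∧ x = o + (t : ZMod n) := by
    intro x hx
    obtain ⟨i, hi, hxi⟩ := hloc x hx
    have hiI : i ∈ I :=
      Finset.mem_filter.mpr ⟨Finset.mem_range.mpr (by omega), by rw [← hxi]; exact hx⟩
    exact ⟨i, hsmin i hiI, hemax i hiI, hxi⟩
  have hse : s ≤ e := hsmin e heI
  rcases Nat.eq_or_lt_of_le hse with hse' | hse'
  · -- a single vertex
    subst hse'
    refine le_trans (Hdeg (o + (s : ZMod n))) ?_
    unfold dg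
    refine Finset.card_le_card ?_
    intro y hy
    rw [mem_nb] at hy
    rcases hcov y with h | h | h
    · exfalso
      obtain ⟨t, ht1, ht2, hyt⟩ := hCt y h
      have : t = s := le_antisymm ht2 ht1
      subst this
      rw [hyt] at hy
      exact hy.ne rfl
    · exact absurd hy (hno _ hs.2 y h)
    · exact h
  · let u : ZMod n := o + (s : ZMod n)
    let w : ZMod n := o + (e : ZMod n)
    have hu : u ∈ C := hs.2
    have hw : w ∈ C := he.2
    have hwu : ∀ t : ℕ, w + (t : ZMod n) = u + ((e - s + t : ℕ) : ZMod n) := by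
      intro t
      simp only [w, u]
      rw [Nat.cast_add, Nat.cast_sub hse]
      ring
    let A1 : Finset (ZMod n) :=
      ((Finset.Ioc 0 r).filter (fun i : ℕ => ¬ Z.Adj w (w + (i : ZMod n)))).image
        (fun i : ℕ => w + (i : ZMod n))
    let A2 : Finset (ZMod n) :=
      ((Finset.Ioc 0 r).filter (fun i : ℕ => ¬ Z.Adj (u - (i : ZMod n)) u)).image
        (fun i : ℕ => u - (i : ZMod n))
    have hA1c : r ≤ A1.card + dg Z w := by
      have h1 : A1.card = ((Finset.Ioc 0 r).filter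
          (fun i : ℕ => ¬ Z.Adj w (w + (i : ZMod n)))).card := by
        refine Finset.card_image_of_injOn ?_
        intro a ha b hb hab
        rw [Finset.mem_coe, Finset.mem_filter, Finset.mem_Ioc] at ha hb
        exact cast_add_inj (by omega) (by omega) hab
      have h2 : ((Finset.Ioc 0 r).filter (fun i : ℕ => Z.Adj w (w + (i : ZMod n)))).card
          ≤ dg Z w := by
        unfold dg
        refine Finset.card_le_card_of_injOn (fun i : ℕ => w + (i : ZMod n)) ?_ ?_
        · intro i hi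
          rw [Finset.mem_coe, Finset.mem_filter] at hi
          rw [Finset.mem_coe, mem_nb]
          exact hi.2
        · intro a ha b hb hab
          rw [Finset.mem_coe, Finset.mem_filter, Finset.mem_Ioc] at ha hb
          exact cast_add_inj (by omega) (by omega) hab
      have h3 := Finset.card_filter_add_card_filter_not (s := Finset.Ioc 0 r)
        (fun i : ℕ => Z.Adj w (w + (i : ZMod n)))
      rw [Nat.card_Ioc] at h3
      omega
    have hsub_inj : ∀ a b : ℕ, a < n → b < n → u - (a : ZMod n) = u - (b : ZMod n) → a = b := by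
      intro a b ha hb hab
      refine cast_add_inj (c := (0 : ZMod n)) ha hb ?_
      linear_combination -hab
    have hA2c : r ≤ A2.card + dg Z u := by
      have h1 : A2.card = ((Finset.Ioc 0 r).filter
          (fun i : ℕ => ¬ Z.Adj (u - (i : ZMod n)) u)).card := by
        refine Finset.card_image_of_injOn ?_
        intro a ha b hb hab
        rw [Finset.mem_coe, Finset.mem_filter, Finset.mem_Ioc] at ha hb
        exact hsub_inj a b (by omega) (by omega) hab
      have h2 : ((Finset.Ioc 0 r).filter (fun i : ℕ => Z.Adj (u - (i : ZMod n)) u)).card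
          ≤ dg Z u := by
        unfold dg
        refine Finset.card_le_card_of_injOn (fun i : ℕ => u - (i : ZMod n)) ?_ ?_
        · intro i hi
          rw [Finset.mem_coe, Finset.mem_filter] at hi
          rw [Finset.mem_coe, mem_nb]
          exact hi.2.symm
        · intro a ha b hb hab
          rw [Finset.mem_coe, Finset.mem_filter, Finset.mem_Ioc] at ha hb
          exact hsub_inj a b (by omega) (by omega) hab
      have h3 := Finset.card_filter_add_card_filter_not (s := Finset.Ioc 0 r)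
        (fun i : ℕ => Z.Adj (u - (i : ZMod n)) u)
      rw [Nat.card_Ioc] at h3
      omega
    -- all four sets lie in `X`
    have hA1X : A1 ⊆ X := by
      intro x hx
      obtain ⟨i, hi, rfl⟩ := Finset.mem_image.mp hx
      rw [Finset.mem_filter, Finset.mem_Ioc] at hi
      have hadj := H1 w i (by omega) (by omega) hi.2
      rcases hcov (w + (i : ZMod n)) with h | h | h
      · exfalso
        obtain ⟨t, ht1, ht2, hxt⟩ := hCt _ h
        have h3 : o + ((e + i : ℕ) : ZMod n) = o + (t : ZMod n) := by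
          rw [← hxt]
          simp only [w]
          push_cast
          ring
        have := cast_add_inj (by omega) (by omega) h3
        omega
      · exact absurd hadj (hno w hw _ h)
      · exact h
    have hA2X : A2 ⊆ X := by
      intro x hx
      obtain ⟨i, hi, rfl⟩ := Finset.mem_image.mp hx
      rw [Finset.mem_filter, Finset.mem_Ioc] at hi
      have hadj := H1 (u - (i : ZMod n)) i (by omega) (by omega)
      rw [sub_add_cancel] at hadj
      have hadj' := hadj hi.2
      rcases hcov (u - (i : ZMod n)) with h | h | h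
      · exfalso
        obtain ⟨t, ht1, ht2, hxt⟩ := hCt _ h
        have h3 : o + ((t + i : ℕ) : ZMod n) = o + (s : ZMod n) := by
          have h4 : u = o + (t : ZMod n) + (i : ZMod n) := by
            rw [← hxt]
            ring
          simp only [u] at h4
          rw [h4]
          push_cast
          ring
        have := cast_add_inj (by omega) (by omega) h3
        omega
      · exact absurd hadj'.symm (hno u hu _ h)
      · exact h
    have hLwX : L w ⊆ X := by
      intro x hx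
      have hadj := HL1 w x hx
      rcases hcov x with h | h | h
      · exfalso
        obtain ⟨t, ht1, ht2, hxt⟩ := hCt _ h
        refine (HL2 w x hx (e - t) (by omega)).2 ?_
        rw [hxt, Nat.cast_sub ht2]
        simp only [w]
        ring
      · exact absurd hadj (hno w hw _ h)
      · exact h
    have hLuX : L u ⊆ X := by
      intro x hx
      have hadj := HL1 u x hx
      rcases hcov x with h | h | h
      · exfalso
        obtain ⟨t, ht1, ht2, hxt⟩ := hCt _ h
        refine (HL2 u x hx (t - s) (by omega)).1 ?_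
        rw [hxt, Nat.cast_sub ht1]
        simp only [u]
        ring
      · exact absurd hadj (hno u hu _ h)
      · exact h
    -- they are pairwise disjoint
    have d1 : Disjoint A1 A2 := by
      rw [Finset.disjoint_left]
      intro x hx hx'
      obtain ⟨i, hi, rfl⟩ := Finset.mem_image.mp hx
      obtain ⟨i', hi', hEq⟩ := Finset.mem_image.mp hx'
      rw [Finset.mem_filter, Finset.mem_Ioc] at hi hi'
      have hEq' : u - (i' : ZMod n) = w + (i : ZMod n) := hEq
      have h3 : o + ((e + i + i' : ℕ) : ZMod n) = o + (s : ZMod n) := by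
        simp only [u, w] at hEq'
        push_cast
        linear_combination -hEq'
      have := cast_add_inj (by omega) (by omega) h3
      omega
    have d2 : Disjoint (A1 ∪ A2) (L w) := by
      rw [Finset.disjoint_left]
      intro x hx hx'
      rw [Finset.mem_union] at hx
      rcases hx with hx | hx
      · obtain ⟨i, hi, rfl⟩ := Finset.mem_image.mp hx
        rw [Finset.mem_filter, Finset.mem_Ioc] at hi
        exact (HL2 w _ hx' i (by omega)).1 rfl
      · obtain ⟨i, hi, rfl⟩ := Finset.mem_image.mp hx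
        rw [Finset.mem_filter, Finset.mem_Ioc] at hi
        refine (HL2 w _ hx' (e - s + i) (by omega)).2 ?_
        have := hwu 0
        rw [Nat.cast_zero, add_zero, add_zero] at this
        rw [this, Nat.cast_add]
        ring
    have d3 : Disjoint (A1 ∪ A2 ∪ L w) (L u) := by
      rw [Finset.disjoint_left]
      intro x hx hx'
      rw [Finset.mem_union, Finset.mem_union] at hx
      rcases hx with (hx | hx) | hx
      · obtain ⟨i, hi, rfl⟩ := Finset.mem_image.mp hx
        rw [Finset.mem_filter, Finset.mem_Ioc] at hi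
        exact (HL2 u _ hx' (e - s + i) (by omega)).1 (hwu i)
      · obtain ⟨i, hi, rfl⟩ := Finset.mem_image.mp hx
        rw [Finset.mem_filter, Finset.mem_Ioc] at hi
        refine (HL2 u _ hx' i (by omega)).2 ?_
        ring
      · have h3 := HL3 u (e - s) (by omega) (by omega)
        have h4 : u + ((e - s : ℕ) : ZMod n) = w := by
          have := hwu 0
          rw [Nat.cast_zero, add_zero, add_zero] at this
          exact this.symm
        rw [h4, Finset.disjoint_left] at h3
        exact h3 hx' hx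
    have hle : (A1 ∪ A2 ∪ L w ∪ L u).card ≤ X.card :=
      Finset.card_le_card (Finset.union_subset (Finset.union_subset
        (Finset.union_subset hA1X hA2X) hLwX) hLuX)
    rw [Finset.card_union_of_disjoint d3, Finset.card_union_of_disjoint d2,
      Finset.card_union_of_disjoint d1] at hle
    have h5 := HL4 w
    have h6 := HL4 u
    omega

/-- the separation theorem -/
theorem sepFree_of (H Z : SimpleGraph (ZMod n)) (L : ZMod n → Finset (ZMod n)) (k r m : ℕ)
    (hk1 : 2 * r ≤ k) (hk2 : k ≤ 2 * r + 1) (hm : 1 ≤ m) (hr : 6 * m < r)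
    (hn : 2 * r + 7 * m + 2 ≤ n)
    (H1 : ∀ (v : ZMod n) (i : ℕ), 1 ≤ i → i ≤ r → ¬ Z.Adj v (v + (i : ZMod n)) →
      H.Adj v (v + (i : ZMod n)))
    (HZ : ∀ (v : ZMod n) (i : ℕ), m < i → i ≤ r → ¬ Z.Adj v (v + (i : ZMod n)))
    (HL1 : ∀ v x : ZMod n, x ∈ L v → H.Adj v x)
    (HL2 : ∀ v x : ZMod n, x ∈ L v → ∀ i : ℕ, i ≤ r + 3 * m →
      x ≠ v + (i : ZMod n) ∧ v ≠ x + (i : ZMod n))
    (HL3 : ∀ (v : ZMod n) (i : ℕ), 1 ≤ i → i ≤ 3 * m → Disjoint (L v) (L (v + (i : ZMod n))))
    (HL4 : ∀ v, dg Z v + (k - 2 * r) ≤ (L v).card)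
    (Hdeg : ∀ v, k ≤ dg H v)
    (H4 : ∀ v : ZMod n, ∃ h : ℕ, r + 1 ≤ h ∧ 2 * h ≤ n + 1 ∧ H.Adj v (v + (h : ZMod n))) :
    SepFree H k := by
  intro C D X hcov hCD hCX hDX hC hD hXk hno
  have hno' : ∀ x ∈ D, ∀ y ∈ C, ¬ H.Adj x y := fun x hx y hy h => hno y hy x hx h.symm
  have hcov' : ∀ x, x ∈ D ∨ x ∈ C ∨ x ∈ X := by
    intro x
    rcases hcov x with h | h | h
    · exact Or.inr (Or.inl h)
    · exact Or.inl h
    · exact Or.inr (Or.inr h)
  have hXr : X.card ≤ 2 * r := by omega
  have g1 : ∀ (x : ZMod n) (i : ℕ), m < i → i ≤ r → x ∈ C → x + (i : ZMod n) ∈ D → False :=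
    fun x i h1 h2 hx hy => hno x hx _ hy (H1 x i (by omega) h2 (HZ x i h1 h2))
  have g2 : ∀ (x : ZMod n) (i : ℕ), m < i → i ≤ r → x ∈ D → x + (i : ZMod n) ∈ C → False :=
    fun x i h1 h2 hx hy => hno' x hx _ hy (H1 x i (by omega) h2 (HZ x i h1 h2))
  have hside : ∀ o : ZMod n,
      ((∀ x ∈ C, ∃ i : ℕ, i ≤ 3 * m ∧ x = o + (i : ZMod n)) ∨
        (∀ x ∈ D, ∃ i : ℕ, i ≤ 3 * m ∧ x = o + (i : ZMod n))) → False := by
    rintro o (hloc | hloc)
    · have := small_side H Z L k r m hk1 hn H1 HL1 HL2 HL3 HL4 Hdeg C D X hcov hC hno o hloc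
      omega
    · have := small_side H Z L k r m hk1 hn H1 HL1 HL2 HL3 HL4 Hdeg D C X hcov' hD hno' o hloc
      omega
  by_cases hshort : ∃ (x : ZMod n) (i : ℕ), 1 ≤ i ∧ i ≤ r ∧
      ((x ∈ C ∧ x + (i : ZMod n) ∈ D) ∨ (x ∈ D ∧ x + (i : ZMod n) ∈ C))
  · obtain ⟨x, i, hi1, hi2, hx | hx⟩ := hshort
    · have him : i ≤ m := by
        by_contra hcon
        exact g1 x i (by omega) hi2 hx.1 hx.2
      exact hside _ (localize m r hm hr hn hcov hCD hCX hDX hXr g1 g2 x i hi1 him hx.1 hx.2)
    · have him : i ≤ m := by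
        by_contra hcon
        exact g2 x i (by omega) hi2 hx.1 hx.2
      exact hside _ (localize m r hm hr hn hcov' (fun x hx hx' => hCD x hx' hx) hDX hCX hXr g2 g1
        x i hi1 him hx.1 hx.2).symm
  · push Not at hshort
    obtain ⟨_, ⟨c, hc, hch⟩ | ⟨d, hd, hdh⟩⟩ := caseB r (by omega) hcov hCD hCX hDX hC hD hXr
      (fun x i h1 h2 hx hy => (hshort x i h1 h2).1 hx hy)
      (fun x i h1 h2 hx hy => (hshort x i h1 h2).2 hx hy)
    · obtain ⟨h, hh1, hh2, hadj⟩ := H4 c
      exact hno c hc _ (hch h hh1 hh2) hadj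
    · obtain ⟨h, hh1, hh2, hadj⟩ := H4 d
      exact hno' d hd _ (hdh h hh1 hh2) hadj

/-- the separation theorem for powers of cycles with diameters -/
theorem sepFree_harary (H : SimpleGraph (ZMod n)) (k r : ℕ) (hr : 1 ≤ r) (hk2 : k ≤ 2 * r + 1)
    (H1 : ∀ (v : ZMod n) (i : ℕ), 1 ≤ i → i ≤ r → H.Adj v (v + (i : ZMod n)))
    (H4 : k = 2 * r + 1 →
      ∀ v : ZMod n, ∃ h : ℕ, r + 1 ≤ h ∧ 2 * h ≤ n + 1 ∧ H.Adj v (v + (h : ZMod n))) :
    SepFree H k := by
  intro C D X hcov hCD hCX hDX hC hD hXk hno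
  have hno' : ∀ x ∈ D, ∀ y ∈ C, ¬ H.Adj x y := fun x hx y hy h => hno y hy x hx h.symm
  obtain ⟨hXc, ⟨c, hc, hch⟩ | ⟨d, hd, hdh⟩⟩ := caseB r hr hcov hCD hCX hDX hC hD (by omega)
      (fun x i h1 h2 hx hy => hno x hx _ hy (H1 x i h1 h2))
      (fun x i h1 h2 hx hy => hno' x hx _ hy (H1 x i h1 h2))
  · obtain ⟨h, hh1, hh2, hadj⟩ := H4 (by omega) c
    exact hno c hc _ (hch h hh1 hh2) hadj
  · obtain ⟨h, hh1, hh2, hadj⟩ := H4 (by omega) d
    exact hno' d hd _ (hdh h hh1 hh2) hadj

end Pool.Agent.BD48
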