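import Mathlib
import Pool.Agent.BD48.Sep
import Pool.Agent.BD48.Pack

/-!
Adjacent twins of degree `k`.
-/

namespace Pool.Agent.BD48

open Finset

attribute [local instance] Classical.propDecidable

/-- adjacent twins of degree `k` -/
def TwinK {V : Type*} [Fintype V] (G : SimpleGraph V) (k : ℕ) (x y : V) : Prop :=
  G.Adj x y ∧ dg G x = k ∧ dg G y = k ∧ ∀ w, w ≠ x → w ≠ y → (G.Adj x w ↔ G.Adj y w)

/-- the number of edges between adjacent twins of degree `k` -/
noncomputable def tau {V : Type*} [Fintype V] (G : SimpleGraph V) (k : ℕ) : ℕ :=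
  {e : Sym2 V | ∃ x y, e = s(x, y) ∧ TwinK G k x y}.ncard

variable {V : Type*} [Fintype V]

lemma TwinK.symm {G : SimpleGraph V} {k : ℕ} {x y : V} (h : TwinK G k x y) : TwinK G k y x :=
  ⟨h.1.symm, h.2.2.1, h.2.1, fun w h1 h2 => (h.2.2.2 w h2 h1).symm⟩

/-- a vertex lies in at most one edge between twins -/
lemma TwinK.unique {G : SimpleGraph V} {k s : ℕ}
    (hK : ∀ x y z, x ≠ y → x ≠ z → y ≠ z → (nb G x ∩ nb G y ∩ nb G z).card < s)
    (hks : s + 2 ≤ k) {x y z : V} (h1 : TwinK G k x y) (h2 : TwinK G k x z) : y = z := by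
  by_contra hyz
  have hxy : x ≠ y := h1.1.ne
  have hxz : x ≠ z := h2.1.ne
  have hlt := hK x y z hxy hxz hyz
  have hsub : ((nb G x).erase y).erase z ⊆ nb G x ∩ nb G y ∩ nb G z := by
    intro w hw
    rw [mem_erase, mem_erase] at hw
    obtain ⟨hwz, hwy, hwx⟩ := hw
    have hadj := mem_nb.mp hwx
    have hne : w ≠ x := hadj.ne'
    rw [mem_inter, mem_inter]
    exact ⟨⟨hwx, mem_nb.mpr ((h1.2.2.2 w hne hwy).mp hadj)⟩,
      mem_nb.mpr ((h2.2.2.2 w hne hwz).mp hadj)⟩
  have hc := card_le_card hsub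
  have hc1 : (nb G x).card - 1 ≤ ((nb G x).erase y).card := pred_card_le_card_erase
  have hc2 : ((nb G x).erase y).card - 1 ≤ (((nb G x).erase y).erase z).card :=
    pred_card_le_card_erase
  have hk : (nb G x).card = k := h1.2.1
  omega

/-- the two ends of an edge between twins do not both have degree `k` in `H` -/
lemma TwinK.sum_deg {G H : SimpleGraph V} {k : ℕ} (hGH : G ≤ H)
    (hk : 1 ≤ k) (hn : k + 2 ≤ Fintype.card V)
    (hsep : SepFree H k) {x y : V} (h : TwinK G k x y) (hx : dg H x = k) (hy : dg H y = k) :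
    False := by
  have hsx : nb G x = nb H x := by
    refine eq_of_subset_of_card_le (fun w hw => mem_nb.mpr (hGH (mem_nb.mp hw))) ?_
    have h1 : (nb G x).card = k := h.2.1
    have h2 : (nb H x).card = k := hx
    omega
  have hsy : nb G y = nb H y := by
    refine eq_of_subset_of_card_le (fun w hw => mem_nb.mpr (hGH (mem_nb.mp hw))) ?_
    have h1 : (nb G y).card = k := h.2.2.1
    have h2 : (nb H y).card = k := hy
    omega
  have hxy : x ≠ y := h.1.ne
  have hyx : y ∈ nb G x := mem_nb.mpr h.1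
  have hXc : ((nb G x).erase y).card = k - 1 := by
    rw [card_erase_of_mem hyx]
    have h1 : (nb G x).card = k := h.2.1
    omega
  have hCX : (({x, y} : Finset V) ∪ (nb G x).erase y).card ≤ k + 1 := by
    refine le_trans (card_union_le _ _) ?_
    have := card_le_two (a := x) (b := y)
    omega
  have hDne : (univ \ (({x, y} : Finset V) ∪ (nb G x).erase y)).Nonempty := by
    rw [← card_pos, card_sdiff_of_subset (subset_univ _), card_univ]
    omega
  refine hsep {x, y} (univ \ (({x, y} : Finset V) ∪ (nb G x).erase y)) ((nb G x).erase y)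
    ?_ ?_ ?_ ?_ ⟨x, mem_insert_self _ _⟩ hDne (by omega) ?_
  · intro z
    by_cases h1 : z ∈ ({x, y} : Finset V)
    · exact Or.inl h1
    · by_cases h2 : z ∈ (nb G x).erase y
      · exact Or.inr (Or.inr h2)
      · refine Or.inr (Or.inl ?_)
        rw [mem_sdiff, mem_union]
        exact ⟨mem_univ _, fun h3 => h3.elim h1 h2⟩
  · intro z hz hzD
    rw [mem_sdiff, mem_union] at hzD
    exact hzD.2 (Or.inl hz)
  · intro z hz hzX
    rw [mem_erase] at hzX
    rw [mem_insert, mem_singleton] at hz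
    rcases hz with rfl | rfl
    · exact (mem_nb.mp hzX.2).ne rfl
    · exact hzX.1 rfl
  · intro z hzD hzX
    rw [mem_sdiff, mem_union] at hzD
    exact hzD.2 (Or.inr hzX)
  · intro u hu w hw hadj
    rw [mem_sdiff, mem_union, mem_insert, mem_singleton, mem_erase] at hw
    have hwx : w ≠ x := fun e => hw.2 (Or.inl (Or.inl e))
    have hwy : w ≠ y := fun e => hw.2 (Or.inl (Or.inr e))
    have hwn : w ∉ nb G x := fun e => hw.2 (Or.inr ⟨hwy, e⟩)
    rw [mem_insert, mem_singleton] at hu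
    rcases hu with rfl | rfl
    · apply hwn
      rw [hsx]
      exact mem_nb.mpr hadj
    · apply hwn
      have h1 : w ∈ nb G u := by
        rw [hsy]
        exact mem_nb.mpr hadj
      exact mem_nb.mpr ((h.2.2.2 w hwx hwy).mpr (mem_nb.mp h1))

/-- the lower bound for the sum of the degrees -/
theorem lower_tau (G H : SimpleGraph V) (k s : ℕ) (hGH : G ≤ H)
    (hK : ∀ x y z, x ≠ y → x ≠ z → y ≠ z → (nb G x ∩ nb G y ∩ nb G z).card < s)
    (hks : s + 2 ≤ k) (hn : k + 2 ≤ Fintype.card V) (hdeg : ∀ v, k ≤ dg H v)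
    (hsep : SepFree H k) : ∑ v, max k (dg G v) + tau G k ≤ ∑ v, dg H v := by
  have hmono : ∀ v, dg G v ≤ dg H v := fun v =>
    card_le_card (fun w hw => mem_nb.mpr (hGH (mem_nb.mp hw)))
  have hmax : ∀ v, max k (dg G v) ≤ dg H v := fun v => max_le (hdeg v) (hmono v)
  -- the excess of a vertex
  have hsum : ∑ v, max k (dg G v) + ∑ v, (dg H v - max k (dg G v)) = ∑ v, dg H v := by
    rw [← sum_add_distrib]
    exact sum_congr rfl (fun v _ => by have := hmax v; omega)
  have hend : ∀ e ∈ {e : Sym2 V | ∃ x y, e = s(x, y) ∧ TwinK G k x y},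
      ∃ v, (∃ w, e = s(v, w) ∧ TwinK G k v w) ∧ 1 ≤ dg H v - max k (dg G v) := by
    rintro e ⟨x, y, rfl, h⟩
    have hx := hdeg x
    have hy := hdeg y
    by_cases h1 : dg H x = k
    · by_cases h2 : dg H y = k
      · exact (h.sum_deg hGH (by omega) hn hsep h1 h2).elim
      · refine ⟨y, ⟨x, Sym2.eq_swap, h.symm⟩, ?_⟩
        rw [h.2.2.1, max_self]
        omega
    · refine ⟨x, ⟨y, rfl, h⟩, ?_⟩
      rw [h.2.1, max_self]
      omega
  have : Nonempty V := Fintype.card_pos_iff.mp (by omega)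
  choose! c hc1 hc2 using hend
  have hinj : Set.InjOn c {e : Sym2 V | ∃ x y, e = s(x, y) ∧ TwinK G k x y} := by
    intro e he e' he' hee
    obtain ⟨w, hw1, hw2⟩ := hc1 e he
    obtain ⟨w', hw1', hw2'⟩ := hc1 e' he'
    rw [hee] at hw1 hw2
    have hww := hw2.unique hK hks hw2'
    rw [hww] at hw1
    exact hw1.trans hw1'.symm
  have hle : tau G k ≤ (univ.filter (fun v => 1 ≤ dg H v - max k (dg G v))).card := by
    unfold tau
    rw [← hinj.ncard_image, ← Set.ncard_coe_finset]
    refine Set.ncard_le_ncard ?_ (Set.toFinite _)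
    rintro v ⟨e, he, rfl⟩
    rw [mem_coe, mem_filter]
    exact ⟨mem_univ _, hc2 e he⟩
  have hle2 : (univ.filter (fun v => 1 ≤ dg H v - max k (dg G v))).card ≤
      ∑ v, (dg H v - max k (dg G v)) := by
    rw [card_eq_sum_ones, sum_filter]
    refine sum_le_sum (fun v _ => ?_)
    split_ifs with h
    · exact h
    · exact Nat.zero_le _
  omega

/-- choosing one end of every edge between adjacent twins of degree `k` -/
theorem exists_ext (G : SimpleGraph V) (k s : ℕ)
    (hK : ∀ x y z, x ≠ y → x ≠ z → y ≠ z → (nb G x ∩ nb G y ∩ nb G z).card < s)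
    (hks : s + 2 ≤ k) :
    ∃ ext : V → ℕ, (∀ v, ext v ≤ 1) ∧ (∀ v, 1 ≤ ext v → dg G v = k) ∧
      (∀ x y, TwinK G k x y → 1 ≤ ext x + ext y) ∧ ∑ v, ext v ≤ tau G k := by
  rcases isEmpty_or_nonempty V with hV | hV
  · exact ⟨fun _ => 0, fun v => (hV.false v).elim, fun v => (hV.false v).elim,
      fun x => (hV.false x).elim, by rw [sum_const_zero]; exact Nat.zero_le _⟩
  have hend : ∀ e ∈ {e : Sym2 V | ∃ x y, e = s(x, y) ∧ TwinK G k x y},
      ∃ v, ∃ w, e = s(v, w) ∧ TwinK G k v w := by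
    rintro e ⟨x, y, he, h⟩
    exact ⟨x, y, he, h⟩
  choose! c hc1 using hend
  let P : V → Prop := fun v => v ∈ c '' {e : Sym2 V | ∃ x y, e = s(x, y) ∧ TwinK G k x y}
  refine ⟨fun v => if P v then 1 else 0, ?_, ?_, ?_, ?_⟩
  · intro v
    beta_reduce
    split_ifs
    · exact le_rfl
    · exact Nat.zero_le _
  · intro v hv
    beta_reduce at hv
    split_ifs at hv with h
    · obtain ⟨e, he, rfl⟩ := h
      obtain ⟨w, -, hw⟩ := hc1 e he
      exact hw.2.1
    · omega
  · intro x y h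
    beta_reduce
    have he : s(x, y) ∈ {e : Sym2 V | ∃ x y, e = s(x, y) ∧ TwinK G k x y} := ⟨x, y, rfl, h⟩
    obtain ⟨w, hw1, -⟩ := hc1 _ he
    have key : ∀ e : Sym2 V, e = s(c s(x, y), w) → c s(x, y) ∈ e := fun e h1 => by
      rw [h1]
      exact Sym2.mem_mk_left _ _
    have hmem : c s(x, y) ∈ s(x, y) := key _ hw1
    have hP : P (c s(x, y)) := ⟨_, he, rfl⟩
    rcases Sym2.mem_iff.mp hmem with h1 | h1
    · rw [h1] at hP
      rw [if_pos hP]
      omega
    · rw [h1] at hP
      rw [if_pos hP]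
      omega
  · rw [← sum_filter, ← card_eq_sum_ones, ← Set.ncard_coe_finset]
    unfold tau
    refine le_trans (Set.ncard_le_ncard ?_ (Set.toFinite _)) (Set.ncard_image_le (f := c)
      (Set.toFinite _))
    intro v hv
    rw [mem_coe, mem_filter] at hv
    exact hv.2

end Pool.Agent.BD48
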