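import Mathlib
import Pool.Agent.BD48.Out
import Pool.Agent.BD48.Tau

/-!
Forests are sparse graphs without twins.
-/

namespace Pool.Agent.BD48

open Finset

attribute [local instance] Classical.propDecidable

variable {V : Type*} [Fintype V]

/-- forests have orientations of outdegree one, no three vertices with two common neighbours and no
adjacent twins -/
theorem acyclic_sparse (G : SimpleGraph V) (hG : G.IsAcyclic) :
    (∃ out : V → Finset V, (∀ v, (out v).card ≤ 1) ∧ ∀ x y, G.Adj x y → y ∈ out x ∨ x ∈ out y) ∧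
    (∀ x y z, x ≠ y → x ≠ z → y ≠ z → (nb G x ∩ nb G y ∩ nb G z).card < 2) ∧
    ∀ k, 3 ≤ k → tau G k = 0 := by
  obtain ⟨out, hout⟩ := acyclic_out G hG
  have hmem : ∀ x w, w ∈ nb G x ↔ G.Adj x w := by
    intro x w
    simp [nb]
  have hpt : ∀ w x y, x ≠ y → G.Adj w x → G.Adj w y → out x = w ∨ out y = w := by
    intro w x y hxy hx hy
    rcases hout w x hx with h | h
    · rcases hout w y hy with h' | h'
      · exact absurd (h.symm.trans h') hxy
      · exact Or.inr h'
    · exact Or.inl h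
  refine ⟨⟨fun v => {out v}, fun v => by simp, fun x y h => ?_⟩, ?_, ?_⟩
  · rcases hout x y h with h | h
    · left; simp [h]
    · right; simp [h]
  · intro x y z hxy hxz hyz
    by_contra hcon
    push Not at hcon
    obtain ⟨w₁, h₁, w₂, h₂, hw⟩ := Finset.one_lt_card.mp (show 1 < _ from hcon)
    simp only [Finset.mem_inter, hmem] at h₁ h₂
    obtain ⟨⟨a₁, b₁⟩, c₁⟩ := h₁
    obtain ⟨⟨a₂, b₂⟩, c₂⟩ := h₂
    have p1 := hpt w₁ x y hxy a₁.symm b₁.symm
    have p2 := hpt w₁ x z hxz a₁.symm c₁.symm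
    have p3 := hpt w₁ y z hyz b₁.symm c₁.symm
    have q1 := hpt w₂ x y hxy a₂.symm b₂.symm
    have q2 := hpt w₂ x z hxz a₂.symm c₂.symm
    have q3 := hpt w₂ y z hyz b₂.symm c₂.symm
    grind
  · intro k hk
    have hno : {e : Sym2 V | ∃ x y, e = s(x, y) ∧ TwinK G k x y} = ∅ := by
      rw [Set.eq_empty_iff_forall_notMem]
      rintro e ⟨x, y, -, hxy, hdx, -, htw⟩
      have h1 : 1 < ((nb G x).erase y).card := by
        rw [Finset.card_erase_of_mem ((hmem x y).mpr hxy)]
        unfold dg at hdx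
        omega
      obtain ⟨w₁, h₁, w₂, h₂, hw⟩ := Finset.one_lt_card.mp h1
      rw [Finset.mem_erase, hmem] at h₁ h₂
      have hy₁ := (htw w₁ h₁.2.ne' h₁.1).mp h₁.2
      have hy₂ := (htw w₂ h₂.2.ne' h₂.1).mp h₂.2
      have p1 := hpt w₁ x y hxy.ne h₁.2.symm hy₁.symm
      have p2 := hpt w₂ x y hxy.ne h₂.2.symm hy₂.symm
      have p3 := hout x y hxy
      have n1 := h₁.2.ne
      have n2 := h₂.2.ne
      have n3 := hy₁.ne
      have n4 := hy₂.ne
      grind
    unfold tau
    rw [hno, Set.ncard_empty]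

end Pool.Agent.BD48
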