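import Mathlib
import Pool.Agent.BD48.Sep

/-!
The construction of the highly connected supergraph for graphs placed well on a cycle.
-/

namespace Pool.Agent.BD48

open Finset

attribute [local instance] Classical.propDecidable

variable {n : ℕ} [NeZero n]

/-- cyclic distance between `1` and `r` -/
def close (r : ℕ) (x y : ZMod n) : Prop :=
  ∃ i : ℕ, 1 ≤ i ∧ i ≤ r ∧ (y = x + (i : ZMod n) ∨ x = y + (i : ZMod n))

lemma close_symm {r : ℕ} {x y : ZMod n} (h : close r x y) : close r y x := by
  obtain ⟨i, h1, h2, h3⟩ := h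
  exact ⟨i, h1, h2, h3.symm⟩

lemma close_mono {r s : ℕ} (hrs : r ≤ s) {x y : ZMod n} (h : close r x y) : close s x y := by
  obtain ⟨i, h1, h2, h3⟩ := h
  exact ⟨i, h1, le_trans h2 hrs, h3⟩

lemma not_close_self {r : ℕ} (hr : r < n) (x : ZMod n) : ¬ close r x x := by
  rintro ⟨i, h1, h2, h3⟩
  have h4 : x + (i : ZMod n) = x + ((0 : ℕ) : ZMod n) := by
    rw [Nat.cast_zero, add_zero]
    rcases h3 with h3 | h3 <;> exact h3.symm
  have := cast_add_inj (by omega) (by omega) h4
  omega

/-- the ball around a vertex -/
noncomputable def ball (r : ℕ) (v : ZMod n) : Finset (ZMod n) := univ.filter (fun y => close r v y)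

lemma mem_ball {r : ℕ} {v y : ZMod n} : y ∈ ball r v ↔ close r v y := by
  simp [ball]

lemma card_ball (r : ℕ) (hr : 2 * r < n) (v : ZMod n) : (ball r v).card = 2 * r := by
  have h : ball r v = (Finset.Icc 1 r).image (fun i : ℕ => v + (i : ZMod n)) ∪
      (Finset.Icc 1 r).image (fun i : ℕ => v - (i : ZMod n)) := by
    ext y
    rw [mem_ball, Finset.mem_union, Finset.mem_image, Finset.mem_image]
    constructor
    · rintro ⟨i, h1, h2, h3 | h3⟩
      · exact Or.inl ⟨i, Finset.mem_Icc.mpr ⟨h1, h2⟩, h3.symm⟩
      · refine Or.inr ⟨i, Finset.mem_Icc.mpr ⟨h1, h2⟩, ?_⟩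
        rw [h3]
        ring
    · rintro (⟨i, hi, h3⟩ | ⟨i, hi, h3⟩)
      · rw [Finset.mem_Icc] at hi
        exact ⟨i, hi.1, hi.2, Or.inl h3.symm⟩
      · rw [Finset.mem_Icc] at hi
        refine ⟨i, hi.1, hi.2, Or.inr ?_⟩
        rw [← h3]
        ring
  rw [h, Finset.card_union_of_disjoint, Finset.card_image_of_injOn, Finset.card_image_of_injOn,
    Nat.card_Icc]
  · omega
  · intro a ha b hb hab
    rw [Finset.mem_coe, Finset.mem_Icc] at ha hb
    refine cast_add_inj (c := (0 : ZMod n)) (by omega) (by omega) ?_
    have hab' : v - (a : ZMod n) = v - (b : ZMod n) := hab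
    linear_combination -hab'
  · intro a ha b hb hab
    rw [Finset.mem_coe, Finset.mem_Icc] at ha hb
    exact cast_add_inj (by omega) (by omega) hab
  · rw [Finset.disjoint_left]
    intro x hx hx'
    obtain ⟨i, hi, h1⟩ := Finset.mem_image.mp hx
    obtain ⟨i', hi', h2⟩ := Finset.mem_image.mp hx'
    rw [Finset.mem_Icc] at hi hi'
    have h3 : (0 : ZMod n) + ((i + i' : ℕ) : ZMod n) = 0 + ((0 : ℕ) : ZMod n) := by
      push_cast
      linear_combination h1 - h2
    have := cast_add_inj (by omega) (by omega) h3
    omega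

/-- The construction. -/
theorem build (G : SimpleGraph (ZMod n)) (d k r m b : ℕ) (hd : ∀ v, dg G v ≤ d)
    (hb : b = (d + 2) * (d + 2) + 2 * (d + 2) + 5) (hmb : m = 2 * b)
    (hk1 : 2 * r ≤ k) (hk2 : k ≤ 2 * r + 1) (hr : 6 * m < r) (hn : 2 * r + 9 * m + 3 ≤ n)
    (O1 : ∀ (v : ZMod n) (i : ℕ), 1 ≤ i → i ≤ 3 * m →
      ¬ G.Adj v (v + (i : ZMod n)) ∧ ∀ x, G.Adj v x → ¬ G.Adj x (v + (i : ZMod n)))
    (O2 : ∀ (v : ZMod n) (i : ℕ), r + 1 ≤ i → i ≤ r + 6 * m + 1 →
      ¬ G.Adj v (v + (i : ZMod n))) :
    ∃ H : SimpleGraph (ZMod n), G ≤ H ∧ SepFree H k ∧ ∑ v, dg H v ≤ k * n + 1 := by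
  have hm1 : 1 ≤ m := by omega
  -- the long edges of `G`
  let LG : SimpleGraph (ZMod n) :=
    { Adj := fun x y => G.Adj x y ∧ ¬ close r x y
      symm := ⟨fun x y h => ⟨h.1.symm, fun h' => h.2 (close_symm h')⟩⟩
      loopless := ⟨fun x h => h.1.ne rfl⟩ }
  have hLG : ∀ x y, LG.Adj x y ↔ G.Adj x y ∧ ¬ close r x y := fun x y => Iff.rfl
  have hLGd : ∀ v, dg LG v ≤ d := by
    intro v
    refine le_trans ?_ (hd v)
    unfold dg
    refine Finset.card_le_card ?_
    intro y hy
    rw [mem_nb] at hy ⊢
    exact hy.1
  let h : ℕ := r + 3 * m + 1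
  have hh : h = r + 3 * m + 1 := rfl
  let L : ZMod n → Finset (ZMod n) := fun v => nb LG v ∪ {v + (h : ZMod n), v - (h : ZMod n)}
  have hL : ∀ v x, x ∈ L v ↔ LG.Adj v x ∨ x = v + (h : ZMod n) ∨ v = x + (h : ZMod n) := by
    intro v x
    simp only [L, Finset.mem_union, mem_nb, Finset.mem_insert, Finset.mem_singleton]
    constructor
    · rintro (h1 | h1 | h1)
      · exact Or.inl h1
      · exact Or.inr (Or.inl h1)
      · refine Or.inr (Or.inr ?_)
        rw [h1]
        ring
    · rintro (h1 | h1 | h1)
      · exact Or.inl h1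
      · exact Or.inr (Or.inl h1)
      · refine Or.inr (Or.inr ?_)
        rw [h1]
        ring
  have hLsymm : ∀ x y, y ∈ L x → x ∈ L y := by
    intro x y hxy
    rw [hL] at hxy ⊢
    rcases hxy with h1 | h1 | h1
    · exact Or.inl h1.symm
    · exact Or.inr (Or.inr h1)
    · exact Or.inr (Or.inl h1)
  -- no element of `L v` is near `v`
  have HL2 : ∀ v x : ZMod n, x ∈ L v → ∀ i : ℕ, i ≤ r + 3 * m →
      x ≠ v + (i : ZMod n) ∧ v ≠ x + (i : ZMod n) := by
    intro v x hx i hi
    rw [hL] at hx
    rcases hx with hx | hx | hx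
    · refine ⟨?_, ?_⟩
      · intro hxi
        rcases Nat.eq_zero_or_pos i with h0 | h0
        · subst h0
          rw [Nat.cast_zero, add_zero] at hxi
          exact hx.1.ne hxi.symm
        · by_cases hir : i ≤ r
          · exact hx.2 ⟨i, h0, hir, Or.inl hxi⟩
          · exact O2 v i (by omega) (by omega) (by rw [← hxi]; exact hx.1)
      · intro hxi
        rcases Nat.eq_zero_or_pos i with h0 | h0
        · subst h0
          rw [Nat.cast_zero, add_zero] at hxi
          exact hx.1.ne hxi
        · by_cases hir : i ≤ r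
          · exact hx.2 ⟨i, h0, hir, Or.inr hxi⟩
          · exact O2 x i (by omega) (by omega) (by rw [← hxi]; exact hx.1.symm)
    · refine ⟨?_, ?_⟩
      · intro hxi
        rw [hx] at hxi
        have := cast_add_inj (by omega) (by omega) hxi
        omega
      · intro hxi
        have h3 : v + ((h + i : ℕ) : ZMod n) = v + ((0 : ℕ) : ZMod n) := by
          push_cast
          rw [hx] at hxi
          linear_combination -hxi
        have := cast_add_inj (by omega) (by omega) h3
        omega
    · refine ⟨?_, ?_⟩
      · intro hxi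
        have h3 : x + ((h + i : ℕ) : ZMod n) = x + ((0 : ℕ) : ZMod n) := by
          push_cast
          rw [hx] at hxi
          linear_combination -hxi
        have := cast_add_inj (by omega) (by omega) h3
        omega
      · intro hxi
        rw [hx] at hxi
        have := cast_add_inj (by omega) (by omega) hxi
        omega
  have hLclose : ∀ v x, x ∈ L v → ¬ close r v x := by
    rintro v x hx ⟨i, h1, h2, h3 | h3⟩
    · exact (HL2 v x hx i (by omega)).1 h3
    · exact (HL2 v x hx i (by omega)).2 h3
  have hLself : ∀ v, v ∉ L v := by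
    intro v hv
    exact (HL2 v v hv 0 (by omega)).1 (by rw [Nat.cast_zero, add_zero])
  have hLcard : ∀ v, (L v).card = dg LG v + 2 := by
    intro v
    have hd1 : Disjoint (nb LG v) {v + (h : ZMod n), v - (h : ZMod n)} := by
      rw [Finset.disjoint_left]
      intro x hx hx'
      rw [mem_nb] at hx
      rw [Finset.mem_insert, Finset.mem_singleton] at hx'
      rcases hx' with hx' | hx'
      · exact O2 v h (by omega) (by omega) (by rw [← hx']; exact hx.1)
      · refine O2 x h (by omega) (by omega) ?_
        have : x + (h : ZMod n) = v := by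
          rw [hx']
          ring
        rw [this]
        exact hx.1.symm
    simp only [L]
    rw [Finset.card_union_of_disjoint hd1, Finset.card_pair]
    · rfl
    · intro hEq
      have h3 : v + ((h + h : ℕ) : ZMod n) = v + ((0 : ℕ) : ZMod n) := by
        push_cast
        linear_combination hEq
      have := cast_add_inj (by omega) (by omega) h3
      omega
  have HL3 : ∀ (v : ZMod n) (i : ℕ), 1 ≤ i → i ≤ 3 * m →
      Disjoint (L v) (L (v + (i : ZMod n))) := by
    intro v i hi1 hi2
    rw [Finset.disjoint_left]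
    intro x hx hx'
    rw [hL] at hx hx'
    rcases hx with hx | hx | hx
    · rcases hx' with hx' | hx' | hx'
      · exact (O1 v i hi1 hi2).2 x hx.1 hx'.1.symm
      · refine O2 v (i + h) (by omega) (by omega) ?_
        have : v + ((i + h : ℕ) : ZMod n) = x := by
          rw [hx']
          push_cast
          ring
        rw [this]
        exact hx.1
      · refine O2 x (h - i) (by omega) (by omega) ?_
        have : x + ((h - i : ℕ) : ZMod n) = v := by
          rw [Nat.cast_sub (by omega)]
          linear_combination -hx'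
        rw [this]
        exact hx.1.symm
    · rcases hx' with hx' | hx' | hx'
      · refine O2 (v + (i : ZMod n)) (h - i) (by omega) (by omega) ?_
        have : v + (i : ZMod n) + ((h - i : ℕ) : ZMod n) = x := by
          rw [hx, Nat.cast_sub (by omega)]
          ring
        rw [this]
        exact hx'.1
      · rw [hx] at hx'
        have h3 : v + ((i : ℕ) : ZMod n) = v + ((0 : ℕ) : ZMod n) := by
          rw [Nat.cast_zero]
          linear_combination -hx'
        have := cast_add_inj (by omega) (by omega) h3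
        omega
      · rw [hx] at hx'
        have h3 : v + ((h + h : ℕ) : ZMod n) = v + (i : ZMod n) := by
          push_cast
          linear_combination -hx'
        have := cast_add_inj (by omega) (by omega) h3
        omega
    · rcases hx' with hx' | hx' | hx'
      · refine O2 x (h + i) (by omega) (by omega) ?_
        have : x + ((h + i : ℕ) : ZMod n) = v + (i : ZMod n) := by
          rw [hx]
          push_cast
          ring
        rw [this]
        exact hx'.1.symm
      · have h3 : x + ((h + i + h : ℕ) : ZMod n) = x + ((0 : ℕ) : ZMod n) := by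
          push_cast
          rw [hx] at hx'
          linear_combination -hx'
        have := cast_add_inj (by omega) (by omega) h3
        omega
      · rw [hx] at hx'
        have h3 : x + ((h + i : ℕ) : ZMod n) = x + (h : ZMod n) := by
          push_cast
          linear_combination hx'
        have := cast_add_inj (by omega) (by omega) h3
        omega
  -- the degrees of the graph of removed edges
  let q : ℕ := k - 2 * r
  have hq : q = 0 ∨ q = 1 := by omega
  let ε : ZMod n → ℕ := fun v => if v = 0 then q * (n % 2) else 0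
  have hε1 : ∀ v, ε v ≤ 1 := by
    intro v
    simp only [ε]
    split_ifs
    · rcases hq with h1 | h1
      · rw [h1]
        omega
      · rw [h1]
        omega
    · omega
  let f : ZMod n → ℕ := fun v => dg LG v + 2 - q - ε v
  have hf : ∀ v, f v + q + ε v = dg LG v + 2 := by
    intro v
    have := hε1 v
    simp only [f]
    omega
  have hfpos : ∀ v : ZMod n, 0 < v.val → v.val < 0 + n → 1 ≤ f v := by
    intro v hv _
    have hv0 : v ≠ 0 := by
      rintro rfl
      rw [ZMod.val_zero] at hv
      omega
    have h1 := hf v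
    have h2 : ε v = 0 := by simp [ε, hv0]
    omega
  have hfeven : Even (∑ v ∈ itv n 0 n, f v) := by
    have huniv : itv n 0 n = univ := by
      ext v
      rw [mem_itv]
      have := ZMod.val_lt v
      simp only [Finset.mem_univ, iff_true]
      omega
    rw [huniv]
    have h1 : ∑ v, f v + (n * q + q * (n % 2)) = ∑ v, dg LG v + 2 * n := by
      have h2 : ∑ v : ZMod n, (f v + q + ε v) = ∑ v : ZMod n, (dg LG v + 2) :=
        Finset.sum_congr rfl (fun v _ => hf v)
      rw [Finset.sum_add_distrib, Finset.sum_add_distrib, Finset.sum_add_distrib] at h2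
      simp only [ε, Finset.sum_ite_eq', Finset.mem_univ, if_true, Finset.sum_const,
        Finset.card_univ, ZMod.card, smul_eq_mul] at h2
      omega
    obtain ⟨x, hx⟩ := even_sum_dg LG
    rw [hx] at h1
    rcases hq with h2 | h2
    · rw [h2] at h1
      exact ⟨x + n, by omega⟩
    · rw [h2] at h1
      rw [Nat.even_iff]
      omega
  obtain ⟨Z, hZ1, hZ2⟩ := interval (n := n) (d + 2) b hb n 0 f (by omega) (by omega)
    (fun v => by
      have h1 := hf v
      have h2 := hLGd v
      omega) hfpos hfeven
  have hZdeg : ∀ v, dg Z v = f v := by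
    intro v
    refine hZ2 v (mem_itv.mpr ?_)
    have := ZMod.val_lt v
    omega
  have hZclose : ∀ x y, Z.Adj x y → close m x y := by
    intro x y hxy
    have h1 := hZ1 x y hxy
    have h2 := hZ1 y x hxy.symm
    have hne : x.val ≠ y.val := by
      intro hEq
      exact hxy.ne (ZMod.val_injective n hEq)
    rcases Nat.lt_or_gt_of_ne hne with h3 | h3
    · refine ⟨y.val - x.val, by omega, by omega, Or.inl ?_⟩
      rw [Nat.cast_sub h3.le, ZMod.natCast_zmod_val, ZMod.natCast_zmod_val]
      ring
    · refine ⟨x.val - y.val, by omega, by omega, Or.inr ?_⟩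
      rw [Nat.cast_sub h3.le, ZMod.natCast_zmod_val, ZMod.natCast_zmod_val]
      ring
  have HZ : ∀ (v : ZMod n) (i : ℕ), m < i → i ≤ r → ¬ Z.Adj v (v + (i : ZMod n)) := by
    intro v i hi1 hi2 hadj
    obtain ⟨j, hj1, hj2, hj | hj⟩ := hZclose _ _ hadj
    · have := cast_add_inj (by omega) (by omega) hj
      omega
    · have h3 : v + ((i + j : ℕ) : ZMod n) = v + ((0 : ℕ) : ZMod n) := by
        push_cast
        linear_combination -hj
      have := cast_add_inj (by omega) (by omega) h3
      omega
  -- the graph
  let H : SimpleGraph (ZMod n) :=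
    { Adj := fun x y => (close r x y ∧ ¬ Z.Adj x y) ∨ y ∈ L x
      symm := ⟨by
        rintro x y (h1 | h1)
        · exact Or.inl ⟨close_symm h1.1, fun h' => h1.2 h'.symm⟩
        · exact Or.inr (hLsymm x y h1)⟩
      loopless := ⟨by
        rintro x (h1 | h1)
        · exact not_close_self (by omega) x h1.1
        · exact hLself x h1⟩ }
  have hH : ∀ x y, H.Adj x y ↔ (close r x y ∧ ¬ Z.Adj x y) ∨ y ∈ L x := fun x y => Iff.rfl
  have hHdeg : ∀ v, dg H v = k + ε v := by
    intro v
    have h1 : dg H v = ((ball r v \ nb Z v) ∪ L v).card := by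
      refine dg_eq_card H v _ ?_
      intro y
      rw [Finset.mem_union, Finset.mem_sdiff, mem_ball, mem_nb, hH]
    have h2 : Disjoint (ball r v \ nb Z v) (L v) := by
      rw [Finset.disjoint_left]
      intro x hx hx'
      rw [Finset.mem_sdiff, mem_ball] at hx
      exact hLclose v x hx' hx.1
    have h3 : nb Z v ⊆ ball r v := by
      intro y hy
      rw [mem_nb] at hy
      rw [mem_ball]
      exact close_mono (by omega) (hZclose v y hy)
    have h4 : (nb Z v).card = f v := hZdeg v
    have h5 := Finset.card_sdiff_add_card_eq_card h3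
    rw [card_ball r (by omega), h4] at h5
    rw [h1, Finset.card_union_of_disjoint h2, hLcard]
    have h6 := hf v
    have h7 : q = k - 2 * r := rfl
    omega
  refine ⟨H, ?_, ?_, ?_⟩
  · intro x y hxy
    rw [hH]
    by_cases hc : close r x y
    · left
      refine ⟨hc, ?_⟩
      intro hZ
      obtain ⟨i, hi1, hi2, hi | hi⟩ := hZclose x y hZ
      · exact (O1 x i hi1 (by omega)).1 (by rw [← hi]; exact hxy)
      · exact (O1 y i hi1 (by omega)).1 (by rw [← hi]; exact hxy.symm)
    · right
      rw [hL]
      exact Or.inl ⟨hxy, hc⟩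
  · refine sepFree_of H Z L k r m hk1 hk2 hm1 hr (by omega) ?_ HZ ?_ HL2 HL3 ?_ ?_ ?_
    · intro v i hi1 hi2 hZ
      rw [hH]
      exact Or.inl ⟨⟨i, hi1, hi2, Or.inl rfl⟩, hZ⟩
    · intro v x hx
      rw [hH]
      exact Or.inr hx
    · intro v
      rw [hZdeg v, hLcard v]
      have := hf v
      have h7 : q = k - 2 * r := rfl
      omega
    · intro v
      rw [hHdeg v]
      omega
    · intro v
      refine ⟨h, by omega, by omega, ?_⟩
      rw [hH, hL]
      exact Or.inr (Or.inr (Or.inl rfl))
  · rw [Finset.sum_congr rfl (fun v _ => hHdeg v), Finset.sum_add_distrib]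
    simp only [ε, Finset.sum_ite_eq', Finset.mem_univ, if_true, Finset.sum_const,
      Finset.card_univ, ZMod.card, smul_eq_mul]
    have h1 : q * (n % 2) ≤ 1 := by
      rcases hq with h1 | h1
      · rw [h1]
        omega
      · rw [h1]
        omega
    rw [Nat.mul_comm n k]
    omega

end Pool.Agent.BD48
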