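import Mathlib

/-!
Sets of differences (Thue-Morse type) with small overlaps under all short shifts.
-/

namespace Pool.Agent.BD48

open Finset

lemma card_filter_range_split (P : ℕ → Prop) [DecidablePred P] (L : ℕ) :
    ((Finset.range L).filter P).card
      = ((Finset.range ((L + 1) / 2)).filter (fun t => P (2 * t))).card
        + ((Finset.range (L / 2)).filter (fun t => P (2 * t + 1))).card := by
  induction L with
  | zero => simp
  | succ L ih =>
    rw [Finset.range_add_one, Finset.filter_insert]
    have h0 : (if P L then insert L ((Finset.range L).filter P)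
        else (Finset.range L).filter P).card
        = ((Finset.range L).filter P).card + (if P L then 1 else 0) := by
      split_ifs
      · rw [Finset.card_insert_of_notMem]
        simp
      · simp
    rw [h0, ih]
    rcases Nat.even_or_odd' L with ⟨M, hM | hM⟩
    · have e1 : (L + 1) / 2 = M := by omega
      have e2 : L / 2 = M := by omega
      have e3 : (L + 1 + 1) / 2 = M + 1 := by omega
      rw [e1, e2, e3, Finset.range_add_one, Finset.filter_insert]
      have h1 : (if P (2 * M) then insert M ((Finset.range M).filter (fun t => P (2 * t)))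
          else (Finset.range M).filter (fun t => P (2 * t))).card
          = ((Finset.range M).filter (fun t => P (2 * t))).card
            + (if P (2 * M) then 1 else 0) := by
        split_ifs
        · rw [Finset.card_insert_of_notMem]
          simp
        · simp
      rw [h1, hM]
      omega
    · have e1 : (L + 1) / 2 = M + 1 := by omega
      have e2 : L / 2 = M := by omega
      have e3 : (L + 1 + 1) / 2 = M + 1 := by omega
      rw [e1, e2, e3]
      conv_rhs => rw [Finset.range_add_one (n := M)]
      have h2 : ((insert M (Finset.range M)).filter (fun t => P (2 * t + 1))).card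
          = ((Finset.range M).filter (fun t => P (2 * t + 1))).card
            + (if P (2 * M + 1) then 1 else 0) := by
        rw [Finset.filter_insert]
        split_ifs
        · rw [Finset.card_insert_of_notMem]
          simp
        · simp
      have h3 : ((Finset.range (M + 1)).filter (fun t => P (2 * t))).card
          = ((insert M (Finset.range M)).filter (fun t => P (2 * t))).card := by
        rw [Finset.range_add_one]
      rw [h2, h3, hM]
      omega

/-- the number of equal pairs at distance `i` among the first `N` values -/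
def sameC (τ : ℕ → Bool) (N i : ℕ) : ℕ :=
  ((Finset.range (N - i)).filter (fun t => τ t = τ (t + i))).card

/-- the number of unequal pairs at distance `i` among the first `N` values -/
def diffC (τ : ℕ → Bool) (N i : ℕ) : ℕ :=
  ((Finset.range (N - i)).filter (fun t => τ t ≠ τ (t + i))).card

/-- the next Thue-Morse word -/
def nextC (τ : ℕ → Bool) (t : ℕ) : Bool := xor (decide (t % 2 = 1)) (τ (t / 2))

lemma nextC_even (τ : ℕ → Bool) (t : ℕ) : nextC τ (2 * t) = τ t := by
  unfold nextC
  have h1 : 2 * t / 2 = t := by omega
  have h2 : 2 * t % 2 = 0 := by omega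
  rw [h1, h2]
  simp

lemma nextC_odd (τ : ℕ → Bool) (t : ℕ) : nextC τ (2 * t + 1) = !(τ t) := by
  unfold nextC
  have h1 : (2 * t + 1) / 2 = t := by omega
  have h2 : (2 * t + 1) % 2 = 1 := by omega
  rw [h1, h2]
  simp

lemma same_even (τ : ℕ → Bool) (N i : ℕ) :
    sameC (nextC τ) (2 * N) (2 * i) = 2 * sameC τ N i := by
  unfold sameC
  rw [card_filter_range_split]
  have e1 : (2 * N - 2 * i + 1) / 2 = N - i := by omega
  have e2 : (2 * N - 2 * i) / 2 = N - i := by omega
  rw [e1, e2]
  have h1 : ((Finset.range (N - i)).filter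
      (fun t => nextC τ (2 * t) = nextC τ (2 * t + 2 * i)))
      = (Finset.range (N - i)).filter (fun t => τ t = τ (t + i)) := by
    refine Finset.filter_congr ?_
    intro t _
    have : 2 * t + 2 * i = 2 * (t + i) := by ring
    rw [this, nextC_even, nextC_even]
  have h2 : ((Finset.range (N - i)).filter
      (fun t => nextC τ (2 * t + 1) = nextC τ (2 * t + 1 + 2 * i)))
      = (Finset.range (N - i)).filter (fun t => τ t = τ (t + i)) := by
    refine Finset.filter_congr ?_
    intro t _
    have : 2 * t + 1 + 2 * i = 2 * (t + i) + 1 := by ring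
    rw [this, nextC_odd, nextC_odd, Bool.not_inj_iff]
  rw [h1, h2]
  ring

lemma diff_even (τ : ℕ → Bool) (N i : ℕ) :
    diffC (nextC τ) (2 * N) (2 * i) = 2 * diffC τ N i := by
  unfold diffC
  rw [card_filter_range_split]
  have e1 : (2 * N - 2 * i + 1) / 2 = N - i := by omega
  have e2 : (2 * N - 2 * i) / 2 = N - i := by omega
  rw [e1, e2]
  have h1 : ((Finset.range (N - i)).filter
      (fun t => nextC τ (2 * t) ≠ nextC τ (2 * t + 2 * i)))
      = (Finset.range (N - i)).filter (fun t => τ t ≠ τ (t + i)) := by
    refine Finset.filter_congr ?_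
    intro t _
    have : 2 * t + 2 * i = 2 * (t + i) := by ring
    rw [this, nextC_even, nextC_even]
  have h2 : ((Finset.range (N - i)).filter
      (fun t => nextC τ (2 * t + 1) ≠ nextC τ (2 * t + 1 + 2 * i)))
      = (Finset.range (N - i)).filter (fun t => τ t ≠ τ (t + i)) := by
    refine Finset.filter_congr ?_
    intro t _
    have : 2 * t + 1 + 2 * i = 2 * (t + i) + 1 := by ring
    rw [this, nextC_odd, nextC_odd, ne_eq, Bool.not_inj_iff]
  rw [h1, h2]
  ring

lemma bool_aux (a b : Bool) : a = !b ↔ a ≠ b := by
  cases a <;> cases b <;> simp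

lemma bool_aux' (a b : Bool) : (!a) = b ↔ a ≠ b := by
  cases a <;> cases b <;> simp

lemma bool_aux2 (a b : Bool) : a ≠ !b ↔ a = b := by
  cases a <;> cases b <;> simp

lemma bool_aux2' (a b : Bool) : (!a) ≠ b ↔ a = b := by
  cases a <;> cases b <;> simp

lemma same_odd (τ : ℕ → Bool) (N i : ℕ) :
    sameC (nextC τ) (2 * N) (2 * i + 1) = diffC τ N i + diffC τ N (i + 1) := by
  unfold sameC diffC
  rw [card_filter_range_split]
  have e1 : (2 * N - (2 * i + 1) + 1) / 2 = N - i := by omega
  have e2 : (2 * N - (2 * i + 1)) / 2 = N - (i + 1) := by omega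
  rw [e1, e2]
  congr 1
  · refine congrArg Finset.card (Finset.filter_congr ?_)
    intro t _
    have : 2 * t + (2 * i + 1) = 2 * (t + i) + 1 := by ring
    rw [this, nextC_even, nextC_odd, bool_aux]
  · refine congrArg Finset.card (Finset.filter_congr ?_)
    intro t _
    have : 2 * t + 1 + (2 * i + 1) = 2 * (t + (i + 1)) := by ring
    rw [this, nextC_odd, nextC_even, bool_aux']

lemma diff_odd (τ : ℕ → Bool) (N i : ℕ) :
    diffC (nextC τ) (2 * N) (2 * i + 1) = sameC τ N i + sameC τ N (i + 1) := by
  unfold sameC diffC
  rw [card_filter_range_split]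
  have e1 : (2 * N - (2 * i + 1) + 1) / 2 = N - i := by omega
  have e2 : (2 * N - (2 * i + 1)) / 2 = N - (i + 1) := by omega
  rw [e1, e2]
  congr 1
  · refine congrArg Finset.card (Finset.filter_congr ?_)
    intro t _
    have : 2 * t + (2 * i + 1) = 2 * (t + i) + 1 := by ring
    rw [this, nextC_even, nextC_odd, bool_aux2]
  · refine congrArg Finset.card (Finset.filter_congr ?_)
    intro t _
    have : 2 * t + 1 + (2 * i + 1) = 2 * (t + (i + 1)) := by ring
    rw [this, nextC_odd, nextC_even, bool_aux2']

/-- a word of length `2^K` with few equal pairs at each positive distance -/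
theorem exists_word (K : ℕ) : ∃ τ : ℕ → Bool,
    (∀ i, 1 ≤ i → 4 * sameC τ (2 ^ K) i ≤ 3 * 2 ^ K ∧ 4 * diffC τ (2 ^ K) i ≤ 3 * 2 ^ K) ∧
      2 * sameC τ (2 ^ K) 1 ≤ 2 ^ K := by
  induction K with
  | zero =>
    refine ⟨fun _ => false, ?_, ?_⟩
    · intro i hi
      have : 2 ^ 0 - i = 0 := by
        rw [pow_zero]
        omega
      unfold sameC diffC
      rw [this]
      simp
    · unfold sameC
      simp
  | succ K ih =>
    obtain ⟨τ, h1, h2⟩ := ih
    have hpow : 2 ^ (K + 1) = 2 * 2 ^ K := by ring
    have hdiff0 : diffC τ (2 ^ K) 0 = 0 := by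
      unfold diffC
      simp
    have hsame0 : sameC τ (2 ^ K) 0 = 2 ^ K := by
      unfold sameC
      simp
    refine ⟨nextC τ, ?_, ?_⟩
    · intro i hi
      rw [hpow]
      rcases Nat.even_or_odd' i with ⟨j, hj | hj⟩
      · rw [hj, same_even, diff_even]
        have := h1 j (by omega)
        omega
      · rw [hj, same_odd, diff_odd]
        rcases Nat.eq_zero_or_pos j with h0 | h0
        · subst h0
          rw [hdiff0, hsame0]
          have h3 := h1 1 le_rfl
          simp only [Nat.zero_add]
          omega
        · have h3 := h1 j h0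
          have h4 := h1 (j + 1) (by omega)
          omega
    · rw [hpow]
      have h3 := same_odd τ (2 ^ K) 0
      rw [Nat.mul_zero, Nat.zero_add] at h3
      rw [h3, hdiff0]
      have h4 := h1 1 le_rfl
      omega

/-- sets of differences with small overlaps under all short shifts -/
theorem exists_diffs (K W h₀ : ℕ) : ∃ S : Finset ℕ, S.card = 2 ^ K ∧
    (∀ h ∈ S, h₀ ≤ h ∧ h < h₀ + 2 * 2 ^ K + W) ∧
    ∀ i, 1 ≤ i → i ≤ W → 4 * (S.filter (fun h => h + i ∈ S)).card ≤ 3 * 2 ^ K := by
  obtain ⟨τ, hτ, _⟩ := exists_word K
  obtain ⟨N, hN⟩ : ∃ N, N = 2 ^ K := ⟨_, rfl⟩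
  rw [← hN] at hτ ⊢
  let g : ℕ → ℕ := fun t => if τ t = true then h₀ + (N + W) + t else h₀ + t
  have hg : ∀ t, g t = if τ t = true then h₀ + (N + W) + t else h₀ + t := fun t => rfl
  have hinj : Set.InjOn g (Finset.range N : Set ℕ) := by
    intro x hx y hy hxy
    rw [Finset.mem_coe, Finset.mem_range] at hx hy
    rw [hg, hg] at hxy
    split_ifs at hxy <;> omega
  refine ⟨(Finset.range N).image g, ?_, ?_, ?_⟩
  · rw [Finset.card_image_of_injOn hinj, Finset.card_range]
  · intro h hh
    obtain ⟨t, ht, rfl⟩ := Finset.mem_image.mp hh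
    rw [Finset.mem_range] at ht
    rw [hg]
    split_ifs <;> omega
  · intro i hi1 hi2
    have h1 : (((Finset.range N).image g).filter (fun h => h + i ∈ (Finset.range N).image g))
        ⊆ ((Finset.range (N - i)).filter (fun t => τ t = τ (t + i))).image g := by
      intro h hh
      rw [Finset.mem_filter] at hh
      obtain ⟨t, ht, rfl⟩ := Finset.mem_image.mp hh.1
      obtain ⟨t', ht', hEq⟩ := Finset.mem_image.mp hh.2
      rw [Finset.mem_range] at ht ht'
      rw [hg, hg] at hEq
      refine Finset.mem_image.mpr ⟨t, ?_, rfl⟩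
      rw [Finset.mem_filter, Finset.mem_range]
      split_ifs at hEq with h3 h4 h4
      · have : t' = t + i := by omega
        subst this
        exact ⟨by omega, by rw [h3, h4]⟩
      · exfalso
        omega
      · exfalso
        omega
      · have : t' = t + i := by omega
        subst this
        refine ⟨by omega, ?_⟩
        rw [Bool.not_eq_true] at h3 h4
        rw [h3, h4]
    have h2 := Finset.card_le_card h1
    have h3 := Finset.card_image_le (s := (Finset.range (N - i)).filter (fun t => τ t = τ (t + i)))
      (f := g)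
    have h4 := (hτ i hi1).1
    unfold sameC at h4
    omega

end Pool.Agent.BD48
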