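import Mathlib
import Pool.Agent.BD48.BlockF
import Pool.Agent.BD48.Interval

/-!
Degree sequences on an interval realised by short edges avoiding a sparse forbidden graph.
-/

namespace Pool.Agent.BD48

open Finset

attribute [local instance] Classical.propDecidable

variable {n : ℕ} [NeZero n]

theorem intervalF (F : SimpleGraph (ZMod n)) (a D φ b : ℕ) (hF : ∀ v, dg F v ≤ φ) (ha1 : 1 ≤ a)
    (hDa : D ≤ 2 * a) (hb : 3 * (D + φ + 1) + 2 ≤ b) :
    ∀ (len a₀ : ℕ) (f : ZMod n → ℕ), b ≤ len → a₀ + len ≤ n → (∀ v, f v ≤ D) →
      (∀ v ∈ itv n a₀ len, a + 1 ≤ f v) →
      (∀ v ∈ itv n a₀ len, a₀ + b ≤ v.val → a + 2 ≤ f v) →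
      Even (∑ v ∈ itv n a₀ len, f v) →
      ∃ Z : SimpleGraph (ZMod n),
        (∀ x y, Z.Adj x y → (a₀ ≤ x.val ∧ x.val < a₀ + len) ∧ (a₀ ≤ y.val ∧ y.val < a₀ + len) ∧
          y.val < x.val + 2 * b) ∧ (∀ x y, Z.Adj x y → ¬ F.Adj x y) ∧
          ∀ v ∈ itv n a₀ len, dg Z v = f v := by
  intro len
  induction len using Nat.strong_induction_on with
  | _ len ih =>
    intro a₀ f hlen han hD hpos hpos2 heven
    by_cases hsmall : len < 2 * b
    · obtain ⟨Z, hZ1, hZ3, hZ2⟩ := blockF (itv n a₀ len) F f a D φ hF ha1 hDa
        (fun x hx => by have := hpos x hx; omega) (fun x _ => hD x)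
        (by rw [card_itv _ _ han]; omega) heven
      refine ⟨Z, ?_, hZ3, hZ2⟩
      intro x y hxy
      have h1 := mem_itv.mp (hZ1 x y hxy).1
      have h2 := mem_itv.mp (hZ1 x y hxy).2
      refine ⟨h1, h2, ?_⟩
      omega
    · push Not at hsmall
      -- split
      have hsplit : itv n a₀ len = itv n a₀ b ∪ itv n (a₀ + b) (len - b) := by
        ext v
        rw [Finset.mem_union, mem_itv, mem_itv, mem_itv]
        omega
      have hSsub : ∀ v, v ∈ itv n a₀ b → v ∈ itv n a₀ len := by
        intro v hv
        rw [hsplit]
        exact Finset.mem_union_left _ hv
      have hTsub : ∀ v, v ∈ itv n (a₀ + b) (len - b) → v ∈ itv n a₀ len := by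
        intro v hv
        rw [hsplit]
        exact Finset.mem_union_right _ hv
      have hdis : Disjoint (itv n a₀ b) (itv n (a₀ + b) (len - b)) := by
        rw [Finset.disjoint_left]
        intro v h1 h2
        rw [mem_itv] at h1 h2
        omega
      rw [hsplit, Finset.sum_union hdis] at heven
      by_cases hev : Even (∑ v ∈ itv n a₀ b, f v)
      · have hev2 : Even (∑ v ∈ itv n (a₀ + b) (len - b), f v) := by
          rw [Nat.even_add] at heven
          exact heven.mp hev
        obtain ⟨Z₁, hZ11, hZ13, hZ12⟩ := blockF (itv n a₀ b) F f a D φ hF ha1 hDa
          (fun x hx => by have := hpos x (hSsub x hx); omega) (fun x _ => hD x)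
          (by rw [card_itv _ _ (by omega)]; omega) hev
        obtain ⟨Z₂, hZ21, hZ23, hZ22⟩ := ih (len - b) (by omega) (a₀ + b) f (by omega) (by omega)
          hD (fun v hv => hpos v (hTsub v hv))
          (fun v hv h => hpos2 v (hTsub v hv) (by omega)) hev2
        refine ⟨Z₁ ⊔ Z₂, ?_, ?_, ?_⟩
        · intro x y hxy
          rw [SimpleGraph.sup_adj] at hxy
          rcases hxy with hxy | hxy
          · have h1 := mem_itv.mp (hZ11 x y hxy).1
            have h2 := mem_itv.mp (hZ11 x y hxy).2
            omega
          · have h1 := hZ21 x y hxy
            omega
        · intro x y hxy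
          rw [SimpleGraph.sup_adj] at hxy
          rcases hxy with hxy | hxy
          · exact hZ13 x y hxy
          · exact hZ23 x y hxy
        · intro v hv
          rw [hsplit, Finset.mem_union] at hv
          rcases hv with hv | hv
          · rw [dg_sup_left, hZ12 v hv]
            intro y hy
            have h1 := hZ21 v y hy
            rw [mem_itv] at hv
            omega
          · rw [dg_sup_right, hZ22 v hv]
            intro y hy
            have h1 := mem_itv.mp (hZ11 v y hy).1
            rw [mem_itv] at hv
            omega
      · -- use a crossing edge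
        let p : ZMod n := ((a₀ : ℕ) : ZMod n)
        have hp : p.val = a₀ := ZMod.val_natCast_of_lt (by omega)
        obtain ⟨q, hqI, hqF⟩ : ∃ q ∈ itv n (a₀ + b) b, q ∉ nb F p := by
          by_contra hcon
          push Not at hcon
          have h1 := Finset.card_le_card (fun q hq => hcon q hq)
          rw [card_itv _ _ (by omega)] at h1
          have h2 : (nb F p).card ≤ φ := hF p
          omega
        rw [mem_nb] at hqF
        rw [mem_itv] at hqI
        have hpq : p ≠ q := by
          intro h
          rw [← h, hp] at hqI
          omega
        have hpS : p ∈ itv n a₀ b := mem_itv.mpr (by omega)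
        have hqT : q ∈ itv n (a₀ + b) (len - b) := mem_itv.mpr (by omega)
        have hfp : a + 1 ≤ f p := hpos p (hSsub p hpS)
        have hfq : a + 2 ≤ f q := hpos2 q (hTsub q hqT) (by omega)
        let g : ZMod n → ℕ := fun v => f v - (if v = p then 1 else 0) - (if v = q then 1 else 0)
        have hg1 : ∀ v, g v ≤ f v := by
          intro v
          simp only [g]
          omega
        have hg2 : ∀ v, v ≠ p → v ≠ q → g v = f v := by
          intro v h1 h2
          simp [g, h1, h2]
        have hgp : g p + 1 = f p := by
          simp only [g, if_true, if_neg hpq]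
          omega
        have hgq : g q + 1 = f q := by
          simp only [g, if_true, if_neg hpq.symm]
          omega
        have hS : ∑ v ∈ itv n a₀ b, f v = ∑ v ∈ itv n a₀ b, g v + 1 := by
          rw [← Finset.sum_erase_add _ f hpS, ← Finset.sum_erase_add _ g hpS]
          have : ∑ v ∈ (itv n a₀ b).erase p, f v = ∑ v ∈ (itv n a₀ b).erase p, g v := by
            refine Finset.sum_congr rfl ?_
            intro v hv
            rw [Finset.mem_erase, mem_itv] at hv
            refine (hg2 v hv.1 ?_).symm
            intro h
            rw [h] at hv
            omega
          omega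
        have hT : ∑ v ∈ itv n (a₀ + b) (len - b), f v
            = ∑ v ∈ itv n (a₀ + b) (len - b), g v + 1 := by
          rw [← Finset.sum_erase_add _ f hqT, ← Finset.sum_erase_add _ g hqT]
          have : ∑ v ∈ (itv n (a₀ + b) (len - b)).erase q, f v
              = ∑ v ∈ (itv n (a₀ + b) (len - b)).erase q, g v := by
            refine Finset.sum_congr rfl ?_
            intro v hv
            rw [Finset.mem_erase, mem_itv] at hv
            refine (hg2 v ?_ hv.1).symm
            intro h
            rw [h] at hv
            omega
          omega
        have hev1 : Even (∑ v ∈ itv n a₀ b, g v) := by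
          rw [hS] at hev
          rcases Nat.even_or_odd (∑ v ∈ itv n a₀ b, g v) with h | h
          · exact h
          · exact absurd h.add_one hev
        have hev2 : Even (∑ v ∈ itv n (a₀ + b) (len - b), g v) := by
          rw [hS, hT] at heven
          obtain ⟨x, hx⟩ := heven
          obtain ⟨y, hy⟩ := hev1
          exact ⟨x - y - 1, by omega⟩
        obtain ⟨Z₁, hZ11, hZ13, hZ12⟩ := blockF (itv n a₀ b) F g a D φ hF ha1 hDa
          (fun x hx => by
            by_cases hxp : x = p
            · subst hxp
              omega
            · have hxq : x ≠ q := by
                intro h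
                rw [h, mem_itv] at hx
                omega
              rw [hg2 x hxp hxq]
              have := hpos x (hSsub x hx)
              omega)
          (fun x _ => le_trans (hg1 x) (hD x))
          (by rw [card_itv _ _ (by omega)]; omega) hev1
        obtain ⟨Z₂, hZ21, hZ23, hZ22⟩ := ih (len - b) (by omega) (a₀ + b) g (by omega) (by omega)
          (fun v => le_trans (hg1 v) (hD v))
          (fun v hv => by
            by_cases hvq : v = q
            · subst hvq
              omega
            · have hvp : v ≠ p := by
                intro h
                rw [h, mem_itv] at hv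
                omega
              rw [hg2 v hvp hvq]
              exact hpos v (hTsub v hv))
          (fun v hv h => by
            have hvp : v ≠ p := by
              intro h'
              rw [h', mem_itv] at hv
              omega
            have hvq : v ≠ q := by
              intro h'
              rw [h'] at h
              omega
            rw [hg2 v hvp hvq]
            exact hpos2 v (hTsub v hv) (by omega)) hev2
        have hnpq : ¬ (Z₁ ⊔ Z₂).Adj p q := by
          rw [SimpleGraph.sup_adj]
          rintro (h | h)
          · have h1 := mem_itv.mp (hZ11 p q h).2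
            omega
          · have h1 := hZ21 p q h
            omega
        refine ⟨Z₁ ⊔ Z₂ ⊔ SimpleGraph.edge p q, ?_, ?_, ?_⟩
        · intro x y hxy
          rw [SimpleGraph.sup_adj, SimpleGraph.sup_adj, SimpleGraph.edge_adj] at hxy
          rcases hxy with (hxy | hxy) | ⟨hxy | hxy, _⟩
          · have h1 := mem_itv.mp (hZ11 x y hxy).1
            have h2 := mem_itv.mp (hZ11 x y hxy).2
            omega
          · have h1 := hZ21 x y hxy
            omega
          · rw [hxy.1, hxy.2]
            omega
          · rw [hxy.1, hxy.2]
            omega
        · intro x y hxy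
          rw [SimpleGraph.sup_adj, SimpleGraph.sup_adj, SimpleGraph.edge_adj] at hxy
          rcases hxy with (hxy | hxy) | ⟨hxy | hxy, _⟩
          · exact hZ13 x y hxy
          · exact hZ23 x y hxy
          · rw [hxy.1, hxy.2]
            exact hqF
          · rw [hxy.1, hxy.2]
            exact fun h => hqF h.symm
        · intro v hv
          rw [dg_add _ p q hpq hnpq]
          rw [hsplit, Finset.mem_union] at hv
          rcases hv with hv | hv
          · have hvq : v ≠ q := by
              intro h
              rw [h, mem_itv] at hv
              omega
            rw [dg_sup_left, hZ12 v hv, if_neg hvq]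
            · by_cases hvp : v = p
              · rw [if_pos hvp, hvp]
                omega
              · rw [if_neg hvp, hg2 v hvp hvq]
                omega
            · intro y hy
              have h1 := hZ21 v y hy
              rw [mem_itv] at hv
              omega
          · have hvp : v ≠ p := by
              intro h
              rw [h, mem_itv] at hv
              omega
            rw [dg_sup_right, hZ22 v hv, if_neg hvp]
            · by_cases hvq : v = q
              · rw [if_pos hvq, hvq]
                omega
              · rw [if_neg hvq, hg2 v hvp hvq]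
                omega
            · intro y hy
              have h1 := mem_itv.mp (hZ11 v y hy).1
              rw [mem_itv] at hv
              omega

end Pool.Agent.BD48
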