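import Mathlib
import Pool.Agent.BD48.SepK
import Pool.Agent.BD48.BuildJ

/-!
The construction of a supergraph with degrees `k - e v`, all of whose small separations cut off single
vertices.
-/

namespace Pool.Agent.BD48

open Finset

attribute [local instance] Classical.propDecidable

variable {n : ℕ} [NeZero n]

/-- the construction -/
theorem buildK (G : SimpleGraph (ZMod n)) (e : ZMod n → ℕ) (d k r K s b m : ℕ)
    (hd : ∀ v, dg G v ≤ d) (he : ∀ v, e v ≤ d)
    (hk1 : 2 * r ≤ k) (hk2 : k ≤ 2 * r + 1) (hK : 12 * d + 36 ≤ 2 ^ K) (hs : s + (d + 8) = 2 ^ K)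
    (hb : b = 3 * (4 * d + 16 + (2 * s + d) + 1) + 2) (hm : m = 2 * b) (hr : 6 * m < r)
    (hn : 2 * r + 15 * m + 4 * 2 ^ K + 2 ≤ n) :
    ∃ H : SimpleGraph (ZMod n), G ≤ H ∧ (∀ v, k ≤ dg H v + e v) ∧
      ∑ v, (dg H v + e v) ≤ k * n + 1 ∧ (∀ v, (ball r v \ nb H v).card ≤ 2 * 2 ^ K + 2 * d) ∧
      ∀ C D X : Finset (ZMod n), (∀ x, x ∈ C ∨ x ∈ D ∨ x ∈ X) → (∀ x, x ∈ C → x ∉ D) →
        (∀ x, x ∈ C → x ∉ X) → (∀ x, x ∈ D → x ∉ X) → C.Nonempty → D.Nonempty →
        X.card + 1 ≤ k → (∀ x ∈ C, ∀ y ∈ D, ¬ H.Adj x y) → C.card = 1 ∨ D.card = 1 := by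
  obtain ⟨N, hN⟩ : ∃ N, N = 2 ^ K := ⟨_, rfl⟩
  obtain ⟨S, hScard, hSrange, hSov⟩ := exists_diffs K (3 * m) (r + 3 * m + 1)
  rw [← hN] at hScard hSrange hSov hK hs hn
  have hm1 : 1 ≤ m := by omega
  have hsr : s ≤ m := by omega
  -- the long structured edges
  let J : ZMod n → Finset (ZMod n) := fun v =>
    S.image (fun h : ℕ => v + (h : ZMod n)) ∪ S.image (fun h : ℕ => v - (h : ZMod n))
  have hJ : ∀ v x, x ∈ J v ↔ ∃ h ∈ S, x = v + (h : ZMod n) ∨ v = x + (h : ZMod n) := by
    intro v x
    simp only [J, Finset.mem_union, Finset.mem_image]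
    constructor
    · rintro (⟨h, hh, h1⟩ | ⟨h, hh, h1⟩)
      · exact ⟨h, hh, Or.inl h1.symm⟩
      · refine ⟨h, hh, Or.inr ?_⟩
        rw [← h1]
        ring
    · rintro ⟨h, hh, h1 | h1⟩
      · exact Or.inl ⟨h, hh, h1.symm⟩
      · refine Or.inr ⟨h, hh, ?_⟩
        rw [h1]
        ring
  have hJsymm : ∀ x y, y ∈ J x → x ∈ J y := by
    intro x y hxy
    rw [hJ] at hxy ⊢
    obtain ⟨h, hh, h1⟩ := hxy
    exact ⟨h, hh, h1.symm⟩
  have HL2 : ∀ v x : ZMod n, x ∈ J v → ∀ i : ℕ, i ≤ r + 3 * m →
      x ≠ v + (i : ZMod n) ∧ v ≠ x + (i : ZMod n) := by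
    intro v x hx i hi
    rw [hJ] at hx
    obtain ⟨h, hh, hx⟩ := hx
    have hrange := hSrange h hh
    rcases hx with hx | hx
    · refine ⟨?_, ?_⟩
      · intro hxi
        rw [hx] at hxi
        have := cast_add_inj (by omega) (by omega) hxi
        omega
      · intro hxi
        have h3 : v + ((h + i : ℕ) : ZMod n) = v + ((0 : ℕ) : ZMod n) := by
          push_cast
          rw [hx] at hxi
          linear_combination -hxi
        have := cast_add_inj (by omega) (by omega) h3
        omega
    · refine ⟨?_, ?_⟩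
      · intro hxi
        have h3 : x + ((h + i : ℕ) : ZMod n) = x + ((0 : ℕ) : ZMod n) := by
          push_cast
          rw [hx] at hxi
          linear_combination -hxi
        have := cast_add_inj (by omega) (by omega) h3
        omega
      · intro hxi
        rw [hx] at hxi
        have := cast_add_inj (by omega) (by omega) hxi
        omega
  have hJclose : ∀ v x, x ∈ J v → ¬ close r v x := by
    rintro v x hx ⟨i, h1, h2, h3 | h3⟩
    · exact (HL2 v x hx i (by omega)).1 h3
    · exact (HL2 v x hx i (by omega)).2 h3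
  have hJself : ∀ v, v ∉ J v := by
    intro v hv
    exact (HL2 v v hv 0 (by omega)).1 (by rw [Nat.cast_zero, add_zero])
  have hJcard : ∀ v, (J v).card = 2 * N := by
    intro v
    simp only [J]
    rw [Finset.card_union_of_disjoint, Finset.card_image_of_injOn, Finset.card_image_of_injOn,
      hScard]
    · ring
    · intro a ha b hb hab
      have h1 := hSrange a ha
      have h2 := hSrange b hb
      refine cast_add_inj (c := (0 : ZMod n)) (by omega) (by omega) ?_
      have hab' : v - (a : ZMod n) = v - (b : ZMod n) := hab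
      linear_combination -hab'
    · intro a ha b hb hab
      have h1 := hSrange a ha
      have h2 := hSrange b hb
      exact cast_add_inj (by omega) (by omega) hab
    · rw [Finset.disjoint_left]
      intro x hx hx'
      obtain ⟨i, hi, h1⟩ := Finset.mem_image.mp hx
      obtain ⟨i', hi', h2⟩ := Finset.mem_image.mp hx'
      have h3 := hSrange i hi
      have h4 := hSrange i' hi'
      have h5 : (0 : ZMod n) + ((i + i' : ℕ) : ZMod n) = 0 + ((0 : ℕ) : ZMod n) := by
        push_cast
        linear_combination h1 - h2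
      have := cast_add_inj (by omega) (by omega) h5
      omega
  have hJov : ∀ (u : ZMod n) (i : ℕ), 1 ≤ i → i ≤ 3 * m →
      5 * N ≤ 2 * (J u ∪ J (u + (i : ZMod n))).card := by
    intro u i hi1 hi2
    let Si : Finset ℕ := S.filter (fun h => h + i ∈ S)
    have h1 : J u ∩ J (u + (i : ZMod n)) ⊆
        Si.image (fun h : ℕ => u + (i : ZMod n) + (h : ZMod n)) ∪
          Si.image (fun h : ℕ => u - (h : ZMod n)) := by
      intro x hx
      rw [Finset.mem_inter, hJ, hJ] at hx
      obtain ⟨⟨h₁, hh₁, hx₁⟩, ⟨h₂, hh₂, hx₂⟩⟩ := hx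
      have hr₁ := hSrange h₁ hh₁
      have hr₂ := hSrange h₂ hh₂
      rw [Finset.mem_union, Finset.mem_image, Finset.mem_image]
      rcases hx₁ with hx₁ | hx₁
      · rcases hx₂ with hx₂ | hx₂
        · left
          have h3 : u + (h₁ : ZMod n) = u + ((h₂ + i : ℕ) : ZMod n) := by
            push_cast
            linear_combination hx₂ - hx₁
          have h4 := cast_add_inj (by omega) (by omega) h3
          refine ⟨h₂, Finset.mem_filter.mpr ⟨hh₂, by rw [← h4]; exact hh₁⟩, hx₂.symm⟩
        · exfalso
          have h3 : u + ((h₁ + h₂ : ℕ) : ZMod n) = u + (i : ZMod n) := by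
            push_cast
            rw [hx₁] at hx₂
            linear_combination -hx₂
          have := cast_add_inj (by omega) (by omega) h3
          omega
      · rcases hx₂ with hx₂ | hx₂
        · exfalso
          have h3 : u + ((i + h₂ + h₁ : ℕ) : ZMod n) = u + ((0 : ℕ) : ZMod n) := by
            push_cast
            rw [hx₂] at hx₁
            linear_combination -hx₁
          have := cast_add_inj (by omega) (by omega) h3
          omega
        · right
          have h3 : x + ((h₁ + i : ℕ) : ZMod n) = x + (h₂ : ZMod n) := by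
            push_cast
            linear_combination hx₂ - hx₁
          have h4 := cast_add_inj (by omega) (by omega) h3
          refine ⟨h₁, Finset.mem_filter.mpr ⟨hh₁, by rw [h4]; exact hh₂⟩, ?_⟩
          rw [hx₁]
          ring
    have h2 := Finset.card_le_card h1
    have h3 := Finset.card_union_le (Si.image (fun h : ℕ => u + (i : ZMod n) + (h : ZMod n)))
      (Si.image (fun h : ℕ => u - (h : ZMod n)))
    have h4 := Finset.card_image_le (s := Si)
      (f := fun h : ℕ => u + (i : ZMod n) + (h : ZMod n))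
    have h5 := Finset.card_image_le (s := Si) (f := fun h : ℕ => u - (h : ZMod n))
    have h6 : 4 * Si.card ≤ 3 * N := hSov i hi1 hi2
    have h7 := Finset.card_union_add_card_inter (J u) (J (u + (i : ZMod n)))
    rw [hJcard, hJcard] at h7
    omega
  -- the long edges of `G`
  let LG : SimpleGraph (ZMod n) :=
    { Adj := fun x y => G.Adj x y ∧ ¬ close r x y
      symm := ⟨fun x y h => ⟨h.1.symm, fun h' => h.2 (close_symm h')⟩⟩
      loopless := ⟨fun x h => h.1.ne rfl⟩ }
  have hLG : ∀ x y, LG.Adj x y ↔ G.Adj x y ∧ ¬ close r x y := fun x y => Iff.rfl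
  let JL : SimpleGraph (ZMod n) :=
    { Adj := fun x y => y ∈ J x ∨ LG.Adj x y
      symm := ⟨by
        rintro x y (h | h)
        · exact Or.inl (hJsymm x y h)
        · exact Or.inr h.symm⟩
      loopless := ⟨by
        rintro x (h | h)
        · exact hJself x h
        · exact h.ne rfl⟩ }
  have hJL : ∀ x y, JL.Adj x y ↔ y ∈ J x ∨ LG.Adj x y := fun x y => Iff.rfl
  have hJLcard : ∀ v, dg JL v = (J v ∪ nb LG v).card := by
    intro v
    refine dg_eq_card JL v _ ?_
    intro y
    rw [Finset.mem_union, mem_nb, hJL]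
  have hJLle : ∀ v, dg JL v ≤ 2 * N + dg LG v := by
    intro v
    rw [hJLcard, ← hJcard v]
    exact Finset.card_union_le _ _
  have hJLge : ∀ v, 2 * N ≤ dg JL v := by
    intro v
    rw [hJLcard, ← hJcard v]
    exact Finset.card_le_card Finset.subset_union_left
  -- the basic part of the removed edges
  let Zb : SimpleGraph (ZMod n) :=
    { Adj := fun x y => close s x y ∧ ¬ G.Adj x y
      symm := ⟨fun x y h => ⟨close_symm h.1, fun h' => h.2 h'.symm⟩⟩
      loopless := ⟨fun x h => not_close_self (by omega) x h.1⟩ }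
  have hZb : ∀ x y, Zb.Adj x y ↔ close s x y ∧ ¬ G.Adj x y := fun x y => Iff.rfl
  let F : SimpleGraph (ZMod n) :=
    { Adj := fun x y => close s x y ∨ G.Adj x y
      symm := ⟨by
        rintro x y (h | h)
        · exact Or.inl (close_symm h)
        · exact Or.inr h.symm⟩
      loopless := ⟨by
        rintro x (h | h)
        · exact not_close_self (by omega) x h
        · exact h.ne rfl⟩ }
  have hFadj : ∀ x y, F.Adj x y ↔ close s x y ∨ G.Adj x y := fun x y => Iff.rfl
  have hFdeg : ∀ v, dg F v ≤ 2 * s + d := by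
    intro v
    rw [dg_eq_card F v (ball s v ∪ nb G v)
      (by intro y; rw [Finset.mem_union, mem_ball, mem_nb, hFadj])]
    refine le_trans (Finset.card_union_le _ _) ?_
    rw [card_ball s (by omega)]
    have : (nb G v).card ≤ d := hd v
    omega
  have hZbdeg : ∀ v, dg Zb v + (ball s v ∩ nb G v).card = 2 * s := by
    intro v
    have h1 : dg Zb v = (ball s v \ nb G v).card := by
      refine dg_eq_card Zb v _ ?_
      intro y
      rw [Finset.mem_sdiff, mem_ball, mem_nb, hZb]
    rw [h1, Finset.card_sdiff_add_card_inter, card_ball s (by omega)]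
  have hcount : ∀ v, dg LG v + (ball s v ∩ nb G v).card ≤ d := by
    intro v
    have h1 : Disjoint (nb LG v) (ball s v ∩ nb G v) := by
      rw [Finset.disjoint_left]
      intro y h2 h3
      rw [mem_nb] at h2
      rw [Finset.mem_inter, mem_ball] at h3
      exact h2.2 (close_mono (by omega) h3.1)
    have h2 : nb LG v ∪ (ball s v ∩ nb G v) ⊆ nb G v := by
      refine Finset.union_subset ?_ Finset.inter_subset_right
      intro y hy
      rw [mem_nb] at hy ⊢
      exact hy.1
    have h3 := Finset.card_le_card h2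
    rw [Finset.card_union_of_disjoint h1] at h3
    exact le_trans h3 (hd v)
  -- the prescribed degrees
  let q : ℕ := k - 2 * r
  have hq : q = 0 ∨ q = 1 := by omega
  have hqk : 2 * r + q = k := by omega
  let ε : ZMod n → ℕ := fun v => if v = 0 then (n * q + ∑ w, e w) % 2 else 0
  have hε1 : ∀ v, ε v ≤ 1 := by
    intro v
    simp only [ε]
    split_ifs <;> omega
  let f : ZMod n → ℕ := fun v => dg JL v + e v - q - ε v - dg Zb v
  have hf : ∀ v, f v + q + ε v + dg Zb v = dg JL v + e v := by
    intro v
    have h1 := hε1 v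
    have h2 := hJLge v
    have h3 := hZbdeg v
    simp only [f]
    omega
  have hflow : ∀ v, 2 * d + 14 ≤ f v := by
    intro v
    have h1 := hε1 v
    have h2 := hJLge v
    have h3 := hZbdeg v
    have h4 := hf v
    omega
  have hfhigh : ∀ v, f v ≤ 4 * d + 16 := by
    intro v
    have h6 := he v
    have h2 := hJLle v
    have h3 := hZbdeg v
    have h4 := hf v
    have h5 := hcount v
    omega
  have hfeven : Even (∑ v ∈ itv n 0 n, f v) := by
    have huniv : itv n 0 n = univ := by
      ext v
      rw [mem_itv]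
      have := ZMod.val_lt v
      simp only [Finset.mem_univ, iff_true]
      omega
    rw [huniv]
    have h1 : ∑ v, f v + (n * q + (n * q + ∑ w, e w) % 2) + ∑ v, dg Zb v
        = ∑ v, dg JL v + ∑ w, e w := by
      have h2 : ∑ v : ZMod n, (f v + q + ε v + dg Zb v) = ∑ v : ZMod n, (dg JL v + e v) :=
        Finset.sum_congr rfl (fun v _ => hf v)
      rw [Finset.sum_add_distrib, Finset.sum_add_distrib, Finset.sum_add_distrib,
        Finset.sum_add_distrib] at h2
      simp only [ε, Finset.sum_ite_eq', Finset.mem_univ, if_true, Finset.sum_const,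
        Finset.card_univ, ZMod.card, smul_eq_mul] at h2
      omega
    obtain ⟨x, hx⟩ := even_sum_dg JL
    obtain ⟨y, hy⟩ := even_sum_dg Zb
    rw [hx, hy] at h1
    rw [Nat.even_iff]
    generalize n * q = nq at h1
    omega
  obtain ⟨Z', hZ1, hZF, hZ2⟩ := intervalF (n := n) F (2 * d + 12) (4 * d + 16) (2 * s + d) b hFdeg
    (by omega) (by omega) (by omega) n 0 f (by omega) (by omega) hfhigh
    (fun v _ => by have := hflow v; omega) (fun v _ _ => by have := hflow v; omega) hfeven
  have hZ'deg : ∀ v, dg Z' v = f v := by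
    intro v
    refine hZ2 v (mem_itv.mpr ?_)
    have := ZMod.val_lt v
    omega
  have hZ'close : ∀ x y, Z'.Adj x y → close m x y := by
    intro x y hxy
    have h1 := hZ1 x y hxy
    have h2 := hZ1 y x hxy.symm
    have hne : x.val ≠ y.val := by
      intro hEq
      exact hxy.ne (ZMod.val_injective n hEq)
    rcases Nat.lt_or_gt_of_ne hne with h3 | h3
    · refine ⟨y.val - x.val, by omega, by omega, Or.inl ?_⟩
      rw [Nat.cast_sub h3.le, ZMod.natCast_zmod_val, ZMod.natCast_zmod_val]
      ring
    · refine ⟨x.val - y.val, by omega, by omega, Or.inr ?_⟩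
      rw [Nat.cast_sub h3.le, ZMod.natCast_zmod_val, ZMod.natCast_zmod_val]
      ring
  obtain ⟨Z, hZdef⟩ : ∃ Z, Z = Zb ⊔ Z' := ⟨_, rfl⟩
  have hZadj : ∀ x y, Z.Adj x y ↔ Zb.Adj x y ∨ Z'.Adj x y := by
    intro x y
    rw [hZdef, SimpleGraph.sup_adj]
  have hZdeg : ∀ v, dg Z v = dg Zb v + f v := by
    intro v
    rw [hZdef, dg_sup_disjoint, hZ'deg]
    intro y h1 h2
    exact hZF v y h2 (Or.inl h1.1)
  have hZclose : ∀ x y, Z.Adj x y → close m x y := by
    intro x y hxy
    rw [hZadj] at hxy
    rcases hxy with h | h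
    · exact close_mono hsr h.1
    · exact hZ'close x y h
  have HZ : ∀ (v : ZMod n) (i : ℕ), m < i → i ≤ r → ¬ Z.Adj v (v + (i : ZMod n)) := by
    intro v i hi1 hi2 hadj
    obtain ⟨j, hj1, hj2, hj | hj⟩ := hZclose _ _ hadj
    · have := cast_add_inj (by omega) (by omega) hj
      omega
    · have h3 : v + ((i + j : ℕ) : ZMod n) = v + ((0 : ℕ) : ZMod n) := by
        push_cast
        linear_combination -hj
      have := cast_add_inj (by omega) (by omega) h3
      omega
  -- the numbers of removed edges on one side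
  have hZp : ∀ w : ZMod n, ((Finset.Ioc 0 r).filter (fun t : ℕ =>
      Z.Adj w (w + (t : ZMod n)))).card ≤ s + (4 * d + 16) := by
    intro w
    have h1 : ((Finset.Ioc 0 r).filter (fun t : ℕ => Z.Adj w (w + (t : ZMod n)))) ⊆
        Finset.Ioc 0 s ∪ (Finset.Ioc 0 r).filter (fun t : ℕ => Z'.Adj w (w + (t : ZMod n))) := by
      intro t ht
      rw [Finset.mem_filter, Finset.mem_Ioc, hZadj] at ht
      rw [Finset.mem_union, Finset.mem_Ioc, Finset.mem_filter, Finset.mem_Ioc]
      rcases ht.2 with h | h
      · left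
        obtain ⟨i, hi1, hi2, hi | hi⟩ := h.1
        · have := cast_add_inj (by omega) (by omega) hi
          omega
        · exfalso
          have h3 : w + ((t + i : ℕ) : ZMod n) = w + ((0 : ℕ) : ZMod n) := by
            push_cast
            linear_combination -hi
          have := cast_add_inj (by omega) (by omega) h3
          omega
      · exact Or.inr ⟨ht.1, h⟩
    refine le_trans (Finset.card_le_card h1) (le_trans (Finset.card_union_le _ _) ?_)
    have h2 : ((Finset.Ioc 0 r).filter (fun t : ℕ => Z'.Adj w (w + (t : ZMod n)))).card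
        ≤ dg Z' w := by
      unfold dg
      refine Finset.card_le_card_of_injOn (fun i : ℕ => w + (i : ZMod n)) ?_ ?_
      · intro i hi
        rw [Finset.mem_coe, Finset.mem_filter] at hi
        rw [Finset.mem_coe, mem_nb]
        exact hi.2
      · intro a ha b hb hab
        rw [Finset.mem_coe, Finset.mem_filter, Finset.mem_Ioc] at ha hb
        exact cast_add_inj (by omega) (by omega) hab
    rw [hZ'deg] at h2
    have h3 := hfhigh w
    rw [Nat.card_Ioc]
    omega
  have hZm : ∀ u : ZMod n, ((Finset.Ioc 0 r).filter (fun t : ℕ =>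
      Z.Adj (u - (t : ZMod n)) u)).card ≤ s + (4 * d + 16) := by
    intro u
    have h1 : ((Finset.Ioc 0 r).filter (fun t : ℕ => Z.Adj (u - (t : ZMod n)) u)) ⊆
        Finset.Ioc 0 s ∪ (Finset.Ioc 0 r).filter (fun t : ℕ => Z'.Adj (u - (t : ZMod n)) u) := by
      intro t ht
      rw [Finset.mem_filter, Finset.mem_Ioc, hZadj] at ht
      rw [Finset.mem_union, Finset.mem_Ioc, Finset.mem_filter, Finset.mem_Ioc]
      rcases ht.2 with h | h
      · left
        obtain ⟨i, hi1, hi2, hi | hi⟩ := h.1
        · have h3 : (0 : ZMod n) + (t : ZMod n) = 0 + (i : ZMod n) := by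
            linear_combination hi
          have := cast_add_inj (by omega) (by omega) h3
          omega
        · exfalso
          have h3 : (0 : ZMod n) + ((t + i : ℕ) : ZMod n) = 0 + ((0 : ℕ) : ZMod n) := by
            push_cast
            linear_combination -hi
          have := cast_add_inj (by omega) (by omega) h3
          omega
      · exact Or.inr ⟨ht.1, h⟩
    refine le_trans (Finset.card_le_card h1) (le_trans (Finset.card_union_le _ _) ?_)
    have h2 : ((Finset.Ioc 0 r).filter (fun t : ℕ => Z'.Adj (u - (t : ZMod n)) u)).card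
        ≤ dg Z' u := by
      unfold dg
      refine Finset.card_le_card_of_injOn (fun i : ℕ => u - (i : ZMod n)) ?_ ?_
      · intro i hi
        rw [Finset.mem_coe, Finset.mem_filter] at hi
        rw [Finset.mem_coe, mem_nb]
        exact hi.2.symm
      · intro a ha b hb hab
        rw [Finset.mem_coe, Finset.mem_filter, Finset.mem_Ioc] at ha hb
        refine cast_add_inj (c := (0 : ZMod n)) (by omega) (by omega) ?_
        have hab' : u - (a : ZMod n) = u - (b : ZMod n) := hab
        linear_combination -hab'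
    rw [hZ'deg] at h2
    have h3 := hfhigh u
    rw [Nat.card_Ioc]
    omega
  -- the graph
  have hJLclose : ∀ v x, JL.Adj v x → ¬ close r v x := by
    intro v x h
    rw [hJL] at h
    rcases h with h | h
    · exact hJclose v x h
    · exact h.2
  let H : SimpleGraph (ZMod n) :=
    { Adj := fun x y => (close r x y ∧ ¬ Z.Adj x y) ∨ JL.Adj x y
      symm := ⟨by
        rintro x y (h1 | h1)
        · exact Or.inl ⟨close_symm h1.1, fun h' => h1.2 h'.symm⟩
        · exact Or.inr h1.symm⟩
      loopless := ⟨by
        rintro x (h1 | h1)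
        · exact not_close_self (by omega) x h1.1
        · exact h1.ne rfl⟩ }
  have hH : ∀ x y, H.Adj x y ↔ (close r x y ∧ ¬ Z.Adj x y) ∨ JL.Adj x y := fun x y => Iff.rfl
  have hHdeg : ∀ v, dg H v + e v = k + ε v := by
    intro v
    have h1 : dg H v = ((ball r v \ nb Z v) ∪ nb JL v).card := by
      refine dg_eq_card H v _ ?_
      intro y
      rw [Finset.mem_union, Finset.mem_sdiff, mem_ball, mem_nb, mem_nb, hH]
    have h2 : Disjoint (ball r v \ nb Z v) (nb JL v) := by
      rw [Finset.disjoint_left]
      intro x hx hx'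
      rw [Finset.mem_sdiff, mem_ball] at hx
      rw [mem_nb] at hx'
      exact hJLclose v x hx' hx.1
    have h3 : nb Z v ⊆ ball r v := by
      intro y hy
      rw [mem_nb] at hy
      rw [mem_ball]
      exact close_mono (by omega) (hZclose v y hy)
    have h4 : (nb Z v).card = dg Zb v + f v := hZdeg v
    have h5 := Finset.card_sdiff_add_card_eq_card h3
    rw [card_ball r (by omega), h4] at h5
    have h8 : (nb JL v).card = dg JL v := rfl
    rw [h1, Finset.card_union_of_disjoint h2, h8]
    have h6 := hf v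
    omega
  have hJH : ∀ v x, x ∈ J v → H.Adj v x := by
    intro v x hx
    rw [hH, hJL]
    exact Or.inr (Or.inl hx)
  refine ⟨H, ?_, ?_, ?_, ?_, ?_⟩
  · intro x y hxy
    rw [hH]
    by_cases hc : close r x y
    · left
      refine ⟨hc, ?_⟩
      rw [hZadj]
      rintro (h | h)
      · exact h.2 hxy
      · exact hZF x y h (Or.inr hxy)
    · right
      rw [hJL]
      exact Or.inr ⟨hxy, hc⟩
  · intro v
    rw [hHdeg v]
    omega
  · rw [Finset.sum_congr rfl (fun v _ => hHdeg v), Finset.sum_add_distrib]
    simp only [ε, Finset.sum_ite_eq', Finset.mem_univ, if_true, Finset.sum_const,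
      Finset.card_univ, ZMod.card, smul_eq_mul]
    have h1 : (n * q + ∑ w, e w) % 2 ≤ 1 := by omega
    rw [Nat.mul_comm n k]
    omega
  · intro v
    have h1 : ball r v \ nb H v ⊆ nb Z v := by
      intro x hx
      rw [Finset.mem_sdiff, mem_ball, mem_nb, hH, not_or, not_and, not_not] at hx
      rw [mem_nb]
      exact hx.2.1 hx.1
    have h2 := Finset.card_le_card h1
    have h3 : (nb Z v).card = dg Zb v + f v := hZdeg v
    have h4 := hf v
    have h5 := hJLle v
    have h6 := hcount v
    have h7 := he v
    omega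
  · refine sep_ofK H Z J k r m hk2 hm1 hr (by omega) ?_ HZ hJH HL2 ?_ ?_
    · intro v i hi1 hi2 hZ
      rw [hH]
      exact Or.inl ⟨⟨i, hi1, hi2, Or.inl rfl⟩, hZ⟩
    · intro u i hi1 hi2
      have h1 := hZp (u + (i : ZMod n))
      have h2 := hZm u
      have h3 := hJov u i hi1 hi2
      omega
    · intro v
      have hSne : S.Nonempty := by
        rw [← Finset.card_pos, hScard]
        omega
      obtain ⟨h, hh⟩ := hSne
      have hrange := hSrange h hh
      refine ⟨h, by omega, by omega, ?_⟩
      refine hJH v _ ?_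
      rw [hJ]
      exact ⟨h, hh, Or.inl rfl⟩

end Pool.Agent.BD48
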