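import Mathlib
import Pool.Agent.BD48.BuildK

/-!
Separations in a graph with hubs.
-/

namespace Pool.Agent.BD48

open Finset

attribute [local instance] Classical.propDecidable

variable {V : Type*} [Fintype V]

/-- one side of a separation consists of hubs and at most one other vertex: impossible -/
lemma side_hubs (H : SimpleGraph V) (W : Finset V) (k c : ℕ) (F1 : ∀ v, k ≤ dg H v)
    (F3 : ∀ S : Finset V, (∀ v ∈ S, v ∉ W) → c + 1 ≤ S.card →
      k + 1 ≤ ((S.biUnion (fun z => nb H z)) \ S).card)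
    (F4 : ∀ z v, z ∉ W → v ≠ z → k + c + 2 ≤ (nb H z ∪ nb H v).card)
    (C D X : Finset V) (hcov : ∀ x, x ∈ C ∨ x ∈ D ∨ x ∈ X) (hC : C.Nonempty)
    (hX : X.card + 1 ≤ k) (hno : ∀ x ∈ C, ∀ y ∈ D, ¬ H.Adj x y) (hCW : (C ∩ W).card ≤ 1) :
    False := by
  have hN : ∀ x ∈ C, ∀ y, H.Adj x y → y ∈ X ∪ C := by
    intro x hx y hxy
    rw [Finset.mem_union]
    rcases hcov y with h | h | h
    · exact Or.inr h
    · exact absurd hxy (hno x hx y h)
    · exact Or.inl h
  have hsplit : C.card = (C ∩ W).card + (C \ W).card := by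
    rw [Nat.add_comm]
    exact (Finset.card_sdiff_add_card_inter C W).symm
  by_cases h1 : c + 1 ≤ (C \ W).card
  · have h2 := F3 (C \ W) (fun v hv => (Finset.mem_sdiff.mp hv).2) h1
    have h3 : ((C \ W).biUnion (fun z => nb H z)) \ (C \ W) ⊆ X ∪ (C ∩ W) := by
      intro y hy
      rw [Finset.mem_sdiff, Finset.mem_biUnion] at hy
      obtain ⟨⟨z, hz, hzy⟩, hyS⟩ := hy
      rw [mem_nb] at hzy
      have h4 := hN z (Finset.mem_sdiff.mp hz).1 y hzy
      rw [Finset.mem_union] at h4 ⊢
      rcases h4 with h4 | h4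
      · exact Or.inl h4
      · right
        rw [Finset.mem_inter]
        refine ⟨h4, ?_⟩
        by_contra hcon
        exact hyS (Finset.mem_sdiff.mpr ⟨h4, hcon⟩)
    have h4 := Finset.card_le_card h3
    have h5 := Finset.card_union_le X (C ∩ W)
    omega
  · by_cases h2 : C.card = 1
    · obtain ⟨v, hv⟩ := Finset.card_eq_one.mp h2
      have h3 : nb H v ⊆ X := by
        intro y hy
        rw [mem_nb] at hy
        have h4 := hN v (by rw [hv]; exact Finset.mem_singleton_self v) y hy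
        rw [Finset.mem_union, hv, Finset.mem_singleton] at h4
        rcases h4 with h4 | h4
        · exact h4
        · exact absurd h4.symm hy.ne
      have h4 : dg H v ≤ X.card := Finset.card_le_card h3
      have h5 := F1 v
      omega
    · have h3 : 0 < C.card := Finset.card_pos.mpr hC
      have h4 : 0 < (C \ W).card := by omega
      obtain ⟨z, hz⟩ := Finset.card_pos.mp h4
      have hzC := (Finset.mem_sdiff.mp hz).1
      obtain ⟨v, hv, hvz⟩ : ∃ v ∈ C, v ≠ z :=
        Finset.exists_mem_ne (by omega) z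
      have h5 := F4 z v (Finset.mem_sdiff.mp hz).2 hvz
      have h6 : nb H z ∪ nb H v ⊆ X ∪ C := by
        intro y hy
        rw [Finset.mem_union, mem_nb, mem_nb] at hy
        rcases hy with hy | hy
        · exact hN z hzC y hy
        · exact hN v hv y hy
      have h7 := Finset.card_le_card h6
      have h8 := Finset.card_union_le X C
      omega

/-- the separation theorem with hubs -/
theorem sep_hubs (H : SimpleGraph V) (W : Finset V) (k c : ℕ) (F1 : ∀ v, k ≤ dg H v)
    (F2 : ∀ C D X : Finset V, (∀ x, x ∈ C ∨ x ∈ D ∨ x ∈ X) → (∀ x, x ∈ C → x ∉ D) →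
      (∀ x, x ∈ C → x ∉ X) → (∀ x, x ∈ D → x ∉ X) → (C ∩ W).Nonempty → (D ∩ W).Nonempty →
      X.card + 1 ≤ k → (∀ x ∈ C, ∀ y ∈ D, ¬ H.Adj x y) → (C ∩ W).card = 1 ∨ (D ∩ W).card = 1)
    (F3 : ∀ S : Finset V, (∀ v ∈ S, v ∉ W) → c + 1 ≤ S.card →
      k + 1 ≤ ((S.biUnion (fun z => nb H z)) \ S).card)
    (F4 : ∀ z v, z ∉ W → v ≠ z → k + c + 2 ≤ (nb H z ∪ nb H v).card) : SepFree H k := by
  intro C D X hcov hCD hCX hDX hC hD hX hno
  have hcov' : ∀ x, x ∈ D ∨ x ∈ C ∨ x ∈ X := by
    intro x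
    rcases hcov x with h | h | h
    · exact Or.inr (Or.inl h)
    · exact Or.inl h
    · exact Or.inr (Or.inr h)
  have hno' : ∀ x ∈ D, ∀ y ∈ C, ¬ H.Adj x y := fun x hx y hy h => hno y hy x hx h.symm
  have hone : (C ∩ W).card ≤ 1 ∨ (D ∩ W).card ≤ 1 := by
    by_cases h1 : (C ∩ W).Nonempty
    · by_cases h2 : (D ∩ W).Nonempty
      · rcases F2 C D X hcov hCD hCX hDX h1 h2 hX hno with h | h
        · exact Or.inl h.le
        · exact Or.inr h.le
      · rw [Finset.not_nonempty_iff_eq_empty] at h2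
        right
        rw [h2]
        simp
    · rw [Finset.not_nonempty_iff_eq_empty] at h1
      left
      rw [h1]
      simp
  rcases hone with h | h
  · exact side_hubs H W k c F1 F3 F4 C D X hcov hC hX hno h
  · exact side_hubs H W k c F1 F3 F4 D C X hcov' hD hX hno' h

end Pool.Agent.BD48
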