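import Mathlib
import Pool.Agent.BD48.HubsD

/-!
Assembling the supergraph from the graph on the vertices of small degree and the stars of the hubs.
-/

namespace Pool.Agent.BD48

open Finset

attribute [local instance] Classical.propDecidable

variable {V : Type*} [Fintype V]

/-- the assembly -/
theorem assembleD (G : SimpleGraph V) (Z : Finset V) (N : V → Finset V) (ext : V → ℕ) (n : ℕ)
    [NeZero n]
    (p : V → ZMod n) (q : ZMod n → V) (hq : ∀ a, q a ∉ Z) (hpq : ∀ a, p (q a) = a)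
    (hqp : ∀ x, x ∉ Z → q (p x) = x) (d k r K s b m : ℕ) (hdW : ∀ v, v ∉ Z → dg G v ≤ d)
    (hNZ : ∀ z ∈ Z, ∀ w ∈ N z, w ∉ Z ∧ ¬ G.Adj z w)
    (hNdeg : ∀ z ∈ Z, dg G z + (N z).card = max k (dg G z) + ext z)
    (hload : ∀ w, w ∉ Z → (Z.filter (fun z => G.Adj w z ∨ w ∈ N z)).card ≤ d)
    (hk1 : 2 * r ≤ k) (hk2 : k ≤ 2 * r + 1) (hK : 12 * d + 36 ≤ 2 ^ K) (hs : s + (d + 8) = 2 ^ K)
    (hb : b = 3 * (4 * d + 16 + (2 * s + d) + 1) + 2) (hm : m = 2 * b) (hr : 6 * m < r)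
    (hn : 2 * r + 15 * m + 4 * 2 ^ K + 2 ≤ n) :
    ∃ H : SimpleGraph V, G ≤ H ∧ (∀ z ∈ Z, ∀ y, H.Adj z y ↔ G.Adj z y ∨ y ∈ N z) ∧
      (∀ v, k ≤ dg H v) ∧ (∀ z ∈ Z, dg H z = max k (dg G z) + ext z) ∧
      (∑ v, dg H v ≤ ∑ v, max k (dg G v) + ∑ v, ext v + 1) ∧
      (∀ C D X : Finset V, (∀ x, x ∈ C ∨ x ∈ D ∨ x ∈ X) → (∀ x, x ∈ C → x ∉ D) →
        (∀ x, x ∈ C → x ∉ X) → (∀ x, x ∈ D → x ∉ X) → (C ∩ (univ \ Z)).Nonempty →
        (D ∩ (univ \ Z)).Nonempty → X.card + 1 ≤ k → (∀ x ∈ C, ∀ y ∈ D, ¬ H.Adj x y) →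
        (C ∩ (univ \ Z)).card = 1 ∨ (D ∩ (univ \ Z)).card = 1) ∧
      (∀ c, c ∉ Z → ∃ T : Finset (ZMod n), T.card ≤ 2 * 2 ^ K + 2 * d ∧
        ∀ a ∈ ball r (p c), a ∉ T → H.Adj c (q a)) := by
  have hqinj : Function.Injective q := fun a a' h => by rw [← hpq a, ← hpq a', h]
  -- the graph on the cycle
  let e : ZMod n → ℕ := fun a => (Z.filter (fun z => G.Adj (q a) z ∨ q a ∈ N z)).card
  have hG' : ∀ a, dg (G.comap q) a ≤ d := by
    intro a
    refine le_trans ?_ (hdW (q a) (hq a))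
    unfold dg
    refine Finset.card_le_card_of_injOn q ?_ (hqinj.injOn)
    intro x hx
    rw [Finset.mem_coe, mem_nb, SimpleGraph.comap_adj] at hx
    rw [Finset.mem_coe, mem_nb]
    exact hx
  obtain ⟨HW, hW1, hW2, hW3, hW4, hW5⟩ := buildK (G.comap q) e d k r K s b m hG'
    (fun a => hload (q a) (hq a)) hk1 hk2 hK hs hb hm hr hn
  -- the graph
  let H : SimpleGraph V :=
    { Adj := fun x y => (x ∉ Z ∧ y ∉ Z ∧ HW.Adj (p x) (p y)) ∨
        ((x ∈ Z ∨ y ∈ Z) ∧ (G.Adj x y ∨ (x ∈ Z ∧ y ∈ N x) ∨ (y ∈ Z ∧ x ∈ N y)))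
      symm := ⟨by
        rintro x y (⟨h1, h2, h3⟩ | ⟨h1, h2⟩)
        · exact Or.inl ⟨h2, h1, h3.symm⟩
        · refine Or.inr ⟨h1.symm, ?_⟩
          rcases h2 with h2 | h2 | h2
          · exact Or.inl h2.symm
          · exact Or.inr (Or.inr h2)
          · exact Or.inr (Or.inl h2)⟩
      loopless := ⟨by
        rintro x (⟨_, _, h3⟩ | ⟨_, h2⟩)
        · exact h3.ne rfl
        · rcases h2 with h2 | h2 | h2
          · exact h2.ne rfl
          · exact (hNZ x h2.1 x h2.2).1 h2.1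
          · exact (hNZ x h2.1 x h2.2).1 h2.1⟩ }
  have hH : ∀ x y, H.Adj x y ↔ (x ∉ Z ∧ y ∉ Z ∧ HW.Adj (p x) (p y)) ∨
      ((x ∈ Z ∨ y ∈ Z) ∧ (G.Adj x y ∨ (x ∈ Z ∧ y ∈ N x) ∨ (y ∈ Z ∧ x ∈ N y))) :=
    fun x y => Iff.rfl
  have hHZ : ∀ z ∈ Z, ∀ y, H.Adj z y ↔ G.Adj z y ∨ y ∈ N z := by
    intro z hz y
    rw [hH]
    constructor
    · rintro (⟨h1, _⟩ | ⟨_, h2⟩)
      · exact absurd hz h1
      · rcases h2 with h2 | h2 | h2
        · exact Or.inl h2
        · exact Or.inr h2.2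
        · exact absurd hz (hNZ y h2.1 z h2.2).1
    · rintro (h | h)
      · exact Or.inr ⟨Or.inl hz, Or.inl h⟩
      · exact Or.inr ⟨Or.inl hz, Or.inr (Or.inl ⟨hz, h⟩)⟩
  have hHW : ∀ x y, x ∉ Z → y ∉ Z → (H.Adj x y ↔ HW.Adj (p x) (p y)) := by
    intro x y hx hy
    rw [hH]
    constructor
    · rintro (⟨_, _, h3⟩ | ⟨h1 | h1, _⟩)
      · exact h3
      · exact absurd h1 hx
      · exact absurd h1 hy
    · intro h
      exact Or.inl ⟨hx, hy, h⟩
  have hdegZ : ∀ z ∈ Z, dg H z = max k (dg G z) + ext z := by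
    intro z hz
    rw [← hNdeg z hz, dg_eq_card H z (nb G z ∪ N z), Finset.card_union_of_disjoint]
    · rfl
    · rw [Finset.disjoint_left]
      intro y h1 h2
      rw [mem_nb] at h1
      exact (hNZ z hz y h2).2 h1
    · intro y
      rw [Finset.mem_union, mem_nb, hHZ z hz]
  have hdegW : ∀ w, w ∉ Z → dg H w = dg HW (p w) + e (p w) := by
    intro w hw
    rw [dg_eq_card H w ((nb HW (p w)).image q ∪ Z.filter (fun z => G.Adj w z ∨ w ∈ N z)),
      Finset.card_union_of_disjoint, Finset.card_image_of_injective _ hqinj]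
    · simp only [e]
      rw [hqp w hw]
      rfl
    · rw [Finset.disjoint_left]
      intro y h1 h2
      obtain ⟨a, _, rfl⟩ := Finset.mem_image.mp h1
      exact hq a (Finset.mem_filter.mp h2).1
    · intro y
      rw [Finset.mem_union, Finset.mem_image, Finset.mem_filter]
      constructor
      · rintro (⟨a, ha, rfl⟩ | ⟨h1, h2⟩)
        · rw [hHW _ _ hw (hq a), hpq]
          exact mem_nb.mp ha
        · refine (hH w y).mpr (Or.inr ⟨Or.inr h1, ?_⟩)
          rcases h2 with h2 | h2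
          · exact Or.inl h2
          · exact Or.inr (Or.inr ⟨h1, h2⟩)
      · intro h
        by_cases hy : y ∈ Z
        · right
          refine ⟨hy, ?_⟩
          have h1 := (hHZ y hy w).mp h.symm
          rcases h1 with h1 | h1
          · exact Or.inl h1.symm
          · exact Or.inr h1
        · left
          refine ⟨p y, ?_, hqp y hy⟩
          rw [mem_nb]
          exact (hHW w y hw hy).mp h
  have hF1 : ∀ v, k ≤ dg H v := by
    intro v
    by_cases hv : v ∈ Z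
    · rw [hdegZ v hv]
      exact le_trans (le_max_left _ _) (Nat.le_add_right _ _)
    · rw [hdegW v hv]
      exact hW2 _
  have hsumW : ∀ g : ZMod n → ℕ, ∑ w ∈ univ \ Z, g (p w) = ∑ a, g a := by
    intro g
    refine Finset.sum_nbij' p q ?_ ?_ ?_ ?_ ?_
    · intro w _
      exact Finset.mem_univ _
    · intro a _
      rw [Finset.mem_sdiff]
      exact ⟨Finset.mem_univ _, hq a⟩
    · intro w hw
      exact hqp w (Finset.mem_sdiff.mp hw).2
    · intro a _
      exact hpq a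
    · intro w _
      rfl
  refine ⟨H, ?_, hHZ, hF1, ?_, ?_, ?_, ?_⟩
  · intro x y hxy
    rw [hH]
    by_cases hx : x ∈ Z
    · exact Or.inr ⟨Or.inl hx, Or.inl hxy⟩
    · by_cases hy : y ∈ Z
      · exact Or.inr ⟨Or.inr hy, Or.inl hxy⟩
      · left
        refine ⟨hx, hy, ?_⟩
        apply hW1
        rw [SimpleGraph.comap_adj, hqp x hx, hqp y hy]
        exact hxy
  · exact hdegZ
  · have h1 : ∑ v, dg H v = ∑ w ∈ univ \ Z, dg H w + ∑ z ∈ Z, dg H z :=
      (Finset.sum_sdiff (Finset.subset_univ Z)).symm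
    have h2 : ∑ v, max k (dg G v) = ∑ w ∈ univ \ Z, max k (dg G w) + ∑ z ∈ Z, max k (dg G z) :=
      (Finset.sum_sdiff (Finset.subset_univ Z)).symm
    have h3 : ∑ z ∈ Z, dg H z = ∑ z ∈ Z, max k (dg G z) + ∑ z ∈ Z, ext z := by
      rw [← Finset.sum_add_distrib]
      exact Finset.sum_congr rfl (fun z hz => hdegZ z hz)
    have h8 : ∑ z ∈ Z, ext z ≤ ∑ v, ext v :=
      Finset.sum_le_sum_of_subset (Finset.subset_univ _)
    have h4 : ∑ w ∈ univ \ Z, dg H w = ∑ a, (dg HW a + e a) := by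
      rw [← hsumW (fun a => dg HW a + e a)]
      exact Finset.sum_congr rfl (fun w hw => hdegW w (Finset.mem_sdiff.mp hw).2)
    have h5 : k * n ≤ ∑ w ∈ univ \ Z, max k (dg G w) := by
      have h6 := hsumW (fun _ => k)
      have h7 : ∑ w ∈ univ \ Z, k ≤ ∑ w ∈ univ \ Z, max k (dg G w) :=
        Finset.sum_le_sum (fun w _ => le_max_left _ _)
      rw [h6, Finset.sum_const, Finset.card_univ, ZMod.card, smul_eq_mul, Nat.mul_comm] at h7
      exact h7
    omega
  · intro C D X hcov hCD hCX hDX hC hD hX hno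
    have hpinj : ∀ S : Finset V, Set.InjOn p ↑(S ∩ (univ \ Z)) := by
      intro S x hx y hy hxy
      rw [Finset.mem_coe, Finset.mem_inter, Finset.mem_sdiff] at hx hy
      rw [← hqp x hx.2.2, ← hqp y hy.2.2, hxy]
    have hmem : ∀ (S : Finset V) (a : ZMod n), a ∈ (S ∩ (univ \ Z)).image p ↔ q a ∈ S := by
      intro S a
      rw [Finset.mem_image]
      constructor
      · rintro ⟨x, hx, rfl⟩
        rw [Finset.mem_inter, Finset.mem_sdiff] at hx
        rw [hqp x hx.2.2]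
        exact hx.1
      · intro h
        refine ⟨q a, ?_, hpq a⟩
        rw [Finset.mem_inter, Finset.mem_sdiff]
        exact ⟨h, Finset.mem_univ _, hq a⟩
    have h1 := hW5 ((C ∩ (univ \ Z)).image p) ((D ∩ (univ \ Z)).image p)
      ((X ∩ (univ \ Z)).image p)
      (by intro a; rw [hmem, hmem, hmem]; exact hcov (q a))
      (by intro a; rw [hmem, hmem]; exact hCD (q a))
      (by intro a; rw [hmem, hmem]; exact hCX (q a))
      (by intro a; rw [hmem, hmem]; exact hDX (q a))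
      (hC.image p) (hD.image p)
      (by
        have h2 := Finset.card_image_le (s := X ∩ (univ \ Z)) (f := p)
        have h3 := Finset.card_le_card (Finset.inter_subset_left : X ∩ (univ \ Z) ⊆ X)
        omega)
      (by
        intro a ha a' ha' hadj
        rw [hmem] at ha ha'
        refine hno _ ha _ ha' ?_
        rw [hHW _ _ (hq a) (hq a'), hpq, hpq]
        exact hadj)
    rw [Finset.card_image_of_injOn (hpinj C), Finset.card_image_of_injOn (hpinj D)] at h1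
    exact h1
  · intro c hc
    refine ⟨ball r (p c) \ nb HW (p c), hW4 (p c), ?_⟩
    intro a ha haT
    rw [Finset.mem_sdiff, not_and, not_not, mem_nb] at haT
    rw [hHW _ _ hc (hq a), hpq]
    exact haT ha

end Pool.Agent.BD48
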