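import Mathlib
import Pool.Agent.BD48.Block

/-!
Graphs with prescribed degrees avoiding a forbidden graph, under a counting condition.
-/

namespace Pool.Agent.BD48

open Finset

attribute [local instance] Classical.propDecidable

variable {V : Type*} [Fintype V]

/-- A degree sequence on `S` with even sum and values at most `D` is the degree sequence of a graph on
`S` avoiding a given graph, if the sum outside any small set is large. -/
theorem blockG (S : Finset V) (F : SimpleGraph V) (f : V → ℕ) (D φ : ℕ)
    (hF : ∀ v, dg F v ≤ φ) (hD : ∀ x ∈ S, f x ≤ D)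
    (hcnt : ∀ T₁ T₂ : Finset V, T₁.card ≤ D + φ + 1 → T₂.card ≤ D + φ + 1 →
      T₂.card * D < ∑ x ∈ S \ T₁, f x)
    (heven : Even (∑ x ∈ S, f x)) :
    ∃ Z : SimpleGraph V, (∀ x y, Z.Adj x y → x ∈ S ∧ y ∈ S) ∧ (∀ x y, Z.Adj x y → ¬ F.Adj x y) ∧
      ∀ x ∈ S, dg Z x = f x := by
  let good : SimpleGraph V → Prop := fun Z =>
    (∀ x y, Z.Adj x y → x ∈ S ∧ y ∈ S) ∧ (∀ x y, Z.Adj x y → ¬ F.Adj x y) ∧
      ∀ x ∈ S, dg Z x ≤ f x
  have hfin : {Z | good Z}.Finite := Set.toFinite _
  have hne : {Z | good Z}.Nonempty := by
    refine ⟨⊥, ?_, ?_, ?_⟩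
    · intro x y h
      exact absurd h (by simp)
    · intro x y h
      exact absurd h (by simp)
    · intro x _
      rw [dg_eq_card ⊥ x ∅ (by simp)]
      simp
  obtain ⟨Z, hZ, hmax⟩ := Set.exists_max_image {Z | good Z} (fun Z => ∑ v, dg Z v) hfin hne
  obtain ⟨hZS, hZF, hZf⟩ := hZ
  refine ⟨Z, hZS, hZF, ?_⟩
  -- degrees vanish outside `S`
  have hout : ∀ x, x ∉ S → dg Z x = 0 := by
    intro x hx
    rw [dg_eq_card Z x ∅]
    · simp
    · intro y
      constructor
      · intro h
        simp at h
      · intro h
        exact absurd (hZS x y h).1 hx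
  have hZD : ∀ x, dg Z x ≤ D := by
    intro x
    by_cases hx : x ∈ S
    · exact le_trans (hZf x hx) (hD x hx)
    · rw [hout x hx]
      exact Nat.zero_le _
  have hmax' : ∀ Z' : SimpleGraph V, good Z' → ∑ v, dg Z' v ≤ ∑ v, dg Z v := fun Z' h => hmax Z' h
  by_contra hcon
  push Not at hcon
  obtain ⟨u, huS, hu⟩ := hcon
  have hu' : dg Z u < f u := lt_of_le_of_ne (hZf u huS) hu
  -- a deficient vertex other than `u` is adjacent to `u`
  have hadj : ∀ v ∈ S, v ≠ u → dg Z v < f v → Z.Adj u v ∨ F.Adj u v := by
    intro v hvS hvu hv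
    by_contra hnadj
    rw [not_or] at hnadj
    have hdeg := dg_add Z u v hvu.symm hnadj.1
    have hgood : good (Z ⊔ SimpleGraph.edge u v) := by
      refine ⟨?_, ?_, ?_⟩
      · intro x y h
        rw [SimpleGraph.sup_adj, SimpleGraph.edge_adj] at h
        rcases h with h | ⟨h | h, _⟩
        · exact hZS x y h
        · rw [h.1, h.2]
          exact ⟨huS, hvS⟩
        · rw [h.1, h.2]
          exact ⟨hvS, huS⟩
      · intro x y h
        rw [SimpleGraph.sup_adj, SimpleGraph.edge_adj] at h
        rcases h with h | ⟨h | h, _⟩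
        · exact hZF x y h
        · rw [h.1, h.2]
          exact hnadj.2
        · rw [h.1, h.2]
          exact fun h' => hnadj.2 h'.symm
      · intro x hx
        rw [hdeg x]
        have := hZf x hx
        by_cases h1 : x = u
        · subst h1
          simp only [if_true, if_neg hvu.symm]
          omega
        · by_cases h2 : x = v
          · subst h2
            simp only [if_true, if_neg h1]
            omega
          · simp only [if_neg h1, if_neg h2]
            omega
    have hsum := hmax' _ hgood
    rw [Finset.sum_congr rfl (fun w _ => hdeg w), Finset.sum_add_distrib,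
      Finset.sum_add_distrib] at hsum
    simp only [Finset.sum_ite_eq', Finset.mem_univ, if_true] at hsum
    omega
  -- the exchange
  have hexch : ∀ v ∈ S, (v ≠ u → dg Z v < f v) → (v = u → dg Z u + 2 ≤ f u) → False := by
    intro v hvS hv1 hv2
    let T : V → Finset V := fun z => insert z (nb Z z ∪ nb F z)
    have hT : ∀ z, (T z).card ≤ D + φ + 1 := by
      intro z
      refine le_trans (Finset.card_insert_le _ _) ?_
      have h1 := Finset.card_union_le (nb Z z) (nb F z)
      have h2 : (nb Z z).card ≤ D := hZD z
      have h3 : (nb F z).card ≤ φ := hF z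
      omega
    have hmemT : ∀ z x, x ∉ T z → x ≠ z ∧ ¬ Z.Adj z x ∧ ¬ F.Adj z x := by
      intro z x hx
      simp only [T, Finset.mem_insert, Finset.mem_union, mem_nb, not_or] at hx
      exact ⟨hx.1, hx.2.1, hx.2.2⟩
    -- a suitable edge
    obtain ⟨x, hxS, hxT, y, hy, hyT⟩ : ∃ x ∈ S, x ∉ T u ∧ ∃ y, Z.Adj x y ∧ y ∉ T v := by
      by_contra hcon
      push Not at hcon
      have h1 : ∀ x ∈ S \ T u, f x ≤ ((T v).filter (fun y => Z.Adj x y)).card := by
        intro x hx
        rw [Finset.mem_sdiff] at hx
        have h2 := hmemT u x hx.2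
        have h3 : dg Z x = f x := by
          by_contra hne
          rcases hadj x hx.1 h2.1 (lt_of_le_of_ne (hZf x hx.1) hne) with h | h
          · exact h2.2.1 h
          · exact h2.2.2 h
        have h4 : ((T v).filter (fun y => Z.Adj x y)) = nb Z x := by
          ext y
          rw [Finset.mem_filter, mem_nb]
          constructor
          · exact fun h => h.2
          · exact fun h => ⟨hcon x hx.1 hx.2 y h, h⟩
        rw [h4]
        have h6 : (nb Z x).card = dg Z x := rfl
        omega
      have h2 : ∑ x ∈ S \ T u, ((T v).filter (fun y => Z.Adj x y)).card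
          = ∑ y ∈ T v, ((S \ T u).filter (fun x => Z.Adj x y)).card :=
        Finset.sum_card_bipartiteAbove_eq_sum_card_bipartiteBelow (fun x y => Z.Adj x y)
      have h3 : ∑ y ∈ T v, ((S \ T u).filter (fun x => Z.Adj x y)).card ≤ (T v).card * D := by
        rw [← smul_eq_mul, ← Finset.sum_const]
        refine Finset.sum_le_sum ?_
        intro y _
        refine le_trans (Finset.card_le_card ?_) (hZD y)
        intro x hx
        rw [Finset.mem_filter] at hx
        rw [mem_nb]
        exact hx.2.symm
      have h4 := Finset.sum_le_sum h1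
      rw [h2] at h4
      have h5 := hcnt (T u) (T v) (hT u) (hT v)
      omega
    obtain ⟨hxu, hxNu, hxFu⟩ := hmemT u x hxT
    obtain ⟨hyv, hyNv, hyFv⟩ := hmemT v y hyT
    have hxv : x ≠ v := by
      rintro rfl
      exact hyNv hy
    have hyu : y ≠ u := by
      rintro rfl
      exact hxNu hy.symm
    have hyS : y ∈ S := (hZS x y hy).2
    obtain ⟨Z₀, hZ₀, hZ₀xy, hdeg₀⟩ := exists_remove Z x y hy
    have hn1 : ¬ Z₀.Adj u x := fun h => hxNu (hZ₀ h)
    have hd1 := dg_add Z₀ u x (Ne.symm hxu) hn1
    have hn2 : ¬ (Z₀ ⊔ SimpleGraph.edge u x).Adj v y := by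
      rw [SimpleGraph.sup_adj, SimpleGraph.edge_adj]
      rintro (h | ⟨h | h, _⟩)
      · exact hyNv (hZ₀ h)
      · exact hy.ne h.2.symm
      · exact hyu h.2
    have hd2 := dg_add (Z₀ ⊔ SimpleGraph.edge u x) v y hyv.symm hn2
    have hgood : good (Z₀ ⊔ SimpleGraph.edge u x ⊔ SimpleGraph.edge v y) := by
      refine ⟨?_, ?_, ?_⟩
      · intro p q h
        rw [SimpleGraph.sup_adj, SimpleGraph.edge_adj, SimpleGraph.sup_adj,
          SimpleGraph.edge_adj] at h
        rcases h with (h | ⟨h | h, _⟩) | ⟨h | h, _⟩
        · exact hZS p q (hZ₀ h)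
        · rw [h.1, h.2]
          exact ⟨huS, hxS⟩
        · rw [h.1, h.2]
          exact ⟨hxS, huS⟩
        · rw [h.1, h.2]
          exact ⟨hvS, hyS⟩
        · rw [h.1, h.2]
          exact ⟨hyS, hvS⟩
      · intro p q h
        rw [SimpleGraph.sup_adj, SimpleGraph.edge_adj, SimpleGraph.sup_adj,
          SimpleGraph.edge_adj] at h
        rcases h with (h | ⟨h | h, _⟩) | ⟨h | h, _⟩
        · exact hZF p q (hZ₀ h)
        · rw [h.1, h.2]
          exact hxFu
        · rw [h.1, h.2]
          exact fun h' => hxFu h'.symm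
        · rw [h.1, h.2]
          exact hyFv
        · rw [h.1, h.2]
          exact fun h' => hyFv h'.symm
      · intro w hw
        rw [hd2 w, hd1 w]
        have h1 := hZf w hw
        have h2 := hdeg₀ w
        by_cases hwx : w = x
        · subst hwx
          rw [if_neg hxu, if_pos rfl, if_neg hxv, if_neg hy.ne]
          rw [if_pos rfl, if_neg hy.ne] at h2
          omega
        · by_cases hwy : w = y
          · subst hwy
            rw [if_neg hyu, if_neg hwx, if_neg hyv, if_pos rfl]
            rw [if_neg hwx, if_pos rfl] at h2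
            omega
          · rw [if_neg hwx, if_neg hwy]
            rw [if_neg hwx, if_neg hwy] at h2
            by_cases hwu : w = u
            · rw [if_pos hwu]
              by_cases hwv : w = v
              · rw [if_pos hwv]
                have h3 := hv2 (by rw [← hwu, hwv])
                rw [hwu] at h2 ⊢
                omega
              · rw [if_neg hwv]
                rw [hwu] at h2 ⊢
                omega
            · rw [if_neg hwu]
              by_cases hwv : w = v
              · rw [if_pos hwv]
                have h3 := hv1 (by rw [← hwv]; exact hwu)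
                rw [hwv] at h2 ⊢
                omega
              · rw [if_neg hwv]
                omega
    have hsum := hmax' _ hgood
    rw [Finset.sum_congr rfl (fun w _ => hd2 w), Finset.sum_add_distrib,
      Finset.sum_add_distrib, Finset.sum_congr rfl (fun w _ => hd1 w), Finset.sum_add_distrib,
      Finset.sum_add_distrib, Finset.sum_congr rfl (fun w _ => hdeg₀ w), Finset.sum_add_distrib,
      Finset.sum_add_distrib] at hsum
    simp only [Finset.sum_ite_eq', Finset.mem_univ, if_true] at hsum
    omega
  by_cases hother : ∃ v ∈ S, v ≠ u ∧ dg Z v < f v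
  · obtain ⟨v, hvS, hvu, hv⟩ := hother
    exact hexch v hvS (fun _ => hv) (fun h => absurd h hvu)
  · push Not at hother
    refine hexch u huS (fun h => absurd rfl h) (fun _ => ?_)
    -- parity
    have h1 : ∑ x ∈ S, dg Z x = ∑ v, dg Z v := by
      refine Finset.sum_subset (Finset.subset_univ S) ?_
      intro x _ hx
      exact hout x hx
    have h2 : Even (∑ x ∈ S, dg Z x) := by
      rw [h1]
      exact even_sum_dg Z
    have h3 : ∑ x ∈ S, f x = ∑ x ∈ S.erase u, f x + f u := (Finset.sum_erase_add S f huS).symm
    have h4 : ∑ x ∈ S, dg Z x = ∑ x ∈ S.erase u, dg Z x + dg Z u :=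
      (Finset.sum_erase_add S _ huS).symm
    have h5 : ∑ x ∈ S.erase u, f x = ∑ x ∈ S.erase u, dg Z x := by
      refine Finset.sum_congr rfl ?_
      intro x hx
      rw [Finset.mem_erase] at hx
      exact le_antisymm (hother x hx.2 hx.1) (hZf x hx.2)
    rw [h3, h5] at heven
    rw [h4] at h2
    obtain ⟨p, hp⟩ := heven
    obtain ⟨q, hq⟩ := h2
    omega

end Pool.Agent.BD48
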