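import Mathlib
import Pool.Agent.BD48.BlockG

/-!
Switchings of a graph, and the ratios of the numbers of graphs with given codegrees.
-/

namespace Pool.Agent.BD48

open Finset

attribute [local instance] Classical.propDecidable

variable {V : Type*}

/-- the switching `uv, xy → ux, vy` -/
def sw (M : SimpleGraph V) (u v x y : V) : SimpleGraph V where
  Adj a b := a ≠ b ∧ ((M.Adj a b ∧ s(a, b) ≠ s(u, v) ∧ s(a, b) ≠ s(x, y)) ∨
    s(a, b) = s(u, x) ∨ s(a, b) = s(v, y))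
  symm := ⟨by
    rintro a b ⟨h1, h2⟩
    refine ⟨h1.symm, ?_⟩
    rw [Sym2.eq_swap, M.adj_comm]
    exact h2⟩
  loopless := ⟨fun a h => h.1 rfl⟩

/-- the admissible switchings -/
structure Ok (M : SimpleGraph V) (u v x y : V) : Prop where
  uv : M.Adj u v
  xy : M.Adj x y
  ux : ¬ M.Adj u x
  vy : ¬ M.Adj v y
  ux' : u ≠ x
  vy' : v ≠ y

lemma Ok.vx' {M : SimpleGraph V} {u v x y : V} (h : Ok M u v x y) : v ≠ x := by
  rintro rfl
  exact h.ux h.uv

lemma Ok.uy' {M : SimpleGraph V} {u v x y : V} (h : Ok M u v x y) : u ≠ y := by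
  rintro rfl
  exact h.vy h.uv.symm

lemma sw_adj (M : SimpleGraph V) (u v x y a b : V) : (sw M u v x y).Adj a b ↔
    a ≠ b ∧ ((M.Adj a b ∧ ¬ ((a = u ∧ b = v) ∨ (a = v ∧ b = u)) ∧
      ¬ ((a = x ∧ b = y) ∨ (a = y ∧ b = x))) ∨
      ((a = u ∧ b = x) ∨ (a = x ∧ b = u)) ∨ ((a = v ∧ b = y) ∨ (a = y ∧ b = v))) := by
  show a ≠ b ∧ _ ↔ _
  rw [ne_eq (s(a, b)), ne_eq (s(a, b)), Sym2.eq_iff, Sym2.eq_iff, Sym2.eq_iff, Sym2.eq_iff]

lemma sw_ok {M : SimpleGraph V} {u v x y : V} (h : Ok M u v x y) : Ok (sw M u v x y) u x v y := by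
  have h1 := h.uv
  have h2 := h.xy
  have h3 := h.ux
  have h4 := h.vy
  have h5 := h.ux'
  have h6 := h.vy'
  have h7 := h.vx'
  have h8 := h.uy'
  have h9 := h1.ne
  have h10 := h2.ne
  refine ⟨?_, ?_, ?_, ?_, h1.ne, h2.ne⟩
  · rw [sw_adj]
    exact ⟨h5, Or.inr (Or.inl (Or.inl ⟨rfl, rfl⟩))⟩
  · rw [sw_adj]
    exact ⟨h6, Or.inr (Or.inr (Or.inl ⟨rfl, rfl⟩))⟩
  · rw [sw_adj]
    rintro ⟨_, ⟨_, h, _⟩ | h | h⟩
    · exact h (Or.inl ⟨rfl, rfl⟩)
    · rcases h with h | h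
      · exact h7 h.2
      · exact h5 h.1
    · rcases h with h | h
      · exact h9 h.1
      · exact h8 h.1
  · rw [sw_adj]
    rintro ⟨_, ⟨_, _, h⟩ | h | h⟩
    · exact h (Or.inl ⟨rfl, rfl⟩)
    · rcases h with h | h
      · exact h5 h.1.symm
      · exact h8 h.2.symm
    · rcases h with h | h
      · exact h7 h.1.symm
      · exact h10 h.1

lemma sw_sw {M : SimpleGraph V} {u v x y : V} (h : Ok M u v x y) :
    sw (sw M u v x y) u x v y = M := by
  have h1 := h.uv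
  have h2 := h.xy
  have h3 := h.ux
  have h4 := h.vy
  ext a b
  rw [sw_adj, sw_adj]
  constructor
  · rintro ⟨hab, ⟨⟨_, ⟨h5, _, _⟩ | h5 | h5⟩, h6, h7⟩ | h5 | h5⟩
    · exact h5
    · exact absurd h5 h6
    · exact absurd h5 h7
    · rcases h5 with h5 | h5
      · rw [h5.1, h5.2]
        exact h1
      · rw [h5.1, h5.2]
        exact h1.symm
    · rcases h5 with h5 | h5
      · rw [h5.1, h5.2]
        exact h2
      · rw [h5.1, h5.2]
        exact h2.symm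
  · intro hab
    refine ⟨hab.ne, ?_⟩
    by_cases c1 : (a = u ∧ b = v) ∨ (a = v ∧ b = u)
    · exact Or.inr (Or.inl c1)
    · by_cases c2 : (a = x ∧ b = y) ∨ (a = y ∧ b = x)
      · exact Or.inr (Or.inr c2)
      · left
        refine ⟨⟨hab.ne, Or.inl ⟨hab, c1, c2⟩⟩, ?_, ?_⟩
        · rintro (h5 | h5)
          · rw [h5.1, h5.2] at hab
            exact h3 hab
          · rw [h5.1, h5.2] at hab
            exact h3 hab.symm
        · rintro (h5 | h5)
          · rw [h5.1, h5.2] at hab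
            exact h4 hab
          · rw [h5.1, h5.2] at hab
            exact h4 hab.symm

variable [Fintype V]

lemma nb_sw_u {M : SimpleGraph V} {u v x y : V} (h : Ok M u v x y) :
    nb (sw M u v x y) u = insert x ((nb M u).erase v) := by
  have h5 := h.ux'
  have h8 := h.uy'
  have h9 := h.uv.ne
  ext b
  rw [mem_nb, sw_adj, Finset.mem_insert, Finset.mem_erase, mem_nb]
  constructor
  · rintro ⟨_, ⟨h1, h2, _⟩ | h1 | h1⟩
    · right
      refine ⟨?_, h1⟩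
      rintro rfl
      exact h2 (Or.inl ⟨rfl, rfl⟩)
    · rcases h1 with h1 | h1
      · exact Or.inl h1.2
      · exact absurd h1.1 h5
    · rcases h1 with h1 | h1
      · exact absurd h1.1 h9
      · exact absurd h1.1 h8
  · rintro (h1 | ⟨h1, h2⟩)
    · rw [h1]
      exact ⟨h5, Or.inr (Or.inl (Or.inl ⟨rfl, rfl⟩))⟩
    · refine ⟨h2.ne, Or.inl ⟨h2, ?_, ?_⟩⟩
      · rintro (h3 | h3)
        · exact h1 h3.2
        · exact h9 h3.1
      · rintro (h3 | h3)
        · exact h5 h3.1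
        · exact h8 h3.1

omit [Fintype V] in
lemma sw_comm1 (M : SimpleGraph V) (u v x y : V) : sw M u v x y = sw M v u y x := by
  ext a b
  show (a ≠ b ∧ ((M.Adj a b ∧ s(a, b) ≠ s(u, v) ∧ s(a, b) ≠ s(x, y)) ∨
    s(a, b) = s(u, x) ∨ s(a, b) = s(v, y))) ↔
    (a ≠ b ∧ ((M.Adj a b ∧ s(a, b) ≠ s(v, u) ∧ s(a, b) ≠ s(y, x)) ∨
    s(a, b) = s(v, y) ∨ s(a, b) = s(u, x)))
  have e1 : s(v, u) = s(u, v) := Sym2.eq_swap
  have e2 : s(y, x) = s(x, y) := Sym2.eq_swap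
  rw [e1, e2, or_comm (a := s(a, b) = s(v, y))]

omit [Fintype V] in
lemma sw_comm2 (M : SimpleGraph V) (u v x y : V) : sw M u v x y = sw M x y u v := by
  ext a b
  show (a ≠ b ∧ ((M.Adj a b ∧ s(a, b) ≠ s(u, v) ∧ s(a, b) ≠ s(x, y)) ∨
    s(a, b) = s(u, x) ∨ s(a, b) = s(v, y))) ↔
    (a ≠ b ∧ ((M.Adj a b ∧ s(a, b) ≠ s(x, y) ∧ s(a, b) ≠ s(u, v)) ∨
    s(a, b) = s(x, u) ∨ s(a, b) = s(y, v)))
  have e1 : s(x, u) = s(u, x) := Sym2.eq_swap
  have e2 : s(y, v) = s(v, y) := Sym2.eq_swap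
  rw [e1, e2, and_comm (a := s(a, b) ≠ s(x, y))]

omit [Fintype V] in
lemma Ok.comm1 {M : SimpleGraph V} {u v x y : V} (h : Ok M u v x y) : Ok M v u y x :=
  ⟨h.uv.symm, h.xy.symm, h.vy, h.ux, h.vy', h.ux'⟩

omit [Fintype V] in
lemma Ok.comm2 {M : SimpleGraph V} {u v x y : V} (h : Ok M u v x y) : Ok M x y u v :=
  ⟨h.xy, h.uv, fun h' => h.ux h'.symm, fun h' => h.vy h'.symm, h.ux'.symm, h.vy'.symm⟩

lemma dg_sw_u {M : SimpleGraph V} {u v x y : V} (h : Ok M u v x y) :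
    dg (sw M u v x y) u = dg M u := by
  unfold dg
  rw [nb_sw_u h, Finset.card_insert_of_notMem, Finset.card_erase_add_one]
  · rw [mem_nb]
    exact h.uv
  · rw [Finset.mem_erase, mem_nb]
    exact fun h' => h.ux h'.2

lemma nb_sw_other {M : SimpleGraph V} {u v x y w : V} (h1 : w ≠ u) (h2 : w ≠ v) (h3 : w ≠ x)
    (h4 : w ≠ y) : nb (sw M u v x y) w = nb M w := by
  ext b
  rw [mem_nb, mem_nb, sw_adj]
  constructor
  · rintro ⟨_, ⟨h5, _, _⟩ | h5 | h5⟩
    · exact h5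
    · rcases h5 with h5 | h5
      · exact absurd h5.1 h1
      · exact absurd h5.1 h3
    · rcases h5 with h5 | h5
      · exact absurd h5.1 h2
      · exact absurd h5.1 h4
  · intro h5
    refine ⟨h5.ne, Or.inl ⟨h5, ?_, ?_⟩⟩
    · rintro (h6 | h6)
      · exact h1 h6.1
      · exact h2 h6.1
    · rintro (h6 | h6)
      · exact h3 h6.1
      · exact h4 h6.1

lemma dg_sw {M : SimpleGraph V} {u v x y : V} (h : Ok M u v x y) (w : V) :
    dg (sw M u v x y) w = dg M w := by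
  by_cases h1 : w = u
  · rw [h1]
    exact dg_sw_u h
  · by_cases h2 : w = v
    · rw [h2, sw_comm1]
      exact dg_sw_u h.comm1
    · by_cases h3 : w = x
      · rw [h3, sw_comm2]
        exact dg_sw_u h.comm2
      · by_cases h4 : w = y
        · rw [h4, sw_comm2, sw_comm1]
          exact dg_sw_u h.comm2.comm1
        · unfold dg
          rw [nb_sw_other h1 h2 h3 h4]

omit [Fintype V] in
/-- switching keeps a forbidden graph avoided -/
lemma sw_avoid {M G : SimpleGraph V} {u v x y : V} (hM : ∀ a b, M.Adj a b → ¬ G.Adj a b)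
    (h1 : ¬ G.Adj u x) (h2 : ¬ G.Adj v y) (a b : V) (hab : (sw M u v x y).Adj a b) :
    ¬ G.Adj a b := by
  rw [sw_adj] at hab
  rcases hab with ⟨_, ⟨h3, _, _⟩ | h3 | h3⟩
  · exact hM a b h3
  · rcases h3 with h3 | h3
    · rw [h3.1, h3.2]
      exact h1
    · rw [h3.1, h3.2]
      exact fun h => h1 h.symm
  · rcases h3 with h3 | h3
    · rw [h3.1, h3.2]
      exact h2
    · rw [h3.1, h3.2]
      exact fun h => h2 h.symm

end Pool.Agent.BD48
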