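import Mathlib
import Pool.Agent.BD48.Switch

/-!
Graphs with given degrees and without 4-cycles avoiding a graph of bounded degree: a switching
argument.
-/

namespace Pool.Agent.BD48

open Finset

attribute [local instance] Classical.propDecidable

variable {V : Type*}

/-- `a, b, c, e` is a 4-cycle of `M` -/
def Cy (M : SimpleGraph V) (a b c e : V) : Prop :=
  a ≠ c ∧ b ≠ e ∧ M.Adj a b ∧ M.Adj b c ∧ M.Adj c e ∧ M.Adj e a

lemma Cy.rot {M : SimpleGraph V} {a b c e : V} (h : Cy M a b c e) : Cy M b c e a :=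
  ⟨h.2.1, h.1.symm, h.2.2.2.1, h.2.2.2.2.1, h.2.2.2.2.2, h.2.2.1⟩

lemma Cy.ref {M : SimpleGraph V} {a b c e : V} (h : Cy M a b c e) : Cy M b a e c :=
  ⟨h.2.1, h.1, h.2.2.1.symm, h.2.2.2.2.2.symm, h.2.2.2.2.1.symm, h.2.2.2.1.symm⟩

/-- no 4-cycle of the switched graph uses the new edge `ux` -/
lemma c4_key {M : SimpleGraph V} {u v x y : V} (h : Ok M u v x y)
    (h3 : ∀ p q, M.Adj u p → M.Adj p q → M.Adj q x → False)
    (h2 : ¬ (M.Adj u y ∧ M.Adj v x)) {c e : V} (hc : Cy (sw M u v x y) u x c e) : False := by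
  obtain ⟨h1, h4, _, h5, h6, h7⟩ := hc
  have hxy := h.xy.ne
  have huv := h.uv.ne
  have hux := h.ux'
  have hvy := h.vy'
  have hvx := h.vx'
  have huy := h.uy'
  -- the edge `x c` is old
  have e1 : M.Adj x c ∧ c ≠ y := by
    rw [sw_adj] at h5
    rcases h5 with ⟨_, ⟨h8, _, h9⟩ | h8 | h8⟩
    · exact ⟨h8, fun hh => h9 (Or.inl ⟨rfl, hh⟩)⟩
    · rcases h8 with h8 | h8
      · exact absurd h8.1.symm hux
      · exact absurd h8.2.symm h1
    · rcases h8 with h8 | h8
      · exact absurd h8.1.symm hvx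
      · exact absurd h8.1 hxy
  -- the edge `e u` is old
  have e2 : M.Adj e u ∧ e ≠ v := by
    rw [sw_adj] at h7
    rcases h7 with ⟨_, ⟨h8, h9, _⟩ | h8 | h8⟩
    · exact ⟨h8, fun hh => h9 (Or.inr ⟨hh, rfl⟩)⟩
    · rcases h8 with h8 | h8
      · exact absurd h8.2 hux
      · exact absurd h8.1.symm h4
    · rcases h8 with h8 | h8
      · exact absurd h8.2 huy
      · exact absurd h8.2 huv
  rw [sw_adj] at h6
  rcases h6 with ⟨_, ⟨h8, _, _⟩ | h8 | h8⟩
  · exact h3 e c e2.1.symm h8.symm e1.1.symm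
  · rcases h8 with h8 | h8
    · exact absurd h8.1.symm h1
    · exact absurd h8.1.symm e1.1.ne
  · rcases h8 with h8 | h8
    · apply h2
      rw [← h8.1, ← h8.2]
      exact ⟨e2.1.symm, e1.1.symm⟩
    · exact absurd h8.1 e1.2

/-- the first edge of a 4-cycle of the switched graph is old -/
lemma c4_edge {M : SimpleGraph V} {u v x y : V} (h : Ok M u v x y)
    (h3 : ∀ p q, M.Adj u p → M.Adj p q → M.Adj q x → False)
    (h3' : ∀ p q, M.Adj v p → M.Adj p q → M.Adj q y → False)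
    (h2 : ¬ M.Adj u y) {a b c e : V} (hc : Cy (sw M u v x y) a b c e) : M.Adj a b := by
  have h4 := hc.2.2.1
  rw [sw_adj] at h4
  rcases h4 with ⟨_, ⟨h8, _, _⟩ | h8 | h8⟩
  · exact h8
  · exfalso
    rcases h8 with h8 | h8
    · rw [h8.1, h8.2] at hc
      exact c4_key h h3 (fun hh => h2 hh.1) hc
    · rw [h8.1, h8.2] at hc
      exact c4_key h h3 (fun hh => h2 hh.1) hc.ref
  · exfalso
    rcases h8 with h8 | h8
    · rw [h8.1, h8.2, sw_comm1] at hc
      exact c4_key h.comm1 h3' (fun hh => h2 hh.2) hc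
    · rw [h8.1, h8.2, sw_comm1] at hc
      exact c4_key h.comm1 h3' (fun hh => h2 hh.2) hc.ref

lemma c4_old {M : SimpleGraph V} {u v x y : V} (h : Ok M u v x y)
    (h3 : ∀ p q, M.Adj u p → M.Adj p q → M.Adj q x → False)
    (h3' : ∀ p q, M.Adj v p → M.Adj p q → M.Adj q y → False)
    (h2 : ¬ M.Adj u y) {a b c e : V} (hc : Cy (sw M u v x y) a b c e) : Cy M a b c e :=
  ⟨hc.1, hc.2.1, c4_edge h h3 h3' h2 hc, c4_edge h h3 h3' h2 hc.rot,
    c4_edge h h3 h3' h2 hc.rot.rot, c4_edge h h3 h3' h2 hc.rot.rot.rot⟩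

variable [Fintype V]

/-- the number of the 4-cycles (as 4-tuples) -/
noncomputable def c4 (M : SimpleGraph V) : ℕ :=
  (univ.filter (fun p : V × V × V × V => Cy M p.1 p.2.1 p.2.2.1 p.2.2.2)).card

lemma c4_lt {M : SimpleGraph V} {u v x y : V} (h : Ok M u v x y)
    (h3 : ∀ p q, M.Adj u p → M.Adj p q → M.Adj q x → False)
    (h3' : ∀ p q, M.Adj v p → M.Adj p q → M.Adj q y → False)
    (h2 : ¬ M.Adj u y) {c e : V} (hc : Cy M u v c e) : c4 (sw M u v x y) < c4 M := by
  apply Finset.card_lt_card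
  rw [Finset.ssubset_iff_of_subset]
  · refine ⟨(u, v, c, e), ?_, ?_⟩
    · rw [Finset.mem_filter]
      exact ⟨Finset.mem_univ _, hc⟩
    · rw [Finset.mem_filter]
      rintro ⟨_, h4⟩
      exact (sw_ok h).ux h4.2.2.1
  · intro p hp
    rw [Finset.mem_filter] at hp ⊢
    exact ⟨Finset.mem_univ _, c4_old h h3 h3' h2 hp.2⟩

/-- the number of the edges with an end in a set -/
lemma card_pairs_le (M : SimpleGraph V) (t : ℕ) (hM : ∀ v, dg M v ≤ t) (X Y : Finset V)
    (hXY : ∀ x y, M.Adj x y → x ∈ X ∨ y ∈ Y) : ∑ v, dg M v ≤ t * X.card + t * Y.card := by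
  have e1 : ∑ v, dg M v = (univ.filter (fun p : V × V => M.Adj p.1 p.2)).card := by
    have e2 : (univ.filter (fun p : V × V => M.Adj p.1 p.2)) =
        (univ : Finset V).biUnion (fun v => (nb M v).image (fun w => (v, w))) := by
      ext ⟨v, w⟩
      simp only [mem_filter, mem_univ, true_and, mem_biUnion, mem_image, Prod.mk.injEq, mem_nb]
      constructor
      · intro hh
        exact ⟨v, w, hh, rfl, rfl⟩
      · rintro ⟨v', w', hh, rfl, rfl⟩
        exact hh
    rw [e2, Finset.card_biUnion]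
    · refine Finset.sum_congr rfl fun v _ => ?_
      rw [Finset.card_image_of_injective]
      · rfl
      · intro w w' hh
        exact (Prod.mk.inj hh).2
    · intro v _ w _ hvw
      rw [Function.onFun, Finset.disjoint_left]
      intro p hp hp'
      rw [Finset.mem_image] at hp hp'
      obtain ⟨a, _, ha⟩ := hp
      obtain ⟨b, _, hb⟩ := hp'
      rw [← ha] at hb
      exact hvw (Prod.mk.inj hb).1.symm
  rw [e1]
  have e3 : (univ.filter (fun p : V × V => M.Adj p.1 p.2)) ⊆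
      X.biUnion (fun v => (nb M v).image (fun w => (v, w))) ∪
      Y.biUnion (fun v => (nb M v).image (fun w => (w, v))) := by
    rintro ⟨v, w⟩ hp
    rw [Finset.mem_filter] at hp
    have hp := hp.2
    simp only [mem_union, mem_biUnion, mem_image, Prod.mk.injEq, mem_nb]
    rcases hXY v w hp with hh | hh
    · exact Or.inl ⟨v, hh, w, hp, rfl, rfl⟩
    · exact Or.inr ⟨w, hh, v, hp.symm, rfl, rfl⟩
  refine (Finset.card_le_card e3).trans ((Finset.card_union_le _ _).trans ?_)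
  refine Nat.add_le_add ?_ ?_
  · rw [mul_comm]
    refine Finset.card_biUnion_le_card_mul _ _ _ fun v _ => ?_
    exact Finset.card_image_le.trans (hM v)
  · rw [mul_comm]
    refine Finset.card_biUnion_le_card_mul _ _ _ fun v _ => ?_
    exact Finset.card_image_le.trans (hM v)

/-- the ends of the walks of length 2 -/
noncomputable def w2 (M : SimpleGraph V) (u : V) : Finset V := (nb M u).biUnion (nb M)

/-- the ends of the walks of length 3 -/
noncomputable def w3 (M : SimpleGraph V) (u : V) : Finset V := (w2 M u).biUnion (nb M)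

lemma card_w2 (M : SimpleGraph V) (t : ℕ) (hM : ∀ v, dg M v ≤ t) (u : V) :
    (w2 M u).card ≤ t * t :=
  (Finset.card_biUnion_le_card_mul _ _ t fun v _ => hM v).trans (Nat.mul_le_mul_right t (hM u))

lemma card_w3 (M : SimpleGraph V) (t : ℕ) (hM : ∀ v, dg M v ≤ t) (u : V) :
    (w3 M u).card ≤ t * t * t :=
  (Finset.card_biUnion_le_card_mul _ _ t fun v _ => hM v).trans
    (Nat.mul_le_mul_right t (card_w2 M t hM u))

/-- if there is a 4-cycle, then there is a switching with fewer 4-cycles -/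
lemma c4_step (G : SimpleGraph V) (d t : ℕ) (hd : ∀ v, dg G v ≤ d) (ht : 1 ≤ t)
    (f : V → ℕ) (hft : ∀ v, f v ≤ t) (hsum : t * Fintype.card V ≤ ∑ v, f v + 1)
    (hn : 2 * (t * (1 + d + t)) + 16 * t ^ 4 + 1 < t * Fintype.card V)
    (M : SimpleGraph V) (hMG : ∀ x y, M.Adj x y → ¬ G.Adj x y) (hMf : ∀ v, dg M v = f v)
    {u v c e : V} (hc : Cy M u v c e) :
    ∃ M' : SimpleGraph V, (∀ x y, M'.Adj x y → ¬ G.Adj x y) ∧ (∀ v, dg M' v = f v) ∧
      c4 M' < c4 M := by
  have hMt : ∀ v, dg M v ≤ t := fun v => (hMf v).le.trans (hft v)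
  set X : Finset V := (({u} ∪ nb M u) ∪ nb G u) ∪ w3 M u with hX
  set Y : Finset V := ((({v} ∪ nb M v) ∪ nb G v) ∪ w2 M v) ∪ w3 M v with hY
  have hXc : X.card ≤ 1 + t + d + t * t * t := by
    rw [hX]
    refine (Finset.card_union_le _ _).trans (Nat.add_le_add ?_ (card_w3 M t hMt u))
    refine (Finset.card_union_le _ _).trans (Nat.add_le_add ?_ (hd u))
    refine (Finset.card_union_le _ _).trans (Nat.add_le_add ?_ (hMt u))
    rw [Finset.card_singleton]
  have hYc : Y.card ≤ 1 + t + d + t * t + t * t * t := by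
    rw [hY]
    refine (Finset.card_union_le _ _).trans (Nat.add_le_add ?_ (card_w3 M t hMt v))
    refine (Finset.card_union_le _ _).trans (Nat.add_le_add ?_ (card_w2 M t hMt v))
    refine (Finset.card_union_le _ _).trans (Nat.add_le_add ?_ (hd v))
    refine (Finset.card_union_le _ _).trans (Nat.add_le_add ?_ (hMt v))
    rw [Finset.card_singleton]
  -- a good edge
  obtain ⟨x, y, hxy, hx, hy⟩ : ∃ x y, M.Adj x y ∧ x ∉ X ∧ y ∉ Y := by
    by_contra hcon
    push Not at hcon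
    have h1 : ∑ v, dg M v ≤ t * X.card + t * Y.card := by
      apply card_pairs_le M t hMt
      intro x y hxy
      by_contra hh
      rw [not_or] at hh
      exact hh.2 (hcon x y hxy hh.1)
    have h2 : ∑ v, dg M v = ∑ v, f v := Finset.sum_congr rfl fun v _ => hMf v
    rw [h2] at h1
    have h3 : t * X.card ≤ t * (1 + t + d + t * t * t) := Nat.mul_le_mul_left t hXc
    have h4 : t * Y.card ≤ t * (1 + t + d + t * t + t * t * t) := Nat.mul_le_mul_left t hYc
    have h5 : t * (t * t) ≤ t * (t * t * t) := by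
      apply Nat.mul_le_mul_left
      exact Nat.le_mul_of_pos_right (t * t) ht
    have h6 : t * (t * t * t) = t ^ 4 := by ring
    have h7 : t * (1 + t + d + t * t * t) = t * (1 + d + t) + t * (t * t * t) := by ring
    have h8 : t * (1 + t + d + t * t + t * t * t) =
        t * (1 + d + t) + t * (t * t) + t * (t * t * t) := by ring
    rw [h7] at h3
    rw [h8] at h4
    rw [h6] at h3 h4 h5
    omega
  rw [hX, Finset.mem_union, Finset.mem_union, Finset.mem_union, Finset.mem_singleton, mem_nb,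
    mem_nb, not_or, not_or, not_or] at hx
  rw [hY, Finset.mem_union, Finset.mem_union, Finset.mem_union, Finset.mem_union,
    Finset.mem_singleton, mem_nb, mem_nb, not_or, not_or, not_or, not_or] at hy
  obtain ⟨⟨⟨hx1, hx2⟩, hx3⟩, hx4⟩ := hx
  obtain ⟨⟨⟨⟨hy1, hy2⟩, hy3⟩, hy4⟩, hy5⟩ := hy
  have hok : Ok M u v x y :=
    ⟨hc.2.2.1, hxy, hx2, hy2, fun hh => hx1 hh.symm, fun hh => hy1 hh.symm⟩
  refine ⟨sw M u v x y, sw_avoid hMG hx3 hy3, fun w => (dg_sw hok w).trans (hMf w), ?_⟩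
  refine c4_lt hok ?_ ?_ ?_ hc
  · intro p q h1 h2 h3
    apply hx4
    rw [w3, Finset.mem_biUnion]
    refine ⟨q, ?_, mem_nb.2 h3⟩
    rw [w2, Finset.mem_biUnion]
    exact ⟨p, mem_nb.2 h1, mem_nb.2 h2⟩
  · intro p q h1 h2 h3
    apply hy5
    rw [w3, Finset.mem_biUnion]
    refine ⟨q, ?_, mem_nb.2 h3⟩
    rw [w2, Finset.mem_biUnion]
    exact ⟨p, mem_nb.2 h1, mem_nb.2 h2⟩
  · intro h1
    apply hy4
    rw [w2, Finset.mem_biUnion]
    exact ⟨u, mem_nb.2 hc.2.2.1.symm, mem_nb.2 h1⟩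

/-- among the graphs with the degrees `f` avoiding `G` there is one without 4-cycles, if there is one at
all and the number of vertices is large -/
theorem exists_c4free (G : SimpleGraph V) (d t : ℕ) (hd : ∀ v, dg G v ≤ d) (ht : 1 ≤ t)
    (f : V → ℕ) (hft : ∀ v, f v ≤ t) (hsum : t * Fintype.card V ≤ ∑ v, f v + 1)
    (hne : ∃ M : SimpleGraph V, (∀ x y, M.Adj x y → ¬ G.Adj x y) ∧ ∀ v, dg M v = f v)
    (hn : 2 * (t * (1 + d + t)) + 16 * t ^ 4 + 1 < t * Fintype.card V) :
    ∃ M : SimpleGraph V, (∀ x y, M.Adj x y → ¬ G.Adj x y) ∧ (∀ v, dg M v = f v) ∧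
      ∀ a b, a ≠ b → (nb M a ∩ nb M b).card ≤ 1 := by
  obtain ⟨M, hM1, hM2⟩ := hne
  obtain ⟨k, hk⟩ : ∃ k, c4 M = k := ⟨_, rfl⟩
  induction k using Nat.strong_induction_on generalizing M with
  | _ k ih =>
    by_cases hall : ∀ a b, a ≠ b → (nb M a ∩ nb M b).card ≤ 1
    · exact ⟨M, hM1, hM2, hall⟩
    · push Not at hall
      obtain ⟨a, c, hac, h1⟩ := hall
      rw [Finset.one_lt_card] at h1
      obtain ⟨b, hb, e, he, hbe⟩ := h1
      rw [Finset.mem_inter, mem_nb, mem_nb] at hb he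
      have hc : Cy M a b c e := ⟨hac, hbe, hb.1, hb.2.symm, he.2, he.1.symm⟩
      obtain ⟨M', h2, h3, h4⟩ := c4_step G d t hd ht f hft hsum hn M hM1 hM2 hc
      exact ih _ (hk ▸ h4) M' h2 h3 rfl

end Pool.Agent.BD48
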