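import Mathlib
import Pool.Agent.BD48.Switch

/-!
The ratios of the numbers of graphs with given degrees, avoiding a forbidden graph, in which two given
vertices have `j` common neighbours.
-/

namespace Pool.Agent.BD48

open Finset

attribute [local instance] Classical.propDecidable

variable {V : Type*} [Fintype V]

/-- the graphs with degrees `f` avoiding `G` -/
noncomputable def Om (G : SimpleGraph V) (f : V → ℕ) : Finset (SimpleGraph V) :=
  (Set.toFinite {M : SimpleGraph V | (∀ x y, M.Adj x y → ¬ G.Adj x y) ∧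
    ∀ v, dg M v = f v}).toFinset

lemma mem_Om {G : SimpleGraph V} {f : V → ℕ} {M : SimpleGraph V} :
    M ∈ Om G f ↔ (∀ x y, M.Adj x y → ¬ G.Adj x y) ∧ ∀ v, dg M v = f v := by
  unfold Om
  rw [Set.Finite.mem_toFinset]
  rfl

/-- the number of common neighbours -/
noncomputable def cod (M : SimpleGraph V) (u w : V) : ℕ := (nb M u ∩ nb M w).card

/-- the graphs in which `u` and `w` have `j` common neighbours -/
noncomputable def Qj (G : SimpleGraph V) (f : V → ℕ) (u w : V) (j : ℕ) :
    Finset (SimpleGraph V) :=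
  (Om G f).filter (fun M => cod M u w = j)

lemma mem_Qj {G : SimpleGraph V} {f : V → ℕ} {u w : V} {j : ℕ} {M : SimpleGraph V} :
    M ∈ Qj G f u w j ↔ M ∈ Om G f ∧ cod M u w = j := by
  unfold Qj
  rw [Finset.mem_filter]

lemma sum_inter_nb (M : SimpleGraph V) (Y : Finset V) :
    ∑ x, (nb M x ∩ Y).card = ∑ y ∈ Y, dg M y := by
  have h : ∀ x, (nb M x ∩ Y).card = ∑ y ∈ Y, if M.Adj x y then 1 else 0 := by
    intro x
    rw [← Finset.card_filter]
    congr 1
    ext y
    rw [Finset.mem_inter, mem_nb, Finset.mem_filter, and_comm]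
  rw [Finset.sum_congr rfl (fun x _ => h x), Finset.sum_comm]
  refine Finset.sum_congr rfl (fun y _ => ?_)
  rw [← Finset.card_filter]
  unfold dg
  congr 1
  ext x
  rw [mem_nb, Finset.mem_filter, M.adj_comm]
  simp

lemma edges_lower (M : SimpleGraph V) (t : ℕ) (ht : ∀ v, dg M v ≤ t) (X Y : Finset V) :
    ∑ v, dg M v ≤ ∑ x ∈ univ \ X, (nb M x \ Y).card + t * X.card + t * Y.card := by
  have h1 : ∑ v, dg M v = ∑ x ∈ univ \ X, dg M x + ∑ x ∈ X, dg M x :=
    (Finset.sum_sdiff (Finset.subset_univ X)).symm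
  have h2 : ∑ x ∈ X, dg M x ≤ t * X.card := by
    refine le_trans (Finset.sum_le_sum (fun x _ => ht x)) ?_
    rw [Finset.sum_const, smul_eq_mul, Nat.mul_comm]
  have h3 : ∑ x ∈ univ \ X, dg M x
      = ∑ x ∈ univ \ X, (nb M x \ Y).card + ∑ x ∈ univ \ X, (nb M x ∩ Y).card := by
    rw [← Finset.sum_add_distrib]
    refine Finset.sum_congr rfl (fun x _ => ?_)
    rw [Finset.card_sdiff_add_card_inter]
    rfl
  have h4 : ∑ x ∈ univ \ X, (nb M x ∩ Y).card ≤ ∑ x, (nb M x ∩ Y).card :=
    Finset.sum_le_sum_of_subset Finset.sdiff_subset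
  have h5 : ∑ y ∈ Y, dg M y ≤ t * Y.card := by
    refine le_trans (Finset.sum_le_sum (fun x _ => ht x)) ?_
    rw [Finset.sum_const, smul_eq_mul, Nat.mul_comm]
  rw [sum_inter_nb] at h4
  omega

/-- the ratio, times `t` -/
theorem ratio_mul (G : SimpleGraph V) (f : V → ℕ) (d t s j : ℕ) (hd : ∀ v, dg G v ≤ d)
    (hf : ∀ v, f v ≤ t) (hsum : t * Fintype.card V ≤ ∑ v, f v + 1) (ht : 1 ≤ t)
    (hn : Fintype.card V = s + 2 * d + 3 * t + 3) (u w : V) (huw : u ≠ w) :
    (Qj G f u w (j + 1)).card * ((j + 1) * (t * (s + j)))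
      ≤ (Qj G f u w j).card * ((t - j) * ((t - j) * t)) := by
  let X0 : SimpleGraph V → Finset V := fun M => {u, w} ∪ nb G u ∪ (nb M u ∪ nb M w)
  let Y0 : SimpleGraph V → V → Finset V := fun M v => {v} ∪ nb G v ∪ nb M v
  let P : Finset (Σ _ : SimpleGraph V, Σ _ : V, Σ _ : V, V) :=
    (Qj G f u w (j + 1)).sigma (fun M => (nb M u ∩ nb M w).sigma (fun v =>
      (univ \ X0 M).sigma (fun x => nb M x \ Y0 M v)))
  let R : Finset (Σ _ : SimpleGraph V, Σ _ : V, Σ _ : V, V) :=
    (Qj G f u w j).sigma (fun M => (nb M w \ nb M u).sigma (fun v =>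
      (nb M u \ nb M w).sigma (fun _ => nb M v)))
  have hP : (Qj G f u w (j + 1)).card * ((j + 1) * (t * (s + j))) ≤ P.card := by
    rw [Finset.card_sigma, ← smul_eq_mul, ← Finset.sum_const]
    refine Finset.sum_le_sum (fun M hM => ?_)
    obtain ⟨hM1, hM2⟩ := mem_Qj.mp hM
    obtain ⟨hM3, hM4⟩ := mem_Om.mp hM1
    rw [Finset.card_sigma]
    have hcard : (nb M u ∩ nb M w).card = j + 1 := hM2
    rw [← hcard, ← smul_eq_mul, ← Finset.sum_const]
    refine Finset.sum_le_sum (fun v _ => ?_)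
    rw [Finset.card_sigma]
    have hdeg : ∀ v, dg M v ≤ t := fun v => by rw [hM4 v]; exact hf v
    have h1 := edges_lower M t hdeg (X0 M) (Y0 M v)
    have h2 : ∑ v, dg M v = ∑ v, f v := Finset.sum_congr rfl (fun v _ => hM4 v)
    have h3 : (X0 M).card + (j + 1) ≤ 2 + d + 2 * t := by
      have e1 := Finset.card_union_le ({u, w} ∪ nb G u) (nb M u ∪ nb M w)
      have e2 := Finset.card_union_le ({u, w} : Finset V) (nb G u)
      have e3 : ({u, w} : Finset V).card ≤ 2 := Finset.card_le_two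
      have e4 := Finset.card_union_add_card_inter (nb M u) (nb M w)
      have e5 : (nb G u).card ≤ d := hd u
      have e6 : (nb M u).card ≤ t := hdeg u
      have e7 : (nb M w).card ≤ t := hdeg w
      show ({u, w} ∪ nb G u ∪ (nb M u ∪ nb M w)).card + (j + 1) ≤ _
      omega
    have h4 : (Y0 M v).card ≤ 1 + d + t := by
      have e1 := Finset.card_union_le ({v} ∪ nb G v) (nb M v)
      have e2 := Finset.card_union_le ({v} : Finset V) (nb G v)
      have e3 : ({v} : Finset V).card = 1 := Finset.card_singleton v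
      have e5 : (nb G v).card ≤ d := hd v
      have e6 : (nb M v).card ≤ t := hdeg v
      show ({v} ∪ nb G v ∪ nb M v).card ≤ _
      omega
    rw [h2] at h1
    have h5 : t * ((X0 M).card + (j + 1)) ≤ t * (2 + d + 2 * t) := Nat.mul_le_mul_left _ h3
    have h6 : t * (Y0 M v).card ≤ t * (1 + d + t) := Nat.mul_le_mul_left _ h4
    rw [hn] at hsum
    have h7 : t * (s + 2 * d + 3 * t + 3) + t * j = t * (s + j) + t * (2 + d + 2 * t)
        + t * (1 + d + t) := by ring
    have h8 : t * ((X0 M).card + (j + 1)) = t * (X0 M).card + t * j + t := by ring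
    have h9 : t * j ≤ t * (s + j) := Nat.mul_le_mul_left _ (by omega)
    omega
  have hR : R.card ≤ (Qj G f u w j).card * ((t - j) * ((t - j) * t)) := by
    rw [Finset.card_sigma, ← smul_eq_mul, ← Finset.sum_const]
    refine Finset.sum_le_sum (fun M hM => ?_)
    obtain ⟨hM1, hM2⟩ := mem_Qj.mp hM
    obtain ⟨hM3, hM4⟩ := mem_Om.mp hM1
    have hdeg : ∀ v, dg M v ≤ t := fun v => by rw [hM4 v]; exact hf v
    have e6 : (nb M u).card ≤ t := hdeg u
    have e7 : (nb M w).card ≤ t := hdeg w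
    have hcard : (nb M u ∩ nb M w).card = j := hM2
    rw [Finset.card_sigma]
    have h1 : (nb M w \ nb M u).card ≤ t - j := by
      have := Finset.card_sdiff_add_card_inter (nb M w) (nb M u)
      rw [Finset.inter_comm, hcard] at this
      omega
    have h2 : (nb M u \ nb M w).card ≤ t - j := by
      have := Finset.card_sdiff_add_card_inter (nb M u) (nb M w)
      rw [hcard] at this
      omega
    have h3 : ∀ v ∈ nb M w \ nb M u,
        ((nb M u \ nb M w).sigma (fun _ => nb M v)).card ≤ (t - j) * t := by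
      intro v _
      rw [Finset.card_sigma]
      refine le_trans (Finset.sum_le_sum (fun x _ => hdeg v)) ?_
      rw [Finset.sum_const, smul_eq_mul]
      exact Nat.mul_le_mul_right _ h2
    refine le_trans (Finset.sum_le_sum h3) ?_
    rw [Finset.sum_const, smul_eq_mul]
    exact Nat.mul_le_mul_right _ h1
  have hinj : P.card ≤ R.card := by
    -- the facts about an element of `P`
    have key : ∀ M v x y, (⟨M, v, x, y⟩ : Σ _ : SimpleGraph V, Σ _ : V, Σ _ : V, V) ∈ P →
        Ok M u v x y ∧ (⟨sw M u v x y, v, x, y⟩ : Σ _ : SimpleGraph V, Σ _ : V, Σ _ : V, V) ∈ R := by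
      intro M v x y h
      simp only [P, X0, Y0, Finset.mem_sigma, Finset.mem_inter, Finset.mem_sdiff, Finset.mem_univ,
        true_and, Finset.mem_union, Finset.mem_insert, Finset.mem_singleton, not_or] at h
      obtain ⟨hM, ⟨hvu, hvw⟩, ⟨⟨⟨hxu, hxw⟩, hxG⟩, hxMu, hxMw⟩, hy, ⟨hyv, hyG⟩, hyM⟩ := h
      obtain ⟨hM1, hM2⟩ := mem_Qj.mp hM
      obtain ⟨hM3, hM4⟩ := mem_Om.mp hM1
      rw [mem_nb] at hvu hvw hxG hxMu hxMw hy hyG hyM
      have hok : Ok M u v x y := ⟨hvu, hy, hxMu, hyM, fun h => hxu h.symm, fun h => hyv h.symm⟩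
      have hwy : w ≠ y := by
        rintro rfl
        exact hxMw hy.symm
      have hnbw : nb (sw M u v x y) w = nb M w :=
        nb_sw_other (Ne.symm huw) hvw.ne (fun h => hxw h.symm) hwy
      have hnbu := nb_sw_u hok
      refine ⟨hok, ?_⟩
      simp only [R, Finset.mem_sigma, Finset.mem_sdiff]
      refine ⟨?_, ⟨?_, ?_⟩, ⟨?_, ?_⟩, ?_⟩
      · rw [mem_Qj, mem_Om]
        refine ⟨⟨sw_avoid hM3 hxG hyG, fun v => by rw [dg_sw hok, hM4]⟩, ?_⟩
        unfold cod
        rw [hnbw, hnbu, Finset.insert_inter_of_notMem (by rw [mem_nb]; exact hxMw),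
          Finset.erase_inter, Finset.card_erase_of_mem
          (Finset.mem_inter.mpr ⟨mem_nb.mpr hvu, mem_nb.mpr hvw⟩)]
        unfold cod at hM2
        omega
      · rw [hnbw, mem_nb]
        exact hvw
      · rw [hnbu, Finset.mem_insert, Finset.mem_erase]
        rintro (h | h)
        · exact hok.vx' h
        · exact h.1 rfl
      · rw [hnbu]
        exact Finset.mem_insert_self _ _
      · rw [hnbw, mem_nb]
        exact hxMw
      · rw [mem_nb, sw_adj]
        exact ⟨hok.vy', Or.inr (Or.inr (Or.inl ⟨rfl, rfl⟩))⟩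
    refine Finset.card_le_card_of_injOn
      (fun p => (⟨sw p.1 u p.2.1 p.2.2.1 p.2.2.2, p.2⟩ :
        Σ _ : SimpleGraph V, Σ _ : V, Σ _ : V, V)) ?_ ?_
    · rintro ⟨M, v, x, y⟩ h
      exact (key M v x y h).2
    · rintro ⟨M, v, x, y⟩ h ⟨M', v', x', y'⟩ h' heq
      have h1 := (key M v x y h).1
      have h2 := (key M' v' x' y' h').1
      simp only [Sigma.mk.injEq, heq_eq_eq] at heq
      obtain ⟨e1, e2, e3, e4⟩ := heq
      subst e2 e3 e4
      have : M = M' := by
        rw [← sw_sw h1, ← sw_sw h2, e1]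
      rw [this]
  exact le_trans hP (le_trans hinj hR)

/-- the ratio -/
theorem ratio (G : SimpleGraph V) (f : V → ℕ) (d t s j : ℕ) (hd : ∀ v, dg G v ≤ d)
    (hf : ∀ v, f v ≤ t) (hsum : t * Fintype.card V ≤ ∑ v, f v + 1) (ht : 1 ≤ t)
    (hn : Fintype.card V = s + 2 * d + 3 * t + 3) (u w : V) (huw : u ≠ w) :
    (Qj G f u w (j + 1)).card * ((j + 1) * (s + j))
      ≤ (Qj G f u w j).card * ((t - j) * (t - j)) := by
  have h := ratio_mul G f d t s j hd hf hsum ht hn u w huw
  have h1 : (Qj G f u w (j + 1)).card * ((j + 1) * (t * (s + j)))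
      = t * ((Qj G f u w (j + 1)).card * ((j + 1) * (s + j))) := by ring
  have h2 : (Qj G f u w j).card * ((t - j) * ((t - j) * t))
      = t * ((Qj G f u w j).card * ((t - j) * (t - j))) := by ring
  rw [h1, h2] at h
  exact Nat.le_of_mul_le_mul_left h (by omega)

end Pool.Agent.BD48
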