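import Mathlib
import Pool.Agent.BD48.C4
import Pool.Agent.BD48.Count

/-!
Graphs with given degrees and without 4-cycles, with a set `W` of vertices of low degree in the
forbidden graph.
-/

namespace Pool.Agent.BD48

open Finset

attribute [local instance] Classical.propDecidable

variable {V : Type*} [Fintype V]

/-- if there is a 4-cycle with an edge between vertices of low degree in `G`, then there is a switching
with fewer 4-cycles -/
lemma c4_stepW (G : SimpleGraph V) (d t : ℕ) (ht : 1 ≤ t)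
    (f : V → ℕ) (hft : ∀ v, f v ≤ t) (hsum : 2 * (t * (1 + d + t)) + 16 * t ^ 4 < ∑ v, f v)
    (M : SimpleGraph V) (hM : M ∈ Om G f)
    {u v c e : V} (hdu : dg G u ≤ d) (hdv : dg G v ≤ d) (hc : Cy M u v c e) :
    ∃ M' ∈ Om G f, c4 M' < c4 M := by
  obtain ⟨hMG, hMf⟩ := mem_Om.mp hM
  have hMt : ∀ v, dg M v ≤ t := fun v => (hMf v).le.trans (hft v)
  set X : Finset V := (({u} ∪ nb M u) ∪ nb G u) ∪ w3 M u with hX
  set Y : Finset V := ((({v} ∪ nb M v) ∪ nb G v) ∪ w2 M v) ∪ w3 M v with hY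
  have hXc : X.card ≤ 1 + t + d + t * t * t := by
    rw [hX]
    refine (Finset.card_union_le _ _).trans (Nat.add_le_add ?_ (card_w3 M t hMt u))
    refine (Finset.card_union_le _ _).trans (Nat.add_le_add ?_ hdu)
    refine (Finset.card_union_le _ _).trans (Nat.add_le_add ?_ (hMt u))
    rw [Finset.card_singleton]
  have hYc : Y.card ≤ 1 + t + d + t * t + t * t * t := by
    rw [hY]
    refine (Finset.card_union_le _ _).trans (Nat.add_le_add ?_ (card_w3 M t hMt v))
    refine (Finset.card_union_le _ _).trans (Nat.add_le_add ?_ (card_w2 M t hMt v))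
    refine (Finset.card_union_le _ _).trans (Nat.add_le_add ?_ hdv)
    refine (Finset.card_union_le _ _).trans (Nat.add_le_add ?_ (hMt v))
    rw [Finset.card_singleton]
  -- a good edge
  obtain ⟨x, y, hxy, hx, hy⟩ : ∃ x y, M.Adj x y ∧ x ∉ X ∧ y ∉ Y := by
    by_contra hcon
    push Not at hcon
    have h1 : ∑ v, dg M v ≤ t * X.card + t * Y.card := by
      apply card_pairs_le M t hMt
      intro x y hxy
      by_contra hh
      rw [not_or] at hh
      exact hh.2 (hcon x y hxy hh.1)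
    have h2 : ∑ v, dg M v = ∑ v, f v := Finset.sum_congr rfl fun v _ => hMf v
    rw [h2] at h1
    have h3 : t * X.card ≤ t * (1 + t + d + t * t * t) := Nat.mul_le_mul_left t hXc
    have h4 : t * Y.card ≤ t * (1 + t + d + t * t + t * t * t) := Nat.mul_le_mul_left t hYc
    have h5 : t * (t * t) ≤ t * (t * t * t) := by
      apply Nat.mul_le_mul_left
      exact Nat.le_mul_of_pos_right (t * t) ht
    have h6 : t * (t * t * t) = t ^ 4 := by ring
    have h7 : t * (1 + t + d + t * t * t) = t * (1 + d + t) + t * (t * t * t) := by ring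
    have h8 : t * (1 + t + d + t * t + t * t * t) =
        t * (1 + d + t) + t * (t * t) + t * (t * t * t) := by ring
    rw [h7] at h3
    rw [h8] at h4
    rw [h6] at h3 h4 h5
    omega
  rw [hX, Finset.mem_union, Finset.mem_union, Finset.mem_union, Finset.mem_singleton, mem_nb,
    mem_nb, not_or, not_or, not_or] at hx
  rw [hY, Finset.mem_union, Finset.mem_union, Finset.mem_union, Finset.mem_union,
    Finset.mem_singleton, mem_nb, mem_nb, not_or, not_or, not_or, not_or] at hy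
  obtain ⟨⟨⟨hx1, hx2⟩, hx3⟩, hx4⟩ := hx
  obtain ⟨⟨⟨⟨hy1, hy2⟩, hy3⟩, hy4⟩, hy5⟩ := hy
  have hok : Ok M u v x y :=
    ⟨hc.2.2.1, hxy, hx2, hy2, fun hh => hx1 hh.symm, fun hh => hy1 hh.symm⟩
  refine ⟨sw M u v x y, mem_Om.mpr ⟨sw_avoid hMG hx3 hy3,
    fun w => (dg_sw hok w).trans (hMf w)⟩, ?_⟩
  refine c4_lt hok ?_ ?_ ?_ hc
  · intro p q h1 h2 h3
    apply hx4
    rw [w3, Finset.mem_biUnion]
    refine ⟨q, ?_, mem_nb.2 h3⟩
    rw [w2, Finset.mem_biUnion]
    exact ⟨p, mem_nb.2 h1, mem_nb.2 h2⟩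
  · intro p q h1 h2 h3
    apply hy5
    rw [w3, Finset.mem_biUnion]
    refine ⟨q, ?_, mem_nb.2 h3⟩
    rw [w2, Finset.mem_biUnion]
    exact ⟨p, mem_nb.2 h1, mem_nb.2 h2⟩
  · intro h1
    apply hy4
    rw [w2, Finset.mem_biUnion]
    exact ⟨u, mem_nb.2 hc.2.2.1.symm, mem_nb.2 h1⟩

/-- a graph without 4-cycles -/
theorem exists_c4freeW (G : SimpleGraph V) (f : V → ℕ) (W : Finset V) (d t : ℕ)
    (hd : ∀ v ∈ W, dg G v ≤ d) (hf : ∀ v, f v ≤ t) (ht : 1 ≤ t)
    (hcyc : ∀ M ∈ Om G f, ∀ a b c e, Cy M a b c e →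
      (a ∈ W ∧ b ∈ W) ∨ (b ∈ W ∧ c ∈ W) ∨ (c ∈ W ∧ e ∈ W) ∨ (e ∈ W ∧ a ∈ W))
    (hne : (Om G f).Nonempty) (hsum : 2 * (t * (1 + d + t)) + 16 * t ^ 4 < ∑ v, f v) :
    ∃ M ∈ Om G f, ∀ a b, a ≠ b → (nb M a ∩ nb M b).card ≤ 1 := by
  obtain ⟨M, hM⟩ := hne
  obtain ⟨k, hk⟩ : ∃ k, c4 M = k := ⟨_, rfl⟩
  induction k using Nat.strong_induction_on generalizing M with
  | _ k ih =>
    by_cases hall : ∀ a b, a ≠ b → (nb M a ∩ nb M b).card ≤ 1
    · exact ⟨M, hM, hall⟩
    · push Not at hall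
      obtain ⟨a, c, hac, h1⟩ := hall
      rw [Finset.one_lt_card] at h1
      obtain ⟨b, hb, e, he, hbe⟩ := h1
      rw [Finset.mem_inter, mem_nb, mem_nb] at hb he
      have hc : Cy M a b c e := ⟨hac, hbe, hb.1, hb.2.symm, he.2, he.1.symm⟩
      obtain ⟨M', h2, h3⟩ : ∃ M' ∈ Om G f, c4 M' < c4 M := by
        rcases hcyc M hM a b c e hc with h | h | h | h
        · exact c4_stepW G d t ht f hf hsum M hM (hd _ h.1) (hd _ h.2) hc
        · exact c4_stepW G d t ht f hf hsum M hM (hd _ h.1) (hd _ h.2) hc.rot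
        · exact c4_stepW G d t ht f hf hsum M hM (hd _ h.1) (hd _ h.2) hc.rot.rot
        · exact c4_stepW G d t ht f hf hsum M hM (hd _ h.1) (hd _ h.2) hc.rot.rot.rot
      exact ih _ (hk ▸ h3) M' h2 rfl

end Pool.Agent.BD48
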