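import Mathlib
import Pool.Agent.BD48.BuildJ

/-!
The construction of the highly connected supergraph when `n - k` is small compared with `n`.
-/

namespace Pool.Agent.BD48

open Finset

attribute [local instance] Classical.propDecidable

/-- two sets of integers all of whose mutual distances are between `σ + 1` and `s`, the extreme
points being in the second set -/
lemma two_sets_aux (P Q : Finset ℕ) (s σ : ℕ) (hP : P.Nonempty)
    (h1 : ∀ i ∈ P, ∀ j ∈ Q, (i + σ < j ∨ j + σ < i) ∧ i ≤ j + s ∧ j ≤ i + s)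
    (lo hi : ℕ) (hlo : lo ∈ Q) (hhi : hi ∈ Q) (hlo' : ∀ i ∈ P ∪ Q, lo ≤ i)
    (hhi' : ∀ i ∈ P ∪ Q, i ≤ hi) : P.card + Q.card + 2 * σ ≤ 2 * s + 1 := by
  obtain ⟨p, hp, hpmin⟩ : ∃ p ∈ P, ∀ t ∈ P, p ≤ t :=
    ⟨P.min' hP, P.min'_mem hP, fun t ht => P.min'_le t ht⟩
  obtain ⟨q, hq, hqmax⟩ : ∃ q ∈ P, ∀ t ∈ P, t ≤ q :=
    ⟨P.max' hP, P.max'_mem hP, fun t ht => P.le_max' t ht⟩
  have hplo := h1 p hp lo hlo
  have hphi := h1 p hp hi hhi
  have hqhi := h1 q hq hi hhi
  have e1 := hlo' p (Finset.mem_union_left _ hp)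
  have e2 := hhi' q (Finset.mem_union_left _ hq)
  have e3 := hpmin q hq
  have hsub : (P ∪ Q) ∪ (Finset.Ico (p - σ) p ∪ Finset.Ioc q (q + σ)) ⊆ Finset.Icc lo hi := by
    intro i hi'
    rw [Finset.mem_union] at hi'
    rw [Finset.mem_Icc]
    rcases hi' with hi' | hi'
    · exact ⟨hlo' i hi', hhi' i hi'⟩
    · rw [Finset.mem_union, Finset.mem_Ico, Finset.mem_Ioc] at hi'
      omega
  have hd1 : Disjoint P Q := by
    rw [Finset.disjoint_left]
    intro i hi1 hi2
    have := h1 i hi1 i hi2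
    omega
  have hd2 : Disjoint (Finset.Ico (p - σ) p) (Finset.Ioc q (q + σ)) := by
    rw [Finset.disjoint_left]
    intro i hi1 hi2
    rw [Finset.mem_Ico] at hi1
    rw [Finset.mem_Ioc] at hi2
    omega
  have hd3 : Disjoint (P ∪ Q) (Finset.Ico (p - σ) p ∪ Finset.Ioc q (q + σ)) := by
    rw [Finset.disjoint_left]
    intro i hi1 hi2
    rw [Finset.mem_union] at hi1
    rw [Finset.mem_union, Finset.mem_Ico, Finset.mem_Ioc] at hi2
    rcases hi1 with hi1 | hi1
    · have a1 := hpmin i hi1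
      have a2 := hqmax i hi1
      omega
    · have a1 := h1 p hp i hi1
      have a2 := h1 q hq i hi1
      omega
  have hle := Finset.card_le_card hsub
  rw [Finset.card_union_of_disjoint hd3, Finset.card_union_of_disjoint hd2,
    Finset.card_union_of_disjoint hd1, Nat.card_Icc, Nat.card_Ico, Nat.card_Ioc] at hle
  omega

lemma two_sets (P Q : Finset ℕ) (s σ : ℕ) (hσ : 2 * σ ≤ s) (hP : P.Nonempty) (hQ : Q.Nonempty)
    (h1 : ∀ i ∈ P, ∀ j ∈ Q, (i + σ < j ∨ j + σ < i) ∧ i ≤ j + s ∧ j ≤ i + s) :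
    P.card + Q.card + 2 * σ ≤ 2 * s + 1 := by
  have hU : (P ∪ Q).Nonempty := hP.mono Finset.subset_union_left
  obtain ⟨lo, hlo, hlo'⟩ : ∃ p ∈ P ∪ Q, ∀ t ∈ P ∪ Q, p ≤ t :=
    ⟨(P ∪ Q).min' hU, (P ∪ Q).min'_mem hU, fun t ht => (P ∪ Q).min'_le t ht⟩
  obtain ⟨hi, hhi, hhi'⟩ : ∃ q ∈ P ∪ Q, ∀ t ∈ P ∪ Q, t ≤ q :=
    ⟨(P ∪ Q).max' hU, (P ∪ Q).max'_mem hU, fun t ht => (P ∪ Q).le_max' t ht⟩
  have h1' : ∀ i ∈ Q, ∀ j ∈ P, (i + σ < j ∨ j + σ < i) ∧ i ≤ j + s ∧ j ≤ i + s := by
    intro i hi j hj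
    have := h1 j hj i hi
    omega
  have hd1 : Disjoint P Q := by
    rw [Finset.disjoint_left]
    intro i hi1 hi2
    have := h1 i hi1 i hi2
    omega
  have hmixed : hi ≤ lo + s → P.card + Q.card + 2 * σ ≤ 2 * s + 1 := by
    intro h
    have hsub : P ∪ Q ⊆ Finset.Icc lo hi := by
      intro i hi'
      rw [Finset.mem_Icc]
      exact ⟨hlo' i hi', hhi' i hi'⟩
    have hle := Finset.card_le_card hsub
    rw [Finset.card_union_of_disjoint hd1, Nat.card_Icc] at hle
    omega
  rw [Finset.mem_union] at hlo hhi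
  rcases hlo with hlo | hlo
  · rcases hhi with hhi | hhi
    · have := two_sets_aux Q P s σ hQ h1' lo hi hlo hhi
        (fun i hi => hlo' i (by rwa [Finset.union_comm]))
        (fun i hi => hhi' i (by rwa [Finset.union_comm]))
      omega
    · exact hmixed (h1 lo hlo hi hhi).2.2
  · rcases hhi with hhi | hhi
    · exact hmixed (h1 hi hhi lo hlo).2.1
    · exact two_sets_aux P Q s σ hP h1 lo hi hlo hhi hlo' hhi'

variable {n : ℕ} [NeZero n]

/-- the neighbours at the distances in `S` -/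
noncomputable def JS (S : Finset ℕ) (v : ZMod n) : Finset (ZMod n) :=
  S.image (fun h : ℕ => v + (h : ZMod n)) ∪ S.image (fun h : ℕ => v - (h : ZMod n))

lemma mem_JS {S : Finset ℕ} {v x : ZMod n} :
    x ∈ JS S v ↔ ∃ h ∈ S, x = v + (h : ZMod n) ∨ v = x + (h : ZMod n) := by
  unfold JS
  rw [Finset.mem_union, Finset.mem_image, Finset.mem_image]
  constructor
  · rintro (⟨h, hh, h1⟩ | ⟨h, hh, h1⟩)
    · exact ⟨h, hh, Or.inl h1.symm⟩
    · refine ⟨h, hh, Or.inr ?_⟩
      rw [← h1]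
      ring
  · rintro ⟨h, hh, h1 | h1⟩
    · exact Or.inl ⟨h, hh, h1.symm⟩
    · refine Or.inr ⟨h, hh, ?_⟩
      rw [h1]
      ring

lemma JS_symm {S : Finset ℕ} {x y : ZMod n} (h : y ∈ JS S x) : x ∈ JS S y := by
  rw [mem_JS] at h ⊢
  obtain ⟨h, hh, h1⟩ := h
  exact ⟨h, hh, h1.symm⟩

lemma card_JS_le (S : Finset ℕ) (v : ZMod n) : (JS S v).card ≤ 2 * S.card := by
  unfold JS
  refine le_trans (Finset.card_union_le _ _) ?_
  have h1 := Finset.card_image_le (s := S) (f := fun h : ℕ => v + (h : ZMod n))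
  have h2 := Finset.card_image_le (s := S) (f := fun h : ℕ => v - (h : ZMod n))
  omega

lemma card_JS (S : Finset ℕ) (v : ZMod n) (h₁ : ℕ) (hS : ∀ h ∈ S, 1 ≤ h ∧ h < h₁)
    (hn : 2 * h₁ ≤ n) : (JS S v).card = 2 * S.card := by
  unfold JS
  rw [Finset.card_union_of_disjoint, Finset.card_image_of_injOn, Finset.card_image_of_injOn]
  · ring
  · intro a ha b hb hab
    have h1 := hS a ha
    have h2 := hS b hb
    refine cast_add_inj (c := (0 : ZMod n)) (by omega) (by omega) ?_
    have hab' : v - (a : ZMod n) = v - (b : ZMod n) := hab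
    linear_combination -hab'
  · intro a ha b hb hab
    have h1 := hS a ha
    have h2 := hS b hb
    exact cast_add_inj (by omega) (by omega) hab
  · rw [Finset.disjoint_left]
    intro x hx hx'
    obtain ⟨i, hi, h1⟩ := Finset.mem_image.mp hx
    obtain ⟨i', hi', h2⟩ := Finset.mem_image.mp hx'
    have h3 := hS i hi
    have h4 := hS i' hi'
    have h5 : (0 : ZMod n) + ((i + i' : ℕ) : ZMod n) = 0 + ((0 : ℕ) : ZMod n) := by
      push_cast
      linear_combination h1 - h2
    have := cast_add_inj (by omega) (by omega) h5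
    omega

lemma JS_not_close (S : Finset ℕ) (v x : ZMod n) (c h₁ : ℕ) (hS : ∀ h ∈ S, c < h ∧ h < h₁)
    (hn : h₁ + c ≤ n) (hx : x ∈ JS S v) : ¬ close c v x := by
  rw [mem_JS] at hx
  obtain ⟨h, hh, hx⟩ := hx
  have h1 := hS h hh
  rintro ⟨i, hi1, hi2, hi⟩
  rcases hx with hx | hx <;> rcases hi with hi | hi
  · rw [hx] at hi
    have := cast_add_inj (by omega) (by omega) hi
    omega
  · have h3 : v + ((h + i : ℕ) : ZMod n) = v + ((0 : ℕ) : ZMod n) := by
      push_cast
      rw [hx] at hi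
      linear_combination -hi
    have := cast_add_inj (by omega) (by omega) h3
    omega
  · have h3 : x + ((h + i : ℕ) : ZMod n) = x + ((0 : ℕ) : ZMod n) := by
      push_cast
      rw [hx] at hi
      linear_combination -hi
    have := cast_add_inj (by omega) (by omega) h3
    omega
  · rw [hx] at hi
    have := cast_add_inj (by omega) (by omega) hi
    omega

lemma JS_inter (S : Finset ℕ) (u : ZMod n) (i h₁ : ℕ) (hi : i < n) (hS : ∀ h ∈ S, i < h ∧ h < h₁)
    (hn : 2 * h₁ + i ≤ n) :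
    (JS S u ∩ JS S (u + (i : ZMod n))).card ≤ 2 * (S.filter (fun h => h + i ∈ S)).card := by
  let Si : Finset ℕ := S.filter (fun h => h + i ∈ S)
  have h1 : JS S u ∩ JS S (u + (i : ZMod n)) ⊆
      Si.image (fun h : ℕ => u + (i : ZMod n) + (h : ZMod n)) ∪
        Si.image (fun h : ℕ => u - (h : ZMod n)) := by
    intro x hx
    rw [Finset.mem_inter, mem_JS, mem_JS] at hx
    obtain ⟨⟨h₁', hh₁, hx₁⟩, ⟨h₂, hh₂, hx₂⟩⟩ := hx
    have hr₁ := hS h₁' hh₁
    have hr₂ := hS h₂ hh₂
    rw [Finset.mem_union, Finset.mem_image, Finset.mem_image]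
    rcases hx₁ with hx₁ | hx₁
    · rcases hx₂ with hx₂ | hx₂
      · left
        have h3 : u + (h₁' : ZMod n) = u + ((h₂ + i : ℕ) : ZMod n) := by
          push_cast
          linear_combination hx₂ - hx₁
        have h4 := cast_add_inj (by omega) (by omega) h3
        refine ⟨h₂, Finset.mem_filter.mpr ⟨hh₂, by rw [← h4]; exact hh₁⟩, hx₂.symm⟩
      · exfalso
        have h3 : u + ((h₁' + h₂ : ℕ) : ZMod n) = u + (i : ZMod n) := by
          push_cast
          rw [hx₁] at hx₂
          linear_combination -hx₂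
        have := cast_add_inj (by omega) (by omega) h3
        omega
    · rcases hx₂ with hx₂ | hx₂
      · exfalso
        have h3 : u + ((i + h₂ + h₁' : ℕ) : ZMod n) = u + ((0 : ℕ) : ZMod n) := by
          push_cast
          rw [hx₂] at hx₁
          linear_combination -hx₁
        have := cast_add_inj (by omega) (by omega) h3
        omega
      · right
        have h3 : x + ((h₁' + i : ℕ) : ZMod n) = x + (h₂ : ZMod n) := by
          push_cast
          linear_combination hx₂ - hx₁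
        have h4 := cast_add_inj (by omega) (by omega) h3
        refine ⟨h₁', Finset.mem_filter.mpr ⟨hh₁, by rw [h4]; exact hh₂⟩, ?_⟩
        rw [hx₁]
        ring
  have h2 := Finset.card_le_card h1
  have h3 := Finset.card_union_le (Si.image (fun h : ℕ => u + (i : ZMod n) + (h : ZMod n)))
    (Si.image (fun h : ℕ => u - (h : ZMod n)))
  have h4 := Finset.card_image_le (s := Si)
    (f := fun h : ℕ => u + (i : ZMod n) + (h : ZMod n))
  have h5 := Finset.card_image_le (s := Si) (f := fun h : ℕ => u - (h : ZMod n))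
  have h6 : Si = S.filter (fun h => h + i ∈ S) := rfl
  rw [← h6]
  omega

/-- writing closeness with coordinates -/
lemma close_coord {c : ℕ} {o : ZMod n} {i j : ℕ} (hi : i + c < n) (hj : j + c < n)
    (h : close c (o + (i : ZMod n)) (o + (j : ZMod n))) : i ≠ j ∧ i ≤ j + c ∧ j ≤ i + c := by
  obtain ⟨t, ht1, ht2, ht | ht⟩ := h
  · have h3 : o + (j : ZMod n) = o + ((i + t : ℕ) : ZMod n) := by
      rw [ht]
      push_cast
      ring
    have := cast_add_inj (by omega) (by omega) h3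
    omega
  · have h3 : o + (i : ZMod n) = o + ((j + t : ℕ) : ZMod n) := by
      rw [ht]
      push_cast
      ring
    have := cast_add_inj (by omega) (by omega) h3
    omega

lemma coord_close {c : ℕ} {o : ZMod n} {i j : ℕ} (h1 : i ≠ j) (h2 : i ≤ j + c) (h3 : j ≤ i + c) :
    close c (o + (i : ZMod n)) (o + (j : ZMod n)) := by
  rcases Nat.lt_or_gt_of_ne h1 with h | h
  · refine ⟨j - i, by omega, by omega, Or.inl ?_⟩
    rw [Nat.cast_sub h.le]
    ring
  · refine ⟨i - j, by omega, by omega, Or.inr ?_⟩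
    rw [Nat.cast_sub h.le]
    ring

/-- a point close to `v` in coordinates around `v` -/
lemma close_around {c e : ℕ} (hce : c ≤ e) {v x : ZMod n} (h : close c v x) :
    ∃ i : ℕ, e - c ≤ i ∧ i ≤ e + c ∧ x = (v - (e : ZMod n)) + (i : ZMod n) := by
  obtain ⟨t, ht1, ht2, ht | ht⟩ := h
  · refine ⟨e + t, by omega, by omega, ?_⟩
    rw [ht]
    push_cast
    ring
  · refine ⟨e - t, by omega, by omega, ?_⟩
    rw [Nat.cast_sub (by omega), ht]
    ring

end Pool.Agent.BD48
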