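import Mathlib
import Pool.Agent.BD48.Dense

/-!
Complete bipartite subgraphs of a perturbed power of a cycle, and the dense construction.
-/

namespace Pool.Agent.BD48

open Finset

attribute [local instance] Classical.propDecidable

variable {n : ℕ} [NeZero n]

lemma close_trans {a b : ℕ} {u v x : ZMod n} (h1 : close a u v) (h2 : close b v x)
    (hne : u ≠ x) : close (a + b) u x := by
  obtain ⟨i, hi1, hi2, hi⟩ := h1
  obtain ⟨j, hj1, hj2, hj⟩ := h2
  rcases hi with hi | hi <;> rcases hj with hj | hj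
  · refine ⟨i + j, by omega, by omega, Or.inl ?_⟩
    rw [hj, hi]
    push_cast
    ring
  · rcases Nat.lt_trichotomy i j with h | h | h
    · refine ⟨j - i, by omega, by omega, Or.inr ?_⟩
      rw [Nat.cast_sub h.le]
      rw [hi] at hj
      linear_combination hj
    · exfalso
      apply hne
      subst h
      rw [hi] at hj
      exact add_right_cancel hj
    · refine ⟨i - j, by omega, by omega, Or.inl ?_⟩
      rw [Nat.cast_sub h.le]
      rw [hi] at hj
      linear_combination -hj
  · rcases Nat.lt_trichotomy i j with h | h | h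
    · refine ⟨j - i, by omega, by omega, Or.inl ?_⟩
      rw [Nat.cast_sub h.le, hj, hi]
      ring
    · exfalso
      apply hne
      subst h
      rw [hj, hi]
    · refine ⟨i - j, by omega, by omega, Or.inr ?_⟩
      rw [Nat.cast_sub h.le, hj, hi]
      ring
  · refine ⟨i + j, by omega, by omega, Or.inr ?_⟩
    rw [hi, hj]
    push_cast
    ring

lemma biclique_aux (M : SimpleGraph (ZMod n)) (Yn : ZMod n → Finset (ZMod n)) (s σ y κ t : ℕ)
    (hM : ∀ v x, M.Adj v x → (close s v x ∧ ¬ close σ v x) ∨ x ∈ Yn v)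
    (hfar : ∀ v x, x ∈ Yn v → ¬ close (3 * s) v x)
    (hY : ∀ v, (Yn v).card ≤ y) (hy : 2 * y ≤ s)
    (hκ : ∀ b b', close (2 * s) b b' → (Yn b ∩ Yn b').card ≤ κ) (hκσ : κ ≤ 2 * σ)
    (hdeg : ∀ v, dg M v ≤ t) (hst : 2 * s ≤ t) (hn : 6 * s < n) (hσ : 2 * σ ≤ s)
    (A B : Finset (ZMod n)) (hA : A.Nonempty) (hB : B.Nonempty)
    (hAB : ∀ x ∈ A, ∀ b ∈ B, M.Adj b x) (hle : B.card ≤ A.card) :
    A.card + B.card ≤ t + 1 := by
  by_contra hcon
  obtain ⟨b₀, hb₀⟩ := hB
  by_cases hB1 : B.card ≤ 1
  · have h1 : A ⊆ nb M b₀ := by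
      intro x hx
      rw [mem_nb]
      exact hAB x hx b₀ hb₀
    have h2 := Finset.card_le_card h1
    have h3 : (nb M b₀).card ≤ t := hdeg b₀
    omega
  · push Not at hB1
    obtain ⟨b₁, hb₁, hb₁₀⟩ := Finset.exists_mem_ne hB1 b₀
    have hAs : s + 1 ≤ A.card := by omega
    have step1 : ∀ b ∈ B, ∀ b' ∈ B, b ≠ b' → close (2 * s) b b' := by
      intro b hb b' hb' hne
      obtain ⟨x, hxA, hx⟩ : ∃ x ∈ A, x ∉ Yn b ∪ Yn b' := by
        by_contra hcon'
        push Not at hcon'
        have h1 := Finset.card_le_card (fun x hx => hcon' x hx)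
        have h2 := Finset.card_union_le (Yn b) (Yn b')
        have h3 := hY b
        have h4 := hY b'
        omega
      rw [Finset.mem_union, not_or] at hx
      have h1 : close s b x := by
        rcases hM b x (hAB x hxA b hb) with h | h
        · exact h.1
        · exact absurd h hx.1
      have h2 : close s b' x := by
        rcases hM b' x (hAB x hxA b' hb') with h | h
        · exact h.1
        · exact absurd h hx.2
      have h3 := close_trans h1 (close_symm h2) hne
      have e : s + s = 2 * s := by ring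
      rw [e] at h3
      exact h3
    have hfar' : ∀ b ∈ B, ∀ b' ∈ B, ∀ x ∈ A, close s b x → x ∉ Yn b' := by
      intro b hb b' hb' x hx hc hY'
      by_cases hbb : b' = b
      · subst hbb
        exact hfar _ x hY' (close_mono (by omega) hc)
      · have h1 := step1 b' hb' b hb hbb
        have h2 := close_trans h1 hc (hAB x hx b' hb').ne
        have e : 2 * s + s = 3 * s := by ring
        rw [e] at h2
        exact hfar _ x hY' h2
    let Af : Finset (ZMod n) := A.filter (fun x => x ∈ Yn b₀)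
    let Ab : Finset (ZMod n) := A.filter (fun x => ¬ (x ∈ Yn b₀))
    have hsplit : Af.card + Ab.card = A.card :=
      Finset.card_filter_add_card_filter_not (s := A) (fun x => x ∈ Yn b₀)
    have hAf : Af.card ≤ κ := by
      refine le_trans (Finset.card_le_card ?_) (hκ b₀ b₁ (step1 b₀ hb₀ b₁ hb₁ hb₁₀.symm))
      intro x hx
      rw [Finset.mem_filter] at hx
      rw [Finset.mem_inter]
      refine ⟨hx.2, ?_⟩
      rcases hM b₁ x (hAB x hx.1 b₁ hb₁) with h | h
      · exact absurd hx.2 (hfar' b₁ hb₁ b₀ hb₀ x hx.1 h.1)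
      · exact h
    have hAf' : Af.card ≤ y := by
      refine le_trans (Finset.card_le_card ?_) (hY b₀)
      intro x hx
      exact (Finset.mem_filter.mp hx).2
    have hbase₀ : ∀ x ∈ Ab, close s b₀ x := by
      intro x hx
      rw [Finset.mem_filter] at hx
      rcases hM b₀ x (hAB x hx.1 b₀ hb₀) with h | h
      · exact h.1
      · exact absurd h hx.2
    have hbase : ∀ x ∈ Ab, ∀ b ∈ B, close s b x ∧ ¬ close σ b x := by
      intro x hx b hb
      have hxA := (Finset.mem_filter.mp hx).1
      rcases hM b x (hAB x hxA b hb) with h | h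
      · exact h
      · exact absurd h (hfar' b₀ hb₀ b hb x hxA (hbase₀ x hx))
    -- coordinates
    obtain ⟨o, ho⟩ : ∃ o : ZMod n, o = b₀ - ((3 * s : ℕ) : ZMod n) := ⟨_, rfl⟩
    have hcB : ∀ b ∈ B, ∃ i : ℕ, i ≤ 5 * s ∧ b = o + (i : ZMod n) := by
      intro b hb
      by_cases hbb : b₀ = b
      · refine ⟨3 * s, by omega, ?_⟩
        rw [← hbb, ho]
        ring
      · obtain ⟨i, hi1, hi2, hi⟩ := close_around (e := 3 * s) (by omega)
          (step1 b₀ hb₀ b hb hbb)
        exact ⟨i, by omega, by rw [ho]; exact hi⟩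
    have hcA : ∀ x ∈ Ab, ∃ i : ℕ, i ≤ 5 * s ∧ x = o + (i : ZMod n) := by
      intro x hx
      obtain ⟨i, hi1, hi2, hi⟩ := close_around (e := 3 * s) (by omega) (hbase₀ x hx)
      exact ⟨i, by omega, by rw [ho]; exact hi⟩
    let P : Finset ℕ := (Finset.range (5 * s + 1)).filter (fun i : ℕ => o + (i : ZMod n) ∈ Ab)
    let Q : Finset ℕ := (Finset.range (5 * s + 1)).filter (fun i : ℕ => o + (i : ZMod n) ∈ B)
    have hP : Ab.card ≤ P.card := by
      have h1 : Ab ⊆ P.image (fun i : ℕ => o + (i : ZMod n)) := by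
        intro x hx
        obtain ⟨i, hi, hxi⟩ := hcA x hx
        refine Finset.mem_image.mpr ⟨i, ?_, hxi.symm⟩
        rw [Finset.mem_filter, Finset.mem_range]
        exact ⟨by omega, by rw [← hxi]; exact hx⟩
      exact le_trans (Finset.card_le_card h1) Finset.card_image_le
    have hQ : B.card ≤ Q.card := by
      have h1 : B ⊆ Q.image (fun i : ℕ => o + (i : ZMod n)) := by
        intro x hx
        obtain ⟨i, hi, hxi⟩ := hcB x hx
        refine Finset.mem_image.mpr ⟨i, ?_, hxi.symm⟩
        rw [Finset.mem_filter, Finset.mem_range]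
        exact ⟨by omega, by rw [← hxi]; exact hx⟩
      exact le_trans (Finset.card_le_card h1) Finset.card_image_le
    have hPQ := two_sets P Q s σ hσ (Finset.card_pos.mp (by omega)) (Finset.card_pos.mp (by omega))
      (by
        intro i hi j hj
        rw [Finset.mem_filter, Finset.mem_range] at hi hj
        have h1 := hbase _ hi.2 _ hj.2
        have h2 := close_coord (by omega) (by omega) h1.1
        refine ⟨?_, by omega, by omega⟩
        by_contra h3
        exact h1.2 (coord_close h2.1 (by omega) (by omega)))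
    omega

lemma biclique (M : SimpleGraph (ZMod n)) (Yn : ZMod n → Finset (ZMod n)) (s σ y κ t : ℕ)
    (hM : ∀ v x, M.Adj v x → (close s v x ∧ ¬ close σ v x) ∨ x ∈ Yn v)
    (hfar : ∀ v x, x ∈ Yn v → ¬ close (3 * s) v x)
    (hY : ∀ v, (Yn v).card ≤ y) (hy : 2 * y ≤ s)
    (hκ : ∀ b b', close (2 * s) b b' → (Yn b ∩ Yn b').card ≤ κ) (hκσ : κ ≤ 2 * σ)
    (hdeg : ∀ v, dg M v ≤ t) (hst : 2 * s ≤ t) (hn : 6 * s < n) (hσ : 2 * σ ≤ s)
    (A B : Finset (ZMod n)) (hA : A.Nonempty) (hB : B.Nonempty)
    (hAB : ∀ x ∈ A, ∀ b ∈ B, M.Adj b x) : A.card + B.card ≤ t + 1 := by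
  rcases Nat.le_total B.card A.card with h | h
  · exact biclique_aux M Yn s σ y κ t hM hfar hY hy hκ hκσ hdeg hst hn hσ A B hA hB hAB h
  · have := biclique_aux M Yn s σ y κ t hM hfar hY hy hκ hκσ hdeg hst hn hσ B A hB hA
      (fun x hx b hb => (hAB b hb x hx).symm) h
    omega

/-- The dense construction. -/
theorem dense (G : SimpleGraph (ZMod n)) (S : Finset ℕ) (d k t s s₁ σ a g : ℕ)
    (hkn : n = k + 1 + t) (hs1 : 2 * s ≤ t) (hs2 : t ≤ 2 * s + 1) (hd : ∀ v, dg G v ≤ d)
    (hScard : S.card = s₁) (hSr : ∀ h ∈ S, 3 * s < h ∧ h < 3 * s + 1 + 2 * s₁ + 2 * s)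
    (hSov : ∀ i, 1 ≤ i → i ≤ 2 * s → 4 * (S.filter (fun h => h + i ∈ S)).card ≤ 3 * s₁)
    (hconf : ∀ (v : ZMod n) (T : Finset (ZMod n)),
      (∀ y ∈ T, G.Adj v y ∧ (close s v y ∨ y ∈ JS S v)) → T.card ≤ g)
    (ha : a = g + 2) (hs₁ : 8 * a ≤ s₁) (hs₁' : s₁ ≤ 16 * a) (hσ : σ = s₁ + a)
    (hsa : 70 * a ≤ s) (hn : 40 * s + 5 * d + 6 ≤ n) :
    ∃ H : SimpleGraph (ZMod n), G ≤ H ∧ SepFree H k ∧ ∑ v, dg H v ≤ k * n + 1 := by
  -- the base graph without the edges of `G`
  let M0 : SimpleGraph (ZMod n) :=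
    { Adj := fun x y => ((close s x y ∧ ¬ close σ x y) ∨ y ∈ JS S x) ∧ ¬ G.Adj x y
      symm := ⟨by
        rintro x y ⟨h | h, hG⟩
        · exact ⟨Or.inl ⟨close_symm h.1, fun h' => h.2 (close_symm h')⟩, fun h' => hG h'.symm⟩
        · exact ⟨Or.inr (JS_symm h), fun h' => hG h'.symm⟩⟩
      loopless := ⟨by
        rintro x ⟨h | h, _⟩
        · exact not_close_self (by omega) x h.1
        · rw [mem_JS] at h
          obtain ⟨i, hi, hx⟩ := h
          have h1 := hSr i hi
          have h2 : x + (i : ZMod n) = x + ((0 : ℕ) : ZMod n) := by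
            rw [Nat.cast_zero, add_zero]
            rcases hx with hx | hx <;> exact hx.symm
          have := cast_add_inj (by omega) (by omega) h2
          omega⟩ }
  have hM0 : ∀ x y, M0.Adj x y ↔ ((close s x y ∧ ¬ close σ x y) ∨ y ∈ JS S x) ∧ ¬ G.Adj x y :=
    fun x y => Iff.rfl
  have hJfar : ∀ v x : ZMod n, x ∈ JS S v → ¬ close (3 * s) v x := by
    intro v x hx
    refine JS_not_close S v x (3 * s) (3 * s + 1 + 2 * s₁ + 2 * s) hSr (by omega) hx
  have hJcard : ∀ v : ZMod n, (JS S v).card = 2 * s₁ := by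
    intro v
    rw [card_JS S v (3 * s + 1 + 2 * s₁ + 2 * s) (fun h hh => by have := hSr h hh; omega)
      (by omega), hScard]
  -- degrees of the base graph
  let BF : ZMod n → Finset (ZMod n) := fun v => (ball s v \ ball σ v) ∪ JS S v
  have hBF : ∀ v y, y ∈ BF v ↔ (close s v y ∧ ¬ close σ v y) ∨ y ∈ JS S v := by
    intro v y
    simp only [BF, Finset.mem_union, Finset.mem_sdiff, mem_ball]
  have hBFcard : ∀ v, (BF v).card + 2 * a = 2 * s := by
    intro v
    have h1 : Disjoint (ball s v \ ball σ v) (JS S v) := by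
      rw [Finset.disjoint_left]
      intro y h2 h3
      rw [Finset.mem_sdiff, mem_ball] at h2
      exact hJfar v y h3 (close_mono (by omega) h2.1)
    have h2 : ball σ v ⊆ ball s v := by
      intro y hy
      rw [mem_ball] at hy ⊢
      exact close_mono (by omega) hy
    have h3 := Finset.card_sdiff_add_card_eq_card h2
    rw [card_ball s (by omega), card_ball σ (by omega)] at h3
    simp only [BF]
    rw [Finset.card_union_of_disjoint h1, hJcard]
    omega
  have hM0deg : ∀ v, dg M0 v + (BF v ∩ nb G v).card = (BF v).card := by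
    intro v
    have h1 : dg M0 v = (BF v \ nb G v).card := by
      refine dg_eq_card M0 v _ ?_
      intro y
      rw [Finset.mem_sdiff, hBF, mem_nb, hM0]
    rw [h1, Finset.card_sdiff_add_card_inter]
  have hM0conf : ∀ v, (BF v ∩ nb G v).card ≤ g := by
    intro v
    refine hconf v _ ?_
    intro y hy
    rw [Finset.mem_inter, hBF, mem_nb] at hy
    refine ⟨hy.2, ?_⟩
    rcases hy.1 with h | h
    · exact Or.inl h.1
    · exact Or.inr h
  -- the forbidden graph for the correction
  let F : SimpleGraph (ZMod n) :=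
    { Adj := fun x y => x ≠ y ∧ ((close (3 * s) x y ∨ y ∈ JS S x) ∨ G.Adj x y)
      symm := ⟨by
        rintro x y ⟨hne, (h | h) | h⟩
        · exact ⟨hne.symm, Or.inl (Or.inl (close_symm h))⟩
        · exact ⟨hne.symm, Or.inl (Or.inr (JS_symm h))⟩
        · exact ⟨hne.symm, Or.inr h.symm⟩⟩
      loopless := ⟨fun x h => h.1 rfl⟩ }
  have hFadj : ∀ x y, F.Adj x y ↔ x ≠ y ∧ ((close (3 * s) x y ∨ y ∈ JS S x) ∨ G.Adj x y) :=
    fun x y => Iff.rfl
  have hFdeg : ∀ v, dg F v ≤ 6 * s + 2 * s₁ + d := by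
    intro v
    have h1 : nb F v ⊆ (ball (3 * s) v ∪ JS S v) ∪ nb G v := by
      intro y hy
      rw [mem_nb, hFadj] at hy
      rw [Finset.mem_union, Finset.mem_union, mem_ball, mem_nb]
      exact hy.2
    refine le_trans (Finset.card_le_card h1) ?_
    have h2 := Finset.card_union_le (ball (3 * s) v ∪ JS S v) (nb G v)
    have h3 := Finset.card_union_le (ball (3 * s) v) (JS S v)
    have h4 : (nb G v).card ≤ d := hd v
    rw [card_ball (3 * s) (by omega), hJcard] at h3
    omega
  -- the prescribed degrees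
  let ε : ZMod n → ℕ := fun v => if v = 0 then (t * n) % 2 else 0
  have hε1 : ∀ v, ε v ≤ 1 := by
    intro v
    simp only [ε]
    split_ifs
    · omega
    · omega
  let f : ZMod n → ℕ := fun v => t - ε v - dg M0 v
  have hf : ∀ v, f v + ε v + dg M0 v = t := by
    intro v
    have h1 := hε1 v
    have h2 := hBFcard v
    have h3 := hM0deg v
    simp only [f]
    omega
  have hflow : ∀ v, 2 * a - 1 ≤ f v := by
    intro v
    have h1 := hε1 v
    have h2 := hBFcard v
    have h3 := hM0deg v
    have h4 := hf v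
    omega
  have hfhigh : ∀ v, f v ≤ 2 * a + 1 + g := by
    intro v
    have h1 := hε1 v
    have h2 := hBFcard v
    have h3 := hM0deg v
    have h4 := hf v
    have h5 := hM0conf v
    omega
  have hfeven : Even (∑ v ∈ (univ : Finset (ZMod n)), f v) := by
    have h1 : ∑ v, f v + (t * n) % 2 + ∑ v, dg M0 v = n * t := by
      have h2 : ∑ v : ZMod n, (f v + ε v + dg M0 v) = ∑ _v : ZMod n, t :=
        Finset.sum_congr rfl (fun v _ => hf v)
      rw [Finset.sum_add_distrib, Finset.sum_add_distrib] at h2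
      simp only [ε, Finset.sum_ite_eq', Finset.mem_univ, if_true, Finset.sum_const,
        Finset.card_univ, ZMod.card, smul_eq_mul] at h2
      omega
    obtain ⟨x, hx⟩ := even_sum_dg M0
    rw [hx, Nat.mul_comm n t] at h1
    rw [Nat.even_iff]
    omega
  obtain ⟨Y, _, hYF, hYdeg'⟩ := blockF (univ : Finset (ZMod n)) F f (2 * a - 1) (2 * a + 1 + g)
    (6 * s + 2 * s₁ + d) hFdeg (by omega) (by omega) (fun x _ => hflow x) (fun x _ => hfhigh x)
    (by
      rw [Finset.card_univ, ZMod.card]
      omega) hfeven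
  have hYdeg : ∀ v, dg Y v = f v := fun v => hYdeg' v (Finset.mem_univ v)
  obtain ⟨M, hMdef⟩ : ∃ M, M = M0 ⊔ Y := ⟨_, rfl⟩
  have hMadj : ∀ x y, M.Adj x y ↔ M0.Adj x y ∨ Y.Adj x y := by
    intro x y
    rw [hMdef, SimpleGraph.sup_adj]
  have hMdeg : ∀ v, dg M v + ε v = t := by
    intro v
    rw [hMdef, dg_sup_disjoint, hYdeg]
    · have := hf v
      omega
    · intro y h1 h2
      refine hYF v y h2 ⟨h2.ne, Or.inl ?_⟩
      rcases h1.1 with h | h
      · exact Or.inl (close_mono (by omega) h.1)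
      · exact Or.inr h
  -- no large complete bipartite subgraph
  let Yn : ZMod n → Finset (ZMod n) := fun v => JS S v ∪ nb Y v
  have hYn : ∀ v x, x ∈ Yn v ↔ x ∈ JS S v ∨ Y.Adj v x := by
    intro v x
    simp only [Yn, Finset.mem_union, mem_nb]
  have hYnfar : ∀ v x, x ∈ Yn v → ¬ close (3 * s) v x := by
    intro v x hx
    rw [hYn] at hx
    rcases hx with hx | hx
    · exact hJfar v x hx
    · intro hc
      exact hYF v x hx ⟨hx.ne, Or.inl (Or.inl hc)⟩
  have hYncard : ∀ v, (Yn v).card ≤ 2 * s₁ + (2 * a + 1 + g) := by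
    intro v
    refine le_trans (Finset.card_union_le _ _) ?_
    rw [hJcard]
    have h1 : (nb Y v).card = f v := hYdeg v
    have h2 := hfhigh v
    omega
  have hκ : ∀ b b' : ZMod n, close (2 * s) b b' →
      (Yn b ∩ Yn b').card ≤ 3 * s₁ / 2 + 2 * (2 * a + 1 + g) := by
    have hJi : ∀ b b' : ZMod n, close (2 * s) b b' → (JS S b ∩ JS S b').card ≤ 3 * s₁ / 2 := by
      rintro b b' ⟨i, hi1, hi2, hi | hi⟩
      · rw [hi]
        have h1 := JS_inter S b i (3 * s + 1 + 2 * s₁ + 2 * s) (by omega)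
          (fun h hh => by have := hSr h hh; omega) (by omega)
        have h2 := hSov i hi1 hi2
        omega
      · rw [hi, Finset.inter_comm]
        have h1 := JS_inter S b' i (3 * s + 1 + 2 * s₁ + 2 * s) (by omega)
          (fun h hh => by have := hSr h hh; omega) (by omega)
        have h2 := hSov i hi1 hi2
        omega
    intro b b' hbb
    have h1 : Yn b ∩ Yn b' ⊆ (JS S b ∩ JS S b') ∪ (nb Y b ∪ nb Y b') := by
      intro x hx
      rw [Finset.mem_inter, hYn, hYn] at hx
      rw [Finset.mem_union, Finset.mem_inter, Finset.mem_union, mem_nb, mem_nb]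
      rcases hx.1 with h | h
      · rcases hx.2 with h' | h'
        · exact Or.inl ⟨h, h'⟩
        · exact Or.inr (Or.inr h')
      · exact Or.inr (Or.inl h)
    have h2 := Finset.card_le_card h1
    have h3 := Finset.card_union_le (JS S b ∩ JS S b') (nb Y b ∪ nb Y b')
    have h4 := Finset.card_union_le (nb Y b) (nb Y b')
    have h5 := hJi b b' hbb
    have h6 : (nb Y b).card = f b := hYdeg b
    have h7 : (nb Y b').card = f b' := hYdeg b'
    have h8 := hfhigh b
    have h9 := hfhigh b'
    omega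
  have hbic : ∀ A B : Finset (ZMod n), A.Nonempty → B.Nonempty →
      (∀ x ∈ A, ∀ b ∈ B, M.Adj b x) → A.card + B.card ≤ t + 1 := by
    intro A B hA hB hAB
    refine biclique M Yn s σ (2 * s₁ + (2 * a + 1 + g)) (3 * s₁ / 2 + 2 * (2 * a + 1 + g)) t
      ?_ hYnfar hYncard (by omega) hκ (by omega) ?_ hs1 (by omega) (by omega) A B hA hB hAB
    · intro v x hvx
      rw [hMadj] at hvx
      rw [hYn]
      rcases hvx with h | h
      · rcases h.1 with h' | h'
        · exact Or.inl h'
        · exact Or.inr (Or.inl h')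
      · exact Or.inr (Or.inr h)
    · intro v
      have := hMdeg v
      omega
  refine ⟨Mᶜ, ?_, ?_, ?_⟩
  · intro x y hxy
    rw [SimpleGraph.compl_adj]
    refine ⟨hxy.ne, ?_⟩
    rw [hMadj]
    rintro (h | h)
    · exact h.2 hxy
    · exact hYF x y h ⟨h.ne, Or.inr hxy⟩
  · intro C D X hcov hCD hCX hDX hC hD hXk hno
    have h1 := hbic D C hD hC (by
      intro y hy x hx
      by_contra hnadj
      refine hno x hx y hy ?_
      rw [SimpleGraph.compl_adj]
      refine ⟨?_, hnadj⟩
      rintro rfl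
      exact hCD _ hx hy)
    have h2 : (univ : Finset (ZMod n)) ⊆ (C ∪ D) ∪ X := by
      intro x _
      rw [Finset.mem_union, Finset.mem_union]
      rcases hcov x with h | h | h
      · exact Or.inl (Or.inl h)
      · exact Or.inl (Or.inr h)
      · exact Or.inr h
    have h3 := Finset.card_le_card h2
    rw [Finset.card_univ, ZMod.card] at h3
    have h4 := Finset.card_union_le (C ∪ D) X
    have h5 := Finset.card_union_le C D
    omega
  · have hdeg : ∀ v, dg Mᶜ v = k + ε v := by
      intro v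
      have h1 : nb Mᶜ v = (insert v (nb M v))ᶜ := by
        ext y
        rw [mem_nb, SimpleGraph.compl_adj, Finset.mem_compl, Finset.mem_insert, mem_nb, not_or]
        exact and_congr_left (fun _ => ⟨fun h h' => h h'.symm, fun h h' => h h'.symm⟩)
      have h2 : dg Mᶜ v = n - (dg M v + 1) := by
        unfold dg
        rw [h1, Finset.card_compl, ZMod.card, Finset.card_insert_of_notMem]
        rw [mem_nb]
        exact fun h => h.ne rfl
      have h3 := hMdeg v
      omega
    rw [Finset.sum_congr rfl (fun v _ => hdeg v), Finset.sum_add_distrib]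
    simp only [ε, Finset.sum_ite_eq', Finset.mem_univ, if_true, Finset.sum_const,
      Finset.card_univ, ZMod.card, smul_eq_mul]
    rw [Nat.mul_comm n k]
    omega

end Pool.Agent.BD48
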