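import Mathlib
import Pool.Agent.BD48.Sep
import Pool.Agent.BD48.Tau

/-!
The lower bound from families of disjoint sets.
-/

namespace Pool.Agent.BD48

open Finset

attribute [local instance] Classical.propDecidable

/-- the outer neighbours of a set -/
noncomputable def onb {V : Type*} [Fintype V] (G : SimpleGraph V) (S : Finset V) : Finset V :=
  (S.biUnion (fun z => nb G z)) \ S

/-- families of pairwise disjoint nonempty sets with at most `n - k` elements -/
def Fam {V : Type*} [Fintype V] (k : ℕ) (F : Finset (Finset V)) : Prop :=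
  (∀ X ∈ F, X.Nonempty ∧ X.card + k ≤ Fintype.card V) ∧
    ∀ X ∈ F, ∀ Y ∈ F, X ≠ Y → Disjoint X Y

/-- the value of a family -/
noncomputable def val {V : Type*} [Fintype V] (G : SimpleGraph V) (k : ℕ)
    (F : Finset (Finset V)) : ℕ := ∑ X ∈ F, (k - (onb G X).card)

variable {V : Type*} [Fintype V]

lemma mem_onb {G : SimpleGraph V} {S : Finset V} {y : V} :
    y ∈ onb G S ↔ (∃ x ∈ S, G.Adj x y) ∧ y ∉ S := by
  unfold onb
  rw [mem_sdiff, mem_biUnion]
  constructor
  · rintro ⟨⟨x, hx, h⟩, h2⟩
    exact ⟨⟨x, hx, mem_nb.mp h⟩, h2⟩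
  · rintro ⟨⟨x, hx, h⟩, h2⟩
    exact ⟨⟨x, hx, mem_nb.mpr h⟩, h2⟩

lemma onb_singleton (G : SimpleGraph V) (v : V) : onb G {v} = nb G v := by
  ext y
  rw [mem_onb, mem_nb]
  constructor
  · rintro ⟨⟨x, hx, h⟩, -⟩
    rw [mem_singleton] at hx
    rw [← hx]
    exact h
  · intro h
    exact ⟨⟨v, mem_singleton_self v, h⟩, fun h2 => h.ne' (mem_singleton.mp h2)⟩

/-- the bound for one set -/
lemma fam_one (G H : SimpleGraph V) (hGH : G ≤ H) (k : ℕ) (hsep : SepFree H k) (X : Finset V)
    (hX : X.Nonempty) (hXk : X.card + k ≤ Fintype.card V) :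
    k - (onb G X).card ≤ ∑ x ∈ X, (dg H x - dg G x) := by
  have hk : k ≤ (onb H X).card := by
    by_contra hc
    have hc' : (onb H X).card + 1 ≤ k := by omega
    have hcard : (X ∪ onb H X).card < Fintype.card V := by
      have := card_union_le X (onb H X)
      omega
    have hDne : (univ \ (X ∪ onb H X)).Nonempty := by
      rw [← card_pos, card_sdiff_of_subset (subset_univ _), card_univ]
      omega
    refine hsep X (univ \ (X ∪ onb H X)) (onb H X) ?_ ?_ ?_ ?_ hX hDne hc' ?_
    · intro z
      by_cases h1 : z ∈ X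
      · exact Or.inl h1
      · by_cases h2 : z ∈ onb H X
        · exact Or.inr (Or.inr h2)
        · refine Or.inr (Or.inl ?_)
          rw [mem_sdiff, mem_union]
          exact ⟨mem_univ _, fun h => h.elim h1 h2⟩
    · intro z hz hzD
      rw [mem_sdiff, mem_union] at hzD
      exact hzD.2 (Or.inl hz)
    · intro z hz hzO
      exact (mem_onb.mp hzO).2 hz
    · intro z hzD hzO
      rw [mem_sdiff, mem_union] at hzD
      exact hzD.2 (Or.inr hzO)
    · intro x hx y hy hadj
      rw [mem_sdiff, mem_union] at hy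
      exact hy.2 (Or.inr (mem_onb.mpr ⟨⟨x, hx, hadj⟩, fun h => hy.2 (Or.inl h)⟩))
  have h1 : k - (onb G X).card ≤ (onb H X \ onb G X).card := by
    have := le_card_sdiff (onb G X) (onb H X)
    omega
  have h2 : onb H X \ onb G X ⊆ X.biUnion (fun x => nb H x \ nb G x) := by
    intro y hy
    rw [mem_sdiff, mem_onb] at hy
    obtain ⟨⟨⟨x, hx, hadj⟩, hyX⟩, hn⟩ := hy
    rw [mem_biUnion]
    refine ⟨x, hx, ?_⟩
    rw [mem_sdiff]
    exact ⟨mem_nb.mpr hadj, fun h => hn (mem_onb.mpr ⟨⟨x, hx, mem_nb.mp h⟩, hyX⟩)⟩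
  refine h1.trans ((card_le_card h2).trans (card_biUnion_le.trans (le_of_eq ?_)))
  refine sum_congr rfl (fun x _ => ?_)
  exact card_sdiff_of_subset (fun w hw => mem_nb.mpr (hGH (mem_nb.mp hw)))

/-- the lower bound -/
theorem fam_lower (G H : SimpleGraph V) (hGH : G ≤ H) (k : ℕ) (hsep : SepFree H k)
    (F : Finset (Finset V)) (hF : Fam k F) :
    val G k F + ∑ v, dg G v ≤ ∑ v, dg H v := by
  have h1 : val G k F ≤ ∑ X ∈ F, ∑ x ∈ X, (dg H x - dg G x) :=
    sum_le_sum (fun X hX => fam_one G H hGH k hsep X (hF.1 X hX).1 (hF.1 X hX).2)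
  have h2 : ∑ X ∈ F, ∑ x ∈ X, (dg H x - dg G x) = ∑ x ∈ F.biUnion id, (dg H x - dg G x) := by
    rw [sum_biUnion]
    · rfl
    · intro X hX Y hY hXY
      exact hF.2 X hX Y hY hXY
  have h3 : ∑ x ∈ F.biUnion id, (dg H x - dg G x) ≤ ∑ v, (dg H v - dg G v) :=
    sum_le_sum_of_subset (subset_univ _)
  have h4 : ∑ v, (dg H v - dg G v) + ∑ v, dg G v = ∑ v, dg H v := by
    rw [← sum_add_distrib]
    refine sum_congr rfl (fun v _ => ?_)
    have : dg G v ≤ dg H v := card_le_card (fun w hw => mem_nb.mpr (hGH (mem_nb.mp hw)))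
    omega
  omega

/-- singletons and one pair of twins -/
theorem fam_tau (G : SimpleGraph V) (k : ℕ) (hn : k + 2 ≤ Fintype.card V)
    (hbig : 7 * Fintype.card V < 10 * k)
    (hgiant : (univ.filter (fun v => 7 * Fintype.card V < 10 * dg G v)).card ≤ 2) :
    ∃ F : Finset (Finset V), Fam k F ∧ ∑ v, (k - dg G v) + tau G k ≤ val G k F := by
  have hsinj : ∀ T : Finset V, Set.InjOn (fun v : V => ({v} : Finset V)) (T : Set V) :=
    fun T a _ b _ h => singleton_injective h
  by_cases h0 : tau G k = 0
  · refine ⟨univ.image (fun v => {v}), ⟨?_, ?_⟩, ?_⟩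
    · intro X hX
      obtain ⟨v, -, rfl⟩ := mem_image.mp hX
      exact ⟨singleton_nonempty v, by rw [card_singleton]; omega⟩
    · intro X hX Y hY hXY
      obtain ⟨v, -, rfl⟩ := mem_image.mp hX
      obtain ⟨w, -, rfl⟩ := mem_image.mp hY
      rw [disjoint_singleton]
      intro h
      exact hXY (by rw [h])
    · unfold val
      rw [h0, sum_image (hsinj univ)]
      refine le_of_eq (sum_congr rfl (fun v _ => ?_))
      rw [onb_singleton]
      rfl
  · -- a pair of twins
    have hne : {e : Sym2 V | ∃ x y, e = s(x, y) ∧ TwinK G k x y}.Nonempty := by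
      rw [Set.nonempty_iff_ne_empty]
      intro he
      apply h0
      unfold tau
      rw [he, Set.ncard_empty]
    obtain ⟨e, x, y, rfl, hxy⟩ := hne
    have hne' : x ≠ y := hxy.1.ne
    have hg : ∀ v, dg G v = k → v ∈ univ.filter (fun v => 7 * Fintype.card V < 10 * dg G v) := by
      intro v hv
      rw [mem_filter, hv]
      exact ⟨mem_univ _, hbig⟩
    have hgi : ∀ v, dg G v = k → v = x ∨ v = y := by
      have h1 : ({x, y} : Finset V) ⊆ univ.filter (fun v => 7 * Fintype.card V < 10 * dg G v) := by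
        intro v hv
        rw [mem_insert, mem_singleton] at hv
        rcases hv with rfl | rfl
        · exact hg v hxy.2.1
        · exact hg v hxy.2.2.1
      have h2 := eq_of_subset_of_card_le h1 (by rw [card_pair hne']; exact hgiant)
      intro v hv
      have h3 := hg v hv
      rw [← h2, mem_insert, mem_singleton] at h3
      exact h3
    have htau : tau G k ≤ 1 := by
      unfold tau
      refine (Set.ncard_le_ncard (t := {s(x, y)}) ?_ (Set.toFinite _)).trans (le_of_eq (Set.ncard_singleton _))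
      rintro e ⟨a, b, rfl, hab⟩
      rw [Set.mem_singleton_iff]
      have hne2 : a ≠ b := hab.1.ne
      rcases hgi a hab.2.1 with h1 | h1 <;> rcases hgi b hab.2.2.1 with h2 | h2
      · exact (hne2 (h1.trans h2.symm)).elim
      · rw [h1, h2]
      · rw [h1, h2]
        exact Sym2.eq_swap
      · exact (hne2 (h1.trans h2.symm)).elim
    have hk0 : 1 ≤ k := by omega
    have hsplit : ∀ X ∈ insert ({x, y} : Finset V) ((univ \ {x, y}).image (fun v : V => ({v} : Finset V))),
        X = {x, y} ∨ ∃ v, v ≠ x ∧ v ≠ y ∧ X = {v} := by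
      intro X hX
      rw [mem_insert, mem_image] at hX
      rcases hX with h | ⟨v, hv, h⟩
      · exact Or.inl h
      · rw [mem_sdiff, mem_insert, mem_singleton, not_or] at hv
        exact Or.inr ⟨v, hv.2.1, hv.2.2, h.symm⟩
    refine ⟨insert ({x, y} : Finset V) ((univ \ {x, y}).image (fun v : V => ({v} : Finset V))), ⟨?_, ?_⟩, ?_⟩
    · intro X hX
      rcases hsplit X hX with rfl | ⟨v, -, -, rfl⟩
      · refine ⟨⟨x, mem_insert_self _ _⟩, ?_⟩
        rw [card_pair hne']
        omega
      · exact ⟨singleton_nonempty v, by rw [card_singleton]; omega⟩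
    · intro X hX Y hY hXY
      rcases hsplit X hX with rfl | ⟨v, hv1, hv2, rfl⟩
      · rcases hsplit Y hY with rfl | ⟨w, hw1, hw2, rfl⟩
        · exact (hXY rfl).elim
        · rw [disjoint_singleton_right, mem_insert, mem_singleton, not_or]
          exact ⟨hw1, hw2⟩
      · rcases hsplit Y hY with rfl | ⟨w, hw1, hw2, rfl⟩
        · rw [disjoint_singleton_left, mem_insert, mem_singleton, not_or]
          exact ⟨hv1, hv2⟩
        · rw [disjoint_singleton]
          intro h
          exact hXY (by rw [h])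
    · have hnot : ({x, y} : Finset V) ∉ (univ \ {x, y}).image (fun v => ({v} : Finset V)) := by
        intro h
        obtain ⟨v, -, hv⟩ := mem_image.mp h
        have h1 := congrArg card hv
        rw [card_singleton, card_pair hne'] at h1
        omega
      unfold val
      rw [sum_insert hnot, sum_image (hsinj _)]
      have h1 : ∑ v, (k - dg G v) = ∑ v ∈ univ \ {x, y}, (k - dg G v) := by
        have h2 := sum_sdiff (f := fun v => k - dg G v) (subset_univ ({x, y} : Finset V))
        rw [sum_pair hne', hxy.2.1, hxy.2.2.1, Nat.sub_self] at h2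
        omega
      have h2 : ∑ v ∈ univ \ {x, y}, (k - (onb G {v}).card) = ∑ v ∈ univ \ {x, y}, (k - dg G v) :=
        sum_congr rfl (fun v _ => by rw [onb_singleton]; rfl)
      have h3 : (onb G {x, y}).card ≤ k - 1 := by
        have hsub : onb G {x, y} ⊆ (nb G x).erase y := by
          intro w hw
          rw [mem_onb] at hw
          obtain ⟨⟨z, hz, hadj⟩, hwn⟩ := hw
          rw [mem_insert, mem_singleton, not_or] at hwn
          rw [mem_erase]
          refine ⟨hwn.2, mem_nb.mpr ?_⟩
          rw [mem_insert, mem_singleton] at hz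
          rcases hz with rfl | rfl
          · exact hadj
          · exact (hxy.2.2.2 w hwn.1 hwn.2).mpr hadj
        refine (card_le_card hsub).trans (le_of_eq ?_)
        rw [card_erase_of_mem (mem_nb.mpr hxy.1)]
        have : (nb G x).card = k := hxy.2.1
        omega
      omega

end Pool.Agent.BD48
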