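import Mathlib
import Pool.Agent.BD48.Fam

/-!
Families of disjoint sets and demands at the vertices.
-/

namespace Pool.Agent.BD48

open Finset

attribute [local instance] Classical.propDecidable

variable {V : Type*} [Fintype V]

/-- the value of a family is at most the sum of the demands -/
theorem fam_le (G : SimpleGraph V) (k : ℕ) (r : V → ℕ)
    (hP : ∀ S : Finset V, S.Nonempty → S.card + k ≤ Fintype.card V →
      k ≤ (onb G S).card + ∑ v ∈ S, r v) (F : Finset (Finset V)) (hF : Fam k F) :
    val G k F ≤ ∑ v, r v := by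
  have h1 : val G k F ≤ ∑ X ∈ F, ∑ v ∈ X, r v := by
    unfold val
    refine Finset.sum_le_sum (fun X hX => ?_)
    have h2 := hP X (hF.1 X hX).1 (hF.1 X hX).2
    omega
  have h2 : ∑ X ∈ F, ∑ v ∈ X, r v = ∑ v ∈ F.biUnion id, r v := by
    rw [Finset.sum_biUnion]
    · rfl
    · intro X hX Y hY hXY
      exact hF.2 X hX Y hY hXY
  rw [h2] at h1
  exact le_trans h1 (Finset.sum_le_sum_of_subset (Finset.subset_univ _))

/-- a family of greatest value -/
theorem exists_max_fam (G : SimpleGraph V) (k : ℕ) :
    ∃ F : Finset (Finset V), Fam k F ∧ ∀ F', Fam k F' → val G k F' ≤ val G k F := by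
  have h0 : Fam k (∅ : Finset (Finset V)) := by
    constructor
    · intro X hX
      simp at hX
    · intro X hX
      simp at hX
  obtain ⟨F, hF, hmax⟩ := Finset.exists_max_image
    ((univ : Finset (Finset (Finset V))).filter (fun F => Fam k F)) (fun F => val G k F)
    ⟨∅, Finset.mem_filter.mpr ⟨Finset.mem_univ _, h0⟩⟩
  refine ⟨F, (Finset.mem_filter.mp hF).2, ?_⟩
  intro F' hF'
  exact hmax F' (Finset.mem_filter.mpr ⟨Finset.mem_univ _, hF'⟩)

/-- the singletons -/
theorem fam_single (G : SimpleGraph V) (k : ℕ) (hn : k + 1 ≤ Fintype.card V) :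
    ∃ F : Finset (Finset V), Fam k F ∧ ∑ v, (k - dg G v) ≤ val G k F := by
  have hinj : Function.Injective (fun v : V => ({v} : Finset V)) := Finset.singleton_injective
  refine ⟨univ.image (fun v : V => ({v} : Finset V)), ⟨?_, ?_⟩, ?_⟩
  · intro X hX
    obtain ⟨v, _, rfl⟩ := Finset.mem_image.mp hX
    refine ⟨Finset.singleton_nonempty v, ?_⟩
    rw [Finset.card_singleton]
    omega
  · intro X hX Y hY hXY
    obtain ⟨v, _, rfl⟩ := Finset.mem_image.mp hX
    obtain ⟨w, _, rfl⟩ := Finset.mem_image.mp hY
    rw [Finset.disjoint_singleton]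
    rintro rfl
    exact hXY rfl
  · unfold val
    rw [Finset.sum_image (fun a _ b _ h => hinj h)]
    refine Finset.sum_le_sum (fun v _ => ?_)
    have h1 : (onb G {v}).card ≤ dg G v := by
      unfold dg
      refine Finset.card_le_card ?_
      intro w hw
      unfold onb at hw
      rw [Finset.mem_sdiff, Finset.mem_biUnion] at hw
      obtain ⟨⟨z, hz, hzw⟩, _⟩ := hw
      rw [Finset.mem_singleton] at hz
      rw [hz] at hzw
      exact hzw
    omega

end Pool.Agent.BD48
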