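import Mathlib

/-!
Choosing sets with prescribed numbers of elements and small loads.
-/

namespace Pool.Agent.BD48

open Finset

attribute [local instance] Classical.propDecidable

/-- the number of the saturated elements -/
lemma greedy_sat {Y W : Type*} [Fintype W] (Z : Finset Y) (A : Y → ℕ → Finset W) (q : Y → ℕ → ℕ)
    (l sat : ℕ) (hl : 0 < l) (N : Y → Finset W) (h1 : ∀ z ∈ Z, ∀ w ∈ N z, ∃ j < 4, w ∈ A z j)
    (h2 : ∀ z ∈ Z, ∀ j < 4, (N z ∩ A z j).card = q z j)
    (htot : ∑ z ∈ Z, ∑ j ∈ range 4, q z j ≤ l * sat) :
    (univ.filter (fun w => l ≤ (Z.filter (fun z => w ∈ N z)).card)).card ≤ sat := by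
  set S : Finset W := univ.filter (fun w => l ≤ (Z.filter (fun z => w ∈ N z)).card) with hS
  have e1 : l * S.card ≤ ∑ w, (Z.filter (fun z => w ∈ N z)).card := by
    calc l * S.card = ∑ _w ∈ S, l := by rw [Finset.sum_const, smul_eq_mul, mul_comm]
      _ ≤ ∑ w ∈ S, (Z.filter (fun z => w ∈ N z)).card :=
          Finset.sum_le_sum fun w hw => (Finset.mem_filter.mp hw).2
      _ ≤ ∑ w, (Z.filter (fun z => w ∈ N z)).card :=
          Finset.sum_le_sum_of_subset (Finset.subset_univ S)
  have e2 : ∑ w, (Z.filter (fun z => w ∈ N z)).card = ∑ z ∈ Z, (N z).card := by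
    have e3 : ∀ w, (Z.filter (fun z => w ∈ N z)).card = ∑ z ∈ Z, if w ∈ N z then 1 else 0 := by
      intro w
      rw [Finset.card_filter]
    rw [Finset.sum_congr rfl fun w _ => e3 w, Finset.sum_comm]
    refine Finset.sum_congr rfl fun z _ => ?_
    rw [← Finset.card_filter]
    congr 1
    ext w
    simp
  have e3 : ∀ z ∈ Z, (N z).card ≤ ∑ j ∈ range 4, q z j := by
    intro z hz
    have e4 : N z ⊆ (range 4).biUnion (fun j => N z ∩ A z j) := by
      intro w hw
      obtain ⟨j, hj, hwj⟩ := h1 z hz w hw
      rw [Finset.mem_biUnion]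
      exact ⟨j, Finset.mem_range.mpr hj, Finset.mem_inter.mpr ⟨hw, hwj⟩⟩
    refine (Finset.card_le_card e4).trans (Finset.card_biUnion_le.trans ?_)
    refine Finset.sum_le_sum fun j hj => ?_
    rw [h2 z hz j (Finset.mem_range.mp hj)]
  have e4 : l * S.card ≤ l * sat := by
    rw [e2] at e1
    exact e1.trans ((Finset.sum_le_sum e3).trans htot)
  exact Nat.le_of_mul_le_mul_left e4 hl

/-- For every `z` in a finite set `Z` and every `j < 4` a number `q z j` of elements of `A z j` is
prescribed (the sets `A z j`, `j < 4`, being disjoint). If there are always `sat` more elements than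
needed and the total number of elements is at most `l * sat`, then one can choose the sets so that
every element is chosen at most `l` times. -/
theorem greedy {Y W : Type*} [Fintype W] (Z : Finset Y) (A : Y → ℕ → Finset W) (q : Y → ℕ → ℕ)
    (l sat : ℕ) (hdis : ∀ z ∈ Z, ∀ i < 4, ∀ j < 4, i ≠ j → Disjoint (A z i) (A z j))
    (hq : ∀ z ∈ Z, ∀ j < 4, q z j + sat ≤ (A z j).card)
    (htot : ∑ z ∈ Z, ∑ j ∈ range 4, q z j ≤ l * sat) :
    ∃ N : Y → Finset W, (∀ z ∈ Z, ∀ w ∈ N z, ∃ j < 4, w ∈ A z j) ∧
      (∀ z ∈ Z, ∀ j < 4, (N z ∩ A z j).card = q z j) ∧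
      ∀ w, (Z.filter (fun z => w ∈ N z)).card ≤ l := by
  rcases Nat.eq_zero_or_pos l with hl | hl
  · rw [hl, zero_mul, Nat.le_zero, Finset.sum_eq_zero_iff] at htot
    refine ⟨fun _ => ∅, ?_, ?_, ?_⟩
    · intro z _ w hw
      simp at hw
    · intro z hz j hj
      have h1 := htot z hz
      rw [Finset.sum_eq_zero_iff] at h1
      have h2 := h1 j (Finset.mem_range.mpr hj)
      rw [h2]
      simp
    · intro w
      simp
  · induction Z using Finset.induction_on with
    | empty =>
      refine ⟨fun _ => ∅, ?_, ?_, ?_⟩
      · intro z hz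
        simp at hz
      · intro z hz
        simp at hz
      · intro w
        simp
    | insert z0 Z hz0 ih =>
      rw [Finset.sum_insert hz0] at htot
      have htot' : ∑ z ∈ Z, ∑ j ∈ range 4, q z j ≤ l * sat := by omega
      obtain ⟨N, h1, h2, h3⟩ := ih (fun z hz => hdis z (Finset.mem_insert_of_mem hz))
        (fun z hz => hq z (Finset.mem_insert_of_mem hz)) htot'
      have hs := greedy_sat Z A q l sat hl N h1 h2 htot'
      set S : Finset W := univ.filter (fun w => l ≤ (Z.filter (fun z => w ∈ N z)).card) with hS
      have hB : ∀ j, ∃ B : Finset W, B ⊆ A z0 j \ S ∧ (j < 4 → B.card = q z0 j) := by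
        intro j
        by_cases hj : j < 4
        · have h4 : q z0 j ≤ (A z0 j \ S).card := by
            have h5 := hq z0 (Finset.mem_insert_self z0 Z) j hj
            have h6 := Finset.le_card_sdiff S (A z0 j)
            omega
          obtain ⟨B, hB1, hB2⟩ := Finset.exists_subset_card_eq h4
          exact ⟨B, hB1, fun _ => hB2⟩
        · exact ⟨∅, Finset.empty_subset _, fun h => absurd h hj⟩
      choose B hB1 hB2 using hB
      have hN0 : ∀ j < 4, (range 4).biUnion B ∩ A z0 j = B j := by
        intro j hj
        ext w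
        rw [Finset.mem_inter, Finset.mem_biUnion]
        constructor
        · rintro ⟨⟨i, hi, hwi⟩, hwj⟩
          by_cases hij : i = j
          · rw [← hij]
            exact hwi
          · exfalso
            have h4 := hdis z0 (Finset.mem_insert_self z0 Z) i (Finset.mem_range.mp hi) j hj hij
            exact Finset.disjoint_left.mp h4 (Finset.mem_sdiff.mp (hB1 i hwi)).1 hwj
        · intro hw
          exact ⟨⟨j, Finset.mem_range.mpr hj, hw⟩, (Finset.mem_sdiff.mp (hB1 j hw)).1⟩
      refine ⟨Function.update N z0 ((range 4).biUnion B), ?_, ?_, ?_⟩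
      · intro z hz w hw
        by_cases hzz : z = z0
        · rw [hzz] at hw ⊢
          rw [Function.update_self, Finset.mem_biUnion] at hw
          obtain ⟨j, hj, hwj⟩ := hw
          exact ⟨j, Finset.mem_range.mp hj, (Finset.mem_sdiff.mp (hB1 j hwj)).1⟩
        · rw [Function.update_of_ne hzz] at hw
          exact h1 z ((Finset.mem_insert.mp hz).resolve_left hzz) w hw
      · intro z hz j hj
        by_cases hzz : z = z0
        · rw [hzz, Function.update_self, hN0 j hj]
          exact hB2 j hj
        · rw [Function.update_of_ne hzz]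
          exact h2 z ((Finset.mem_insert.mp hz).resolve_left hzz) j hj
      · intro w
        have h4 : (Z.filter (fun z => w ∈ Function.update N z0 ((range 4).biUnion B) z)) =
            Z.filter (fun z => w ∈ N z) := by
          refine Finset.filter_congr fun z hz => ?_
          rw [Function.update_of_ne]
          rintro rfl
          exact hz0 hz
        rw [Finset.filter_insert, Function.update_self, h4]
        split_ifs with h5
        · refine (Finset.card_insert_le _ _).trans ?_
          rw [Finset.mem_biUnion] at h5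
          obtain ⟨j, _, hwj⟩ := h5
          have h6 := (Finset.mem_sdiff.mp (hB1 j hwj)).2
          rw [hS, Finset.mem_filter, not_and, not_le] at h6
          exact h6 (Finset.mem_univ w)
        · exact h3 w

end Pool.Agent.BD48
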