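import Mathlib

/-!
Arithmetic of the switching ratios.
-/

namespace Pool.Agent.BD48

/-- the ratio of consecutive codegree counts is at most `(E - 1) / E` near `t / 2` -/
theorem num_decay (E t s j : ℕ) (hE : 3 ≤ E) (hs : 3 * t ≤ E * s) (hj : 2 * E * t ≤ 4 * E * j + t) :
    E * ((t - j) * (t - j)) ≤ (E - 1) * ((j + 1) * (s + j)) := by
  rcases le_total t j with htj | htj
  · rw [Nat.sub_eq_zero_of_le htj]
    simp
  obtain ⟨x, rfl⟩ := Nat.exists_eq_add_of_le htj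
  obtain ⟨e, rfl⟩ := Nat.exists_eq_add_of_le hE
  rw [Nat.add_sub_cancel_left, show 3 + e - 1 = e + 2 by omega]
  -- integers
  zify at hs hj ⊢
  have he : (0 : ℤ) ≤ (e : ℤ) := Int.natCast_nonneg e
  have hj0 : (0 : ℤ) ≤ (j : ℤ) := Int.natCast_nonneg j
  have hx0 : (0 : ℤ) ≤ (x : ℤ) := Int.natCast_nonneg x
  have hs0 : (0 : ℤ) ≤ (s : ℤ) := Int.natCast_nonneg s
  generalize (e : ℤ) = e at *
  generalize (j : ℤ) = j at *
  generalize (x : ℤ) = x at *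
  generalize (s : ℤ) = s at *
  obtain ⟨E, hEe⟩ : ∃ E : ℤ, E = 3 + e := ⟨_, rfl⟩
  have hE3 : 3 ≤ E := by omega
  rw [← hEe] at hs hj ⊢
  have e2 : e + 2 = E - 1 := by omega
  rw [e2]
  have h1 : (2 * E - 1) * x ≤ (2 * E + 1) * j := by nlinarith
  have h2 : 3 * (j + x) ≤ E * s := hs
  have hcx : 0 ≤ 2 * E ^ 3 - 5 * E ^ 2 + 9 * E - 3 := by nlinarith [mul_nonneg (sub_nonneg.mpr hE3) (sub_nonneg.mpr hE3), sq_nonneg (E - 3), pow_pos (show (0:ℤ) < E by omega) 2]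
  have hc2 : 0 ≤ 12 * E ^ 3 - 32 * E ^ 2 + 11 * E := by nlinarith [mul_nonneg (sub_nonneg.mpr hE3) (sub_nonneg.mpr hE3), sq_nonneg (E - 3), pow_pos (show (0:ℤ) < E by omega) 2]
  have hA : 0 ≤ (2 * E - 1) * (E - 1) * ((E + 3) * j + 3 * x) - E ^ 2 * (2 * E + 1) * x := by
    have h3 : 0 ≤ (2 * E - 1) *
        ((2 * E - 1) * (E - 1) * ((E + 3) * j + 3 * x) - E ^ 2 * (2 * E + 1) * x) := by
      have h4 := mul_le_mul_of_nonneg_left h1 hcx
      have h5 := mul_nonneg hc2 hj0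
      nlinarith [h4, h5]
    have h6 : 0 < 2 * E - 1 := by omega
    exact nonneg_of_mul_nonneg_right h3 h6
  have hB : E ^ 2 * x ^ 2 ≤ (E - 1) * j * ((E + 3) * j + 3 * x) := by
    have h3 := mul_nonneg hj0 hA
    have h4 := mul_le_mul_of_nonneg_left h1 (mul_nonneg (sq_nonneg E) hx0)
    have h5 : 0 ≤ (2 * E - 1) * ((E - 1) * j * ((E + 3) * j + 3 * x) - E ^ 2 * x ^ 2) := by
      nlinarith [h3, h4]
    have h6 : 0 < 2 * E - 1 := by omega
    linarith [nonneg_of_mul_nonneg_right h5 h6]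
  have hC : E * (E * (x * x)) ≤ E * ((E - 1) * (j * (s + j))) := by
    have h3 := mul_le_mul_of_nonneg_left h2 (mul_nonneg (show 0 ≤ E - 1 by omega) hj0)
    nlinarith [h3, hB]
  have hD : E * (x * x) ≤ (E - 1) * (j * (s + j)) := le_of_mul_le_mul_left hC (by omega)
  refine le_trans hD ?_
  have h3 : 0 ≤ (E - 1) * (s + j) := mul_nonneg (by omega) (by omega)
  nlinarith [h3]

/-- the decay beats the number of pairs of vertices -/
theorem num_large (E : ℕ) (hE : 3 ≤ E) : ∃ t₀ : ℕ, ∀ t : ℕ, t₀ ≤ t →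
    (20 * E * t ^ 3) ^ 3 * (E - 1) ^ (t / (4 * E)) < E ^ (t / (4 * E)) := by
  have hE0 : (0 : ℝ) < E := by exact_mod_cast (by omega : 0 < E)
  obtain ⟨C, hC⟩ : ∃ C : ℝ, C = (20 * E * (4 * E) ^ 3) ^ 3 := ⟨_, rfl⟩
  have hC0 : 0 < C := by rw [hC]; positivity
  set r : ℝ := ((E : ℝ) - 1) / E with hr
  have hr0 : 0 < r := by
    rw [hr]
    have : (3 : ℝ) ≤ E := by exact_mod_cast hE
    exact div_pos (by linarith) hE0
  have hr1 : r < 1 := by
    rw [hr, div_lt_one hE0]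
    linarith
  have hlim := tendsto_pow_const_mul_const_pow_of_abs_lt_one 9 (abs_lt.mpr ⟨by linarith, hr1⟩)
  have hev : ∀ᶠ m : ℕ in Filter.atTop, (m : ℝ) ^ 9 * r ^ m < r / C :=
    hlim.eventually_lt_const (div_pos hr0 hC0)
  obtain ⟨m₀, hm₀⟩ := Filter.eventually_atTop.mp hev
  refine ⟨4 * E * m₀, fun t ht => ?_⟩
  set m := t / (4 * E) with hm
  have hmm : m₀ ≤ m := by
    rw [hm, Nat.le_div_iff_mul_le (by omega)]
    linarith [mul_comm (4 * E) m₀]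
  have htm : t < 4 * E * (m + 1) := by
    rw [hm]
    exact Nat.lt_mul_div_succ t (by omega)
  have h1 := hm₀ (m + 1) (by omega)
  have h2 : C * ((m : ℝ) + 1) ^ 9 * r ^ m < 1 := by
    rw [pow_succ r m, lt_div_iff₀ hC0] at h1
    push_cast at h1
    have h3 : (C * ((m : ℝ) + 1) ^ 9 * r ^ m) * r < 1 * r := by nlinarith [h1]
    exact lt_of_mul_lt_mul_right h3 hr0.le
  have h3 : ((20 * E * t ^ 3) ^ 3 : ℝ) ≤ C * ((m : ℝ) + 1) ^ 9 := by
    have h4 : (t : ℝ) ≤ 4 * E * ((m : ℝ) + 1) := by exact_mod_cast htm.le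
    have h5 : C * ((m : ℝ) + 1) ^ 9 = (20 * E * (4 * E * ((m : ℝ) + 1)) ^ 3) ^ 3 := by
      rw [hC]
      ring
    rw [h5]
    gcongr
  have h6 : ((20 * E * t ^ 3) ^ 3 : ℝ) * r ^ m < 1 :=
    lt_of_le_of_lt (mul_le_mul_of_nonneg_right h3 (pow_pos hr0 m).le) h2
  have h7 : ((20 * E * t ^ 3) ^ 3 : ℝ) * ((E : ℝ) - 1) ^ m < (E : ℝ) ^ m := by
    rw [hr, div_pow, ← mul_div_assoc, div_lt_one (pow_pos hE0 m)] at h6
    exact h6
  have h8 : (((20 * E * t ^ 3) ^ 3 * (E - 1) ^ m : ℕ) : ℝ) < ((E ^ m : ℕ) : ℝ) := by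
    push_cast [Nat.cast_sub (show 1 ≤ E by omega)]
    exact h7
  exact_mod_cast h8

end Pool.Agent.BD48
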