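import Mathlib
import Pool.Agent.BD48.Count
import Pool.Agent.BD48.Num

/-!
A graph with given nearly equal degrees, avoiding a forbidden graph, in which no two vertices have more
than about half of their neighbours in common.
-/

namespace Pool.Agent.BD48

open Finset

attribute [local instance] Classical.propDecidable

variable {V : Type*} [Fintype V]

lemma ratio_step (G : SimpleGraph V) (f : V → ℕ) (d t s E j : ℕ) (hE : 3 ≤ E)
    (hd : ∀ v, dg G v ≤ d) (hf : ∀ v, f v ≤ t) (hsum : t * Fintype.card V ≤ ∑ v, f v + 1)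
    (ht : 1 ≤ t) (hn : Fintype.card V = s + 2 * d + 3 * t + 3) (hs : Fintype.card V ≤ E * s)
    (u w : V) (huw : u ≠ w) (hj : 2 * E * t ≤ 4 * E * j + t) :
    E * (Qj G f u w (j + 1)).card ≤ (E - 1) * (Qj G f u w j).card := by
  have h1 := ratio G f d t s j hd hf hsum ht hn u w huw
  have h2 := num_decay E t s j hE (by omega) hj
  have hs0 : 0 < s := by
    rcases Nat.eq_zero_or_pos s with h | h
    · rw [h, Nat.mul_zero] at hs
      omega
    · exact h
  have hpos : 0 < (j + 1) * (s + j) := Nat.mul_pos (by omega) (by omega)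
  refine Nat.le_of_mul_le_mul_right ?_ hpos
  calc E * (Qj G f u w (j + 1)).card * ((j + 1) * (s + j))
      = E * ((Qj G f u w (j + 1)).card * ((j + 1) * (s + j))) := by ring
    _ ≤ E * ((Qj G f u w j).card * ((t - j) * (t - j))) := Nat.mul_le_mul_left _ h1
    _ = (Qj G f u w j).card * (E * ((t - j) * (t - j))) := by ring
    _ ≤ (Qj G f u w j).card * ((E - 1) * ((j + 1) * (s + j))) := Nat.mul_le_mul_left _ h2
    _ = (E - 1) * (Qj G f u w j).card * ((j + 1) * (s + j)) := by ring

lemma ratio_iter (G : SimpleGraph V) (f : V → ℕ) (d t s E : ℕ) (hE : 3 ≤ E)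
    (hd : ∀ v, dg G v ≤ d) (hf : ∀ v, f v ≤ t) (hsum : t * Fintype.card V ≤ ∑ v, f v + 1)
    (ht : 1 ≤ t) (hn : Fintype.card V = s + 2 * d + 3 * t + 3) (hs : Fintype.card V ≤ E * s)
    (u w : V) (huw : u ≠ w) (m : ℕ) : ∀ j, 2 * E * t ≤ 4 * E * j + t →
    E ^ m * (Qj G f u w (j + m)).card ≤ (E - 1) ^ m * (Qj G f u w j).card := by
  induction m with
  | zero =>
    intro j _
    simp
  | succ m ih =>
    intro j hj
    have h1 := ih j hj
    have h2 := ratio_step G f d t s E (j + m) hE hd hf hsum ht hn hs u w huw (by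
      refine le_trans hj ?_
      have : 4 * E * j ≤ 4 * E * (j + m) := Nat.mul_le_mul_left _ (by omega)
      omega)
    calc E ^ (m + 1) * (Qj G f u w (j + (m + 1))).card
        = E ^ m * (E * (Qj G f u w (j + m + 1)).card) := by
          rw [pow_succ, ← Nat.add_assoc]
          ring
      _ ≤ E ^ m * ((E - 1) * (Qj G f u w (j + m)).card) := Nat.mul_le_mul_left _ h2
      _ = (E - 1) * (E ^ m * (Qj G f u w (j + m)).card) := by ring
      _ ≤ (E - 1) * ((E - 1) ^ m * (Qj G f u w j).card) := Nat.mul_le_mul_left _ h1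
      _ = (E - 1) ^ (m + 1) * (Qj G f u w j).card := by
          rw [pow_succ]
          ring

/-- few graphs have a given pair of vertices with many common neighbours -/
lemma bad_pair (G : SimpleGraph V) (f : V → ℕ) (d t s E : ℕ) (hE : 3 ≤ E)
    (hd : ∀ v, dg G v ≤ d) (hf : ∀ v, f v ≤ t) (hsum : t * Fintype.card V ≤ ∑ v, f v + 1)
    (ht : 1 ≤ t) (hn : Fintype.card V = s + 2 * d + 3 * t + 3) (hs : Fintype.card V ≤ E * s)
    (u w : V) (huw : u ≠ w) :
    E ^ (t / (4 * E)) * ((Om G f).filter (fun M => t + 2 ≤ 2 * cod M u w)).card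
      ≤ (t + 1) * ((E - 1) ^ (t / (4 * E)) * (Om G f).card) := by
  have hsub : (Om G f).filter (fun M => t + 2 ≤ 2 * cod M u w)
      ⊆ ((range (t + 1)).filter (fun j => t + 2 ≤ 2 * j)).biUnion (fun j => Qj G f u w j) := by
    intro M hM
    rw [Finset.mem_filter] at hM
    rw [Finset.mem_biUnion]
    refine ⟨cod M u w, ?_, ?_⟩
    · rw [Finset.mem_filter, Finset.mem_range]
      refine ⟨?_, hM.2⟩
      have h1 : cod M u w ≤ dg M u := Finset.card_le_card Finset.inter_subset_left
      have h2 := (mem_Om.mp hM.1).2 u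
      have h3 := hf u
      omega
    · rw [mem_Qj]
      exact ⟨hM.1, rfl⟩
  have hN : 4 * E * (t / (4 * E)) ≤ t := Nat.mul_div_le t (4 * E)
  have hterm : ∀ j ∈ (range (t + 1)).filter (fun j => t + 2 ≤ 2 * j),
      E ^ (t / (4 * E)) * (Qj G f u w j).card ≤ (E - 1) ^ (t / (4 * E)) * (Om G f).card := by
    intro j hj
    rw [Finset.mem_filter] at hj
    have hNj : t / (4 * E) ≤ j := by
      have h2 : 2 * (t / (4 * E)) ≤ 4 * E * (t / (4 * E)) := Nat.mul_le_mul_right _ (by omega)
      have h3 := hj.2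
      generalize t / (4 * E) = N at hN h2 ⊢
      omega
    have h1 := ratio_iter G f d t s E hE hd hf hsum ht hn hs u w huw (t / (4 * E))
      (j - t / (4 * E)) (by
        have e1 : 4 * E * (j - t / (4 * E)) = 4 * E * j - 4 * E * (t / (4 * E)) :=
          Nat.mul_sub _ _ _
        have e2 : 2 * E * (t + 2) ≤ 2 * E * (2 * j) := Nat.mul_le_mul_left _ hj.2
        have e3 : 2 * E * (2 * j) = 4 * E * j := by ring
        have e4 : 2 * E * (t + 2) = 2 * E * t + 4 * E := by ring
        have e5 : 4 * E * (t / (4 * E)) ≤ 4 * E * j := Nat.mul_le_mul_left _ hNj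
        omega)
    rw [Nat.sub_add_cancel hNj] at h1
    refine le_trans h1 (Nat.mul_le_mul_left _ (Finset.card_le_card ?_))
    intro M hM
    exact (mem_Qj.mp hM).1
  calc E ^ (t / (4 * E)) * ((Om G f).filter (fun M => t + 2 ≤ 2 * cod M u w)).card
      ≤ E ^ (t / (4 * E)) * ∑ j ∈ (range (t + 1)).filter (fun j => t + 2 ≤ 2 * j),
          (Qj G f u w j).card := Nat.mul_le_mul_left _
            (le_trans (Finset.card_le_card hsub) Finset.card_biUnion_le)
    _ = ∑ j ∈ (range (t + 1)).filter (fun j => t + 2 ≤ 2 * j),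
          E ^ (t / (4 * E)) * (Qj G f u w j).card := Finset.mul_sum _ _ _
    _ ≤ ∑ _j ∈ (range (t + 1)).filter (fun j => t + 2 ≤ 2 * j),
          (E - 1) ^ (t / (4 * E)) * (Om G f).card := Finset.sum_le_sum hterm
    _ = ((range (t + 1)).filter (fun j => t + 2 ≤ 2 * j)).card *
          ((E - 1) ^ (t / (4 * E)) * (Om G f).card) := by rw [Finset.sum_const, smul_eq_mul]
    _ ≤ (t + 1) * ((E - 1) ^ (t / (4 * E)) * (Om G f).card) := by
        refine Nat.mul_le_mul_right _ ?_
        refine le_trans (Finset.card_filter_le _ _) ?_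
        rw [Finset.card_range]

/-- a graph with small codegrees -/
theorem exists_half (G : SimpleGraph V) (f : V → ℕ) (d t s E : ℕ) (hE : 3 ≤ E)
    (hd : ∀ v, dg G v ≤ d) (hf : ∀ v, f v ≤ t) (hsum : t * Fintype.card V ≤ ∑ v, f v + 1)
    (ht : 1 ≤ t) (hn : Fintype.card V = s + 2 * d + 3 * t + 3) (hs : Fintype.card V ≤ E * s)
    (hne : (Om G f).Nonempty)
    (hnum : Fintype.card V ^ 3 * (E - 1) ^ (t / (4 * E)) < E ^ (t / (4 * E))) :
    ∃ M ∈ Om G f, ∀ u w, u ≠ w → 2 * cod M u w ≤ t + 1 := by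
  by_contra hcon
  push Not at hcon
  have hsub : Om G f ⊆ ((univ : Finset (V × V)).filter (fun p => p.1 ≠ p.2)).biUnion
      (fun p => (Om G f).filter (fun M => t + 2 ≤ 2 * cod M p.1 p.2)) := by
    intro M hM
    obtain ⟨u, w, huw, h⟩ := hcon M hM
    rw [Finset.mem_biUnion]
    refine ⟨(u, w), ?_, ?_⟩
    · rw [Finset.mem_filter]
      exact ⟨Finset.mem_univ _, huw⟩
    · rw [Finset.mem_filter]
      exact ⟨hM, h⟩
  have hpos : 0 < (Om G f).card := Finset.card_pos.mpr hne
  have hcount : E ^ (t / (4 * E)) * (Om G f).card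
      ≤ Fintype.card V ^ 3 * (E - 1) ^ (t / (4 * E)) * (Om G f).card := by
    calc E ^ (t / (4 * E)) * (Om G f).card
        ≤ E ^ (t / (4 * E)) * ∑ p ∈ (univ : Finset (V × V)).filter (fun p => p.1 ≠ p.2),
          ((Om G f).filter (fun M => t + 2 ≤ 2 * cod M p.1 p.2)).card :=
          Nat.mul_le_mul_left _ (le_trans (Finset.card_le_card hsub) Finset.card_biUnion_le)
      _ = ∑ p ∈ (univ : Finset (V × V)).filter (fun p => p.1 ≠ p.2),
          E ^ (t / (4 * E)) * ((Om G f).filter (fun M => t + 2 ≤ 2 * cod M p.1 p.2)).card :=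
          Finset.mul_sum _ _ _
      _ ≤ ∑ _p ∈ (univ : Finset (V × V)).filter (fun p => p.1 ≠ p.2),
          (t + 1) * ((E - 1) ^ (t / (4 * E)) * (Om G f).card) := by
          refine Finset.sum_le_sum (fun p hp => ?_)
          rw [Finset.mem_filter] at hp
          exact bad_pair G f d t s E hE hd hf hsum ht hn hs p.1 p.2 hp.2
      _ = ((univ : Finset (V × V)).filter (fun p => p.1 ≠ p.2)).card *
          ((t + 1) * ((E - 1) ^ (t / (4 * E)) * (Om G f).card)) := by
          rw [Finset.sum_const, smul_eq_mul]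
      _ ≤ (Fintype.card V * Fintype.card V) *
          (Fintype.card V * ((E - 1) ^ (t / (4 * E)) * (Om G f).card)) := by
          refine Nat.mul_le_mul ?_ (Nat.mul_le_mul_right _ (by omega))
          refine le_trans (Finset.card_filter_le _ _) ?_
          rw [Finset.card_univ, Fintype.card_prod]
      _ = Fintype.card V ^ 3 * (E - 1) ^ (t / (4 * E)) * (Om G f).card := by ring
  have := Nat.le_of_mul_le_mul_right hcount hpos
  omega

end Pool.Agent.BD48
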