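import Mathlib
import Pool.Agent.BD48.Half
import Pool.Agent.BD48.C4
import Pool.Agent.BD48.Sep

/-!
Dense `k`-connected supergraphs with the least number of edges of graphs of degree below about one half
of the number of vertices.
-/

namespace Pool.Agent.BD48

open Finset

attribute [local instance] Classical.propDecidable

variable {V : Type*} [Fintype V]

/-- the complement of a graph with small codegrees has no small separation -/
lemma sepFree_compl (M : SimpleGraph V) (t k : ℕ) (ht : ∀ v, dg M v ≤ t)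
    (hn : Fintype.card V = k + 1 + t) (hcod : ∀ u w, u ≠ w → 2 * cod M u w ≤ t + 1) :
    SepFree Mᶜ k := by
  intro C D X hcov hCD hCX hDX hC hD hXk hno
  have hadj : ∀ x ∈ C, ∀ y ∈ D, M.Adj x y := by
    intro x hx y hy
    by_contra hcon
    refine hno x hx y hy ?_
    rw [SimpleGraph.compl_adj]
    refine ⟨?_, hcon⟩
    rintro rfl
    exact hCD x hx hy
  have hcard : t + 2 ≤ C.card + D.card := by
    have h1 : (C ∪ D ∪ X) = univ := by
      rw [Finset.eq_univ_iff_forall]
      intro x
      rcases hcov x with h | h | h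
      · exact Finset.mem_union_left _ (Finset.mem_union_left _ h)
      · exact Finset.mem_union_left _ (Finset.mem_union_right _ h)
      · exact Finset.mem_union_right _ h
    have h2 := Finset.card_union_le (C ∪ D) X
    have h3 := Finset.card_union_le C D
    rw [h1, Finset.card_univ] at h2
    omega
  -- a side with two vertices bounds the other side
  have key : ∀ A B : Finset V, (∀ x ∈ A, ∀ y ∈ B, M.Adj x y) → 2 ≤ A.card →
      2 * B.card ≤ t + 1 := by
    intro A B hAB hA
    obtain ⟨u, hu, w, hw, huw⟩ := Finset.one_lt_card.mp (by omega : 1 < A.card)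
    refine le_trans (Nat.mul_le_mul_left 2 (Finset.card_le_card ?_)) (hcod u w huw)
    intro y hy
    rw [Finset.mem_inter, mem_nb, mem_nb]
    exact ⟨hAB u hu y hy, hAB w hw y hy⟩
  have key1 : ∀ A B : Finset V, (∀ x ∈ A, ∀ y ∈ B, M.Adj x y) → A.Nonempty → B.card ≤ t := by
    intro A B hAB hA
    obtain ⟨u, hu⟩ := hA
    refine le_trans (Finset.card_le_card ?_) (ht u)
    intro y hy
    rw [mem_nb]
    exact hAB u hu y hy
  have hadj' : ∀ x ∈ D, ∀ y ∈ C, M.Adj x y := fun x hx y hy => (hadj y hy x hx).symm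
  have a1 := key1 C D hadj hC
  have a2 := key1 D C hadj' hD
  have a3 : 0 < C.card := Finset.card_pos.mpr hC
  have a4 : 0 < D.card := Finset.card_pos.mpr hD
  by_cases h1 : C.card = 1
  · omega
  · by_cases h2 : D.card = 1
    · omega
    · have a5 := key C D hadj (by omega)
      have a6 := key D C hadj' (by omega)
      omega

/-- the set of graphs with the required degrees is not empty -/
lemma Om_nonempty (G : SimpleGraph V) (f : V → ℕ) (d t : ℕ) (hd : ∀ v, dg G v ≤ d)
    (hf : ∀ v, f v ≤ t) (hsum : t * Fintype.card V ≤ ∑ v, f v + 1) (ht : 1 ≤ t)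
    (heven : Even (∑ v, f v)) (hn : 2 * (t + d + 1) + 2 ≤ Fintype.card V) :
    (Om G f).Nonempty := by
  obtain ⟨Z, _, h2, h3⟩ := blockG univ G f t d hd (fun x _ => hf x) (by
    intro T₁ T₂ h1 h2
    have e1 : ∑ v, f v = ∑ x ∈ univ \ T₁, f x + ∑ x ∈ T₁, f x :=
      (Finset.sum_sdiff (Finset.subset_univ T₁)).symm
    have e2 : ∑ x ∈ T₁, f x ≤ t * T₁.card := by
      refine le_trans (Finset.sum_le_sum (fun x _ => hf x)) ?_
      rw [Finset.sum_const, smul_eq_mul, Nat.mul_comm]
    have e3 : t * T₁.card ≤ t * (t + d + 1) := Nat.mul_le_mul_left _ h1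
    have e4 : T₂.card * t ≤ t * (t + d + 1) := by
      rw [Nat.mul_comm]
      exact Nat.mul_le_mul_left _ h2
    have e5 : t * (2 * (t + d + 1) + 2) ≤ t * Fintype.card V := Nat.mul_le_mul_left _ hn
    have e6 : t * (2 * (t + d + 1) + 2) = t * (t + d + 1) + t * (t + d + 1) + 2 * t := by ring
    omega) heven
  refine ⟨Z, ?_⟩
  rw [mem_Om]
  exact ⟨h2, fun v => h3 v (Finset.mem_univ v)⟩

/-- degree sequences with values `t`, and `t - 1` at most once -/
lemma exists_seq (t : ℕ) (ht : 1 ≤ t) (hV : 1 ≤ Fintype.card V) :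
    ∃ f : V → ℕ, (∀ v, f v ≤ t) ∧ t * Fintype.card V ≤ ∑ v, f v + 1 ∧ Even (∑ v, f v) := by
  rcases Nat.even_or_odd (t * Fintype.card V) with h | h
  · refine ⟨fun _ => t, fun _ => le_refl _, ?_, ?_⟩
    · rw [Finset.sum_const, Finset.card_univ, smul_eq_mul, Nat.mul_comm]
      omega
    · rw [Finset.sum_const, Finset.card_univ, smul_eq_mul, Nat.mul_comm]
      exact h
  · have : Nonempty V := Fintype.card_pos_iff.mp (by omega)
    obtain ⟨v0⟩ := this
    have hsum : ∑ v, (if v = v0 then t - 1 else t) + 1 = t * Fintype.card V := by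
      have h1 : ∑ v, ((if v = v0 then t - 1 else t) + (if v = v0 then 1 else 0)) = ∑ _v : V, t := by
        refine Finset.sum_congr rfl (fun v _ => ?_)
        split_ifs <;> omega
      rw [Finset.sum_add_distrib, Finset.sum_const, Finset.card_univ, smul_eq_mul] at h1
      simp only [Finset.sum_ite_eq', Finset.mem_univ, if_true] at h1
      rw [h1, Nat.mul_comm]
    refine ⟨fun v => if v = v0 then t - 1 else t, ?_, ?_, ?_⟩
    · intro v
      show (if v = v0 then t - 1 else t) ≤ t
      split_ifs <;> omega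
    · show t * Fintype.card V ≤ ∑ v, (if v = v0 then t - 1 else t) + 1
      omega
    · show Even (∑ v, (if v = v0 then t - 1 else t))
      rw [← hsum, Nat.odd_add_one, Nat.not_odd_iff_even] at h
      exact h

/-- the supergraph -/
theorem exists_superH (G : SimpleGraph V) (d k t s : ℕ)
    (hnum : s < 20 * t ^ 3 → ∃ E : ℕ, 3 ≤ E ∧ Fintype.card V ≤ E * s ∧
      Fintype.card V ^ 3 * (E - 1) ^ (t / (4 * E)) < E ^ (t / (4 * E)))
    (hd : ∀ v, dg G v ≤ d) (hn : Fintype.card V = k + 1 + t)
    (hs : Fintype.card V = s + 2 * d + 3 * t + 3) (hs0 : 0 < s) :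
    ∃ H : SimpleGraph V, G ≤ H ∧ SepFree H k ∧ ∑ v, dg H v ≤ k * Fintype.card V + 1 := by
  have hfin : ∀ (M : SimpleGraph V) (f : V → ℕ), (∀ v, f v ≤ t) →
      t * Fintype.card V ≤ ∑ v, f v + 1 → (∀ x y, M.Adj x y → ¬ G.Adj x y) →
      (∀ v, dg M v = f v) → (∀ u w, u ≠ w → 2 * cod M u w ≤ t + 1) →
      ∃ H : SimpleGraph V, G ≤ H ∧ SepFree H k ∧ ∑ v, dg H v ≤ k * Fintype.card V + 1 := by
    intro M f hf hsum hM1 hM2 hM3
    refine ⟨Mᶜ, ?_, ?_, ?_⟩
    · intro x y hxy
      rw [SimpleGraph.compl_adj]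
      exact ⟨hxy.ne, fun h => hM1 x y h hxy⟩
    · exact sepFree_compl M t k (fun v => by rw [hM2 v]; exact hf v) hn hM3
    · have h1 : ∀ v, dg Mᶜ v + dg M v = k + t := by
        intro v
        have e1 : nb Mᶜ v ∪ nb M v = univ.erase v := by
          ext y
          rw [Finset.mem_union, mem_nb, mem_nb, SimpleGraph.compl_adj, Finset.mem_erase]
          constructor
          · rintro (h | h)
            · exact ⟨h.1.symm, Finset.mem_univ _⟩
            · exact ⟨h.ne', Finset.mem_univ _⟩
          · rintro ⟨h, _⟩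
            by_cases h' : M.Adj v y
            · exact Or.inr h'
            · exact Or.inl ⟨h.symm, h'⟩
        have e2 : Disjoint (nb Mᶜ v) (nb M v) := by
          rw [Finset.disjoint_left]
          intro y h3 h4
          rw [mem_nb, SimpleGraph.compl_adj] at h3
          rw [mem_nb] at h4
          exact h3.2 h4
        unfold dg
        rw [← Finset.card_union_of_disjoint e2, e1, Finset.card_erase_of_mem (Finset.mem_univ _),
          Finset.card_univ]
        omega
      have h2 : ∑ v, dg Mᶜ v + ∑ v, dg M v = (k + t) * Fintype.card V := by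
        rw [← Finset.sum_add_distrib, Finset.sum_congr rfl (fun v _ => h1 v), Finset.sum_const,
          Finset.card_univ, smul_eq_mul, Nat.mul_comm]
      have h3 : ∑ v, dg M v = ∑ v, f v := Finset.sum_congr rfl (fun v _ => hM2 v)
      have h4 : (k + t) * Fintype.card V = k * Fintype.card V + t * Fintype.card V := by ring
      omega
  rcases Nat.eq_zero_or_pos t with ht | ht
  · -- `t = 0`
    subst ht
    refine hfin ⊥ (fun _ => 0) (fun _ => le_refl _) (by simp) (fun x y h => absurd h (by simp)) ?_ ?_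
    · intro v
      rw [dg_eq_card ⊥ v ∅ (by simp)]
      simp
    · intro u w _
      have : nb (⊥ : SimpleGraph V) u = ∅ := by
        ext y
        rw [mem_nb]
        simp
      unfold cod
      rw [this, Finset.empty_inter]
      simp
  · obtain ⟨f, hf1, hf2, hf3⟩ := exists_seq (V := V) t ht (by omega)
    have hne := Om_nonempty G f d t hd hf1 hf2 ht hf3 (by omega)
    by_cases hcase : 20 * t ^ 3 ≤ s
    · obtain ⟨M, hM1, hM2, hM3⟩ := exists_c4free G d t hd ht f hf1 hf2 (by
        obtain ⟨M, hM⟩ := hne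
        exact ⟨M, (mem_Om.mp hM).1, (mem_Om.mp hM).2⟩) (by
        have h1 : 2 * (1 + d + t) + 16 * t ^ 3 + 2 ≤ Fintype.card V := by omega
        have h2 : t * (2 * (1 + d + t) + 16 * t ^ 3 + 2) ≤ t * Fintype.card V :=
          Nat.mul_le_mul_left _ h1
        have h3 : t * (2 * (1 + d + t) + 16 * t ^ 3 + 2)
            = 2 * (t * (1 + d + t)) + 16 * t ^ 4 + 2 * t := by ring
        omega)
      refine hfin M f hf1 hf2 hM1 hM2 ?_
      intro u w huw
      have : cod M u w ≤ 1 := hM3 u w huw
      omega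
    · obtain ⟨E, hE, hs', hE2⟩ := hnum (by omega)
      obtain ⟨M, hM1, hM2⟩ := exists_half G f d t s E hE hd hf1 hf2 ht hs hs' hne hE2
      exact hfin M f hf1 hf2 (mem_Om.mp hM1).1 (mem_Om.mp hM1).2 hM2

end Pool.Agent.BD48
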