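import Mathlib
import Pool.Agent.BD48.Half

/-!
The switching theorem with a set `W` of vertices of low degree in the forbidden graph.
-/

namespace Pool.Agent.BD48

open Finset

attribute [local instance] Classical.propDecidable

variable {V : Type*} [Fintype V]

/-- the number of common neighbours in `W` -/
noncomputable def codW (W : Finset V) (M : SimpleGraph V) (u w : V) : ℕ :=
  (nb M u ∩ nb M w ∩ W).card

/-- the graphs in which `u` and `w` have `j` common neighbours in `W` -/
noncomputable def QW (G : SimpleGraph V) (f : V → ℕ) (W : Finset V) (u w : V) (j : ℕ) :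
    Finset (SimpleGraph V) :=
  (Om G f).filter (fun M => codW W M u w = j)

lemma mem_QW {G : SimpleGraph V} {f : V → ℕ} {W : Finset V} {u w : V} {j : ℕ}
    {M : SimpleGraph V} : M ∈ QW G f W u w j ↔ M ∈ Om G f ∧ codW W M u w = j := by
  unfold QW
  rw [Finset.mem_filter]

/-- the ratio, times `t` -/
theorem ratioW_mul (G : SimpleGraph V) (f : V → ℕ) (W : Finset V) (d t s j : ℕ)
    (hd : ∀ v ∈ W, dg G v ≤ d)
    (hf : ∀ v, f v ≤ t) (hsum : t * (s + 2 * d + 3 * t + 3) ≤ ∑ v, f v + 1) (ht : 1 ≤ t)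
    (u w : V) (huW : u ∈ W) (huw : u ≠ w) :
    (QW G f W u w (j + 1)).card * ((j + 1) * (t * (s + j)))
      ≤ (QW G f W u w j).card * ((t - j) * ((t - j) * t)) := by
  let X0 : SimpleGraph V → Finset V := fun M => {u, w} ∪ nb G u ∪ (nb M u ∪ nb M w)
  let Y0 : SimpleGraph V → V → Finset V := fun M v => {v} ∪ nb G v ∪ nb M v
  let P : Finset (Σ _ : SimpleGraph V, Σ _ : V, Σ _ : V, V) :=
    (QW G f W u w (j + 1)).sigma (fun M => (nb M u ∩ nb M w ∩ W).sigma (fun v =>
      (univ \ X0 M).sigma (fun x => nb M x \ Y0 M v)))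
  let R : Finset (Σ _ : SimpleGraph V, Σ _ : V, Σ _ : V, V) :=
    (QW G f W u w j).sigma (fun M => (nb M w \ nb M u).sigma (fun v =>
      (nb M u \ nb M w).sigma (fun _ => nb M v)))
  have hP : (QW G f W u w (j + 1)).card * ((j + 1) * (t * (s + j))) ≤ P.card := by
    rw [Finset.card_sigma, ← smul_eq_mul, ← Finset.sum_const]
    refine Finset.sum_le_sum (fun M hM => ?_)
    obtain ⟨hM1, hM2⟩ := mem_QW.mp hM
    obtain ⟨hM3, hM4⟩ := mem_Om.mp hM1
    rw [Finset.card_sigma]
    have hcard : (nb M u ∩ nb M w ∩ W).card = j + 1 := hM2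
    have hcard' : j + 1 ≤ (nb M u ∩ nb M w).card := by
      rw [← hcard]
      exact Finset.card_le_card Finset.inter_subset_left
    rw [← hcard, ← smul_eq_mul, ← Finset.sum_const]
    refine Finset.sum_le_sum (fun v hv => ?_)
    have hvW : v ∈ W := (Finset.mem_inter.mp hv).2
    rw [Finset.card_sigma]
    have hdeg : ∀ v, dg M v ≤ t := fun v => by rw [hM4 v]; exact hf v
    have h1 := edges_lower M t hdeg (X0 M) (Y0 M v)
    have h2 : ∑ v, dg M v = ∑ v, f v := Finset.sum_congr rfl (fun v _ => hM4 v)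
    have h3 : (X0 M).card + (j + 1) ≤ 2 + d + 2 * t := by
      have e1 := Finset.card_union_le ({u, w} ∪ nb G u) (nb M u ∪ nb M w)
      have e2 := Finset.card_union_le ({u, w} : Finset V) (nb G u)
      have e3 : ({u, w} : Finset V).card ≤ 2 := Finset.card_le_two
      have e4 := Finset.card_union_add_card_inter (nb M u) (nb M w)
      have e5 : (nb G u).card ≤ d := hd u huW
      have e6 : (nb M u).card ≤ t := hdeg u
      have e7 : (nb M w).card ≤ t := hdeg w
      show ({u, w} ∪ nb G u ∪ (nb M u ∪ nb M w)).card + (j + 1) ≤ _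
      omega
    have h4 : (Y0 M v).card ≤ 1 + d + t := by
      have e1 := Finset.card_union_le ({v} ∪ nb G v) (nb M v)
      have e2 := Finset.card_union_le ({v} : Finset V) (nb G v)
      have e3 : ({v} : Finset V).card = 1 := Finset.card_singleton v
      have e5 : (nb G v).card ≤ d := hd v hvW
      have e6 : (nb M v).card ≤ t := hdeg v
      show ({v} ∪ nb G v ∪ nb M v).card ≤ _
      omega
    rw [h2] at h1
    have h5 : t * ((X0 M).card + (j + 1)) ≤ t * (2 + d + 2 * t) := Nat.mul_le_mul_left _ h3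
    have h6 : t * (Y0 M v).card ≤ t * (1 + d + t) := Nat.mul_le_mul_left _ h4
    have h7 : t * (s + 2 * d + 3 * t + 3) + t * j = t * (s + j) + t * (2 + d + 2 * t)
        + t * (1 + d + t) := by ring
    have h8 : t * ((X0 M).card + (j + 1)) = t * (X0 M).card + t * j + t := by ring
    have h9 : t * j ≤ t * (s + j) := Nat.mul_le_mul_left _ (by omega)
    omega
  have hR : R.card ≤ (QW G f W u w j).card * ((t - j) * ((t - j) * t)) := by
    rw [Finset.card_sigma, ← smul_eq_mul, ← Finset.sum_const]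
    refine Finset.sum_le_sum (fun M hM => ?_)
    obtain ⟨hM1, hM2⟩ := mem_QW.mp hM
    obtain ⟨hM3, hM4⟩ := mem_Om.mp hM1
    have hdeg : ∀ v, dg M v ≤ t := fun v => by rw [hM4 v]; exact hf v
    have e6 : (nb M u).card ≤ t := hdeg u
    have e7 : (nb M w).card ≤ t := hdeg w
    have hcard0 : (nb M u ∩ nb M w ∩ W).card = j := hM2
    have hcard : j ≤ (nb M u ∩ nb M w).card := by
      rw [← hcard0]
      exact Finset.card_le_card Finset.inter_subset_left
    rw [Finset.card_sigma]
    have h1 : (nb M w \ nb M u).card ≤ t - j := by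
      have := Finset.card_sdiff_add_card_inter (nb M w) (nb M u)
      rw [Finset.inter_comm] at this
      omega
    have h2 : (nb M u \ nb M w).card ≤ t - j := by
      have := Finset.card_sdiff_add_card_inter (nb M u) (nb M w)
      omega
    have h3 : ∀ v ∈ nb M w \ nb M u,
        ((nb M u \ nb M w).sigma (fun _ => nb M v)).card ≤ (t - j) * t := by
      intro v _
      rw [Finset.card_sigma]
      refine le_trans (Finset.sum_le_sum (fun x _ => hdeg v)) ?_
      rw [Finset.sum_const, smul_eq_mul]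
      exact Nat.mul_le_mul_right _ h2
    refine le_trans (Finset.sum_le_sum h3) ?_
    rw [Finset.sum_const, smul_eq_mul]
    exact Nat.mul_le_mul_right _ h1
  have hinj : P.card ≤ R.card := by
    -- the facts about an element of `P`
    have key : ∀ M v x y, (⟨M, v, x, y⟩ : Σ _ : SimpleGraph V, Σ _ : V, Σ _ : V, V) ∈ P →
        Ok M u v x y ∧ (⟨sw M u v x y, v, x, y⟩ : Σ _ : SimpleGraph V, Σ _ : V, Σ _ : V, V) ∈ R := by
      intro M v x y h
      simp only [P, X0, Y0, Finset.mem_sigma, Finset.mem_inter, Finset.mem_sdiff, Finset.mem_univ,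
        true_and, Finset.mem_union, Finset.mem_insert, Finset.mem_singleton, not_or] at h
      obtain ⟨hM, ⟨⟨hvu, hvw⟩, hvW⟩, ⟨⟨⟨hxu, hxw⟩, hxG⟩, hxMu, hxMw⟩, hy, ⟨hyv, hyG⟩, hyM⟩ := h
      obtain ⟨hM1, hM2⟩ := mem_QW.mp hM
      obtain ⟨hM3, hM4⟩ := mem_Om.mp hM1
      rw [mem_nb] at hvu hvw hxG hxMu hxMw hy hyG hyM
      have hok : Ok M u v x y := ⟨hvu, hy, hxMu, hyM, fun h => hxu h.symm, fun h => hyv h.symm⟩
      have hwy : w ≠ y := by
        rintro rfl
        exact hxMw hy.symm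
      have hnbw : nb (sw M u v x y) w = nb M w :=
        nb_sw_other (Ne.symm huw) hvw.ne (fun h => hxw h.symm) hwy
      have hnbu := nb_sw_u hok
      refine ⟨hok, ?_⟩
      simp only [R, Finset.mem_sigma, Finset.mem_sdiff]
      refine ⟨?_, ⟨?_, ?_⟩, ⟨?_, ?_⟩, ?_⟩
      · rw [mem_QW, mem_Om]
        refine ⟨⟨sw_avoid hM3 hxG hyG, fun v => by rw [dg_sw hok, hM4]⟩, ?_⟩
        unfold codW
        rw [hnbw, hnbu, Finset.insert_inter_of_notMem (by rw [mem_nb]; exact hxMw),
          Finset.erase_inter, Finset.erase_inter, Finset.card_erase_of_mem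
          (Finset.mem_inter.mpr ⟨Finset.mem_inter.mpr ⟨mem_nb.mpr hvu, mem_nb.mpr hvw⟩, hvW⟩)]
        unfold codW at hM2
        omega
      · rw [hnbw, mem_nb]
        exact hvw
      · rw [hnbu, Finset.mem_insert, Finset.mem_erase]
        rintro (h | h)
        · exact hok.vx' h
        · exact h.1 rfl
      · rw [hnbu]
        exact Finset.mem_insert_self _ _
      · rw [hnbw, mem_nb]
        exact hxMw
      · rw [mem_nb, sw_adj]
        exact ⟨hok.vy', Or.inr (Or.inr (Or.inl ⟨rfl, rfl⟩))⟩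
    refine Finset.card_le_card_of_injOn
      (fun p => (⟨sw p.1 u p.2.1 p.2.2.1 p.2.2.2, p.2⟩ :
        Σ _ : SimpleGraph V, Σ _ : V, Σ _ : V, V)) ?_ ?_
    · rintro ⟨M, v, x, y⟩ h
      exact (key M v x y h).2
    · rintro ⟨M, v, x, y⟩ h ⟨M', v', x', y'⟩ h' heq
      have h1 := (key M v x y h).1
      have h2 := (key M' v' x' y' h').1
      simp only [Sigma.mk.injEq, heq_eq_eq] at heq
      obtain ⟨e1, e2, e3, e4⟩ := heq
      subst e2 e3 e4
      have : M = M' := by
        rw [← sw_sw h1, ← sw_sw h2, e1]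
      rw [this]
  exact le_trans hP (le_trans hinj hR)

/-- the ratio -/
theorem ratioW (G : SimpleGraph V) (f : V → ℕ) (W : Finset V) (d t s j : ℕ)
    (hd : ∀ v ∈ W, dg G v ≤ d)
    (hf : ∀ v, f v ≤ t) (hsum : t * (s + 2 * d + 3 * t + 3) ≤ ∑ v, f v + 1) (ht : 1 ≤ t)
    (u w : V) (huW : u ∈ W) (huw : u ≠ w) :
    (QW G f W u w (j + 1)).card * ((j + 1) * (s + j))
      ≤ (QW G f W u w j).card * ((t - j) * (t - j)) := by
  have h := ratioW_mul G f W d t s j hd hf hsum ht u w huW huw
  have h1 : (QW G f W u w (j + 1)).card * ((j + 1) * (t * (s + j)))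
      = t * ((QW G f W u w (j + 1)).card * ((j + 1) * (s + j))) := by ring
  have h2 : (QW G f W u w j).card * ((t - j) * ((t - j) * t))
      = t * ((QW G f W u w j).card * ((t - j) * (t - j))) := by ring
  rw [h1, h2] at h
  exact Nat.le_of_mul_le_mul_left h (by omega)

lemma ratioW_step (G : SimpleGraph V) (f : V → ℕ) (W : Finset V) (d t s E j : ℕ) (hE : 3 ≤ E)
    (hd : ∀ v ∈ W, dg G v ≤ d) (hf : ∀ v, f v ≤ t)
    (hsum : t * (s + 2 * d + 3 * t + 3) ≤ ∑ v, f v + 1) (hst : 3 * t ≤ E * s) (hs : 1 ≤ s)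
    (ht : 1 ≤ t) (u w : V) (huW : u ∈ W) (huw : u ≠ w) (hj : 2 * E * t ≤ 4 * E * j + t) :
    E * (QW G f W u w (j + 1)).card ≤ (E - 1) * (QW G f W u w j).card := by
  have h1 := ratioW G f W d t s j hd hf hsum ht u w huW huw
  have h2 := num_decay E t s j hE hst hj
  have hpos : 0 < (j + 1) * (s + j) := Nat.mul_pos (by omega) (by omega)
  refine Nat.le_of_mul_le_mul_right ?_ hpos
  calc E * (QW G f W u w (j + 1)).card * ((j + 1) * (s + j))
      = E * ((QW G f W u w (j + 1)).card * ((j + 1) * (s + j))) := by ring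
    _ ≤ E * ((QW G f W u w j).card * ((t - j) * (t - j))) := Nat.mul_le_mul_left _ h1
    _ = (QW G f W u w j).card * (E * ((t - j) * (t - j))) := by ring
    _ ≤ (QW G f W u w j).card * ((E - 1) * ((j + 1) * (s + j))) := Nat.mul_le_mul_left _ h2
    _ = (E - 1) * (QW G f W u w j).card * ((j + 1) * (s + j)) := by ring

lemma ratioW_iter (G : SimpleGraph V) (f : V → ℕ) (W : Finset V) (d t s E : ℕ) (hE : 3 ≤ E)
    (hd : ∀ v ∈ W, dg G v ≤ d) (hf : ∀ v, f v ≤ t)
    (hsum : t * (s + 2 * d + 3 * t + 3) ≤ ∑ v, f v + 1) (hst : 3 * t ≤ E * s) (hs : 1 ≤ s)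
    (ht : 1 ≤ t) (u w : V) (huW : u ∈ W) (huw : u ≠ w) (m : ℕ) :
    ∀ j, 2 * E * t ≤ 4 * E * j + t →
    E ^ m * (QW G f W u w (j + m)).card ≤ (E - 1) ^ m * (QW G f W u w j).card := by
  induction m with
  | zero =>
    intro j _
    simp
  | succ m ih =>
    intro j hj
    have h1 := ih j hj
    have h2 := ratioW_step G f W d t s E (j + m) hE hd hf hsum hst hs ht u w huW huw (by
      refine le_trans hj ?_
      have : 4 * E * j ≤ 4 * E * (j + m) := Nat.mul_le_mul_left _ (by omega)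
      omega)
    calc E ^ (m + 1) * (QW G f W u w (j + (m + 1))).card
        = E ^ m * (E * (QW G f W u w (j + m + 1)).card) := by
          rw [pow_succ, ← Nat.add_assoc]
          ring
      _ ≤ E ^ m * ((E - 1) * (QW G f W u w (j + m)).card) := Nat.mul_le_mul_left _ h2
      _ = (E - 1) * (E ^ m * (QW G f W u w (j + m)).card) := by ring
      _ ≤ (E - 1) * ((E - 1) ^ m * (QW G f W u w j).card) := Nat.mul_le_mul_left _ h1
      _ = (E - 1) ^ (m + 1) * (QW G f W u w j).card := by
          rw [pow_succ]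
          ring

/-- few graphs have a given pair of vertices with many common neighbours in `W` -/
lemma bad_pairW (G : SimpleGraph V) (f : V → ℕ) (W : Finset V) (d t s E : ℕ) (hE : 3 ≤ E)
    (hd : ∀ v ∈ W, dg G v ≤ d) (hf : ∀ v, f v ≤ t)
    (hsum : t * (s + 2 * d + 3 * t + 3) ≤ ∑ v, f v + 1) (hst : 3 * t ≤ E * s) (hs : 1 ≤ s)
    (ht : 1 ≤ t) (u w : V) (huW : u ∈ W) (huw : u ≠ w) :
    E ^ (t / (4 * E)) * ((Om G f).filter (fun M => t ≤ 2 * codW W M u w)).card
      ≤ (t + 1) * ((E - 1) ^ (t / (4 * E)) * (Om G f).card) := by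
  have hsub : (Om G f).filter (fun M => t ≤ 2 * codW W M u w)
      ⊆ ((range (t + 1)).filter (fun j => t ≤ 2 * j)).biUnion (fun j => QW G f W u w j) := by
    intro M hM
    rw [Finset.mem_filter] at hM
    rw [Finset.mem_biUnion]
    refine ⟨codW W M u w, ?_, ?_⟩
    · rw [Finset.mem_filter, Finset.mem_range]
      refine ⟨?_, hM.2⟩
      have h1 : codW W M u w ≤ dg M u :=
        Finset.card_le_card (Finset.inter_subset_left.trans Finset.inter_subset_left)
      have h2 := (mem_Om.mp hM.1).2 u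
      have h3 := hf u
      omega
    · rw [mem_QW]
      exact ⟨hM.1, rfl⟩
  have hN : 4 * E * (t / (4 * E)) ≤ t := Nat.mul_div_le t (4 * E)
  have hterm : ∀ j ∈ (range (t + 1)).filter (fun j => t ≤ 2 * j),
      E ^ (t / (4 * E)) * (QW G f W u w j).card ≤ (E - 1) ^ (t / (4 * E)) * (Om G f).card := by
    intro j hj
    rw [Finset.mem_filter] at hj
    have hNj : t / (4 * E) ≤ j := by
      have h2 : 2 * (t / (4 * E)) ≤ 4 * E * (t / (4 * E)) := Nat.mul_le_mul_right _ (by omega)
      have h3 := hj.2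
      generalize t / (4 * E) = N at hN h2 ⊢
      omega
    have h1 := ratioW_iter G f W d t s E hE hd hf hsum hst hs ht u w huW huw (t / (4 * E))
      (j - t / (4 * E)) (by
        have e1 : 4 * E * (j - t / (4 * E)) = 4 * E * j - 4 * E * (t / (4 * E)) :=
          Nat.mul_sub _ _ _
        have e2 : 2 * E * t ≤ 2 * E * (2 * j) := Nat.mul_le_mul_left _ hj.2
        have e3 : 2 * E * (2 * j) = 4 * E * j := by ring
        have e5 : 4 * E * (t / (4 * E)) ≤ 4 * E * j := Nat.mul_le_mul_left _ hNj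
        omega)
    rw [Nat.sub_add_cancel hNj] at h1
    refine le_trans h1 (Nat.mul_le_mul_left _ (Finset.card_le_card ?_))
    intro M hM
    exact (mem_QW.mp hM).1
  calc E ^ (t / (4 * E)) * ((Om G f).filter (fun M => t ≤ 2 * codW W M u w)).card
      ≤ E ^ (t / (4 * E)) * ∑ j ∈ (range (t + 1)).filter (fun j => t ≤ 2 * j),
          (QW G f W u w j).card := Nat.mul_le_mul_left _
            (le_trans (Finset.card_le_card hsub) Finset.card_biUnion_le)
    _ = ∑ j ∈ (range (t + 1)).filter (fun j => t ≤ 2 * j),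
          E ^ (t / (4 * E)) * (QW G f W u w j).card := Finset.mul_sum _ _ _
    _ ≤ ∑ _j ∈ (range (t + 1)).filter (fun j => t ≤ 2 * j),
          (E - 1) ^ (t / (4 * E)) * (Om G f).card := Finset.sum_le_sum hterm
    _ = ((range (t + 1)).filter (fun j => t ≤ 2 * j)).card *
          ((E - 1) ^ (t / (4 * E)) * (Om G f).card) := by rw [Finset.sum_const, smul_eq_mul]
    _ ≤ (t + 1) * ((E - 1) ^ (t / (4 * E)) * (Om G f).card) := by
        refine Nat.mul_le_mul_right _ ?_
        refine le_trans (Finset.card_filter_le _ _) ?_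
        rw [Finset.card_range]

/-- a graph with small codegrees inside `W` -/
theorem exists_halfW (G : SimpleGraph V) (f : V → ℕ) (W : Finset V) (d t s E : ℕ) (hE : 3 ≤ E)
    (hd : ∀ v ∈ W, dg G v ≤ d) (hf : ∀ v, f v ≤ t) (ht : 1 ≤ t)
    (hsum : t * (s + 2 * d + 3 * t + 3) ≤ ∑ v, f v + 1) (hst : 3 * t ≤ E * s) (hs : 1 ≤ s)
    (htn : t + 1 ≤ Fintype.card V) (hne : (Om G f).Nonempty)
    (hnum : Fintype.card V ^ 3 * (E - 1) ^ (t / (4 * E)) < E ^ (t / (4 * E))) :
    ∃ M ∈ Om G f, ∀ u ∈ W, ∀ w, u ≠ w → 2 * (nb M u ∩ nb M w ∩ W).card + 1 ≤ t := by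
  by_contra hcon
  push Not at hcon
  have hsub : Om G f ⊆ ((univ : Finset (V × V)).filter (fun p => p.1 ∈ W ∧ p.1 ≠ p.2)).biUnion
      (fun p => (Om G f).filter (fun M => t ≤ 2 * codW W M p.1 p.2)) := by
    intro M hM
    obtain ⟨u, hu, w, huw, h⟩ := hcon M hM
    rw [Finset.mem_biUnion]
    refine ⟨(u, w), ?_, ?_⟩
    · rw [Finset.mem_filter]
      exact ⟨Finset.mem_univ _, hu, huw⟩
    · rw [Finset.mem_filter]
      refine ⟨hM, ?_⟩
      show t ≤ 2 * (nb M u ∩ nb M w ∩ W).card
      omega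
  have hpos : 0 < (Om G f).card := Finset.card_pos.mpr hne
  have hcount : E ^ (t / (4 * E)) * (Om G f).card
      ≤ Fintype.card V ^ 3 * (E - 1) ^ (t / (4 * E)) * (Om G f).card := by
    calc E ^ (t / (4 * E)) * (Om G f).card
        ≤ E ^ (t / (4 * E)) * ∑ p ∈ (univ : Finset (V × V)).filter (fun p => p.1 ∈ W ∧ p.1 ≠ p.2),
          ((Om G f).filter (fun M => t ≤ 2 * codW W M p.1 p.2)).card :=
          Nat.mul_le_mul_left _ (le_trans (Finset.card_le_card hsub) Finset.card_biUnion_le)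
      _ = ∑ p ∈ (univ : Finset (V × V)).filter (fun p => p.1 ∈ W ∧ p.1 ≠ p.2),
          E ^ (t / (4 * E)) * ((Om G f).filter (fun M => t ≤ 2 * codW W M p.1 p.2)).card :=
          Finset.mul_sum _ _ _
      _ ≤ ∑ _p ∈ (univ : Finset (V × V)).filter (fun p => p.1 ∈ W ∧ p.1 ≠ p.2),
          (t + 1) * ((E - 1) ^ (t / (4 * E)) * (Om G f).card) := by
          refine Finset.sum_le_sum (fun p hp => ?_)
          rw [Finset.mem_filter] at hp
          exact bad_pairW G f W d t s E hE hd hf hsum hst hs ht p.1 p.2 hp.2.1 hp.2.2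
      _ = ((univ : Finset (V × V)).filter (fun p => p.1 ∈ W ∧ p.1 ≠ p.2)).card *
          ((t + 1) * ((E - 1) ^ (t / (4 * E)) * (Om G f).card)) := by
          rw [Finset.sum_const, smul_eq_mul]
      _ ≤ (Fintype.card V * Fintype.card V) *
          (Fintype.card V * ((E - 1) ^ (t / (4 * E)) * (Om G f).card)) := by
          refine Nat.mul_le_mul ?_ (Nat.mul_le_mul_right _ htn)
          refine le_trans (Finset.card_filter_le _ _) ?_
          rw [Finset.card_univ, Fintype.card_prod]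
      _ = Fintype.card V ^ 3 * (E - 1) ^ (t / (4 * E)) * (Om G f).card := by ring
  have := Nat.le_of_mul_le_mul_right hcount hpos
  omega

end Pool.Agent.BD48
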