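import Mathlib
import Pool.Agent.BD48.HalfW
import Pool.Agent.BD48.C4W
import Pool.Agent.BD48.HT

/-!
Variants of the switching theorems: more room in the codegrees, 4-cycles away from `W` are allowed, one
exceptional pair.
-/

namespace Pool.Agent.BD48

open Finset

attribute [local instance] Classical.propDecidable

variable {V : Type*} [Fintype V]

/-- few graphs have a given pair of vertices with many common neighbours in `W` -/
lemma bad_pairW2 (G : SimpleGraph V) (f : V → ℕ) (W : Finset V) (d t s E m : ℕ) (hE : 3 ≤ E)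
    (hd : ∀ v ∈ W, dg G v ≤ d) (hf : ∀ v, f v ≤ t)
    (hsum : t * (s + 2 * d + 3 * t + 3) ≤ ∑ v, f v + 1) (hst : 3 * t ≤ E * s) (hs : 1 ≤ s)
    (ht : 1 ≤ t) (hm : 4 * E * (m + 1) ≤ t) (u w : V) (huW : u ∈ W) (huw : u ≠ w) :
    E ^ m * ((Om G f).filter (fun M => t ≤ 2 * codW W M u w + 2)).card
      ≤ (t + 1) * ((E - 1) ^ m * (Om G f).card) := by
  have hsub : (Om G f).filter (fun M => t ≤ 2 * codW W M u w + 2)
      ⊆ ((range (t + 1)).filter (fun j => t ≤ 2 * j + 2)).biUnion (fun j => QW G f W u w j) := by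
    intro M hM
    rw [Finset.mem_filter] at hM
    rw [Finset.mem_biUnion]
    refine ⟨codW W M u w, ?_, ?_⟩
    · rw [Finset.mem_filter, Finset.mem_range]
      refine ⟨?_, hM.2⟩
      have h1 : codW W M u w ≤ dg M u :=
        Finset.card_le_card (Finset.inter_subset_left.trans Finset.inter_subset_left)
      have h2 := (mem_Om.mp hM.1).2 u
      have h3 := hf u
      omega
    · rw [mem_QW]
      exact ⟨hM.1, rfl⟩
  have hterm : ∀ j ∈ (range (t + 1)).filter (fun j => t ≤ 2 * j + 2),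
      E ^ m * (QW G f W u w j).card ≤ (E - 1) ^ m * (Om G f).card := by
    intro j hj
    rw [Finset.mem_filter] at hj
    have hj2 := hj.2
    have h12 : 12 * (m + 1) ≤ 4 * E * (m + 1) := Nat.mul_le_mul_right _ (by omega)
    have hNj : m ≤ j := by omega
    have h1 := ratioW_iter G f W d t s E hE hd hf hsum hst hs ht u w huW huw m
      (j - m) (by
        obtain ⟨i, rfl⟩ := Nat.exists_eq_add_of_le hNj
        rw [Nat.add_sub_cancel_left]
        have e1 : 2 * E * t ≤ 2 * E * (2 * (m + i) + 2) := Nat.mul_le_mul_left _ hj2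
        have e2 : 2 * E * (2 * (m + i) + 2) = 4 * E * i + 4 * E * (m + 1) := by ring
        omega)
    rw [Nat.sub_add_cancel hNj] at h1
    refine le_trans h1 (Nat.mul_le_mul_left _ (Finset.card_le_card ?_))
    intro M hM
    exact (mem_QW.mp hM).1
  calc E ^ m * ((Om G f).filter (fun M => t ≤ 2 * codW W M u w + 2)).card
      ≤ E ^ m * ∑ j ∈ (range (t + 1)).filter (fun j => t ≤ 2 * j + 2),
          (QW G f W u w j).card := Nat.mul_le_mul_left _
            (le_trans (Finset.card_le_card hsub) Finset.card_biUnion_le)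
    _ = ∑ j ∈ (range (t + 1)).filter (fun j => t ≤ 2 * j + 2),
          E ^ m * (QW G f W u w j).card := Finset.mul_sum _ _ _
    _ ≤ ∑ _j ∈ (range (t + 1)).filter (fun j => t ≤ 2 * j + 2),
          (E - 1) ^ m * (Om G f).card := Finset.sum_le_sum hterm
    _ = ((range (t + 1)).filter (fun j => t ≤ 2 * j + 2)).card *
          ((E - 1) ^ m * (Om G f).card) := by rw [Finset.sum_const, smul_eq_mul]
    _ ≤ (t + 1) * ((E - 1) ^ m * (Om G f).card) := by
        refine Nat.mul_le_mul_right _ ?_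
        refine le_trans (Finset.card_filter_le _ _) ?_
        rw [Finset.card_range]

/-- a graph with small codegrees inside `W` -/
theorem exists_halfW2 (G : SimpleGraph V) (f : V → ℕ) (W : Finset V) (d t s E m : ℕ) (hE : 3 ≤ E)
    (hd : ∀ v ∈ W, dg G v ≤ d) (hf : ∀ v, f v ≤ t) (ht : 1 ≤ t)
    (hsum : t * (s + 2 * d + 3 * t + 3) ≤ ∑ v, f v + 1) (hst : 3 * t ≤ E * s) (hs : 1 ≤ s)
    (htn : t + 1 ≤ Fintype.card V) (hm : 4 * E * (m + 1) ≤ t) (hne : (Om G f).Nonempty)
    (hnum : Fintype.card V ^ 3 * (E - 1) ^ m < E ^ m) :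
    ∃ M ∈ Om G f, ∀ u ∈ W, ∀ w, u ≠ w → 2 * (nb M u ∩ nb M w ∩ W).card + 3 ≤ t := by
  by_contra hcon
  push Not at hcon
  have hsub : Om G f ⊆ ((univ : Finset (V × V)).filter (fun p => p.1 ∈ W ∧ p.1 ≠ p.2)).biUnion
      (fun p => (Om G f).filter (fun M => t ≤ 2 * codW W M p.1 p.2 + 2)) := by
    intro M hM
    obtain ⟨u, hu, w, huw, h⟩ := hcon M hM
    rw [Finset.mem_biUnion]
    refine ⟨(u, w), ?_, ?_⟩
    · rw [Finset.mem_filter]
      exact ⟨Finset.mem_univ _, hu, huw⟩
    · rw [Finset.mem_filter]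
      refine ⟨hM, ?_⟩
      show t ≤ 2 * (nb M u ∩ nb M w ∩ W).card + 2
      omega
  have hpos : 0 < (Om G f).card := Finset.card_pos.mpr hne
  have hcount : E ^ m * (Om G f).card
      ≤ Fintype.card V ^ 3 * (E - 1) ^ m * (Om G f).card := by
    calc E ^ m * (Om G f).card
        ≤ E ^ m * ∑ p ∈ (univ : Finset (V × V)).filter (fun p => p.1 ∈ W ∧ p.1 ≠ p.2),
          ((Om G f).filter (fun M => t ≤ 2 * codW W M p.1 p.2 + 2)).card :=
          Nat.mul_le_mul_left _ (le_trans (Finset.card_le_card hsub) Finset.card_biUnion_le)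
      _ = ∑ p ∈ (univ : Finset (V × V)).filter (fun p => p.1 ∈ W ∧ p.1 ≠ p.2),
          E ^ m * ((Om G f).filter (fun M => t ≤ 2 * codW W M p.1 p.2 + 2)).card :=
          Finset.mul_sum _ _ _
      _ ≤ ∑ _p ∈ (univ : Finset (V × V)).filter (fun p => p.1 ∈ W ∧ p.1 ≠ p.2),
          (t + 1) * ((E - 1) ^ m * (Om G f).card) := by
          refine Finset.sum_le_sum (fun p hp => ?_)
          rw [Finset.mem_filter] at hp
          exact bad_pairW2 G f W d t s E m hE hd hf hsum hst hs ht hm p.1 p.2 hp.2.1 hp.2.2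
      _ = ((univ : Finset (V × V)).filter (fun p => p.1 ∈ W ∧ p.1 ≠ p.2)).card *
          ((t + 1) * ((E - 1) ^ m * (Om G f).card)) := by
          rw [Finset.sum_const, smul_eq_mul]
      _ ≤ (Fintype.card V * Fintype.card V) *
          (Fintype.card V * ((E - 1) ^ m * (Om G f).card)) := by
          refine Nat.mul_le_mul ?_ (Nat.mul_le_mul_right _ htn)
          refine le_trans (Finset.card_filter_le _ _) ?_
          rw [Finset.card_univ, Fintype.card_prod]
      _ = Fintype.card V ^ 3 * (E - 1) ^ m * (Om G f).card := by ring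
  have := Nat.le_of_mul_le_mul_right hcount hpos
  omega

/-- a graph in which no 4-cycle has an edge inside `W` -/
theorem exists_c4W2 (G : SimpleGraph V) (f : V → ℕ) (W : Finset V) (d t : ℕ)
    (hd : ∀ v ∈ W, dg G v ≤ d) (hf : ∀ v, f v ≤ t) (ht : 1 ≤ t)
    (hne : (Om G f).Nonempty) (hsum : 2 * (t * (1 + d + t)) + 16 * t ^ 4 < ∑ v, f v) :
    ∃ M ∈ Om G f, ∀ a b c e, Cy M a b c e → ¬ (a ∈ W ∧ b ∈ W) := by
  obtain ⟨M, hM⟩ := hne
  obtain ⟨k, hk⟩ : ∃ k, c4 M = k := ⟨_, rfl⟩
  induction k using Nat.strong_induction_on generalizing M with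
  | _ k ih =>
    by_cases hall : ∀ a b c e, Cy M a b c e → ¬ (a ∈ W ∧ b ∈ W)
    · exact ⟨M, hM, hall⟩
    · push Not at hall
      obtain ⟨a, b, c, e, hc, ha, hb⟩ := hall
      obtain ⟨M', h2, h3⟩ := c4_stepW G d t ht f hf hsum M hM (hd _ ha) (hd _ hb) hc
      exact ih _ (hk ▸ h3) M' h2 rfl

/-- the complement of a graph with small codegrees, except for one pair, has no small separation -/
lemma sepFree_compl2 (M : SimpleGraph V) (t k : ℕ) (z₁ z₂ : V) (ht : ∀ v, dg M v ≤ t)
    (hn : Fintype.card V = k + 1 + t)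
    (hcod : ∀ u w, u ≠ w → ¬ (u = z₁ ∧ w = z₂) → ¬ (u = z₂ ∧ w = z₁) → 2 * cod M u w ≤ t + 1)
    (hz : cod M z₁ z₂ + 1 ≤ t) :
    SepFree Mᶜ k := by
  intro C D X hcov hCD hCX hDX hC hD hXk hno
  have hadj : ∀ x ∈ C, ∀ y ∈ D, M.Adj x y := by
    intro x hx y hy
    by_contra hcon
    refine hno x hx y hy ?_
    rw [SimpleGraph.compl_adj]
    refine ⟨?_, hcon⟩
    rintro rfl
    exact hCD x hx hy
  have hcard : t + 2 ≤ C.card + D.card := by
    have h1 : (C ∪ D ∪ X) = univ := by
      rw [Finset.eq_univ_iff_forall]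
      intro x
      rcases hcov x with h | h | h
      · exact Finset.mem_union_left _ (Finset.mem_union_left _ h)
      · exact Finset.mem_union_left _ (Finset.mem_union_right _ h)
      · exact Finset.mem_union_right _ h
    have h2 := Finset.card_union_le (C ∪ D) X
    have h3 := Finset.card_union_le C D
    rw [h1, Finset.card_univ] at h2
    omega
  -- a side with two vertices bounds the other side
  have key : ∀ A B : Finset V, (∀ x ∈ A, ∀ y ∈ B, M.Adj x y) → 2 ≤ A.card →
      t + 2 ≤ A.card + B.card → 2 * B.card ≤ t + 1 := by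
    intro A B hAB hA hABt
    by_cases hpair : ∃ u ∈ A, ∃ w ∈ A, u ≠ w ∧ ¬ (u = z₁ ∧ w = z₂) ∧ ¬ (u = z₂ ∧ w = z₁)
    · obtain ⟨u, hu, w, hw, huw, h1, h2⟩ := hpair
      refine le_trans (Nat.mul_le_mul_left 2 (Finset.card_le_card ?_)) (hcod u w huw h1 h2)
      intro y hy
      rw [Finset.mem_inter, mem_nb, mem_nb]
      exact ⟨hAB u hu y hy, hAB w hw y hy⟩
    · exfalso
      push Not at hpair
      obtain ⟨u, hu, w, hw, huw⟩ := Finset.one_lt_card.mp (by omega : 1 < A.card)
      have hz12 : z₁ ∈ A ∧ z₂ ∈ A := by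
        by_cases h1 : u = z₁ ∧ w = z₂
        · rw [← h1.1, ← h1.2]
          exact ⟨hu, hw⟩
        · have h2 := hpair u hu w hw huw (fun h => fun h' => h1 ⟨h, h'⟩)
          rw [← h2.1, ← h2.2]
          exact ⟨hw, hu⟩
      have hA2 : A ⊆ {z₁, z₂} := by
        intro x hx
        rw [Finset.mem_insert, Finset.mem_singleton]
        by_contra hcon
        rw [not_or] at hcon
        have h2 := hpair x hx z₁ hz12.1 hcon.1 (fun h => absurd h hcon.1)
        exact hcon.2 h2.1
      have hA3 : A.card ≤ 2 := le_trans (Finset.card_le_card hA2) Finset.card_le_two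
      have hB : B.card ≤ cod M z₁ z₂ := by
        refine Finset.card_le_card ?_
        intro y hy
        rw [Finset.mem_inter, mem_nb, mem_nb]
        exact ⟨hAB z₁ hz12.1 y hy, hAB z₂ hz12.2 y hy⟩
      omega
  have key1 : ∀ A B : Finset V, (∀ x ∈ A, ∀ y ∈ B, M.Adj x y) → A.Nonempty → B.card ≤ t := by
    intro A B hAB hA
    obtain ⟨u, hu⟩ := hA
    refine le_trans (Finset.card_le_card ?_) (ht u)
    intro y hy
    rw [mem_nb]
    exact hAB u hu y hy
  have hadj' : ∀ x ∈ D, ∀ y ∈ C, M.Adj x y := fun x hx y hy => (hadj y hy x hx).symm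
  have a1 := key1 C D hadj hC
  have a2 := key1 D C hadj' hD
  have a3 : 0 < C.card := Finset.card_pos.mpr hC
  have a4 : 0 < D.card := Finset.card_pos.mpr hD
  by_cases h1 : C.card = 1
  · omega
  · by_cases h2 : D.card = 1
    · omega
    · have a5 := key C D hadj (by omega) hcard
      have a6 := key D C hadj' (by omega) (by omega)
      omega

end Pool.Agent.BD48
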