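import Mathlib
import Pool.Agent.BD48.Build

/-!
Harary graphs: powers of a cycle, with diameters if `k` is odd.
-/

namespace Pool.Agent.BD48

open Finset

attribute [local instance] Classical.propDecidable

variable {n : ℕ} [NeZero n]

/-- diameters -/
def diam (x y : ZMod n) : Prop := x.val + n / 2 = y.val ∨ y.val + n / 2 = x.val

/-- Harary graphs -/
theorem harary (k : ℕ) (hk : 2 ≤ k) (hkn : k + 1 ≤ n) :
    ∃ H : SimpleGraph (ZMod n), SepFree H k ∧ (∀ v, k ≤ dg H v) ∧ ∑ v, dg H v ≤ k * n + 1 := by
  obtain ⟨r, hr⟩ : ∃ r, r = k / 2 := ⟨_, rfl⟩
  rcases Nat.even_or_odd k with hev | hodd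
  · obtain ⟨r', hr'⟩ := hev
    have hk2 : k = 2 * r := by omega
    let H : SimpleGraph (ZMod n) :=
      { Adj := fun x y => close r x y
        symm := ⟨fun x y h => close_symm h⟩
        loopless := ⟨fun x h => not_close_self (by omega) x h⟩ }
    have hH : ∀ x y, H.Adj x y ↔ close r x y := fun x y => Iff.rfl
    have hdeg : ∀ v, dg H v = k := by
      intro v
      rw [dg_eq_card H v (ball r v) (fun y => by rw [mem_ball, hH]), card_ball r (by omega)]
      exact hk2.symm
    refine ⟨H, ?_, fun v => (hdeg v).ge, ?_⟩
    · refine sepFree_harary H k r (by omega) (by omega) ?_ (fun h => by omega)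
      intro v i hi1 hi2
      exact ⟨i, hi1, hi2, Or.inl rfl⟩
    · rw [Finset.sum_congr rfl (fun v _ => hdeg v), Finset.sum_const, Finset.card_univ, ZMod.card,
        smul_eq_mul, Nat.mul_comm]
      omega
  · obtain ⟨r', hr'⟩ := hodd
    have hk2 : k = 2 * r + 1 := by omega
    have hdn : ∀ x y : ZMod n, diam x y → ¬ close r x y := by
      rintro x y hd ⟨i, hi1, hi2, hi⟩
      have hx := ZMod.val_lt x
      have hy := ZMod.val_lt y
      -- write `y = x + j` with `j = n / 2` or `j = n - n / 2`
      have hval : ∀ a b : ZMod n, b = a + (i : ZMod n) → b.val = a.val + i ∨ b.val + n = a.val + i := by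
        intro a b hab
        have ha := ZMod.val_lt a
        have h1 : b = ((a.val + i : ℕ) : ZMod n) := by
          rw [hab, Nat.cast_add, ZMod.natCast_zmod_val]
        by_cases h2 : a.val + i < n
        · left
          rw [h1, ZMod.val_natCast_of_lt h2]
        · right
          have h3 : b = ((a.val + i - n : ℕ) : ZMod n) := by
            rw [h1, Nat.cast_sub (by omega), ZMod.natCast_self, sub_zero]
          rw [h3, ZMod.val_natCast_of_lt (by omega)]
          omega
      rcases hi with hi | hi
      · have h1 := hval x y hi
        rcases hd with hd | hd <;> omega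
      · have h1 := hval y x hi
        rcases hd with hd | hd <;> omega
    let H : SimpleGraph (ZMod n) :=
      { Adj := fun x y => close r x y ∨ diam x y
        symm := ⟨by
          rintro x y (h | h)
          · exact Or.inl (close_symm h)
          · exact Or.inr h.symm⟩
        loopless := ⟨by
          rintro x (h | h)
          · exact not_close_self (by omega) x h
          · rcases h with h | h <;> omega⟩ }
    have hH : ∀ x y, H.Adj x y ↔ close r x y ∨ diam x y := fun x y => Iff.rfl
    let dm : ZMod n → Finset (ZMod n) := fun v => univ.filter (fun y => diam v y)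
    have hdeg : ∀ v, dg H v = 2 * r + (dm v).card := by
      intro v
      rw [dg_eq_card H v (ball r v ∪ dm v), Finset.card_union_of_disjoint, card_ball r (by omega)]
      · rw [Finset.disjoint_left]
        intro x hx hx'
        rw [mem_ball] at hx
        simp only [dm, Finset.mem_filter, Finset.mem_univ, true_and] at hx'
        exact hdn v x hx' hx
      · intro y
        rw [Finset.mem_union, mem_ball, hH]
        simp [dm]
    -- every vertex has a diameter
    have hdiam : ∀ v : ZMod n, ∃ h : ℕ, r + 1 ≤ h ∧ 2 * h ≤ n + 1 ∧
        diam v (v + (h : ZMod n)) := by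
      intro v
      have hv := ZMod.val_lt v
      by_cases h1 : v.val + n / 2 < n
      · refine ⟨n / 2, by omega, by omega, Or.inl ?_⟩
        have h2 : v + ((n / 2 : ℕ) : ZMod n) = ((v.val + n / 2 : ℕ) : ZMod n) := by
          rw [Nat.cast_add, ZMod.natCast_zmod_val]
        rw [h2, ZMod.val_natCast_of_lt h1]
      · refine ⟨n - n / 2, by omega, by omega, Or.inr ?_⟩
        have h2 : v + ((n - n / 2 : ℕ) : ZMod n) = ((v.val - n / 2 : ℕ) : ZMod n) := by
          rw [Nat.cast_sub (by omega), Nat.cast_sub (by omega), ZMod.natCast_zmod_val,
            ZMod.natCast_self]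
          ring
        rw [h2, ZMod.val_natCast_of_lt (by omega)]
        omega
    have hdm1 : ∀ v, 1 ≤ (dm v).card := by
      intro v
      obtain ⟨h, _, _, hh⟩ := hdiam v
      refine Finset.card_pos.mpr ⟨v + (h : ZMod n), ?_⟩
      simp only [dm, Finset.mem_filter, Finset.mem_univ, true_and]
      exact hh
    have hdmsum : ∑ v, (dm v).card ≤ n + 1 := by
      -- each vertex has at most one partner above and one below
      have h1 : ∀ v : ZMod n, (dm v).card ≤ (if v.val + n / 2 < n then 1 else 0) +
          (if n / 2 ≤ v.val then 1 else 0) := by
        intro v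
        have hv := ZMod.val_lt v
        have h2 : dm v ⊆ (univ.filter (fun y : ZMod n => v.val + n / 2 = y.val)) ∪
            (univ.filter (fun y : ZMod n => y.val + n / 2 = v.val)) := by
          intro y hy
          simp only [dm, Finset.mem_filter, Finset.mem_univ, true_and] at hy
          rw [Finset.mem_union, Finset.mem_filter, Finset.mem_filter]
          rcases hy with hy | hy
          · exact Or.inl ⟨Finset.mem_univ _, hy⟩
          · exact Or.inr ⟨Finset.mem_univ _, hy⟩
        refine le_trans (Finset.card_le_card h2) (le_trans (Finset.card_union_le _ _) ?_)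
        refine Nat.add_le_add ?_ ?_
        · split_ifs with h3
          · rw [Finset.card_le_one]
            intro a ha b hb
            rw [Finset.mem_filter] at ha hb
            exact ZMod.val_injective n (by omega)
          · rw [Finset.card_eq_zero.mpr]
            rw [Finset.filter_eq_empty_iff]
            intro y _ hy
            have := ZMod.val_lt y
            omega
        · split_ifs with h3
          · rw [Finset.card_le_one]
            intro a ha b hb
            rw [Finset.mem_filter] at ha hb
            exact ZMod.val_injective n (by omega)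
          · rw [Finset.card_eq_zero.mpr]
            rw [Finset.filter_eq_empty_iff]
            intro y _ hy
            omega
      refine le_trans (Finset.sum_le_sum (fun v _ => h1 v)) ?_
      rw [Finset.sum_add_distrib, ← Finset.card_filter, ← Finset.card_filter]
      have h2 : (univ.filter (fun v : ZMod n => v.val + n / 2 < n)).card ≤ n - n / 2 := by
        have h3 : (univ.filter (fun v : ZMod n => v.val + n / 2 < n)) ⊆ itv n 0 (n - n / 2) := by
          intro v hv
          rw [Finset.mem_filter] at hv
          rw [mem_itv]
          omega
        have h4 := Finset.card_le_card h3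
        rw [card_itv _ _ (by omega)] at h4
        exact h4
      have h5 : (univ.filter (fun v : ZMod n => n / 2 ≤ v.val)).card ≤ n - n / 2 := by
        have h3 : (univ.filter (fun v : ZMod n => n / 2 ≤ v.val)) ⊆ itv n (n / 2) (n - n / 2) := by
          intro v hv
          rw [Finset.mem_filter] at hv
          have := ZMod.val_lt v
          rw [mem_itv]
          omega
        have h4 := Finset.card_le_card h3
        rw [card_itv _ _ (by omega)] at h4
        exact h4
      omega
    refine ⟨H, ?_, ?_, ?_⟩
    · refine sepFree_harary H k r (by omega) (by omega) ?_ ?_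
      · intro v i hi1 hi2
        exact Or.inl ⟨i, hi1, hi2, Or.inl rfl⟩
      · intro _ v
        obtain ⟨h, h1, h2, h3⟩ := hdiam v
        exact ⟨h, h1, h2, Or.inr h3⟩
    · intro v
      have := hdm1 v
      rw [hdeg v]
      omega
    · rw [Finset.sum_congr rfl (fun v _ => hdeg v), Finset.sum_add_distrib, Finset.sum_const,
        Finset.card_univ, ZMod.card, smul_eq_mul, hk2]
      have : (2 * r + 1) * n + 1 = n * (2 * r) + (n + 1) := by ring
      rw [this]
      exact Nat.add_le_add_left hdmsum _

end Pool.Agent.BD48
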