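import Mathlib
import Pool.Agent.BD48.Pack

/-!
Graphs without three vertices with many common neighbours: protected sets of neighbours, twins,
reserved sets.
-/

namespace Pool.Agent.BD48

open Finset

attribute [local instance] Classical.propDecidable

variable {V : Type*} [Fintype V]

/-- a small set of neighbours of `z` which is not almost contained in the neighbourhood of another
vertex, unless the whole neighbourhood is -/
theorem exists_protected (G : SimpleGraph V) (s c m : ℕ)
    (hK : ∀ x y z, x ≠ y → x ≠ z → y ≠ z → (nb G x ∩ nb G y ∩ nb G z).card < s)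
    (hm : s + 2 * (c + 4) ≤ m) (z : V) (hz : m ≤ dg G z) :
    ∃ P : Finset V, P ⊆ nb G z ∧ m ≤ P.card ∧ P.card ≤ m + (c + 4) ∧
      ∀ v, v ≠ z → c + 4 ≤ (P \ nb G v).card ∨ (nb G z \ nb G v).card < c + 4 := by
  obtain ⟨P0, hP0, hc0⟩ := Finset.exists_subset_card_eq (s := nb G z) (n := m) hz
  -- at most one bad vertex
  have huniq : ∀ v v', v ≠ z → v' ≠ z → (P0 \ nb G v).card < c + 4 →
      (P0 \ nb G v').card < c + 4 → v = v' := by
    intro v v' hv hv' h h'
    by_contra hne
    have hsub : P0 ⊆ (nb G z ∩ nb G v ∩ nb G v') ∪ ((P0 \ nb G v) ∪ (P0 \ nb G v')) := by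
      intro x hx
      by_cases h1 : x ∈ nb G v
      · by_cases h2 : x ∈ nb G v'
        · exact Finset.mem_union_left _
            (Finset.mem_inter.2 ⟨Finset.mem_inter.2 ⟨hP0 hx, h1⟩, h2⟩)
        · exact Finset.mem_union_right _ (Finset.mem_union_right _ (Finset.mem_sdiff.2 ⟨hx, h2⟩))
      · exact Finset.mem_union_right _ (Finset.mem_union_left _ (Finset.mem_sdiff.2 ⟨hx, h1⟩))
    have h1 := Finset.card_le_card hsub
    have h2 := Finset.card_union_le (nb G z ∩ nb G v ∩ nb G v') ((P0 \ nb G v) ∪ (P0 \ nb G v'))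
    have h3 := Finset.card_union_le (P0 \ nb G v) (P0 \ nb G v')
    have h4 := hK z v v' (fun h => hv h.symm) (fun h => hv' h.symm) hne
    omega
  by_cases hbad : ∃ v, v ≠ z ∧ (P0 \ nb G v).card < c + 4
  · obtain ⟨v0, hv0, hb0⟩ := hbad
    by_cases hall : (nb G z \ nb G v0).card < c + 4
    · refine ⟨P0, hP0, hc0.ge, by omega, ?_⟩
      intro v hv
      by_cases hvb : (P0 \ nb G v).card < c + 4
      · right
        rw [huniq v v0 hv hv0 hvb hb0]
        exact hall
      · left
        omega
    · obtain ⟨Q, hQ, hcQ⟩ := Finset.exists_subset_card_eq (s := nb G z \ nb G v0) (n := c + 4)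
        (by omega)
      have hQz : Q ⊆ nb G z := hQ.trans Finset.sdiff_subset
      refine ⟨P0 ∪ Q, Finset.union_subset hP0 hQz, ?_, ?_, ?_⟩
      · have := Finset.card_le_card (Finset.subset_union_left (s₁ := P0) (s₂ := Q))
        omega
      · have := Finset.card_union_le P0 Q
        omega
      · intro v hv
        left
        by_cases hvb : (P0 \ nb G v).card < c + 4
        · have hvv := huniq v v0 hv hv0 hvb hb0
          subst hvv
          have hsub : Q ⊆ (P0 ∪ Q) \ nb G v := by
            intro x hx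
            exact Finset.mem_sdiff.2 ⟨Finset.mem_union_right _ hx, (Finset.mem_sdiff.1 (hQ hx)).2⟩
          have := Finset.card_le_card hsub
          omega
        · have hsub : P0 \ nb G v ⊆ (P0 ∪ Q) \ nb G v :=
            Finset.sdiff_subset_sdiff Finset.subset_union_left (Finset.Subset.refl _)
          have := Finset.card_le_card hsub
          omega
  · refine ⟨P0, hP0, hc0.ge, by omega, ?_⟩
    intro v hv
    left
    by_contra hcon
    exact hbad ⟨v, hv, by omega⟩

/-- a vertex of large degree has at most one almost twin -/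
theorem twin_unique (G : SimpleGraph V) (s g : ℕ)
    (hK : ∀ x y z, x ≠ y → x ≠ z → y ≠ z → (nb G x ∩ nb G y ∩ nb G z).card < s)
    (z v v' : V) (hz : s + 2 * g ≤ dg G z) (hv : v ≠ z) (hv' : v' ≠ z)
    (h : (nb G z \ nb G v).card < g) (h' : (nb G z \ nb G v').card < g) : v = v' := by
  by_contra hne
  have hsub : nb G z ⊆ (nb G z ∩ nb G v ∩ nb G v') ∪ ((nb G z \ nb G v) ∪ (nb G z \ nb G v')) := by
    intro x hx
    by_cases h1 : x ∈ nb G v
    · by_cases h2 : x ∈ nb G v'
      · exact Finset.mem_union_left _
          (Finset.mem_inter.2 ⟨Finset.mem_inter.2 ⟨hx, h1⟩, h2⟩)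
      · exact Finset.mem_union_right _ (Finset.mem_union_right _ (Finset.mem_sdiff.2 ⟨hx, h2⟩))
    · exact Finset.mem_union_right _ (Finset.mem_union_left _ (Finset.mem_sdiff.2 ⟨hx, h1⟩))
  have h1 := Finset.card_le_card hsub
  have h2 := Finset.card_union_le (nb G z ∩ nb G v ∩ nb G v')
    ((nb G z \ nb G v) ∪ (nb G z \ nb G v'))
  have h3 := Finset.card_union_le (nb G z \ nb G v) (nb G z \ nb G v')
  have h4 := hK z v v' (fun h => hv h.symm) (fun h => hv' h.symm) hne
  have h5 : dg G z = (nb G z).card := rfl
  omega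

/-- many neighbours in the protected set outside the neighbourhoods of two twins -/
theorem protected_third (G : SimpleGraph V) (s c : ℕ)
    (hK : ∀ x y z, x ≠ y → x ≠ z → y ≠ z → (nb G x ∩ nb G y ∩ nb G z).card < s)
    (u z v : V) (huz : u ≠ z) (huv : u ≠ v) (hzv : z ≠ v) (P : Finset V) (hP : P ⊆ nb G u)
    (hm : s + 3 * (c + 4) ≤ P.card) (h1 : (nb G z \ nb G v).card < c + 4)
    (h2 : (nb G v \ nb G z).card < c + 4) :
    c + 4 ≤ (P \ (nb G z ∪ nb G v)).card := by
  have hsub : P ⊆ (P \ (nb G z ∪ nb G v)) ∪ ((nb G u ∩ nb G z ∩ nb G v) ∪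
      ((nb G z \ nb G v) ∪ (nb G v \ nb G z))) := by
    intro x hx
    by_cases hz : x ∈ nb G z
    · by_cases hv : x ∈ nb G v
      · exact Finset.mem_union_right _ (Finset.mem_union_left _
          (Finset.mem_inter.2 ⟨Finset.mem_inter.2 ⟨hP hx, hz⟩, hv⟩))
      · exact Finset.mem_union_right _ (Finset.mem_union_right _
          (Finset.mem_union_left _ (Finset.mem_sdiff.2 ⟨hz, hv⟩)))
    · by_cases hv : x ∈ nb G v
      · exact Finset.mem_union_right _ (Finset.mem_union_right _
          (Finset.mem_union_right _ (Finset.mem_sdiff.2 ⟨hv, hz⟩)))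
      · refine Finset.mem_union_left _ (Finset.mem_sdiff.2 ⟨hx, ?_⟩)
        intro hmem
        rcases Finset.mem_union.1 hmem with h | h
        · exact hz h
        · exact hv h
  have e1 := Finset.card_le_card hsub
  have e2 := Finset.card_union_le (P \ (nb G z ∪ nb G v)) ((nb G u ∩ nb G z ∩ nb G v) ∪
      ((nb G z \ nb G v) ∪ (nb G v \ nb G z)))
  have e3 := Finset.card_union_le (nb G u ∩ nb G z ∩ nb G v)
      ((nb G z \ nb G v) ∪ (nb G v \ nb G z))
  have e4 := Finset.card_union_le (nb G z \ nb G v) (nb G v \ nb G z)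
  have e5 := hK u z v huz huv hzv
  omega

/-- pairwise disjoint sets with prescribed numbers of elements avoiding given sets -/
theorem exists_reserved (Z : Finset V) (B : V → Finset V) (q : V → ℕ)
    (hB : ∀ z ∈ Z, (B z).card + ∑ z' ∈ Z, q z' ≤ Fintype.card V) :
    ∃ R : V → Finset V, (∀ z ∈ Z, Disjoint (R z) (B z) ∧ (R z).card = q z) ∧
      ∀ z ∈ Z, ∀ z' ∈ Z, z ≠ z' → Disjoint (R z) (R z') := by
  induction Z using Finset.induction_on with
  | empty => exact ⟨fun _ => ∅, by simp, by simp⟩
  | insert a Z' ha ih =>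
    have hsum : ∑ z' ∈ insert a Z', q z' = q a + ∑ z' ∈ Z', q z' := Finset.sum_insert ha
    obtain ⟨R', hR1, hR2⟩ := ih (fun z hz => by
      have := hB z (Finset.mem_insert_of_mem hz)
      rw [hsum] at this
      omega)
    have hU : (Z'.biUnion R').card ≤ ∑ z' ∈ Z', q z' := by
      refine Finset.card_biUnion_le.trans (le_of_eq ?_)
      exact Finset.sum_congr rfl (fun z hz => (hR1 z hz).2)
    have hcard : q a ≤ (Finset.univ \ (B a ∪ Z'.biUnion R')).card := by
      have h1 := hB a (Finset.mem_insert_self _ _)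
      rw [hsum] at h1
      have h2 := Finset.card_union_le (B a) (Z'.biUnion R')
      have h3 : (Finset.univ \ (B a ∪ Z'.biUnion R')).card
          = Fintype.card V - (B a ∪ Z'.biUnion R').card := by
        rw [Finset.card_sdiff_of_subset (Finset.subset_univ _), Finset.card_univ]
      omega
    obtain ⟨Q, hQ, hcQ⟩ := Finset.exists_subset_card_eq hcard
    have hQa : ∀ x ∈ Q, x ∉ B a ∧ x ∉ Z'.biUnion R' := by
      intro x hx
      have := (Finset.mem_sdiff.1 (hQ hx)).2
      exact ⟨fun h => this (Finset.mem_union_left _ h), fun h => this (Finset.mem_union_right _ h)⟩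
    refine ⟨fun z => if z = a then Q else R' z, ?_, ?_⟩
    · intro z hz
      by_cases hza : z = a
      · subst hza
        simp only [if_true]
        exact ⟨Finset.disjoint_left.2 (fun x hx => (hQa x hx).1), hcQ⟩
      · simp only [hza, if_false]
        exact hR1 z (Finset.mem_of_mem_insert_of_ne hz hza)
    · intro z hz z' hz' hne
      by_cases hza : z = a
      · subst hza
        have hz'a : z' ≠ z := fun h => hne h.symm
        simp only [if_true, hz'a, if_false]
        refine Finset.disjoint_left.2 (fun x hx hx' => (hQa x hx).2 ?_)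
        exact Finset.mem_biUnion.2 ⟨z', Finset.mem_of_mem_insert_of_ne hz' hz'a, hx'⟩
      · by_cases hz'a : z' = a
        · subst hz'a
          simp only [if_true, hza, if_false]
          refine Finset.disjoint_left.2 (fun x hx hx' => (hQa x hx').2 ?_)
          exact Finset.mem_biUnion.2 ⟨z, Finset.mem_of_mem_insert_of_ne hz hza, hx⟩
        · simp only [hza, hz'a, if_false]
          exact hR2 z (Finset.mem_of_mem_insert_of_ne hz hza) z'
            (Finset.mem_of_mem_insert_of_ne hz' hz'a) hne

omit [Fintype V] in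
/-- double counting for the in-neighbourhoods -/
theorem sum_filter_out (out : V → Finset V) (D : ℕ) (hD : ∀ v, (out v).card ≤ D)
    (A B : Finset V) :
    ∑ z ∈ A, (B.filter (fun w => z ∈ out w)).card ≤ D * B.card := by
  have h1 : ∑ z ∈ A, (B.filter (fun w => z ∈ out w)).card
      = ∑ w ∈ B, (A.filter (fun z => z ∈ out w)).card := by
    simp only [Finset.card_filter]
    exact Finset.sum_comm
  rw [h1, mul_comm]
  refine (Finset.sum_le_card_nsmul _ _ D ?_)
  intro w _
  refine le_trans (Finset.card_le_card ?_) (hD w)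
  intro z hz
  exact (Finset.mem_filter.1 hz).2

/-- the sets of in-neighbours cover a lot -/
theorem card_union_in (G : SimpleGraph V) (out : V → Finset V) (D : ℕ)
    (hD : ∀ v, (out v).card ≤ D) (hout : ∀ x y, G.Adj x y → y ∈ out x ∨ x ∈ out y)
    (S : Finset V) (a : ℕ) (hS : ∀ z ∈ S, a ≤ dg G z) :
    S.card * a ≤ D * ((S.biUnion (fun z => nb G z)) \ S).card + 2 * D * S.card := by
  set U := (S.biUnion (fun z => nb G z)) \ S with hU
  have h0 : S.card * a ≤ ∑ z ∈ S, dg G z := by
    have := Finset.card_nsmul_le_sum S (fun z => dg G z) a hS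
    simpa using this
  have h1 : ∀ z ∈ S, dg G z ≤ (out z).card + ((S.filter (fun w => z ∈ out w)).card
      + (U.filter (fun w => z ∈ out w)).card) := by
    intro z hz
    have hsub : nb G z ⊆ out z ∪ (S.filter (fun w => z ∈ out w) ∪
        U.filter (fun w => z ∈ out w)) := by
      intro w hw
      rcases hout z w (mem_nb.1 hw) with h | h
      · exact Finset.mem_union_left _ h
      · by_cases hwS : w ∈ S
        · exact Finset.mem_union_right _ (Finset.mem_union_left _
            (Finset.mem_filter.2 ⟨hwS, h⟩))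
        · refine Finset.mem_union_right _ (Finset.mem_union_right _
            (Finset.mem_filter.2 ⟨?_, h⟩))
          rw [hU]
          exact Finset.mem_sdiff.2 ⟨Finset.mem_biUnion.2 ⟨z, hz, hw⟩, hwS⟩
    refine (Finset.card_le_card hsub).trans ((Finset.card_union_le _ _).trans ?_)
    exact Nat.add_le_add_left (Finset.card_union_le _ _) _
  have h2 := Finset.sum_le_sum h1
  rw [Finset.sum_add_distrib, Finset.sum_add_distrib] at h2
  have h3 : ∑ z ∈ S, (out z).card ≤ D * S.card := by
    rw [mul_comm]
    exact Finset.sum_le_card_nsmul _ _ D (fun z _ => hD z)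
  have h4 := sum_filter_out out D hD S S
  have h5 := sum_filter_out out D hD S U
  have h6 : 2 * D * S.card = D * S.card + D * S.card := by ring
  rw [h6]
  omega

/-- the number of edges -/
theorem sum_dg_outD (G : SimpleGraph V) (out : V → Finset V) (D : ℕ)
    (hD : ∀ v, (out v).card ≤ D) (hout : ∀ x y, G.Adj x y → y ∈ out x ∨ x ∈ out y) :
    ∑ v, dg G v ≤ 2 * D * Fintype.card V := by
  have h1 : ∀ z ∈ (Finset.univ : Finset V), dg G z ≤ (out z).card +
      ((Finset.univ : Finset V).filter (fun w => z ∈ out w)).card := by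
    intro z _
    have hsub : nb G z ⊆ out z ∪ (Finset.univ : Finset V).filter (fun w => z ∈ out w) := by
      intro w hw
      rcases hout z w (mem_nb.1 hw) with h | h
      · exact Finset.mem_union_left _ h
      · exact Finset.mem_union_right _ (Finset.mem_filter.2 ⟨Finset.mem_univ _, h⟩)
    exact (Finset.card_le_card hsub).trans (Finset.card_union_le _ _)
  have h2 := Finset.sum_le_sum h1
  rw [Finset.sum_add_distrib] at h2
  have h3 : ∑ z, (out z).card ≤ D * Fintype.card V := by
    rw [mul_comm]
    exact Finset.sum_le_card_nsmul _ _ D (fun z _ => hD z)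
  have h5 := sum_filter_out out D hD Finset.univ Finset.univ
  rw [Finset.card_univ] at h5
  have h6 : 2 * D * Fintype.card V = D * Fintype.card V + D * Fintype.card V := by ring
  rw [h6]
  omega

end Pool.Agent.BD48
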