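import Mathlib
import Pool.Agent.BD48.Fam
import Pool.Agent.BD48.Twin

/-!
The graph of the remaining non-edges at the hubs.
-/

namespace Pool.Agent.BD48

open Finset

attribute [local instance] Classical.propDecidable

variable {V : Type*} [Fintype V]

/-- the non-neighbours of a vertex, other than the vertex itself -/
noncomputable def coNn (G : SimpleGraph V) (z : V) : Finset V :=
  univ.filter (fun y => y ≠ z ∧ ¬ G.Adj z y)

lemma mem_coNn {G : SimpleGraph V} {z y : V} : y ∈ coNn G z ↔ y ≠ z ∧ ¬ G.Adj z y := by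
  unfold coNn
  rw [mem_filter]
  exact ⟨fun h => h.2, fun h => ⟨mem_univ _, h⟩⟩

lemma coNn_symm {G : SimpleGraph V} {z y : V} (h : y ∈ coNn G z) : z ∈ coNn G y := by
  rw [mem_coNn] at h ⊢
  exact ⟨h.1.symm, fun h2 => h.2 h2.symm⟩

lemma card_coNn (G : SimpleGraph V) (z : V) :
    (coNn G z).card + dg G z + 1 = Fintype.card V := by
  have h1 : coNn G z = univ \ insert z (nb G z) := by
    ext y
    rw [mem_coNn, mem_sdiff, mem_insert, mem_nb, not_or]
    exact ⟨fun h => ⟨mem_univ _, h⟩, fun h => h.2⟩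
  have h2 : z ∉ nb G z := fun h => G.loopless.irrefl z (mem_nb.mp h)
  have h3 : (insert z (nb G z)).card = dg G z + 1 := card_insert_of_notMem h2
  have h4 : (insert z (nb G z)).card ≤ Fintype.card V := card_le_univ _
  rw [h1, card_sdiff_of_subset (subset_univ _), card_univ, h3]
  omega

lemma card_common (G : SimpleGraph V) (S : Finset V) :
    (univ.filter (fun y => ∀ z ∈ S, y ∈ coNn G z)).card + S.card + (onb G S).card ≤
      Fintype.card V := by
  have hd1 : Disjoint (univ.filter (fun y => ∀ z ∈ S, y ∈ coNn G z)) S := by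
    rw [disjoint_left]
    intro y hy hyS
    exact (mem_coNn.mp ((mem_filter.mp hy).2 y hyS)).1 rfl
  have hd2 : Disjoint (univ.filter (fun y => ∀ z ∈ S, y ∈ coNn G z) ∪ S) (onb G S) := by
    rw [disjoint_left]
    intro y hy hyO
    obtain ⟨⟨x, hx, hxy⟩, hyn⟩ := mem_onb.mp hyO
    rcases mem_union.mp hy with h | h
    · exact (mem_coNn.mp ((mem_filter.mp h).2 x hx)).2 hxy
    · exact hyn h
  rw [← card_union_of_disjoint hd1, ← card_union_of_disjoint hd2]
  exact card_le_univ _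

/-- the sets which separate the non-neighbourhoods -/
lemma exists_sepC (G : SimpleGraph V) (p : ℕ) : ∃ C : V → V → Finset V, ∀ z v,
    C z v ⊆ coNn G z \ coNn G v ∧ (C z v).card ≤ p ∧
      (p ≤ (coNn G z \ coNn G v).card → (C z v).card = p) := by
  have h : ∀ z v, ∃ D : Finset V, D ⊆ coNn G z \ coNn G v ∧ D.card ≤ p ∧
      (p ≤ (coNn G z \ coNn G v).card → D.card = p) := by
    intro z v
    by_cases hc : p ≤ (coNn G z \ coNn G v).card
    · obtain ⟨D, hD, hcD⟩ := Finset.exists_subset_card_eq hc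
      exact ⟨D, hD, hcD.le, fun _ => hcD⟩
    · exact ⟨∅, empty_subset _, by simp, fun h2 => absurd h2 hc⟩
  choose C hC using h
  exact ⟨C, hC⟩

lemma card_biUnion_le_mul' {ι : Type*} (s : Finset ι) (f : ι → Finset V) (m p : ℕ)
    (hs : s.card ≤ p) (hf : ∀ i ∈ s, (f i).card ≤ m) : (s.biUnion f).card ≤ p * m :=
  (card_biUnion_le_card_mul s f m hf).trans (Nat.mul_le_mul_right m hs)

/-- the final count -/
lemma KH_count (G : SimpleGraph V) (Z : Finset V) (k t p : ℕ) (r : V → ℕ)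
    (hp : Z.card ≤ p) (hn : Fintype.card V = k + 1 + t) (hpt : p ≤ t)
    (hP : ∀ S ⊆ Z, S.Nonempty → k ≤ (onb G S).card + ∑ v ∈ S, r v)
    (C : V → V → Finset V)
    (hC : ∀ z v, C z v ⊆ coNn G z \ coNn G v ∧ (C z v).card ≤ p ∧
      (p ≤ (coNn G z \ coNn G v).card → (C z v).card = p))
    (R : V → Finset V) (hRc : ∀ z ∈ Z, (R z).card = min (r z) p)
    (hRd : ∀ z ∈ Z, ∀ v ∈ Z, z ≠ v → Disjoint (R z) (R v))
    (hR1 : ∀ z ∈ Z, R z ⊆ coNn G z)
    (hR2 : ∀ z ∈ Z, ∀ v ∈ Z, v ≠ z → (coNn G z \ coNn G v).card < p →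
      (coNn G v \ coNn G z).card < p → R z ⊆ coNn G v)
    (Ks : V → Finset V) (hK1 : ∀ z ∈ Z, Ks z ⊆ coNn G z \ R z)
    (hKc : ∀ z ∈ Z, (Ks z).card ≤ t)
    (hKC : ∀ z ∈ Z, ∀ v ∈ Z, v ≠ z → C z v ⊆ Ks z)
    (hKR : ∀ z ∈ Z, ∀ v ∈ Z, v ≠ z → (coNn G z \ coNn G v).card < p →
      (coNn G v \ coNn G z).card < p → R v ⊆ Ks z)
    (S : Finset V) (hS : S ⊆ Z) (hSne : S.Nonempty) (T : Finset V)
    (hT : ∀ z ∈ S, T ⊆ Ks z) : T.card + S.card ≤ t + 1 := by
  have hScard : S.card ≤ p := (card_le_card hS).trans hp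
  by_cases h1 : S.card = 1
  · obtain ⟨z, hz⟩ := hSne
    have h2 := card_le_card (hT z hz)
    have h3 := hKc z (hS hz)
    omega
  have h2 : 1 < S.card := by
    have := hSne.card_pos
    omega
  -- case A
  by_cases hA : ∃ z ∈ S, ∃ v ∈ S, v ≠ z ∧ p ≤ (coNn G z \ coNn G v).card
  · obtain ⟨z, hz, v, hv, hvz, hpc⟩ := hA
    have hCK := hKC z (hS hz) v (hS hv) hvz
    have hCc := (hC z v).2.2 hpc
    have hdis : Disjoint T (C z v) := by
      rw [disjoint_left]
      intro y hy hyC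
      have h3 := (mem_sdiff.mp (hK1 v (hS hv) (hT v hv hy))).1
      exact (mem_sdiff.mp ((hC z v).1 hyC)).2 h3
    have h4 : (T ∪ C z v).card ≤ (Ks z).card := card_le_card (union_subset (hT z hz) hCK)
    rw [card_union_of_disjoint hdis] at h4
    have h5 := hKc z (hS hz)
    omega
  push Not at hA
  by_cases hB : ∃ z ∈ S, p ≤ r z
  · obtain ⟨z, hz, hrz⟩ := hB
    obtain ⟨v, hv, hvz⟩ := exists_mem_ne h2 z
    have h3 : (coNn G v \ coNn G z).card < p := hA v hv z hz hvz.symm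
    have h4 : (coNn G z \ coNn G v).card < p := hA z hz v hv hvz
    have h5 := hKR v (hS hv) z (hS hz) hvz.symm h3 h4
    have h6 := hRc z (hS hz)
    rw [min_eq_right hrz] at h6
    have hdis : Disjoint T (R z) := by
      rw [disjoint_left]
      intro y hy hyR
      exact (mem_sdiff.mp (hK1 z (hS hz) (hT z hz hy))).2 hyR
    have h7 : (T ∪ R z).card ≤ (Ks v).card := card_le_card (union_subset (hT v hv) h5)
    rw [card_union_of_disjoint hdis] at h7
    have h8 := hKc v (hS hv)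
    omega
  push Not at hB
  have hcom := card_common G S
  have hPS := hP S hS hSne
  have hU : (S.biUnion R).card = ∑ z ∈ S, r z := by
    rw [card_biUnion (fun z hz v hv hzv => hRd z (hS hz) v (hS hv) hzv)]
    refine sum_congr rfl (fun z hz => ?_)
    rw [hRc z (hS hz), min_eq_left (hB z hz).le]
  have hdis : Disjoint T (S.biUnion R) := by
    rw [disjoint_left]
    intro y hy hyU
    obtain ⟨z, hz, hyz⟩ := mem_biUnion.mp hyU
    exact (mem_sdiff.mp (hK1 z (hS hz) (hT z hz hy))).2 hyz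
  have hsub : T ∪ S.biUnion R ⊆ univ.filter (fun y => ∀ z ∈ S, y ∈ coNn G z) := by
    intro y hy
    rw [mem_filter]
    refine ⟨mem_univ _, fun z hz => ?_⟩
    rcases mem_union.mp hy with h | h
    · exact (mem_sdiff.mp (hK1 z (hS hz) (hT z hz h))).1
    · obtain ⟨v, hv, hyv⟩ := mem_biUnion.mp h
      by_cases hvz : v = z
      · rw [hvz] at hyv
        exact hR1 z (hS hz) hyv
      · exact hR2 v (hS hv) z (hS hz) (fun h => hvz h.symm) (hA v hv z hz (fun h => hvz h.symm))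
          (hA z hz v hv hvz) hyv
  have h9 := card_le_card hsub
  rw [card_union_of_disjoint hdis, hU] at h9
  omega

/-- the reserved sets -/
lemma KH_res (G : SimpleGraph V) (Z : Finset V) (k t p : ℕ) (r : V → ℕ)
    (hp : Z.card ≤ p) (hn : Fintype.card V = k + 1 + t) (ht : 10 * p ^ 3 + 100 ≤ t)
    (hr2 : ∀ z ∈ Z, 1 ≤ r z → dg G z ≤ k + p) (PP : Finset V) (hPP : PP.card ≤ p * (p * p)) :
    ∃ R : V → Finset V, (∀ z ∈ Z, (R z).card = min (r z) p) ∧
      (∀ z ∈ Z, ∀ v ∈ Z, z ≠ v → Disjoint (R z) (R v)) ∧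
      (∀ z ∈ Z, R z ⊆ coNn G z) ∧
      (∀ z ∈ Z, ∀ v ∈ Z, v ≠ z → (coNn G z \ coNn G v).card < p →
        (coNn G v \ coNn G z).card < p → R z ⊆ coNn G v) ∧
      (∀ z ∈ Z, Disjoint (R z) Z) ∧ (∀ z ∈ Z, Disjoint (R z) PP) := by
  have e1 : p ≤ p * p := Nat.le_mul_self p
  have e2 : p * p ≤ p * (p * p) := Nat.mul_le_mul_left p e1
  have e3 : p ^ 3 = p * (p * p) := by ring
  rw [e3] at ht
  obtain ⟨B, hBdef⟩ : ∃ B : V → Finset V, ∀ z, B z = if r z = 0 then ∅ else
      (univ \ coNn G z) ∪ ((Z.filter (fun v => (coNn G z \ coNn G v).card < p)).biUnion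
        (fun v => coNn G z \ coNn G v)) ∪ Z ∪ PP := ⟨_, fun _ => rfl⟩
  have hq : ∑ z' ∈ Z, min (r z') p ≤ p * p := by
    have h1 : ∑ z' ∈ Z, min (r z') p ≤ ∑ _z' ∈ Z, p := sum_le_sum (fun z _ => min_le_right _ _)
    rw [sum_const, smul_eq_mul] at h1
    exact h1.trans (Nat.mul_le_mul_right p hp)
  obtain ⟨R, hR1, hR2⟩ := exists_reserved Z B (fun z => min (r z) p) (by
    intro z hz
    rw [hBdef z]
    by_cases h0 : r z = 0
    · rw [if_pos h0, card_empty]
      omega
    · rw [if_neg h0]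
      have h1 := card_union_le ((univ \ coNn G z) ∪ ((Z.filter (fun v =>
        (coNn G z \ coNn G v).card < p)).biUnion (fun v => coNn G z \ coNn G v)) ∪ Z) PP
      have h2 := card_union_le ((univ \ coNn G z) ∪ ((Z.filter (fun v =>
        (coNn G z \ coNn G v).card < p)).biUnion (fun v => coNn G z \ coNn G v))) Z
      have h3 := card_union_le (univ \ coNn G z) ((Z.filter (fun v =>
        (coNn G z \ coNn G v).card < p)).biUnion (fun v => coNn G z \ coNn G v))
      have h4 : ((Z.filter (fun v => (coNn G z \ coNn G v).card < p)).biUnion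
          (fun v => coNn G z \ coNn G v)).card ≤ p * p :=
        card_biUnion_le_mul' _ _ p p ((card_le_card (filter_subset _ _)).trans hp)
          (fun v hv => (mem_filter.mp hv).2.le)
      have h5 : (univ \ coNn G z).card = Fintype.card V - (coNn G z).card := by
        rw [card_sdiff_of_subset (subset_univ _), card_univ]
      have h6 := card_coNn G z
      have h7 := hr2 z hz (by omega)
      omega)
  have hBz : ∀ z ∈ Z, ∀ y ∈ R z, (y ∈ coNn G z) ∧ (∀ v ∈ Z, (coNn G z \ coNn G v).card < p →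
      y ∈ coNn G v) ∧ y ∉ Z ∧ y ∉ PP := by
    intro z hz y hy
    have h1 := hR1 z hz
    have h0 : r z ≠ 0 := by
      intro h0
      have h2 := h1.2
      simp only [h0, Nat.zero_min] at h2
      rw [card_eq_zero] at h2
      rw [h2] at hy
      exact absurd hy (notMem_empty y)
    have h3 := disjoint_left.mp h1.1 hy
    rw [hBdef z, if_neg h0] at h3
    simp only [mem_union, mem_sdiff, mem_univ, true_and, not_or, not_not, mem_biUnion,
      mem_filter, not_exists, not_and] at h3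
    refine ⟨h3.1.1.1, fun v hv hc => ?_, h3.1.2, h3.2⟩
    exact h3.1.1.2 v ⟨hv, hc⟩ h3.1.1.1
  refine ⟨R, fun z hz => (hR1 z hz).2, hR2, fun z hz y hy => (hBz z hz y hy).1,
    fun z hz v hv _ hc _ y hy => (hBz z hz y hy).2.1 v hv hc,
    fun z hz => disjoint_left.mpr (fun y hy => (hBz z hz y hy).2.2.1),
    fun z hz => disjoint_left.mpr (fun y hy => (hBz z hz y hy).2.2.2)⟩

/-- the graph at the hubs -/
theorem exists_KH (G : SimpleGraph V) (Z : Finset V) (k t p : ℕ) (r : V → ℕ)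
    (hp : Z.card ≤ p) (hn : Fintype.card V = k + 1 + t) (ht : 10 * p ^ 3 + 100 ≤ t)
    (hP : ∀ S ⊆ Z, S.Nonempty → k ≤ (onb G S).card + ∑ v ∈ S, r v)
    (hr1 : ∀ z ∈ Z, r z ≤ (k - dg G z) + p) (hr2 : ∀ z ∈ Z, 1 ≤ r z → dg G z ≤ k + p) :
    ∃ K : SimpleGraph V, (∀ x y, K.Adj x y → x ∈ Z ∨ y ∈ Z) ∧ (∀ x y, K.Adj x y → ¬ G.Adj x y) ∧
      (∀ z ∈ Z, dg K z + dg G z + r z + 1 = Fintype.card V) ∧
      (∀ S ⊆ Z, S.Nonempty → ∀ T : Finset V, (∀ y ∈ T, ∀ z ∈ S, K.Adj z y) →
        T.card + S.card ≤ t + 1) := by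
  have e1 : p ≤ p * p := Nat.le_mul_self p
  have e2 : p * p ≤ p * (p * p) := Nat.mul_le_mul_left p e1
  have e3 : p ^ 3 = p * (p * p) := by ring
  have ht' := ht
  rw [e3] at ht'
  obtain ⟨C, hC⟩ := exists_sepC G p
  have hPz : ∀ z, (Z.biUnion (fun v => C z v)).card ≤ p * p :=
    fun z => card_biUnion_le_mul' _ _ p p hp (fun v _ => (hC z v).2.1)
  have hPP : (Z.biUnion (fun z => Z.biUnion (fun v => C z v))).card ≤ p * (p * p) :=
    card_biUnion_le_mul' _ _ _ p hp (fun z _ => hPz z)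
  obtain ⟨R, hRc, hRd, hR1, hR2, hRZ, hRP⟩ := KH_res G Z k t p r hp hn ht hr2 _ hPP
  -- the degrees
  have htau : ∀ z ∈ Z, r z ≤ (coNn G z).card ∧ (coNn G z).card ≤ t + r z ∧
      (1 ≤ r z → t - 2 * p ≤ (coNn G z).card - r z) := by
    intro z hz
    have h1 := card_coNn G z
    have h2 := hP {z} (singleton_subset_iff.mpr hz) (singleton_nonempty z)
    rw [sum_singleton, onb_singleton] at h2
    have h2' : k ≤ dg G z + r z := h2
    have h3 := hr1 z hz
    have h4 := hr2 z hz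
    refine ⟨?_, by omega, ?_⟩
    · by_cases h0 : r z = 0
      · omega
      · have h5 := h4 (by omega)
        omega
    · intro h0
      have h5 := h4 h0
      omega
  -- the sets
  have hex : ∀ z, ∃ D : Finset V, z ∈ Z → (D ⊆ coNn G z \ R z ∧
      D.card = (coNn G z).card - r z ∧ (∀ v ∈ Z, C z v ⊆ D) ∧ (coNn G z ∩ Z ⊆ D) ∧
      (∀ v ∈ Z, v ≠ z → (coNn G z \ coNn G v).card < p → (coNn G v \ coNn G z).card < p →
        R v ⊆ D)) := by
    intro z
    by_cases hz : z ∈ Z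
    swap
    · exact ⟨∅, fun h => absurd h hz⟩
    have hc1 : (coNn G z \ R z).card = (coNn G z).card - min (r z) p := by
      rw [card_sdiff_of_subset (hR1 z hz), hRc z hz]
    have hbase1 : Z.biUnion (fun v => C z v) ⊆ coNn G z \ R z := by
      intro y hy
      rw [mem_sdiff]
      obtain ⟨v, hv, hyv⟩ := mem_biUnion.mp hy
      refine ⟨(mem_sdiff.mp ((hC z v).1 hyv)).1, fun hyR => ?_⟩
      exact disjoint_left.mp (hRP z hz) hyR (mem_biUnion.mpr ⟨z, hz, hy⟩)
    have hbase2 : coNn G z ∩ Z ⊆ coNn G z \ R z := by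
      intro y hy
      rw [mem_inter] at hy
      exact mem_sdiff.mpr ⟨hy.1, fun hyR => disjoint_left.mp (hRZ z hz) hyR hy.2⟩
    have hbase3 : (Z.filter (fun v => v ≠ z ∧ (coNn G z \ coNn G v).card < p ∧
        (coNn G v \ coNn G z).card < p)).biUnion R ⊆ coNn G z \ R z := by
      intro y hy
      obtain ⟨v, hv, hyv⟩ := mem_biUnion.mp hy
      obtain ⟨hvZ, hvz, ha, hb⟩ := mem_filter.mp hv
      refine mem_sdiff.mpr ⟨hR2 v hvZ z hz hvz.symm hb ha hyv, fun hyR => ?_⟩
      exact disjoint_left.mp (hRd v hvZ z hz hvz) hyv hyR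
    have hfin : ∀ D : Finset V, D ⊆ coNn G z \ R z → D.card = (coNn G z).card - r z →
        (Z.biUnion (fun v => C z v) ∪ (coNn G z ∩ Z) ∪ (Z.filter (fun v => v ≠ z ∧
          (coNn G z \ coNn G v).card < p ∧ (coNn G v \ coNn G z).card < p)).biUnion R) ⊆ D →
        (D ⊆ coNn G z \ R z ∧
        D.card = (coNn G z).card - r z ∧ (∀ v ∈ Z, C z v ⊆ D) ∧ (coNn G z ∩ Z ⊆ D) ∧
        (∀ v ∈ Z, v ≠ z → (coNn G z \ coNn G v).card < p → (coNn G v \ coNn G z).card < p →
          R v ⊆ D)) := by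
      intro D h1 h2 h3
      refine ⟨h1, h2, fun v hv y hy => h3 ?_, fun y hy => h3 ?_, fun v hv hvz ha hb y hy => h3 ?_⟩
      · exact mem_union_left _ (mem_union_left _ (mem_biUnion.mpr ⟨v, hv, hy⟩))
      · exact mem_union_left _ (mem_union_right _ hy)
      · exact mem_union_right _ (mem_biUnion.mpr ⟨v, mem_filter.mpr ⟨hv, hvz, ha, hb⟩, hy⟩)
    have hbase : (Z.biUnion (fun v => C z v) ∪ (coNn G z ∩ Z) ∪ (Z.filter (fun v => v ≠ z ∧
          (coNn G z \ coNn G v).card < p ∧ (coNn G v \ coNn G z).card < p)).biUnion R) ⊆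
          coNn G z \ R z := union_subset (union_subset hbase1 hbase2) hbase3
    by_cases hrp : r z < p
    · refine ⟨coNn G z \ R z, fun _ => hfin _ (Subset.refl _) ?_ hbase⟩
      rw [hc1, min_eq_left hrp.le]
    · have hrp' : p ≤ r z := not_lt.mp hrp
      have hp1 : 1 ≤ p := (card_pos.mpr ⟨z, hz⟩).trans_le hp
      have hbc : (Z.biUnion (fun v => C z v) ∪ (coNn G z ∩ Z) ∪ (Z.filter (fun v => v ≠ z ∧
          (coNn G z \ coNn G v).card < p ∧ (coNn G v \ coNn G z).card < p)).biUnion R).card ≤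
          (coNn G z).card - r z := by
        have h1 := card_union_le (Z.biUnion (fun v => C z v) ∪ (coNn G z ∩ Z))
          ((Z.filter (fun v => v ≠ z ∧ (coNn G z \ coNn G v).card < p ∧
            (coNn G v \ coNn G z).card < p)).biUnion R)
        have h2 := card_union_le (Z.biUnion (fun v => C z v)) (coNn G z ∩ Z)
        have h3 := hPz z
        have h4 := card_le_card (inter_subset_right : coNn G z ∩ Z ⊆ Z)
        have h5 : ((Z.filter (fun v => v ≠ z ∧ (coNn G z \ coNn G v).card < p ∧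
            (coNn G v \ coNn G z).card < p)).biUnion R).card ≤ p * p :=
          card_biUnion_le_mul' _ _ p p ((card_le_card (filter_subset _ _)).trans hp)
            (fun v hv => by
              rw [hRc v (mem_filter.mp hv).1]
              exact min_le_right _ _)
        have h6 := (htau z hz).2.2 (by omega)
        omega
      obtain ⟨D, hD1, hD2, hD3⟩ := Finset.exists_subsuperset_card_eq hbase hbc (by
        rw [hc1, min_eq_right hrp']
        omega)
      exact ⟨D, fun _ => hfin D hD2 hD3 hD1⟩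
  choose Ks hKs using hex
  have hKcard : ∀ z ∈ Z, (Ks z).card ≤ t := by
    intro z hz
    rw [(hKs z hz).2.1]
    have := (htau z hz).2.1
    omega
  have hKself : ∀ z ∈ Z, z ∉ Ks z := by
    intro z hz h
    exact (mem_coNn.mp (mem_sdiff.mp ((hKs z hz).1 h)).1).1 rfl
  let K : SimpleGraph V :=
    { Adj := fun x y => (x ∈ Z ∧ y ∈ Ks x) ∨ (y ∈ Z ∧ x ∈ Ks y)
      symm := ⟨fun x y h => h.symm⟩
      loopless := ⟨fun x h => by
        rcases h with h | h
        · exact hKself x h.1 h.2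
        · exact hKself x h.1 h.2⟩ }
  have hKadj : ∀ x y, K.Adj x y ↔ (x ∈ Z ∧ y ∈ Ks x) ∨ (y ∈ Z ∧ x ∈ Ks y) := fun x y => Iff.rfl
  have hKz : ∀ z ∈ Z, ∀ y, K.Adj z y ↔ y ∈ Ks z := by
    intro z hz y
    rw [hKadj]
    constructor
    · rintro (h | h)
      · exact h.2
      · have h1 := (mem_sdiff.mp ((hKs y h.1).1 h.2)).1
        exact (hKs z hz).2.2.2.1 (mem_inter.mpr ⟨coNn_symm h1, h.1⟩)
    · exact fun h => Or.inl ⟨hz, h⟩
  refine ⟨K, ?_, ?_, ?_, ?_⟩
  · intro x y h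
    rcases (hKadj x y).mp h with h | h
    · exact Or.inl h.1
    · exact Or.inr h.1
  · intro x y h
    rcases (hKadj x y).mp h with h | h
    · exact (mem_coNn.mp (mem_sdiff.mp ((hKs x h.1).1 h.2)).1).2
    · exact fun h2 => (mem_coNn.mp (mem_sdiff.mp ((hKs y h.1).1 h.2)).1).2 h2.symm
  · intro z hz
    have h1 : nb K z = Ks z := by
      ext y
      rw [mem_nb, hKz z hz y]
    have h2 : dg K z = (Ks z).card := by
      unfold dg
      rw [h1]
    rw [h2, (hKs z hz).2.1]
    have h3 := card_coNn G z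
    have h4 := (htau z hz).1
    omega
  · intro S hS hSne T hT
    exact KH_count G Z k t p r hp hn (by omega) hP C hC R hRc hRd hR1 hR2 Ks
      (fun z hz => (hKs z hz).1) hKcard (fun z hz v hv _ => (hKs z hz).2.2.1 v hv)
      (fun z hz => (hKs z hz).2.2.2.2) S hS hSne T
      (fun z hz y hy => (hKz z (hS hz) y).mp (hT y hy z hz))

end Pool.Agent.BD48
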