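import Mathlib
import Pool.Agent.BD48.Fam

/-!
Families of disjoint sets and graphs in which the vertices of small degree may have been made adjacent.
-/

namespace Pool.Agent.BD48

open Finset

attribute [local instance] Classical.propDecidable

variable {V : Type*} [Fintype V]

/-- one set -/
lemma fam_kernel_one (G H : SimpleGraph V) (k : ℕ) (inB : V → Prop) (hsep : SepFree H k)
    (hGH : G ≤ H) (hsmall : ∀ v, ¬ inB v → 2 * dg G v ≤ k) (hk : 1 ≤ k) (X : Finset V)
    (hX : X.Nonempty) (hXk : X.card + k ≤ Fintype.card V) :
    k - (onb G X).card ≤ ∑ v ∈ X, (if inB v then dg H v - dg G v else k - dg G v) := by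
  by_cases h1 : ∃ v ∈ X, ¬ inB v
  · obtain ⟨v, hv, hvB⟩ := h1
    have hv2 := hsmall v hvB
    by_cases h2 : ∃ w ∈ X, w ≠ v ∧ ¬ inB w
    · -- two vertices of small degree
      obtain ⟨w, hw, hwv, hwB⟩ := h2
      have hw2 := hsmall w hwB
      have h3 : ∑ x ∈ ({v, w} : Finset V), (if inB x then dg H x - dg G x else k - dg G x)
          ≤ ∑ x ∈ X, (if inB x then dg H x - dg G x else k - dg G x) := by
        refine Finset.sum_le_sum_of_subset ?_
        intro x hx
        rw [Finset.mem_insert, Finset.mem_singleton] at hx
        rcases hx with rfl | rfl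
        · exact hv
        · exact hw
      rw [Finset.sum_pair hwv.symm, if_neg hvB, if_neg hwB] at h3
      omega
    · -- one vertex of small degree
      have hB : ∀ w ∈ X.erase v, inB w := by
        intro w hw
        rw [Finset.mem_erase] at hw
        by_contra hcon
        exact h2 ⟨w, hw.2, hw.1, hcon⟩
      have hsplit : ∑ x ∈ X, (if inB x then dg H x - dg G x else k - dg G x)
          = (k - dg G v) + ∑ x ∈ X.erase v, (dg H x - dg G x) := by
        rw [← Finset.add_sum_erase X _ hv, if_neg hvB]
        congr 1
        exact Finset.sum_congr rfl (fun x hx => if_pos (hB x hx))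
      rw [hsplit]
      by_cases h3 : (X.erase v).Nonempty
      · have h4 := Finset.card_erase_add_one hv
        have h5 := fam_one G H hGH k hsep (X.erase v) h3 (by omega)
        have h6 : onb G (X.erase v) ⊆ insert v (onb G X) := by
          intro y hy
          rw [mem_onb] at hy
          rw [Finset.mem_insert, mem_onb]
          by_cases h7 : y = v
          · exact Or.inl h7
          · right
            obtain ⟨⟨x, hx, hxy⟩, hyX⟩ := hy
            refine ⟨⟨x, Finset.mem_of_mem_erase hx, hxy⟩, ?_⟩
            intro h8
            exact hyX (Finset.mem_erase.mpr ⟨h7, h8⟩)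
        have h7 := Finset.card_le_card h6
        have h8 := Finset.card_insert_le v (onb G X)
        omega
      · have h4 : X = {v} := by
          ext x
          rw [Finset.mem_singleton]
          constructor
          · intro hx
            by_contra hcon
            exact h3 ⟨x, Finset.mem_erase.mpr ⟨hcon, hx⟩⟩
          · rintro rfl
            exact hv
        rw [h4, onb_singleton]
        exact Nat.le_add_right _ _
  · push Not at h1
    have h2 := fam_one G H hGH k hsep X hX hXk
    refine le_trans h2 (le_of_eq ?_)
    exact Finset.sum_congr rfl (fun x hx => (if_pos (h1 x hx)).symm)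

/-- the value of a family and the degrees at the vertices of large degree -/
theorem fam_kernel (G H : SimpleGraph V) (k : ℕ) (inB : V → Prop) (hsep : SepFree H k)
    (hGH : G ≤ H) (hsmall : ∀ v, ¬ inB v → 2 * dg G v ≤ k) (hk : 1 ≤ k)
    (F : Finset (Finset V)) (hF : Fam k F) :
    val G k F ≤ ∑ v, (if inB v then dg H v - dg G v else k - dg G v) := by
  have h1 : val G k F ≤ ∑ X ∈ F, ∑ v ∈ X, (if inB v then dg H v - dg G v else k - dg G v) :=
    Finset.sum_le_sum (fun X hX =>
      fam_kernel_one G H k inB hsep hGH hsmall hk X (hF.1 X hX).1 (hF.1 X hX).2)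
  have h2 : ∑ X ∈ F, ∑ v ∈ X, (if inB v then dg H v - dg G v else k - dg G v)
      = ∑ v ∈ F.biUnion id, (if inB v then dg H v - dg G v else k - dg G v) := by
    rw [Finset.sum_biUnion]
    · rfl
    · intro X hX Y hY hXY
      exact hF.2 X hX Y hY hXY
  rw [h2] at h1
  exact le_trans h1 (Finset.sum_le_sum_of_subset (Finset.subset_univ _))

end Pool.Agent.BD48
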