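import Mathlib
import Pool.Agent.BD48.Harary

/-!
Every graph of small maximum degree has a highly connected supergraph with the least possible number
of edges.
-/

namespace Pool.Agent.BD48

open Finset

attribute [local instance] Classical.propDecidable

section transport

variable {V W : Type*} [Fintype V] [Fintype W]

lemma dg_comap (π : V ≃ W) (H : SimpleGraph W) (v : V) : dg (H.comap π) v = dg H (π v) := by
  unfold dg
  refine Finset.card_bij (fun x _ => π x) ?_ ?_ ?_
  · intro x hx
    rw [mem_nb] at hx ⊢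
    exact hx
  · intro a _ b _ hab
    exact π.injective hab
  · intro y hy
    rw [mem_nb] at hy
    refine ⟨π.symm y, ?_, π.apply_symm_apply y⟩
    rw [mem_nb, SimpleGraph.comap_adj, π.apply_symm_apply]
    exact hy

lemma sepFree_comap (π : V ≃ W) (H : SimpleGraph W) (k : ℕ) (h : SepFree H k) :
    SepFree (H.comap π) k := by
  intro C D X hcov hCD hCX hDX hC hD hXk hno
  have hmem : ∀ (S : Finset V) (y : W), y ∈ S.image π ↔ π.symm y ∈ S := by
    intro S y
    rw [Finset.mem_image]
    constructor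
    · rintro ⟨x, hx, rfl⟩
      rw [π.symm_apply_apply]
      exact hx
    · intro hy
      exact ⟨π.symm y, hy, π.apply_symm_apply y⟩
  refine h (C.image π) (D.image π) (X.image π) ?_ ?_ ?_ ?_ (hC.image π) (hD.image π) ?_ ?_
  · intro y
    rw [hmem, hmem, hmem]
    exact hcov _
  · intro y
    rw [hmem, hmem]
    exact hCD _
  · intro y
    rw [hmem, hmem]
    exact hCX _
  · intro y
    rw [hmem, hmem]
    exact hDX _
  · rw [Finset.card_image_of_injective _ π.injective]
    exact hXk
  · intro x hx y hy hadj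
    rw [hmem] at hx hy
    refine hno _ hx _ hy ?_
    rw [SimpleGraph.comap_adj, π.apply_symm_apply, π.apply_symm_apply]
    exact hadj

end transport

variable {V : Type*} [Fintype V]

/-- the arithmetic of the bounds -/
lemma arith (d k : ℕ) (hk : 400 * (d + 1) ^ 4 ≤ k) :
    2 * (d * (9 * (2 * ((d + 2) * (d + 2) + 2 * (d + 2) + 5)) + 2)) + d + 1 ≤ k ∧
    2 * ((d + d * d) * (2 * (9 * (2 * ((d + 2) * (d + 2) + 2 * (d + 2) + 5)) + 1)))
      + (d + d * d) + 1 ≤ k ∧
    12 * (2 * ((d + 2) * (d + 2) + 2 * (d + 2) + 5)) + 4 ≤ k := by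
  refine ⟨le_trans ?_ hk, le_trans ?_ hk, le_trans ?_ hk⟩
  · nlinarith [Nat.zero_le d, Nat.zero_le (d * d), Nat.zero_le (d * d * d),
      Nat.zero_le (d * d * d * d)]
  · nlinarith [Nat.zero_le d, Nat.zero_le (d * d), Nat.zero_le (d * d * d),
      Nat.zero_le (d * d * d * d)]
  · nlinarith [Nat.zero_le d, Nat.zero_le (d * d), Nat.zero_le (d * d * d),
      Nat.zero_le (d * d * d * d)]

/-- the supergraph -/
theorem exists_super (G : SimpleGraph V) (d k : ℕ) (hd : ∀ v, dg G v ≤ d)
    (hk : 400 * (d + 1) ^ 4 ≤ k) (hkn : k + 1 ≤ Fintype.card V) :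
    ∃ H : SimpleGraph V, G ≤ H ∧ SepFree H k ∧ ∑ v, dg H v ≤ k * Fintype.card V + 1 := by
  obtain ⟨n, hn⟩ : ∃ n, n = Fintype.card V := ⟨_, rfl⟩
  rw [← hn] at hkn ⊢
  obtain ⟨a1, a2, a3⟩ := arith d k hk
  obtain ⟨b, hb⟩ : ∃ b, b = (d + 2) * (d + 2) + 2 * (d + 2) + 5 := ⟨_, rfl⟩
  rw [← hb] at a1 a2 a3
  obtain ⟨m, hm⟩ : ∃ m, m = 2 * b := ⟨_, rfl⟩
  rw [← hm] at a1 a2 a3
  have hn0 : NeZero n := ⟨by omega⟩
  have hcard : Fintype.card V = Fintype.card (ZMod n) := by rw [ZMod.card, hn]
  have e : V ≃ ZMod n := Fintype.equivOfCardEq hcard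
  obtain ⟨r, hr⟩ : ∃ r, r = k / 2 := ⟨_, rfl⟩
  have hsum : ∀ (π : V ≃ ZMod n) (H : SimpleGraph (ZMod n)),
      ∑ v, dg (H.comap π) v = ∑ v, dg H v := by
    intro π H
    rw [← Equiv.sum_comp π (fun v => dg H v)]
    exact Finset.sum_congr rfl (fun v _ => dg_comap π H v)
  by_cases hreg : n ≤ 2 * r + 9 * m + 2
  · -- few non-neighbours: a Harary graph
    obtain ⟨H, hsep, hdeg, hle⟩ := harary (n := n) k (by omega) hkn
    have hcompl : ∀ v, dg Hᶜ v ≤ 9 * m + 1 := by
      intro v
      have h1 : nb Hᶜ v = (insert v (nb H v))ᶜ := by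
        ext y
        rw [mem_nb, SimpleGraph.compl_adj, Finset.mem_compl, Finset.mem_insert, mem_nb, not_or]
        exact and_congr_left (fun _ => ⟨fun h h' => h h'.symm, fun h h' => h h'.symm⟩)
      have h2 : dg Hᶜ v = n - (dg H v + 1) := by
        unfold dg
        rw [h1, Finset.card_compl, ZMod.card, Finset.card_insert_of_notMem]
        rw [mem_nb]
        exact fun h => h.ne rfl
      have h3 := hdeg v
      omega
    obtain ⟨π, hπ⟩ := pack G Hᶜ e d (9 * m + 1) hd hcompl (by
      rw [← hn]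
      have : 2 * (d * (9 * m + 1)) ≤ 2 * (d * (9 * m + 2)) :=
        Nat.mul_le_mul_left _ (Nat.mul_le_mul_left _ (by omega))
      omega)
    refine ⟨H.comap π, ?_, sepFree_comap π H k hsep, ?_⟩
    · intro u v huv
      have h1 := hπ u v huv
      rw [SimpleGraph.compl_adj, not_and, not_not] at h1
      exact h1 (fun h => huv.ne (π.injective h))
    · rw [hsum]
      exact hle
  · push Not at hreg
    -- the graph of pairs at distance at most two
    let G2 : SimpleGraph V :=
      { Adj := fun u v => u ≠ v ∧ (G.Adj u v ∨ ∃ x, G.Adj u x ∧ G.Adj x v)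
        symm := ⟨by
          rintro u v ⟨h1, h2 | ⟨x, h2, h3⟩⟩
          · exact ⟨h1.symm, Or.inl h2.symm⟩
          · exact ⟨h1.symm, Or.inr ⟨x, h3.symm, h2.symm⟩⟩⟩
        loopless := ⟨fun u h => h.1 rfl⟩ }
    have hG2 : ∀ v, dg G2 v ≤ d + d * d := by
      intro v
      have h1 : nb G2 v ⊆ nb G v ∪ (nb G v).biUnion (fun y => nb G y) := by
        intro y hy
        rw [mem_nb] at hy
        rw [Finset.mem_union, mem_nb, Finset.mem_biUnion]
        rcases hy.2 with h | ⟨x, h2, h3⟩
        · exact Or.inl h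
        · exact Or.inr ⟨x, mem_nb.mpr h2, mem_nb.mpr h3⟩
      refine le_trans (Finset.card_le_card h1) (le_trans (Finset.card_union_le _ _) ?_)
      exact Nat.add_le_add (hd v) (card_second G d hd v)
    -- the forbidden differences
    let B : Finset ℕ := Finset.Icc 1 (3 * m) ∪ Finset.Icc (r + 1) (r + 6 * m + 1)
    have hBc : B.card ≤ 9 * m + 1 := by
      refine le_trans (Finset.card_union_le _ _) ?_
      rw [Nat.card_Icc, Nat.card_Icc]
      omega
    let R : SimpleGraph (ZMod n) :=
      { Adj := fun x y => x ≠ y ∧ ∃ i ∈ B, y = x + (i : ZMod n) ∨ x = y + (i : ZMod n)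
        symm := ⟨by
          rintro x y ⟨h1, i, hi, h2⟩
          exact ⟨h1.symm, i, hi, h2.symm⟩⟩
        loopless := ⟨fun x h => h.1 rfl⟩ }
    have hR : ∀ v, dg R v ≤ 2 * (9 * m + 1) := by
      intro v
      have h1 : nb R v ⊆ B.image (fun i : ℕ => v + (i : ZMod n)) ∪
          B.image (fun i : ℕ => v - (i : ZMod n)) := by
        intro y hy
        rw [mem_nb] at hy
        obtain ⟨_, i, hi, h2 | h2⟩ := hy
        · exact Finset.mem_union_left _ (Finset.mem_image.mpr ⟨i, hi, h2.symm⟩)
        · refine Finset.mem_union_right _ (Finset.mem_image.mpr ⟨i, hi, ?_⟩)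
          rw [h2]
          ring
      refine le_trans (Finset.card_le_card h1) (le_trans (Finset.card_union_le _ _) ?_)
      have h2 := Finset.card_image_le (s := B) (f := fun i : ℕ => v + (i : ZMod n))
      have h3 := Finset.card_image_le (s := B) (f := fun i : ℕ => v - (i : ZMod n))
      omega
    obtain ⟨π, hπ⟩ := pack G2 R e (d + d * d) (2 * (9 * m + 1)) hG2 hR (by
      rw [← hn]
      omega)
    -- the transported graph
    let G' : SimpleGraph (ZMod n) := G.comap π.symm
    have hG' : ∀ x y, G'.Adj x y ↔ G.Adj (π.symm x) (π.symm y) := fun x y => Iff.rfl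
    have hG'd : ∀ v, dg G' v ≤ d := by
      intro v
      rw [dg_comap π.symm G v]
      exact hd _
    have hforb : ∀ (v : ZMod n) (i : ℕ), i ∈ B → i < n → 1 ≤ i →
        ¬ G2.Adj (π.symm v) (π.symm (v + (i : ZMod n))) := by
      intro v i hi hin hi1 hadj
      have h1 := hπ _ _ hadj
      rw [π.apply_symm_apply, π.apply_symm_apply] at h1
      refine h1 ⟨?_, i, hi, Or.inl rfl⟩
      intro h2
      have h3 : v + ((0 : ℕ) : ZMod n) = v + (i : ZMod n) := by
        rw [Nat.cast_zero, add_zero]
        exact h2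
      have := cast_add_inj (by omega) hin h3
      omega
    have hne : ∀ (v : ZMod n) (i : ℕ), i < n → 1 ≤ i →
        π.symm v ≠ π.symm (v + (i : ZMod n)) := by
      intro v i hin hi1 h
      have h2 := π.symm.injective h
      have h3 : v + ((0 : ℕ) : ZMod n) = v + (i : ZMod n) := by
        rw [Nat.cast_zero, add_zero]
        exact h2
      have := cast_add_inj (by omega) hin h3
      omega
    obtain ⟨H, hGH, hsep, hle⟩ := build G' d k r m b hG'd hb hm (by omega) (by omega) (by omega)
      (by omega)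
      (by
        intro v i hi1 hi2
        have hB : i ∈ B := Finset.mem_union_left _ (Finset.mem_Icc.mpr ⟨hi1, hi2⟩)
        have h1 := hforb v i hB (by omega) hi1
        have h2 := hne v i (by omega) hi1
        refine ⟨?_, ?_⟩
        · intro h3
          exact h1 ⟨h2, Or.inl h3⟩
        · intro x h3 h4
          exact h1 ⟨h2, Or.inr ⟨_, h3, h4⟩⟩)
      (by
        intro v i hi1 hi2 h3
        have hB : i ∈ B := Finset.mem_union_right _ (Finset.mem_Icc.mpr ⟨hi1, hi2⟩)
        exact hforb v i hB (by omega) (by omega) ⟨hne v i (by omega) (by omega), Or.inl h3⟩)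
    refine ⟨H.comap π, ?_, sepFree_comap π H k hsep, ?_⟩
    · intro u v huv
      rw [SimpleGraph.comap_adj]
      apply hGH
      rw [hG', π.symm_apply_apply, π.symm_apply_apply]
      exact huv
    · rw [hsum]
      exact hle

end Pool.Agent.BD48
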