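import Mathlib
import Pool.Agent.BD48.Pack

/-!
Placing two graphs on the same set with few conflicts at every vertex.
-/

namespace Pool.Agent.BD48

open Finset

attribute [local instance] Classical.propDecidable

variable {V W : Type*} [Fintype V] [Fintype W]

lemma sum_pairs_split (I : V → V → ℕ) (hsymm : ∀ x y, I x y = I y x) (hself : ∀ x, I x x = 0)
    (u w : V) (huw : u ≠ w) :
    ∑ x, ∑ y, I x y + 2 * I u w
      = ∑ x ∈ (univ.erase u).erase w, ∑ y ∈ (univ.erase u).erase w, I x y
        + 2 * ∑ y, I u y + 2 * ∑ y, I w y := by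
  have key : ∀ g : V → ℕ, ∑ x, g x = ∑ x ∈ (univ.erase u).erase w, g x + g u + g w := by
    intro g
    have h1 := Finset.sum_erase_add univ g (Finset.mem_univ u)
    have h2 := Finset.sum_erase_add (univ.erase u) g
      (Finset.mem_erase.mpr ⟨huw.symm, Finset.mem_univ w⟩)
    omega
  have h1 := key (fun x => ∑ y, I x y)
  have h2 : ∑ x ∈ (univ.erase u).erase w, ∑ y, I x y
      = ∑ x ∈ (univ.erase u).erase w, ∑ y ∈ (univ.erase u).erase w, I x y
        + ∑ x ∈ (univ.erase u).erase w, I u x + ∑ x ∈ (univ.erase u).erase w, I w x := by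
    rw [← Finset.sum_add_distrib, ← Finset.sum_add_distrib]
    refine Finset.sum_congr rfl ?_
    intro x _
    rw [key (fun y => I x y), hsymm x u, hsymm x w]
  have h3 := key (fun x => I u x)
  have h4 := key (fun x => I w x)
  rw [hself u] at h3
  rw [hself w, hsymm w u] at h4
  omega

/-- the packing lemma with few conflicts -/
theorem packC (G : SimpleGraph V) (R : SimpleGraph W) (e : V ≃ W) (a b : ℕ)
    (ha : ∀ v, dg G v ≤ a) (hb : ∀ w, dg R w ≤ b) (hn : 3 ≤ Fintype.card V) :
    ∃ π : V ≃ W, ∀ u, (Fintype.card V - 3) *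
      (univ.filter (fun v => G.Adj u v ∧ R.Adj (π u) (π v))).card ≤ 2 * (a * b) := by
  have : Nonempty (V ≃ W) := ⟨e⟩
  let I : (V ≃ W) → V → V → ℕ := fun π x y => if G.Adj x y ∧ R.Adj (π x) (π y) then 1 else 0
  obtain ⟨π, hπ⟩ := Finite.exists_min (fun π : V ≃ W => ∑ x, ∑ y, I π x y)
  have hIsymm : ∀ (π : V ≃ W) x y, I π x y = I π y x := by
    intro π x y
    simp only [I, G.adj_comm x y, R.adj_comm (π x) (π y)]
  have hIself : ∀ (π : V ≃ W) x, I π x x = 0 := by
    intro π x
    simp [I]
  have hconf : ∀ (π : V ≃ W) (u : V),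
      (univ.filter (fun v => G.Adj u v ∧ R.Adj (π u) (π v))).card = ∑ y, I π u y := by
    intro π u
    rw [Finset.card_filter]
  refine ⟨π, ?_⟩
  intro u
  rw [hconf]
  let al : V → ℕ := fun w => ∑ y, if G.Adj u y ∧ R.Adj (π w) (π y) then 1 else 0
  let be : V → ℕ := fun w => ∑ y, if G.Adj w y ∧ R.Adj (π u) (π y) then 1 else 0
  have hRdeg : ∀ x : V, (univ.filter (fun w : V => R.Adj (π w) (π x))).card ≤ b := by
    intro x
    refine le_trans ?_ (hb (π x))
    unfold dg
    refine Finset.card_le_card_of_injOn (fun w => π w) ?_ (π.injective.injOn)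
    intro w hw
    simp only [coe_filter, mem_univ, true_and, Set.mem_ofPred_eq] at hw
    rw [Finset.mem_coe, mem_nb]
    exact hw.symm
  have hal : ∑ w, al w ≤ a * b := by
    simp only [al]
    rw [Finset.sum_comm]
    have h1 : ∀ y ∈ (univ : Finset V), (∑ w : V, if G.Adj u y ∧ R.Adj (π w) (π y) then 1 else 0)
        ≤ if G.Adj u y then b else 0 := by
      intro y _
      split_ifs with h
      · rw [← Finset.card_filter]
        refine le_trans (Finset.card_le_card ?_) (hRdeg y)
        intro w hw
        rw [Finset.mem_filter] at hw ⊢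
        exact ⟨hw.1, hw.2.2⟩
      · simp [h]
    refine le_trans (Finset.sum_le_sum h1) ?_
    rw [← Finset.sum_filter, Finset.sum_const, smul_eq_mul]
    refine Nat.mul_le_mul_right _ ?_
    refine le_trans (le_of_eq ?_) (ha u)
    rfl
  have hbe : ∑ w, be w ≤ a * b := by
    simp only [be]
    rw [Finset.sum_comm]
    have h1 : ∀ y ∈ (univ : Finset V), (∑ w : V, if G.Adj w y ∧ R.Adj (π u) (π y) then 1 else 0)
        ≤ if R.Adj (π y) (π u) then a else 0 := by
      intro y _
      split_ifs with h
      · rw [← Finset.card_filter]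
        refine le_trans (Finset.card_le_card ?_) (ha y)
        intro w hw
        rw [Finset.mem_filter] at hw
        rw [mem_nb]
        exact hw.2.1.symm
      · have h' : ¬ R.Adj (π u) (π y) := fun h'' => h h''.symm
        simp [h']
    refine le_trans (Finset.sum_le_sum h1) ?_
    rw [← Finset.sum_filter, Finset.sum_const, smul_eq_mul, mul_comm a b]
    exact Nat.mul_le_mul_right _ (hRdeg u)
  have hstep : ∀ w ∈ univ.erase u, ∑ y, I π u y ≤ al w + be w + 2 * I π u w := by
    intro w hw
    have hwu : w ≠ u := (Finset.mem_erase.mp hw).1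
    let π' : V ≃ W := (Equiv.swap u w).trans π
    have hπ'u : π' u = π w := by simp [π']
    have hπ'w : π' w = π u := by simp [π']
    have hπ'x : ∀ x, x ≠ u → x ≠ w → π' x = π x := by
      intro x h1 h2
      simp [π', Equiv.swap_apply_of_ne_of_ne h1 h2]
    have h1 := sum_pairs_split (I π) (hIsymm π) (hIself π) u w hwu.symm
    have h2 := sum_pairs_split (I π') (hIsymm π') (hIself π') u w hwu.symm
    have h3 : ∑ x ∈ (univ.erase u).erase w, ∑ y ∈ (univ.erase u).erase w, I π x y
        = ∑ x ∈ (univ.erase u).erase w, ∑ y ∈ (univ.erase u).erase w, I π' x y := by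
      refine Finset.sum_congr rfl ?_
      intro x hx
      refine Finset.sum_congr rfl ?_
      intro y hy
      rw [Finset.mem_erase, Finset.mem_erase] at hx hy
      simp only [I]
      rw [hπ'x x hx.2.1 hx.1, hπ'x y hy.2.1 hy.1]
    have h4 : I π' u w = I π u w := by
      simp only [I]
      rw [hπ'u, hπ'w, R.adj_comm (π w) (π u)]
    have h5 : ∑ x, ∑ y, I π x y ≤ ∑ x, ∑ y, I π' x y := hπ π'
    have h6 : ∑ y, I π' u y ≤ al w + I π u w := by
      have h7 : ∀ y ∈ (univ : Finset V), I π' u y ≤
          (if G.Adj u y ∧ R.Adj (π w) (π y) then 1 else 0) + (if w = y then I π u y else 0) := by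
        intro y _
        by_cases hyw : w = y
        · subst hyw
          rw [if_pos rfl, h4]
          exact Nat.le_add_left _ _
        · by_cases hyu : y = u
          · subst hyu
            rw [hIself]
            exact Nat.zero_le _
          · simp only [I]
            rw [hπ'u, hπ'x y hyu (Ne.symm hyw)]
            exact Nat.le_add_right _ _
      refine le_trans (Finset.sum_le_sum h7) ?_
      rw [Finset.sum_add_distrib, Finset.sum_ite_eq]
      simp [al]
    have h8 : ∑ y, I π' w y ≤ be w + I π u w := by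
      have h7 : ∀ y ∈ (univ : Finset V), I π' w y ≤
          (if G.Adj w y ∧ R.Adj (π u) (π y) then 1 else 0) + (if u = y then I π w y else 0) := by
        intro y _
        by_cases hyu : u = y
        · subst hyu
          rw [if_pos rfl, hIsymm π' w u, h4, hIsymm π w u]
          exact Nat.le_add_left _ _
        · by_cases hyw : y = w
          · subst hyw
            rw [hIself]
            exact Nat.zero_le _
          · simp only [I]
            rw [hπ'w, hπ'x y (Ne.symm hyu) hyw]
            exact Nat.le_add_right _ _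
      refine le_trans (Finset.sum_le_sum h7) ?_
      rw [Finset.sum_add_distrib, Finset.sum_ite_eq]
      simp [be, hIsymm π w u]
    omega
  have hsum := Finset.sum_le_sum hstep
  rw [Finset.sum_const, Finset.card_erase_of_mem (Finset.mem_univ u), Finset.card_univ,
    smul_eq_mul, Finset.sum_add_distrib, Finset.sum_add_distrib, ← Finset.mul_sum] at hsum
  have k1 : ∑ w ∈ univ.erase u, al w ≤ ∑ w, al w :=
    Finset.sum_le_sum_of_subset (Finset.erase_subset _ _)
  have k2 : ∑ w ∈ univ.erase u, be w ≤ ∑ w, be w :=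
    Finset.sum_le_sum_of_subset (Finset.erase_subset _ _)
  have k3 : ∑ w ∈ univ.erase u, I π u w ≤ ∑ w, I π u w :=
    Finset.sum_le_sum_of_subset (Finset.erase_subset _ _)
  have k4 : (Fintype.card V - 1) * ∑ y, I π u y
      = (Fintype.card V - 3) * ∑ y, I π u y + 2 * ∑ y, I π u y := by
    rw [← Nat.add_mul]
    congr 1
    omega
  omega

/-- the packing lemma with few conflicts, in terms of sets of conflicts -/
theorem packS (G : SimpleGraph V) (R : SimpleGraph W) (e : V ≃ W) (a b : ℕ)
    (ha : ∀ v, dg G v ≤ a) (hb : ∀ w, dg R w ≤ b) (hn : 3 ≤ Fintype.card V) :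
    ∃ π : V ≃ W, ∀ (u : V) (T : Finset V), (∀ v ∈ T, G.Adj u v ∧ R.Adj (π u) (π v)) →
      (Fintype.card V - 3) * T.card ≤ 2 * (a * b) := by
  obtain ⟨π, hπ⟩ := packC G R e a b ha hb hn
  refine ⟨π, ?_⟩
  intro u T hT
  refine le_trans (Nat.mul_le_mul_left _ (Finset.card_le_card ?_)) (hπ u)
  intro v hv
  rw [Finset.mem_filter]
  exact ⟨Finset.mem_univ _, hT v hv⟩

end Pool.Agent.BD48
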