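import Mathlib
import Pool.Agent.BD48.PackC
import Pool.Agent.BD48.Dense2
import Pool.Agent.BD48.Main

/-!
Every graph `G` has a highly connected supergraph with the least possible number of edges if the
connectivity `k` is at least a constant times the maximum degree of `G`.
-/

namespace Pool.Agent.BD48

open Finset

attribute [local instance] Classical.propDecidable

/-- a power of two between `x` and `2x` -/
lemma exists_pow_two (x : ℕ) (hx : 1 ≤ x) : ∃ K, x ≤ 2 ^ K ∧ 2 ^ K ≤ 2 * x := by
  induction x, hx using Nat.le_induction with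
  | base => exact ⟨0, by norm_num, by norm_num⟩
  | succ x hx ih =>
    obtain ⟨K, h1, h2⟩ := ih
    by_cases h : x + 1 ≤ 2 ^ K
    · exact ⟨K, h, by omega⟩
    · refine ⟨K + 1, ?_, ?_⟩
      · rw [pow_succ]
        omega
      · rw [pow_succ]
        omega

variable {V : Type*} [Fintype V]

/-- the supergraph -/
theorem exists_superL (G : SimpleGraph V) (d k : ℕ) (hd : ∀ v, dg G v ≤ d)
    (hk : 300000 * (d + 1) ≤ k) (hkn : k + 1 ≤ Fintype.card V) :
    ∃ H : SimpleGraph V, G ≤ H ∧ SepFree H k ∧ ∑ v, dg H v ≤ k * Fintype.card V + 1 := by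
  obtain ⟨n, hn⟩ : ∃ n, n = Fintype.card V := ⟨_, rfl⟩
  rw [← hn] at hkn ⊢
  have hn0 : NeZero n := ⟨by omega⟩
  have hcard : Fintype.card V = Fintype.card (ZMod n) := by rw [ZMod.card, hn]
  have e : V ≃ ZMod n := Fintype.equivOfCardEq hcard
  have hsum : ∀ (π : V ≃ ZMod n) (H : SimpleGraph (ZMod n)),
      ∑ v, dg (H.comap π) v = ∑ v, dg H v := by
    intro π H
    rw [← Equiv.sum_comp π (fun v => dg H v)]
    exact Finset.sum_congr rfl (fun v _ => dg_comap π H v)
  -- from a placed graph to the graph itself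
  have hplace : ∀ π : V ≃ ZMod n,
      (∃ H : SimpleGraph (ZMod n), G.comap π.symm ≤ H ∧ SepFree H k ∧
        ∑ v, dg H v ≤ k * n + 1) →
      ∃ H : SimpleGraph V, G ≤ H ∧ SepFree H k ∧ ∑ v, dg H v ≤ k * n + 1 := by
    rintro π ⟨H, hGH, hsep, hle⟩
    refine ⟨H.comap π, ?_, sepFree_comap π H k hsep, ?_⟩
    · intro u v huv
      rw [SimpleGraph.comap_adj]
      apply hGH
      rw [SimpleGraph.comap_adj, π.symm_apply_apply, π.symm_apply_apply]
      exact huv
    · rw [hsum]
      exact hle
  have hcomapd : ∀ (π : V ≃ ZMod n) v, dg (G.comap π.symm) v ≤ d := by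
    intro π v
    rw [dg_comap π.symm G v]
    exact hd _
  obtain ⟨t, ht⟩ : ∃ t, n = k + 1 + t := ⟨n - (k + 1), by omega⟩
  by_cases hcase1 : t ≤ 1000
  · -- few non-neighbours: a Harary graph
    obtain ⟨H, hsep, hdeg, hle⟩ := harary (n := n) k (by omega) hkn
    have hcompl : ∀ v, dg Hᶜ v ≤ 1000 := by
      intro v
      have h1 : nb Hᶜ v = (insert v (nb H v))ᶜ := by
        ext y
        rw [mem_nb, SimpleGraph.compl_adj, Finset.mem_compl, Finset.mem_insert, mem_nb, not_or]
        exact and_congr_left (fun _ => ⟨fun h h' => h h'.symm, fun h h' => h h'.symm⟩)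
      have h2 : dg Hᶜ v = n - (dg H v + 1) := by
        unfold dg
        rw [h1, Finset.card_compl, ZMod.card, Finset.card_insert_of_notMem]
        rw [mem_nb]
        exact fun h => h.ne rfl
      have h3 := hdeg v
      omega
    obtain ⟨π, hπ⟩ := packS G Hᶜ e d 1000 hd hcompl (by omega)
    refine ⟨H.comap π, ?_, sepFree_comap π H k hsep, ?_⟩
    · intro u v huv
      by_contra hnadj
      have h1 := hπ u {v} (by
        intro w hw
        rw [Finset.mem_singleton] at hw
        subst hw
        rw [SimpleGraph.compl_adj]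
        exact ⟨huv, fun h => huv.ne (π.injective h), hnadj⟩)
      rw [← hn, Finset.card_singleton] at h1
      omega
    · rw [hsum]
      exact hle
  · by_cases hcase2 : 21 * t ≤ n
    · -- the dense case
      push Not at hcase1
      obtain ⟨s, hs⟩ : ∃ s, s = t / 2 := ⟨_, rfl⟩
      obtain ⟨g, hg⟩ : ∃ g, g = 8 * d * s / (n - 3) := ⟨_, rfl⟩
      have hg1 : g * (n - 3) ≤ 8 * d * s := by
        rw [hg]
        exact Nat.div_mul_le_self _ _
      have hg2 : 140 * g ≤ s := by
        have h1 : 1120 * (d + 1) ≤ n - 3 := by omega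
        have h2 : g * (1120 * (d + 1)) ≤ g * (n - 3) := Nat.mul_le_mul_left _ h1
        have h3 : 8 * d * s ≤ 8 * (d + 1) * s :=
          Nat.mul_le_mul_right _ (by omega)
        have h4 : (8 * (d + 1)) * (140 * g) ≤ (8 * (d + 1)) * s := by
          calc (8 * (d + 1)) * (140 * g) = g * (1120 * (d + 1)) := by ring
            _ ≤ 8 * d * s := le_trans h2 hg1
            _ ≤ (8 * (d + 1)) * s := h3
        exact Nat.le_of_mul_le_mul_left h4 (by omega)
      obtain ⟨a, ha⟩ : ∃ a, a = g + 2 := ⟨_, rfl⟩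
      obtain ⟨K, hK1, hK2⟩ := exists_pow_two (8 * a) (by omega)
      obtain ⟨s₁, hs₁⟩ : ∃ s₁, s₁ = 2 ^ K := ⟨_, rfl⟩
      obtain ⟨S, hScard, hSr, hSov⟩ := exists_diffs K (2 * s) (3 * s + 1)
      rw [← hs₁] at hScard hSr hSov hK1 hK2
      have hs₁s : s₁ ≤ s := by omega
      let R : SimpleGraph (ZMod n) :=
        { Adj := fun x y => x ≠ y ∧ (close s x y ∨ y ∈ JS S x)
          symm := ⟨by
            rintro x y ⟨h1, h2 | h2⟩
            · exact ⟨h1.symm, Or.inl (close_symm h2)⟩
            · exact ⟨h1.symm, Or.inr (JS_symm h2)⟩⟩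
          loopless := ⟨fun x h => h.1 rfl⟩ }
      have hRadj : ∀ x y, R.Adj x y ↔ x ≠ y ∧ (close s x y ∨ y ∈ JS S x) :=
        fun x y => Iff.rfl
      have hR : ∀ v, dg R v ≤ 4 * s := by
        intro v
        have h1 : nb R v ⊆ ball s v ∪ JS S v := by
          intro y hy
          rw [mem_nb, hRadj] at hy
          rw [Finset.mem_union, mem_ball]
          exact hy.2
        have h2 := Finset.card_le_card h1
        have h3 := Finset.card_union_le (ball s v) (JS S v)
        rw [card_ball s (by omega)] at h3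
        have h4 := card_JS_le S v
        have h5 : dg R v = (nb R v).card := rfl
        omega
      obtain ⟨π, hπ⟩ := packS G R e d (4 * s) hd hR (by omega)
      refine hplace π (dense (G.comap π.symm) S d k t s s₁ (s₁ + a) a g ht (by omega) (by omega)
        (hcomapd π) hScard (fun h hh => by have := hSr h hh; omega) hSov ?_ ha hK1 (by omega)
        rfl (by omega) (by omega))
      intro v T hT
      have h1 := hπ (π.symm v) (T.image π.symm) (by
        intro w hw
        obtain ⟨y, hy, rfl⟩ := Finset.mem_image.mp hw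
        have h2 := hT y hy
        rw [SimpleGraph.comap_adj] at h2
        rw [π.apply_symm_apply, π.apply_symm_apply, hRadj]
        refine ⟨h2.1, ?_, h2.2⟩
        intro h
        subst h
        exact h2.1.ne rfl)
      rw [← hn, Finset.card_image_of_injective _ π.symm.injective] at h1
      rw [hg, Nat.le_div_iff_mul_le (by omega), Nat.mul_comm]
      exact le_trans h1 (le_of_eq (by ring))
    · -- the main case
      push Not at hcase2
      obtain ⟨K, hK1, hK2⟩ := exists_pow_two (8 * d + 36) (by omega)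
      obtain ⟨r, hr⟩ : ∃ r, r = k / 2 := ⟨_, rfl⟩
      obtain ⟨N, hN⟩ : ∃ N, N = 2 ^ K := ⟨_, rfl⟩
      obtain ⟨s, hs⟩ : ∃ s, s + (d + 8) = 2 ^ K := ⟨2 ^ K - (d + 8), by omega⟩
      obtain ⟨b, hb⟩ : ∃ b, b = 3 * (3 * d + 16 + (2 * s + d) + 1) + 2 := ⟨_, rfl⟩
      obtain ⟨m, hm⟩ : ∃ m, m = 2 * b := ⟨_, rfl⟩
      exact hplace e (buildJ (G.comap e.symm) d k r K s b m (hcomapd e) (by omega) (by omega) hK1 hs
        hb hm (by omega) (by omega))

end Pool.Agent.BD48
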