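import Mathlib
import Pool.Agent.BD48.Fam

/-!
The least numbers of new edges at the vertices, by uncrossing.
-/

namespace Pool.Agent.BD48

open Finset

attribute [local instance] Classical.propDecidable

variable {V : Type*} [Fintype V]

/-- the covering property -/
def CovR (G : SimpleGraph V) (k : ℕ) (r : V → ℕ) : Prop :=
  ∀ S : Finset V, S.Nonempty → S.card + k ≤ Fintype.card V →
    k ≤ (onb G S).card + ∑ v ∈ S, r v

/-- tight sets with positive demand -/
def TgtR (G : SimpleGraph V) (k : ℕ) (r : V → ℕ) (S : Finset V) : Prop :=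
  S.Nonempty ∧ S.card + k ≤ Fintype.card V ∧ (onb G S).card + ∑ v ∈ S, r v = k ∧
    1 ≤ ∑ v ∈ S, r v

lemma onb_submod (G : SimpleGraph V) (S T : Finset V) :
    (onb G (S ∪ T)).card + (onb G (S ∩ T)).card ≤ (onb G S).card + (onb G T).card := by
  have e1 := card_union_add_card_inter (onb G (S ∪ T)) (onb G (S ∩ T))
  have e2 := card_union_add_card_inter (onb G S) (onb G T)
  rw [← e1, ← e2]
  refine add_le_add (card_le_card ?_) (card_le_card ?_)
  · intro y hy
    rw [mem_union] at hy ⊢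
    rcases hy with hy | hy
    · obtain ⟨⟨x, hx, hxy⟩, hyn⟩ := mem_onb.mp hy
      rw [mem_union] at hx
      rw [mem_union, not_or] at hyn
      rcases hx with hx | hx
      · exact Or.inl (mem_onb.mpr ⟨⟨x, hx, hxy⟩, hyn.1⟩)
      · exact Or.inr (mem_onb.mpr ⟨⟨x, hx, hxy⟩, hyn.2⟩)
    · obtain ⟨⟨x, hx, hxy⟩, hyn⟩ := mem_onb.mp hy
      rw [mem_inter] at hx
      rw [mem_inter] at hyn
      by_cases hyS : y ∈ S
      · exact Or.inr (mem_onb.mpr ⟨⟨x, hx.2, hxy⟩, fun h => hyn ⟨hyS, h⟩⟩)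
      · exact Or.inl (mem_onb.mpr ⟨⟨x, hx.1, hxy⟩, hyS⟩)
  · intro y hy
    rw [mem_inter] at hy ⊢
    obtain ⟨h1, h2⟩ := hy
    obtain ⟨-, hyn⟩ := mem_onb.mp h1
    obtain ⟨⟨x, hx, hxy⟩, -⟩ := mem_onb.mp h2
    rw [mem_inter] at hx
    rw [mem_union, not_or] at hyn
    exact ⟨mem_onb.mpr ⟨⟨x, hx.1, hxy⟩, hyn.1⟩, mem_onb.mpr ⟨⟨x, hx.2, hxy⟩, hyn.2⟩⟩

lemma exists_min_cov (G : SimpleGraph V) (k : ℕ) :
    ∃ r : V → ℕ, CovR G k r ∧ ∀ r' : V → ℕ, CovR G k r' → ∑ v, r v ≤ ∑ v, r' v := by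
  classical
  have hex : ∃ m : ℕ, ∃ r : V → ℕ, CovR G k r ∧ ∑ v, r v = m := by
    refine ⟨_, fun _ => k, ?_, rfl⟩
    intro S hS _
    rw [sum_const, smul_eq_mul]
    have : 1 ≤ S.card := hS.card_pos
    nlinarith
  obtain ⟨r, hr, hsum⟩ := Nat.find_spec hex
  refine ⟨r, hr, fun r' hr' => ?_⟩
  rw [hsum]
  exact Nat.find_min' hex ⟨r', hr', rfl⟩

lemma tgt_exists (G : SimpleGraph V) (k : ℕ) (r : V → ℕ) (hr : CovR G k r)
    (hmin : ∀ r' : V → ℕ, CovR G k r' → ∑ v, r v ≤ ∑ v, r' v) (v : V) (hv : 1 ≤ r v) :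
    ∃ S, TgtR G k r S ∧ v ∈ S := by
  classical
  by_contra hno
  push Not at hno
  have hcov : CovR G k (Function.update r v (r v - 1)) := by
    intro S hS hSk
    by_cases hvS : v ∈ S
    · have h1 := hr S hS hSk
      have h2 : 1 ≤ ∑ v ∈ S, r v :=
        hv.trans (single_le_sum (f := r) (fun _ _ => Nat.zero_le _) hvS)
      have h3 : (onb G S).card + ∑ v ∈ S, r v ≠ k := fun h => hno S ⟨hS, hSk, h, h2⟩ hvS
      have h4 : ∑ x ∈ S, Function.update r v (r v - 1) x + 1 = ∑ x ∈ S, r x := by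
        rw [← add_sum_erase S _ hvS, ← add_sum_erase S r hvS, Function.update_self]
        have h5 : ∑ x ∈ S.erase v, Function.update r v (r v - 1) x = ∑ x ∈ S.erase v, r x := by
          refine sum_congr rfl (fun x hx => ?_)
          rw [Function.update_of_ne (ne_of_mem_erase hx)]
        rw [h5]
        omega
      omega
    · have h4 : ∑ x ∈ S, Function.update r v (r v - 1) x = ∑ x ∈ S, r x := by
        refine sum_congr rfl (fun x hx => ?_)
        have hne : x ≠ v := by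
          rintro rfl
          exact hvS hx
        rw [Function.update_of_ne hne]
      rw [h4]
      exact hr S hS hSk
  have h1 := hmin _ hcov
  have h4 : ∑ x, Function.update r v (r v - 1) x + 1 = ∑ x, r x := by
    rw [← add_sum_erase univ _ (mem_univ v), ← add_sum_erase univ r (mem_univ v),
      Function.update_self]
    have h5 : ∑ x ∈ univ.erase v, Function.update r v (r v - 1) x = ∑ x ∈ univ.erase v, r x := by
      refine sum_congr rfl (fun x hx => ?_)
      rw [Function.update_of_ne (ne_of_mem_erase hx)]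
    rw [h5]
    omega
  omega

lemma cov_one (G : SimpleGraph V) (k : ℕ) (r : V → ℕ) (hr : CovR G k r)
    (hn : k + 1 ≤ Fintype.card V) (v : V) : k ≤ dg G v + r v := by
  have h := hr {v} (singleton_nonempty v) (by rw [card_singleton]; omega)
  rw [sum_singleton, onb_singleton] at h
  exact h

lemma tgt_card (G : SimpleGraph V) (k c δ : ℕ)
    (hF3 : ∀ S : Finset V, (∀ v ∈ S, δ < dg G v) → c + 1 ≤ S.card → k + 1 ≤ (onb G S).card)
    (hδ : 2 * (δ + c + 1) < k) (hn : k + 1 ≤ Fintype.card V) (r : V → ℕ)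
    (hr : CovR G k r) (S : Finset V) (hS : TgtR G k r S) : S.card ≤ c + 1 := by
  classical
  obtain ⟨-, -, h1, h2⟩ := hS
  have hlow : (S.filter (fun v => dg G v ≤ δ)).card ≤ 1 := by
    by_contra hc
    push Not at hc
    obtain ⟨a, ha, b, hb, hab⟩ := one_lt_card.mp hc
    rw [mem_filter] at ha hb
    have ha2 := cov_one G k r hr hn a
    have hb2 := cov_one G k r hr hn b
    have h3 : r a + r b ≤ ∑ v ∈ S, r v := by
      rw [← sum_pair hab]
      refine sum_le_sum_of_subset ?_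
      intro x hx
      rw [mem_insert, mem_singleton] at hx
      rcases hx with rfl | rfl
      · exact ha.1
      · exact hb.1
    have := ha.2
    have := hb.2
    omega
  have hhigh : (S.filter (fun v => ¬ dg G v ≤ δ)).card ≤ c := by
    by_contra hc
    have h3 := hF3 (S.filter (fun v => ¬ dg G v ≤ δ)) (fun v hv => not_le.mp (mem_filter.mp hv).2)
      (Nat.lt_of_not_le hc)
    have h4 : onb G (S.filter (fun v => ¬ dg G v ≤ δ)) ⊆
        onb G S ∪ S.filter (fun v => dg G v ≤ δ) := by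
      intro y hy
      obtain ⟨⟨x, hx, hxy⟩, hyn⟩ := mem_onb.mp hy
      rw [mem_filter] at hx hyn
      rw [mem_union]
      by_cases hyS : y ∈ S
      · refine Or.inr (mem_filter.mpr ⟨hyS, ?_⟩)
        by_contra h
        exact hyn ⟨hyS, h⟩
      · exact Or.inl (mem_onb.mpr ⟨⟨x, hx.1, hxy⟩, hyS⟩)
    have h5 := (card_le_card h4).trans (card_union_le _ _)
    omega
  have := card_filter_add_card_filter_not (s := S) (fun v => dg G v ≤ δ)
  omega

lemma tgt_union (G : SimpleGraph V) (k c : ℕ) (hn : k + 2 * (c + 1) ≤ Fintype.card V)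
    (r : V → ℕ) (hr : CovR G k r) (hcard : ∀ S, TgtR G k r S → S.card ≤ c + 1)
    (S T : Finset V) (hS : TgtR G k r S) (hT : TgtR G k r T) (hST : (S ∩ T).Nonempty) :
    TgtR G k r (S ∪ T) := by
  classical
  have hcS := hcard S hS
  have hcT := hcard T hT
  have hcU := card_union_le S T
  have hcI := card_le_card (inter_subset_left : S ∩ T ⊆ S)
  obtain ⟨hS1, hS2, hS3, hS4⟩ := hS
  obtain ⟨hT1, hT2, hT3, hT4⟩ := hT
  have hU1 : (S ∪ T).Nonempty := hS1.mono subset_union_left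
  have hU2 : (S ∪ T).card + k ≤ Fintype.card V := by omega
  have hU := hr (S ∪ T) hU1 hU2
  have hI := hr (S ∩ T) hST (by omega)
  have hsub := onb_submod G S T
  have hsum := sum_union_inter (f := r) (s₁ := S) (s₂ := T)
  have hmono : ∑ v ∈ S, r v ≤ ∑ v ∈ S ∪ T, r v := sum_le_sum_of_subset subset_union_left
  exact ⟨hU1, hU2, by omega, by omega⟩

lemma tgt_deg (G : SimpleGraph V) (k c : ℕ) (r : V → ℕ)
    (T : Finset V) (hT : TgtR G k r T) (hc : T.card ≤ c + 1) (v : V) (hv : v ∈ T) :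
    r v + dg G v ≤ k + c := by
  classical
  obtain ⟨-, -, h3, -⟩ := hT
  have h1 : r v ≤ ∑ v ∈ T, r v := single_le_sum (f := r) (fun _ _ => Nat.zero_le _) hv
  have h2 : nb G v ⊆ onb G T ∪ T.erase v := by
    intro y hy
    rw [mem_union, mem_erase]
    by_cases hyT : y ∈ T
    · exact Or.inr ⟨(mem_nb.mp hy).ne', hyT⟩
    · exact Or.inl (mem_onb.mpr ⟨⟨v, hv, mem_nb.mp hy⟩, hyT⟩)
  have h4 := (card_le_card h2).trans (card_union_le _ _)
  rw [card_erase_of_mem hv] at h4
  have h5 : dg G v = (nb G v).card := rfl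
  omega

/-- minimal demands -/
theorem exists_min_r (G : SimpleGraph V) (k c δ : ℕ)
    (hF3 : ∀ S : Finset V, (∀ v ∈ S, δ < dg G v) → c + 1 ≤ S.card → k + 1 ≤ (onb G S).card)
    (hδ : 2 * (δ + c + 1) < k) (hn : k + 2 * (c + 1) ≤ Fintype.card V) :
    ∃ (r : V → ℕ) (F : Finset (Finset V)), Fam k F ∧ (∀ X ∈ F, X.card ≤ c + 1) ∧
      ∑ v, r v = val G k F ∧
      (∀ S : Finset V, S.Nonempty → S.card + k ≤ Fintype.card V →
        k ≤ (onb G S).card + ∑ v ∈ S, r v) ∧
      (∀ v, k - dg G v ≤ r v) ∧ (∀ v, dg G v ≤ δ → r v = k - dg G v) ∧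
      (∀ v, r v ≤ (k - dg G v) + c) ∧ (∀ v, 1 ≤ r v → dg G v ≤ k + c) := by
  classical
  obtain ⟨r, hr, hmin⟩ := exists_min_cov G k
  have hcard : ∀ S, TgtR G k r S → S.card ≤ c + 1 :=
    fun S hS => tgt_card G k c δ hF3 hδ (by omega) r hr S hS
  have hex : ∀ v, 1 ≤ r v → ∃ S, TgtR G k r S ∧ v ∈ S :=
    fun v hv => tgt_exists G k r hr hmin v hv
  have hunion : ∀ S T, TgtR G k r S → TgtR G k r T → (S ∩ T).Nonempty → TgtR G k r (S ∪ T) :=
    fun S T hS hT hST => tgt_union G k c hn r hr hcard S T hS hT hST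
  have hone : ∀ v, k ≤ dg G v + r v := fun v => cov_one G k r hr (by omega) v
  have hdeg : ∀ v, 1 ≤ r v → r v + dg G v ≤ k + c := by
    intro v hv
    obtain ⟨T, hT, hvT⟩ := hex v hv
    exact tgt_deg G k c r T hT (hcard T hT) v hvT
  obtain ⟨F, hFdef⟩ : ∃ F : Finset (Finset V), ∀ S, S ∈ F ↔
      TgtR G k r S ∧ ∀ T, TgtR G k r T → S ⊆ T → T = S :=
    ⟨univ.filter (fun S => TgtR G k r S ∧ ∀ T, TgtR G k r T → S ⊆ T → T = S),
      fun S => by rw [mem_filter]; exact ⟨fun h => h.2, fun h => ⟨mem_univ _, h⟩⟩⟩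
  have hdisj : ∀ X ∈ F, ∀ Y ∈ F, X ≠ Y → Disjoint X Y := by
    intro X hX Y hY hXY
    rw [hFdef] at hX hY
    by_contra hnd
    rw [disjoint_iff_inter_eq_empty] at hnd
    have hne : (X ∩ Y).Nonempty := nonempty_iff_ne_empty.mpr hnd
    have hU := hunion X Y hX.1 hY.1 hne
    have h1 := hX.2 _ hU subset_union_left
    have h2 := hY.2 _ hU subset_union_right
    exact hXY (h1.symm.trans h2)
  have hcover : ∀ v, 1 ≤ r v → ∃ X ∈ F, v ∈ X := by
    intro v hv
    obtain ⟨S, hS, hvS⟩ := hex v hv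
    obtain ⟨T, hT, hTmax⟩ := exists_max_image
      ((univ : Finset (Finset V)).filter (fun T => TgtR G k r T ∧ S ⊆ T)) (fun T => T.card)
      ⟨S, mem_filter.mpr ⟨mem_univ _, hS, Subset.refl _⟩⟩
    rw [mem_filter] at hT
    refine ⟨T, (hFdef T).mpr ⟨hT.2.1, fun T' hT' hTT' => ?_⟩, hT.2.2 hvS⟩
    have h1 := hTmax T' (mem_filter.mpr ⟨mem_univ _, hT', hT.2.2.trans hTT'⟩)
    exact (eq_of_subset_of_card_le hTT' h1).symm
  refine ⟨r, F, ⟨fun X hX => ?_, hdisj⟩, fun X hX => hcard X ((hFdef X).mp hX).1, ?_, hr,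
    ?_, ?_, ?_, ?_⟩
  · have h := ((hFdef X).mp hX).1
    exact ⟨h.1, h.2.1⟩
  · have h1 : ∑ v, r v = ∑ v ∈ F.biUnion (fun X => X), r v := by
      symm
      refine sum_subset (subset_univ _) (fun v _ hv => ?_)
      by_contra h0
      obtain ⟨X, hX, hvX⟩ := hcover v (by omega)
      exact hv (mem_biUnion.mpr ⟨X, hX, hvX⟩)
    have h1' : ∑ v ∈ F.biUnion (fun X => X), r v = ∑ X ∈ F, ∑ v ∈ X, r v :=
      sum_biUnion (fun X hX Y hY hXY => hdisj X hX Y hY hXY)
    rw [h1, h1']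
    unfold val
    refine sum_congr rfl (fun X hX => ?_)
    have h := ((hFdef X).mp hX).1.2.2.1
    omega
  · intro v
    have := hone v
    omega
  · intro v hv
    have h1 := hone v
    by_contra hne
    have hgt : k - dg G v < r v := by omega
    obtain ⟨T, hT, hvT⟩ := hex v (by omega)
    obtain ⟨hT1, hT2, hT3, hT4⟩ := hT
    by_cases hTv : T = {v}
    · rw [hTv, sum_singleton, onb_singleton] at hT3
      have h5 : dg G v = (nb G v).card := rfl
      omega
    · have hne' : (T.erase v).Nonempty := by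
        rw [nonempty_iff_ne_empty]
        intro h0
        rw [erase_eq_empty_iff] at h0
        rcases h0 with h0 | h0
        · rw [h0] at hvT
          exact absurd hvT (notMem_empty v)
        · exact hTv h0
      have hc2 := card_erase_le (s := T) (a := v)
      have h2 := hr (T.erase v) hne' (by omega)
      have h3 : onb G (T.erase v) ⊆ insert v (onb G T) := by
        intro y hy
        obtain ⟨⟨x, hx, hxy⟩, hyn⟩ := mem_onb.mp hy
        rw [mem_insert]
        by_cases hyv : y = v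
        · exact Or.inl hyv
        · refine Or.inr (mem_onb.mpr ⟨⟨x, mem_of_mem_erase hx, hxy⟩, fun h => ?_⟩)
          exact hyn (mem_erase.mpr ⟨hyv, h⟩)
      have h4 := (card_le_card h3).trans (card_insert_le _ _)
      have h5 := add_sum_erase T r hvT
      omega
  · intro v
    by_cases h0 : 1 ≤ r v
    · have := hdeg v h0
      omega
    · omega
  · intro v hv
    have := hdeg v hv
    omega

end Pool.Agent.BD48
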