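import Mathlib

/-!
The switching decay beats the number of pairs of vertices, sublinear version.
-/

namespace Pool.Agent.BD48

private lemma exp_beats : ∃ Y : ℝ, 3 ≤ Y ∧ ∀ y : ℝ, Y ≤ y → y ^ 30 < Real.exp (y / 48 - 1) := by
  have h := Real.tendsto_pow_mul_exp_neg_atTop_nhds_zero 30
  have hc : (0 : ℝ) < 1 / (48 ^ 30 * Real.exp 1) := by positivity
  have h2 := (h.eventually (gt_mem_nhds hc))
  obtain ⟨a, ha⟩ := Filter.eventually_atTop.mp h2
  refine ⟨max 3 (48 * a), le_max_left _ _, ?_⟩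
  intro y hy
  have hy1 : 48 * a ≤ y := le_trans (le_max_right _ _) hy
  have h3 := ha (y / 48) (by linarith)
  have hexp : Real.exp (y / 48 - 1) = Real.exp (y / 48) / Real.exp 1 := by
    rw [Real.exp_sub]
  rw [hexp, lt_div_iff₀ (Real.exp_pos 1)]
  rw [Real.exp_neg, lt_div_iff₀ (by positivity)] at h3
  have he := Real.exp_pos (y / 48)
  have h4 : (y / 48) ^ 30 * (Real.exp (y / 48))⁻¹ * (48 ^ 30 * Real.exp 1)
      = y ^ 30 * Real.exp 1 / Real.exp (y / 48) := by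
    field_simp
  rw [h4, div_lt_one he] at h3
  exact h3

/-- the decay beats the number of pairs of vertices, with `s` of order at least `n ^ (9 / 10)` -/
theorem num_large2 : ∃ n₀ : ℕ, ∀ n s t : ℕ, n₀ ≤ n → (n : ℝ) ^ ((9 : ℝ) / 10) ≤ s →
    s < 20 * t ^ 3 →
    ∃ E : ℕ, 3 ≤ E ∧ n ≤ E * s ∧ n ^ 3 * (E - 1) ^ (t / (4 * E)) < E ^ (t / (4 * E)) := by
  obtain ⟨Y, hY3, hY⟩ := exp_beats
  refine ⟨⌈Y ^ 10⌉₊, ?_⟩
  intro n s t hn hs ht
  set y : ℝ := (n : ℝ) ^ ((1 : ℝ) / 10) with hy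
  have hn0 : (0 : ℝ) ≤ n := Nat.cast_nonneg n
  have hy10 : y ^ 10 = n := by
    rw [hy, ← Real.rpow_natCast, ← Real.rpow_mul hn0]
    norm_num
  have hy9 : y ^ 9 = (n : ℝ) ^ ((9 : ℝ) / 10) := by
    rw [hy, ← Real.rpow_natCast, ← Real.rpow_mul hn0]
    norm_num
  have hy0 : 0 ≤ y := Real.rpow_nonneg hn0 _
  have hYn : Y ^ 10 ≤ (n : ℝ) := le_trans (Nat.le_ceil _) (by exact_mod_cast hn)
  have hYy : Y ≤ y := by
    by_contra hcon
    push Not at hcon
    have : y ^ 10 < Y ^ 10 := pow_lt_pow_left₀ hcon hy0 (by norm_num)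
    rw [hy10] at this
    linarith
  have hy3 : 3 ≤ y := le_trans hY3 hYy
  have hs9 : y ^ 9 ≤ s := by rw [hy9]; exact hs
  have hspos : (0 : ℝ) < s := lt_of_lt_of_le (by positivity) hs9
  -- choice of E
  set E : ℕ := max 3 ⌈(n : ℝ) / s⌉₊ with hE
  have hE3 : 3 ≤ E := le_max_left _ _
  have hEs : (n : ℝ) ≤ E * s := by
    have h1 : (n : ℝ) / s ≤ E := le_trans (Nat.le_ceil _) (by exact_mod_cast le_max_right _ _)
    rwa [div_le_iff₀ hspos] at h1
  have hEy : (E : ℝ) ≤ 2 * y := by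
    rw [hE, Nat.cast_max]
    apply max_le
    · push_cast
      linarith
    · have h1 : (n : ℝ) / s ≤ y := by
        rw [div_le_iff₀ hspos, ← hy10]
        calc y ^ 10 = y * y ^ 9 := by ring
          _ ≤ y * s := by gcongr
      have h2 : (⌈(n : ℝ) / s⌉₊ : ℝ) < (n : ℝ) / s + 1 := Nat.ceil_lt_add_one (by positivity)
      linarith
  have hE0 : (0 : ℝ) < E := by
    have : (3 : ℝ) ≤ E := by exact_mod_cast hE3
    linarith
  have hE3' : (3 : ℝ) ≤ E := by exact_mod_cast hE3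
  -- lower bound of t
  have ht3 : y ^ 3 / 3 ≤ t := by
    by_contra hcon
    push Not at hcon
    have h1 : (t : ℝ) ^ 3 ≤ (y ^ 3 / 3) ^ 3 := pow_le_pow_left₀ (Nat.cast_nonneg t) hcon.le 3
    have h2 : (s : ℝ) < 20 * (t : ℝ) ^ 3 := by exact_mod_cast ht
    have h3 : (y ^ 3 / 3) ^ 3 = y ^ 9 / 27 := by ring
    rw [h3] at h1
    have h4 : 0 < y ^ 9 := by positivity
    linarith
  refine ⟨E, hE3, by exact_mod_cast hEs, ?_⟩
  set N : ℕ := t / (4 * E) with hN
  have hNE : y / 48 - 1 ≤ (N : ℝ) / E := by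
    have h1 : (t : ℝ) / (4 * E) < N + 1 := by
      rw [div_lt_iff₀ (by positivity)]
      have h2 : t < (t / (4 * E) + 1) * (4 * E) := by
        have := Nat.lt_div_mul_add (a := t) (b := 4 * E) (by omega)
        calc t < t / (4 * E) * (4 * E) + 4 * E := this
          _ = (t / (4 * E) + 1) * (4 * E) := by ring
      exact_mod_cast h2
    have h3 : y / 48 ≤ (t : ℝ) / (4 * E) / E := by
      rw [div_div, le_div_iff₀ (by positivity)]
      have h5 : (E : ℝ) * E ≤ 2 * y * (2 * y) := by gcongr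
      calc y / 48 * (4 * E * E) = y / 12 * (E * E) := by ring
        _ ≤ y / 12 * (2 * y * (2 * y)) := by gcongr
        _ = y ^ 3 / 3 := by ring
        _ ≤ t := ht3
    have h6 : (t : ℝ) / (4 * E) / E ≤ (N + 1) / E := by gcongr
    have h7 : ((N : ℝ) + 1) / E = N / E + 1 / E := by ring
    have h8 : 1 / (E : ℝ) ≤ 1 := by
      rw [div_le_one hE0]
      linarith
    linarith
  have hmain : (n : ℝ) ^ 3 * ((E : ℝ) - 1) ^ N < (E : ℝ) ^ N := by
    have h1 : ((E : ℝ) - 1) = E * (1 - 1 / E) := by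
      field_simp
    have h2 : (1 - 1 / (E : ℝ)) ≤ Real.exp (-(1 / E)) := by
      have := Real.add_one_le_exp (-(1 / (E : ℝ)))
      linarith
    have h2' : 0 ≤ 1 - 1 / (E : ℝ) := by
      have : 1 / (E : ℝ) ≤ 1 := by
        rw [div_le_one hE0]
        linarith
      linarith
    have h3 : (1 - 1 / (E : ℝ)) ^ N ≤ Real.exp (-(N / E)) := by
      calc (1 - 1 / (E : ℝ)) ^ N ≤ Real.exp (-(1 / E)) ^ N := pow_le_pow_left₀ h2' h2 N
        _ = Real.exp (-(N / E)) := by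
          rw [← Real.exp_nat_mul]
          congr 1
          ring
    have h4 : (n : ℝ) ^ 3 < Real.exp (N / E) := by
      calc (n : ℝ) ^ 3 = y ^ 30 := by rw [← hy10]; ring
        _ < Real.exp (y / 48 - 1) := hY y hYy
        _ ≤ Real.exp (N / E) := Real.exp_le_exp.mpr hNE
    have h5 : (n : ℝ) ^ 3 * (1 - 1 / (E : ℝ)) ^ N < 1 := by
      calc (n : ℝ) ^ 3 * (1 - 1 / (E : ℝ)) ^ N ≤ (n : ℝ) ^ 3 * Real.exp (-(N / E)) := by gcongr
        _ < Real.exp (N / E) * Real.exp (-(N / E)) := by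
          gcongr
        _ = 1 := by rw [← Real.exp_add]; simp
    rw [h1, mul_pow]
    have h6 : (0 : ℝ) < (E : ℝ) ^ N := by positivity
    calc (n : ℝ) ^ 3 * ((E : ℝ) ^ N * (1 - 1 / E) ^ N)
        = (E : ℝ) ^ N * ((n : ℝ) ^ 3 * (1 - 1 / E) ^ N) := by ring
      _ < (E : ℝ) ^ N * 1 := by gcongr
      _ = (E : ℝ) ^ N := by ring
  have hcast : ((E - 1 : ℕ) : ℝ) = (E : ℝ) - 1 := by
    rw [Nat.cast_sub (by omega)]
    simp
  have : ((n ^ 3 * (E - 1) ^ N : ℕ) : ℝ) < ((E ^ N : ℕ) : ℝ) := by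
    push_cast
    rw [hcast]
    exact hmain
  exact_mod_cast this

end Pool.Agent.BD48
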