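import Mathlib

/-!
The decay beats the number of pairs of vertices, explicit constants.
-/

namespace Pool.Agent.BD48

theorem num_base (m : ℕ) (hm : 250 ≤ m) : 27000 * (24 * (m + 1)) ^ 9 * 2 ^ m < 3 ^ m := by
  induction m, hm using Nat.le_induction with
  | base => norm_num
  | succ m hm ih =>
      have h1 : 2 * (24 * (m + 1 + 1)) ^ 9 ≤ 3 * (24 * (m + 1)) ^ 9 := by
        have a : 24 * (m + 2) ≤ 25 * (m + 1) := by omega
        have b : (24 * (m + 2)) ^ 9 ≤ (25 * (m + 1)) ^ 9 := Nat.pow_le_pow_left a 9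
        have c : 2 * 25 ^ 9 ≤ 3 * 24 ^ 9 := by norm_num
        calc 2 * (24 * (m + 1 + 1)) ^ 9 = 2 * (24 * (m + 2)) ^ 9 := rfl
          _ ≤ 2 * (25 * (m + 1)) ^ 9 := Nat.mul_le_mul_left 2 b
          _ = (2 * 25 ^ 9) * (m + 1) ^ 9 := by rw [mul_pow]; ring
          _ ≤ (3 * 24 ^ 9) * (m + 1) ^ 9 := Nat.mul_le_mul_right _ c
          _ = 3 * (24 * (m + 1)) ^ 9 := by rw [mul_pow]; ring
      calc 27000 * (24 * (m + 1 + 1)) ^ 9 * 2 ^ (m + 1)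
          = (27000 * 2 ^ m) * (2 * (24 * (m + 1 + 1)) ^ 9) := by rw [pow_succ 2 m]; ring
        _ ≤ (27000 * 2 ^ m) * (3 * (24 * (m + 1)) ^ 9) := Nat.mul_le_mul_left _ h1
        _ = 3 * (27000 * (24 * (m + 1)) ^ 9 * 2 ^ m) := by ring
        _ < 3 * 3 ^ m := Nat.mul_lt_mul_of_pos_left ih (by norm_num)
        _ = 3 ^ (m + 1) := by rw [pow_succ]; ring

theorem num_twelve (t : ℕ) (ht : 3000 ≤ t) :
    (20 * 3 * t ^ 3) ^ 3 * (3 - 1) ^ (t / (4 * 3)) < 3 ^ (t / (4 * 3)) := by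
  have e12 : 4 * 3 = 12 := rfl
  rw [e12]
  have e2 : 3 - 1 = 2 := rfl
  rw [e2]
  obtain ⟨m, hm⟩ : ∃ m, m = t / 12 := ⟨_, rfl⟩
  rw [← hm]
  have h1 : 250 ≤ m := by omega
  have h2 : t ≤ 12 * (m + 1) := by omega
  have h3 : (20 * 3 * t ^ 3) ^ 3 ≤ 27000 * (24 * (m + 1)) ^ 9 := by
    calc (20 * 3 * t ^ 3) ^ 3 = 216000 * t ^ 9 := by ring
      _ ≤ 216000 * (12 * (m + 1)) ^ 9 := Nat.mul_le_mul_left _ (Nat.pow_le_pow_left h2 9)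
      _ = (216000 * 12 ^ 9) * (m + 1) ^ 9 := by rw [mul_pow]; ring
      _ ≤ (27000 * 24 ^ 9) * (m + 1) ^ 9 := Nat.mul_le_mul_right _ (by norm_num)
      _ = 27000 * (24 * (m + 1)) ^ 9 := by rw [mul_pow]; ring
  exact lt_of_le_of_lt (Nat.mul_le_mul_right _ h3) (num_base m h1)

theorem num_twentyfour (n t : ℕ) (ht : 6000 ≤ t) (hn : n ≤ 30 * t ^ 3) :
    n ^ 3 * (3 - 1) ^ (t / 24) < 3 ^ (t / 24) := by
  have e2 : 3 - 1 = 2 := rfl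
  rw [e2]
  obtain ⟨m, hm⟩ : ∃ m, m = t / 24 := ⟨_, rfl⟩
  rw [← hm]
  have h1 : 250 ≤ m := by omega
  have h2 : t ≤ 24 * (m + 1) := by omega
  have h3 : n ^ 3 ≤ 27000 * (24 * (m + 1)) ^ 9 := by
    calc n ^ 3 ≤ (30 * t ^ 3) ^ 3 := Nat.pow_le_pow_left hn 3
      _ = 27000 * t ^ 9 := by ring
      _ ≤ 27000 * (24 * (m + 1)) ^ 9 := Nat.mul_le_mul_left _ (Nat.pow_le_pow_left h2 9)
  exact lt_of_le_of_lt (Nat.mul_le_mul_right _ h3) (num_base m h1)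

end Pool.Agent.BD48
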