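import Mathlib
import Pool.Agent.BD48.Build

/-!
Spreading classes of vertices over four blocks of a cycle, and windows of the cycle.
-/

namespace Pool.Agent.BD48

open Finset

attribute [local instance] Classical.propDecidable

/-- the four blocks of the cycle -/
def inBlock (n j : ℕ) (x : ZMod n) : Prop := j * n / 4 ≤ x.val ∧ x.val < (j + 1) * n / 4

/-- the size of an interval of `ZMod n` -/
lemma card_val_Ico (n a b : ℕ) [NeZero n] (hb : b ≤ n) :
    (univ.filter (fun x : ZMod n => a ≤ x.val ∧ x.val < b)).card = b - a := by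
  rw [← Nat.card_Ico a b]
  refine Finset.card_nbij' (fun x : ZMod n => x.val) (fun i : ℕ => (i : ZMod n)) ?_ ?_ ?_ ?_
  · intro x hx
    rw [Finset.mem_coe, Finset.mem_filter] at hx
    rw [Finset.mem_coe, Finset.mem_Ico]
    exact hx.2
  · intro i hi
    rw [Finset.mem_coe, Finset.mem_Ico] at hi
    rw [Finset.mem_coe, Finset.mem_filter]
    refine ⟨Finset.mem_univ _, ?_⟩
    rw [ZMod.val_natCast, Nat.mod_eq_of_lt (by omega)]
    exact hi
  · intro x _
    exact ZMod.natCast_zmod_val x
  · intro i hi
    rw [Finset.mem_coe, Finset.mem_Ico] at hi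
    show ((i : ZMod n)).val = i
    rw [ZMod.val_natCast, Nat.mod_eq_of_lt (by omega)]

lemma card_block_eq (n : ℕ) [NeZero n] (j : ℕ) (hj : j < 4) :
    (univ.filter (fun x : ZMod n => inBlock n j x)).card = (j + 1) * n / 4 - j * n / 4 := by
  have h : (j + 1) * n / 4 ≤ n := by
    interval_cases j <;> omega
  rw [← card_val_Ico n (j * n / 4) ((j + 1) * n / 4) h]
  congr 1
  ext x
  rw [Finset.mem_filter, Finset.mem_filter]
  rfl

/-- the sizes of the blocks -/
theorem card_block (n : ℕ) [NeZero n] (j : ℕ) (hj : j < 4) :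
    n ≤ 4 * (univ.filter (fun x : ZMod n => inBlock n j x)).card + 4 := by
  rw [card_block_eq n j hj]
  interval_cases j <;> omega

lemma card_block_le (n : ℕ) [NeZero n] (j : ℕ) (hj : j < 4) :
    (univ.filter (fun x : ZMod n => inBlock n j x)).card ≤ n / 4 + 1 := by
  rw [card_block_eq n j hj]
  interval_cases j <;> omega

/-- a number in the doubled cycle lies in its block -/
lemma inBlock_cast (n m t : ℕ) [NeZero n] (hm : m < 8) (h1 : m * n / 4 ≤ t)
    (h2 : t < (m + 1) * n / 4) : inBlock n (m % 4) (t : ZMod n) := by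
  unfold inBlock
  rw [ZMod.val_natCast]
  by_cases ht : t < n
  · rw [Nat.mod_eq_of_lt ht]
    interval_cases m <;> omega
  · push Not at ht
    have h3 : t % n = t - n := by
      rw [Nat.mod_eq_sub_mod ht, Nat.mod_eq_of_lt]
      interval_cases m <;> omega
    rw [h3]
    interval_cases m <;> omega

/-- windows contain many vertices outside a balanced set -/
theorem block_window (n r k g y : ℕ) [NeZero n] (N : Finset (ZMod n)) (hr : k ≤ 2 * r + 1)
    (hrn : 2 * r + 1 ≤ n)
    (hN : ∀ j < 4, 4 * (N.filter (fun x => inBlock n j x)).card ≤ k + g)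
    (hn : k + g + 4 * y + 8 ≤ n) (hk : g + 2 * y + 4 ≤ k) (p : ZMod n) :
    y ≤ (ball r p \ N).card := by
  set s : ZMod n := p - (r : ZMod n) with hs
  set σ : ℕ := s.val with hσ
  have hσn : σ < n := ZMod.val_lt s
  have hp : p = ((σ + r : ℕ) : ZMod n) := by
    rw [Nat.cast_add, hσ, ZMod.natCast_zmod_val, hs, sub_add_cancel]
  -- the window in the doubled cycle
  have hball1 : ∀ t : ℕ, σ ≤ t → t ≤ σ + 2 * r → (t : ZMod n) ≠ p → (t : ZMod n) ∈ ball r p := by
    intro t h1 h2 h3
    rw [mem_ball]
    rcases lt_trichotomy t (σ + r) with h4 | h4 | h4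
    · refine ⟨σ + r - t, by omega, by omega, Or.inr ?_⟩
      rw [hp, ← Nat.cast_add]
      congr 1
      omega
    · exfalso
      rw [h4] at h3
      exact h3 hp.symm
    · refine ⟨t - (σ + r), by omega, by omega, Or.inl ?_⟩
      rw [hp, ← Nat.cast_add]
      congr 1
      omega
  have hball2 : ∀ x ∈ ball r p, ∃ t : ℕ, σ ≤ t ∧ t ≤ σ + 2 * r ∧ x = (t : ZMod n) := by
    intro x hx
    rw [mem_ball] at hx
    obtain ⟨i, h1, h2, h3 | h3⟩ := hx
    · refine ⟨σ + r + i, by omega, by omega, ?_⟩
      rw [h3, hp, ← Nat.cast_add]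
    · refine ⟨σ + r - i, by omega, by omega, ?_⟩
      have h4 : x + (i : ZMod n) = ((σ + r - i : ℕ) : ZMod n) + (i : ZMod n) := by
        rw [← h3, hp, ← Nat.cast_add]
        congr 1
        omega
      exact add_right_cancel h4
  obtain ⟨m, hm, hm1, hm2⟩ : ∃ m < 4, m * n / 4 ≤ σ ∧ σ < (m + 1) * n / 4 := by
    by_cases c1 : σ < 1 * n / 4
    · exact ⟨0, by norm_num, by omega, by omega⟩
    · by_cases c2 : σ < 2 * n / 4
      · exact ⟨1, by norm_num, by omega, by omega⟩
      · by_cases c3 : σ < 3 * n / 4
        · exact ⟨2, by norm_num, by omega, by omega⟩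
        · exact ⟨3, by norm_num, by omega, by omega⟩
  by_cases hfull : (m + 2) * n / 4 ≤ σ + 2 * r + 1
  · -- the window contains a block
    have hj : (m + 1) % 4 < 4 := Nat.mod_lt _ (by norm_num)
    set B : Finset (ZMod n) := univ.filter (fun x : ZMod n => inBlock n ((m + 1) % 4) x) with hB
    have h1 := card_block n ((m + 1) % 4) hj
    rw [← hB] at h1
    have h2 : (B \ N).card + (N.filter (fun x => inBlock n ((m + 1) % 4) x)).card = B.card := by
      have h3 : N.filter (fun x => inBlock n ((m + 1) % 4) x) = B ∩ N := by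
        ext x
        rw [Finset.mem_filter, Finset.mem_inter, hB, Finset.mem_filter]
        simp only [Finset.mem_univ, true_and]
        exact and_comm
      rw [h3]
      exact Finset.card_sdiff_add_card_inter B N
    have h3 := hN ((m + 1) % 4) hj
    have h4 : (B \ N) ⊆ insert p (ball r p \ N) := by
      intro x hx
      rw [Finset.mem_sdiff, hB, Finset.mem_filter] at hx
      obtain ⟨⟨_, hx1, hx2⟩, hx3⟩ := hx
      rw [Finset.mem_insert, Finset.mem_sdiff]
      by_cases hxp : x = p
      · exact Or.inl hxp
      · right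
        refine ⟨?_, hx3⟩
        by_cases hm3 : m = 3
        · have h5 : x = ((x.val + n : ℕ) : ZMod n) := by
            rw [Nat.cast_add, ZMod.natCast_self, add_zero, ZMod.natCast_zmod_val]
          rw [h5]
          rw [h5] at hxp
          subst hm3
          apply hball1 _ _ _ hxp <;> omega
        · have h5 : x = ((x.val : ℕ) : ZMod n) := (ZMod.natCast_zmod_val x).symm
          rw [h5]
          rw [h5] at hxp
          have h6 : (m + 1) % 4 = m + 1 := Nat.mod_eq_of_lt (by omega)
          rw [h6] at hx1 hx2
          have h7 : (m + 1 + 1) * n / 4 = (m + 2) * n / 4 := rfl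
          rw [h7] at hx2
          apply hball1 _ _ _ hxp <;> omega
    have h5 := (Finset.card_le_card h4).trans (Finset.card_insert_le _ _)
    omega
  · -- the window lies in two blocks
    push Not at hfull
    have hj1 : m % 4 < 4 := Nat.mod_lt _ (by norm_num)
    have hj2 : (m + 1) % 4 < 4 := Nat.mod_lt _ (by norm_num)
    have h1 : ball r p ∩ N ⊆ N.filter (fun x => inBlock n (m % 4) x) ∪
        N.filter (fun x => inBlock n ((m + 1) % 4) x) := by
      intro x hx
      rw [Finset.mem_inter] at hx
      obtain ⟨t, ht1, ht2, ht3⟩ := hball2 x hx.1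
      rw [Finset.mem_union, Finset.mem_filter, Finset.mem_filter]
      by_cases ht : t < (m + 1) * n / 4
      · left
        refine ⟨hx.2, ?_⟩
        rw [ht3]
        exact inBlock_cast n m t (by omega) (by omega) ht
      · right
        refine ⟨hx.2, ?_⟩
        rw [ht3]
        refine inBlock_cast n (m + 1) t (by omega) (by omega) ?_
        have h7 : (m + 1 + 1) * n / 4 = (m + 2) * n / 4 := rfl
        rw [h7]
        omega
    have h2 := (Finset.card_le_card h1).trans (Finset.card_union_le _ _)
    have h3 := hN _ hj1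
    have h4 := hN _ hj2
    have h5 : (ball r p \ N).card + (ball r p ∩ N).card = (ball r p).card :=
      Finset.card_sdiff_add_card_inter _ _
    rw [card_ball r (by omega)] at h5
    omega

/-- dealing the numbers into the four blocks -/
lemma exists_deal (n : ℕ) [NeZero n] : ∃ g : Fin n ≃ ZMod n, ∀ i : Fin n, i.val < 4 * (n / 4) →
    (g i).val = (i.val % 4) * n / 4 + i.val / 4 := by
  have hval : ∀ i : Fin n, i.val < 4 * (n / 4) →
      (((i.val % 4) * n / 4 + i.val / 4 : ℕ) : ZMod n).val = (i.val % 4) * n / 4 + i.val / 4 := by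
    intro i hi
    rw [ZMod.val_natCast, Nat.mod_eq_of_lt]
    have h1 : i.val % 4 < 4 := Nat.mod_lt _ (by norm_num)
    have h2 : i.val / 4 < n / 4 := by omega
    generalize i.val % 4 = a at h1 ⊢
    generalize i.val / 4 = b at h2 ⊢
    interval_cases a <;> omega
  obtain ⟨g, hg⟩ := Finset.exists_equiv_extend_of_card_eq (α := Fin n) (β := ZMod n)
    (t := (univ : Finset (ZMod n))) (s := univ.filter (fun i : Fin n => i.val < 4 * (n / 4)))
    (f := fun i => (((i.val % 4) * n / 4 + i.val / 4 : ℕ) : ZMod n))
    (by rw [Fintype.card_fin, Finset.card_univ, ZMod.card]) (Finset.subset_univ _)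
    (by
      intro i hi i' hi' hii
      rw [Finset.mem_coe, Finset.mem_filter] at hi hi'
      have h1 := congrArg ZMod.val hii
      simp only at h1
      rw [hval i hi.2, hval i' hi'.2] at h1
      have h2 : i.val % 4 < 4 := Nat.mod_lt _ (by norm_num)
      have h2' : i'.val % 4 < 4 := Nat.mod_lt _ (by norm_num)
      have h3 : i.val / 4 < n / 4 := by omega
      have h3' : i'.val / 4 < n / 4 := by omega
      have h4 : i.val = 4 * (i.val / 4) + i.val % 4 := by omega
      have h4' : i'.val = 4 * (i'.val / 4) + i'.val % 4 := by omega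
      apply Fin.ext
      rw [h4, h4']
      generalize i.val % 4 = a at h1 h2 ⊢
      generalize i.val / 4 = b at h1 h3 ⊢
      generalize i'.val % 4 = a' at h1 h2' ⊢
      generalize i'.val / 4 = b' at h1 h3' ⊢
      interval_cases a <;> interval_cases a' <;> omega)
  refine ⟨g.trans (Equiv.subtypeUnivEquiv (fun x => Finset.mem_univ x)), fun i hi => ?_⟩
  have h1 := hg i (by rw [Finset.mem_filter]; exact ⟨Finset.mem_univ _, hi⟩)
  show ((g i : ZMod n)).val = _
  rw [h1]
  exact hval i hi

/-- a set without gaps contains few numbers with a given remainder modulo 4 -/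
lemma card_mod_le (S : Finset ℕ) (hS : ∀ a ∈ S, ∀ b ∈ S, ∀ c, a ≤ c → c ≤ b → c ∈ S) (j : ℕ) :
    4 * (S.filter (fun i => i % 4 = j)).card ≤ S.card + 4 := by
  set T : Finset ℕ := S.filter (fun i => i % 4 = j) with hT
  rcases T.eq_empty_or_nonempty with h | h
  · rw [h]
    simp
  · set M : ℕ := T.max' h with hM
    have hMT : M ∈ T := T.max'_mem h
    have h1 : ((T.erase M) ×ˢ (range 4)).card ≤ S.card := by
      refine Finset.card_le_card_of_injOn (fun p => p.1 + p.2) ?_ ?_
      · rintro ⟨a, b⟩ hab
        rw [Finset.mem_coe, Finset.mem_product, Finset.mem_erase, Finset.mem_range] at hab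
        obtain ⟨⟨h2, h3⟩, h4⟩ := hab
        have h5 : a ≤ M := T.le_max' a h3
        rw [hT, Finset.mem_filter] at h3 hMT
        simp only at h2 h3 h4 h5 ⊢
        exact hS a h3.1 M hMT.1 (a + b) (by omega) (by omega)
      · rintro ⟨a, b⟩ hab ⟨a', b'⟩ hab' he
        rw [Finset.mem_coe, Finset.mem_product, Finset.mem_erase, Finset.mem_range] at hab hab'
        obtain ⟨⟨h2, h3⟩, h4⟩ := hab
        obtain ⟨⟨h2', h3'⟩, h4'⟩ := hab'
        rw [hT, Finset.mem_filter] at h3 h3'
        simp only at h2 h3 h4 h2' h3' h4' he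
        rw [Prod.mk.injEq]
        omega
    rw [Finset.card_product, Finset.card_range, Finset.card_erase_of_mem hMT] at h1
    have h2 : 0 < T.card := Finset.card_pos.mpr h
    omega

/-- every partition into classes can be spread evenly over the four blocks -/
theorem placement {W κ : Type*} [Fintype W] (n : ℕ) [NeZero n] (hn : Fintype.card W = n)
    (c : W → κ) : ∃ π : W ≃ ZMod n, ∀ (a : κ) (j : ℕ), j < 4 →
      4 * (univ.filter (fun w => c w = a ∧ inBlock n j (π w))).card
        ≤ (univ.filter (fun w => c w = a)).card + 8 := by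
  -- number the classes
  obtain ⟨h, hh⟩ : ∃ h : κ → ℕ, ∀ w w', h (c w) = h (c w') → c w = c w' := by
    let e0 := Fintype.equivFin W
    refine ⟨fun a => if ha : ∃ w, c w = a then (e0 ha.choose).val else 0, fun w w' hw => ?_⟩
    have h1 : ∃ v, c v = c w := ⟨w, rfl⟩
    have h2 : ∃ v, c v = c w' := ⟨w', rfl⟩
    simp only [dif_pos h1, dif_pos h2] at hw
    have h3 := e0.injective (Fin.ext hw)
    rw [← h1.choose_spec, ← h2.choose_spec, h3]
  let e0 : W ≃ Fin n := Fintype.equivFinOfCardEq hn
  let f : Fin n → ℕ := fun i => h (c (e0.symm i))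
  let e : W ≃ Fin n := e0.trans (Tuple.sort f).symm
  have hmono : ∀ i i' : Fin n, i ≤ i' → h (c (e.symm i)) ≤ h (c (e.symm i')) :=
    fun i i' hii => Tuple.monotone_sort f hii
  obtain ⟨g, hg⟩ := exists_deal n
  refine ⟨e.trans g, fun a j hj => ?_⟩
  -- the class in `ℕ`
  set S : Finset ℕ := (univ.filter (fun w => c w = a)).image (fun w => (e w).val) with hS
  have hinj : Function.Injective (fun w => (e w).val) := fun w w' hw => e.injective (Fin.ext hw)
  have hSc : S.card = (univ.filter (fun w => c w = a)).card :=
    Finset.card_image_of_injective _ hinj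
  have hmemS : ∀ i, i ∈ S ↔ ∃ w, c w = a ∧ (e w).val = i := by
    intro i
    rw [hS, Finset.mem_image]
    simp only [Finset.mem_filter, Finset.mem_univ, true_and]
  have hconv : ∀ x ∈ S, ∀ y ∈ S, ∀ z, x ≤ z → z ≤ y → z ∈ S := by
    intro x hx y hy z hxz hzy
    rw [hmemS] at hx hy ⊢
    obtain ⟨w, hw1, hw2⟩ := hx
    obtain ⟨w', hw1', hw2'⟩ := hy
    have hz : z < n := by
      have := (e w').isLt
      omega
    have h1 := hmono (e w) ⟨z, hz⟩ (by
      show (e w).val ≤ z
      omega)
    have h2 := hmono ⟨z, hz⟩ (e w') (by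
      show z ≤ (e w').val
      omega)
    rw [Equiv.symm_apply_apply] at h1 h2
    rw [hw1] at h1
    rw [hw1'] at h2
    refine ⟨e.symm ⟨z, hz⟩, ?_, ?_⟩
    · have h3 : h (c (e.symm ⟨z, hz⟩)) = h (c w) := by
        rw [hw1]
        exact le_antisymm h2 h1
      rw [hh _ _ h3, hw1]
    · rw [Equiv.apply_symm_apply]
  have h1 := card_mod_le S hconv j
  rw [hSc] at h1
  -- the exceptional elements
  set Ex : Finset W := univ.filter (fun w => inBlock n j (g (e w)) ∧ 4 * (n / 4) ≤ (e w).val)
    with hEx
  have hExc : Ex.card ≤ 1 := by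
    -- the block contains `n / 4` regular elements
    have h2 : (univ.filter (fun w => inBlock n j (g (e w)))).card =
        (univ.filter (fun x : ZMod n => inBlock n j x)).card := by
      refine Finset.card_bij' (fun w _ => g (e w)) (fun x _ => e.symm (g.symm x)) ?_ ?_ ?_ ?_
      · intro w hw
        rw [Finset.mem_filter] at hw ⊢
        exact ⟨Finset.mem_univ _, hw.2⟩
      · intro x hx
        rw [Finset.mem_filter] at hx ⊢
        rw [Equiv.apply_symm_apply, Equiv.apply_symm_apply]
        exact ⟨Finset.mem_univ _, hx.2⟩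
      · intro w _
        rw [Equiv.symm_apply_apply, Equiv.symm_apply_apply]
      · intro x _
        rw [Equiv.apply_symm_apply, Equiv.apply_symm_apply]
    have h3 := card_block_le n j hj
    rw [← h2] at h3
    have h4 : (range (n / 4)).card ≤
        (univ.filter (fun w => inBlock n j (g (e w)) ∧ (e w).val < 4 * (n / 4))).card := by
      refine Finset.card_le_card_of_injOn
        (fun q => if hq : 4 * q + j < n then e.symm ⟨4 * q + j, hq⟩ else e.symm ⟨0, NeZero.pos n⟩)
        ?_ ?_
      · intro q hq
        rw [Finset.mem_coe, Finset.mem_range] at hq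
        have hq' : 4 * q + j < n := by omega
        rw [Finset.mem_coe, Finset.mem_filter]
        simp only [dif_pos hq', Equiv.apply_symm_apply]
        refine ⟨Finset.mem_univ _, ?_, by omega⟩
        have h5 := hg ⟨4 * q + j, hq'⟩ (by show 4 * q + j < 4 * (n / 4); omega)
        simp only at h5
        have h6 : (4 * q + j) % 4 = j := by omega
        have h7 : (4 * q + j) / 4 = q := by omega
        rw [h6, h7] at h5
        unfold inBlock
        rw [h5]
        interval_cases j <;> omega
      · intro q hq q' hq' hqq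
        rw [Finset.mem_coe, Finset.mem_range] at hq hq'
        have h5 : 4 * q + j < n := by omega
        have h5' : 4 * q' + j < n := by omega
        simp only [dif_pos h5, dif_pos h5'] at hqq
        have h6 := congrArg Fin.val (e.symm.injective hqq)
        simp only at h6
        omega
    rw [Finset.card_range] at h4
    have h5 : (univ.filter (fun w => inBlock n j (g (e w)) ∧ (e w).val < 4 * (n / 4))).card +
        Ex.card ≤ (univ.filter (fun w => inBlock n j (g (e w)))).card := by
      rw [← Finset.card_union_of_disjoint]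
      · refine Finset.card_le_card ?_
        intro w hw
        rw [hEx, Finset.mem_union, Finset.mem_filter, Finset.mem_filter] at hw
        rw [Finset.mem_filter]
        rcases hw with hw | hw
        · exact ⟨Finset.mem_univ _, hw.2.1⟩
        · exact ⟨Finset.mem_univ _, hw.2.1⟩
      · rw [Finset.disjoint_left]
        intro w hw hw'
        rw [Finset.mem_filter] at hw
        rw [hEx, Finset.mem_filter] at hw'
        omega
    omega
  have h2 : (univ.filter (fun w => c w = a ∧ inBlock n j ((e.trans g) w))).card ≤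
      (S.filter (fun i => i % 4 = j)).card + Ex.card := by
    have h3 : univ.filter (fun w => c w = a ∧ inBlock n j ((e.trans g) w)) ⊆
        (univ.filter (fun w => c w = a ∧ (e w).val % 4 = j)) ∪ Ex := by
      intro w hw
      rw [Finset.mem_filter] at hw
      obtain ⟨_, hw1, hw2⟩ := hw
      rw [Equiv.trans_apply] at hw2
      rw [Finset.mem_union, Finset.mem_filter, hEx, Finset.mem_filter]
      by_cases hwe : (e w).val < 4 * (n / 4)
      · left
        refine ⟨Finset.mem_univ _, hw1, ?_⟩
        have h4 := hg (e w) hwe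
        unfold inBlock at hw2
        rw [h4] at hw2
        have h5 : (e w).val % 4 < 4 := Nat.mod_lt _ (by norm_num)
        have h6 : (e w).val / 4 < n / 4 := by omega
        generalize (e w).val % 4 = b at hw2 h5 ⊢
        generalize (e w).val / 4 = b' at hw2 h6
        interval_cases b <;> interval_cases j <;> omega
      · right
        exact ⟨Finset.mem_univ _, hw2, by omega⟩
    refine (Finset.card_le_card h3).trans ((Finset.card_union_le _ _).trans ?_)
    refine Nat.add_le_add_right ?_ _
    refine Finset.card_le_card_of_injOn (fun w => (e w).val) ?_ (hinj.injOn)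
    intro w hw
    rw [Finset.mem_coe, Finset.mem_filter] at hw
    rw [Finset.mem_coe, Finset.mem_filter, hmemS]
    exact ⟨⟨w, hw.2.1, rfl⟩, hw.2.2⟩
  omega

end Pool.Agent.BD48
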