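import Mathlib
import Pool.Agent.BD48.Place

/-!
Spreading several sets simultaneously over the four blocks of a cycle.
-/

namespace Pool.Agent.BD48

open Finset

attribute [local instance] Classical.propDecidable

/-- the Beck–Fiala rounding lemma, inductive form -/
lemma bf_aux {W κ : Type*} [Fintype W] (Y : Finset κ) (S : κ → Finset W) (D : ℕ)
    (hD : ∀ w, (Y.filter (fun y => w ∈ S y)).card ≤ D) (N : ℕ) :
    ∀ x : W → ℝ, (∀ w, 0 ≤ x w ∧ x w ≤ 1) →
      (univ.filter (fun w => x w ≠ 0 ∧ x w ≠ 1)).card ≤ N →
      ∃ z : W → ℝ, (∀ w, z w = 0 ∨ z w = 1) ∧ (∀ w, ¬ (x w ≠ 0 ∧ x w ≠ 1) → z w = x w) ∧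
        ∀ y ∈ Y, |∑ w ∈ S y, (z w - x w)| ≤ D := by
  induction N with
  | zero =>
    intro x hx hN
    have h0 : ∀ w, ¬ (x w ≠ 0 ∧ x w ≠ 1) := by
      intro w hw
      have : w ∈ univ.filter (fun w => x w ≠ 0 ∧ x w ≠ 1) :=
        Finset.mem_filter.mpr ⟨Finset.mem_univ _, hw⟩
      have := Finset.card_pos.mpr ⟨w, this⟩
      omega
    refine ⟨x, ?_, fun w _ => rfl, ?_⟩
    · intro w
      have := h0 w
      by_contra hcon
      rw [not_or] at hcon
      exact this hcon
    · intro y _
      simp
  | succ N ih =>
    intro x hx hN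
    set F : Finset W := univ.filter (fun w => x w ≠ 0 ∧ x w ≠ 1) with hF
    have hmemF : ∀ w, w ∈ F ↔ (x w ≠ 0 ∧ x w ≠ 1) := by
      intro w
      rw [hF, Finset.mem_filter]
      simp
    by_cases hFe : F.card ≤ N
    · exact ih x hx hFe
    have hFpos : 0 < F.card := by omega
    set A : Finset κ := Y.filter (fun y => D < (S y ∩ F).card) with hA
    have hAF : A.card < F.card := by
      have h1 : ∑ y ∈ Y, (S y ∩ F).card ≤ D * F.card := by
        have h2 : ∑ y ∈ Y, (S y ∩ F).card = ∑ w ∈ F, (Y.filter (fun y => w ∈ S y)).card := by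
          have h3 : ∀ y ∈ Y, (S y ∩ F).card = ∑ w ∈ F, if w ∈ S y then 1 else 0 := by
            intro y _
            rw [← Finset.card_filter]
            congr 1
            ext w
            rw [Finset.mem_inter, Finset.mem_filter (s := F), and_comm]
          rw [Finset.sum_congr rfl h3, Finset.sum_comm]
          refine Finset.sum_congr rfl (fun w _ => ?_)
          rw [← Finset.card_filter]
        rw [h2]
        refine le_trans (Finset.sum_le_sum (fun w _ => hD w)) ?_
        rw [Finset.sum_const, smul_eq_mul, Nat.mul_comm]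
      have h4 : A.card * (D + 1) ≤ ∑ y ∈ Y, (S y ∩ F).card := by
        have hsub : A ⊆ Y := Finset.filter_subset _ Y
        refine le_trans ?_ (Finset.sum_le_sum_of_subset hsub)
        rw [← smul_eq_mul, ← Finset.sum_const]
        refine Finset.sum_le_sum (fun y hy => ?_)
        rw [Finset.mem_filter] at hy
        exact hy.2
      by_contra hcon
      have h5 : F.card * (D + 1) ≤ A.card * (D + 1) := Nat.mul_le_mul_right _ (by omega)
      have h6 : F.card * (D + 1) = D * F.card + F.card := by ring
      omega
    -- the direction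
    let f : (W → ℝ) →ₗ[ℝ] (A → ℝ) × ((Fᶜ : Finset W) → ℝ) :=
      LinearMap.prod (LinearMap.pi (fun y => ∑ w ∈ S y.1, LinearMap.proj w))
        (LinearMap.pi (fun w => LinearMap.proj w.1))
    have hker : LinearMap.ker f ≠ ⊥ := by
      refine LinearMap.ker_ne_bot_of_finrank_lt ?_
      rw [Module.finrank_prod, Module.finrank_fintype_fun_eq_card, Module.finrank_fintype_fun_eq_card,
        Module.finrank_fintype_fun_eq_card, Fintype.card_coe, Fintype.card_coe,
        Finset.card_compl]
      have := Finset.card_le_univ F
      omega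
    obtain ⟨v, hv, hv0⟩ := (Submodule.ne_bot_iff _).mp hker
    rw [LinearMap.mem_ker] at hv
    have hvA : ∀ y ∈ A, ∑ w ∈ S y, v w = 0 := by
      intro y hy
      have := congrFun (congrArg Prod.fst hv) ⟨y, hy⟩
      simpa [f] using this
    have hvF : ∀ w, w ∉ F → v w = 0 := by
      intro w hw
      have := congrFun (congrArg Prod.snd hv) ⟨w, Finset.mem_compl.mpr hw⟩
      simpa [f] using this
    -- the step length
    let T : W → ℝ := fun w => if 0 < v w then (1 - x w) / v w else x w / (-(v w))
    set G : Finset W := univ.filter (fun w => v w ≠ 0) with hG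
    have hGne : G.Nonempty := by
      by_contra hcon
      rw [Finset.not_nonempty_iff_eq_empty] at hcon
      apply hv0
      ext w
      by_contra hw
      have : w ∈ G := Finset.mem_filter.mpr ⟨Finset.mem_univ _, hw⟩
      rw [hcon] at this
      exact absurd this (Finset.notMem_empty _)
    obtain ⟨w0, hw0, hmin⟩ := Finset.exists_min_image G T hGne
    have hGF : ∀ w ∈ G, w ∈ F := by
      intro w hw
      by_contra hcon
      rw [hG, Finset.mem_filter] at hw
      exact hw.2 (hvF w hcon)
    have hxF : ∀ w ∈ F, 0 < x w ∧ x w < 1 := by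
      intro w hw
      rw [hmemF] at hw
      exact ⟨lt_of_le_of_ne (hx w).1 (Ne.symm hw.1), lt_of_le_of_ne (hx w).2 hw.2⟩
    have hTpos : 0 ≤ T w0 := by
      have h1 := hxF w0 (hGF w0 hw0)
      show 0 ≤ if 0 < v w0 then (1 - x w0) / v w0 else x w0 / (-(v w0))
      split_ifs with h
      · exact div_nonneg (by linarith) h.le
      · exact div_nonneg (by linarith) (by linarith)
    let x' : W → ℝ := fun w => x w + T w0 * v w
    have hx' : ∀ w, 0 ≤ x' w ∧ x' w ≤ 1 := by
      intro w
      show 0 ≤ x w + T w0 * v w ∧ x w + T w0 * v w ≤ 1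
      have hxw := hx w
      by_cases hvw : v w = 0
      · rw [hvw, mul_zero, add_zero]
        exact hxw
      · have hwG : w ∈ G := Finset.mem_filter.mpr ⟨Finset.mem_univ _, hvw⟩
        have hle := hmin w hwG
        rcases lt_or_gt_of_ne hvw with h | h
        · have hT : T w = x w / (-(v w)) := if_neg (by linarith)
          rw [hT, le_div_iff₀ (by linarith)] at hle
          constructor
          · linarith
          · have : T w0 * v w ≤ 0 := mul_nonpos_of_nonneg_of_nonpos hTpos h.le
            linarith
        · have hT : T w = (1 - x w) / v w := if_pos h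
          rw [hT, le_div_iff₀ h] at hle
          constructor
          · have : 0 ≤ T w0 * v w := mul_nonneg hTpos h.le
            linarith
          · linarith
    have hx'F : ∀ w, w ∉ F → x' w = x w := by
      intro w hw
      show x w + T w0 * v w = x w
      rw [hvF w hw, mul_zero, add_zero]
    have hx'w0 : ¬ (x' w0 ≠ 0 ∧ x' w0 ≠ 1) := by
      have hv' : v w0 ≠ 0 := (Finset.mem_filter.mp hw0).2
      rintro ⟨h1, h2⟩
      rcases lt_or_gt_of_ne hv' with h | h
      · have hT : T w0 = x w0 / (-(v w0)) := if_neg (by linarith)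
        apply h1
        show x w0 + T w0 * v w0 = 0
        rw [hT]
        field_simp
        ring
      · have hT : T w0 = (1 - x w0) / v w0 := if_pos h
        apply h2
        show x w0 + T w0 * v w0 = 1
        rw [hT]
        field_simp
        ring
    have hcard : (univ.filter (fun w => x' w ≠ 0 ∧ x' w ≠ 1)).card ≤ N := by
      have h1 : univ.filter (fun w => x' w ≠ 0 ∧ x' w ≠ 1) ⊆ F.erase w0 := by
        intro w hw
        rw [Finset.mem_filter] at hw
        rw [Finset.mem_erase]
        refine ⟨?_, ?_⟩
        · rintro rfl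
          exact hx'w0 hw.2
        · by_contra hcon
          have h2 := hx'F w hcon
          rw [h2] at hw
          exact hcon ((hmemF w).mpr hw.2)
      have h2 := Finset.card_le_card h1
      rw [Finset.card_erase_of_mem (hGF w0 hw0)] at h2
      omega
    obtain ⟨z, hz1, hz2, hz3⟩ := ih x' hx' hcard
    have hzF : ∀ w, w ∉ F → z w = x w := by
      intro w hw
      rw [hz2 w, hx'F w hw]
      rw [hx'F w hw]
      rw [hmemF] at hw
      exact hw
    refine ⟨z, hz1, ?_, ?_⟩
    · intro w hw
      exact hzF w (fun h => hw ((hmemF w).mp h))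
    · intro y hy
      by_cases hyA : y ∈ A
      · have h1 : ∑ w ∈ S y, (z w - x w) = ∑ w ∈ S y, (z w - x' w) + T w0 * ∑ w ∈ S y, v w := by
          rw [Finset.mul_sum, ← Finset.sum_add_distrib]
          refine Finset.sum_congr rfl (fun w _ => ?_)
          show z w - x w = z w - (x w + T w0 * v w) + T w0 * v w
          ring
        rw [h1, hvA y hyA, mul_zero, add_zero]
        exact hz3 y hy
      · have h1 : (S y ∩ F).card ≤ D := by
          by_contra hcon
          exact hyA (Finset.mem_filter.mpr ⟨hy, by omega⟩)
        have h2 : ∑ w ∈ S y, (z w - x w) = ∑ w ∈ S y ∩ F, (z w - x w) := by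
          symm
          refine Finset.sum_subset Finset.inter_subset_left ?_
          intro w hw hw'
          rw [Finset.mem_inter, not_and] at hw'
          rw [hzF w (hw' hw), sub_self]
        rw [h2]
        refine le_trans (Finset.abs_sum_le_sum_abs _ _) ?_
        have h3 : ∑ w ∈ S y ∩ F, |z w - x w| ≤ ∑ _w ∈ S y ∩ F, (1 : ℝ) := by
          refine Finset.sum_le_sum (fun w _ => ?_)
          have hxw := hx w
          rw [abs_le]
          rcases hz1 w with h | h
          · rw [h]
            constructor <;> linarith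
          · rw [h]
            constructor <;> linarith
        refine le_trans h3 ?_
        rw [Finset.sum_const, nsmul_eq_mul, mul_one]
        exact_mod_cast h1

/-- two-colouring with small discrepancy -/
lemma halve {W κ : Type*} [Fintype W] (Y : Finset κ) (S : κ → Finset W) (D : ℕ)
    (hD : ∀ w, (Y.filter (fun y => w ∈ S y)).card ≤ D) :
    ∃ U : Finset W, ∀ y ∈ Y, 2 * (S y ∩ U).card ≤ (S y).card + 2 * D ∧
      (S y).card ≤ 2 * (S y ∩ U).card + 2 * D := by
  obtain ⟨z, hz1, _, hz3⟩ := bf_aux Y S D hD _ (fun _ => 1 / 2) (fun w => by norm_num) le_rfl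
  refine ⟨univ.filter (fun w => z w = 1), ?_⟩
  intro y hy
  have h1 := hz3 y hy
  have h2 : ∑ w ∈ S y, (z w - 1 / 2) =
      ((S y ∩ univ.filter (fun w => z w = 1)).card : ℝ) - (S y).card / 2 := by
    rw [Finset.sum_sub_distrib, Finset.sum_const, nsmul_eq_mul]
    have h3 : ∑ w ∈ S y, z w = ∑ w ∈ S y, if z w = 1 then (1 : ℝ) else 0 := by
      refine Finset.sum_congr rfl (fun w _ => ?_)
      rcases hz1 w with h | h
      · rw [h, if_neg (by norm_num)]
      · rw [h, if_pos rfl]
    rw [h3, Finset.sum_boole]
    have h4 : S y ∩ univ.filter (fun w => z w = 1) = (S y).filter (fun w => z w = 1) := by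
      ext w
      rw [Finset.mem_inter, Finset.mem_filter, Finset.mem_filter]
      simp
    rw [h4]
    ring
  rw [h2, abs_le] at h1
  obtain ⟨h5, h6⟩ := h1
  constructor
  · have : (2 * ((S y ∩ univ.filter (fun w => z w = 1)).card : ℝ)) ≤ (S y).card + 2 * D := by
      linarith
    exact_mod_cast this
  · have : ((S y).card : ℝ) ≤ 2 * ((S y ∩ univ.filter (fun w => z w = 1)).card : ℝ) + 2 * D := by
      linarith
    exact_mod_cast this

/-- four classes with small discrepancy -/
lemma quarter {W κ : Type*} [Fintype W] (Y : Finset κ) (S : κ → Finset W) (D : ℕ)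
    (hD : ∀ w, (Y.filter (fun y => w ∈ S y)).card ≤ D) :
    ∃ c : W → ℕ, (∀ w, c w < 4) ∧ ∀ y ∈ Y, ∀ j < 4,
      4 * ((S y).filter (fun w => c w = j)).card ≤ (S y).card + 6 * D ∧
      (S y).card ≤ 4 * ((S y).filter (fun w => c w = j)).card + 6 * D := by
  obtain ⟨U, hU⟩ := halve Y S D hD
  let S1 : κ × Bool → Finset W := fun p => if p.2 then S p.1 ∩ U else S p.1 \ U
  obtain ⟨V, hV⟩ := halve (Y ×ˢ (univ : Finset Bool)) S1 D (by
    intro w
    refine le_trans (Finset.card_le_card_of_injOn (fun p : κ × Bool => p.1) ?_ ?_) (hD w)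
    · intro p hp
      rw [Finset.mem_coe, Finset.mem_filter, Finset.mem_product] at hp
      rw [Finset.mem_coe, Finset.mem_filter]
      refine ⟨hp.1.1, ?_⟩
      have h1 : w ∈ (if p.2 then S p.1 ∩ U else S p.1 \ U) := hp.2
      split_ifs at h1
      · exact (Finset.mem_inter.mp h1).1
      · exact (Finset.mem_sdiff.mp h1).1
    · intro p hp p' hp' hpp
      rw [Finset.mem_coe, Finset.mem_filter] at hp hp'
      have h1 : w ∈ (if p.2 then S p.1 ∩ U else S p.1 \ U) := hp.2
      have h2 : w ∈ (if p'.2 then S p'.1 ∩ U else S p'.1 \ U) := hp'.2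
      refine Prod.ext hpp ?_
      by_cases hw : w ∈ U
      · have e1 : p.2 = true := by
          by_contra hcon
          rw [if_neg (by simpa using hcon)] at h1
          exact (Finset.mem_sdiff.mp h1).2 hw
        have e2 : p'.2 = true := by
          by_contra hcon
          rw [if_neg (by simpa using hcon)] at h2
          exact (Finset.mem_sdiff.mp h2).2 hw
        rw [e1, e2]
      · have e1 : p.2 = false := by
          by_contra hcon
          rw [if_pos (by simpa using hcon)] at h1
          exact hw (Finset.mem_inter.mp h1).2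
        have e2 : p'.2 = false := by
          by_contra hcon
          rw [if_pos (by simpa using hcon)] at h2
          exact hw (Finset.mem_inter.mp h2).2
        rw [e1, e2])
  refine ⟨fun w => (if w ∈ U then 2 else 0) + (if w ∈ V then 1 else 0), ?_, ?_⟩
  · intro w
    show (if w ∈ U then 2 else 0) + (if w ∈ V then 1 else 0) < 4
    split_ifs <;> omega
  · intro y hy j hj
    have h1 := hU y hy
    have h2 := hV (y, true) (Finset.mem_product.mpr ⟨hy, Finset.mem_univ _⟩)
    have h3 := hV (y, false) (Finset.mem_product.mpr ⟨hy, Finset.mem_univ _⟩)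
    have e1 : S1 (y, true) = S y ∩ U := if_pos rfl
    have e2 : S1 (y, false) = S y \ U := if_neg (by simp)
    rw [e1] at h2
    rw [e2] at h3
    have h4 : (S y \ U).card + (S y ∩ U).card = (S y).card := Finset.card_sdiff_add_card_inter _ _
    have h5 : (S y ∩ U ∩ V).card + ((S y ∩ U) \ V).card = (S y ∩ U).card := by
      rw [Nat.add_comm]
      exact Finset.card_sdiff_add_card_inter _ _
    have h6 : ((S y \ U) ∩ V).card + ((S y \ U) \ V).card = (S y \ U).card := by
      rw [Nat.add_comm]
      exact Finset.card_sdiff_add_card_inter _ _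
    have key : ∀ A : Finset W, (∀ w, w ∈ A ↔ w ∈ S y ∧
        (if w ∈ U then 2 else 0) + (if w ∈ V then 1 else 0) = j) →
        ((S y).filter (fun w => (if w ∈ U then 2 else 0) + (if w ∈ V then 1 else 0) = j)).card
          = A.card := by
      intro A hA
      congr 1
      ext w
      rw [Finset.mem_filter, hA]
    interval_cases j
    · rw [key ((S y \ U) \ V) (by
        intro w
        rw [Finset.mem_sdiff, Finset.mem_sdiff]
        split_ifs <;> simp_all)]
      omega
    · rw [key ((S y \ U) ∩ V) (by
        intro w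
        rw [Finset.mem_inter, Finset.mem_sdiff]
        split_ifs <;> simp_all)]
      omega
    · rw [key ((S y ∩ U) \ V) (by
        intro w
        rw [Finset.mem_sdiff, Finset.mem_inter]
        split_ifs <;> simp_all)]
      omega
    · rw [key (S y ∩ U ∩ V) (by
        intro w
        rw [Finset.mem_inter, Finset.mem_inter]
        split_ifs <;> simp_all)]
      omega

/-- sets such that every point lies in at most `D` of them can be spread simultaneously over the four
blocks -/
theorem placementD {W κ : Type*} [Fintype W] (n D : ℕ) [NeZero n] (hn : Fintype.card W = n)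
    (Y : Finset κ) (S : κ → Finset W) (hD : ∀ w, (Y.filter (fun y => w ∈ S y)).card ≤ D) :
    ∃ π : W ≃ ZMod n, ∀ y ∈ Y, ∀ j < 4, ∀ T : Finset W,
      (∀ w ∈ T, w ∈ S y ∧ inBlock n j (π w)) → 4 * T.card ≤ (S y).card + 100 * (D + 1) := by
  let S0 : Option κ → Finset W := fun o => o.elim univ S
  obtain ⟨c, hc4, hc⟩ := quarter (Finset.insertNone Y) S0 (D + 1) (by
    intro w
    have h1 : (Finset.insertNone Y).filter (fun o => w ∈ S0 o) ⊆
        insert none ((Y.filter (fun y => w ∈ S y)).image some) := by
      intro o ho
      rw [Finset.mem_filter] at ho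
      rw [Finset.mem_insert, Finset.mem_image]
      cases o with
      | none => exact Or.inl rfl
      | some y =>
        right
        refine ⟨y, ?_, rfl⟩
        rw [Finset.mem_filter]
        refine ⟨?_, ho.2⟩
        have := ho.1
        rw [Finset.mem_insertNone] at this
        exact this y rfl
    refine le_trans (Finset.card_le_card h1) (le_trans (Finset.card_insert_le _ _) ?_)
    exact Nat.add_le_add_right (le_trans Finset.card_image_le (hD w)) 1)
  have hcn := hc none (Finset.mem_insertNone.mpr (by simp))
  have hcy : ∀ y ∈ Y, ∀ j < 4, 4 * ((S y).filter (fun w => c w = j)).card ≤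
      (S y).card + 6 * (D + 1) := by
    intro y hy j hj
    exact (hc (some y) (by
      rw [Finset.mem_insertNone]
      intro a ha
      have : y = a := by simpa using ha
      rw [← this]
      exact hy) j hj).1
  have hS0 : S0 none = univ := rfl
  have hcardn : (S0 none).card = n := by
    rw [hS0, Finset.card_univ, hn]
  -- the sizes of the initial segments
  set Nn : ℕ → ℕ := fun j => (univ.filter (fun w => c w < j)).card with hNn
  have hNs : ∀ j, Nn (j + 1) = Nn j + (univ.filter (fun w => c w = j)).card := by
    intro j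
    show (univ.filter (fun w => c w < j + 1)).card = (univ.filter (fun w => c w < j)).card + _
    rw [← Finset.card_union_of_disjoint]
    · congr 1
      ext w
      rw [Finset.mem_union, Finset.mem_filter, Finset.mem_filter, Finset.mem_filter]
      constructor
      · rintro ⟨h1, h2⟩
        rcases Nat.lt_succ_iff_lt_or_eq.mp h2 with h | h
        · exact Or.inl ⟨h1, h⟩
        · exact Or.inr ⟨h1, h⟩
      · rintro (⟨h1, h2⟩ | ⟨h1, h2⟩)
        · exact ⟨h1, by omega⟩
        · exact ⟨h1, by omega⟩
    · rw [Finset.disjoint_left]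
      intro w hw hw'
      rw [Finset.mem_filter] at hw hw'
      omega
  have hN0 : Nn 0 = 0 := by
    show (univ.filter (fun w => c w < 0)).card = 0
    simp
  have hN4 : Nn 4 = n := by
    show (univ.filter (fun w => c w < 4)).card = n
    rw [Finset.filter_true_of_mem (fun w _ => hc4 w), Finset.card_univ, hn]
  have hNmono : ∀ a b, a ≤ b → Nn a ≤ Nn b := by
    intro a b hab
    refine Finset.card_le_card ?_
    intro w hw
    rw [Finset.mem_filter] at hw ⊢
    exact ⟨hw.1, by omega⟩
  have hq : ∀ j < 4, 4 * (univ.filter (fun w => c w = j)).card ≤ n + 6 * (D + 1) ∧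
      n ≤ 4 * (univ.filter (fun w => c w = j)).card + 6 * (D + 1) := by
    intro j hj
    have := hcn j hj
    rw [hcardn, hS0] at this
    exact this
  -- the sorted numbering
  let e0 : W ≃ Fin n := Fintype.equivFinOfCardEq hn
  let f : Fin n → ℕ := fun i => c (e0.symm i)
  let e : W ≃ Fin n := e0.trans (Tuple.sort f).symm
  have hmono : ∀ i i' : Fin n, i ≤ i' → c (e.symm i) ≤ c (e.symm i') :=
    fun i i' hii => Tuple.monotone_sort f hii
  have hmono' : ∀ w w' : W, (e w).val ≤ (e w').val → c w ≤ c w' := by
    intro w w' h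
    have := hmono (e w) (e w') h
    rwa [Equiv.symm_apply_apply, Equiv.symm_apply_apply] at this
  have hpos1 : ∀ w, (e w).val < Nn (c w + 1) := by
    intro w
    have h1 : (range ((e w).val + 1)).card ≤ Nn (c w + 1) := by
      refine Finset.card_le_card_of_injOn
        (fun i => if hi : i < n then e.symm ⟨i, hi⟩ else w) ?_ ?_
      · intro i hi
        rw [Finset.mem_coe, Finset.mem_range] at hi
        have hi' : i < n := by
          have := (e w).isLt
          omega
        rw [Finset.mem_coe, Finset.mem_filter]
        simp only [dif_pos hi']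
        refine ⟨Finset.mem_univ _, ?_⟩
        have := hmono' (e.symm ⟨i, hi'⟩) w (by
          rw [Equiv.apply_symm_apply]
          show i ≤ _
          omega)
        omega
      · intro i hi i' hi' hii
        rw [Finset.mem_coe, Finset.mem_range] at hi hi'
        have h2 := (e w).isLt
        have hi1 : i < n := by omega
        have hi2 : i' < n := by omega
        simp only [dif_pos hi1, dif_pos hi2] at hii
        exact congrArg Fin.val (e.symm.injective hii)
    rw [Finset.card_range] at h1
    omega
  have hpos2 : ∀ w, Nn (c w) ≤ (e w).val := by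
    intro w
    have h1 : Nn (c w) ≤ (range (e w).val).card := by
      refine Finset.card_le_card_of_injOn (fun w' => (e w').val) ?_ ?_
      · intro w' hw'
        rw [Finset.mem_coe, Finset.mem_filter] at hw'
        rw [Finset.mem_coe, Finset.mem_range]
        show (e w').val < (e w).val
        by_contra hcon
        have := hmono' w w' (by omega)
        omega
      · intro w' _ w'' _ hww
        exact e.injective (Fin.ext hww)
    rwa [Finset.card_range] at h1
  obtain ⟨m, hm⟩ : ∃ m, n = m + 1 := ⟨n - 1, by have := NeZero.pos n; omega⟩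
  obtain ⟨g, hg⟩ : ∃ g : Fin n ≃ ZMod n, ∀ i : Fin n, (g i).val = i.val := by
    subst hm
    exact ⟨Equiv.refl _, fun i => rfl⟩
  refine ⟨e.trans g, ?_⟩
  intro y hy j hj T hT
  have hsub : T ⊆ ((S y).filter (fun w => c w = j)) ∪
      ((univ.filter (fun w => j * n / 4 ≤ (e w).val ∧ (e w).val < Nn j)) ∪
       (univ.filter (fun w => Nn (j + 1) ≤ (e w).val ∧ (e w).val < (j + 1) * n / 4))) := by
    intro w hw
    obtain ⟨h1, h2⟩ := hT w hw
    unfold inBlock at h2
    rw [Equiv.trans_apply, hg] at h2
    rw [Finset.mem_union, Finset.mem_union, Finset.mem_filter, Finset.mem_filter,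
      Finset.mem_filter]
    rcases lt_trichotomy (c w) j with h | h | h
    · right; left
      refine ⟨Finset.mem_univ _, h2.1, lt_of_lt_of_le (hpos1 w) (hNmono _ _ (by omega))⟩
    · left
      exact ⟨h1, h⟩
    · right; right
      refine ⟨Finset.mem_univ _, le_trans (hNmono _ _ (by omega)) (hpos2 w), h2.2⟩
  have hcardI : ∀ a b : ℕ, (univ.filter (fun w => a ≤ (e w).val ∧ (e w).val < b)).card ≤ b - a := by
    intro a b
    rw [← Nat.card_Ico a b]
    refine Finset.card_le_card_of_injOn (fun w => (e w).val) ?_ ?_
    · intro w hw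
      rw [Finset.mem_coe, Finset.mem_filter] at hw
      rw [Finset.mem_coe, Finset.mem_Ico]
      exact hw.2
    · intro w' _ w'' _ hww
      exact e.injective (Fin.ext hww)
  have h1 := Finset.card_le_card hsub
  have h2 := Finset.card_union_le ((S y).filter (fun w => c w = j))
    ((univ.filter (fun w => j * n / 4 ≤ (e w).val ∧ (e w).val < Nn j)) ∪
       (univ.filter (fun w => Nn (j + 1) ≤ (e w).val ∧ (e w).val < (j + 1) * n / 4)))
  have h3 := Finset.card_union_le (univ.filter (fun w => j * n / 4 ≤ (e w).val ∧ (e w).val < Nn j))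
       (univ.filter (fun w => Nn (j + 1) ≤ (e w).val ∧ (e w).val < (j + 1) * n / 4))
  have h4 := hcardI (j * n / 4) (Nn j)
  have h5 := hcardI (Nn (j + 1)) ((j + 1) * n / 4)
  have h6 := hcy y hy j hj
  have s0 := hNs 0
  have s1 := hNs 1
  have s2 := hNs 2
  have s3 := hNs 3
  have q0 := hq 0 (by norm_num)
  have q1 := hq 1 (by norm_num)
  have q2 := hq 2 (by norm_num)
  have q3 := hq 3 (by norm_num)
  interval_cases j <;> simp only [Nat.zero_add, Nat.reduceAdd] at * <;> omega

end Pool.Agent.BD48
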