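import Mathlib
import Pool.Agent.BD48.Pack

/-!
Protected sets of neighbours and almost twins in graphs with an orientation of bounded outdegree.
-/

namespace Pool.Agent.BD48

open Finset

attribute [local instance] Classical.propDecidable

variable {V : Type*} [Fintype V]

omit [Fintype V] in
/-- double counting for the in-neighbourhoods -/
theorem sum_filter_outP (out : V → Finset V) (D : ℕ) (hD : ∀ v, (out v).card ≤ D)
    (A B : Finset V) :
    ∑ z ∈ A, (B.filter (fun w => z ∈ out w)).card ≤ D * B.card := by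
  have h1 : ∑ z ∈ A, (B.filter (fun w => z ∈ out w)).card
      = ∑ w ∈ B, (A.filter (fun z => z ∈ out w)).card := by
    simp only [Finset.card_filter]
    exact Finset.sum_comm
  rw [h1, mul_comm]
  refine (Finset.sum_le_card_nsmul _ _ D ?_)
  intro w _
  refine le_trans (Finset.card_le_card ?_) (hD w)
  intro z hz
  exact (Finset.mem_filter.1 hz).2

/-- few vertices contain almost the whole neighbourhood of a vertex -/
theorem card_contain (G : SimpleGraph V) (out : V → Finset V) (E : ℕ) (hE : 1 ≤ E)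
    (hD : ∀ v, (out v).card ≤ E) (hout : ∀ x y, G.Adj x y → y ∈ out x ∨ x ∈ out y)
    (g : ℕ) (z : V) (A : Finset V) (hA : A ⊆ nb G z) (hA' : 2 * E * g + 2 * E + 1 ≤ A.card)
    (T : Finset V) (hT : ∀ v ∈ T, v ≠ z ∧ (A \ nb G v).card < g) : T.card < 2 * E := by
  by_contra hcon
  push Not at hcon
  obtain ⟨T', hT', hcT⟩ := Finset.exists_subset_card_eq hcon
  set A' : Finset V := A.filter (fun a => ∀ v ∈ T', G.Adj v a) with hA'def
  have h1 : (A \ A').card ≤ 2 * E * g := by
    have hsub : A \ A' ⊆ T'.biUnion (fun v => A \ nb G v) := by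
      intro a ha
      rw [Finset.mem_sdiff, hA'def, Finset.mem_filter, not_and] at ha
      have h2 := ha.2 ha.1
      push Not at h2
      obtain ⟨v, hv, hva⟩ := h2
      rw [Finset.mem_biUnion]
      exact ⟨v, hv, Finset.mem_sdiff.2 ⟨ha.1, fun h => hva (mem_nb.1 h)⟩⟩
    refine (Finset.card_le_card hsub).trans (Finset.card_biUnion_le.trans ?_)
    rw [← hcT, ← smul_eq_mul]
    exact Finset.sum_le_card_nsmul _ _ g (fun v hv => (hT v (hT' hv)).2.le)
  have h2 : 2 * E + 1 ≤ A'.card := by
    have h3 : A'.card + (A \ A').card = A.card := by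
      have := Finset.card_sdiff_add_card_eq_card (Finset.filter_subset (fun a => ∀ v ∈ T', G.Adj v a) A)
      rw [← hA'def] at this
      omega
    omega
  have hzT : z ∉ T' := fun h => (hT z (hT' h)).1 rfl
  set Q : Finset V := insert z T' with hQ
  have hQc : Q.card = 2 * E + 1 := by rw [hQ, Finset.card_insert_of_notMem hzT, hcT]
  have hadj : ∀ q ∈ Q, ∀ a ∈ A', G.Adj q a := by
    intro q hq a ha
    rw [hA'def, Finset.mem_filter] at ha
    rcases Finset.mem_insert.1 hq with rfl | hq
    · exact mem_nb.1 (hA ha.1)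
    · exact ha.2 q hq
  have h4 : ∀ q ∈ Q, A'.card ≤ (out q).card + (A'.filter (fun a => q ∈ out a)).card := by
    intro q hq
    have hsub : A' ⊆ out q ∪ A'.filter (fun a => q ∈ out a) := by
      intro a ha
      rcases hout q a (hadj q hq a ha) with h | h
      · exact Finset.mem_union_left _ h
      · exact Finset.mem_union_right _ (Finset.mem_filter.2 ⟨ha, h⟩)
    exact (Finset.card_le_card hsub).trans (Finset.card_union_le _ _)
  have h5 := Finset.sum_le_sum h4
  rw [Finset.sum_add_distrib, Finset.sum_const, smul_eq_mul, hQc] at h5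
  have h6 : ∑ q ∈ Q, (out q).card ≤ (2 * E + 1) * E := by
    rw [← hQc, ← smul_eq_mul]
    exact Finset.sum_le_card_nsmul _ _ E (fun q _ => hD q)
  have h7 := sum_filter_outP out E hD Q A'
  nlinarith

/-- protected sets -/
theorem exists_protectedD (G : SimpleGraph V) (out : V → Finset V) (E : ℕ) (hE : 1 ≤ E)
    (hD : ∀ v, (out v).card ≤ E) (hout : ∀ x y, G.Adj x y → y ∈ out x ∨ x ∈ out y)
    (c m : ℕ) (hm : 2 * E * (c + 4) + 2 * E + 1 ≤ m) (z : V) (hz : m ≤ dg G z) :
    ∃ P : Finset V, P ⊆ nb G z ∧ P.card ≤ m + 2 * E * (c + 4) ∧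
      ∀ v, v ≠ z → c + 4 ≤ (P \ nb G v).card ∨ (nb G z \ nb G v).card < c + 4 := by
  obtain ⟨P0, hP0, hc0⟩ := Finset.exists_subset_card_eq (s := nb G z) (n := m) hz
  set T : Finset V := Finset.univ.filter (fun v => v ≠ z ∧ (P0 \ nb G v).card < c + 4) with hT
  have hTc : T.card < 2 * E := card_contain G out E hE hD hout (c + 4) z P0 hP0 (by omega) T
    (fun v hv => by
      rw [hT, Finset.mem_filter] at hv
      exact hv.2)
  have hq : ∀ v : V, ∃ Q : Finset V, Q ⊆ nb G z \ nb G v ∧ Q.card ≤ c + 4 ∧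
      (c + 4 ≤ (nb G z \ nb G v).card → Q.card = c + 4) := by
    intro v
    by_cases h : c + 4 ≤ (nb G z \ nb G v).card
    · obtain ⟨Q, hQ, hcQ⟩ := Finset.exists_subset_card_eq h
      exact ⟨Q, hQ, hcQ.le, fun _ => hcQ⟩
    · exact ⟨∅, Finset.empty_subset _, by simp, fun h' => absurd h' h⟩
  choose Q hQ1 hQ2 hQ3 using hq
  refine ⟨P0 ∪ T.biUnion Q, ?_, ?_, ?_⟩
  · refine Finset.union_subset hP0 (Finset.biUnion_subset.2 fun v _ => ?_)
    exact (hQ1 v).trans Finset.sdiff_subset
  · have h1 := Finset.card_union_le P0 (T.biUnion Q)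
    have h2 : (T.biUnion Q).card ≤ T.card * (c + 4) := by
      refine Finset.card_biUnion_le.trans ?_
      rw [← smul_eq_mul]
      exact Finset.sum_le_card_nsmul _ _ (c + 4) (fun v _ => hQ2 v)
    have h3 : T.card * (c + 4) ≤ 2 * E * (c + 4) := Nat.mul_le_mul_right _ hTc.le
    omega
  · intro v hv
    by_cases hvT : v ∈ T
    · by_cases h : c + 4 ≤ (nb G z \ nb G v).card
      · left
        have hsub : Q v ⊆ (P0 ∪ T.biUnion Q) \ nb G v := by
          intro x hx
          refine Finset.mem_sdiff.2 ⟨Finset.mem_union_right _ ?_, (Finset.mem_sdiff.1 (hQ1 v hx)).2⟩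
          exact Finset.mem_biUnion.2 ⟨v, hvT, hx⟩
        have := Finset.card_le_card hsub
        rw [hQ3 v h] at this
        exact this
      · right
        omega
    · left
      have h1 : c + 4 ≤ (P0 \ nb G v).card := by
        by_contra hcon
        apply hvT
        rw [hT, Finset.mem_filter]
        exact ⟨Finset.mem_univ _, hv, by omega⟩
      have hsub : P0 \ nb G v ⊆ (P0 ∪ T.biUnion Q) \ nb G v :=
        Finset.sdiff_subset_sdiff Finset.subset_union_left (Finset.Subset.refl _)
      exact h1.trans (Finset.card_le_card hsub)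

end Pool.Agent.BD48
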