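import Mathlib
import Pool.Agent.BD48.Main

/-!
The reduction of the general augmentation problem to graphs of maximum degree about one half of the
number of vertices.
-/

namespace Pool.Agent.BD48

open Finset

attribute [local instance] Classical.propDecidable

variable {V : Type*} [Fintype V]

/-- The graph `G₀` together with two cliques `A` and `D` on `a` vertices each, all edges between `V` and
`D`, no edges between `V` and `A`, no edges between `A` and `D`. -/
def big (G₀ : SimpleGraph V) (a : ℕ) : SimpleGraph (V ⊕ (Fin a ⊕ Fin a)) where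
  Adj x y := x ≠ y ∧
    match x, y with
    | Sum.inl u, Sum.inl v => G₀.Adj u v
    | Sum.inl _, Sum.inr (Sum.inl _) => False
    | Sum.inr (Sum.inl _), Sum.inl _ => False
    | Sum.inl _, Sum.inr (Sum.inr _) => True
    | Sum.inr (Sum.inr _), Sum.inl _ => True
    | Sum.inr (Sum.inl _), Sum.inr (Sum.inl _) => True
    | Sum.inr (Sum.inr _), Sum.inr (Sum.inr _) => True
    | Sum.inr (Sum.inl _), Sum.inr (Sum.inr _) => False
    | Sum.inr (Sum.inr _), Sum.inr (Sum.inl _) => False
  symm := ⟨by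
    rintro (u | x | y) (u' | x' | y') h <;> simp_all [SimpleGraph.adj_comm, eq_comm]⟩
  loopless := ⟨fun x h => h.1 rfl⟩

/-! ### counting -/

/-- the indicator of adjacency -/
noncomputable def ad {W : Type*} (F : SimpleGraph W) (x y : W) : ℕ := if F.Adj x y then 1 else 0

lemma ad_comm {W : Type*} (F : SimpleGraph W) (x y : W) : ad F x y = ad F y x := by
  unfold ad
  simp only [SimpleGraph.adj_comm]

lemma ad_le {W : Type*} (F : SimpleGraph W) (x y : W) : ad F x y ≤ 1 := by
  unfold ad
  split_ifs <;> simp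

lemma ad_of_adj {W : Type*} {F : SimpleGraph W} {x y : W} (h : F.Adj x y) : ad F x y = 1 :=
  if_pos h

lemma ad_of_not {W : Type*} {F : SimpleGraph W} {x y : W} (h : ¬ F.Adj x y) : ad F x y = 0 :=
  if_neg h

lemma dg_eq_sum {W : Type*} [Fintype W] (F : SimpleGraph W) (x : W) :
    dg F x = ∑ y, ad F x y := by
  unfold dg nb ad
  rw [Finset.card_filter]

lemma sum_dg {W : Type*} [Fintype W] (H : SimpleGraph W) : ∑ v, dg H v = 2 * H.edgeSet.ncard := by
  have h : ∀ v, dg H v = H.degree v := by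
    intro v
    rw [← SimpleGraph.card_neighborFinset_eq_degree]
    refine dg_eq_card _ _ _ ?_
    intro y
    simp
  rw [Finset.sum_congr rfl (fun v _ => h v), SimpleGraph.sum_degrees_eq_twice_card_edges,
    ← SimpleGraph.coe_edgeFinset, Set.ncard_coe_finset]

variable {a : ℕ}

lemma dg_sum (F : SimpleGraph (V ⊕ (Fin a ⊕ Fin a))) (x : V ⊕ (Fin a ⊕ Fin a)) :
    dg F x = (∑ v, ad F x (Sum.inl v)) + ((∑ i, ad F x (Sum.inr (Sum.inl i))) +
      ∑ j, ad F x (Sum.inr (Sum.inr j))) := by
  rw [dg_eq_sum, Fintype.sum_sum_type, Fintype.sum_sum_type]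

lemma total (F : SimpleGraph (V ⊕ (Fin a ⊕ Fin a))) :
    ∑ x, dg F x = (∑ u, ∑ v, ad F (Sum.inl u) (Sum.inl v))
      + 2 * (∑ i, ∑ u, ad F (Sum.inr (Sum.inl i)) (Sum.inl u))
      + 2 * (∑ j, ∑ u, ad F (Sum.inr (Sum.inr j)) (Sum.inl u))
      + (∑ i, ∑ i', ad F (Sum.inr (Sum.inl i)) (Sum.inr (Sum.inl i')))
      + 2 * (∑ i, ∑ j, ad F (Sum.inr (Sum.inl i)) (Sum.inr (Sum.inr j)))
      + ∑ j, ∑ j', ad F (Sum.inr (Sum.inr j)) (Sum.inr (Sum.inr j')) := by
  rw [Fintype.sum_sum_type, Fintype.sum_sum_type]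
  simp only [dg_sum, Finset.sum_add_distrib]
  have h1 : ∑ u : V, ∑ i : Fin a, ad F (Sum.inl u) (Sum.inr (Sum.inl i))
      = ∑ i : Fin a, ∑ u : V, ad F (Sum.inr (Sum.inl i)) (Sum.inl u) := by
    rw [Finset.sum_comm]
    exact Finset.sum_congr rfl fun i _ => Finset.sum_congr rfl fun u _ => ad_comm _ _ _
  have h2 : ∑ u : V, ∑ i : Fin a, ad F (Sum.inl u) (Sum.inr (Sum.inr i))
      = ∑ i : Fin a, ∑ u : V, ad F (Sum.inr (Sum.inr i)) (Sum.inl u) := by
    rw [Finset.sum_comm]
    exact Finset.sum_congr rfl fun i _ => Finset.sum_congr rfl fun u _ => ad_comm _ _ _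
  have h3 : ∑ j : Fin a, ∑ i : Fin a, ad F (Sum.inr (Sum.inr j)) (Sum.inr (Sum.inl i))
      = ∑ i : Fin a, ∑ j : Fin a, ad F (Sum.inr (Sum.inl i)) (Sum.inr (Sum.inr j)) := by
    rw [Finset.sum_comm]
    exact Finset.sum_congr rfl fun i _ => Finset.sum_congr rfl fun u _ => ad_comm _ _ _
  rw [h1, h2, h3]
  ring

/-- the number of edges inside `V` -/
lemma inner (F : SimpleGraph (V ⊕ (Fin a ⊕ Fin a))) (F₀ : SimpleGraph V)
    (h : ∀ u v, F₀.Adj u v ↔ F.Adj (Sum.inl u) (Sum.inl v)) :
    ∑ u, ∑ v, ad F (Sum.inl u) (Sum.inl v) = 2 * F₀.edgeSet.ncard := by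
  rw [← sum_dg]
  refine Finset.sum_congr rfl fun u _ => ?_
  rw [dg_eq_sum]
  refine Finset.sum_congr rfl fun v _ => ?_
  unfold ad
  simp only [h]

/-! ### degrees in `big` -/

lemma sum_ad_lt {W U : Type*} [Fintype U] (F : SimpleGraph W) (x : W) (f : U → W) (u : U)
    (h : f u = x) : (∑ v, ad F x (f v)) + 1 ≤ Fintype.card U := by
  have h1 : ∑ v, ad F x (f v) ≤ ∑ v : U, (if v = u then 0 else 1) := by
    refine Finset.sum_le_sum fun v _ => ?_
    by_cases hv : v = u
    · rw [if_pos hv, hv, h, ad_of_not (F.loopless.irrefl x)]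
    · rw [if_neg hv]
      exact ad_le _ _ _
  have h2 : (∑ v : U, (if v = u then 0 else 1)) + 1 = Fintype.card U := by
    have h3 : ∑ v : U, ((if v = u then 0 else 1) + (if v = u then 1 else 0)) = Fintype.card U := by
      rw [Finset.sum_congr rfl (g := fun _ => 1) (fun v _ => by by_cases hv : v = u <;> simp [hv]),
        Finset.sum_const, smul_eq_mul, mul_one, Finset.card_univ]
    rw [Finset.sum_add_distrib] at h3
    rw [Finset.sum_ite_eq' Finset.univ u (fun _ => 1)] at h3
    simpa using h3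
  omega

lemma sum_ad_le {W U : Type*} [Fintype U] (F : SimpleGraph W) (x : W) (f : U → W) :
    (∑ v, ad F x (f v)) ≤ Fintype.card U := by
  refine le_trans (Finset.sum_le_sum fun v _ => ad_le F x (f v)) ?_
  rw [Finset.sum_const, smul_eq_mul, mul_one, Finset.card_univ]

lemma dg_bigA (G₀ : SimpleGraph V) (i : Fin a) :
    dg (big G₀ a) (Sum.inr (Sum.inl i)) + 1 ≤ a := by
  rw [dg_sum]
  have h1 : ∑ v, ad (big G₀ a) (Sum.inr (Sum.inl i)) (Sum.inl v) = 0 :=
    Finset.sum_eq_zero fun v _ => ad_of_not (fun h => h.2)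
  have h2 : ∑ v, ad (big G₀ a) (Sum.inr (Sum.inl i)) (Sum.inr (Sum.inr v)) = 0 :=
    Finset.sum_eq_zero fun v _ => ad_of_not (fun h => h.2)
  have h3 := sum_ad_lt (big G₀ a) (Sum.inr (Sum.inl i)) (fun v : Fin a => Sum.inr (Sum.inl v)) i rfl
  rw [Fintype.card_fin] at h3
  rw [h1, h2]
  omega

/-- degrees -/
theorem big_degree (G₀ : SimpleGraph V) (a : ℕ) (ha : 1 ≤ a) (v : V ⊕ (Fin a ⊕ Fin a)) :
    dg (big G₀ a) v + 1 ≤ a + Fintype.card V := by
  rcases v with v | i | j
  · rw [dg_sum]
    have h1 : ∑ i, ad (big G₀ a) (Sum.inl v) (Sum.inr (Sum.inl i)) = 0 :=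
      Finset.sum_eq_zero fun v _ => ad_of_not (fun h => h.2)
    have h2 := sum_ad_lt (big G₀ a) (Sum.inl v) (fun v : V => Sum.inl v) v rfl
    have h3 := sum_ad_le (big G₀ a) (Sum.inl v) (fun v : Fin a => Sum.inr (Sum.inr v))
    rw [Fintype.card_fin] at h3
    omega
  · have := dg_bigA G₀ i
    omega
  · rw [dg_sum]
    have h1 : ∑ i, ad (big G₀ a) (Sum.inr (Sum.inr j)) (Sum.inr (Sum.inl i)) = 0 :=
      Finset.sum_eq_zero fun v _ => ad_of_not (fun h => h.2)
    have h2 := sum_ad_lt (big G₀ a) (Sum.inr (Sum.inr j)) (fun v : Fin a => Sum.inr (Sum.inr v)) j rfl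
    have h3 := sum_ad_le (big G₀ a) (Sum.inr (Sum.inr j)) (fun v : V => Sum.inl v)
    rw [Fintype.card_fin] at h2
    omega

/-! ### the circulant -/

lemma card_val_lt (t : ℕ) (ht : t ≤ a) : (univ.filter (fun s : Fin a => s.val < t)).card = t := by
  have h : (univ.filter (fun s : Fin a => s.val < t)).card = (Finset.range t).card := by
    refine Finset.card_bij (fun s _ => s.val) ?_ ?_ ?_
    · intro s hs
      simpa using hs
    · intro s _ s' _ h
      exact Fin.ext h
    · intro b hb
      rw [Finset.mem_range] at hb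
      exact ⟨⟨b, by omega⟩, by simpa using hb, rfl⟩
  rw [h, Finset.card_range]

lemma card_col [NeZero a] (t : ℕ) (ht : t ≤ a) (i : Fin a) :
    (univ.filter (fun j : Fin a => (j - i).val < t)).card = t := by
  conv_rhs => rw [← card_val_lt t ht]
  refine Finset.card_equiv (Equiv.subRight i) ?_
  intro j
  simp

lemma card_row [NeZero a] (t : ℕ) (ht : t ≤ a) (j : Fin a) :
    (univ.filter (fun i : Fin a => (j - i).val < t)).card = t := by
  conv_rhs => rw [← card_val_lt t ht]
  refine Finset.card_equiv (Equiv.subLeft j) ?_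
  intro i
  simp

lemma biclique [NeZero a] (t : ℕ) (ha : 2 * t ≤ a) (P Q : Finset (Fin a)) (hP : P.Nonempty)
    (hQ : Q.Nonempty) (h : ∀ p ∈ P, ∀ q ∈ Q, (q - p).val < t) : P.card + Q.card ≤ t + 1 := by
  obtain ⟨q₀, hq₀⟩ := hQ
  obtain ⟨p₀, hp₀, hmax⟩ := Finset.exists_max_image P (fun p => (q₀ - p).val) hP
  obtain ⟨p₁, hp₁, hmin⟩ := Finset.exists_min_image P (fun p => (q₀ - p).val) hP
  have hle : (q₀ - p₁).val ≤ (q₀ - p₀).val := hmax p₁ hp₁
  have h0 := h p₀ hp₀ q₀ hq₀
  have hPc : P.card ≤ (Finset.Icc (q₀ - p₁).val (q₀ - p₀).val).card := by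
    refine Finset.card_le_card_of_injOn (fun p => (q₀ - p).val) ?_ ?_
    · intro p hp
      rw [Finset.coe_Icc]
      exact ⟨hmin p hp, hmax p hp⟩
    · intro p _ p' _ hpp
      exact sub_right_injective (Fin.ext hpp)
  rw [Nat.card_Icc] at hPc
  have hQc : Q.card ≤ (Finset.range (t - ((q₀ - p₀).val - (q₀ - p₁).val))).card := by
    refine Finset.card_le_card_of_injOn (fun q => (q - p₁).val) ?_ ?_
    · intro q hq
      rw [Finset.mem_coe, Finset.mem_range]
      have h1 := h p₁ hp₁ q hq
      have h2 := h p₀ hp₀ q hq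
      have e : q - p₀ = (q - p₁) + ((q₀ - p₀) - (q₀ - p₁)) := by abel
      have e1 : ((q₀ - p₀) - (q₀ - p₁)).val = (q₀ - p₀).val - (q₀ - p₁).val :=
        Fin.sub_val_of_le hle
      have e2 : (q - p₀).val = (q - p₁).val + ((q₀ - p₀).val - (q₀ - p₁).val) := by
        rw [e, Fin.val_add_eq_of_add_lt, e1]
        rw [e1]
        omega
      show (q - p₁).val < _
      omega
    · intro q _ q' _ hqq
      exact sub_left_injective (Fin.ext hqq)
  rw [Finset.card_range] at hQc
  omega

/-! ### from the big graph to `G₀` -/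

lemma le_dg_of_sepFree {W : Type*} [Fintype W] (H : SimpleGraph W) (k : ℕ)
    (hk : k + 1 ≤ Fintype.card W) (h : SepFree H k) (x : W) : k ≤ dg H x := by
  by_contra hcon
  push Not at hcon
  let D : Finset W := univ.filter (fun y => y ≠ x ∧ ¬ H.Adj x y)
  have mD : ∀ y, y ∈ D ↔ y ≠ x ∧ ¬ H.Adj x y := by
    intro y
    simp [D]
  have hD : D.Nonempty := by
    by_contra hne
    rw [Finset.not_nonempty_iff_eq_empty] at hne
    have h1 : (univ : Finset W) ⊆ insert x (nb H x) := by
      intro y _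
      rw [mem_insert, mem_nb]
      by_contra hy
      push Not at hy
      have hy' : y ∈ D := (mD y).mpr hy
      rw [hne] at hy'
      exact absurd hy' (Finset.notMem_empty y)
    have h2 := card_le_card h1
    have h3 := card_insert_le x (nb H x)
    rw [card_univ] at h2
    unfold dg at hcon
    omega
  refine h {x} D (nb H x) ?_ ?_ ?_ ?_ (singleton_nonempty x) hD hcon ?_
  · intro y
    rw [mem_singleton, mD, mem_nb]
    by_cases h1 : y = x
    · exact Or.inl h1
    · by_cases h2 : H.Adj x y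
      · exact Or.inr (Or.inr h2)
      · exact Or.inr (Or.inl ⟨h1, h2⟩)
  · intro y hy hy'
    exact ((mD y).mp hy').1 (mem_singleton.mp hy)
  · intro y hy hy'
    rw [mem_singleton.mp hy, mem_nb] at hy'
    exact H.loopless.irrefl x hy'
  · intro y hy hy'
    exact ((mD y).mp hy).2 (mem_nb.mp hy')
  · intro y hy z hz
    rw [mem_singleton.mp hy]
    exact ((mD z).mp hz).2

lemma dg_sup_le {W : Type*} [Fintype W] (G F : SimpleGraph W) (x : W) :
    dg (G ⊔ F) x ≤ dg G x + dg F x := by
  unfold dg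
  refine le_trans (card_le_card (t := nb G x ∪ nb F x) ?_) (card_union_le _ _)
  intro y hy
  rw [mem_nb, SimpleGraph.sup_adj] at hy
  rw [mem_union, mem_nb, mem_nb]
  exact hy

/-- from the big graph to `G₀` -/
theorem red_lower (G₀ : SimpleGraph V) (k₀ a : ℕ) (hk : k₀ + 1 ≤ Fintype.card V)
    (F : SimpleGraph (V ⊕ (Fin a ⊕ Fin a))) (hF : F ≤ (big G₀ a)ᶜ)
    (h : SepFree (big G₀ a ⊔ F) (k₀ + 2 * a)) :
    ∃ F₀ : SimpleGraph V, F₀ ≤ G₀ᶜ ∧ SepFree (G₀ ⊔ F₀) k₀ ∧
      F₀.edgeSet.ncard + a * (a + k₀ + 1) ≤ F.edgeSet.ncard := by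
  refine ⟨F.comap Sum.inl, ?_, ?_, ?_⟩
  · intro u v huv
    rw [SimpleGraph.comap_adj] at huv
    have h1 := hF huv
    rw [SimpleGraph.compl_adj] at h1 ⊢
    exact ⟨fun h2 => h1.1 (by rw [h2]), fun h2 => h1.2 ⟨h1.1, h2⟩⟩
  · intro C D X hcov hCD hCX hDX hC hD hX hno
    refine h (C.map ⟨Sum.inl, Sum.inl_injective⟩) (D.map ⟨Sum.inl, Sum.inl_injective⟩)
      (X.disjSum (univ : Finset (Fin a ⊕ Fin a))) ?_ ?_ ?_ ?_ (hC.map) (hD.map) ?_ ?_
    · rintro (v | z)
      · rcases hcov v with hv | hv | hv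
        · exact Or.inl (mem_map.mpr ⟨v, hv, rfl⟩)
        · exact Or.inr (Or.inl (mem_map.mpr ⟨v, hv, rfl⟩))
        · exact Or.inr (Or.inr (inl_mem_disjSum.mpr hv))
      · exact Or.inr (Or.inr (inr_mem_disjSum.mpr (mem_univ z)))
    · rintro x hx hx'
      obtain ⟨u, hu, rfl⟩ := mem_map.mp hx
      obtain ⟨v, hv, hvu⟩ := mem_map.mp hx'
      have : v = u := Sum.inl_injective hvu
      exact hCD u hu (this ▸ hv)
    · rintro x hx hx'
      obtain ⟨u, hu, rfl⟩ := mem_map.mp hx
      exact hCX u hu (inl_mem_disjSum.mp hx')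
    · rintro x hx hx'
      obtain ⟨u, hu, rfl⟩ := mem_map.mp hx
      exact hDX u hu (inl_mem_disjSum.mp hx')
    · rw [card_disjSum, card_univ, Fintype.card_sum, Fintype.card_fin]
      omega
    · rintro x hx y hy hadj
      obtain ⟨u, hu, rfl⟩ := mem_map.mp hx
      obtain ⟨v, hv, rfl⟩ := mem_map.mp hy
      refine hno u hu v hv ?_
      rw [SimpleGraph.sup_adj] at hadj ⊢
      rcases hadj with h1 | h1
      · exact Or.inl h1.2
      · exact Or.inr h1
  · have hcard : k₀ + 2 * a + 1 ≤ Fintype.card (V ⊕ (Fin a ⊕ Fin a)) := by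
      rw [Fintype.card_sum, Fintype.card_sum, Fintype.card_fin]
      omega
    have hdeg : ∀ i : Fin a, a + k₀ + 1 ≤ dg F (Sum.inr (Sum.inl i)) := by
      intro i
      have h1 := le_dg_of_sepFree _ _ hcard h (Sum.inr (Sum.inl i))
      have h2 := dg_sup_le (big G₀ a) F (Sum.inr (Sum.inl i))
      have h3 := dg_bigA G₀ i
      omega
    have hAA : ∑ i : Fin a, ∑ i' : Fin a, ad F (Sum.inr (Sum.inl i)) (Sum.inr (Sum.inl i')) = 0 := by
      refine Finset.sum_eq_zero fun i _ => Finset.sum_eq_zero fun i' _ => ad_of_not fun hadj => ?_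
      have h1 := hF hadj
      rw [SimpleGraph.compl_adj] at h1
      exact h1.2 ⟨h1.1, trivial⟩
    have hsum : a * (a + k₀ + 1) ≤ ∑ i : Fin a, dg F (Sum.inr (Sum.inl i)) := by
      have h1 : ∑ _i : Fin a, (a + k₀ + 1) ≤ ∑ i : Fin a, dg F (Sum.inr (Sum.inl i)) :=
        Finset.sum_le_sum fun i _ => hdeg i
      rwa [Finset.sum_const, card_univ, Fintype.card_fin, smul_eq_mul] at h1
    simp only [dg_sum, Finset.sum_add_distrib] at hsum
    rw [hAA] at hsum
    have h1 := total F
    rw [sum_dg, hAA, inner F (F.comap Sum.inl) (fun u v => SimpleGraph.comap_adj)] at h1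
    omega

/-! ### from `G₀` to the big graph -/

/-- the augmenting edges of the big graph -/
def cir (F₀ : SimpleGraph V) (a t : ℕ) [NeZero a] : SimpleGraph (V ⊕ (Fin a ⊕ Fin a)) where
  Adj x y := match x, y with
    | Sum.inl u, Sum.inl v => F₀.Adj u v
    | Sum.inl _, Sum.inr (Sum.inl _) => True
    | Sum.inr (Sum.inl _), Sum.inl _ => True
    | Sum.inl _, Sum.inr (Sum.inr _) => False
    | Sum.inr (Sum.inr _), Sum.inl _ => False
    | Sum.inr (Sum.inl _), Sum.inr (Sum.inl _) => False
    | Sum.inr (Sum.inr _), Sum.inr (Sum.inr _) => False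
    | Sum.inr (Sum.inl i), Sum.inr (Sum.inr j) => ¬ (j - i).val < t
    | Sum.inr (Sum.inr j), Sum.inr (Sum.inl i) => ¬ (j - i).val < t
  symm := ⟨by
    rintro (u | x | y) (u' | x' | y') h
    · exact SimpleGraph.Adj.symm (G := F₀) h
    all_goals first | exact h | exact trivial⟩
  loopless := ⟨by
    rintro (u | x | y) h
    · exact F₀.loopless.irrefl u h
    · exact h
    · exact h⟩

/-- from `G₀` to the big graph -/
theorem red_upper (G₀ F₀ : SimpleGraph V) (k₀ a : ℕ) (hk : k₀ + 1 ≤ Fintype.card V)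
    (ha : 2 * Fintype.card V ≤ a) (hF₀ : F₀ ≤ G₀ᶜ) (h : SepFree (G₀ ⊔ F₀) k₀) :
    ∃ F : SimpleGraph (V ⊕ (Fin a ⊕ Fin a)), F ≤ (big G₀ a)ᶜ ∧
      SepFree (big G₀ a ⊔ F) (k₀ + 2 * a) ∧
      F.edgeSet.ncard = F₀.edgeSet.ncard + a * (a + k₀ + 1) := by
  have : NeZero a := ⟨by omega⟩
  obtain ⟨t, ht⟩ : ∃ t, Fintype.card V = t + 1 + k₀ := ⟨Fintype.card V - 1 - k₀, by omega⟩
  refine ⟨cir F₀ a t, ?_, ?_, ?_⟩
  · rintro (u | x | y) (u' | x' | y') hadj
    all_goals rw [SimpleGraph.compl_adj]
    · have h1 : F₀.Adj u u' := hadj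
      refine ⟨fun h2 => h1.ne (Sum.inl_injective h2), fun h2 => ?_⟩
      have h3 := hF₀ h1
      rw [SimpleGraph.compl_adj] at h3
      exact h3.2 h2.2
    · exact ⟨by simp, fun h2 => h2.2⟩
    · exact absurd hadj (fun h => h)
    · exact ⟨by simp, fun h2 => h2.2⟩
    · exact absurd hadj (fun h => h)
    · exact ⟨by simp, fun h2 => h2.2⟩
    · exact absurd hadj (fun h => h)
    · exact ⟨by simp, fun h2 => h2.2⟩
    · exact absurd hadj (fun h => h)
  · -- adjacencies
    have hVA : ∀ (v : V) (i : Fin a),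
        (big G₀ a ⊔ cir F₀ a t).Adj (Sum.inl v) (Sum.inr (Sum.inl i)) := fun v i => Or.inr trivial
    have hVD : ∀ (v : V) (j : Fin a),
        (big G₀ a ⊔ cir F₀ a t).Adj (Sum.inl v) (Sum.inr (Sum.inr j)) :=
      fun v j => Or.inl ⟨by simp, trivial⟩
    have hAA : ∀ i i' : Fin a, i ≠ i' →
        (big G₀ a ⊔ cir F₀ a t).Adj (Sum.inr (Sum.inl i)) (Sum.inr (Sum.inl i')) :=
      fun i i' hne => Or.inl ⟨fun h2 => hne (Sum.inl_injective (Sum.inr_injective h2)), trivial⟩
    have hDD : ∀ i i' : Fin a, i ≠ i' →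
        (big G₀ a ⊔ cir F₀ a t).Adj (Sum.inr (Sum.inr i)) (Sum.inr (Sum.inr i')) :=
      fun i i' hne => Or.inl ⟨fun h2 => hne (Sum.inr_injective (Sum.inr_injective h2)), trivial⟩
    have hAD : ∀ i j : Fin a, ¬ (j - i).val < t →
        (big G₀ a ⊔ cir F₀ a t).Adj (Sum.inr (Sum.inl i)) (Sum.inr (Sum.inr j)) :=
      fun i j hne => Or.inr hne
    have hVz : ∀ (v : V) (z : Fin a ⊕ Fin a),
        (big G₀ a ⊔ cir F₀ a t).Adj (Sum.inl v) (Sum.inr z) := by
      rintro v (i | j)
      · exact hVA v i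
      · exact hVD v j
    intro C D X hcov hCD hCX hDX hC hD hX hno
    by_cases hcase : ∃ v, Sum.inl v ∈ C
    · -- both sides in `V`
      obtain ⟨v, hv⟩ := hcase
      have hDV : ∀ z, Sum.inr z ∉ D := fun z hz => hno _ hv _ hz (hVz v z)
      obtain ⟨w, hw⟩ : ∃ w, Sum.inl w ∈ D := by
        obtain ⟨x, hx⟩ := hD
        rcases x with w | z
        · exact ⟨w, hx⟩
        · exact absurd hx (hDV z)
      have hCV : ∀ z, Sum.inr z ∉ C := fun z hz => hno _ hz _ hw (hVz w z).symm
      have hXz : ∀ z, Sum.inr z ∈ X := by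
        intro z
        rcases hcov (Sum.inr z) with h1 | h1 | h1
        · exact absurd h1 (hCV z)
        · exact absurd h1 (hDV z)
        · exact h1
      refine h (univ.filter fun v => Sum.inl v ∈ C) (univ.filter fun v => Sum.inl v ∈ D)
        (univ.filter fun v => Sum.inl v ∈ X) ?_ ?_ ?_ ?_ ⟨v, by simpa using hv⟩
        ⟨w, by simpa using hw⟩ ?_ ?_
      · intro x
        simpa using hcov (Sum.inl x)
      · intro x
        simpa using hCD (Sum.inl x)
      · intro x
        simpa using hCX (Sum.inl x)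
      · intro x
        simpa using hDX (Sum.inl x)
      · have h1 : (univ.filter fun v : V => Sum.inl v ∈ X).disjSum
            (univ : Finset (Fin a ⊕ Fin a)) ⊆ X := by
          intro x hx
          rcases x with v | z
          · rw [inl_mem_disjSum] at hx
            simpa using hx
          · exact hXz z
        have h2 := card_le_card h1
        rw [card_disjSum, card_univ, Fintype.card_sum, Fintype.card_fin] at h2
        omega
      · intro x hx y hy hadj
        refine hno (Sum.inl x) (by simpa using hx) (Sum.inl y) (by simpa using hy) ?_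
        rw [SimpleGraph.sup_adj] at hadj ⊢
        rcases hadj with h1 | h1
        · exact Or.inl ⟨fun h2 => h1.ne (Sum.inl_injective h2), h1⟩
        · exact Or.inr h1
    · -- both sides outside `V`
      push Not at hcase
      have hDV : ∀ w, Sum.inl w ∉ D := by
        intro w hw
        obtain ⟨x, hx⟩ := hC
        rcases x with v | z
        · exact hcase v hx
        · exact hno _ hx _ hw (hVz w z).symm
      -- cardinalities
      have hsum : Fintype.card V + 2 * a ≤ C.card + D.card + X.card := by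
        have h1 : (univ : Finset (V ⊕ (Fin a ⊕ Fin a))) ⊆ C ∪ D ∪ X := by
          intro x _
          rw [mem_union, mem_union]
          rcases hcov x with h1 | h1 | h1
          · exact Or.inl (Or.inl h1)
          · exact Or.inl (Or.inr h1)
          · exact Or.inr h1
        have h2 := card_le_card h1
        have h3 := card_union_le (C ∪ D) X
        have h4 := card_union_le C D
        rw [card_univ, Fintype.card_sum, Fintype.card_sum, Fintype.card_fin] at h2
        omega
      -- the four parts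
      have hkey : ∀ S T : Finset (V ⊕ (Fin a ⊕ Fin a)), S.Nonempty → T.Nonempty →
          (∀ v, Sum.inl v ∉ S) → (∀ v, Sum.inl v ∉ T) → (∀ j, Sum.inr (Sum.inr j) ∉ S) →
          (∀ i, Sum.inr (Sum.inl i) ∉ T) →
          (∀ x ∈ S, ∀ y ∈ T, ¬ (big G₀ a ⊔ cir F₀ a t).Adj x y) → S.card + T.card ≤ t + 1 := by
        intro S T hS hT hSV hTV hSD hTA hST
        let P : Finset (Fin a) := univ.filter fun i => Sum.inr (Sum.inl i) ∈ S
        let Q : Finset (Fin a) := univ.filter fun j => Sum.inr (Sum.inr j) ∈ T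
        have hP : S = P.map ⟨fun i => Sum.inr (Sum.inl i),
            Sum.inr_injective.comp Sum.inl_injective⟩ := by
          ext x
          rw [mem_map]
          constructor
          · intro hx
            rcases x with v | i | j
            · exact absurd hx (hSV v)
            · exact ⟨i, by simpa [P] using hx, rfl⟩
            · exact absurd hx (hSD j)
          · rintro ⟨i, hi, rfl⟩
            simpa [P] using hi
        have hQ : T = Q.map ⟨fun i => Sum.inr (Sum.inr i),
            Sum.inr_injective.comp Sum.inr_injective⟩ := by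
          ext x
          rw [mem_map]
          constructor
          · intro hx
            rcases x with v | i | j
            · exact absurd hx (hTV v)
            · exact absurd hx (hTA i)
            · exact ⟨j, by simpa [Q] using hx, rfl⟩
          · rintro ⟨i, hi, rfl⟩
            simpa [Q] using hi
        have hPc : S.card = P.card := by
          rw [hP, card_map]
        have hQc : T.card = Q.card := by
          rw [hQ, card_map]
        rw [hPc, hQc]
        refine biclique t (by omega) P Q ?_ ?_ ?_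
        · rw [← card_pos, ← hPc]
          exact card_pos.mpr hS
        · rw [← card_pos, ← hQc]
          exact card_pos.mpr hT
        · intro p hp q hq
          by_contra hne
          exact hST _ (by simpa [P] using hp) _ (by simpa [Q] using hq) (hAD p q hne)
      by_cases hA : ∃ i, Sum.inr (Sum.inl i) ∈ C
      · obtain ⟨i, hi⟩ := hA
        have hDA : ∀ i', Sum.inr (Sum.inl i') ∉ D := by
          intro i' hi'
          refine hno _ hi _ hi' (hAA i i' ?_)
          rintro rfl
          exact hCD _ hi hi'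
        obtain ⟨j, hj⟩ : ∃ j, Sum.inr (Sum.inr j) ∈ D := by
          obtain ⟨x, hx⟩ := hD
          rcases x with w | i' | j
          · exact absurd hx (hDV w)
          · exact absurd hx (hDA i')
          · exact ⟨j, hx⟩
        have hCD' : ∀ j', Sum.inr (Sum.inr j') ∉ C := by
          intro j' hj'
          refine hno _ hj' _ hj (hDD j' j ?_)
          rintro rfl
          exact hCD _ hj' hj
        have := hkey C D hC hD hcase hDV hCD' hDA hno
        omega
      · push Not at hA
        obtain ⟨j, hj⟩ : ∃ j, Sum.inr (Sum.inr j) ∈ C := by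
          obtain ⟨x, hx⟩ := hC
          rcases x with w | i' | j
          · exact absurd hx (hcase w)
          · exact absurd hx (hA i')
          · exact ⟨j, hx⟩
        have hDD' : ∀ j', Sum.inr (Sum.inr j') ∉ D := by
          intro j' hj'
          refine hno _ hj _ hj' (hDD j j' ?_)
          rintro rfl
          exact hCD _ hj hj'
        have := hkey D C hD hC hDV hcase hDD' hA (fun x hx y hy hadj => hno y hy x hx hadj.symm)
        omega
  · -- the number of edges
    have h1 := total (cir F₀ a t)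
    rw [sum_dg, inner (cir F₀ a t) F₀ (fun u v => Iff.rfl)] at h1
    have e1 : ∑ i : Fin a, ∑ u : V, ad (cir F₀ a t) (Sum.inr (Sum.inl i)) (Sum.inl u)
        = a * Fintype.card V := by
      have h2 : ∀ (i : Fin a) (u : V), ad (cir F₀ a t) (Sum.inr (Sum.inl i)) (Sum.inl u) = 1 :=
        fun i u => ad_of_adj trivial
      simp only [h2, Finset.sum_const, card_univ, Fintype.card_fin, smul_eq_mul, mul_one]
    have e2 : ∑ j : Fin a, ∑ u : V, ad (cir F₀ a t) (Sum.inr (Sum.inr j)) (Sum.inl u) = 0 :=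
      Finset.sum_eq_zero fun i _ => Finset.sum_eq_zero fun i' _ => ad_of_not fun h => h
    have e3 : ∑ i : Fin a, ∑ i' : Fin a,
        ad (cir F₀ a t) (Sum.inr (Sum.inl i)) (Sum.inr (Sum.inl i')) = 0 :=
      Finset.sum_eq_zero fun i _ => Finset.sum_eq_zero fun i' _ => ad_of_not fun h => h
    have e4 : ∑ i : Fin a, ∑ i' : Fin a,
        ad (cir F₀ a t) (Sum.inr (Sum.inr i)) (Sum.inr (Sum.inr i')) = 0 :=
      Finset.sum_eq_zero fun i _ => Finset.sum_eq_zero fun i' _ => ad_of_not fun h => h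
    have e5 : ∑ i : Fin a, ∑ j : Fin a,
        ad (cir F₀ a t) (Sum.inr (Sum.inl i)) (Sum.inr (Sum.inr j)) = a * (a - t) := by
      have h2 : ∀ i : Fin a, ∑ j : Fin a,
          ad (cir F₀ a t) (Sum.inr (Sum.inl i)) (Sum.inr (Sum.inr j)) = a - t := by
        intro i
        have h3 : ∑ j : Fin a, ad (cir F₀ a t) (Sum.inr (Sum.inl i)) (Sum.inr (Sum.inr j))
            = (univ.filter (fun j : Fin a => ¬ (j - i).val < t)).card := by
          rw [card_filter]
          exact Finset.sum_congr rfl fun j _ => if_congr Iff.rfl rfl rfl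
        have h4 := Finset.card_filter_add_card_filter_not (s := (univ : Finset (Fin a)))
          (p := fun j => (j - i).val < t)
        rw [card_col t (by omega) i, card_univ, Fintype.card_fin] at h4
        rw [h3]
        omega
      rw [Finset.sum_congr rfl fun i _ => h2 i, Finset.sum_const, card_univ, Fintype.card_fin,
        smul_eq_mul]
    rw [e1, e2, e3, e4, e5] at h1
    have h5 : a * (a + k₀ + 1) = a * Fintype.card V + a * (a - t) := by
      rw [← Nat.mul_add]
      congr 1
      omega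
    rw [h5]
    omega

end Pool.Agent.BD48
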