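import Mathlib
import Pool.Agent.BD48.Asm
import Pool.Agent.BD48.Place
import Pool.Agent.BD48.Greedy
import Pool.Agent.BD48.Out
import Pool.Agent.BD48.MainL

/-!
Highly connected supergraphs of pseudoforests, sparse case.
-/

namespace Pool.Agent.BD48

open Finset

attribute [local instance] Classical.propDecidable

/-- `placement` without decidability -/
lemma placement' {W κ : Type*} [Fintype W] (n : ℕ) [NeZero n] (hn : Fintype.card W = n)
    (c : W → κ) : ∃ π : W ≃ ZMod n, ∀ (a : κ) (j : ℕ), j < 4 → ∀ T U : Finset W,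
      (∀ w ∈ T, c w = a ∧ inBlock n j (π w)) → (∀ w, c w = a → w ∈ U) →
      4 * T.card ≤ U.card + 8 := by
  obtain ⟨π, hπ⟩ := placement n hn c
  refine ⟨π, ?_⟩
  intro a j hj T U hT hU
  have h1 := hπ a j hj
  have h2 : T.card ≤ (univ.filter (fun w => c w = a ∧ inBlock n j (π w))).card := by
    refine Finset.card_le_card ?_
    intro w hw
    exact Finset.mem_filter.mpr ⟨Finset.mem_univ _, hT w hw⟩
  have h3 : (univ.filter (fun w => c w = a)).card ≤ U.card := by
    refine Finset.card_le_card ?_
    intro w hw
    exact hU w (Finset.mem_filter.mp hw).2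
  omega

lemma inBlock_unique {n i j : ℕ} {x : ZMod n} (hi : inBlock n i x) (hj : inBlock n j x) :
    i = j := by
  obtain ⟨h1, h2⟩ := hi
  obtain ⟨h3, h4⟩ := hj
  by_contra hcon
  rcases Nat.lt_or_gt_of_ne hcon with h | h
  · have h5 : (i + 1) * n / 4 ≤ j * n / 4 :=
      Nat.div_le_div_right (Nat.mul_le_mul_right _ (by omega))
    omega
  · have h5 : (j + 1) * n / 4 ≤ i * n / 4 :=
      Nat.div_le_div_right (Nat.mul_le_mul_right _ (by omega))
    omega

variable {V : Type*} [Fintype V]

/-- the neighbours of `z` with out-neighbour `z` -/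
noncomputable def ch (G : SimpleGraph V) (out : V → V) (z : V) : Finset V :=
  (nb G z).filter (fun w => out w = z)

lemma mem_ch {G : SimpleGraph V} {out : V → V} {z w : V} :
    w ∈ ch G out z ↔ G.Adj z w ∧ out w = z := by
  unfold ch
  rw [Finset.mem_filter, mem_nb]

lemma card_ch (G : SimpleGraph V) (out : V → V)
    (hout : ∀ x y, G.Adj x y → out x = y ∨ out y = x) (z : V) :
    dg G z ≤ (ch G out z).card + 1 := by
  have h : nb G z ⊆ insert (out z) (ch G out z) := by
    intro w hw
    rw [mem_nb] at hw
    rw [Finset.mem_insert, mem_ch]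
    rcases hout z w hw with h | h
    · exact Or.inl h.symm
    · exact Or.inr ⟨hw, h⟩
  refine le_trans (Finset.card_le_card h) (Finset.card_insert_le _ _)

lemma ch_disjoint (G : SimpleGraph V) (out : V → V) {z z' : V} (h : z ≠ z') :
    Disjoint (ch G out z) (ch G out z') := by
  rw [Finset.disjoint_left]
  intro w h1 h2
  rw [mem_ch] at h1 h2
  exact h (h1.2.symm.trans h2.2)

/-- the sparse case -/
theorem regimeA (G : SimpleGraph V) (out : V → V)
    (hout : ∀ x y, G.Adj x y → out x = y ∨ out y = x) (k t : ℕ)
    (hn : Fintype.card V = k + 1 + t) (ht : Fintype.card V < 300 * t)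
    (hk : 10000000000000000000 ≤ k) :
    ∃ H : SimpleGraph V, G ≤ H ∧ SepFree H k ∧ ∑ v, dg H v ≤ ∑ v, max k (dg G v) + 1 := by
  obtain ⟨n, hnn⟩ : ∃ n, n = Fintype.card V := ⟨_, rfl⟩
  rw [← hnn] at hn ht
  obtain ⟨δ, hδ⟩ : ∃ δ, δ = k / 5000000 := ⟨_, rfl⟩
  let Z : Finset V := univ.filter (fun v => δ < dg G v)
  have hZ : ∀ v, v ∈ Z ↔ δ < dg G v := by
    intro v
    simp [Z]
  obtain ⟨h, hh⟩ : ∃ h, h = Z.card := ⟨_, rfl⟩
  -- the number of hubs
  have hZ1 : (δ + 1) * h ≤ 2 * n := by
    have h1 := sum_dg_out G out hout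
    have h2 : ∑ z ∈ Z, (δ + 1) ≤ ∑ z ∈ Z, dg G z :=
      Finset.sum_le_sum (fun z hz => (hZ z).mp hz)
    have h3 : ∑ z ∈ Z, dg G z ≤ ∑ v, dg G v :=
      Finset.sum_le_sum_of_subset (Finset.subset_univ _)
    rw [Finset.sum_const, smul_eq_mul, Nat.mul_comm, ← hh] at h2
    omega
  have hZ2 : 1000000000000 * h ≤ n := by
    have h1 : 2000000000000 * h ≤ (δ + 1) * h := Nat.mul_le_mul_right _ (by omega)
    omega
  have hZ3 : k * h ≤ 10000000 * n := by
    have h1 : k * h ≤ 5000000 * (δ + 1) * h := Nat.mul_le_mul_right _ (by omega)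
    have h2 : 5000000 * (δ + 1) * h = 5000000 * ((δ + 1) * h) := by ring
    omega
  obtain ⟨nW, hnW⟩ : ∃ nW, nW = n - h := ⟨_, rfl⟩
  have hnW0 : NeZero nW := ⟨by omega⟩
  -- the placement
  let c : {w // w ∈ univ \ Z} → Option V :=
    fun w => if G.Adj w.1 (out w.1) then some (out w.1) else none
  obtain ⟨π, hπ⟩ := placement' nW (by
    rw [Fintype.card_coe, Finset.card_sdiff_of_subset (Finset.subset_univ _), Finset.card_univ,
      ← hnn, ← hh, hnW]) c
  let p : V → ZMod nW := fun x => if hx : x ∈ univ \ Z then π ⟨x, hx⟩ else 0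
  let q : ZMod nW → V := fun a => (π.symm a).1
  have hq : ∀ a, q a ∉ Z := fun a => (Finset.mem_sdiff.mp (π.symm a).2).2
  have hpq : ∀ a, p (q a) = a := by
    intro a
    simp only [p, q]
    rw [dif_pos (π.symm a).2]
    simp
  have hqp : ∀ x, x ∉ Z → q (p x) = x := by
    intro x hx
    have hx' : x ∈ univ \ Z := Finset.mem_sdiff.mpr ⟨Finset.mem_univ _, hx⟩
    simp only [p, q]
    rw [dif_pos hx', π.symm_apply_apply]
  have hqinj : Function.Injective q := fun a a' h' => by rw [← hpq a, ← hpq a', h']
  -- the neighbours of a vertex in a block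
  have hblock : ∀ (z : V) (j : ℕ), j < 4 → ∀ T : Finset (ZMod nW),
      (∀ a ∈ T, G.Adj z (q a) ∧ inBlock nW j a) → 4 * T.card ≤ dg G z + 12 := by
    intro z j hj T hT
    let T1 : Finset (ZMod nW) := T.filter (fun a => out (q a) = z)
    let T2 : Finset (ZMod nW) := T.filter (fun a => ¬ out (q a) = z)
    have hT12 : T1.card + T2.card = T.card :=
      Finset.card_filter_add_card_filter_not (s := T) (fun a => out (q a) = z)
    have hT2 : T2.card ≤ 1 := by
      rw [Finset.card_le_one]
      intro a ha b hb
      simp only [T2, Finset.mem_filter] at ha hb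
      have h1 := (hT a ha.1).1
      have h2 := (hT b hb.1).1
      have h3 := (hout z (q a) h1).resolve_right ha.2
      have h4 := (hout z (q b) h2).resolve_right hb.2
      exact hqinj (h3.symm.trans h4)
    have hT1 : 4 * T1.card ≤ dg G z + 8 := by
      let U : Finset {w // w ∈ univ \ Z} := univ.filter (fun w => G.Adj z w.1)
      have hU : U.card ≤ dg G z := by
        unfold dg
        refine Finset.card_le_card_of_injOn (fun w => w.1) ?_ ?_
        · intro w hw
          rw [Finset.mem_coe] at hw
          simp only [U, Finset.mem_filter, Finset.mem_univ, true_and] at hw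
          rw [Finset.mem_coe, mem_nb]
          exact hw
        · intro a _ b _ hab
          exact Subtype.ext hab
      have h1 := hπ (some z) j hj (T1.image π.symm) U (by
        intro w hw
        obtain ⟨a, ha, rfl⟩ := Finset.mem_image.mp hw
        simp only [T1, Finset.mem_filter] at ha
        have h2 := hT a ha.1
        refine ⟨?_, ?_⟩
        · simp only [c]
          rw [if_pos]
          · rw [Option.some_inj]
            exact ha.2
          · have h3 : out (π.symm a).1 = z := ha.2
            rw [h3]
            exact h2.1.symm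
        · rw [π.apply_symm_apply]
          exact h2.2) (by
        intro w hw
        simp only [c] at hw
        split_ifs at hw with h3
        rw [Option.some_inj] at hw
        rw [hw] at h3
        simp only [U, Finset.mem_filter, Finset.mem_univ, true_and]
        exact h3.symm)
      rw [Finset.card_image_of_injective _ π.symm.injective] at h1
      omega
    omega
  -- the protected children
  have hPex : ∀ z, ∃ P : Finset V, z ∈ Z → P ⊆ ch G out z ∧ P.card = 5000005 := by
    intro z
    by_cases hz : z ∈ Z
    · have h1 := card_ch G out hout z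
      have h2 := (hZ z).mp hz
      obtain ⟨P, hP1, hP2⟩ := Finset.exists_subset_card_eq
        (show 5000005 ≤ (ch G out z).card by omega)
      exact ⟨P, fun _ => ⟨hP1, hP2⟩⟩
    · exact ⟨∅, fun h' => absurd h' hz⟩
  choose P hP using hPex
  let PP : Finset V := Z.biUnion P
  have hPP : PP.card ≤ 5000005 * h := by
    refine le_trans Finset.card_biUnion_le ?_
    rw [Finset.sum_congr rfl (fun z hz => (hP z hz).2), Finset.sum_const, smul_eq_mul, ← hh,
      Nat.mul_comm]
  -- the new edges
  obtain ⟨sat, hsat⟩ : ∃ sat, sat = n / 10000 := ⟨_, rfl⟩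
  let A : V → ℕ → Finset V := fun z j =>
    ((univ : Finset (ZMod nW)).filter
      (fun a => inBlock nW j a ∧ ¬ G.Adj z (q a) ∧ q a ∉ PP)).image q
  have hA : ∀ z j w, w ∈ A z j ↔ w ∉ Z ∧ inBlock nW j (p w) ∧ ¬ G.Adj z w ∧ w ∉ PP := by
    intro z j w
    simp only [A, Finset.mem_image, Finset.mem_filter, Finset.mem_univ, true_and]
    constructor
    · rintro ⟨a, ⟨h1, h2, h3⟩, rfl⟩
      rw [hpq]
      exact ⟨hq a, h1, h2, h3⟩
    · rintro ⟨h1, h2, h3, h4⟩
      refine ⟨p w, ?_, hqp w h1⟩
      rw [hqp w h1]
      exact ⟨h2, h3, h4⟩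
  let Z' : Finset V := Z.filter (fun z => dg G z < k)
  have hZ' : ∀ z, z ∈ Z' ↔ z ∈ Z ∧ dg G z < k := by
    intro z
    simp only [Z', Finset.mem_filter]
  let dem : V → ℕ → ℕ := fun z j => (k - dg G z + j) / 4
  have hdem : ∀ z, ∑ j ∈ range 4, dem z j = k - dg G z := by
    intro z
    simp only [dem, Finset.sum_range_succ, Finset.sum_range_zero]
    omega
  have hdem4 : ∀ z j, j < 4 → 4 * dem z j ≤ k - dg G z + 3 := by
    intro z j hj
    simp only [dem]
    omega
  obtain ⟨N, hN1, hN2, hN3⟩ := greedy Z' A dem 200000000000 sat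
    (by
      intro z _ i _ j _ hij
      rw [Finset.disjoint_left]
      intro w h1 h2
      rw [hA] at h1 h2
      exact hij (inBlock_unique h1.2.1 h2.2.1))
    (by
      intro z hz j hj
      rw [hZ'] at hz
      have h1 : (A z j).card = ((univ : Finset (ZMod nW)).filter
          (fun a => inBlock nW j a ∧ ¬ G.Adj z (q a) ∧ q a ∉ PP)).card :=
        Finset.card_image_of_injective _ hqinj
      have h2 := card_block nW j hj
      let T : Finset (ZMod nW) := univ.filter (fun a => inBlock nW j a ∧ G.Adj z (q a))
      have h3 : 4 * T.card ≤ dg G z + 12 := by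
        refine hblock z j hj T ?_
        intro a ha
        simp only [T, Finset.mem_filter, Finset.mem_univ, true_and] at ha
        exact ⟨ha.2, ha.1⟩
      let T' : Finset (ZMod nW) := univ.filter (fun a => q a ∈ PP)
      have h4 : T'.card ≤ PP.card := by
        refine Finset.card_le_card_of_injOn q ?_ (hqinj.injOn)
        intro a ha
        rw [Finset.mem_coe] at ha
        simp only [T', Finset.mem_filter, Finset.mem_univ, true_and] at ha
        exact ha
      have h5 : (univ.filter (fun x : ZMod nW => inBlock nW j x)) ⊆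
          (((univ : Finset (ZMod nW)).filter
            (fun a => inBlock nW j a ∧ ¬ G.Adj z (q a) ∧ q a ∉ PP)) ∪ T) ∪ T' := by
        intro a ha
        simp only [Finset.mem_filter, Finset.mem_univ, true_and] at ha
        simp only [Finset.mem_union, T, T', Finset.mem_filter, Finset.mem_univ, true_and]
        by_cases h6 : G.Adj z (q a)
        · exact Or.inl (Or.inr ⟨ha, h6⟩)
        · by_cases h7 : q a ∈ PP
          · exact Or.inr h7
          · exact Or.inl (Or.inl ⟨ha, h6, h7⟩)
      have h6 := Finset.card_le_card h5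
      have h7 := Finset.card_union_le (((univ : Finset (ZMod nW)).filter
            (fun a => inBlock nW j a ∧ ¬ G.Adj z (q a) ∧ q a ∉ PP)) ∪ T) T'
      have h8 := Finset.card_union_le ((univ : Finset (ZMod nW)).filter
            (fun a => inBlock nW j a ∧ ¬ G.Adj z (q a) ∧ q a ∉ PP)) T
      have h9 := hdem4 z j hj
      have h10 := hz.2
      omega)
    (by
      have h1 : ∑ z ∈ Z', ∑ j ∈ range 4, dem z j ≤ ∑ z ∈ Z', k := by
        refine Finset.sum_le_sum (fun z _ => ?_)
        rw [hdem]
        exact Nat.sub_le _ _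
      have h2 : ∑ z ∈ Z', k ≤ ∑ z ∈ Z, k :=
        Finset.sum_le_sum_of_subset (Finset.filter_subset _ _)
      rw [Finset.sum_const (s := Z), smul_eq_mul, ← hh, Nat.mul_comm] at h2
      omega)
  let N' : V → Finset V := fun z => if z ∈ Z' then N z else ∅
  have hN'1 : ∀ z w, w ∈ N' z → w ∉ Z ∧ ¬ G.Adj z w ∧ w ∉ PP := by
    intro z w hw
    simp only [N'] at hw
    split_ifs at hw with h1
    · obtain ⟨j, _, hj⟩ := hN1 z h1 w hw
      rw [hA] at hj
      exact ⟨hj.1, hj.2.2.1, hj.2.2.2⟩
    · exact absurd hw (Finset.notMem_empty _)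
  have hN'2 : ∀ z ∈ Z, dg G z + (N' z).card = max k (dg G z) := by
    intro z hz
    simp only [N']
    split_ifs with h1
    · have h2 : N z = (range 4).biUnion (fun j => N z ∩ A z j) := by
        ext w
        rw [Finset.mem_biUnion]
        constructor
        · intro hw
          obtain ⟨j, hj, hwj⟩ := hN1 z h1 w hw
          exact ⟨j, Finset.mem_range.mpr hj, Finset.mem_inter.mpr ⟨hw, hwj⟩⟩
        · rintro ⟨j, _, hw⟩
          exact (Finset.mem_inter.mp hw).1
      have h3 : (N z).card = k - dg G z := by
        rw [h2, Finset.card_biUnion, Finset.sum_congr rfl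
          (fun j hj => hN2 z h1 j (Finset.mem_range.mp hj)), hdem]
        intro i _ j _ hij
        show Disjoint (N z ∩ A z i) (N z ∩ A z j)
        rw [Finset.disjoint_left]
        intro w h3 h4
        have h5 := (hA z i w).mp (Finset.mem_inter.mp h3).2
        have h6 := (hA z j w).mp (Finset.mem_inter.mp h4).2
        exact hij (inBlock_unique h5.2.1 h6.2.1)
      have h4 := ((hZ' z).mp h1).2
      omega
    · rw [hZ', not_and, not_lt] at h1
      have h2 := h1 hz
      rw [Finset.card_empty, max_eq_right h2, Nat.add_zero]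
  have hN'3 : ∀ w, w ∉ Z → (Z.filter (fun z => G.Adj w z ∨ w ∈ N' z)).card
      ≤ δ + 200000000000 := by
    intro w hw
    have h1 : Z.filter (fun z => G.Adj w z ∨ w ∈ N' z) ⊆
        nb G w ∪ Z'.filter (fun z => w ∈ N z) := by
      intro z hz
      rw [Finset.mem_filter] at hz
      rw [Finset.mem_union, mem_nb, Finset.mem_filter]
      rcases hz.2 with h2 | h2
      · exact Or.inl h2
      · right
        simp only [N'] at h2
        split_ifs at h2 with h3
        · exact ⟨h3, h2⟩
        · exact absurd h2 (Finset.notMem_empty _)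
    have h2 := Finset.card_le_card h1
    have h3 := Finset.card_union_le (nb G w) (Z'.filter (fun z => w ∈ N z))
    have h4 := hN3 w
    have h5 : (nb G w).card ≤ δ := by
      rw [hZ, not_lt] at hw
      exact hw
    omega
  -- the numbers
  obtain ⟨d, hd⟩ : ∃ d, d = δ + 200000000000 := ⟨_, rfl⟩
  obtain ⟨K, hK1, hK2⟩ := exists_pow_two (12 * d + 36) (by omega)
  obtain ⟨N0, hN0⟩ : ∃ N0, N0 = 2 ^ K := ⟨_, rfl⟩
  obtain ⟨s, hs⟩ : ∃ s, s = N0 - (d + 8) := ⟨_, rfl⟩
  obtain ⟨b, hb⟩ : ∃ b, b = 3 * (4 * d + 16 + (2 * s + d) + 1) + 2 := ⟨_, rfl⟩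
  obtain ⟨m, hm⟩ : ∃ m, m = 2 * b := ⟨_, rfl⟩
  obtain ⟨r, hr⟩ : ∃ r, r = k / 2 := ⟨_, rfl⟩
  rw [← hN0] at hK1 hK2
  obtain ⟨H, hH1, hH2, hH3, hH4, hH5, hH6, hH7⟩ := assemble G Z N' nW p q hq hpq hqp d k r K s b m
    (by
      intro v hv
      rw [hZ, not_lt] at hv
      omega)
    (fun z _ w hw => ⟨(hN'1 z w hw).1, (hN'1 z w hw).2.1⟩) hN'2
    (fun w hw => by rw [hd]; exact hN'3 w hw) (by omega) (by omega) (by omega) (by omega) hb hm
    (by omega) (by omega)
  refine ⟨H, hH1, ?_, hH5⟩
  have hchH : ∀ z, ch G out z ⊆ nb H z := by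
    intro z w hw
    rw [mem_nb]
    exact hH1 (mem_ch.mp hw).1
  refine sep_hubs H (univ \ Z) k 5000000 hH3 hH6 ?_ ?_
  · intro S hS hScard
    have hSZ : ∀ v ∈ S, v ∈ Z := by
      intro v hv
      have h1 := hS v hv
      rw [Finset.mem_sdiff, not_and, not_not] at h1
      exact h1 (Finset.mem_univ _)
    have h1 : S.biUnion (fun z => ch G out z) ⊆ S.biUnion (fun z => nb H z) :=
      Finset.biUnion_mono (fun z _ => hchH z)
    have h2 : (S.biUnion (fun z => ch G out z)).card = ∑ z ∈ S, (ch G out z).card := by
      refine Finset.card_biUnion ?_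
      intro x _ y _ hxy
      exact ch_disjoint G out hxy
    have h3 : ∑ z ∈ S, δ ≤ ∑ z ∈ S, (ch G out z).card := by
      refine Finset.sum_le_sum (fun z hz => ?_)
      have h4 := card_ch G out hout z
      have h5 := (hZ z).mp (hSZ z hz)
      omega
    rw [Finset.sum_const, smul_eq_mul] at h3
    have h4 := Finset.card_le_card h1
    have h5 := Finset.le_card_sdiff S (S.biUnion (fun z => nb H z))
    obtain ⟨σ, hσ⟩ : ∃ σ, S.card = 5000001 + σ := ⟨S.card - 5000001, by omega⟩
    have h6 : S.card * δ = 5000001 * δ + σ * δ := by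
      rw [hσ]
      ring
    have h7 : σ ≤ σ * δ := Nat.le_mul_of_pos_right _ (by omega)
    omega
  · intro z v hz hvz
    have hzZ : z ∈ Z := by
      rw [Finset.mem_sdiff, not_and, not_not] at hz
      exact hz (Finset.mem_univ _)
    by_cases hv : v ∈ Z
    · -- two hubs
      have h1 : (P z).erase (out v) ⊆ nb H z \ nb H v := by
        intro w hw
        rw [Finset.mem_erase] at hw
        have h2 := (hP z hzZ).1 hw.2
        rw [Finset.mem_sdiff]
        refine ⟨hchH z h2, ?_⟩
        rw [mem_nb, hH2 v hv]
        rintro (h3 | h3)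
        · rcases hout v w h3 with h4 | h4
          · exact hw.1 h4.symm
          · rw [(mem_ch.mp h2).2] at h4
            exact hvz h4.symm
        · exact (hN'1 v w h3).2.2 (Finset.mem_biUnion.mpr ⟨z, hzZ, hw.2⟩)
      have h2 := Finset.card_le_card h1
      have h3 := Finset.pred_card_le_card_erase (s := P z) (a := out v)
      have h4 := (hP z hzZ).2
      have h5 := Finset.card_sdiff_add_card (nb H z) (nb H v)
      have h6 : k ≤ (nb H v).card := hH3 v
      omega
    · -- a hub and another vertex
      have hdz : dg H z = max k (dg G z) := (hH4 z hzZ).2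
      have hdz' : (nb H z).card = max k (dg G z) := hdz
      by_cases hbig : k + 5000000 + 2 ≤ dg G z
      · have h1 := Finset.card_le_card (Finset.subset_union_left : nb H z ⊆ nb H z ∪ nb H v)
        have h2 := le_max_right k (dg G z)
        omega
      · let Nz : Finset (ZMod nW) := univ.filter (fun a => q a ∈ nb H z)
        have hNz : ∀ a, a ∈ Nz ↔ H.Adj z (q a) := by
          intro a
          simp only [Nz, Finset.mem_filter, Finset.mem_univ, true_and, mem_nb]
        obtain ⟨T, hT1, hT2⟩ := hH7 v hv
        obtain ⟨g, hg⟩ : ∃ g, g = 5000020 := ⟨_, rfl⟩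
        obtain ⟨y, hy⟩ : ∃ y, y = 60 * d + 5000200 := ⟨_, rfl⟩
        have hwin := block_window nW r k g y Nz (by omega) (by omega)
          (by
            intro j hj
            let T1 : Finset (ZMod nW) :=
              (Nz.filter (fun x => inBlock nW j x)).filter (fun a => q a ∈ nb G z)
            let T2 : Finset (ZMod nW) :=
              (Nz.filter (fun x => inBlock nW j x)).filter (fun a => ¬ q a ∈ nb G z)
            have h1 : T1.card + T2.card = (Nz.filter (fun x => inBlock nW j x)).card :=
              Finset.card_filter_add_card_filter_not (s := Nz.filter (fun x => inBlock nW j x))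
                (fun a => q a ∈ nb G z)
            have h2 : 4 * T1.card ≤ dg G z + 12 := by
              refine hblock z j hj T1 ?_
              intro a ha
              simp only [T1, Finset.mem_filter, mem_nb] at ha
              exact ⟨ha.2, ha.1.2⟩
            have h3 : 4 * T2.card ≤ k - dg G z + 3 := by
              have h4 : T2.card ≤ dem z j := by
                by_cases hzZ' : z ∈ Z'
                · rw [← hN2 z hzZ' j hj]
                  refine Finset.card_le_card_of_injOn q ?_ (hqinj.injOn)
                  intro a ha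
                  rw [Finset.mem_coe] at ha
                  simp only [T2, Finset.mem_filter, hNz, mem_nb] at ha
                  obtain ⟨⟨h5, h6⟩, h7⟩ := ha
                  have h8 := ((hH2 z hzZ (q a)).mp h5).resolve_left h7
                  have h9 := hN'1 z _ h8
                  rw [Finset.mem_coe, Finset.mem_inter, hA, hpq]
                  simp only [N'] at h8
                  rw [if_pos hzZ'] at h8
                  exact ⟨h8, h9.1, h6, h9.2.1, h9.2.2⟩
                · have h5 : T2 = ∅ := by
                    rw [Finset.eq_empty_iff_forall_notMem]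
                    intro a ha
                    simp only [T2, Finset.mem_filter, hNz, mem_nb] at ha
                    obtain ⟨⟨h5, h6⟩, h7⟩ := ha
                    have h8 := ((hH2 z hzZ (q a)).mp h5).resolve_left h7
                    simp only [N'] at h8
                    rw [if_neg hzZ'] at h8
                    exact absurd h8 (Finset.notMem_empty _)
                  rw [h5]
                  simp
              have h5 := hdem4 z j hj
              omega
            omega)
          (by omega) (by omega) (p v)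
        have h1 : ((ball r (p v) \ Nz) \ T).image q ⊆ nb H v \ nb H z := by
          intro w hw
          obtain ⟨a, ha, rfl⟩ := Finset.mem_image.mp hw
          rw [Finset.mem_sdiff, Finset.mem_sdiff, hNz] at ha
          rw [Finset.mem_sdiff, mem_nb, mem_nb]
          exact ⟨hT2 a ha.1.1 ha.2, ha.1.2⟩
        have h2 := Finset.card_le_card h1
        rw [Finset.card_image_of_injective _ hqinj] at h2
        have h3 := Finset.le_card_sdiff T (ball r (p v) \ Nz)
        have h4 := Finset.card_sdiff_add_card (nb H v) (nb H z)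
        rw [Finset.union_comm] at h4
        have h5 := le_max_left k (dg G z)
        rw [← hN0] at hT1
        omega

end Pool.Agent.BD48
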