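import Mathlib
import Pool.Agent.BD48.AsmD
import Pool.Agent.BD48.PlaceD
import Pool.Agent.BD48.Greedy
import Pool.Agent.BD48.Twin
import Pool.Agent.BD48.Tau
import Pool.Agent.BD48.RegA

/-!
Highly connected supergraphs of sparse graphs without three vertices with many common neighbours,
sparse case.
-/

namespace Pool.Agent.BD48

open Finset

attribute [local instance] Classical.propDecidable

universe u

/-- `placementD` without decidability -/
lemma placementD' {W κ : Type*} [Fintype W] (n D : ℕ) [NeZero n] (hn : Fintype.card W = n)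
    (Y : Finset κ) (S : κ → Finset W)
    (hD : ∀ w, ∀ Y' : Finset κ, Y' ⊆ Y → (∀ y ∈ Y', w ∈ S y) → Y'.card ≤ D) :
    ∃ π : W ≃ ZMod n, ∀ y ∈ Y, ∀ j < 4, ∀ T : Finset W,
      (∀ w ∈ T, w ∈ S y ∧ inBlock n j (π w)) → 4 * T.card ≤ (S y).card + 100 * (D + 1) :=
  placementD n D hn Y S (fun w => hD w _ (Finset.filter_subset _ _)
    (fun _ hy => (Finset.mem_filter.mp hy).2))

variable {V : Type u} [Fintype V]

/-- the sparse case, with all constants -/
theorem regimeAD_aux (E s C c mP pp A₁ l B : ℕ) (hE : 1 ≤ E) (hC : C = 100000000 * E)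
    (hc : c = 2 * (C * E)) (hmP : mP = s + 4 * (c + 4)) (hpp : pp = s + 6 * (c + 4) + 1)
    (hA₁ : A₁ = 10000 * (E * (4 * pp + 1))) (hl : l = 80000 * (C * (E * E)))
    (hB : B = 1000000000 * (E * E) + 2 * (E * A₁) + 8 * (C * E) + l + mP + 100 * c + pp + s + 10)
    (G : SimpleGraph V) (out : V → Finset V) (k t : ℕ)
    (hD : ∀ v, (out v).card ≤ E) (hout : ∀ x y, G.Adj x y → y ∈ out x ∨ x ∈ out y)
    (hK3 : ∀ x y z, x ≠ y → x ≠ z → y ≠ z → (nb G x ∩ nb G y ∩ nb G z).card < s)
    (hn : Fintype.card V = k + 1 + t) (ht : Fintype.card V < 1000 * (E * t))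
    (hk : C * (B + 1) ≤ k) :
    ∃ H : SimpleGraph V, G ≤ H ∧ SepFree H k ∧
      ∑ v, dg H v ≤ ∑ v, max k (dg G v) + tau G k + 1 := by
  obtain ⟨n, hnn⟩ : ∃ n, n = Fintype.card V := ⟨_, rfl⟩
  rw [← hnn] at hn ht
  have hC0 : 0 < C := by omega
  obtain ⟨δ, hδ⟩ : ∃ δ, δ = k / C := ⟨_, rfl⟩
  have hδ1 : C * δ ≤ k := by
    rw [hδ]
    exact Nat.mul_div_le k C
  have hδ2 : k < C * (δ + 1) := by
    rw [hδ]
    exact Nat.lt_mul_div_succ k hC0
  have hδB : B ≤ δ := by
    have h1 : C * (B + 1) < C * (δ + 1) := lt_of_le_of_lt hk hδ2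
    have h2 := Nat.lt_of_mul_lt_mul_left h1
    omega
  have hEδ : 100000000 * (E * δ) ≤ k := by
    have h1 : C * δ = 100000000 * (E * δ) := by
      rw [hC]
      ring
    omega
  have hEδ' : δ ≤ E * δ := Nat.le_mul_of_pos_left _ (by omega)
  have hBE : B ≤ E * δ := le_trans hδB hEδ'
  have hEE : 1 ≤ E * E := Nat.mul_pos (by omega) (by omega)
  have hEE' : E ≤ E * E := Nat.le_mul_of_pos_left _ (by omega)
  have hnk : k ≤ n := by omega
  -- the gap
  have hgap : ∀ Y : ℕ, 1000 * (E * Y) ≤ n → Y < t := by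
    intro Y hY
    by_contra hcon
    push Not at hcon
    have h1 : E * t ≤ E * Y := Nat.mul_le_mul_left _ hcon
    omega
  let Z : Finset V := univ.filter (fun v => δ < dg G v)
  have hZ : ∀ v, v ∈ Z ↔ δ < dg G v := by
    intro v
    simp [Z]
  obtain ⟨h, hh⟩ : ∃ h, h = Z.card := ⟨_, rfl⟩
  -- the number of hubs
  have hZ1 : (δ + 1) * h ≤ 2 * E * n := by
    have h1 := sum_dg_outD G out E hD hout
    have h2 : ∑ z ∈ Z, (δ + 1) ≤ ∑ z ∈ Z, dg G z :=
      Finset.sum_le_sum (fun z hz => (hZ z).mp hz)
    have h3 : ∑ z ∈ Z, dg G z ≤ ∑ v, dg G v :=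
      Finset.sum_le_sum_of_subset (Finset.subset_univ _)
    rw [Finset.sum_const, smul_eq_mul, Nat.mul_comm, ← hh] at h2
    rw [← hnn] at h1
    omega
  have hZ2 : A₁ * h ≤ n := by
    have h1 : 2 * (E * A₁) * h ≤ (δ + 1) * h := Nat.mul_le_mul_right _ (by omega)
    have h2 : 2 * E * (A₁ * h) ≤ 2 * E * n := by
      calc 2 * E * (A₁ * h) = 2 * (E * A₁) * h := by ring
        _ ≤ (δ + 1) * h := h1
        _ ≤ 2 * E * n := hZ1
    exact Nat.le_of_mul_le_mul_left h2 (by omega)
  have hZ2' : 40000 * (E * (h * pp)) + 10000 * (E * h) ≤ n := by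
    have h1 : A₁ * h = 40000 * (E * (h * pp)) + 10000 * (E * h) := by
      rw [hA₁]
      ring
    omega
  have hEh : h ≤ E * h := Nat.le_mul_of_pos_left _ (by omega)
  have hZ3 : k * h ≤ 2 * (C * (E * n)) := by
    have h1 : k * h ≤ C * (δ + 1) * h := Nat.mul_le_mul_right _ hδ2.le
    have h2 : C * ((δ + 1) * h) ≤ C * (2 * E * n) := Nat.mul_le_mul_left _ hZ1
    have h3 : C * (δ + 1) * h = C * ((δ + 1) * h) := by ring
    have h4 : C * (2 * E * n) = 2 * (C * (E * n)) := by ring
    omega
  obtain ⟨nW, hnW⟩ : ∃ nW, nW = n - h := ⟨_, rfl⟩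
  have hnW0 : NeZero nW := ⟨by omega⟩
  -- the placement
  let Sz : V → Finset {w // w ∈ univ \ Z} :=
    fun z => univ.filter (fun w => G.Adj z w.1 ∧ z ∈ out w.1)
  have hSz : ∀ z w, w ∈ Sz z ↔ G.Adj z w.1 ∧ z ∈ out w.1 := by
    intro z w
    simp only [Sz, Finset.mem_filter, Finset.mem_univ, true_and]
  obtain ⟨π, hπ⟩ := placementD' nW E (by
    rw [Fintype.card_coe, Finset.card_sdiff_of_subset (Finset.subset_univ _), Finset.card_univ,
      ← hnn, ← hh, hnW]) Z Sz (by
    intro w Y' _ hY'
    refine le_trans (Finset.card_le_card ?_) (hD w.1)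
    intro z hz
    exact ((hSz z w).mp (hY' z hz)).2)
  let p : V → ZMod nW := fun x => if hx : x ∈ univ \ Z then π ⟨x, hx⟩ else 0
  let q : ZMod nW → V := fun a => (π.symm a).1
  have hq : ∀ a, q a ∉ Z := fun a => (Finset.mem_sdiff.mp (π.symm a).2).2
  have hpq : ∀ a, p (q a) = a := by
    intro a
    simp only [p, q]
    rw [dif_pos (π.symm a).2]
    simp
  have hqp : ∀ x, x ∉ Z → q (p x) = x := by
    intro x hx
    have hx' : x ∈ univ \ Z := Finset.mem_sdiff.mpr ⟨Finset.mem_univ _, hx⟩
    simp only [p, q]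
    rw [dif_pos hx', π.symm_apply_apply]
  have hqinj : Function.Injective q := fun a a' h' => by rw [← hpq a, ← hpq a', h']
  -- the neighbours of a vertex in a block
  have hblock : ∀ z ∈ Z, ∀ j < 4, ∀ T : Finset (ZMod nW),
      (∀ a ∈ T, G.Adj z (q a) ∧ inBlock nW j a) → 4 * T.card ≤ dg G z + 204 * E := by
    intro z hz j hj T hT
    let T1 : Finset (ZMod nW) := T.filter (fun a => z ∈ out (q a))
    let T2 : Finset (ZMod nW) := T.filter (fun a => ¬ z ∈ out (q a))
    have hT12 : T1.card + T2.card = T.card :=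
      Finset.card_filter_add_card_filter_not (s := T) (fun a => z ∈ out (q a))
    have hT2 : T2.card ≤ E := by
      refine le_trans ?_ (hD z)
      refine Finset.card_le_card_of_injOn q ?_ (hqinj.injOn)
      intro a ha
      rw [Finset.mem_coe] at ha
      simp only [T2, Finset.mem_filter] at ha
      exact (hout z (q a) (hT a ha.1).1).resolve_right ha.2
    have hT1 : 4 * T1.card ≤ dg G z + 100 * (E + 1) := by
      have hU : (Sz z).card ≤ dg G z := by
        unfold dg
        refine Finset.card_le_card_of_injOn (fun w => w.1) ?_ ?_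
        · intro w hw
          rw [Finset.mem_coe, hSz] at hw
          rw [Finset.mem_coe, mem_nb]
          exact hw.1
        · intro a _ b _ hab
          exact Subtype.ext hab
      have h1 := hπ z hz j hj (T1.image π.symm) (by
        intro w hw
        obtain ⟨a, ha, rfl⟩ := Finset.mem_image.mp hw
        simp only [T1, Finset.mem_filter] at ha
        have h2 := hT a ha.1
        rw [hSz, π.apply_symm_apply]
        exact ⟨⟨h2.1, ha.2⟩, h2.2⟩)
      rw [Finset.card_image_of_injective _ π.symm.injective] at h1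
      omega
    omega
  -- the protected neighbours
  have hPex : ∀ z, ∃ P : Finset V, z ∈ Z → P ⊆ nb G z ∧ mP ≤ P.card ∧ P.card ≤ mP + (c + 4) ∧
      ∀ v, v ≠ z → c + 4 ≤ (P \ nb G v).card ∨ (nb G z \ nb G v).card < c + 4 := by
    intro z
    by_cases hz : z ∈ Z
    · have h2 := (hZ z).mp hz
      obtain ⟨P, hP⟩ := exists_protected G s c mP hK3 (by omega) z (by omega)
      exact ⟨P, fun _ => hP⟩
    · exact ⟨∅, fun h' => absurd h' hz⟩
  choose P hP using hPex
  let PP : Finset V := Z.biUnion P
  have hPP : PP.card ≤ h * (mP + (c + 4)) := by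
    refine le_trans Finset.card_biUnion_le ?_
    refine le_trans (Finset.sum_le_sum (fun z hz => (hP z hz).2.2.1)) ?_
    rw [Finset.sum_const, smul_eq_mul, ← hh]
  have hPPmem : ∀ z ∈ Z, ∀ w ∈ P z, w ∈ PP := fun z hz w hw =>
    Finset.mem_biUnion.mpr ⟨z, hz, hw⟩
  -- the demands
  obtain ⟨ext, hext1, hext2, hext3, hext4⟩ := exists_ext G k s hK3 (by omega)
  let dem : V → ℕ := fun z => (k - dg G z) + ext z
  have hdem1 : ∀ z, dem z = (k - dg G z) + ext z := fun z => rfl
  have hdemk : ∀ z, 1 ≤ dem z → dg G z ≤ k := by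
    intro z hz
    rw [hdem1] at hz
    by_cases h1 : 1 ≤ ext z
    · exact (hext2 z h1).le
    · omega
  have hdem2 : ∀ z, dg G z ≤ k → dg G z + dem z ≤ k + 1 := by
    intro z hz
    have h1 := hext1 z
    rw [hdem1]
    omega
  -- the twins
  let tw : V → Finset V := fun z => univ.filter
    (fun v => v ≠ z ∧ (nb G z \ nb G v).card < c + 4 ∧ (nb G v \ nb G z).card < c + 4)
  have htw : ∀ z v, v ∈ tw z ↔
      v ≠ z ∧ (nb G z \ nb G v).card < c + 4 ∧ (nb G v \ nb G z).card < c + 4 := by
    intro z v
    simp only [tw, Finset.mem_filter, Finset.mem_univ, true_and]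
  have htwcard : ∀ z ∈ Z, (nb G z ∪ (tw z).biUnion (fun v => nb G v)).card
      ≤ dg G z + (c + 4) := by
    intro z hz
    have h0 := (hZ z).mp hz
    by_cases h1 : ∃ v, v ∈ tw z
    · obtain ⟨v, hv⟩ := h1
      have h2 : nb G z ∪ (tw z).biUnion (fun v => nb G v) ⊆ nb G z ∪ (nb G v \ nb G z) := by
        intro w hw
        rw [Finset.mem_union, Finset.mem_biUnion] at hw
        rw [Finset.mem_union, Finset.mem_sdiff]
        by_cases h3 : w ∈ nb G z
        · exact Or.inl h3
        · right
          refine ⟨?_, h3⟩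
          rcases hw with hw | ⟨v', hv', hw⟩
          · exact absurd hw h3
          · have h4 := (htw z v).mp hv
            have h5 := (htw z v').mp hv'
            rw [twin_unique G s (c + 4) hK3 z v v' (by omega) h4.1 h5.1 h4.2.1 h5.2.1]
            exact hw
      have h3 := Finset.card_le_card h2
      have h4 := Finset.card_union_le (nb G z) (nb G v \ nb G z)
      have h5 := (htw z v).mp hv
      have h6 : (nb G z).card = dg G z := rfl
      omega
    · have h2 : nb G z ∪ (tw z).biUnion (fun v => nb G v) = nb G z := by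
        ext w
        rw [Finset.mem_union, Finset.mem_biUnion]
        constructor
        · rintro (h3 | ⟨v, hv, _⟩)
          · exact h3
          · exact absurd ⟨v, hv⟩ h1
        · exact Or.inl
      rw [h2]
      exact Nat.le_add_right _ _
  -- the reserved sets
  let Bz : V → Finset V := fun z => if dem z = 0 then ∅ else
    Z ∪ (nb G z ∪ (tw z).biUnion (fun v => nb G v)) ∪ PP
  let qz : V → ℕ := fun z => min (dem z) (c + 4)
  have hsumq : ∑ z ∈ Z, qz z ≤ h * (c + 4) := by
    refine le_trans (Finset.sum_le_sum (fun z _ => min_le_right (dem z) (c + 4))) ?_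
    rw [Finset.sum_const, smul_eq_mul, ← hh]
  have hhpp : h * (mP + (c + 4)) + h * (c + 4) + h ≤ h * pp := by
    have h1 : h * (mP + (c + 4)) + h * (c + 4) + h = h * (mP + (c + 4) + (c + 4) + 1) := by ring
    rw [h1]
    exact Nat.mul_le_mul_left _ (by omega)
  have hEhpp : h * pp ≤ E * (h * pp) := Nat.le_mul_of_pos_left _ (by omega)
  obtain ⟨R, hR1, hR2⟩ := exists_reserved Z Bz qz (by
    intro z hz
    by_cases h0 : dem z = 0
    · simp only [Bz]
      rw [if_pos h0, Finset.card_empty]
      omega
    · simp only [Bz]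
      rw [if_neg h0]
      have h1 := Finset.card_union_le (Z ∪ (nb G z ∪ (tw z).biUnion (fun v => nb G v))) PP
      have h2 := Finset.card_union_le Z (nb G z ∪ (tw z).biUnion (fun v => nb G v))
      have h3 := htwcard z hz
      have h4 := hdemk z (by omega)
      have h5 := hgap (c + 4 + h * pp) (by
        have h6 : E * (c + 4 + h * pp) = E * c + 4 * E + E * (h * pp) := by ring
        have h7 : c ≤ δ := by omega
        have h8 : E * c ≤ E * δ := Nat.mul_le_mul_left _ h7
        omega)
      omega)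
  have hR3 : ∀ z ∈ Z, ∀ w ∈ R z, 1 ≤ dem z ∧ w ∉ Z ∧ w ∉ nb G z ∧
      (∀ v ∈ tw z, w ∉ nb G v) ∧ w ∉ PP := by
    intro z hz w hw
    have h1 := hR1 z hz
    have h2 : 0 < (R z).card := Finset.card_pos.mpr ⟨w, hw⟩
    rw [h1.2] at h2
    have h3 : 0 < dem z := lt_of_lt_of_le h2 (min_le_left _ _)
    have h4 : w ∉ Bz z := fun h => (Finset.disjoint_left.mp h1.1) hw h
    simp only [Bz] at h4
    rw [if_neg (by omega), Finset.mem_union, Finset.mem_union, Finset.mem_union,
      Finset.mem_biUnion, not_or, not_or, not_or] at h4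
    refine ⟨h3, h4.1.1, h4.1.2.1, ?_, h4.2⟩
    intro v hv hw'
    exact h4.1.2.2 ⟨v, hv, hw'⟩
  let RR : Finset V := Z.biUnion R
  have hRR : RR.card ≤ h * (c + 4) := by
    rw [hh]
    refine Finset.card_biUnion_le_card_mul _ _ _ ?_
    intro z hz
    rw [(hR1 z hz).2]
    exact min_le_right _ _
  have hNRR : ∀ z ∈ Z, ∀ w ∈ R z, w ∈ RR := fun z hz w hw =>
    Finset.mem_biUnion.mpr ⟨z, hz, hw⟩
  -- the remaining new edges
  let rem : V → ℕ := fun z => dem z - qz z
  have hrem : ∀ z, rem z + qz z = dem z := fun z =>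
    Nat.sub_add_cancel (min_le_left (dem z) (c + 4))
  obtain ⟨sat, hsat⟩ : ∃ sat, sat = n / (10000 * E) := ⟨_, rfl⟩
  have hsat1 : 10000 * (E * sat) ≤ n := by
    have h1 : 10000 * E * sat ≤ n := by
      rw [hsat]
      exact Nat.mul_div_le n _
    have h2 : 10000 * E * sat = 10000 * (E * sat) := by ring
    omega
  have hsat2 : n < 10000 * E * (sat + 1) := by
    rw [hsat]
    exact Nat.lt_mul_div_succ n (by omega)
  let A : V → ℕ → Finset V := fun z j =>
    ((univ : Finset (ZMod nW)).filter
      (fun a => inBlock nW j a ∧ ¬ G.Adj z (q a) ∧ q a ∉ PP ∧ q a ∉ RR)).image q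
  have hA : ∀ z j w, w ∈ A z j ↔
      w ∉ Z ∧ inBlock nW j (p w) ∧ ¬ G.Adj z w ∧ w ∉ PP ∧ w ∉ RR := by
    intro z j w
    simp only [A, Finset.mem_image, Finset.mem_filter, Finset.mem_univ, true_and]
    constructor
    · rintro ⟨a, ⟨h1, h2, h3, h4⟩, rfl⟩
      rw [hpq]
      exact ⟨hq a, h1, h2, h3, h4⟩
    · rintro ⟨h1, h2, h3, h4, h5⟩
      refine ⟨p w, ?_, hqp w h1⟩
      rw [hqp w h1]
      exact ⟨h2, h3, h4, h5⟩
  let Z' : Finset V := Z.filter (fun z => 1 ≤ rem z)
  have hZ' : ∀ z, z ∈ Z' ↔ z ∈ Z ∧ 1 ≤ rem z := by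
    intro z
    simp only [Z', Finset.mem_filter]
  let dm : V → ℕ → ℕ := fun z j => (rem z + j) / 4
  have hdm : ∀ z, ∑ j ∈ range 4, dm z j = rem z := by
    intro z
    simp only [dm, Finset.sum_range_succ, Finset.sum_range_zero]
    omega
  have hdm4 : ∀ z j, j < 4 → 4 * dm z j ≤ rem z + 3 := by
    intro z j hj
    simp only [dm]
    omega
  obtain ⟨N, hN1, hN2, hN3⟩ := greedy Z' A dm l sat
    (by
      intro z _ i _ j _ hij
      rw [Finset.disjoint_left]
      intro w h1 h2
      rw [hA] at h1 h2
      exact hij (inBlock_unique h1.2.1 h2.2.1))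
    (by
      intro z hz j hj
      rw [hZ'] at hz
      have h1 : (A z j).card = ((univ : Finset (ZMod nW)).filter
          (fun a => inBlock nW j a ∧ ¬ G.Adj z (q a) ∧ q a ∉ PP ∧ q a ∉ RR)).card :=
        Finset.card_image_of_injective _ hqinj
      have h2 := card_block nW j hj
      let T : Finset (ZMod nW) := univ.filter (fun a => inBlock nW j a ∧ G.Adj z (q a))
      have h3 : 4 * T.card ≤ dg G z + 204 * E := by
        refine hblock z hz.1 j hj T ?_
        intro a ha
        simp only [T, Finset.mem_filter, Finset.mem_univ, true_and] at ha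
        exact ⟨ha.2, ha.1⟩
      let T' : Finset (ZMod nW) := univ.filter (fun a => q a ∈ PP ∪ RR)
      have h4 : T'.card ≤ (PP ∪ RR).card := by
        refine Finset.card_le_card_of_injOn q ?_ (hqinj.injOn)
        intro a ha
        rw [Finset.mem_coe] at ha
        simp only [T', Finset.mem_filter, Finset.mem_univ, true_and] at ha
        exact ha
      have h4' := Finset.card_union_le PP RR
      have h5 : (univ.filter (fun x : ZMod nW => inBlock nW j x)) ⊆
          (((univ : Finset (ZMod nW)).filter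
            (fun a => inBlock nW j a ∧ ¬ G.Adj z (q a) ∧ q a ∉ PP ∧ q a ∉ RR)) ∪ T) ∪ T' := by
        intro a ha
        simp only [Finset.mem_filter, Finset.mem_univ, true_and] at ha
        simp only [Finset.mem_union, T, T', Finset.mem_filter, Finset.mem_univ, true_and]
        by_cases h6 : G.Adj z (q a)
        · exact Or.inl (Or.inr ⟨ha, h6⟩)
        · by_cases h7 : q a ∈ PP
          · exact Or.inr (Or.inl h7)
          · by_cases h8 : q a ∈ RR
            · exact Or.inr (Or.inr h8)
            · exact Or.inl (Or.inl ⟨ha, h6, h7, h8⟩)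
      have h6 := Finset.card_le_card h5
      have h7 := Finset.card_union_le (((univ : Finset (ZMod nW)).filter
            (fun a => inBlock nW j a ∧ ¬ G.Adj z (q a) ∧ q a ∉ PP ∧ q a ∉ RR)) ∪ T) T'
      have h8 := Finset.card_union_le ((univ : Finset (ZMod nW)).filter
            (fun a => inBlock nW j a ∧ ¬ G.Adj z (q a) ∧ q a ∉ PP ∧ q a ∉ RR)) T
      have h9 := hdm4 z j hj
      have h10 := hrem z
      have h11 := hdemk z (by omega)
      have h12 := hdem2 z h11
      have h13 := hgap (8 + 4 * sat + 204 * E + 4 * (h * pp) + h) (by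
        have h14 : E * (8 + 4 * sat + 204 * E + 4 * (h * pp) + h)
            = 8 * E + 4 * (E * sat) + 204 * (E * E) + 4 * (E * (h * pp)) + E * h := by ring
        omega)
      omega)
    (by
      have h1 : ∑ z ∈ Z', ∑ j ∈ range 4, dm z j ≤ ∑ z ∈ Z', (k + 1) := by
        refine Finset.sum_le_sum (fun z _ => ?_)
        rw [hdm]
        have h2 := hrem z
        have h3 := hdem1 z
        have h4 := hext1 z
        omega
      have h2 : ∑ z ∈ Z', (k + 1) ≤ ∑ z ∈ Z, (k + 1) :=
        Finset.sum_le_sum_of_subset (Finset.filter_subset _ _)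
      rw [Finset.sum_const (s := Z), smul_eq_mul, ← hh] at h2
      have h3 : h * (k + 1) ≤ 2 * (k * h) := by
        have h4 : h * (k + 1) = k * h + h := by ring
        have h5 : h ≤ k * h := Nat.le_mul_of_pos_left _ (by omega)
        omega
      have h4 : 2 * (k * h) ≤ 4 * (C * (E * n)) := by omega
      have h5 : n ≤ 20000 * (E * sat) := by
        have h6 : 10000 * E * (sat + 1) = 10000 * (E * sat) + 10000 * E := by ring
        omega
      have h6 : 4 * (C * (E * n)) ≤ l * sat := by
        calc 4 * (C * (E * n)) ≤ 4 * (C * (E * (20000 * (E * sat)))) :=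
              Nat.mul_le_mul_left _ (Nat.mul_le_mul_left _ (Nat.mul_le_mul_left _ h5))
          _ = l * sat := by
              rw [hl]
              ring
      omega)
  let N' : V → Finset V := fun z => (if z ∈ Z' then N z else ∅) ∪ R z
  have hN'mem : ∀ z w, w ∈ N' z ↔ (z ∈ Z' ∧ w ∈ N z) ∨ w ∈ R z := by
    intro z w
    simp only [N', Finset.mem_union]
    split_ifs with h1
    · simp [h1]
    · simp [h1]
  have hNA : ∀ z ∈ Z', ∀ w ∈ N z, w ∉ Z ∧ ¬ G.Adj z w ∧ w ∉ PP ∧ w ∉ RR := by
    intro z hz w hw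
    obtain ⟨j, _, hj⟩ := hN1 z hz w hw
    rw [hA] at hj
    exact ⟨hj.1, hj.2.2.1, hj.2.2.2.1, hj.2.2.2.2⟩
  have hN'1 : ∀ z ∈ Z, ∀ w, w ∈ N' z → w ∉ Z ∧ ¬ G.Adj z w ∧ w ∉ PP := by
    intro z hz w hw
    rcases (hN'mem z w).mp hw with ⟨h1, h2⟩ | h1
    · have h3 := hNA z h1 w h2
      exact ⟨h3.1, h3.2.1, h3.2.2.1⟩
    · have h2 := hR3 z hz w h1
      exact ⟨h2.2.1, fun h' => h2.2.2.1 (mem_nb.mpr h'), h2.2.2.2.2⟩
  have hNcard : ∀ z ∈ Z', (N z).card = rem z := by
    intro z h1
    have h2 : N z = (range 4).biUnion (fun j => N z ∩ A z j) := by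
      ext w
      rw [Finset.mem_biUnion]
      constructor
      · intro hw
        obtain ⟨j, hj, hwj⟩ := hN1 z h1 w hw
        exact ⟨j, Finset.mem_range.mpr hj, Finset.mem_inter.mpr ⟨hw, hwj⟩⟩
      · rintro ⟨j, _, hw⟩
        exact (Finset.mem_inter.mp hw).1
    rw [h2, Finset.card_biUnion, Finset.sum_congr rfl
      (fun j hj => hN2 z h1 j (Finset.mem_range.mp hj)), hdm]
    intro i _ j _ hij
    show Disjoint (N z ∩ A z i) (N z ∩ A z j)
    rw [Finset.disjoint_left]
    intro w h3 h4
    have h5 := (hA z i w).mp (Finset.mem_inter.mp h3).2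
    have h6 := (hA z j w).mp (Finset.mem_inter.mp h4).2
    exact hij (inBlock_unique h5.2.1 h6.2.1)
  have hN'card : ∀ z ∈ Z, (N' z).card = dem z := by
    intro z hz
    simp only [N']
    split_ifs with h1
    · rw [Finset.card_union_of_disjoint, hNcard z h1, (hR1 z hz).2]
      · exact hrem z
      · rw [Finset.disjoint_left]
        intro w h2 h3
        exact (hNA z h1 w h2).2.2.2 (hNRR z hz w h3)
    · rw [Finset.empty_union, (hR1 z hz).2]
      rw [hZ', not_and, not_le] at h1
      have h2 := h1 hz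
      have h3 := hrem z
      omega
  have hN'2 : ∀ z ∈ Z, dg G z + (N' z).card = max k (dg G z) + ext z := by
    intro z hz
    rw [hN'card z hz, hdem1]
    omega
  have hN'3 : ∀ w, w ∉ Z → (Z.filter (fun z => G.Adj w z ∨ w ∈ N' z)).card
      ≤ δ + l + 1 := by
    intro w hw
    have h1 : Z.filter (fun z => G.Adj w z ∨ w ∈ N' z) ⊆
        (nb G w ∪ Z'.filter (fun z => w ∈ N z)) ∪ Z.filter (fun z => w ∈ R z) := by
      intro z hz
      obtain ⟨hz1, hz2⟩ := Finset.mem_filter.mp hz
      rcases hz2 with h2 | h2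
      · exact Finset.mem_union_left _ (Finset.mem_union_left _ (mem_nb.mpr h2))
      · rcases (hN'mem z w).mp h2 with h3 | h3
        · exact Finset.mem_union_left _ (Finset.mem_union_right _ (Finset.mem_filter.mpr h3))
        · exact Finset.mem_union_right _ (Finset.mem_filter.mpr ⟨hz1, h3⟩)
    have h2 := Finset.card_le_card h1
    have h3 := Finset.card_union_le (nb G w ∪ Z'.filter (fun z => w ∈ N z))
      (Z.filter (fun z => w ∈ R z))
    have h3' := Finset.card_union_le (nb G w) (Z'.filter (fun z => w ∈ N z))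
    have h4 := hN3 w
    have h5 : (nb G w).card ≤ δ := by
      rw [hZ, not_lt] at hw
      exact hw
    have h6 : (Z.filter (fun z => w ∈ R z)).card ≤ 1 := by
      rw [Finset.card_le_one]
      intro a ha b hb
      rw [Finset.mem_filter] at ha hb
      by_contra hab
      exact (Finset.disjoint_left.mp (hR2 a ha.1 b hb.1 hab)) ha.2 hb.2
    omega
  -- the numbers
  obtain ⟨d, hd⟩ : ∃ d, d = δ + l + 1 := ⟨_, rfl⟩
  obtain ⟨K, hK1, hK2⟩ := exists_pow_two (12 * d + 36) (by omega)
  obtain ⟨N0, hN0⟩ : ∃ N0, N0 = 2 ^ K := ⟨_, rfl⟩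
  obtain ⟨s₀, hs₀⟩ : ∃ s₀, s₀ = N0 - (d + 8) := ⟨_, rfl⟩
  obtain ⟨b, hb⟩ : ∃ b, b = 3 * (4 * d + 16 + (2 * s₀ + d) + 1) + 2 := ⟨_, rfl⟩
  obtain ⟨m, hm⟩ : ∃ m, m = 2 * b := ⟨_, rfl⟩
  obtain ⟨r, hr⟩ : ∃ r, r = k / 2 := ⟨_, rfl⟩
  rw [← hN0] at hK1 hK2
  have hdδ : d ≤ 2 * δ := by omega
  have hEd : E * d ≤ 2 * (E * δ) := by
    have h1 := Nat.mul_le_mul_left E hdδ
    have h2 : E * (2 * δ) = 2 * (E * δ) := by ring
    omega
  have hdEd : d ≤ E * d := Nat.le_mul_of_pos_left _ (by omega)
  have hgap2 := hgap (5000 * d + 14000 + 300 * E + 20 * (c + 4) + h) (by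
    have h1 : E * (5000 * d + 14000 + 300 * E + 20 * (c + 4) + h)
        = 5000 * (E * d) + 14080 * E + 300 * (E * E) + 20 * (E * c) + E * h := by ring
    have h2 : 100 * c ≤ δ := by omega
    have h3 : E * (100 * c) ≤ E * δ := Nat.mul_le_mul_left _ h2
    have h4 : E * (100 * c) = 100 * (E * c) := by ring
    omega)
  obtain ⟨H, hH1, hH2, hH3, hH4, hH5, hH6, hH7⟩ := assembleD G Z N' ext nW p q hq hpq hqp
    d k r K s₀ b m
    (by
      intro v hv
      rw [hZ, not_lt] at hv
      omega)
    (fun z hz w hw => ⟨(hN'1 z hz w hw).1, (hN'1 z hz w hw).2.1⟩) hN'2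
    (fun w hw => by rw [hd]; exact hN'3 w hw) (by omega) (by omega) (by omega) (by omega) hb hm
    (by omega) (by omega)
  refine ⟨H, hH1, ?_, by omega⟩
  have hGH : ∀ v, nb G v ⊆ nb H v := by
    intro v w hw
    rw [mem_nb] at hw ⊢
    exact hH1 hw
  -- hubs with a private protected neighbour
  have hfirst : ∀ z ∈ Z, ∀ v ∈ Z, c + 4 ≤ (P z \ nb G v).card →
      k + c + 2 ≤ (nb H z ∪ nb H v).card := by
    intro z hz v hv hcard
    have h1 : P z \ nb G v ⊆ nb H z \ nb H v := by
      intro w hw
      rw [Finset.mem_sdiff] at hw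
      rw [Finset.mem_sdiff]
      refine ⟨hGH z ((hP z hz).1 hw.1), ?_⟩
      rw [mem_nb, hH2 v hv]
      rintro (h3 | h3)
      · exact hw.2 (mem_nb.mpr h3)
      · exact (hN'1 v hv w h3).2.2 (hPPmem z hz w hw.1)
    have h2 := Finset.card_le_card h1
    have h5 := Finset.card_sdiff_add_card (nb H z) (nb H v)
    have h6 : k ≤ (nb H v).card := hH3 v
    omega
  -- hubs with many private new neighbours
  have hfirst2 : ∀ z ∈ Z, ∀ v ∈ Z, v ∈ tw z → c + 4 ≤ dem z →
      k + c + 2 ≤ (nb H z ∪ nb H v).card := by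
    intro z hz v hv hvtw hcard
    have hvz : v ≠ z := ((htw z v).mp hvtw).1
    have h1 : R z ⊆ nb H z \ nb H v := by
      intro w hw
      have h2 := hR3 z hz w hw
      rw [Finset.mem_sdiff, mem_nb, mem_nb, hH2 z hz, hH2 v hv]
      refine ⟨Or.inr ((hN'mem z w).mpr (Or.inr hw)), ?_⟩
      rintro (h3 | h3)
      · exact h2.2.2.2.1 v hvtw (mem_nb.mpr h3)
      · rcases (hN'mem v w).mp h3 with h4 | h4
        · exact (hNA v h4.1 w h4.2).2.2.2 (hNRR z hz w hw)
        · exact (Finset.disjoint_left.mp (hR2 z hz v hv hvz.symm)) hw h4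
    have h2 := Finset.card_le_card h1
    have h3 : (R z).card = min (dem z) (c + 4) := (hR1 z hz).2
    rw [min_eq_right hcard] at h3
    have h5 := Finset.card_sdiff_add_card (nb H z) (nb H v)
    have h6 : k ≤ (nb H v).card := hH3 v
    omega
  -- windows
  have hwin : ∀ u, u ∉ Z → ∀ U : Finset V,
      (∀ j < 4, ∀ T : Finset (ZMod nW), (∀ a ∈ T, q a ∈ U ∧ inBlock nW j a) →
        4 * T.card ≤ k + (204 * E + 14 * (c + 4))) → c + 2 ≤ (nb H u \ U).card := by
    intro u hu U hU
    obtain ⟨T, hT1, hT2⟩ := hH7 u hu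
    obtain ⟨g, hg⟩ : ∃ g, g = 204 * E + 14 * (c + 4) := ⟨_, rfl⟩
    obtain ⟨y, hy⟩ : ∃ y, y = 50 * d + 144 + (c + 4) := ⟨_, rfl⟩
    let NU : Finset (ZMod nW) := univ.filter (fun a => q a ∈ U)
    have hNU : ∀ a, a ∈ NU ↔ q a ∈ U := by
      intro a
      simp only [NU, Finset.mem_filter, Finset.mem_univ, true_and]
    have hcd : 100 * c ≤ d := by omega
    have hEd2 : 1000 * E ≤ d := by omega
    have h0 := block_window nW r k g y NU (by omega) (by omega)
      (by
        intro j hj
        rw [hg]
        refine hU j hj _ ?_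
        intro a ha
        rw [Finset.mem_filter, hNU] at ha
        exact ha)
      (by omega) (by omega) (p u)
    have h1 : ((ball r (p u) \ NU) \ T).image q ⊆ nb H u \ U := by
      intro w hw
      obtain ⟨a, ha, rfl⟩ := Finset.mem_image.mp hw
      rw [Finset.mem_sdiff, Finset.mem_sdiff, hNU] at ha
      rw [Finset.mem_sdiff, mem_nb]
      exact ⟨hT2 a ha.1.1 ha.2, ha.1.2⟩
    have h2 := Finset.card_le_card h1
    rw [Finset.card_image_of_injective _ hqinj] at h2
    have h3 := Finset.le_card_sdiff T (ball r (p u) \ NU)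
    rw [← hN0] at hT1
    omega
  -- the neighbours of a hub in a block
  have hblk : ∀ z ∈ Z, dg G z ≤ k + c + 2 → ∀ j < 4, ∀ T : Finset (ZMod nW),
      (∀ a ∈ T, q a ∈ nb H z ∧ inBlock nW j a) →
      4 * T.card ≤ k + (204 * E + 5 * (c + 4) + 4) := by
    intro z hz hdz j hj T hT
    let T1 : Finset (ZMod nW) := T.filter (fun a => q a ∈ nb G z)
    let T2 : Finset (ZMod nW) := T.filter (fun a => ¬ q a ∈ nb G z)
    have h1 : T1.card + T2.card = T.card :=
      Finset.card_filter_add_card_filter_not (s := T) (fun a => q a ∈ nb G z)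
    have h2 : 4 * T1.card ≤ dg G z + 204 * E := by
      refine hblock z hz j hj T1 ?_
      intro a ha
      simp only [T1, Finset.mem_filter, mem_nb] at ha
      exact ⟨ha.2, (hT a ha.1).2⟩
    have h3 : T2.card ≤ dm z j + (R z).card := by
      have h4 : T2.image q ⊆ (if z ∈ Z' then N z ∩ A z j else ∅) ∪ R z := by
        intro w hw
        obtain ⟨a, ha, rfl⟩ := Finset.mem_image.mp hw
        simp only [T2, Finset.mem_filter, mem_nb] at ha
        have h5 := hT a ha.1
        rw [mem_nb, hH2 z hz] at h5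
        have h6 := h5.1.resolve_left ha.2
        rw [Finset.mem_union]
        rcases (hN'mem z _).mp h6 with h7 | h7
        · left
          rw [if_pos h7.1, Finset.mem_inter, hA, hpq]
          have h8 := hNA z h7.1 _ h7.2
          exact ⟨h7.2, h8.1, h5.2, h8.2.1, h8.2.2.1, h8.2.2.2⟩
        · exact Or.inr h7
      have h5 := Finset.card_le_card h4
      rw [Finset.card_image_of_injective _ hqinj] at h5
      have h6 := Finset.card_union_le (if z ∈ Z' then N z ∩ A z j else ∅) (R z)
      have h7 : (if z ∈ Z' then N z ∩ A z j else ∅).card ≤ dm z j := by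
        split_ifs with h8
        · exact (hN2 z h8 j hj).le
        · simp
      omega
    have h4 := hdm4 z j hj
    have h5 : (R z).card = qz z := (hR1 z hz).2
    have h6 : qz z ≤ c + 4 := min_le_right _ _
    have h7 := hrem z
    by_cases h8 : dg G z ≤ k
    · have h9 := hdem2 z h8
      omega
    · have h9 : dem z = 0 := by
        by_contra h10
        exact h8 (hdemk z (by omega))
      omega
  refine sep_hubsD H (univ \ Z) k c hH3 hH6 ?_ ?_
  · intro S hS hScard
    have hSZ : ∀ v ∈ S, v ∈ Z := by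
      intro v hv
      have h1 := hS v hv
      rw [Finset.mem_sdiff, not_and, not_not] at h1
      exact h1 (Finset.mem_univ _)
    have h1 := card_union_in G out E hD hout S (δ + 1) (fun z hz => (hZ z).mp (hSZ z hz))
    have h2 : ((S.biUnion (fun z => nb G z)) \ S).card
        ≤ ((S.biUnion (fun z => nb H z)) \ S).card := by
      refine Finset.card_le_card (Finset.sdiff_subset_sdiff ?_ (Finset.Subset.refl _))
      exact Finset.biUnion_mono (fun z _ => hGH z)
    by_contra hcon
    have h3 : ((S.biUnion (fun z => nb G z)) \ S).card ≤ k := by omega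
    have h4 : E * ((S.biUnion (fun z => nb G z)) \ S).card ≤ E * k := Nat.mul_le_mul_left _ h3
    have h5 : 4 * E * S.card ≤ S.card * (δ + 1) := by
      rw [Nat.mul_comm (4 * E)]
      exact Nat.mul_le_mul_left _ (by omega)
    have h6 : (c + 1) * (δ + 1) ≤ S.card * (δ + 1) := Nat.mul_le_mul_right _ hScard
    have h7 : (c + 1) * (δ + 1) = 2 * (E * (C * (δ + 1))) + (δ + 1) := by
      rw [hc]
      ring
    have h8 : E * k ≤ E * (C * (δ + 1)) := Nat.mul_le_mul_left _ hδ2.le
    have h9 : 4 * E * S.card = 2 * (2 * E * S.card) := by ring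
    omega
  · intro z v hz hvz
    have hzZ : z ∈ Z := by
      rw [Finset.mem_sdiff, not_and, not_not] at hz
      exact hz (Finset.mem_univ _)
    have hdz := hH4 z hzZ
    have hdz' : (nb H z).card = max k (dg G z) + ext z := hdz
    by_cases hbig : k + c + 2 ≤ dg G z
    · left
      have h1 := Finset.card_le_card (Finset.subset_union_left : nb H z ⊆ nb H z ∪ nb H v)
      have h2 := le_max_right k (dg G z)
      omega
    by_cases hv : v ∈ Z
    · -- two hubs
      by_cases h1 : c + 4 ≤ (P z \ nb G v).card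
      · exact Or.inl (hfirst z hzZ v hv h1)
      by_cases h2 : c + 4 ≤ (P v \ nb G z).card
      · left
        rw [Finset.union_comm]
        exact hfirst v hv z hzZ h2
      have h3 : (nb G z \ nb G v).card < c + 4 :=
        ((hP z hzZ).2.2.2 v hvz).resolve_left h1
      have h4 : (nb G v \ nb G z).card < c + 4 :=
        ((hP v hv).2.2.2 z hvz.symm).resolve_left h2
      have htw1 : v ∈ tw z := (htw z v).mpr ⟨hvz, h3, h4⟩
      have htw2 : z ∈ tw v := (htw v z).mpr ⟨hvz.symm, h4, h3⟩
      by_cases h5 : c + 4 ≤ dem z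
      · exact Or.inl (hfirst2 z hzZ v hv htw1 h5)
      by_cases h6 : c + 4 ≤ dem v
      · left
        rw [Finset.union_comm]
        exact hfirst2 v hv z hzZ htw2 h6
      right
      have hRz : (R z).card = dem z := by
        have h7 : (R z).card = min (dem z) (c + 4) := (hR1 z hzZ).2
        rw [h7]
        exact min_eq_left (by omega)
      have hRv : (R v).card = dem v := by
        have h7 : (R v).card = min (dem v) (c + 4) := (hR1 v hv).2
        rw [h7]
        exact min_eq_left (by omega)
      have hzZ' : z ∉ Z' := by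
        rw [hZ', not_and]
        intro _ h7
        have h8 := hrem z
        have h9 : qz z = dem z := min_eq_left (by omega)
        omega
      have hvZ' : v ∉ Z' := by
        rw [hZ', not_and]
        intro _ h7
        have h8 := hrem v
        have h9 : qz v = dem v := min_eq_left (by omega)
        omega
      refine ⟨?_, ?_⟩
      · -- the pair itself
        obtain ⟨S, hS⟩ : ∃ S, S = (nb G z ∪ nb G v) \ {z, v} := ⟨_, rfl⟩
        have hSmem : ∀ w, w ∈ S ↔ (G.Adj z w ∨ G.Adj v w) ∧ w ≠ z ∧ w ≠ v := by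
          intro w
          rw [hS, Finset.mem_sdiff, Finset.mem_union, mem_nb, mem_nb, Finset.mem_insert,
            Finset.mem_singleton, not_or]
        have e1 : (S ∪ (R z ∪ R v)).card = S.card + (dem z + dem v) := by
          rw [Finset.card_union_of_disjoint, Finset.card_union_of_disjoint, hRz, hRv]
          · exact hR2 z hzZ v hv hvz.symm
          · rw [Finset.disjoint_left]
            intro w hw hw'
            rw [hSmem] at hw
            rw [Finset.mem_union] at hw'
            rcases hw' with hw' | hw'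
            · have h7 := hR3 z hzZ w hw'
              rcases hw.1 with h8 | h8
              · exact h7.2.2.1 (mem_nb.mpr h8)
              · exact h7.2.2.2.1 v htw1 (mem_nb.mpr h8)
            · have h7 := hR3 v hv w hw'
              rcases hw.1 with h8 | h8
              · exact h7.2.2.2.1 z htw2 (mem_nb.mpr h8)
              · exact h7.2.2.1 (mem_nb.mpr h8)
        have e2 : S ∪ (R z ∪ R v) ⊆ (nb H z ∪ nb H v) \ {z, v} := by
          intro w hw
          rw [Finset.mem_union, Finset.mem_union] at hw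
          rw [Finset.mem_sdiff, Finset.mem_union, mem_nb, mem_nb, Finset.mem_insert,
            Finset.mem_singleton, not_or]
          rcases hw with hw | hw | hw
          · rw [hSmem] at hw
            exact ⟨hw.1.imp (fun h => hH1 h) (fun h => hH1 h), hw.2⟩
          · have h7 := hR3 z hzZ w hw
            refine ⟨Or.inl ((hH2 z hzZ w).mpr (Or.inr ((hN'mem z w).mpr (Or.inr hw)))), ?_, ?_⟩
            · rintro rfl
              exact h7.2.1 hzZ
            · rintro rfl
              exact h7.2.1 hv
          · have h7 := hR3 v hv w hw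
            refine ⟨Or.inr ((hH2 v hv w).mpr (Or.inr ((hN'mem v w).mpr (Or.inr hw)))), ?_, ?_⟩
            · rintro rfl
              exact h7.2.1 hzZ
            · rintro rfl
              exact h7.2.1 hv
        have e3 := Finset.card_le_card e2
        rw [e1] at e3
        refine le_trans ?_ e3
        by_contra hcon
        have e4 : ∀ x y : V, x ≠ y → (∀ w, w ∈ S ↔ (G.Adj x w ∨ G.Adj y w) ∧ w ≠ x ∧ w ≠ y) →
            nb G x \ {y} ⊆ S := by
          intro x y _ hxy w hw
          rw [Finset.mem_sdiff, mem_nb, Finset.mem_singleton] at hw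
          rw [hxy]
          exact ⟨Or.inl hw.1, hw.1.ne', hw.2⟩
        have hSmem' : ∀ w, w ∈ S ↔ (G.Adj v w ∨ G.Adj z w) ∧ w ≠ v ∧ w ≠ z := by
          intro w
          rw [hSmem, or_comm, and_comm (a := w ≠ z)]
        have e5 := e4 z v hvz.symm hSmem
        have e6 := e4 v z hvz hSmem'
        have e7 := Finset.card_le_card e5
        have e8 := Finset.card_le_card e6
        have e9 := Finset.le_card_sdiff {v} (nb G z)
        have e10 := Finset.le_card_sdiff {z} (nb G v)
        rw [Finset.card_singleton] at e9 e10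
        have e11 : (nb G z).card = dg G z := rfl
        have e12 : (nb G v).card = dg G v := rfl
        have e13 := hdem1 z
        have e14 := hdem1 v
        have e15 : S.card = k - 1 := by omega
        have e16 : dg G z = k := by omega
        have e17 : dg G v = k := by omega
        have hadj : G.Adj z v := by
          by_contra hnadj
          have e18 : nb G z \ {v} = nb G z := by
            rw [Finset.sdiff_eq_self_iff_disjoint, Finset.disjoint_singleton_right, mem_nb]
            exact hnadj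
          rw [e18] at e7
          omega
        have e18 : nb G z \ {v} = S := Finset.eq_of_subset_of_card_le e5 (by omega)
        have e19 : nb G v \ {z} = S := Finset.eq_of_subset_of_card_le e6 (by omega)
        have e20 : TwinK G k z v := by
          refine ⟨hadj, e16, e17, ?_⟩
          intro w hwz hwv
          have e21 : w ∈ nb G z \ {v} ↔ w ∈ nb G v \ {z} := by rw [e18, e19]
          rw [Finset.mem_sdiff, Finset.mem_sdiff, mem_nb, mem_nb, Finset.mem_singleton,
            Finset.mem_singleton] at e21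
          constructor
          · intro h
            exact (e21.mp ⟨h, hwv⟩).1
          · intro h
            exact (e21.mpr ⟨h, hwz⟩).1
        have e21 := hext3 z v e20
        omega
      · -- a third vertex
        intro u huz huv
        by_cases hu : u ∈ Z
        · have h7 := protected_third G s c hK3 u z v huz huv hvz.symm (P u) (hP u hu).1
            (by have := (hP u hu).2.1; omega) h3 h4
          have h8 : P u \ (nb G z ∪ nb G v) ⊆ nb H u \ nb H z := by
            intro w hw
            rw [Finset.mem_sdiff, Finset.mem_union, not_or] at hw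
            rw [Finset.mem_sdiff]
            refine ⟨hGH u ((hP u hu).1 hw.1), ?_⟩
            rw [mem_nb, hH2 z hzZ]
            rintro (h9 | h9)
            · exact hw.2.1 (mem_nb.mpr h9)
            · exact (hN'1 z hzZ w h9).2.2 (hPPmem u hu w hw.1)
          have h9 := Finset.card_le_card h8
          have h10 := Finset.card_sdiff_add_card (nb H u) (nb H z)
          have h11 : nb H u ∪ nb H z ⊆ nb H z ∪ nb H v ∪ nb H u := by
            intro w hw
            rw [Finset.mem_union] at hw
            rw [Finset.mem_union, Finset.mem_union]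
            rcases hw with hw | hw
            · exact Or.inr hw
            · exact Or.inl (Or.inl hw)
          have h12 := Finset.card_le_card h11
          have h13 : k ≤ (nb H z).card := hH3 z
          omega
        · have h7 := hwin u hu (nb H z ∪ nb H v) (by
            intro j hj T hT
            let T1 : Finset (ZMod nW) := T.filter (fun a => q a ∈ nb H z)
            let T2 : Finset (ZMod nW) := T.filter (fun a => ¬ q a ∈ nb H z)
            have g1 : T1.card + T2.card = T.card :=
              Finset.card_filter_add_card_filter_not (s := T) (fun a => q a ∈ nb H z)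
            have g2 : 4 * T1.card ≤ k + (204 * E + 5 * (c + 4) + 4) := by
              refine hblk z hzZ (by omega) j hj T1 ?_
              intro a ha
              simp only [T1, Finset.mem_filter] at ha
              exact ⟨ha.2, (hT a ha.1).2⟩
            have g3 : T2.card ≤ (nb G v \ nb G z).card + (R v).card := by
              have g4 : T2.image q ⊆ (nb G v \ nb G z) ∪ R v := by
                intro w hw
                obtain ⟨a, ha, rfl⟩ := Finset.mem_image.mp hw
                simp only [T2, Finset.mem_filter] at ha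
                have g5 := (hT a ha.1).1
                rw [Finset.mem_union] at g5
                have g6 := g5.resolve_left ha.2
                rw [mem_nb, hH2 v hv] at g6
                rw [Finset.mem_union, Finset.mem_sdiff]
                rcases g6 with g6 | g6
                · left
                  exact ⟨mem_nb.mpr g6, fun g7 => ha.2 (hGH z g7)⟩
                · rcases (hN'mem v _).mp g6 with g7 | g7
                  · exact absurd g7.1 hvZ'
                  · exact Or.inr g7
              have g5 := Finset.card_le_card g4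
              rw [Finset.card_image_of_injective _ hqinj] at g5
              exact le_trans g5 (Finset.card_union_le _ _)
            omega)
          have h8 := Finset.card_sdiff_add_card (nb H u) (nb H z ∪ nb H v)
          rw [Finset.union_comm (nb H u)] at h8
          have h9 := Finset.card_le_card (Finset.subset_union_left : nb H z ⊆ nb H z ∪ nb H v)
          have h13 : k ≤ (nb H z).card := hH3 z
          omega
    · -- a hub and another vertex
      left
      have h1 := hwin v hv (nb H z) (by
        intro j hj T hT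
        have h2 := hblk z hzZ (by omega) j hj T hT
        omega)
      have h4 := Finset.card_sdiff_add_card (nb H v) (nb H z)
      rw [Finset.union_comm] at h4
      have h13 : k ≤ (nb H z).card := hH3 z
      omega

/-- the sparse case -/
theorem regimeAD (E s : ℕ) (hE : 1 ≤ E) : ∃ K₀ : ℕ, ∀ (V : Type u) [Fintype V]
    (G : SimpleGraph V) (out : V → Finset V) (k t : ℕ), (∀ v, (out v).card ≤ E) →
    (∀ x y, G.Adj x y → y ∈ out x ∨ x ∈ out y) →
    (∀ x y z, x ≠ y → x ≠ z → y ≠ z → (nb G x ∩ nb G y ∩ nb G z).card < s) →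
    Fintype.card V = k + 1 + t → Fintype.card V < 1000 * (E * t) → K₀ ≤ k →
    ∃ H : SimpleGraph V, G ≤ H ∧ SepFree H k ∧
      ∑ v, dg H v ≤ ∑ v, max k (dg G v) + tau G k + 1 := by
  obtain ⟨C, hC⟩ : ∃ C, C = 100000000 * E := ⟨_, rfl⟩
  obtain ⟨c, hc⟩ : ∃ c, c = 2 * (C * E) := ⟨_, rfl⟩
  obtain ⟨mP, hmP⟩ : ∃ mP, mP = s + 4 * (c + 4) := ⟨_, rfl⟩
  obtain ⟨pp, hpp⟩ : ∃ pp, pp = s + 6 * (c + 4) + 1 := ⟨_, rfl⟩
  obtain ⟨A₁, hA₁⟩ : ∃ A₁, A₁ = 10000 * (E * (4 * pp + 1)) := ⟨_, rfl⟩
  obtain ⟨l, hl⟩ : ∃ l, l = 80000 * (C * (E * E)) := ⟨_, rfl⟩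
  obtain ⟨B, hB⟩ : ∃ B, B = 1000000000 * (E * E) + 2 * (E * A₁) + 8 * (C * E) + l + mP
    + 100 * c + pp + s + 10 := ⟨_, rfl⟩
  refine ⟨C * (B + 1), ?_⟩
  intro V _ G out k t hD hout hK3 hn ht hk
  exact regimeAD_aux E s C c mP pp A₁ l B hE hC hc hmP hpp hA₁ hl hB G out k t hD hout hK3 hn ht hk

end Pool.Agent.BD48
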