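import Mathlib
import Pool.Agent.BD48.HT
import Pool.Agent.BD48.HalfW
import Pool.Agent.BD48.C4W
import Pool.Agent.BD48.Num

/-!
Highly connected supergraphs of pseudoforests, dense case.
-/

namespace Pool.Agent.BD48

open Finset

attribute [local instance] Classical.propDecidable

universe u

section aux

variable {V : Type*} [Fintype V]

omit [Fintype V] in
/-- disjoint subsets of given sizes -/
lemma pick (Z : Finset V) (A : V → Finset V) (m : V → ℕ)
    (h : ∀ z ∈ Z, ∑ z' ∈ Z, m z' ≤ (A z).card) :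
    ∃ N : V → Finset V, (∀ z ∈ Z, N z ⊆ A z ∧ (N z).card = m z) ∧ (∀ z, z ∉ Z → N z = ∅) ∧
      ∀ z z', z ≠ z' → Disjoint (N z) (N z') := by
  induction Z using Finset.induction_on with
  | empty => exact ⟨fun _ => ∅, by simp, by simp, by simp⟩
  | insert z0 Z hz ih =>
    obtain ⟨N, hN1, hN2, hN3⟩ := ih (fun z hz' => by
      have := h z (Finset.mem_insert_of_mem hz')
      rw [Finset.sum_insert hz] at this
      omega)
    have h0 := h z0 (Finset.mem_insert_self _ _)
    rw [Finset.sum_insert hz] at h0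
    have hU : (Z.biUnion N).card ≤ ∑ z ∈ Z, m z := by
      refine le_trans Finset.card_biUnion_le ?_
      exact le_of_eq (Finset.sum_congr rfl (fun z hz' => (hN1 z hz').2))
    have h1 : m z0 ≤ (A z0 \ Z.biUnion N).card := by
      have := Finset.le_card_sdiff (Z.biUnion N) (A z0)
      omega
    obtain ⟨S, hS1, hS2⟩ := Finset.exists_subset_card_eq h1
    have hSd : ∀ z, z ≠ z0 → Disjoint S (N z) := by
      intro z hz0
      by_cases hzZ : z ∈ Z
      · rw [Finset.disjoint_left]
        intro x hx hx'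
        have := hS1 hx
        rw [Finset.mem_sdiff, Finset.mem_biUnion] at this
        exact this.2 ⟨z, hzZ, hx'⟩
      · rw [hN2 z hzZ]
        exact Finset.disjoint_empty_right _
    refine ⟨fun z => if z = z0 then S else N z, ?_, ?_, ?_⟩
    · intro z hz'
      by_cases hz0 : z = z0
      · subst hz0
        show (if z = z then S else N z) ⊆ A z ∧ (if z = z then S else N z).card = m z
        rw [if_pos rfl]
        exact ⟨fun x hx => (Finset.mem_sdiff.mp (hS1 hx)).1, hS2⟩
      · show (if z = z0 then S else N z) ⊆ A z ∧ (if z = z0 then S else N z).card = m z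
        rw [if_neg hz0]
        rcases Finset.mem_insert.mp hz' with h' | h'
        · exact absurd h' hz0
        · exact hN1 z h'
    · intro z hz'
      rw [Finset.mem_insert, not_or] at hz'
      show (if z = z0 then S else N z) = ∅
      rw [if_neg hz'.1]
      exact hN2 z hz'.2
    · intro z z' hzz
      show Disjoint (if z = z0 then S else N z) (if z' = z0 then S else N z')
      by_cases a : z = z0
      · by_cases b : z' = z0
        · exact absurd (a.trans b.symm) hzz
        · rw [if_pos a, if_neg b]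
          exact hSd z' b
      · by_cases b : z' = z0
        · rw [if_neg a, if_pos b]
          exact (hSd z a).symm
        · rw [if_neg a, if_neg b]
          exact hN3 z z' hzz

/-- degrees in a graph with outdegrees at most one -/
lemma dg_le_out (G : SimpleGraph V) (out : V → V)
    (hout : ∀ x y, G.Adj x y → out x = y ∨ out y = x) (v : V) :
    dg G v ≤ (univ.filter (fun x => out x = v)).card + 1 := by
  unfold dg
  refine le_trans (Finset.card_le_card (t := insert (out v) (univ.filter (fun x => out x = v))) ?_)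
    (Finset.card_insert_le _ _)
  intro y hy
  rw [mem_nb] at hy
  rw [Finset.mem_insert, Finset.mem_filter]
  rcases hout v y hy with h | h
  · exact Or.inl h.symm
  · exact Or.inr ⟨Finset.mem_univ _, h⟩

lemma sum_dg_le_out (G : SimpleGraph V) (out : V → V)
    (hout : ∀ x y, G.Adj x y → out x = y ∨ out y = x) (Z : Finset V) :
    ∑ z ∈ Z, dg G z ≤ Fintype.card V + Z.card := by
  have h1 : ∑ z ∈ Z, dg G z ≤ ∑ z ∈ Z, ((univ.filter (fun x => out x = z)).card + 1) :=
    Finset.sum_le_sum (fun z _ => dg_le_out G out hout z)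
  have h2 : ∑ z ∈ Z, (univ.filter (fun x => out x = z)).card ≤ Fintype.card V := by
    rw [← Finset.card_biUnion]
    · exact Finset.card_le_univ _
    · intro a _ b _ hab
      show Disjoint (univ.filter (fun x => out x = a)) (univ.filter (fun x => out x = b))
      rw [Finset.disjoint_left]
      intro x hx hx'
      rw [Finset.mem_filter] at hx hx'
      exact hab (hx.2.symm.trans hx'.2)
  rw [Finset.sum_add_distrib, Finset.sum_const, smul_eq_mul, mul_one] at h1
  omega

/-- the forbidden graph -/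
def Gp (G : SimpleGraph V) (Z : Finset V) (N : V → Finset V) : SimpleGraph V where
  Adj x y := x ≠ y ∧ (G.Adj x y ∨ (x ∈ Z ∧ y ∉ N x) ∨ (y ∈ Z ∧ x ∉ N y))
  symm := ⟨fun x y h => ⟨h.1.symm, by
    rcases h.2 with a | a | a
    · exact Or.inl a.symm
    · exact Or.inr (Or.inr a)
    · exact Or.inr (Or.inl a)⟩⟩
  loopless := ⟨fun x h => h.1 rfl⟩

/-- the forbidden graph away from the hubs -/
def Gr (G : SimpleGraph V) (Z : Finset V) : SimpleGraph V where
  Adj x y := G.Adj x y ∧ x ∉ Z ∧ y ∉ Z
  symm := ⟨fun _ _ h => ⟨h.1.symm, h.2.2, h.2.1⟩⟩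
  loopless := ⟨fun _ h => h.1.ne rfl⟩

lemma nb_hub (G : SimpleGraph V) (Z : Finset V) (N : V → Finset V) (f : V → ℕ)
    (hf : ∀ z ∈ Z, f z = (N z).card) (M : SimpleGraph V) (hM : M ∈ Om (Gp G Z N) f) (z : V)
    (hz : z ∈ Z) : nb M z = N z := by
  rw [mem_Om] at hM
  refine Finset.eq_of_subset_of_card_le ?_ ?_
  · intro y hy
    rw [mem_nb] at hy
    by_contra hcon
    exact hM.1 z y hy ⟨hy.ne, Or.inr (Or.inl ⟨hz, hcon⟩)⟩
  · have := hM.2 z
    unfold dg at this
    rw [this, hf z hz]

lemma dg_Gp (G : SimpleGraph V) (Z : Finset V) (N : V → Finset V) (v : V) (hv : v ∉ Z) :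
    dg (Gp G Z N) v ≤ dg G v + Z.card := by
  unfold dg
  refine le_trans (Finset.card_le_card (t := nb G v ∪ Z) ?_) (Finset.card_union_le _ _)
  intro y hy
  rw [mem_nb] at hy
  rw [Finset.mem_union, mem_nb]
  rcases hy.2 with a | a | a
  · exact Or.inl a
  · exact absurd a.1 hv
  · exact Or.inr a.1

lemma dg_Gr (G : SimpleGraph V) (Z : Finset V) (φ : ℕ) (h : ∀ v, v ∉ Z → dg G v ≤ φ) (v : V) :
    dg (Gr G Z) v ≤ φ := by
  by_cases hv : v ∈ Z
  · rw [dg_eq_card (Gr G Z) v ∅]
    · simp
    · intro y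
      constructor
      · intro h'
        simp at h'
      · intro h'
        exact absurd hv h'.2.1
  · refine le_trans (Finset.card_le_card ?_) (h v hv)
    intro y hy
    rw [mem_nb] at hy ⊢
    exact hy.1

/-- the set of admissible graphs is not empty -/
lemma Om_hub_nonempty (G : SimpleGraph V) (Z : Finset V) (N : V → Finset V) (f : V → ℕ)
    (t φ : ℕ) (hφ : ∀ v, v ∉ Z → dg G v ≤ φ)
    (hN1 : ∀ z ∈ Z, ∀ w ∈ N z, w ∉ Z ∧ ¬ G.Adj z w)
    (hN3 : ∀ z z', z ≠ z' → Disjoint (N z) (N z'))
    (hNt : ∀ z ∈ Z, (N z).card ≤ t)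
    (hf : ∀ z ∈ Z, f z = (N z).card) (hft : ∀ v, f v ≤ t)
    (hf1 : ∀ z ∈ Z, ∀ w ∈ N z, 1 ≤ f w)
    (heven : Even (∑ v, f v)) (ht : 1 ≤ t)
    (hsum : t * (2 * (t + φ + 1) + 2 * Z.card + 1) < ∑ v, f v) :
    (Om (Gp G Z N) f).Nonempty := by
  set W : Finset V := univ \ Z with hW
  set NN : Finset V := Z.biUnion N with hNN
  have hmemW : ∀ x, x ∈ W ↔ x ∉ Z := by
    intro x
    rw [hW, Finset.mem_sdiff]
    simp
  have hNNW : ∀ x ∈ NN, x ∉ Z := by
    intro x hx
    rw [hNN, Finset.mem_biUnion] at hx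
    obtain ⟨z, hz, hx⟩ := hx
    exact (hN1 z hz x hx).1
  have hNNcard : NN.card = ∑ z ∈ Z, (N z).card := by
    rw [hNN, Finset.card_biUnion]
    intro a _ b _ hab
    exact hN3 a b hab
  let g : V → ℕ := fun w => f w - (if w ∈ NN then 1 else 0)
  have hg : ∀ w, g w + (if w ∈ NN then 1 else 0) = f w := by
    intro w
    show f w - (if w ∈ NN then 1 else 0) + (if w ∈ NN then 1 else 0) = f w
    split_ifs with h
    · have h' := h
      rw [hNN, Finset.mem_biUnion] at h'
      obtain ⟨z, hz, hx⟩ := h'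
      have := hf1 z hz w hx
      omega
    · omega
  have hgt : ∀ w, g w ≤ t := by
    intro w
    have := hg w
    have := hft w
    omega
  have hsumg : ∑ w ∈ W, g w + NN.card = ∑ w ∈ W, f w := by
    have h1 : ∑ w ∈ W, (g w + (if w ∈ NN then 1 else 0)) = ∑ w ∈ W, f w :=
      Finset.sum_congr rfl (fun w _ => hg w)
    rw [← h1, Finset.sum_add_distrib, ← Finset.card_filter]
    congr 2
    ext x
    rw [Finset.mem_filter]
    constructor
    · intro hx
      exact ⟨(hmemW x).mpr (hNNW x hx), hx⟩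
    · intro hx
      exact hx.2
  have hsumf : ∑ v, f v = ∑ w ∈ W, f w + NN.card := by
    rw [← Finset.sum_sdiff (Finset.subset_univ Z), hNNcard]
    congr 1
    exact Finset.sum_congr rfl hf
  have hNNt : NN.card ≤ t * Z.card := by
    rw [hNNcard, Nat.mul_comm, ← smul_eq_mul, ← Finset.sum_const]
    exact Finset.sum_le_sum hNt
  obtain ⟨B, hB1, hB2, hB3⟩ := blockG W (Gr G Z) g t φ (dg_Gr G Z φ hφ) (fun x _ => hgt x) (by
    intro T₁ T₂ h1 h2
    have e1 : ∑ x ∈ W, g x ≤ ∑ x ∈ W \ T₁, g x + ∑ x ∈ T₁, g x := by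
      have : ∑ x ∈ W, g x ≤ ∑ x ∈ (W \ T₁) ∪ T₁, g x := by
        refine Finset.sum_le_sum_of_subset ?_
        intro x hx
        rw [Finset.mem_union, Finset.mem_sdiff]
        by_cases h : x ∈ T₁
        · exact Or.inr h
        · exact Or.inl ⟨hx, h⟩
      refine le_trans this (le_of_eq ?_)
      rw [Finset.sum_union]
      exact Finset.sdiff_disjoint
    have e2 : ∑ x ∈ T₁, g x ≤ t * T₁.card := by
      refine le_trans (Finset.sum_le_sum (fun x _ => hgt x)) ?_
      rw [Finset.sum_const, smul_eq_mul, Nat.mul_comm]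
    have e3 : t * T₁.card ≤ t * (t + φ + 1) := Nat.mul_le_mul_left _ h1
    have e4 : T₂.card * t ≤ t * (t + φ + 1) := by
      rw [Nat.mul_comm]
      exact Nat.mul_le_mul_left _ h2
    have e6 : t * (2 * (t + φ + 1) + 2 * Z.card + 1) =
      t * (t + φ + 1) + t * (t + φ + 1) + 2 * (t * Z.card) + t := by ring
    omega) (by
    have h1 : ∑ v, f v = ∑ w ∈ W, g w + 2 * NN.card := by omega
    rw [h1] at heven
    exact (Nat.even_add.mp heven).mpr ⟨NN.card, by ring⟩)
  let M : SimpleGraph V :=
    { Adj := fun x y => B.Adj x y ∨ (x ∈ Z ∧ y ∈ N x) ∨ (y ∈ Z ∧ x ∈ N y)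
      symm := ⟨fun x y h => by
        rcases h with a | a | a
        · exact Or.inl a.symm
        · exact Or.inr (Or.inr a)
        · exact Or.inr (Or.inl a)⟩
      loopless := ⟨fun x h => by
        rcases h with a | a | a
        · exact a.ne rfl
        · exact (hN1 x a.1 x a.2).1 a.1
        · exact (hN1 x a.1 x a.2).1 a.1⟩ }
  refine ⟨M, mem_Om.mpr ⟨?_, ?_⟩⟩
  · intro x y hxy hG
    rcases hxy with a | a | a
    · have hx := (hmemW x).mp (hB1 x y a).1
      have hy := (hmemW y).mp (hB1 x y a).2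
      rcases hG.2 with b | b | b
      · exact hB2 x y a ⟨b, hx, hy⟩
      · exact hx b.1
      · exact hy b.1
    · have hy := hN1 x a.1 y a.2
      rcases hG.2 with b | b | b
      · exact hy.2 b
      · exact b.2 a.2
      · exact hy.1 b.1
    · have hy := hN1 y a.1 x a.2
      rcases hG.2 with b | b | b
      · exact hy.2 b.symm
      · exact hy.1 b.1
      · exact b.2 a.2
  · intro v
    by_cases hv : v ∈ Z
    · rw [hf v hv]
      refine dg_eq_card M v (N v) ?_
      intro y
      constructor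
      · intro hy
        exact Or.inr (Or.inl ⟨hv, hy⟩)
      · intro hy
        rcases hy with a | a | a
        · exact absurd hv ((hmemW v).mp (hB1 v y a).1)
        · exact a.2
        · exact absurd hv (hN1 y a.1 v a.2).1
    · have hcard : (Z.filter (fun z => v ∈ N z)).card = (if v ∈ NN then 1 else 0) := by
        split_ifs with h
        · rw [hNN, Finset.mem_biUnion] at h
          obtain ⟨z, hz, hx⟩ := h
          rw [Finset.card_eq_one]
          refine ⟨z, ?_⟩
          ext z'
          rw [Finset.mem_filter, Finset.mem_singleton]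
          constructor
          · intro h'
            by_contra hne
            exact (Finset.disjoint_left.mp (hN3 z' z hne)) h'.2 hx
          · rintro rfl
            exact ⟨hz, hx⟩
        · rw [Finset.card_eq_zero, Finset.filter_eq_empty_iff]
          intro z hz hx
          exact h (by rw [hNN, Finset.mem_biUnion]; exact ⟨z, hz, hx⟩)
      have hdis : Disjoint (nb B v) (Z.filter (fun z => v ∈ N z)) := by
        rw [Finset.disjoint_left]
        intro x hx hx'
        rw [mem_nb] at hx
        rw [Finset.mem_filter] at hx'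
        exact (hmemW x).mp (hB1 v x hx).2 hx'.1
      rw [dg_eq_card M v (nb B v ∪ Z.filter (fun z => v ∈ N z)), Finset.card_union_of_disjoint hdis,
        hcard]
      · have := hB3 v ((hmemW v).mpr hv)
        unfold dg at this
        rw [this]
        exact hg v
      · intro y
        rw [Finset.mem_union, mem_nb, Finset.mem_filter]
        constructor
        · rintro (a | a)
          · exact Or.inl a
          · exact Or.inr (Or.inr a)
        · intro hy
          rcases hy with a | a | a
          · exact Or.inl a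
          · exact absurd a.1 hv
          · exact Or.inr a

/-- a graph with small codegrees -/
lemma exists_small_cod (G : SimpleGraph V) (Z : Finset V) (N : V → Finset V) (f : V → ℕ)
    (t φ t₀ : ℕ)
    (hnum : ∀ t : ℕ, t₀ ≤ t → (20 * 3 * t ^ 3) ^ 3 * (3 - 1) ^ (t / (4 * 3)) < 3 ^ (t / (4 * 3)))
    (hφ : ∀ v, v ∉ Z → dg G v ≤ φ)
    (hN1 : ∀ z ∈ Z, ∀ w ∈ N z, w ∉ Z ∧ ¬ G.Adj z w)
    (hN3 : ∀ z z', z ≠ z' → Disjoint (N z) (N z'))
    (hf : ∀ z ∈ Z, f z = (N z).card) (hft : ∀ v, f v ≤ t)
    (hf1 : ∀ z ∈ Z, ∀ w ∈ N z, 1 ≤ f w)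
    (heven : Even (∑ v, f v)) (ht : 1 ≤ t)
    (hsum : t * Fintype.card V ≤ ∑ v, f v + t * Z.card + 1)
    (hZ : Z.card ≤ 16) (hφn : φ ≤ Fintype.card V / 16)
    (h300 : 300 * t ≤ Fintype.card V) (hbig : 10000 ≤ Fintype.card V)
    (hn₀ : 60 * t₀ ^ 3 ≤ Fintype.card V) :
    ∃ M ∈ Om (Gp G Z N) f, ∀ u w, u ≠ w → 2 * cod M u w ≤ t + 1 := by
  set n := Fintype.card V with hn
  have hne : (Om (Gp G Z N) f).Nonempty := by
    refine Om_hub_nonempty G Z N f t φ hφ hN1 hN3 (fun z hz => ?_) hf hft hf1 heven ht ?_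
    · rw [← hf z hz]
      exact hft z
    · have h1 : 2 * (t + φ + 1) + 2 * Z.card + 1 + Z.card + 2 ≤ n := by omega
      have h2 := Nat.mul_le_mul_left t h1
      have h3 : t * (2 * (t + φ + 1) + 2 * Z.card + 1 + Z.card + 2) =
        t * (2 * (t + φ + 1) + 2 * Z.card + 1) + t * Z.card + 2 * t := by ring
      omega
  have hsumlow : t * (n - 17) ≤ ∑ v, f v := by
    have h1 : t * n = t * (n - 17) + t * 17 := by
      rw [← Nat.mul_add]
      congr 1
      omega
    have h2 : t * Z.card ≤ t * 16 := Nat.mul_le_mul_left t hZ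
    omega
  have hdW : ∀ v ∈ univ \ Z, dg (Gp G Z N) v ≤ n / 16 + 16 := by
    intro v hv
    have hv' : v ∉ Z := (Finset.mem_sdiff.mp hv).2
    have h1 := dg_Gp G Z N v hv'
    have h2 := hφ v hv'
    omega
  have hmemW : ∀ x, x ∉ Z → x ∈ univ \ Z := fun x hx =>
    Finset.mem_sdiff.mpr ⟨Finset.mem_univ _, hx⟩
  -- neighbours of hubs
  have hub1 : ∀ M ∈ Om (Gp G Z N) f, ∀ z ∈ Z, ∀ x, M.Adj z x → x ∈ N z := by
    intro M hM z hz x hx
    have := nb_hub G Z N f hf M hM z hz
    rw [← this, mem_nb]
    exact hx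
  by_cases hcase : 60 * t ^ 3 ≤ n
  · obtain ⟨M, hM, hc⟩ := exists_c4freeW (Gp G Z N) f (univ \ Z) (n / 16 + 16) t hdW hft ht (by
      intro M hM a b c e hcy
      obtain ⟨hac, hbe, h1, h2, h3, h4⟩ := hcy
      have key : ∀ x y z : V, x ≠ y → x ∈ Z → y ∈ Z → M.Adj x z → M.Adj y z → False := by
        intro x y z hxy hx hy hxz hyz
        exact (Finset.disjoint_left.mp (hN3 x y hxy)) (hub1 M hM x hx z hxz) (hub1 M hM y hy z hyz)
      by_cases ha : a ∈ Z
      · have hb : b ∉ Z := (hN1 a ha b (hub1 M hM a ha b h1)).1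
        have hcz : c ∉ Z := fun hcz => key a c b hac ha hcz h1 h2.symm
        exact Or.inr (Or.inl ⟨hmemW b hb, hmemW c hcz⟩)
      · by_cases hb : b ∈ Z
        · have hcz : c ∉ Z := (hN1 b hb c (hub1 M hM b hb c h2)).1
          have he : e ∉ Z := fun he => key b e c hbe hb he h2 h3.symm
          exact Or.inr (Or.inr (Or.inl ⟨hmemW c hcz, hmemW e he⟩))
        · exact Or.inl ⟨hmemW a ha, hmemW b hb⟩) hne (by
      have h1 : 16 * t ^ 4 = t * (16 * t ^ 3) := by ring
      have h2 : 2 * (t * (1 + (n / 16 + 16) + t)) = t * (2 * (1 + (n / 16 + 16) + t)) := by ring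
      rw [h1, h2, ← Nat.mul_add]
      refine lt_of_lt_of_le ?_ hsumlow
      refine Nat.mul_lt_mul_of_pos_left ?_ ht
      omega)
    refine ⟨M, hM, ?_⟩
    intro u w huw
    have := hc u w huw
    unfold cod
    omega
  · have ht0 : t₀ ≤ t := by
      by_contra hcon
      have h1 : t ^ 3 ≤ t₀ ^ 3 := Nat.pow_le_pow_left (by omega) 3
      omega
    obtain ⟨M, hM, hc⟩ := exists_halfW (Gp G Z N) f (univ \ Z) (n / 16 + 16) t (n / 3) 3 le_rfl
      hdW hft ht (by
        have h1 : n / 3 + 2 * (n / 16 + 16) + 3 * t + 3 ≤ n - 17 := by omega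
        have h2 := Nat.mul_le_mul_left t h1
        omega) (by omega) (by omega) (by omega) hne (by
        refine lt_of_le_of_lt ?_ (hnum t ht0)
        refine Nat.mul_le_mul_right _ (Nat.pow_le_pow_left ?_ 3)
        omega)
    refine ⟨M, hM, ?_⟩
    have key : ∀ u, u ∉ Z → ∀ w, u ≠ w → 2 * cod M u w ≤ t + 1 := by
      intro u hu w huw
      have h1 := hc u (hmemW u hu) w huw
      have h2 : (nb M u ∩ nb M w ∩ Z).card ≤ 1 := by
        rw [Finset.card_le_one]
        intro x hx y hy
        rw [Finset.mem_inter, Finset.mem_inter, mem_nb, mem_nb] at hx hy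
        by_contra hxy
        exact (Finset.disjoint_left.mp (hN3 x y hxy)) (hub1 M hM x hx.2 u hx.1.1.symm)
          (hub1 M hM y hy.2 u hy.1.1.symm)
      have h3 : cod M u w ≤ (nb M u ∩ nb M w ∩ (univ \ Z)).card + (nb M u ∩ nb M w ∩ Z).card := by
        unfold cod
        refine le_trans (Finset.card_le_card ?_) (Finset.card_union_le _ _)
        intro x hx
        rw [Finset.mem_union]
        by_cases hxZ : x ∈ Z
        · exact Or.inr (Finset.mem_inter.mpr ⟨hx, hxZ⟩)
        · exact Or.inl (Finset.mem_inter.mpr ⟨hx, hmemW x hxZ⟩)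
      omega
    intro u w huw
    by_cases hu : u ∈ Z
    · by_cases hw : w ∈ Z
      · have : cod M u w = 0 := by
          unfold cod
          rw [Finset.card_eq_zero, ← Finset.disjoint_iff_inter_eq_empty,
            nb_hub G Z N f hf M hM u hu, nb_hub G Z N f hf M hM w hw]
          exact hN3 u w huw
        omega
      · have := key w hw u huw.symm
        unfold cod at this ⊢
        rw [Finset.inter_comm]
        exact this
    · exact key u hu w huw

lemma dg_compl (M : SimpleGraph V) (v : V) : dg Mᶜ v + dg M v + 1 = Fintype.card V := by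
  have e1 : nb Mᶜ v ∪ nb M v = univ.erase v := by
    ext y
    rw [Finset.mem_union, mem_nb, mem_nb, SimpleGraph.compl_adj, Finset.mem_erase]
    constructor
    · rintro (h | h)
      · exact ⟨h.1.symm, Finset.mem_univ _⟩
      · exact ⟨h.ne', Finset.mem_univ _⟩
    · intro h
      by_cases h' : M.Adj v y
      · exact Or.inr h'
      · exact Or.inl ⟨h.1.symm, h'⟩
  have e2 : Disjoint (nb Mᶜ v) (nb M v) := by
    rw [Finset.disjoint_left]
    intro y hy hy'
    rw [mem_nb, SimpleGraph.compl_adj] at hy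
    rw [mem_nb] at hy'
    exact hy.2 hy'
  have e3 := Finset.card_union_of_disjoint e2
  rw [e1, Finset.card_erase_of_mem (Finset.mem_univ _), Finset.card_univ] at e3
  unfold dg
  have : 1 ≤ Fintype.card V := Fintype.card_pos_iff.mpr ⟨v⟩
  omega

end aux

/-- the dense case -/
theorem regimeB : ∃ N₀ : ℕ, ∀ (V : Type u) [Fintype V] (G : SimpleGraph V) (out : V → V) (k t : ℕ),
    (∀ x y, G.Adj x y → out x = y ∨ out y = x) → Fintype.card V = k + 1 + t →
    300 * t ≤ Fintype.card V → N₀ ≤ Fintype.card V →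
    ∃ H : SimpleGraph V, G ≤ H ∧ SepFree H k ∧ ∑ v, dg H v ≤ ∑ v, max k (dg G v) + 1 := by
  obtain ⟨t₀, hnum⟩ := num_large 3 le_rfl
  refine ⟨60 * t₀ ^ 3 + 10000, ?_⟩
  intro V _ G out k t hout hn h300 hN
  have hdn : ∀ v, dg G v + 1 ≤ Fintype.card V := by
    intro v
    have := dg_compl G v
    omega
  rcases Nat.eq_zero_or_pos t with ht | ht
  · -- the complete graph
    subst ht
    refine ⟨⊤, le_top, ?_, ?_⟩
    · intro C D X _ hCD _ _ hC hD _ hno
      obtain ⟨x, hx⟩ := hC
      obtain ⟨y, hy⟩ := hD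
      refine hno x hx y hy ?_
      rw [SimpleGraph.top_adj]
      rintro rfl
      exact hCD x hx hy
    · refine le_trans (Finset.sum_le_sum (fun v _ => ?_)) (Nat.le_add_right _ 1)
      have := dg_compl (⊤ : SimpleGraph V) v
      refine le_trans ?_ (le_max_left _ _)
      omega
  set n := Fintype.card V with hnn
  set Z : Finset V := univ.filter (fun v => n / 16 < dg G v) with hZdef
  have hmemZ : ∀ v, v ∈ Z ↔ n / 16 < dg G v := by
    intro v
    rw [hZdef, Finset.mem_filter]
    simp
  have hZ : Z.card ≤ 16 := by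
    have h1 := sum_dg_le_out G out hout Z
    have h2 : (n / 16 + 1) * Z.card ≤ ∑ z ∈ Z, dg G z := by
      rw [Nat.mul_comm, ← smul_eq_mul, ← Finset.sum_const]
      exact Finset.sum_le_sum (fun z hz => (hmemZ z).mp hz)
    by_contra hcon
    have h3 : (n / 16 + 1) * 17 ≤ (n / 16) * Z.card + 17 := by
      have := Nat.mul_le_mul_left (n / 16) (by omega : 17 ≤ Z.card)
      omega
    have h4 : (n / 16 + 1) * Z.card = (n / 16) * Z.card + Z.card := by ring
    omega
  let A : V → Finset V := fun z => univ \ (Z ∪ nb G z)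
  let m : V → ℕ := fun z => min t (n - 1 - dg G z)
  obtain ⟨N, hNa, hNb, hNc⟩ := pick Z A m (by
    intro z hz
    by_cases hcard : Z.card = 1
    · obtain ⟨z', hz'⟩ := Finset.card_eq_one.mp hcard
      rw [hz', Finset.mem_singleton] at hz
      subst hz
      rw [hz', Finset.sum_singleton]
      have h1 : Z ∪ nb G z = insert z (nb G z) := by
        rw [hz']
        ext x
        simp
      have h2 : (A z).card + (dg G z + 1) = n := by
        show (univ \ (Z ∪ nb G z)).card + (dg G z + 1) = n
        rw [h1, hnn, ← Finset.card_univ (α := V)]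
        have h3 : (insert z (nb G z)).card = dg G z + 1 := by
          rw [Finset.card_insert_of_notMem]
          · rfl
          · rw [mem_nb]
            exact G.loopless.irrefl z
        rw [← h3]
        exact Finset.card_sdiff_add_card_eq_card (Finset.subset_univ _)
      show min t (n - 1 - dg G z) ≤ _
      have := min_le_right t (n - 1 - dg G z)
      omega
    · have hpos : 1 ≤ Z.card := Finset.card_pos.mpr ⟨z, hz⟩
      obtain ⟨z', hz', hne⟩ := Finset.exists_mem_ne (by omega : 1 < Z.card) z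
      have h1 := sum_dg_le_out G out hout {z, z'}
      rw [Finset.sum_pair hne.symm, Finset.card_pair hne.symm] at h1
      have h2 := (hmemZ z').mp hz'
      have h3 : ∑ z' ∈ Z, m z' ≤ 16 * t := by
        refine le_trans (Finset.sum_le_sum (fun z' _ => min_le_left t _)) ?_
        rw [Finset.sum_const, smul_eq_mul]
        exact Nat.mul_le_mul_right _ hZ
      have h4 : n ≤ (A z).card + (Z.card + dg G z) := by
        have h5 := Finset.card_sdiff_add_card_eq_card (Finset.subset_univ (Z ∪ nb G z))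
        rw [Finset.card_univ] at h5
        have h6 := Finset.card_union_le Z (nb G z)
        show n ≤ (univ \ (Z ∪ nb G z)).card + (Z.card + dg G z)
        unfold dg
        omega
      omega)
  have hN1 : ∀ z ∈ Z, ∀ w ∈ N z, w ∉ Z ∧ ¬ G.Adj z w := by
    intro z hz w hw
    have := (hNa z hz).1 hw
    have h2 : w ∈ univ \ (Z ∪ nb G z) := this
    rw [Finset.mem_sdiff, Finset.mem_union, not_or, mem_nb] at h2
    exact h2.2
  have hNt : ∀ z ∈ Z, (N z).card ≤ t := fun z hz => by
    rw [(hNa z hz).2]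
    exact min_le_left _ _
  -- a vertex outside all sets
  have hNN : (Z.biUnion N).card ≤ 16 * t := by
    refine le_trans Finset.card_biUnion_le ?_
    refine le_trans (Finset.sum_le_sum hNt) ?_
    rw [Finset.sum_const, smul_eq_mul]
    exact Nat.mul_le_mul_right _ hZ
  obtain ⟨w0, hw0⟩ : ∃ w0, w0 ∉ Z ∪ Z.biUnion N := by
    by_contra hcon
    push Not at hcon
    have h1 : Fintype.card V ≤ (Z ∪ Z.biUnion N).card := by
      rw [← Finset.card_univ]
      exact Finset.card_le_card (fun x _ => hcon x)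
    have h2 := Finset.card_union_le Z (Z.biUnion N)
    omega
  rw [Finset.mem_union, not_or, Finset.mem_biUnion] at hw0
  -- the degrees
  have hpar : ∃ e : ℕ, e ≤ 1 ∧ Even (∑ z ∈ Z, (N z).card + (t * (univ \ Z).card - e)) := by
    rcases Nat.even_or_odd (∑ z ∈ Z, (N z).card + t * (univ \ Z).card) with h | h
    · exact ⟨0, by omega, h⟩
    · refine ⟨1, le_rfl, ?_⟩
      have h1 : 1 ≤ t * (univ \ Z).card := by
        refine Nat.mul_pos ht (Finset.card_pos.mpr ⟨w0, ?_⟩)
        rw [Finset.mem_sdiff]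
        exact ⟨Finset.mem_univ _, hw0.1⟩
      obtain ⟨q, hq⟩ := h
      exact ⟨q, by omega⟩
  obtain ⟨e, he1, heven⟩ := hpar
  let f : V → ℕ := fun v => if v ∈ Z then (N v).card else (if v = w0 then t - e else t)
  have hfZ : ∀ z ∈ Z, f z = (N z).card := fun z hz => if_pos hz
  have hfW : ∀ w, w ∉ Z → f w = if w = w0 then t - e else t := fun w hw => if_neg hw
  have hft : ∀ v, f v ≤ t := by
    intro v
    by_cases hv : v ∈ Z
    · rw [hfZ v hv]
      exact hNt v hv
    · rw [hfW v hv]
      split_ifs <;> omega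
  have hf1 : ∀ z ∈ Z, ∀ w ∈ N z, 1 ≤ f w := by
    intro z hz w hw
    rw [hfW w (hN1 z hz w hw).1, if_neg]
    · exact ht
    · rintro rfl
      exact hw0.2 ⟨z, hz, hw⟩
  have hsumW : ∑ w ∈ univ \ Z, f w + e = t * (univ \ Z).card := by
    have hw0' : w0 ∈ univ \ Z := by
      rw [Finset.mem_sdiff]
      exact ⟨Finset.mem_univ _, hw0.1⟩
    have h1 : ∑ w ∈ univ \ Z, (f w + (if w = w0 then e else 0)) = ∑ _w ∈ univ \ Z, t := by
      refine Finset.sum_congr rfl (fun w hw => ?_)
      rw [hfW w (Finset.mem_sdiff.mp hw).2]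
      split_ifs <;> omega
    rw [Finset.sum_add_distrib, Finset.sum_const, smul_eq_mul, Finset.sum_ite_eq' (univ \ Z) w0,
      if_pos hw0'] at h1
    rw [h1, Nat.mul_comm]
  have hsumV : ∑ v, f v = ∑ z ∈ Z, (N z).card + ∑ w ∈ univ \ Z, f w := by
    rw [← Finset.sum_sdiff (Finset.subset_univ Z), Nat.add_comm]
    congr 1
    exact Finset.sum_congr rfl hfZ
  have hWcard : (univ \ Z).card + Z.card = n := by
    rw [Finset.card_sdiff_add_card_eq_card (Finset.subset_univ _), Finset.card_univ]
  obtain ⟨M, hM, hcod⟩ := exists_small_cod G Z N f t (n / 16) t₀ hnum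
    (fun v hv => by
      by_contra hcon
      exact hv ((hmemZ v).mpr (by omega)))
    hN1 hNc hfZ hft hf1
    (by
      rw [hsumV]
      have h1 : ∑ w ∈ univ \ Z, f w = t * (univ \ Z).card - e := by omega
      rw [h1]
      exact heven) ht
    (by
      rw [← hnn, ← hWcard, Nat.mul_add]
      omega) hZ le_rfl h300 (by omega) (by omega)
  have hM' := mem_Om.mp hM
  refine ⟨Mᶜ, ?_, ?_, ?_⟩
  · intro x y hxy
    rw [SimpleGraph.compl_adj]
    exact ⟨hxy.ne, fun h => hM'.1 x y h ⟨hxy.ne, Or.inl hxy⟩⟩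
  · exact sepFree_compl M t k (fun v => by rw [hM'.2 v]; exact hft v) hn hcod
  · have h1 : ∀ v, dg Mᶜ v ≤ max k (dg G v) + (if v = w0 then 1 else 0) := by
      intro v
      have e1 := dg_compl M v
      rw [hM'.2 v] at e1
      by_cases hv : v ∈ Z
      · rw [hfZ v hv, (hNa v hv).2] at e1
        have e2 : m v = min t (n - 1 - dg G v) := rfl
        have e3 := hdn v
        have e4 := le_max_left k (dg G v)
        have e5 := le_max_right k (dg G v)
        rw [e2] at e1
        refine le_trans ?_ (Nat.le_add_right _ _)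
        rcases le_total t (n - 1 - dg G v) with h | h
        · rw [min_eq_left h] at e1
          omega
        · rw [min_eq_right h] at e1
          omega
      · rw [hfW v hv] at e1
        have e4 := le_max_left k (dg G v)
        split_ifs at e1 ⊢ <;> omega
    refine le_trans (Finset.sum_le_sum (fun v _ => h1 v)) ?_
    rw [Finset.sum_add_distrib, Finset.sum_ite_eq' univ w0, if_pos (Finset.mem_univ _)]

end Pool.Agent.BD48
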