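import Mathlib
import Pool.Agent.BD48.RegB
import Pool.Agent.BD48.HalfW2
import Pool.Agent.BD48.Tau

/-!
Highly connected supergraphs of sparse graphs, dense case.
-/

namespace Pool.Agent.BD48

open Finset

attribute [local instance] Classical.propDecidable

universe u

section aux

variable {V : Type*} [Fintype V]

/-- the forbidden graph: `G`, and everything at the hubs except the edges of `K` -/
def GpK (G K : SimpleGraph V) (Z : Finset V) : SimpleGraph V where
  Adj x y := x ≠ y ∧ (G.Adj x y ∨ ((x ∈ Z ∨ y ∈ Z) ∧ ¬ K.Adj x y))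
  symm := ⟨fun x y h => ⟨h.1.symm, by
    rcases h.2 with a | a
    · exact Or.inl a.symm
    · exact Or.inr ⟨a.1.symm, fun h' => a.2 h'.symm⟩⟩⟩
  loopless := ⟨fun x h => h.1 rfl⟩

lemma adj_K (G K : SimpleGraph V) (Z : Finset V) (f : V → ℕ) (M : SimpleGraph V)
    (hM : M ∈ Om (GpK G K Z) f) (x y : V) (hxy : M.Adj x y) (hZ : x ∈ Z ∨ y ∈ Z) : K.Adj x y := by
  rw [mem_Om] at hM
  by_contra hcon
  exact hM.1 x y hxy ⟨hxy.ne, Or.inr ⟨hZ, hcon⟩⟩

lemma nb_K (G K : SimpleGraph V) (Z : Finset V) (f : V → ℕ)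
    (hf : ∀ z ∈ Z, f z = dg K z) (M : SimpleGraph V) (hM : M ∈ Om (GpK G K Z) f) (z : V)
    (hz : z ∈ Z) : nb M z = nb K z := by
  refine Finset.eq_of_subset_of_card_le ?_ ?_
  · intro y hy
    rw [mem_nb] at hy ⊢
    exact adj_K G K Z f M hM z y hy (Or.inl hz)
  · have := (mem_Om.mp hM).2 z
    rw [hf z hz] at this
    exact this.ge

lemma dg_GpK (G K : SimpleGraph V) (Z : Finset V) (v : V) (hv : v ∉ Z) :
    dg (GpK G K Z) v ≤ dg G v + Z.card := by
  unfold dg
  refine le_trans (Finset.card_le_card (t := nb G v ∪ Z) ?_) (Finset.card_union_le _ _)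
  intro y hy
  rw [mem_nb] at hy
  rw [Finset.mem_union, mem_nb]
  rcases hy.2 with a | a
  · exact Or.inl a
  · rcases a.1 with b | b
    · exact absurd b hv
    · exact Or.inr b

/-- the edges of `K` between the hubs and the other vertices -/
lemma sum_dg_K (K : SimpleGraph V) (Z : Finset V) (t : ℕ)
    (hK1 : ∀ x y, K.Adj x y → x ∈ Z ∨ y ∈ Z) (hKt : ∀ z ∈ Z, dg K z ≤ t) :
    ∑ w ∈ univ \ Z, dg K w ≤ t * Z.card := by
  have h1 : ∀ w ∈ univ \ Z, dg K w = ∑ z ∈ Z, if K.Adj w z then 1 else 0 := by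
    intro w hw
    rw [← Finset.card_filter]
    refine dg_eq_card K w _ ?_
    intro y
    rw [Finset.mem_filter]
    constructor
    · exact fun h => h.2
    · intro h
      rcases hK1 w y h with a | a
      · exact absurd a (Finset.mem_sdiff.mp hw).2
      · exact ⟨a, h⟩
  rw [Finset.sum_congr rfl h1, Finset.sum_comm, Nat.mul_comm, ← smul_eq_mul, ← Finset.sum_const]
  refine Finset.sum_le_sum (fun z hz => ?_)
  rw [← Finset.card_filter]
  refine le_trans (Finset.card_le_card ?_) (hKt z hz)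
  intro w hw
  rw [Finset.mem_filter] at hw
  rw [mem_nb]
  exact hw.2.symm

/-- the set of admissible graphs is not empty -/
lemma Om_K_nonempty (G K : SimpleGraph V) (Z : Finset V) (f : V → ℕ)
    (t φ : ℕ) (hφ : ∀ v, v ∉ Z → dg G v ≤ φ)
    (hK1 : ∀ x y, K.Adj x y → x ∈ Z ∨ y ∈ Z) (hK2 : ∀ x y, K.Adj x y → ¬ G.Adj x y)
    (hf : ∀ z ∈ Z, f z = dg K z) (hft : ∀ v, f v ≤ t) (hf1 : ∀ v, dg K v ≤ f v)
    (heven : Even (∑ v, f v))
    (hsum : t * (2 * (t + φ + 1) + 2 * Z.card + 1) < ∑ v, f v) :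
    (Om (GpK G K Z) f).Nonempty := by
  set W : Finset V := univ \ Z with hW
  have hmemW : ∀ x, x ∈ W ↔ x ∉ Z := by
    intro x
    rw [hW, Finset.mem_sdiff]
    simp
  let g : V → ℕ := fun w => f w - dg K w
  have hg : ∀ w, g w + dg K w = f w := by
    intro w
    show f w - dg K w + dg K w = f w
    have := hf1 w
    omega
  have hgt : ∀ w, g w ≤ t := by
    intro w
    have := hg w
    have := hft w
    omega
  have hsumg : ∑ w ∈ W, g w + ∑ w ∈ W, dg K w = ∑ w ∈ W, f w := by
    rw [← Finset.sum_add_distrib]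
    exact Finset.sum_congr rfl (fun w _ => hg w)
  have hsumf : ∑ v, f v = ∑ w ∈ W, f w + ∑ z ∈ Z, dg K z := by
    rw [← Finset.sum_sdiff (Finset.subset_univ Z)]
    congr 1
    exact Finset.sum_congr rfl hf
  have hsumK : ∑ v, dg K v = ∑ w ∈ W, dg K w + ∑ z ∈ Z, dg K z :=
    (Finset.sum_sdiff (Finset.subset_univ Z)).symm
  have hKZ : ∑ z ∈ Z, dg K z ≤ t * Z.card := by
    rw [Nat.mul_comm, ← smul_eq_mul, ← Finset.sum_const]
    exact Finset.sum_le_sum (fun z hz => by rw [← hf z hz]; exact hft z)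
  have hKW : ∑ w ∈ W, dg K w ≤ t * Z.card :=
    sum_dg_K K Z t hK1 (fun z hz => by rw [← hf z hz]; exact hft z)
  obtain ⟨B, hB1, hB2, hB3⟩ := blockG W (Gr G Z) g t φ (dg_Gr G Z φ hφ) (fun x _ => hgt x) (by
    intro T₁ T₂ h1 h2
    have e1 : ∑ x ∈ W, g x ≤ ∑ x ∈ W \ T₁, g x + ∑ x ∈ T₁, g x := by
      have : ∑ x ∈ W, g x ≤ ∑ x ∈ (W \ T₁) ∪ T₁, g x := by
        refine Finset.sum_le_sum_of_subset ?_
        intro x hx
        rw [Finset.mem_union, Finset.mem_sdiff]
        by_cases h : x ∈ T₁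
        · exact Or.inr h
        · exact Or.inl ⟨hx, h⟩
      refine le_trans this (le_of_eq ?_)
      rw [Finset.sum_union]
      exact Finset.sdiff_disjoint
    have e2 : ∑ x ∈ T₁, g x ≤ t * T₁.card := by
      refine le_trans (Finset.sum_le_sum (fun x _ => hgt x)) ?_
      rw [Finset.sum_const, smul_eq_mul, Nat.mul_comm]
    have e3 : t * T₁.card ≤ t * (t + φ + 1) := Nat.mul_le_mul_left _ h1
    have e4 : T₂.card * t ≤ t * (t + φ + 1) := by
      rw [Nat.mul_comm]
      exact Nat.mul_le_mul_left _ h2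
    have e6 : t * (2 * (t + φ + 1) + 2 * Z.card + 1) =
      t * (t + φ + 1) + t * (t + φ + 1) + 2 * (t * Z.card) + t := by ring
    omega) (by
    have h1 : ∑ v, f v = ∑ w ∈ W, g w + ∑ v, dg K v := by omega
    rw [h1] at heven
    exact (Nat.even_add.mp heven).mpr (even_sum_dg K))
  let M : SimpleGraph V :=
    { Adj := fun x y => B.Adj x y ∨ K.Adj x y
      symm := ⟨fun x y h => by
        rcases h with a | a
        · exact Or.inl a.symm
        · exact Or.inr a.symm⟩
      loopless := ⟨fun x h => by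
        rcases h with a | a
        · exact a.ne rfl
        · exact a.ne rfl⟩ }
  refine ⟨M, mem_Om.mpr ⟨?_, ?_⟩⟩
  · intro x y hxy hG
    rcases hxy with a | a
    · have hx := (hmemW x).mp (hB1 x y a).1
      have hy := (hmemW y).mp (hB1 x y a).2
      rcases hG.2 with b | b
      · exact hB2 x y a ⟨b, hx, hy⟩
      · rcases b.1 with c | c
        · exact hx c
        · exact hy c
    · rcases hG.2 with b | b
      · exact hK2 x y a b
      · exact b.2 a
  · intro v
    by_cases hv : v ∈ Z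
    · rw [hf v hv]
      refine dg_eq_card M v (nb K v) ?_
      intro y
      rw [mem_nb]
      constructor
      · exact fun hy => Or.inr hy
      · intro hy
        rcases hy with a | a
        · exact absurd hv ((hmemW v).mp (hB1 v y a).1)
        · exact a
    · have hdis : Disjoint (nb B v) (nb K v) := by
        rw [Finset.disjoint_left]
        intro x hx hx'
        rw [mem_nb] at hx hx'
        rcases hK1 v x hx' with h | h
        · exact hv h
        · exact (hmemW x).mp (hB1 v x hx).2 h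
      rw [dg_eq_card M v (nb B v ∪ nb K v), Finset.card_union_of_disjoint hdis]
      · have := hB3 v ((hmemW v).mpr hv)
        unfold dg at this
        rw [this]
        exact hg v
      · intro y
        rw [Finset.mem_union, mem_nb, mem_nb]

/-- a graph with small codegrees, except for one pair -/
lemma exists_small_codK (G K : SimpleGraph V) (Z : Finset V) (f : V → ℕ)
    (t φ t₀ : ℕ) (z₁ z₂ : V) (hz₁ : z₁ ∈ Z) (hz₂ : z₂ ∈ Z)
    (hnum : ∀ t : ℕ, t₀ ≤ t → (20 * 3 * t ^ 3) ^ 3 * (3 - 1) ^ (t / (4 * 3)) < 3 ^ (t / (4 * 3)))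
    (hφ : ∀ v, v ∉ Z → dg G v ≤ φ)
    (hK1 : ∀ x y, K.Adj x y → x ∈ Z ∨ y ∈ Z) (hK2 : ∀ x y, K.Adj x y → ¬ G.Adj x y)
    (hK4 : (nb K z₁ ∩ nb K z₂).card + 1 ≤ t)
    (hK5 : ∀ a b c e, Cy K a b c e → ((a = z₁ ∧ c = z₂) ∨ (a = z₂ ∧ c = z₁)) ∨
      ((b = z₁ ∧ e = z₂) ∨ (b = z₂ ∧ e = z₁)))
    (hf : ∀ z ∈ Z, f z = dg K z) (hft : ∀ v, f v ≤ t) (hf1 : ∀ v, dg K v ≤ f v)
    (heven : Even (∑ v, f v)) (ht : 1 ≤ t)
    (hsum : t * Fintype.card V ≤ ∑ v, f v + t * Z.card + 1)
    (hZ : 40 * Z.card ≤ Fintype.card V) (hφn : φ ≤ Fintype.card V / 16)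
    (h300 : 300 * t ≤ Fintype.card V) (hbig : 10000 ≤ Fintype.card V)
    (hn₀ : 30 * (t₀ + 60) ^ 3 ≤ Fintype.card V) :
    ∃ M ∈ Om (GpK G K Z) f, (∀ u w, u ≠ w → ¬ (u = z₁ ∧ w = z₂) → ¬ (u = z₂ ∧ w = z₁) →
      2 * cod M u w ≤ t + 1) ∧ cod M z₁ z₂ + 1 ≤ t := by
  set n := Fintype.card V with hn
  have hne : (Om (GpK G K Z) f).Nonempty := by
    refine Om_K_nonempty G K Z f t φ hφ hK1 hK2 hf hft hf1 heven ?_
    have h1 : 2 * (t + φ + 1) + 2 * Z.card + 1 + Z.card + 2 ≤ n := by omega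
    have h2 := Nat.mul_le_mul_left t h1
    have h3 : t * (2 * (t + φ + 1) + 2 * Z.card + 1 + Z.card + 2) =
      t * (2 * (t + φ + 1) + 2 * Z.card + 1) + t * Z.card + 2 * t := by ring
    omega
  have hsumlow : t * (n - Z.card - 1) ≤ ∑ v, f v := by
    have h1 : t * n = t * (n - Z.card - 1) + t * (Z.card + 1) := by
      rw [← Nat.mul_add]
      congr 1
      omega
    have h2 : t * (Z.card + 1) = t * Z.card + t := by ring
    omega
  have hdW : ∀ v ∈ univ \ Z, dg (GpK G K Z) v ≤ n / 16 + Z.card := by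
    intro v hv
    have hv' : v ∉ Z := (Finset.mem_sdiff.mp hv).2
    have h1 := dg_GpK G K Z v hv'
    have h2 := hφ v hv'
    omega
  have hmemW : ∀ x, x ∉ Z → x ∈ univ \ Z := fun x hx =>
    Finset.mem_sdiff.mpr ⟨Finset.mem_univ _, hx⟩
  -- pairs of neighbours in `K`
  have hpair : ∀ u w, u ≠ w → ¬ (u = z₁ ∧ w = z₂) → ¬ (u = z₂ ∧ w = z₁) →
      ∀ S : Finset V, (∀ x ∈ S, K.Adj u x ∧ K.Adj w x) → S.card ≤ 2 ∧ 2 * S.card ≤ t + 1 := by
    intro u w huw h1 h2 S hS
    by_cases hS1 : S.card ≤ 1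
    · omega
    · obtain ⟨b, hb, e, he, hbe⟩ := Finset.one_lt_card.mp (by omega : 1 < S.card)
      have hsub : ∀ b ∈ S, ∀ e ∈ S, b ≠ e → (b = z₁ ∧ e = z₂) ∨ (b = z₂ ∧ e = z₁) := by
        intro b hb e he hbe
        have := hK5 u b w e ⟨huw, hbe, (hS b hb).1, (hS b hb).2.symm, (hS e he).2,
          (hS e he).1.symm⟩
        rcases this with (h | h) | h
        · exact absurd h h1
        · exact absurd h h2
        · exact h
      have hS2 : S ⊆ {z₁, z₂} := by
        intro x hx
        rw [Finset.mem_insert, Finset.mem_singleton]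
        by_cases hxb : x = b
        · rcases hsub b hb e he hbe with h | h
          · exact Or.inl (hxb.trans h.1)
          · exact Or.inr (hxb.trans h.1)
        · rcases hsub x hx b hb hxb with h | h
          · exact Or.inl h.1
          · exact Or.inr h.1
      have hS3 : S.card ≤ 2 := le_trans (Finset.card_le_card hS2) Finset.card_le_two
      have hz12 : z₁ ∈ S ∧ z₂ ∈ S := by
        rcases hsub b hb e he hbe with h | h
        · rw [← h.1, ← h.2]
          exact ⟨hb, he⟩
        · rw [← h.1, ← h.2]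
          exact ⟨he, hb⟩
      have h3 : ({u, w} : Finset V) ⊆ nb K z₁ ∩ nb K z₂ := by
        intro x hx
        rw [Finset.mem_insert, Finset.mem_singleton] at hx
        rw [Finset.mem_inter, mem_nb, mem_nb]
        rcases hx with rfl | rfl
        · exact ⟨(hS z₁ hz12.1).1.symm, (hS z₂ hz12.2).1.symm⟩
        · exact ⟨(hS z₁ hz12.1).2.symm, (hS z₂ hz12.2).2.symm⟩
      have h4 := Finset.card_le_card h3
      rw [Finset.card_pair huw] at h4
      omega
  by_cases hcase : 30 * t ^ 3 ≤ n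
  · obtain ⟨M, hM, hc⟩ := exists_c4W2 (GpK G K Z) f (univ \ Z) (n / 16 + Z.card) t hdW hft ht hne (by
      have h1 : 16 * t ^ 4 = t * (16 * t ^ 3) := by ring
      have h2 : 2 * (t * (1 + (n / 16 + Z.card) + t)) = t * (2 * (1 + (n / 16 + Z.card) + t)) := by
        ring
      rw [h1, h2, ← Nat.mul_add]
      refine lt_of_lt_of_le ?_ hsumlow
      refine Nat.mul_lt_mul_of_pos_left ?_ ht
      omega)
    refine ⟨M, hM, ?_, ?_⟩
    · intro u w huw h1 h2
      by_cases hcod : cod M u w ≤ 1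
      · omega
      · refine (hpair u w huw h1 h2 (nb M u ∩ nb M w) ?_).2
        intro x hx
        have hc2 : 1 < (nb M u ∩ nb M w).card := by
          unfold cod at hcod
          omega
        obtain ⟨y, hy, hyx⟩ := Finset.exists_mem_ne hc2 x
        rw [Finset.mem_inter, mem_nb, mem_nb] at hx hy
        have hcy : Cy M u x w y := ⟨huw, hyx.symm, hx.1, hx.2.symm, hy.2, hy.1.symm⟩
        have e1 := hc u x w y hcy
        have e2 := hc x w y u hcy.rot
        constructor
        · refine adj_K G K Z f M hM u x hx.1 ?_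
          by_contra hcon
          rw [not_or] at hcon
          exact e1 ⟨hmemW u hcon.1, hmemW x hcon.2⟩
        · refine adj_K G K Z f M hM w x hx.2 ?_
          by_contra hcon
          rw [not_or] at hcon
          exact e2 ⟨hmemW x hcon.2, hmemW w hcon.1⟩
    · unfold cod
      rw [nb_K G K Z f hf M hM z₁ hz₁, nb_K G K Z f hf M hM z₂ hz₂]
      exact hK4
  · have ht0 : t₀ + 60 ≤ t := by
      by_contra hcon
      have h1 : t ^ 3 ≤ (t₀ + 60) ^ 3 := Nat.pow_le_pow_left (by omega) 3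
      omega
    obtain ⟨v, rfl⟩ : ∃ v, t = v + 12 := ⟨t - 12, by omega⟩
    have hv := hnum v (by omega)
    have hn60 : n ≤ 20 * 3 * v ^ 3 := by
      have h1 : (v + 12) ^ 3 ≤ 2 * v ^ 3 := by
        have h48 : 48 ≤ v := by omega
        nlinarith [mul_le_mul h48 h48 (by omega) (by omega), Nat.zero_le v,
          mul_le_mul (mul_le_mul h48 h48 (by omega) (by omega)) h48 (by omega) (by positivity),
          Nat.mul_le_mul_left (v * v) h48, Nat.mul_le_mul_left v h48]
      omega
    obtain ⟨M, hM, hc⟩ := exists_halfW2 (GpK G K Z) f (univ \ Z) (n / 16 + Z.card) (v + 12) (n / 3) 3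
      (v / (4 * 3)) le_rfl hdW hft ht (by
        have h1 : n / 3 + 2 * (n / 16 + Z.card) + 3 * (v + 12) + 3 ≤ n - Z.card - 1 := by omega
        have h2 := Nat.mul_le_mul_left (v + 12) h1
        omega) (by omega) (by omega) (by omega) (by omega) hne (by
        refine lt_of_le_of_lt ?_ hv
        exact Nat.mul_le_mul_right _ (Nat.pow_le_pow_left hn60 3))
    refine ⟨M, hM, ?_, ?_⟩
    · have key : ∀ u, u ∉ Z → ∀ w, u ≠ w → 2 * cod M u w ≤ v + 12 + 1 := by
        intro u hu w huw
        have h1 := hc u (hmemW u hu) w huw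
        have h2 : (nb M u ∩ nb M w ∩ Z).card ≤ 2 := by
          refine (hpair u w huw ?_ ?_ _ ?_).1
          · rintro ⟨rfl, _⟩
            exact hu hz₁
          · rintro ⟨rfl, _⟩
            exact hu hz₂
          · intro x hx
            rw [Finset.mem_inter, Finset.mem_inter, mem_nb, mem_nb] at hx
            exact ⟨adj_K G K Z f M hM u x hx.1.1 (Or.inr hx.2),
              adj_K G K Z f M hM w x hx.1.2 (Or.inr hx.2)⟩
        have h3 : cod M u w ≤ (nb M u ∩ nb M w ∩ (univ \ Z)).card + (nb M u ∩ nb M w ∩ Z).card := by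
          unfold cod
          refine le_trans (Finset.card_le_card ?_) (Finset.card_union_le _ _)
          intro x hx
          rw [Finset.mem_union]
          by_cases hxZ : x ∈ Z
          · exact Or.inr (Finset.mem_inter.mpr ⟨hx, hxZ⟩)
          · exact Or.inl (Finset.mem_inter.mpr ⟨hx, hmemW x hxZ⟩)
        omega
      intro u w huw h1 h2
      by_cases hu : u ∈ Z
      · by_cases hw : w ∈ Z
        · refine (hpair u w huw h1 h2 (nb M u ∩ nb M w) ?_).2
          intro x hx
          rw [Finset.mem_inter, mem_nb, mem_nb] at hx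
          exact ⟨adj_K G K Z f M hM u x hx.1 (Or.inl hu), adj_K G K Z f M hM w x hx.2 (Or.inl hw)⟩
        · have := key w hw u huw.symm
          unfold cod at this ⊢
          rw [Finset.inter_comm]
          exact this
      · exact key u hu w huw
    · unfold cod
      rw [nb_K G K Z f hf M hM z₁ hz₁, nb_K G K Z f hf M hM z₂ hz₂]
      exact hK4

omit [Fintype V] in
lemma sub_mem (A : Finset V) (x : V) (m : ℕ) (hx : x ∈ A) (hm : 1 ≤ m) (hmA : m ≤ A.card) :
    ∃ N ⊆ A, x ∈ N ∧ N.card = m := by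
  obtain ⟨N, h1, h2, h3⟩ := Finset.exists_subsuperset_card_eq
    (Finset.singleton_subset_iff.mpr hx) (by rw [Finset.card_singleton]; exact hm) hmA
  exact ⟨N, h2, Finset.singleton_subset_iff.mp h1, h3⟩

omit [Fintype V] in
lemma card_inter_lt {N₁ N₂ : Finset V} {x : V} {t : ℕ} (hx : x ∈ N₁) (hx' : x ∉ N₂)
    (h : N₁.card ≤ t) : (N₁ ∩ N₂).card + 1 ≤ t := by
  have h1 : N₁ ∩ N₂ ⊆ N₁.erase x := by
    intro y hy
    rw [Finset.mem_inter] at hy
    rw [Finset.mem_erase]
    refine ⟨?_, hy.1⟩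
    rintro rfl
    exact hx' hy.2
  have h2 := Finset.card_le_card h1
  have h3 := Finset.card_erase_add_one hx
  omega

omit [Fintype V] in
/-- two sets with prescribed sizes -/
lemma two_setsBD (A₁ A₂ : Finset V) (z₁ z₂ : V) (h1 : z₁ ∉ A₁) (h2 : z₂ ∉ A₂)
    (h : z₂ ∈ A₁ ↔ z₁ ∈ A₂) (t : ℕ) (ht : 1 ≤ t) :
    ∃ N₁ ⊆ A₁, ∃ N₂ ⊆ A₂, ∃ δ : ℕ, (z₂ ∈ N₁ ↔ z₁ ∈ N₂) ∧ N₁.card = min t A₁.card ∧
      N₂.card + δ = min t A₂.card ∧ (N₁ ∩ N₂).card + 1 ≤ t ∧ δ ≤ 1 ∧
      (δ = 1 → z₂ ∉ A₁ ∧ A₁ = A₂ ∧ A₁.card = t) := by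
  by_cases hz : z₂ ∈ A₁
  · have hz' := h.mp hz
    have c1 : 1 ≤ A₁.card := Finset.card_pos.mpr ⟨_, hz⟩
    have c2 : 1 ≤ A₂.card := Finset.card_pos.mpr ⟨_, hz'⟩
    obtain ⟨N₁, a1, a2, a3⟩ := sub_mem A₁ z₂ (min t A₁.card) hz (le_min ht c1) (min_le_right _ _)
    obtain ⟨N₂, b1, b2, b3⟩ := sub_mem A₂ z₁ (min t A₂.card) hz' (le_min ht c2) (min_le_right _ _)
    refine ⟨N₁, a1, N₂, b1, 0, ⟨fun _ => b2, fun _ => a2⟩, a3, by rw [b3]; rfl, ?_, by omega,
      by omega⟩
    refine card_inter_lt a2 (fun hh => h2 (b1 hh)) ?_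
    rw [a3]
    exact min_le_left _ _
  · have hz' : z₁ ∉ A₂ := fun hh => hz (h.mpr hh)
    have hiff : ∀ N₁ N₂ : Finset V, N₁ ⊆ A₁ → N₂ ⊆ A₂ → (z₂ ∈ N₁ ↔ z₁ ∈ N₂) :=
      fun N₁ N₂ a b => ⟨fun c => absurd (a c) hz, fun c => absurd (b c) hz'⟩
    rcases lt_or_ge A₁.card t with c1 | c1
    · obtain ⟨N₂, b1, b2⟩ := Finset.exists_subset_card_eq (min_le_right t A₂.card)
      refine ⟨A₁, subset_rfl, N₂, b1, 0, hiff _ _ subset_rfl b1, ?_, by rw [b2]; rfl, ?_, by omega,
        by omega⟩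
      · rw [min_eq_right c1.le]
      · have := Finset.card_le_card (Finset.inter_subset_left (s₁ := A₁) (s₂ := N₂))
        omega
    rcases lt_or_ge A₂.card t with c2 | c2
    · obtain ⟨N₁, b1, b2⟩ := Finset.exists_subset_card_eq (min_le_right t A₁.card)
      refine ⟨N₁, b1, A₂, subset_rfl, 0, hiff _ _ b1 subset_rfl, b2, ?_, ?_, by omega, by omega⟩
      · rw [min_eq_right c2.le]
        rfl
      · have := Finset.card_le_card (Finset.inter_subset_right (s₁ := N₁) (s₂ := A₂))
        omega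
    have m1 : min t A₁.card = t := min_eq_left c1
    have m2 : min t A₂.card = t := min_eq_left c2
    rw [m1, m2]
    by_cases hs1 : ∃ x ∈ A₁, x ∉ A₂
    · obtain ⟨x, hx, hx'⟩ := hs1
      obtain ⟨N₁, a1, a2, a3⟩ := sub_mem A₁ x t hx ht c1
      obtain ⟨N₂, b1, b2⟩ := Finset.exists_subset_card_eq c2
      refine ⟨N₁, a1, N₂, b1, 0, hiff _ _ a1 b1, a3, by rw [b2]; rfl, ?_, by omega, by omega⟩
      exact card_inter_lt a2 (fun hh => hx' (b1 hh)) a3.le
    by_cases hs2 : ∃ x ∈ A₂, x ∉ A₁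
    · obtain ⟨x, hx, hx'⟩ := hs2
      obtain ⟨N₂, a1, a2, a3⟩ := sub_mem A₂ x t hx ht c2
      obtain ⟨N₁, b1, b2⟩ := Finset.exists_subset_card_eq c1
      refine ⟨N₁, b1, N₂, a1, 0, hiff _ _ b1 a1, b2, by rw [a3]; rfl, ?_, by omega, by omega⟩
      rw [Finset.inter_comm]
      exact card_inter_lt a2 (fun hh => hx' (b1 hh)) a3.le
    push Not at hs1 hs2
    have hAA : A₁ = A₂ := Finset.Subset.antisymm hs1 hs2
    rcases c1.lt_or_eq with c3 | c3
    · obtain ⟨N₁, b1, b2⟩ := Finset.exists_subset_card_eq c1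
      obtain ⟨x, hx, hx'⟩ : ∃ x ∈ A₁, x ∉ N₁ := by
        by_contra hcon
        push Not at hcon
        have := Finset.card_le_card hcon
        omega
      obtain ⟨N₂, a1, a2, a3⟩ := sub_mem A₂ x t (hs1 x hx) ht c2
      refine ⟨N₁, b1, N₂, a1, 0, hiff _ _ b1 a1, b2, by rw [a3]; rfl, ?_, by omega, by omega⟩
      rw [Finset.inter_comm]
      exact card_inter_lt a2 hx' a3.le
    · obtain ⟨N₂, b1, b2⟩ := Finset.exists_subset_card_eq (show t - 1 ≤ A₂.card by omega)
      refine ⟨A₁, subset_rfl, N₂, b1, 1, hiff _ _ subset_rfl b1, c3.symm, by omega, ?_, le_rfl,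
        fun _ => ⟨hz, hAA, c3.symm⟩⟩
      have := Finset.card_le_card (Finset.inter_subset_right (s₁ := A₁) (s₂ := N₂))
      omega

/-- the graph at the hubs -/
lemma exists_K (G : SimpleGraph V) (Z : Finset V) (t k : ℕ) (ht : 1 ≤ t) (z₁ z₂ : V)
    (h12 : z₁ ≠ z₂) (hz₁ : z₁ ∈ Z) (hz₂ : z₂ ∈ Z) (hn : Fintype.card V = k + 1 + t)
    (hroom : ∀ z ∈ Z, z ≠ z₁ → z ≠ z₂ → dg G z + Z.card + (Z.card * t + 2 * t) ≤ Fintype.card V) :
    ∃ (K : SimpleGraph V) (δ : ℕ), (∀ x y, K.Adj x y → x ∈ Z ∨ y ∈ Z) ∧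
      (∀ x y, K.Adj x y → ¬ G.Adj x y) ∧ (nb K z₁ ∩ nb K z₂).card + 1 ≤ t ∧
      (∀ a b c e, Cy K a b c e → ((a = z₁ ∧ c = z₂) ∨ (a = z₂ ∧ c = z₁)) ∨
        ((b = z₁ ∧ e = z₂) ∨ (b = z₂ ∧ e = z₁))) ∧
      (∀ v, dg K v ≤ t) ∧
      dg K z₁ = min t (Fintype.card V - 1 - dg G z₁) ∧
      dg K z₂ + δ = min t (Fintype.card V - 1 - dg G z₂) ∧
      (∀ z ∈ Z, z ≠ z₁ → z ≠ z₂ → dg K z = t) ∧ δ ≤ 1 ∧ (δ = 1 → TwinK G k z₁ z₂) := by
  let A : V → Finset V := fun z => univ \ insert z (nb G z)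
  have hA : ∀ z y, y ∈ A z ↔ y ≠ z ∧ ¬ G.Adj z y := by
    intro z y
    show y ∈ univ \ insert z (nb G z) ↔ _
    rw [Finset.mem_sdiff, Finset.mem_insert, mem_nb, not_or]
    simp
  have hAc : ∀ z, (A z).card + dg G z + 1 = Fintype.card V := by
    intro z
    have h3 : (insert z (nb G z)).card = dg G z + 1 := by
      rw [Finset.card_insert_of_notMem]
      · rfl
      · rw [mem_nb]
        exact G.loopless.irrefl z
    have h4 := Finset.card_sdiff_add_card_eq_card (Finset.subset_univ (insert z (nb G z)))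
    rw [h3, Finset.card_univ] at h4
    show (univ \ insert z (nb G z)).card + dg G z + 1 = _
    omega
  have hAc' : ∀ z, Fintype.card V - 1 - dg G z = (A z).card := by
    intro z
    have := hAc z
    omega
  obtain ⟨N₁, hN1, N₂, hN2, δ, hsym, hc1, hc2, hc3, hδ, hδ1⟩ := two_setsBD (A z₁) (A z₂) z₁ z₂
    (by rw [hA]; exact fun h => h.1 rfl) (by rw [hA]; exact fun h => h.1 rfl)
    (by rw [hA, hA]; exact ⟨fun h => ⟨h.1.symm, fun h' => h.2 h'.symm⟩,
      fun h => ⟨h.1.symm, fun h' => h.2 h'.symm⟩⟩) t ht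
  have hN1' : ∀ y ∈ N₁, y ≠ z₁ ∧ ¬ G.Adj z₁ y := fun y hy => (hA z₁ y).mp (hN1 hy)
  have hN2' : ∀ y ∈ N₂, y ≠ z₂ ∧ ¬ G.Adj z₂ y := fun y hy => (hA z₂ y).mp (hN2 hy)
  have hN1t : N₁.card ≤ t := by
    rw [hc1]
    exact min_le_left _ _
  have hN2t : N₂.card ≤ t := by
    have := min_le_left t (A z₂).card
    omega
  let Z' : Finset V := (Z.erase z₁).erase z₂
  have hZ' : ∀ z, z ∈ Z' ↔ z ∈ Z ∧ z ≠ z₁ ∧ z ≠ z₂ := by
    intro z
    show z ∈ (Z.erase z₁).erase z₂ ↔ _
    rw [Finset.mem_erase, Finset.mem_erase]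
    tauto
  let m : V → ℕ := fun z => t - ((if z ∈ N₁ then 1 else 0) + (if z ∈ N₂ then 1 else 0))
  have hboth : ∀ z, z ∈ N₁ → z ∈ N₂ → 2 ≤ t := by
    intro z h1 h2
    have : 1 ≤ (N₁ ∩ N₂).card := Finset.card_pos.mpr ⟨z, Finset.mem_inter.mpr ⟨h1, h2⟩⟩
    omega
  have hm : ∀ z, m z + ((if z ∈ N₁ then 1 else 0) + (if z ∈ N₂ then 1 else 0)) = t := by
    intro z
    have h1 := hboth z
    show t - ((if z ∈ N₁ then 1 else 0) + (if z ∈ N₂ then 1 else 0)) +
      ((if z ∈ N₁ then 1 else 0) + (if z ∈ N₂ then 1 else 0)) = t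
    by_cases a : z ∈ N₁
    · by_cases b : z ∈ N₂
      · have := h1 a b
        rw [if_pos a, if_pos b]
        omega
      · rw [if_pos a, if_neg b]
        omega
    · by_cases b : z ∈ N₂
      · rw [if_neg a, if_pos b]
        omega
      · rw [if_neg a, if_neg b]
        omega
  obtain ⟨P, hPa, hPb, hPc⟩ := pick Z' (fun z => univ \ (Z ∪ nb G z ∪ (N₁ ∪ N₂))) m (by
    intro z hz
    obtain ⟨hz1, hz2, hz3⟩ := (hZ' z).mp hz
    have h1 : ∑ z' ∈ Z', m z' ≤ Z.card * t := by
      refine le_trans (Finset.sum_le_sum (fun z' _ => (show m z' ≤ t by have := hm z'; omega))) ?_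
      rw [Finset.sum_const, smul_eq_mul]
      refine Nat.mul_le_mul_right _ (Finset.card_le_card ?_)
      intro x hx
      exact ((hZ' x).mp hx).1
    have h2 := Finset.card_sdiff_add_card_eq_card
      (Finset.subset_univ (Z ∪ nb G z ∪ (N₁ ∪ N₂)))
    rw [Finset.card_univ] at h2
    have h3 := Finset.card_union_le (Z ∪ nb G z) (N₁ ∪ N₂)
    have h4 := Finset.card_union_le Z (nb G z)
    have h5 := Finset.card_union_le N₁ N₂
    have h6 := hroom z hz1 hz2 hz3
    have h7 : (nb G z).card = dg G z := rfl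
    show _ ≤ (univ \ (Z ∪ nb G z ∪ (N₁ ∪ N₂))).card
    omega)
  have hPm : ∀ z x, x ∈ P z → z ∈ Z ∧ z ≠ z₁ ∧ z ≠ z₂ ∧ x ∉ Z ∧ ¬ G.Adj z x ∧ x ∉ N₁ ∧
      x ∉ N₂ := by
    intro z x hx
    have hz : z ∈ Z' := by
      by_contra hcon
      rw [hPb z hcon] at hx
      exact absurd hx (Finset.notMem_empty _)
    have h1 := (hPa z hz).1 hx
    have h2 : x ∈ univ \ (Z ∪ nb G z ∪ (N₁ ∪ N₂)) := h1
    rw [Finset.mem_sdiff, Finset.mem_union, Finset.mem_union, Finset.mem_union, mem_nb, not_or,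
      not_or, not_or] at h2
    obtain ⟨hz1, hz2, hz3⟩ := (hZ' z).mp hz
    exact ⟨hz1, hz2, hz3, h2.2.1.1, h2.2.1.2, h2.2.2.1, h2.2.2.2⟩
  let K : SimpleGraph V :=
    { Adj := fun x y => ((x = z₁ ∧ y ∈ N₁) ∨ (y = z₁ ∧ x ∈ N₁)) ∨
        ((x = z₂ ∧ y ∈ N₂) ∨ (y = z₂ ∧ x ∈ N₂)) ∨ (y ∈ P x ∨ x ∈ P y)
      symm := ⟨fun x y h => by
        rcases h with h | h | h
        · exact Or.inl h.symm
        · exact Or.inr (Or.inl h.symm)
        · exact Or.inr (Or.inr h.symm)⟩
      loopless := ⟨fun x h => by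
        rcases h with (h | h) | (h | h) | (h | h)
        · exact (hN1' x h.2).1 h.1
        · exact (hN1' x h.2).1 h.1
        · exact (hN2' x h.2).1 h.1
        · exact (hN2' x h.2).1 h.1
        · exact (hPm x x h).2.2.2.1 (hPm x x h).1
        · exact (hPm x x h).2.2.2.1 (hPm x x h).1⟩ }
  have hKadj : ∀ x y, K.Adj x y ↔ ((x = z₁ ∧ y ∈ N₁) ∨ (y = z₁ ∧ x ∈ N₁)) ∨
        ((x = z₂ ∧ y ∈ N₂) ∨ (y = z₂ ∧ x ∈ N₂)) ∨ (y ∈ P x ∨ x ∈ P y) := fun x y => Iff.rfl
  -- the neighbours of a private vertex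
  have hpriv : ∀ z x y, x ∈ P z → K.Adj x y → y = z := by
    intro z x y hx hxy
    obtain ⟨q1, q2, q3, q4, q5, q6, q7⟩ := hPm z x hx
    rw [hKadj] at hxy
    rcases hxy with (h | h) | (h | h) | (h | h)
    · exact absurd (h.1 ▸ hz₁) q4
    · exact absurd h.2 q6
    · exact absurd (h.1 ▸ hz₂) q4
    · exact absurd h.2 q7
    · exact absurd (hPm x y h).1 q4
    · by_contra hne
      exact (Finset.disjoint_left.mp (hPc y z hne)) h hx
  have hnb1 : nb K z₁ = N₁ := by
    ext y
    rw [mem_nb, hKadj]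
    constructor
    · rintro ((h | h) | (h | h) | (h | h))
      · exact h.2
      · exact absurd rfl (hN1' z₁ h.2).1
      · exact absurd h.1 h12
      · rw [h.1]
        exact hsym.mpr h.2
      · exact absurd rfl (hPm z₁ y h).2.1
      · exact absurd hz₁ (hPm y z₁ h).2.2.2.1
    · exact fun h => Or.inl (Or.inl ⟨rfl, h⟩)
  have hnb2 : nb K z₂ = N₂ := by
    ext y
    rw [mem_nb, hKadj]
    constructor
    · rintro ((h | h) | (h | h) | (h | h))
      · exact absurd h.1.symm h12
      · rw [h.1]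
        exact hsym.mp h.2
      · exact h.2
      · exact absurd rfl (hN2' z₂ h.2).1
      · exact absurd rfl (hPm z₂ y h).2.2.1
      · exact absurd hz₂ (hPm y z₂ h).2.2.2.1
    · exact fun h => Or.inr (Or.inl (Or.inl ⟨rfl, h⟩))
  have hnbz : ∀ z ∈ Z, z ≠ z₁ → z ≠ z₂ → dg K z = t := by
    intro z hz hz1 hz2
    have hzZ : z ∈ Z' := (hZ' z).mpr ⟨hz, hz1, hz2⟩
    rw [dg_eq_card K z (P z ∪ ((if z ∈ N₁ then {z₁} else ∅) ∪ (if z ∈ N₂ then {z₂} else ∅)))]
    · rw [Finset.card_union_of_disjoint, Finset.card_union_of_disjoint, (hPa z hzZ).2]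
      · have h1 : (if z ∈ N₁ then ({z₁} : Finset V) else ∅).card = if z ∈ N₁ then 1 else 0 := by
          split_ifs
          · exact Finset.card_singleton _
          · exact Finset.card_empty
        have h2 : (if z ∈ N₂ then ({z₂} : Finset V) else ∅).card = if z ∈ N₂ then 1 else 0 := by
          split_ifs
          · exact Finset.card_singleton _
          · exact Finset.card_empty
        rw [h1, h2]
        exact hm z
      · rw [Finset.disjoint_left]
        intro x hx hx'
        split_ifs at hx hx'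
        · rw [Finset.mem_singleton] at hx hx'
          exact h12 (hx.symm.trans hx')
        · exact absurd hx' (Finset.notMem_empty _)
        · exact absurd hx (Finset.notMem_empty _)
        · exact absurd hx (Finset.notMem_empty _)
      · rw [Finset.disjoint_left]
        intro x hx hx'
        have hxZ := (hPm z x hx).2.2.2.1
        rw [Finset.mem_union] at hx'
        rcases hx' with h | h
        · split_ifs at h
          · rw [Finset.mem_singleton] at h
            exact hxZ (h ▸ hz₁)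
          · exact absurd h (Finset.notMem_empty _)
        · split_ifs at h
          · rw [Finset.mem_singleton] at h
            exact hxZ (h ▸ hz₂)
          · exact absurd h (Finset.notMem_empty _)
    · intro y
      rw [hKadj, Finset.mem_union, Finset.mem_union]
      constructor
      · rintro (h | h | h)
        · exact Or.inr (Or.inr (Or.inl h))
        · split_ifs at h with h'
          · rw [Finset.mem_singleton] at h
            exact Or.inl (Or.inr ⟨h, h'⟩)
          · exact absurd h (Finset.notMem_empty _)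
        · split_ifs at h with h'
          · rw [Finset.mem_singleton] at h
            exact Or.inr (Or.inl (Or.inr ⟨h, h'⟩))
          · exact absurd h (Finset.notMem_empty _)
      · rintro ((h | h) | (h | h) | (h | h))
        · exact absurd h.1 hz1
        · refine Or.inr (Or.inl ?_)
          rw [if_pos h.2, Finset.mem_singleton]
          exact h.1
        · exact absurd h.1 hz2
        · refine Or.inr (Or.inr ?_)
          rw [if_pos h.2, Finset.mem_singleton]
          exact h.1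
        · exact Or.inl h
        · exact absurd hz (hPm y z h).2.2.2.1
  refine ⟨K, δ, ?_, ?_, ?_, ?_, ?_, ?_, ?_, hnbz, hδ, ?_⟩
  · intro x y hxy
    rw [hKadj] at hxy
    rcases hxy with (h | h) | (h | h) | (h | h)
    · exact Or.inl (h.1 ▸ hz₁)
    · exact Or.inr (h.1 ▸ hz₁)
    · exact Or.inl (h.1 ▸ hz₂)
    · exact Or.inr (h.1 ▸ hz₂)
    · exact Or.inl (hPm x y h).1
    · exact Or.inr (hPm y x h).1
  · intro x y hxy hG
    rw [hKadj] at hxy
    rcases hxy with (h | h) | (h | h) | (h | h)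
    · exact (hN1' y h.2).2 (h.1 ▸ hG)
    · exact (hN1' x h.2).2 (h.1 ▸ hG.symm)
    · exact (hN2' y h.2).2 (h.1 ▸ hG)
    · exact (hN2' x h.2).2 (h.1 ▸ hG.symm)
    · exact (hPm x y h).2.2.2.2.1 hG
    · exact (hPm y x h).2.2.2.2.1 hG.symm
  · rw [hnb1, hnb2]
    exact hc3
  · -- 4-cycles
    have hedge : ∀ a b c e, Cy K a b c e → (a = z₁ ∨ a = z₂) ∨ (b = z₁ ∨ b = z₂) := by
      rintro a b c e ⟨hac, hbe, hab, hbc, hce, hea⟩
      have hab' := hab
      rw [hKadj] at hab'
      rcases hab' with (h | h) | (h | h) | (h | h)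
      · exact Or.inl (Or.inl h.1)
      · exact Or.inr (Or.inl h.1)
      · exact Or.inl (Or.inr h.1)
      · exact Or.inr (Or.inr h.1)
      · exact absurd (hpriv a b c h hbc).symm hac
      · exact absurd (hpriv b a e h hea.symm).symm hbe
    intro a b c e hc
    have e1 := hedge a b c e hc
    have e2 := hedge b c e a hc.rot
    have e3 := hedge c e a b hc.rot.rot
    have e4 := hedge e a b c hc.rot.rot.rot
    have hac := hc.1
    have hbe := hc.2.1
    have fin : ∀ p q : V, p ≠ q → (p = z₁ ∨ p = z₂) → (q = z₁ ∨ q = z₂) →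
        (p = z₁ ∧ q = z₂) ∨ (p = z₂ ∧ q = z₁) := by
      intro p q hpq hp hq
      rcases hp with hp | hp
      · rcases hq with hq | hq
        · exact absurd (hp.trans hq.symm) hpq
        · exact Or.inl ⟨hp, hq⟩
      · rcases hq with hq | hq
        · exact Or.inr ⟨hp, hq⟩
        · exact absurd (hp.trans hq.symm) hpq
    by_cases ha : a = z₁ ∨ a = z₂
    · by_cases hcc : c = z₁ ∨ c = z₂
      · exact Or.inl (fin a c hac ha hcc)
      · exact Or.inr (fin b e hbe (e2.resolve_right hcc) (e3.resolve_left hcc))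
    · exact Or.inr (fin b e hbe (e1.resolve_left ha) (e4.resolve_right ha))
  · intro v
    by_cases hv1 : v = z₁
    · subst hv1
      unfold dg
      rw [hnb1]
      exact hN1t
    by_cases hv2 : v = z₂
    · subst hv2
      unfold dg
      rw [hnb2]
      exact hN2t
    by_cases hvZ : v ∈ Z
    · exact (hnbz v hvZ hv1 hv2).le
    by_cases hvP : ∃ z, v ∈ P z
    · obtain ⟨z, hz⟩ := hvP
      have h1 : nb K v ⊆ {z} := by
        intro y hy
        rw [mem_nb] at hy
        rw [Finset.mem_singleton]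
        exact hpriv z v y hz hy
      have h2 := Finset.card_le_card h1
      rw [Finset.card_singleton] at h2
      unfold dg
      omega
    · push Not at hvP
      have h1 : ∀ y, K.Adj v y → (y = z₁ ∧ v ∈ N₁) ∨ (y = z₂ ∧ v ∈ N₂) := by
        intro y hy
        rw [hKadj] at hy
        rcases hy with (h | h) | (h | h) | (h | h)
        · exact absurd h.1 hv1
        · exact Or.inl h
        · exact absurd h.1 hv2
        · exact Or.inr h
        · exact absurd (hPm v y h).1 hvZ
        · exact absurd h (hvP y)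
      by_cases hv3 : v ∈ N₁
      · by_cases hv4 : v ∈ N₂
        · have h2 := hboth v hv3 hv4
          refine le_trans (Finset.card_le_card (t := {z₁, z₂}) ?_) (Finset.card_le_two.trans h2)
          intro y hy
          rw [mem_nb] at hy
          rw [Finset.mem_insert, Finset.mem_singleton]
          rcases h1 y hy with h | h
          · exact Or.inl h.1
          · exact Or.inr h.1
        · refine le_trans (Finset.card_le_card (t := {z₁}) ?_)
            ((Finset.card_singleton z₁).le.trans ht)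
          intro y hy
          rw [mem_nb] at hy
          rw [Finset.mem_singleton]
          rcases h1 y hy with h | h
          · exact h.1
          · exact absurd h.2 hv4
      · refine le_trans (Finset.card_le_card (t := {z₂}) ?_)
          ((Finset.card_singleton z₂).le.trans ht)
        intro y hy
        rw [mem_nb] at hy
        rw [Finset.mem_singleton]
        rcases h1 y hy with h | h
        · exact absurd h.2 hv3
        · exact h.1
  · unfold dg
    rw [hnb1, hc1]
    exact congrArg (min t) (hAc' z₁).symm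
  · rw [hAc' z₂, ← hc2]
    unfold dg
    rw [hnb2]
  · intro hδ1'
    obtain ⟨q1, q2, q3⟩ := hδ1 hδ1'
    have q4 : G.Adj z₁ z₂ := by
      by_contra hcon
      exact q1 ((hA z₁ z₂).mpr ⟨h12.symm, hcon⟩)
    have a1 := hAc z₁
    have a2 := hAc z₂
    rw [← q2] at a2
    refine ⟨q4, by omega, by omega, ?_⟩
    intro w hw1 hw2
    have h3 := hA z₁ w
    have h4 := hA z₂ w
    rw [q2] at h3
    rw [h3] at h4
    constructor
    · intro h
      by_contra hcon
      exact (h4.mpr ⟨hw2, hcon⟩).2 h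
    · intro h
      by_contra hcon
      exact (h4.mp ⟨hw1, hcon⟩).2 h

/-- the degrees in a graph with outdegrees at most `D` -/
lemma sum_dg_outZ (G : SimpleGraph V) (out : V → Finset V) (D : ℕ)
    (hD : ∀ v, (out v).card ≤ D) (hout : ∀ x y, G.Adj x y → y ∈ out x ∨ x ∈ out y)
    (Z : Finset V) : ∑ z ∈ Z, dg G z ≤ D * Fintype.card V + D * Z.card := by
  have h1 : ∀ z ∈ Z, dg G z ≤ (univ.filter (fun x => z ∈ out x)).card + D := by
    intro z _
    unfold dg
    refine le_trans (Finset.card_le_card (t := univ.filter (fun x => z ∈ out x) ∪ out z) ?_)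
      (le_trans (Finset.card_union_le _ _) (Nat.add_le_add_left (hD z) _))
    intro y hy
    rw [mem_nb] at hy
    rw [Finset.mem_union, Finset.mem_filter]
    rcases hout z y hy with h | h
    · exact Or.inr h
    · exact Or.inl ⟨Finset.mem_univ _, h⟩
  have h2 : ∑ z ∈ Z, (univ.filter (fun x => z ∈ out x)).card ≤ D * Fintype.card V := by
    have h3 : ∀ z ∈ Z, (univ.filter (fun x => z ∈ out x)).card =
        ∑ x : V, if z ∈ out x then 1 else 0 := fun z _ => Finset.card_filter _ _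
    rw [Finset.sum_congr rfl h3, Finset.sum_comm, Nat.mul_comm, ← Finset.card_univ (α := V),
      ← smul_eq_mul, ← Finset.sum_const]
    refine Finset.sum_le_sum (fun x _ => ?_)
    rw [← Finset.card_filter]
    refine le_trans (Finset.card_le_card ?_) (hD x)
    intro z hz
    exact (Finset.mem_filter.mp hz).2
  refine le_trans (Finset.sum_le_sum h1) ?_
  rw [Finset.sum_add_distrib, Finset.sum_const, smul_eq_mul, Nat.mul_comm Z.card D]
  exact Nat.add_le_add_right h2 _

lemma tau_pos (G : SimpleGraph V) (k : ℕ) (x y : V) (h : TwinK G k x y) : 1 ≤ tau G k := by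
  unfold tau
  rw [Nat.one_le_iff_ne_zero, ← Nat.pos_iff_ne_zero, Set.ncard_pos (Set.toFinite _)]
  exact ⟨s(x, y), x, y, rfl, h⟩

lemma card_inter3 (A B C : Finset V) :
    A.card + B.card + C.card ≤ (A ∩ B ∩ C).card + 2 * Fintype.card V := by
  have h1 := Finset.card_union_add_card_inter A B
  have h2 := Finset.card_union_add_card_inter (A ∩ B) C
  have h3 := Finset.card_le_univ (A ∪ B)
  have h4 := Finset.card_le_univ (A ∩ B ∪ C)
  omega

end aux

/-- the dense case -/
theorem regimeBD (D s : ℕ) : ∃ N₀ : ℕ, ∀ (V : Type u) [Fintype V] (G : SimpleGraph V)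
    (out : V → Finset V) (k t : ℕ), (∀ v, (out v).card ≤ D) →
    (∀ x y, G.Adj x y → y ∈ out x ∨ x ∈ out y) →
    (∀ x y z, x ≠ y → x ≠ z → y ≠ z → (nb G x ∩ nb G y ∩ nb G z).card < s) →
    Fintype.card V = k + 1 + t → 1 ≤ t → 1000 * (D + 1) * t ≤ Fintype.card V →
    N₀ ≤ Fintype.card V →
    ∃ H : SimpleGraph V, G ≤ H ∧ SepFree H k ∧
      ∑ v, dg H v ≤ ∑ v, max k (dg G v) + tau G k + 1 := by
  obtain ⟨t₀, hnum⟩ := num_large 3 le_rfl
  refine ⟨30 * (t₀ + 60) ^ 3 + 10000 * (D + 1) + 20 * s, ?_⟩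
  intro V _ G out k t hD hout hK hn ht h1000 hN
  set n := Fintype.card V with hnn
  have hDn : 10000 * (D + 1) ≤ n := by omega
  have hsn : 20 * s ≤ n := by omega
  -- the two vertices of largest degree
  have hV : (univ : Finset V).Nonempty := by
    rw [← Finset.card_pos, Finset.card_univ]
    omega
  obtain ⟨z₁, _, hz1max⟩ := Finset.exists_max_image univ (dg G) hV
  have hV2 : ((univ : Finset V).erase z₁).Nonempty := by
    rw [← Finset.card_pos, Finset.card_erase_of_mem (Finset.mem_univ _), Finset.card_univ]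
    omega
  obtain ⟨z₂, hz2, hz2max⟩ := Finset.exists_max_image (univ.erase z₁) (dg G) hV2
  have h12 : z₁ ≠ z₂ := fun h => (Finset.mem_erase.mp hz2).1 h.symm
  have hsmall : ∀ z, z ≠ z₁ → z ≠ z₂ → 10 * dg G z ≤ 7 * n := by
    intro z h1 h2
    by_contra hcon
    have e1 := hz1max z (Finset.mem_univ _)
    have e2 := hz2max z (Finset.mem_erase.mpr ⟨h1, Finset.mem_univ _⟩)
    have e3 := hK z₁ z₂ z h12 h1.symm h2.symm
    have e4 := card_inter3 (nb G z₁) (nb G z₂) (nb G z)
    have e5 : (nb G z₁).card = dg G z₁ := rfl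
    have e6 : (nb G z₂).card = dg G z₂ := rfl
    have e7 : (nb G z).card = dg G z := rfl
    omega
  -- the hubs
  set Z₀ : Finset V := univ.filter (fun v => n / 16 < dg G v) with hZ0def
  have hmemZ0 : ∀ v, v ∈ Z₀ ↔ n / 16 < dg G v := by
    intro v
    rw [hZ0def, Finset.mem_filter]
    simp
  have hZ0 : Z₀.card ≤ 17 * D := by
    have h1 := sum_dg_outZ G out D hD hout Z₀
    rw [← hnn] at h1
    have h2 : (n / 16 + 1) * Z₀.card ≤ ∑ z ∈ Z₀, dg G z := by
      rw [Nat.mul_comm, ← smul_eq_mul, ← Finset.sum_const]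
      exact Finset.sum_le_sum (fun z hz => (hmemZ0 z).mp hz)
    generalize hq : n / 16 + 1 = q at h2
    generalize Z₀.card = c at h1 h2 ⊢
    have hq1 : n ≤ 16 * q := by omega
    have hq2 : 34 * D ≤ q := by omega
    have h3 : D * n ≤ D * (16 * q) := Nat.mul_le_mul_left _ hq1
    have h4 : 34 * D * c ≤ q * c := Nat.mul_le_mul_right _ hq2
    have h5 : 33 * c * q ≤ 544 * D * q := by
      have e1 : D * (16 * q) * 34 = 544 * D * q := by ring
      have e2 : 34 * D * c = D * c * 34 := by ring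
      have e3 : 33 * c * q = q * c * 33 := by ring
      omega
    have h6 := Nat.le_of_mul_le_mul_right h5 (by omega)
    omega
  set Z : Finset V := Z₀ ∪ {z₁, z₂} with hZdef
  have hz1Z : z₁ ∈ Z := by
    rw [hZdef, Finset.mem_union, Finset.mem_insert]
    exact Or.inr (Or.inl rfl)
  have hz2Z : z₂ ∈ Z := by
    rw [hZdef, Finset.mem_union, Finset.mem_insert, Finset.mem_singleton]
    exact Or.inr (Or.inr rfl)
  have hZc : Z.card ≤ 17 * D + 2 := by
    have h1 := Finset.card_union_le Z₀ {z₁, z₂}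
    rw [← hZdef] at h1
    have h2 : ({z₁, z₂} : Finset V).card ≤ 2 := Finset.card_le_two
    omega
  have hZt : (Z.card + 2) * t ≤ 17 * ((D + 1) * t) := by
    rw [← Nat.mul_assoc]
    exact Nat.mul_le_mul_right _ (by omega)
  have hZt' : (Z.card + 2) * t = Z.card * t + 2 * t := by ring
  have h1000' : 1000 * ((D + 1) * t) ≤ n := by
    rw [← Nat.mul_assoc]
    exact h1000
  have h1000t : 1000 * t ≤ n := by
    refine le_trans ?_ h1000'
    refine Nat.mul_le_mul_left _ ?_
    calc t = 1 * t := (Nat.one_mul t).symm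
      _ ≤ (D + 1) * t := Nat.mul_le_mul_right _ (by omega)
  obtain ⟨K, δ, hK1, hK2, hK4, hK5, hKt, hKz1, hKz2, hKz, hδ, hδ1⟩ := exists_K G Z t k ht z₁ z₂ h12
    hz1Z hz2Z hn (by
      intro z _ h1 h2
      have := hsmall z h1 h2
      omega)
  -- a vertex outside all sets
  obtain ⟨w0, hw0⟩ : ∃ w0, w0 ∉ Z ∪ Z.biUnion (fun z => nb K z) := by
    by_contra hcon
    push Not at hcon
    have h1 : Fintype.card V ≤ (Z ∪ Z.biUnion (fun z => nb K z)).card := by
      rw [← Finset.card_univ]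
      exact Finset.card_le_card (fun x _ => hcon x)
    have h2 := Finset.card_union_le Z (Z.biUnion (fun z => nb K z))
    have h3 : (Z.biUnion (fun z => nb K z)).card ≤ Z.card * t :=
      Finset.card_biUnion_le_card_mul _ _ _ (fun z _ => hKt z)
    omega
  rw [Finset.mem_union, not_or, Finset.mem_biUnion] at hw0
  have hKw0 : dg K w0 = 0 := by
    unfold dg
    rw [Finset.card_eq_zero, Finset.eq_empty_iff_forall_notMem]
    intro y hy
    rw [mem_nb] at hy
    rcases hK1 w0 y hy with h | h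
    · exact hw0.1 h
    · exact hw0.2 ⟨y, h, mem_nb.mpr hy.symm⟩
  -- the degrees
  have hpar : ∃ e : ℕ, e ≤ 1 ∧ Even (∑ z ∈ Z, dg K z + (t * (univ \ Z).card - e)) := by
    rcases Nat.even_or_odd (∑ z ∈ Z, dg K z + t * (univ \ Z).card) with h | h
    · exact ⟨0, by omega, h⟩
    · refine ⟨1, le_rfl, ?_⟩
      have h1 : 1 ≤ t * (univ \ Z).card := by
        refine Nat.mul_pos ht (Finset.card_pos.mpr ⟨w0, ?_⟩)
        rw [Finset.mem_sdiff]
        exact ⟨Finset.mem_univ _, hw0.1⟩
      obtain ⟨q, hq⟩ := h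
      exact ⟨q, by omega⟩
  obtain ⟨e, he1, heven⟩ := hpar
  let f : V → ℕ := fun v => if v ∈ Z then dg K v else (if v = w0 then t - e else t)
  have hfZ : ∀ z ∈ Z, f z = dg K z := fun z hz => if_pos hz
  have hfW : ∀ w, w ∉ Z → f w = if w = w0 then t - e else t := fun w hw => if_neg hw
  have hft : ∀ v, f v ≤ t := by
    intro v
    by_cases hv : v ∈ Z
    · rw [hfZ v hv]
      exact hKt v
    · rw [hfW v hv]
      split_ifs <;> omega
  have hf1 : ∀ v, dg K v ≤ f v := by
    intro v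
    by_cases hv : v ∈ Z
    · exact (hfZ v hv).ge
    · rw [hfW v hv]
      split_ifs with h
      · rw [h, hKw0]
        exact Nat.zero_le _
      · exact hKt v
  have hsumW : ∑ w ∈ univ \ Z, f w + e = t * (univ \ Z).card := by
    have hw0' : w0 ∈ univ \ Z := by
      rw [Finset.mem_sdiff]
      exact ⟨Finset.mem_univ _, hw0.1⟩
    have h1 : ∑ w ∈ univ \ Z, (f w + (if w = w0 then e else 0)) = ∑ _w ∈ univ \ Z, t := by
      refine Finset.sum_congr rfl (fun w hw => ?_)
      rw [hfW w (Finset.mem_sdiff.mp hw).2]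
      split_ifs <;> omega
    rw [Finset.sum_add_distrib, Finset.sum_const, smul_eq_mul, Finset.sum_ite_eq' (univ \ Z) w0,
      if_pos hw0'] at h1
    rw [h1, Nat.mul_comm]
  have hsumV : ∑ v, f v = ∑ z ∈ Z, dg K z + ∑ w ∈ univ \ Z, f w := by
    rw [← Finset.sum_sdiff (Finset.subset_univ Z), Nat.add_comm]
    congr 1
    exact Finset.sum_congr rfl hfZ
  have hWcard : (univ \ Z).card + Z.card = n := by
    rw [Finset.card_sdiff_add_card_eq_card (Finset.subset_univ _), Finset.card_univ]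
  obtain ⟨M, hM, hcod, hcod2⟩ := exists_small_codK G K Z f t (n / 16) t₀ z₁ z₂ hz1Z hz2Z hnum
    (fun v hv => by
      by_contra hcon
      refine hv ?_
      rw [hZdef, Finset.mem_union, hmemZ0]
      exact Or.inl (by omega))
    hK1 hK2 hK4 hK5 hfZ hft hf1
    (by
      rw [hsumV]
      have h1 : ∑ w ∈ univ \ Z, f w = t * (univ \ Z).card - e := by omega
      rw [h1]
      exact heven) ht
    (by
      rw [← hnn, ← hWcard, Nat.mul_add]
      omega) (by omega) le_rfl (by omega) (by omega) (by omega)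
  have hM' := mem_Om.mp hM
  have hδτ : δ ≤ tau G k := by
    rcases Nat.lt_or_ge δ 1 with h | h
    · omega
    · have := tau_pos G k z₁ z₂ (hδ1 (by omega))
      omega
  have hdn : ∀ v, dg G v + 1 ≤ n := by
    intro v
    have := dg_compl G v
    omega
  refine ⟨Mᶜ, ?_, ?_, ?_⟩
  · intro x y hxy
    rw [SimpleGraph.compl_adj]
    exact ⟨hxy.ne, fun h => hM'.1 x y h ⟨hxy.ne, Or.inl hxy⟩⟩
  · exact sepFree_compl2 M t k z₁ z₂ (fun v => by rw [hM'.2 v]; exact hft v) hn hcod hcod2
  · have h1 : ∀ v, dg Mᶜ v ≤ max k (dg G v) + (if v = z₂ then δ else 0) +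
        (if v = w0 then 1 else 0) := by
      intro v
      have e1 := dg_compl M v
      rw [hM'.2 v] at e1
      have e3 := hdn v
      have e4 := le_max_left k (dg G v)
      have e5 := le_max_right k (dg G v)
      by_cases hv : v ∈ Z
      · rw [hfZ v hv] at e1
        refine le_trans ?_ (Nat.le_add_right _ _)
        by_cases hv1 : v = z₁
        · subst hv1
          rw [hKz1] at e1
          refine le_trans ?_ (Nat.le_add_right _ _)
          rcases le_total t (n - 1 - dg G v) with h | h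
          · rw [min_eq_left h] at e1
            omega
          · rw [min_eq_right h] at e1
            omega
        · by_cases hv2 : v = z₂
          · subst hv2
            rw [if_pos rfl]
            rcases le_total t (n - 1 - dg G v) with h | h
            · rw [min_eq_left h] at hKz2
              omega
            · rw [min_eq_right h] at hKz2
              omega
          · rw [hKz v hv hv1 hv2] at e1
            refine le_trans ?_ (Nat.le_add_right _ _)
            omega
      · rw [hfW v hv] at e1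
        split_ifs at e1 ⊢ <;> omega
    refine le_trans (Finset.sum_le_sum (fun v _ => h1 v)) ?_
    rw [Finset.sum_add_distrib, Finset.sum_add_distrib, Finset.sum_ite_eq' univ w0,
      Finset.sum_ite_eq' univ z₂, if_pos (Finset.mem_univ _), if_pos (Finset.mem_univ _)]
    omega

end Pool.Agent.BD48
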