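import Mathlib
import Pool.Agent.BD48.RegBD
import Pool.Agent.BD48.NumH

/-!
Highly connected supergraphs of sparse graphs with at most two vertices of very large degree, dense
case.
-/

namespace Pool.Agent.BD48

open Finset

attribute [local instance] Classical.propDecidable

universe u

/-- the dense case -/
theorem regimeBG (D : ℕ) (V : Type u) [Fintype V] (G : SimpleGraph V)
    (out : V → Finset V) (k t : ℕ) (hD : ∀ v, (out v).card ≤ D)
    (hout : ∀ x y, G.Adj x y → y ∈ out x ∨ x ∈ out y)
    (hK : (univ.filter (fun v => 7 * Fintype.card V < 10 * dg G v)).card ≤ 2)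
    (hn : Fintype.card V = k + 1 + t) (ht : 1 ≤ t)
    (h1000 : 1000 * (D + 1) * t ≤ Fintype.card V)
    (hN' : 1000000000000 * (D + 1) ≤ Fintype.card V) :
    ∃ H : SimpleGraph V, G ≤ H ∧ SepFree H k ∧
      ∑ v, dg H v ≤ ∑ v, max k (dg G v) + tau G k + 1 := by
  obtain ⟨t₀, ht₀⟩ : ∃ t₀ : ℕ, t₀ = 3000 := ⟨_, rfl⟩
  have hnum : ∀ t : ℕ, t₀ ≤ t →
      (20 * 3 * t ^ 3) ^ 3 * (3 - 1) ^ (t / (4 * 3)) < 3 ^ (t / (4 * 3)) := by
    intro t ht
    exact num_twelve t (by rw [← ht₀]; exact ht)
  have hN : 30 * (t₀ + 60) ^ 3 + 10000 * (D + 1) + D ≤ Fintype.card V := by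
    have h1 : 30 * (t₀ + 60) ^ 3 ≤ 900000000000 := by
      rw [ht₀]
      norm_num
    omega
  have hK3 : ∀ x y z, x ≠ y → x ≠ z → y ≠ z → 7 * Fintype.card V < 10 * dg G x →
      7 * Fintype.card V < 10 * dg G y → 7 * Fintype.card V < 10 * dg G z → False := by
    intro x y z hxy hxz hyz hx hy hz
    have e3 : ({x, y, z} : Finset V) ⊆
        univ.filter (fun v => 7 * Fintype.card V < 10 * dg G v) := by
      intro v hv
      rw [Finset.mem_filter]
      refine ⟨Finset.mem_univ _, ?_⟩
      rw [Finset.mem_insert, Finset.mem_insert, Finset.mem_singleton] at hv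
      rcases hv with rfl | rfl | rfl
      · exact hx
      · exact hy
      · exact hz
    have e4 := le_trans (Finset.card_le_card e3) hK
    rw [Finset.card_insert_of_notMem (by
      rw [Finset.mem_insert, Finset.mem_singleton, not_or]
      exact ⟨hxy, hxz⟩), Finset.card_insert_of_notMem (by
      rw [Finset.mem_singleton]
      exact hyz), Finset.card_singleton] at e4
    exact absurd e4 (by decide)
  clear hK
  set n := Fintype.card V with hnn
  have hDn : 10000 * (D + 1) ≤ n := by omega
  -- the two vertices of largest degree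
  have hV : (univ : Finset V).Nonempty := by
    rw [← Finset.card_pos, Finset.card_univ]
    omega
  obtain ⟨z₁, _, hz1max⟩ := Finset.exists_max_image univ (dg G) hV
  have hV2 : ((univ : Finset V).erase z₁).Nonempty := by
    rw [← Finset.card_pos, Finset.card_erase_of_mem (Finset.mem_univ _), Finset.card_univ]
    omega
  obtain ⟨z₂, hz2, hz2max⟩ := Finset.exists_max_image (univ.erase z₁) (dg G) hV2
  have h12 : z₁ ≠ z₂ := fun h => (Finset.mem_erase.mp hz2).1 h.symm
  have hsmall : ∀ z, z ≠ z₁ → z ≠ z₂ → 10 * dg G z ≤ 7 * n := by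
    intro z h1 h2
    by_contra hcon
    have e1 := hz1max z (Finset.mem_univ _)
    have e2 := hz2max z (Finset.mem_erase.mpr ⟨h1, Finset.mem_univ _⟩)
    exact hK3 z₁ z₂ z h12 h1.symm h2.symm (by omega) (by omega) (by omega)
  -- the hubs
  set Z₀ : Finset V := univ.filter (fun v => n / 16 < dg G v) with hZ0def
  have hmemZ0 : ∀ v, v ∈ Z₀ ↔ n / 16 < dg G v := by
    intro v
    rw [hZ0def, Finset.mem_filter]
    simp
  have hZ0 : Z₀.card ≤ 17 * D := by
    have h1 := sum_dg_outZ G out D hD hout Z₀
    rw [← hnn] at h1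
    have h2 : (n / 16 + 1) * Z₀.card ≤ ∑ z ∈ Z₀, dg G z := by
      rw [Nat.mul_comm, ← smul_eq_mul, ← Finset.sum_const]
      exact Finset.sum_le_sum (fun z hz => (hmemZ0 z).mp hz)
    generalize hq : n / 16 + 1 = q at h2
    generalize Z₀.card = c at h1 h2 ⊢
    have hq1 : n ≤ 16 * q := by omega
    have hq2 : 34 * D ≤ q := by omega
    have h3 : D * n ≤ D * (16 * q) := Nat.mul_le_mul_left _ hq1
    have h4 : 34 * D * c ≤ q * c := Nat.mul_le_mul_right _ hq2
    have h5 : 33 * c * q ≤ 544 * D * q := by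
      have e1 : D * (16 * q) * 34 = 544 * D * q := by ring
      have e2 : 34 * D * c = D * c * 34 := by ring
      have e3 : 33 * c * q = q * c * 33 := by ring
      omega
    have h6 := Nat.le_of_mul_le_mul_right h5 (by omega)
    omega
  set Z : Finset V := Z₀ ∪ {z₁, z₂} with hZdef
  have hz1Z : z₁ ∈ Z := by
    rw [hZdef, Finset.mem_union, Finset.mem_insert]
    exact Or.inr (Or.inl rfl)
  have hz2Z : z₂ ∈ Z := by
    rw [hZdef, Finset.mem_union, Finset.mem_insert, Finset.mem_singleton]
    exact Or.inr (Or.inr rfl)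
  have hZc : Z.card ≤ 17 * D + 2 := by
    have h1 := Finset.card_union_le Z₀ {z₁, z₂}
    rw [← hZdef] at h1
    have h2 : ({z₁, z₂} : Finset V).card ≤ 2 := Finset.card_le_two
    omega
  have hZt : (Z.card + 2) * t ≤ 17 * ((D + 1) * t) := by
    rw [← Nat.mul_assoc]
    exact Nat.mul_le_mul_right _ (by omega)
  have hZt' : (Z.card + 2) * t = Z.card * t + 2 * t := by ring
  have h1000' : 1000 * ((D + 1) * t) ≤ n := by
    rw [← Nat.mul_assoc]
    exact h1000
  have h1000t : 1000 * t ≤ n := by
    refine le_trans ?_ h1000'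
    refine Nat.mul_le_mul_left _ ?_
    calc t = 1 * t := (Nat.one_mul t).symm
      _ ≤ (D + 1) * t := Nat.mul_le_mul_right _ (by omega)
  obtain ⟨K, δ, hK1, hK2, hK4, hK5, hKt, hKz1, hKz2, hKz, hδ, hδ1⟩ := exists_K G Z t k ht z₁ z₂ h12
    hz1Z hz2Z hn (by
      intro z _ h1 h2
      have := hsmall z h1 h2
      omega)
  -- a vertex outside all sets
  obtain ⟨w0, hw0⟩ : ∃ w0, w0 ∉ Z ∪ Z.biUnion (fun z => nb K z) := by
    by_contra hcon
    push Not at hcon
    have h1 : Fintype.card V ≤ (Z ∪ Z.biUnion (fun z => nb K z)).card := by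
      rw [← Finset.card_univ]
      exact Finset.card_le_card (fun x _ => hcon x)
    have h2 := Finset.card_union_le Z (Z.biUnion (fun z => nb K z))
    have h3 : (Z.biUnion (fun z => nb K z)).card ≤ Z.card * t :=
      Finset.card_biUnion_le_card_mul _ _ _ (fun z _ => hKt z)
    omega
  rw [Finset.mem_union, not_or, Finset.mem_biUnion] at hw0
  have hKw0 : dg K w0 = 0 := by
    unfold dg
    rw [Finset.card_eq_zero, Finset.eq_empty_iff_forall_notMem]
    intro y hy
    rw [mem_nb] at hy
    rcases hK1 w0 y hy with h | h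
    · exact hw0.1 h
    · exact hw0.2 ⟨y, h, mem_nb.mpr hy.symm⟩
  -- the degrees
  have hpar : ∃ e : ℕ, e ≤ 1 ∧ Even (∑ z ∈ Z, dg K z + (t * (univ \ Z).card - e)) := by
    rcases Nat.even_or_odd (∑ z ∈ Z, dg K z + t * (univ \ Z).card) with h | h
    · exact ⟨0, by omega, h⟩
    · refine ⟨1, le_rfl, ?_⟩
      have h1 : 1 ≤ t * (univ \ Z).card := by
        refine Nat.mul_pos ht (Finset.card_pos.mpr ⟨w0, ?_⟩)
        rw [Finset.mem_sdiff]
        exact ⟨Finset.mem_univ _, hw0.1⟩
      obtain ⟨q, hq⟩ := h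
      exact ⟨q, by omega⟩
  obtain ⟨e, he1, heven⟩ := hpar
  let f : V → ℕ := fun v => if v ∈ Z then dg K v else (if v = w0 then t - e else t)
  have hfZ : ∀ z ∈ Z, f z = dg K z := fun z hz => if_pos hz
  have hfW : ∀ w, w ∉ Z → f w = if w = w0 then t - e else t := fun w hw => if_neg hw
  have hft : ∀ v, f v ≤ t := by
    intro v
    by_cases hv : v ∈ Z
    · rw [hfZ v hv]
      exact hKt v
    · rw [hfW v hv]
      split_ifs <;> omega
  have hf1 : ∀ v, dg K v ≤ f v := by
    intro v
    by_cases hv : v ∈ Z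
    · exact (hfZ v hv).ge
    · rw [hfW v hv]
      split_ifs with h
      · rw [h, hKw0]
        exact Nat.zero_le _
      · exact hKt v
  have hsumW : ∑ w ∈ univ \ Z, f w + e = t * (univ \ Z).card := by
    have hw0' : w0 ∈ univ \ Z := by
      rw [Finset.mem_sdiff]
      exact ⟨Finset.mem_univ _, hw0.1⟩
    have h1 : ∑ w ∈ univ \ Z, (f w + (if w = w0 then e else 0)) = ∑ _w ∈ univ \ Z, t := by
      refine Finset.sum_congr rfl (fun w hw => ?_)
      rw [hfW w (Finset.mem_sdiff.mp hw).2]
      split_ifs <;> omega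
    rw [Finset.sum_add_distrib, Finset.sum_const, smul_eq_mul, Finset.sum_ite_eq' (univ \ Z) w0,
      if_pos hw0'] at h1
    rw [h1, Nat.mul_comm]
  have hsumV : ∑ v, f v = ∑ z ∈ Z, dg K z + ∑ w ∈ univ \ Z, f w := by
    rw [← Finset.sum_sdiff (Finset.subset_univ Z), Nat.add_comm]
    congr 1
    exact Finset.sum_congr rfl hfZ
  have hWcard : (univ \ Z).card + Z.card = n := by
    rw [Finset.card_sdiff_add_card_eq_card (Finset.subset_univ _), Finset.card_univ]
  obtain ⟨M, hM, hcod, hcod2⟩ := exists_small_codK G K Z f t (n / 16) t₀ z₁ z₂ hz1Z hz2Z hnum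
    (fun v hv => by
      by_contra hcon
      refine hv ?_
      rw [hZdef, Finset.mem_union, hmemZ0]
      exact Or.inl (by omega))
    hK1 hK2 hK4 hK5 hfZ hft hf1
    (by
      rw [hsumV]
      have h1 : ∑ w ∈ univ \ Z, f w = t * (univ \ Z).card - e := by omega
      rw [h1]
      exact heven) ht
    (by
      rw [← hnn, ← hWcard, Nat.mul_add]
      omega) (by omega) le_rfl (by omega) (by omega) (by omega)
  have hM' := mem_Om.mp hM
  have hδτ : δ ≤ tau G k := by
    rcases Nat.lt_or_ge δ 1 with h | h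
    · omega
    · have := tau_pos G k z₁ z₂ (hδ1 (by omega))
      omega
  have hdn : ∀ v, dg G v + 1 ≤ n := by
    intro v
    have := dg_compl G v
    omega
  refine ⟨Mᶜ, ?_, ?_, ?_⟩
  · intro x y hxy
    rw [SimpleGraph.compl_adj]
    exact ⟨hxy.ne, fun h => hM'.1 x y h ⟨hxy.ne, Or.inl hxy⟩⟩
  · exact sepFree_compl2 M t k z₁ z₂ (fun v => by rw [hM'.2 v]; exact hft v) hn hcod hcod2
  · have h1 : ∀ v, dg Mᶜ v ≤ max k (dg G v) + (if v = z₂ then δ else 0) +
        (if v = w0 then 1 else 0) := by
      intro v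
      have e1 := dg_compl M v
      rw [hM'.2 v] at e1
      have e3 := hdn v
      have e4 := le_max_left k (dg G v)
      have e5 := le_max_right k (dg G v)
      by_cases hv : v ∈ Z
      · rw [hfZ v hv] at e1
        refine le_trans ?_ (Nat.le_add_right _ _)
        by_cases hv1 : v = z₁
        · subst hv1
          rw [hKz1] at e1
          refine le_trans ?_ (Nat.le_add_right _ _)
          rcases le_total t (n - 1 - dg G v) with h | h
          · rw [min_eq_left h] at e1
            omega
          · rw [min_eq_right h] at e1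
            omega
        · by_cases hv2 : v = z₂
          · subst hv2
            rw [if_pos rfl]
            rcases le_total t (n - 1 - dg G v) with h | h
            · rw [min_eq_left h] at hKz2
              omega
            · rw [min_eq_right h] at hKz2
              omega
          · rw [hKz v hv hv1 hv2] at e1
            refine le_trans ?_ (Nat.le_add_right _ _)
            omega
      · rw [hfW v hv] at e1
        split_ifs at e1 ⊢ <;> omega
    refine le_trans (Finset.sum_le_sum (fun v _ => h1 v)) ?_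
    rw [Finset.sum_add_distrib, Finset.sum_add_distrib, Finset.sum_ite_eq' univ w0,
      Finset.sum_ite_eq' univ z₂, if_pos (Finset.mem_univ _), if_pos (Finset.mem_univ _)]
    omega

end Pool.Agent.BD48
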