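import Mathlib
import Pool.Agent.BD48.HalfW2

/-!
Separations of complements of graphs with small codegrees outside a set.
-/

namespace Pool.Agent.BD48

open Finset

attribute [local instance] Classical.propDecidable

variable {V : Type*} [Fintype V]

/-- the complement of a graph with small codegrees at the vertices outside `Z` and few common
neighbours of the subsets of `Z` has no small separation -/
theorem sepFree_complH (M : SimpleGraph V) (Z : Finset V) (t k : ℕ) (ht : ∀ v, dg M v ≤ t)
    (hn : Fintype.card V = k + 1 + t)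
    (hcod : ∀ u, u ∉ Z → ∀ w, u ≠ w → 2 * cod M u w ≤ t + 1)
    (hZ : ∀ S ⊆ Z, S.Nonempty → ∀ T : Finset V, (∀ y ∈ T, ∀ z ∈ S, M.Adj z y) →
      T.card + S.card ≤ t + 1) :
    SepFree Mᶜ k := by
  intro C D X hcov hCD hCX hDX hC hD hXk hno
  have hadj : ∀ x ∈ C, ∀ y ∈ D, M.Adj x y := by
    intro x hx y hy
    by_contra hcon
    refine hno x hx y hy ?_
    rw [SimpleGraph.compl_adj]
    refine ⟨?_, hcon⟩
    rintro rfl
    exact hCD x hx hy
  have hcard : t + 2 ≤ C.card + D.card := by
    have h1 : (C ∪ D ∪ X) = univ := by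
      rw [Finset.eq_univ_iff_forall]
      intro x
      rcases hcov x with h | h | h
      · exact Finset.mem_union_left _ (Finset.mem_union_left _ h)
      · exact Finset.mem_union_left _ (Finset.mem_union_right _ h)
      · exact Finset.mem_union_right _ h
    have h2 := Finset.card_union_le (C ∪ D) X
    have h3 := Finset.card_union_le C D
    rw [h1, Finset.card_univ] at h2
    omega
  -- the smaller side
  have key : ∀ A B : Finset V, (∀ x ∈ A, ∀ y ∈ B, M.Adj x y) → 2 ≤ A.card →
      t + 2 ≤ A.card + B.card → A.card ≤ B.card → False := by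
    intro A B hAB hA hABt hle
    by_cases hAZ : A ⊆ Z
    · have hne : A.Nonempty := Finset.card_pos.mp (by omega)
      have := hZ A hAZ hne B (fun y hy z hz => hAB z hz y hy)
      omega
    · rw [Finset.not_subset] at hAZ
      obtain ⟨u, hu, huZ⟩ := hAZ
      obtain ⟨w, hw, hwu⟩ := Finset.exists_mem_ne (by omega : 1 < A.card) u
      have h1 : B.card ≤ cod M u w := by
        refine Finset.card_le_card ?_
        intro y hy
        rw [Finset.mem_inter, mem_nb, mem_nb]
        exact ⟨hAB u hu y hy, hAB w hw y hy⟩
      have h2 := hcod u huZ w hwu.symm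
      omega
  have key1 : ∀ A B : Finset V, (∀ x ∈ A, ∀ y ∈ B, M.Adj x y) → A.Nonempty → B.card ≤ t := by
    intro A B hAB hA
    obtain ⟨u, hu⟩ := hA
    refine le_trans (Finset.card_le_card ?_) (ht u)
    intro y hy
    rw [mem_nb]
    exact hAB u hu y hy
  have hadj' : ∀ x ∈ D, ∀ y ∈ C, M.Adj x y := fun x hx y hy => (hadj y hy x hx).symm
  have a1 := key1 C D hadj hC
  have a2 := key1 D C hadj' hD
  rcases Nat.le_total C.card D.card with h | h
  · exact key C D hadj (by omega) hcard h
  · exact key D C hadj' (by omega) (by omega) h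

end Pool.Agent.BD48
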