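import Mathlib
import Pool.Agent.BD48.RegBD

/-!
Graphs with given degrees, given edges at the hubs and small codegrees.
-/

namespace Pool.Agent.BD48

open Finset

attribute [local instance] Classical.propDecidable

variable {V : Type*} [Fintype V]

/-- few graphs have a given pair of vertices with many common neighbours in `W` -/
lemma bad_pairW3 (G : SimpleGraph V) (f : V → ℕ) (W : Finset V) (d t s E m a : ℕ) (hE : 3 ≤ E)
    (hd : ∀ v ∈ W, dg G v ≤ d) (hf : ∀ v, f v ≤ t)
    (hsum : t * (s + 2 * d + 3 * t + 3) ≤ ∑ v, f v + 1) (hst : 3 * t ≤ E * s) (hs : 1 ≤ s)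
    (ht : 1 ≤ t) (hm : 4 * E * (m + a + 1) ≤ t) (u w : V) (huW : u ∈ W) (huw : u ≠ w) :
    E ^ m * ((Om G f).filter (fun M => t ≤ 2 * codW W M u w + 2 * a + 2)).card
      ≤ (t + 1) * ((E - 1) ^ m * (Om G f).card) := by
  have hsub : (Om G f).filter (fun M => t ≤ 2 * codW W M u w + 2 * a + 2)
      ⊆ ((range (t + 1)).filter (fun j => t ≤ 2 * j + 2 * a + 2)).biUnion
        (fun j => QW G f W u w j) := by
    intro M hM
    rw [Finset.mem_filter] at hM
    rw [Finset.mem_biUnion]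
    refine ⟨codW W M u w, ?_, ?_⟩
    · rw [Finset.mem_filter, Finset.mem_range]
      refine ⟨?_, hM.2⟩
      have h1 : codW W M u w ≤ dg M u :=
        Finset.card_le_card (Finset.inter_subset_left.trans Finset.inter_subset_left)
      have h2 := (mem_Om.mp hM.1).2 u
      have h3 := hf u
      omega
    · rw [mem_QW]
      exact ⟨hM.1, rfl⟩
  have hterm : ∀ j ∈ (range (t + 1)).filter (fun j => t ≤ 2 * j + 2 * a + 2),
      E ^ m * (QW G f W u w j).card ≤ (E - 1) ^ m * (Om G f).card := by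
    intro j hj
    rw [Finset.mem_filter] at hj
    have hj2 := hj.2
    have h12 : 12 * (m + a + 1) ≤ 4 * E * (m + a + 1) := Nat.mul_le_mul_right _ (by omega)
    have hNj : m ≤ j := by omega
    have h1 := ratioW_iter G f W d t s E hE hd hf hsum hst hs ht u w huW huw m
      (j - m) (by
        obtain ⟨i, rfl⟩ := Nat.exists_eq_add_of_le hNj
        rw [Nat.add_sub_cancel_left]
        have e1 : 2 * E * t ≤ 2 * E * (2 * (m + i) + 2 * a + 2) := Nat.mul_le_mul_left _ hj2
        have e2 : 2 * E * (2 * (m + i) + 2 * a + 2) = 4 * E * i + 4 * E * (m + a + 1) := by ring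
        omega)
    rw [Nat.sub_add_cancel hNj] at h1
    refine le_trans h1 (Nat.mul_le_mul_left _ (Finset.card_le_card ?_))
    intro M hM
    exact (mem_QW.mp hM).1
  calc E ^ m * ((Om G f).filter (fun M => t ≤ 2 * codW W M u w + 2 * a + 2)).card
      ≤ E ^ m * ∑ j ∈ (range (t + 1)).filter (fun j => t ≤ 2 * j + 2 * a + 2),
          (QW G f W u w j).card := Nat.mul_le_mul_left _
            (le_trans (Finset.card_le_card hsub) Finset.card_biUnion_le)
    _ = ∑ j ∈ (range (t + 1)).filter (fun j => t ≤ 2 * j + 2 * a + 2),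
          E ^ m * (QW G f W u w j).card := Finset.mul_sum _ _ _
    _ ≤ ∑ _j ∈ (range (t + 1)).filter (fun j => t ≤ 2 * j + 2 * a + 2),
          (E - 1) ^ m * (Om G f).card := Finset.sum_le_sum hterm
    _ = ((range (t + 1)).filter (fun j => t ≤ 2 * j + 2 * a + 2)).card *
          ((E - 1) ^ m * (Om G f).card) := by rw [Finset.sum_const, smul_eq_mul]
    _ ≤ (t + 1) * ((E - 1) ^ m * (Om G f).card) := by
        refine Nat.mul_le_mul_right _ ?_
        refine le_trans (Finset.card_filter_le _ _) ?_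
        rw [Finset.card_range]

/-- a graph with small codegrees inside `W`, with some room -/
theorem exists_halfW3 (G : SimpleGraph V) (f : V → ℕ) (W : Finset V) (d t s E m a : ℕ)
    (hE : 3 ≤ E) (hd : ∀ v ∈ W, dg G v ≤ d) (hf : ∀ v, f v ≤ t) (ht : 1 ≤ t)
    (hsum : t * (s + 2 * d + 3 * t + 3) ≤ ∑ v, f v + 1) (hst : 3 * t ≤ E * s) (hs : 1 ≤ s)
    (htn : t + 1 ≤ Fintype.card V) (hm : 4 * E * (m + a + 1) ≤ t) (hne : (Om G f).Nonempty)
    (hnum : Fintype.card V ^ 3 * (E - 1) ^ m < E ^ m) :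
    ∃ M ∈ Om G f, ∀ u ∈ W, ∀ w, u ≠ w → 2 * (nb M u ∩ nb M w ∩ W).card + 2 * a + 3 ≤ t := by
  by_contra hcon
  push Not at hcon
  have hsub : Om G f ⊆ ((univ : Finset (V × V)).filter (fun p => p.1 ∈ W ∧ p.1 ≠ p.2)).biUnion
      (fun p => (Om G f).filter (fun M => t ≤ 2 * codW W M p.1 p.2 + 2 * a + 2)) := by
    intro M hM
    obtain ⟨u, hu, w, huw, h⟩ := hcon M hM
    rw [Finset.mem_biUnion]
    refine ⟨(u, w), ?_, ?_⟩
    · rw [Finset.mem_filter]
      exact ⟨Finset.mem_univ _, hu, huw⟩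
    · rw [Finset.mem_filter]
      refine ⟨hM, ?_⟩
      show t ≤ 2 * (nb M u ∩ nb M w ∩ W).card + 2 * a + 2
      omega
  have hpos : 0 < (Om G f).card := Finset.card_pos.mpr hne
  have hcount : E ^ m * (Om G f).card
      ≤ Fintype.card V ^ 3 * (E - 1) ^ m * (Om G f).card := by
    calc E ^ m * (Om G f).card
        ≤ E ^ m * ∑ p ∈ (univ : Finset (V × V)).filter (fun p => p.1 ∈ W ∧ p.1 ≠ p.2),
          ((Om G f).filter (fun M => t ≤ 2 * codW W M p.1 p.2 + 2 * a + 2)).card :=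
          Nat.mul_le_mul_left _ (le_trans (Finset.card_le_card hsub) Finset.card_biUnion_le)
      _ = ∑ p ∈ (univ : Finset (V × V)).filter (fun p => p.1 ∈ W ∧ p.1 ≠ p.2),
          E ^ m * ((Om G f).filter (fun M => t ≤ 2 * codW W M p.1 p.2 + 2 * a + 2)).card :=
          Finset.mul_sum _ _ _
      _ ≤ ∑ _p ∈ (univ : Finset (V × V)).filter (fun p => p.1 ∈ W ∧ p.1 ≠ p.2),
          (t + 1) * ((E - 1) ^ m * (Om G f).card) := by
          refine Finset.sum_le_sum (fun p hp => ?_)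
          rw [Finset.mem_filter] at hp
          exact bad_pairW3 G f W d t s E m a hE hd hf hsum hst hs ht hm p.1 p.2 hp.2.1 hp.2.2
      _ = ((univ : Finset (V × V)).filter (fun p => p.1 ∈ W ∧ p.1 ≠ p.2)).card *
          ((t + 1) * ((E - 1) ^ m * (Om G f).card)) := by
          rw [Finset.sum_const, smul_eq_mul]
      _ ≤ (Fintype.card V * Fintype.card V) *
          (Fintype.card V * ((E - 1) ^ m * (Om G f).card)) := by
          refine Nat.mul_le_mul ?_ (Nat.mul_le_mul_right _ htn)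
          refine le_trans (Finset.card_filter_le _ _) ?_
          rw [Finset.card_univ, Fintype.card_prod]
      _ = Fintype.card V ^ 3 * (E - 1) ^ m * (Om G f).card := by ring
  have := Nat.le_of_mul_le_mul_right hcount hpos
  omega

/-- a graph with small codegrees at the vertices outside `Z` -/
theorem exists_small_codH (G K : SimpleGraph V) (Z : Finset V) (f : V → ℕ)
    (t φ : ℕ)
    (hnum : ∀ n t : ℕ, 6000 ≤ t → n ≤ 30 * t ^ 3 → n ^ 3 * (3 - 1) ^ (t / 24) < 3 ^ (t / 24))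
    (hφ : ∀ v, v ∉ Z → dg G v ≤ φ)
    (hK1 : ∀ x y, K.Adj x y → x ∈ Z ∨ y ∈ Z) (hK2 : ∀ x y, K.Adj x y → ¬ G.Adj x y)
    (hf : ∀ z ∈ Z, f z = dg K z) (hft : ∀ v, f v ≤ t) (hf1 : ∀ v, dg K v ≤ f v)
    (heven : Even (∑ v, f v)) (ht : 24 * (Z.card + 1) + 6000 ≤ t)
    (hsum : t * Fintype.card V ≤ ∑ v, f v + t * Z.card + 1)
    (hZ : 40 * Z.card ≤ Fintype.card V) (hφn : φ ≤ Fintype.card V / 16)
    (h300 : 300 * t ≤ Fintype.card V) (hbig : 10000 ≤ Fintype.card V) :
    ∃ M ∈ Om (GpK G K Z) f, (∀ x y, M.Adj x y → x ∈ Z ∨ y ∈ Z → K.Adj x y) ∧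
      ∀ u, u ∉ Z → ∀ w, u ≠ w → 2 * cod M u w ≤ t + 1 := by
  set n := Fintype.card V with hn
  have hne : (Om (GpK G K Z) f).Nonempty := by
    refine Om_K_nonempty G K Z f t φ hφ hK1 hK2 hf hft hf1 heven ?_
    have h1 : 2 * (t + φ + 1) + 2 * Z.card + 1 + Z.card + 2 ≤ n := by omega
    have h2 := Nat.mul_le_mul_left t h1
    have h3 : t * (2 * (t + φ + 1) + 2 * Z.card + 1 + Z.card + 2) =
      t * (2 * (t + φ + 1) + 2 * Z.card + 1) + t * Z.card + 2 * t := by ring
    omega
  have hsumlow : t * (n - Z.card - 1) ≤ ∑ v, f v := by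
    have h1 : t * n = t * (n - Z.card - 1) + t * (Z.card + 1) := by
      rw [← Nat.mul_add]
      congr 1
      omega
    have h2 : t * (Z.card + 1) = t * Z.card + t := by ring
    omega
  have hdW : ∀ v ∈ univ \ Z, dg (GpK G K Z) v ≤ n / 16 + Z.card := by
    intro v hv
    have hv' : v ∉ Z := (Finset.mem_sdiff.mp hv).2
    have h1 := dg_GpK G K Z v hv'
    have h2 := hφ v hv'
    omega
  have hmemW : ∀ x, x ∉ Z → x ∈ univ \ Z := fun x hx =>
    Finset.mem_sdiff.mpr ⟨Finset.mem_univ _, hx⟩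
  have ht1 : 1 ≤ t := by omega
  by_cases hcase : 30 * t ^ 3 ≤ n
  · obtain ⟨M, hM, hc⟩ := exists_c4W2 (GpK G K Z) f (univ \ Z) (n / 16 + Z.card) t hdW hft ht1 hne (by
      have h1 : 16 * t ^ 4 = t * (16 * t ^ 3) := by ring
      have h2 : 2 * (t * (1 + (n / 16 + Z.card) + t)) = t * (2 * (1 + (n / 16 + Z.card) + t)) := by
        ring
      rw [h1, h2, ← Nat.mul_add]
      refine lt_of_lt_of_le ?_ hsumlow
      refine Nat.mul_lt_mul_of_pos_left ?_ ht1
      omega)
    refine ⟨M, hM, fun x y hxy h => adj_K G K Z f M hM x y hxy h, ?_⟩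
    intro u hu w huw
    by_cases hcod : cod M u w ≤ 1
    · omega
    · have hsub : nb M u ∩ nb M w ⊆ Z := by
        intro x hx
        have hc2 : 1 < (nb M u ∩ nb M w).card := by
          unfold cod at hcod
          omega
        obtain ⟨y, hy, hyx⟩ := Finset.exists_mem_ne hc2 x
        rw [Finset.mem_inter, mem_nb, mem_nb] at hx hy
        have hcy : Cy M u x w y := ⟨huw, hyx.symm, hx.1, hx.2.symm, hy.2, hy.1.symm⟩
        by_contra hxZ
        exact hc u x w y hcy ⟨hmemW u hu, hmemW x hxZ⟩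
      have h1 : cod M u w ≤ Z.card := Finset.card_le_card hsub
      omega
  · obtain ⟨M, hM, hc⟩ := exists_halfW3 (GpK G K Z) f (univ \ Z) (n / 16 + Z.card) t (n / 3) 3
      (t / 24) Z.card le_rfl hdW hft ht1 (by
        have h1 : n / 3 + 2 * (n / 16 + Z.card) + 3 * t + 3 ≤ n - Z.card - 1 := by omega
        have h2 := Nat.mul_le_mul_left t h1
        omega) (by omega) (by omega) (by omega) (by omega) hne
        (hnum n t (by omega) (by omega))
    refine ⟨M, hM, fun x y hxy h => adj_K G K Z f M hM x y hxy h, ?_⟩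
    intro u hu w huw
    have h1 := hc u (hmemW u hu) w huw
    have h2 : (nb M u ∩ nb M w ∩ Z).card ≤ Z.card :=
      Finset.card_le_card Finset.inter_subset_right
    have h3 : cod M u w ≤ (nb M u ∩ nb M w ∩ (univ \ Z)).card + (nb M u ∩ nb M w ∩ Z).card := by
      unfold cod
      refine le_trans (Finset.card_le_card ?_) (Finset.card_union_le _ _)
      intro x hx
      rw [Finset.mem_union]
      by_cases hxZ : x ∈ Z
      · exact Or.inr (Finset.mem_inter.mpr ⟨hx, hxZ⟩)
      · exact Or.inl (Finset.mem_inter.mpr ⟨hx, hmemW x hxZ⟩)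
    omega

end Pool.Agent.BD48
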