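import Mathlib
import Pool.Agent.BD48.SmallH
import Pool.Agent.BD48.KH
import Pool.Agent.BD48.SepH
import Pool.Agent.BD48.NumH
import Pool.Agent.BD48.MinR
import Pool.Agent.BD48.FamLe

/-!
Highly connected supergraphs of graphs with an orientation of bounded outdegree, dense case.
-/

namespace Pool.Agent.BD48

open Finset

attribute [local instance] Classical.propDecidable

universe u

/-- the dense case -/
theorem regimeBH (D : ℕ) (V : Type u) [Fintype V] (G : SimpleGraph V)
    (out : V → Finset V) (k t : ℕ) (hD : ∀ v, (out v).card ≤ D)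
    (hout : ∀ x y, G.Adj x y → y ∈ out x ∨ x ∈ out y)
    (hn : Fintype.card V = k + 1 + t) (ht : 100000 * (D + 1) ^ 3 ≤ t)
    (h1000 : 1000 * (D + 1) * t ≤ Fintype.card V) :
    ∃ H : SimpleGraph V, G ≤ H ∧ SepFree H k ∧
      ∃ F : Finset (Finset V), Fam k F ∧ (∀ X ∈ F, X.card ≤ 17 * D + 1) ∧
        (∀ F', Fam k F' → val G k F' ≤ val G k F) ∧
        ∑ v, dg H v ≤ ∑ v, dg G v + val G k F + 1 := by
  obtain ⟨n, hnn⟩ : ∃ n, n = Fintype.card V := ⟨_, rfl⟩
  rw [← hnn] at hn h1000
  have hD3 : (D + 1) ≤ (D + 1) ^ 3 := Nat.le_self_pow (by omega) _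
  have ht1 : 100000 * (D + 1) ≤ t := le_trans (Nat.mul_le_mul_left _ hD3) ht
  have h1000' : 1000 * ((D + 1) * t) ≤ n := by
    rw [← Nat.mul_assoc]
    exact h1000
  have hDt : t ≤ (D + 1) * t := Nat.le_mul_of_pos_left _ (by omega)
  have h1000t : 1000 * t ≤ n := le_trans (Nat.mul_le_mul_left _ hDt) h1000'
  -- the hubs
  obtain ⟨φ, hφ⟩ : ∃ φ, φ = n / 16 := ⟨_, rfl⟩
  obtain ⟨Z, hZdef⟩ : ∃ Z : Finset V, Z = univ.filter (fun v => φ < dg G v) := ⟨_, rfl⟩
  have hmemZ : ∀ v, v ∈ Z ↔ φ < dg G v := by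
    intro v
    rw [hZdef, Finset.mem_filter]
    simp
  have hZc : Z.card ≤ 17 * D := by
    have h1 := sum_dg_outZ G out D hD hout Z
    rw [← hnn] at h1
    have h2 : (φ + 1) * Z.card ≤ ∑ z ∈ Z, dg G z := by
      rw [Nat.mul_comm, ← smul_eq_mul, ← Finset.sum_const]
      exact Finset.sum_le_sum (fun z hz => (hmemZ z).mp hz)
    obtain ⟨q, hq⟩ : ∃ q, q = φ + 1 := ⟨_, rfl⟩
    obtain ⟨c, hc⟩ : ∃ c, c = Z.card := ⟨_, rfl⟩
    rw [← hq, ← hc] at h2
    rw [← hc] at h1 ⊢
    have hq1 : n ≤ 16 * q := by omega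
    have hq2 : 34 * D ≤ q := by omega
    have h3 : D * n ≤ D * (16 * q) := Nat.mul_le_mul_left _ hq1
    have h4 : 34 * D * c ≤ q * c := Nat.mul_le_mul_right _ hq2
    have h5 : 33 * c * q ≤ 544 * D * q := by
      have e1 : D * (16 * q) * 34 = 544 * D * q := by ring
      have e2 : 34 * D * c = D * c * 34 := by ring
      have e3 : 33 * c * q = q * c * 33 := by ring
      omega
    have h6 := Nat.le_of_mul_le_mul_right h5 (by omega)
    omega
  obtain ⟨p, hp⟩ : ∃ p, p = 17 * D := ⟨_, rfl⟩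
  have hZp : Z.card ≤ p := by omega
  have hp3 : 10 * p ^ 3 + 100 ≤ t := by
    have h1 : p ^ 3 ≤ (17 * (D + 1)) ^ 3 := Nat.pow_le_pow_left (by omega) 3
    have h2 : (17 * (D + 1)) ^ 3 = 4913 * (D + 1) ^ 3 := by ring
    have h3 : 1 ≤ (D + 1) ^ 3 := Nat.one_le_pow _ _ (by omega)
    omega
  -- the demands
  obtain ⟨r, F, hF, hFc, hsumr, hrP, hr0, hrW, hr2, hrk⟩ :=
    exists_min_r G k p φ (by
      intro S hS hScard
      exfalso
      have h1 : S ⊆ Z := fun v hv => (hmemZ v).mpr (hS v hv)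
      have h2 := Finset.card_le_card h1
      omega) (by omega) (by rw [← hnn]; omega)
  have hmaxF : ∀ F', Fam k F' → val G k F' ≤ val G k F := by
    intro F' hF'
    rw [← hsumr]
    exact fam_le G k r hrP F' hF'
  rw [← hnn] at hrP
  obtain ⟨K, hK1, hK2, hK3, hK4⟩ := exists_KH G Z k t p r hZp (by rw [← hnn]; exact hn) hp3
    (fun S hS hSne => hrP S hSne (by
      have h1 := Finset.card_le_card hS
      omega)) (fun z _ => hr2 z) (fun z _ => hrk z)
  rw [← hnn] at hK3
  have hKZ : ∀ z ∈ Z, dg K z ≤ t := by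
    intro z hz
    have h1 := hK4 {z} (Finset.singleton_subset_iff.mpr hz) (Finset.singleton_nonempty z)
      (nb K z) (by
        intro y hy z' hz'
        rw [Finset.mem_singleton] at hz'
        rw [hz']
        exact mem_nb.mp hy)
    rw [Finset.card_singleton] at h1
    have h2 : (nb K z).card = dg K z := rfl
    omega
  have hKW : ∀ w, w ∉ Z → dg K w ≤ Z.card := by
    intro w hw
    unfold dg
    refine Finset.card_le_card ?_
    intro z hz
    rcases hK1 w z (mem_nb.mp hz) with h | h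
    · exact absurd h hw
    · exact h
  -- a vertex outside all sets
  obtain ⟨w0, hw0⟩ : ∃ w0, w0 ∉ Z ∪ Z.biUnion (fun z => nb K z) := by
    by_contra hcon
    push Not at hcon
    have h1 : Fintype.card V ≤ (Z ∪ Z.biUnion (fun z => nb K z)).card := by
      rw [← Finset.card_univ]
      exact Finset.card_le_card (fun x _ => hcon x)
    have h2 := Finset.card_union_le Z (Z.biUnion (fun z => nb K z))
    have h3 : (Z.biUnion (fun z => nb K z)).card ≤ Z.card * t :=
      Finset.card_biUnion_le_card_mul _ _ _ (fun z hz => hKZ z hz)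
    have h4 : Z.card * t ≤ 17 * ((D + 1) * t) := by
      rw [← Nat.mul_assoc]
      exact Nat.mul_le_mul_right _ (by omega)
    rw [← hnn] at h1
    omega
  rw [Finset.mem_union, not_or, Finset.mem_biUnion] at hw0
  have hKw0 : dg K w0 = 0 := by
    unfold dg
    rw [Finset.card_eq_zero, Finset.eq_empty_iff_forall_notMem]
    intro y hy
    rw [mem_nb] at hy
    rcases hK1 w0 y hy with h | h
    · exact hw0.1 h
    · exact hw0.2 ⟨y, h, mem_nb.mpr hy.symm⟩
  -- the degrees
  have hpar : ∃ e : ℕ, e ≤ 1 ∧ Even (∑ z ∈ Z, dg K z + (t * (univ \ Z).card - e)) := by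
    rcases Nat.even_or_odd (∑ z ∈ Z, dg K z + t * (univ \ Z).card) with h | h
    · exact ⟨0, by omega, h⟩
    · refine ⟨1, le_rfl, ?_⟩
      have h1 : 1 ≤ t * (univ \ Z).card := by
        refine Nat.mul_pos (by omega) (Finset.card_pos.mpr ⟨w0, ?_⟩)
        rw [Finset.mem_sdiff]
        exact ⟨Finset.mem_univ _, hw0.1⟩
      obtain ⟨q, hq⟩ := h
      exact ⟨q, by omega⟩
  obtain ⟨e, he1, heven⟩ := hpar
  let f : V → ℕ := fun v => if v ∈ Z then dg K v else (if v = w0 then t - e else t)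
  have hfZ : ∀ z ∈ Z, f z = dg K z := fun z hz => if_pos hz
  have hfW : ∀ w, w ∉ Z → f w = if w = w0 then t - e else t := fun w hw => if_neg hw
  have hft : ∀ v, f v ≤ t := by
    intro v
    by_cases hv : v ∈ Z
    · rw [hfZ v hv]
      exact hKZ v hv
    · rw [hfW v hv]
      split_ifs <;> omega
  have hf1 : ∀ v, dg K v ≤ f v := by
    intro v
    by_cases hv : v ∈ Z
    · exact (hfZ v hv).ge
    · rw [hfW v hv]
      split_ifs with h
      · rw [h, hKw0]
        exact Nat.zero_le _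
      · have h1 := hKW v hv
        omega
  have hsumW : ∑ w ∈ univ \ Z, f w + e = t * (univ \ Z).card := by
    have hw0' : w0 ∈ univ \ Z := by
      rw [Finset.mem_sdiff]
      exact ⟨Finset.mem_univ _, hw0.1⟩
    have h1 : ∑ w ∈ univ \ Z, (f w + (if w = w0 then e else 0)) = ∑ _w ∈ univ \ Z, t := by
      refine Finset.sum_congr rfl (fun w hw => ?_)
      rw [hfW w (Finset.mem_sdiff.mp hw).2]
      split_ifs <;> omega
    rw [Finset.sum_add_distrib, Finset.sum_const, smul_eq_mul, Finset.sum_ite_eq' (univ \ Z) w0,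
      if_pos hw0'] at h1
    rw [h1, Nat.mul_comm]
  have hsumV : ∑ v, f v = ∑ z ∈ Z, dg K z + ∑ w ∈ univ \ Z, f w := by
    rw [← Finset.sum_sdiff (Finset.subset_univ Z), Nat.add_comm]
    congr 1
    exact Finset.sum_congr rfl hfZ
  have hWcard : (univ \ Z).card + Z.card = n := by
    rw [Finset.card_sdiff_add_card_eq_card (Finset.subset_univ _), Finset.card_univ, hnn]
  obtain ⟨M, hM, hMK, hcod⟩ := exists_small_codH G K Z f t φ num_twentyfour
    (fun v hv => by
      rw [hmemZ, not_lt] at hv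
      exact hv)
    hK1 hK2 hfZ hft hf1
    (by
      rw [hsumV]
      have h1 : ∑ w ∈ univ \ Z, f w = t * (univ \ Z).card - e := by omega
      rw [h1]
      exact heven) (by omega)
    (by
      rw [← hnn, ← hWcard, Nat.mul_add]
      omega) (by rw [← hnn]; omega) (by rw [← hnn]; omega) (by rw [← hnn]; omega)
      (by rw [← hnn]; omega)
  have hM' := mem_Om.mp hM
  have hdn : ∀ v, dg G v + 1 ≤ n := by
    intro v
    have := dg_compl G v
    rw [← hnn] at this
    omega
  refine ⟨Mᶜ, ?_, ?_, F, hF, ?_, hmaxF, ?_⟩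
  · intro x y hxy
    rw [SimpleGraph.compl_adj]
    exact ⟨hxy.ne, fun h => hM'.1 x y h ⟨hxy.ne, Or.inl hxy⟩⟩
  · refine sepFree_complH M Z t k (fun v => by rw [hM'.2 v]; exact hft v)
      (by rw [← hnn]; exact hn) hcod ?_
    intro S hS hSne T hT
    refine hK4 S hS hSne T ?_
    intro y hy z hz
    exact hMK z y (hT y hy z hz) (Or.inl (hS hz))
  · intro X hX
    have := hFc X hX
    omega
  · have h1 : ∀ v, dg Mᶜ v ≤ dg G v + r v + (if v = w0 then 1 else 0) := by
      intro v
      have e1 := dg_compl M v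
      rw [hM'.2 v, ← hnn] at e1
      have e3 := hdn v
      by_cases hv : v ∈ Z
      · rw [hfZ v hv] at e1
        have e4 := hK3 v hv
        refine le_trans ?_ (Nat.le_add_right _ _)
        omega
      · rw [hfW v hv] at e1
        have e4 := hv
        rw [hmemZ, not_lt] at e4
        have e5 := hrW v e4
        split_ifs at e1 ⊢ <;> omega
    refine le_trans (Finset.sum_le_sum (fun v _ => h1 v)) ?_
    rw [Finset.sum_add_distrib, Finset.sum_add_distrib, Finset.sum_ite_eq' univ w0,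
      if_pos (Finset.mem_univ _)]
    omega

end Pool.Agent.BD48
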