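import Mathlib
import Pool.Agent.BD48.SmallH
import Pool.Agent.BD48.SepH
import Pool.Agent.BD48.NumH

/-!
Highly connected supergraphs of graphs with an orientation of bounded outdegree, dense case, with given
edges at the vertices of large degree.
-/

namespace Pool.Agent.BD48

open Finset

attribute [local instance] Classical.propDecidable

section aux

variable {V : Type*} [Fintype V]

/-- the complement of a graph without 4-cycles with an edge outside `Z`, with few common neighbours of
the subsets of `Z`, has no small separation -/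
theorem sepFree_complC (M : SimpleGraph V) (Z : Finset V) (t k : ℕ) (ht : ∀ v, dg M v ≤ t)
    (hn : Fintype.card V = k + 1 + t)
    (hc4 : ∀ a b c e, Cy M a b c e → ¬ (a ∈ univ \ Z ∧ b ∈ univ \ Z))
    (hZ : ∀ S ⊆ Z, S.Nonempty → ∀ T : Finset V, T.Nonempty → (∀ y ∈ T, ∀ z ∈ S, M.Adj z y) →
      T.card + S.card ≤ t + 1) :
    SepFree Mᶜ k := by
  intro C D X hcov hCD hCX hDX hC hD hXk hno
  have hadj : ∀ x ∈ C, ∀ y ∈ D, M.Adj x y := by
    intro x hx y hy
    by_contra hcon
    refine hno x hx y hy ?_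
    rw [SimpleGraph.compl_adj]
    refine ⟨?_, hcon⟩
    rintro rfl
    exact hCD x hx hy
  have hcard : t + 2 ≤ C.card + D.card := by
    have h1 : (C ∪ D ∪ X) = univ := by
      rw [Finset.eq_univ_iff_forall]
      intro x
      rcases hcov x with h | h | h
      · exact Finset.mem_union_left _ (Finset.mem_union_left _ h)
      · exact Finset.mem_union_left _ (Finset.mem_union_right _ h)
      · exact Finset.mem_union_right _ h
    have h2 := Finset.card_union_le (C ∪ D) X
    have h3 := Finset.card_union_le C D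
    rw [h1, Finset.card_univ] at h2
    omega
  have key1 : ∀ A B : Finset V, (∀ x ∈ A, ∀ y ∈ B, M.Adj x y) → A.Nonempty → B.card ≤ t := by
    intro A B hAB hA
    obtain ⟨u, hu⟩ := hA
    refine le_trans (Finset.card_le_card ?_) (ht u)
    intro y hy
    rw [mem_nb]
    exact hAB u hu y hy
  have hadj' : ∀ x ∈ D, ∀ y ∈ C, M.Adj x y := fun x hx y hy => (hadj y hy x hx).symm
  have a1 := key1 C D hadj hC
  have a2 := key1 D C hadj' hD
  by_cases hCZ : C ⊆ Z
  · have h1 := hZ C hCZ hC D hD (fun y hy z hz => hadj z hz y hy)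
    omega
  · by_cases hDZ : D ⊆ Z
    · have h1 := hZ D hDZ hD C hC (fun y hy z hz => hadj' z hz y hy)
      omega
    · obtain ⟨a, ha, haZ⟩ := Finset.not_subset.mp hCZ
      obtain ⟨b, hb, hbZ⟩ := Finset.not_subset.mp hDZ
      obtain ⟨c, hc, hca⟩ := Finset.exists_mem_ne (by omega : 1 < C.card) a
      obtain ⟨e, he, heb⟩ := Finset.exists_mem_ne (by omega : 1 < D.card) b
      refine hc4 a b c e ⟨hca.symm, heb.symm, hadj a ha b hb, hadj' b hb c hc, hadj c hc e he,
        hadj' e he a ha⟩ ⟨?_, ?_⟩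
      · exact Finset.mem_sdiff.mpr ⟨Finset.mem_univ _, haZ⟩
      · exact Finset.mem_sdiff.mpr ⟨Finset.mem_univ _, hbZ⟩

/-- few vertices have large degree -/
theorem card_big (D : ℕ) (G : SimpleGraph V) (out : V → Finset V) (hD : ∀ v, (out v).card ≤ D)
    (hout : ∀ x y, G.Adj x y → y ∈ out x ∨ x ∈ out y)
    (hN : 1000 * (D + 1) ≤ Fintype.card V) (Z : Finset V)
    (hZ : ∀ z ∈ Z, Fintype.card V < 16 * dg G z) : Z.card ≤ 17 * D := by
  obtain ⟨n, hnn⟩ : ∃ n, n = Fintype.card V := ⟨_, rfl⟩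
  rw [← hnn] at hN hZ
  obtain ⟨φ, hφ⟩ : ∃ φ, φ = n / 16 := ⟨_, rfl⟩
  have h1 := sum_dg_outZ G out D hD hout Z
  rw [← hnn] at h1
  have h2 : (φ + 1) * Z.card ≤ ∑ z ∈ Z, dg G z := by
    rw [Nat.mul_comm, ← smul_eq_mul, ← Finset.sum_const]
    exact Finset.sum_le_sum (fun z hz => by
      have := hZ z hz
      omega)
  obtain ⟨q, hq⟩ : ∃ q, q = φ + 1 := ⟨_, rfl⟩
  obtain ⟨c, hc⟩ : ∃ c, c = Z.card := ⟨_, rfl⟩
  rw [← hq, ← hc] at h2
  rw [← hc] at h1 ⊢
  have hq1 : n ≤ 16 * q := by omega
  have hq2 : 34 * D ≤ q := by omega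
  have h3 : D * n ≤ D * (16 * q) := Nat.mul_le_mul_left _ hq1
  have h4 : 34 * D * c ≤ q * c := Nat.mul_le_mul_right _ hq2
  have h5 : 33 * c * q ≤ 544 * D * q := by
    have e1 : D * (16 * q) * 34 = 544 * D * q := by ring
    have e2 : 34 * D * c = D * c * 34 := by ring
    have e3 : 33 * c * q = q * c * 33 := by ring
    omega
  have h6 := Nat.le_of_mul_le_mul_right h5 (by omega)
  omega

/-- complete pairs in a graph whose complement is highly connected -/
lemma card_of_sepFree_compl (K : SimpleGraph V) (k t : ℕ) (hn : Fintype.card V = k + 1 + t)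
    (hK : SepFree Kᶜ k) (S T : Finset V) (hS : S.Nonempty) (hT : T.Nonempty)
    (hadj : ∀ y ∈ T, ∀ z ∈ S, K.Adj z y) : T.card + S.card ≤ t + 1 := by
  by_contra hcon
  have hdis : ∀ x, x ∈ S → x ∉ T := fun x hx hx' => (hadj x hx' x hx).ne rfl
  have hdisj : Disjoint S T := Finset.disjoint_left.mpr hdis
  have hX : (univ \ (S ∪ T)).card + 1 ≤ k := by
    rw [Finset.card_sdiff_of_subset (Finset.subset_univ _), Finset.card_univ,
      Finset.card_union_of_disjoint hdisj]
    have h1 := Finset.card_le_univ (S ∪ T)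
    rw [Finset.card_union_of_disjoint hdisj] at h1
    have h2 : 0 < S.card := Finset.card_pos.mpr hS
    have h3 : 0 < T.card := Finset.card_pos.mpr hT
    omega
  refine hK S T (univ \ (S ∪ T)) ?_ hdis ?_ ?_ hS hT hX ?_
  · intro x
    by_cases h1 : x ∈ S
    · exact Or.inl h1
    · by_cases h2 : x ∈ T
      · exact Or.inr (Or.inl h2)
      · right
        right
        rw [Finset.mem_sdiff, Finset.mem_union, not_or]
        exact ⟨Finset.mem_univ _, h1, h2⟩
  · intro x hx hx'
    rw [Finset.mem_sdiff, Finset.mem_union, not_or] at hx'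
    exact hx'.2.1 hx
  · intro x hx hx'
    rw [Finset.mem_sdiff, Finset.mem_union, not_or] at hx'
    exact hx'.2.2 hx
  · intro x hx y hy h
    rw [SimpleGraph.compl_adj] at h
    exact h.2 (hadj y hy x hx)

end aux

universe u

/-- the dense case with given edges at the vertices of large degree -/
theorem regimeBK (D : ℕ) (V : Type u) [Fintype V] (G : SimpleGraph V)
    (out : V → Finset V) (k t : ℕ) (hD : ∀ v, (out v).card ≤ D)
    (hout : ∀ x y, G.Adj x y → y ∈ out x ∨ x ∈ out y)
    (hn : Fintype.card V = k + 1 + t) (ht : 1 ≤ t)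
    (h1000 : 1000 * (D + 1) * t ≤ Fintype.card V)
    (hN : 100000000000000 * (D + 1) ^ 3 ≤ Fintype.card V)
    (K : SimpleGraph V) (hK1 : ∀ x y, K.Adj x y → Fintype.card V < 16 * dg G x ∨
      Fintype.card V < 16 * dg G y) (hK2 : ∀ x y, K.Adj x y → ¬ G.Adj x y)
    (hKs : SepFree Kᶜ k) :
    ∃ H : SimpleGraph V, G ≤ H ∧ SepFree H k ∧
      ∑ v, dg H v + ∑ v, (if Fintype.card V < 16 * dg G v then dg K v else 0) ≤
        ∑ v, (if Fintype.card V < 16 * dg G v then Fintype.card V - 1 else k) + 1 := by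
  obtain ⟨n, hnn⟩ : ∃ n, n = Fintype.card V := ⟨_, rfl⟩
  have hKcard := fun S T => card_of_sepFree_compl K k t hn hKs S T
  have hD3 : (D + 1) ≤ (D + 1) ^ 3 := Nat.le_self_pow (by omega) _
  rw [← hnn] at hn h1000 hN hK1 ⊢
  have h1000' : 1000 * ((D + 1) * t) ≤ n := by
    rw [← Nat.mul_assoc]
    exact h1000
  have hDt : t ≤ (D + 1) * t := Nat.le_mul_of_pos_left _ (by omega)
  have h1000t : 1000 * t ≤ n := le_trans (Nat.mul_le_mul_left _ hDt) h1000'
  have hDn : 100000000000000 * (D + 1) ≤ n := le_trans (Nat.mul_le_mul_left _ hD3) hN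
  -- the hubs
  obtain ⟨φ, hφ⟩ : ∃ φ, φ = n / 16 := ⟨_, rfl⟩
  obtain ⟨Z, hZdef⟩ : ∃ Z : Finset V, Z = univ.filter (fun v => n < 16 * dg G v) := ⟨_, rfl⟩
  have hmemZ : ∀ v, v ∈ Z ↔ n < 16 * dg G v := by
    intro v
    rw [hZdef, Finset.mem_filter]
    simp
  have hmemZ' : ∀ v, v ∈ Z ↔ φ < dg G v := by
    intro v
    rw [hmemZ, hφ]
    omega
  have hZc : Z.card ≤ 17 * D := by
    have h1 := sum_dg_outZ G out D hD hout Z
    rw [← hnn] at h1
    have h2 : (φ + 1) * Z.card ≤ ∑ z ∈ Z, dg G z := by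
      rw [Nat.mul_comm, ← smul_eq_mul, ← Finset.sum_const]
      exact Finset.sum_le_sum (fun z hz => (hmemZ' z).mp hz)
    obtain ⟨q, hq⟩ : ∃ q, q = φ + 1 := ⟨_, rfl⟩
    obtain ⟨c, hc⟩ : ∃ c, c = Z.card := ⟨_, rfl⟩
    rw [← hq, ← hc] at h2
    rw [← hc] at h1 ⊢
    have hq1 : n ≤ 16 * q := by omega
    have hq2 : 34 * D ≤ q := by omega
    have h3 : D * n ≤ D * (16 * q) := Nat.mul_le_mul_left _ hq1
    have h4 : 34 * D * c ≤ q * c := Nat.mul_le_mul_right _ hq2
    have h5 : 33 * c * q ≤ 544 * D * q := by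
      have e1 : D * (16 * q) * 34 = 544 * D * q := by ring
      have e2 : 34 * D * c = D * c * 34 := by ring
      have e3 : 33 * c * q = q * c * 33 := by ring
      omega
    have h6 := Nat.le_of_mul_le_mul_right h5 (by omega)
    omega
  have hK1' : ∀ x y, K.Adj x y → x ∈ Z ∨ y ∈ Z := by
    intro x y hxy
    rw [hmemZ, hmemZ]
    exact hK1 x y hxy
  have hKt : ∀ z, dg K z ≤ t := by
    intro z
    by_cases h0 : (nb K z).Nonempty
    · have h1 := hKcard {z} (nb K z) (Finset.singleton_nonempty z) h0 (by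
        intro y hy z' hz'
        rw [Finset.mem_singleton] at hz'
        rw [hz']
        exact mem_nb.mp hy)
      rw [Finset.card_singleton] at h1
      have h2 : (nb K z).card = dg K z := rfl
      omega
    · rw [Finset.not_nonempty_iff_eq_empty] at h0
      have h2 : (nb K z).card = dg K z := rfl
      rw [← h2, h0]
      simp
  -- a vertex outside all sets
  obtain ⟨w0, hw0⟩ : ∃ w0, w0 ∉ Z ∪ Z.biUnion (fun z => nb K z) := by
    by_contra hcon
    push Not at hcon
    have h1 : Fintype.card V ≤ (Z ∪ Z.biUnion (fun z => nb K z)).card := by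
      rw [← Finset.card_univ]
      exact Finset.card_le_card (fun x _ => hcon x)
    have h2 := Finset.card_union_le Z (Z.biUnion (fun z => nb K z))
    have h3 : (Z.biUnion (fun z => nb K z)).card ≤ Z.card * t :=
      Finset.card_biUnion_le_card_mul _ _ _ (fun z _ => hKt z)
    have h4 : Z.card * t ≤ 17 * ((D + 1) * t) := by
      rw [← Nat.mul_assoc]
      exact Nat.mul_le_mul_right _ (by omega)
    rw [← hnn] at h1
    omega
  rw [Finset.mem_union, not_or, Finset.mem_biUnion] at hw0
  have hKw0 : dg K w0 = 0 := by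
    unfold dg
    rw [Finset.card_eq_zero, Finset.eq_empty_iff_forall_notMem]
    intro y hy
    rw [mem_nb] at hy
    rcases hK1' w0 y hy with h | h
    · exact hw0.1 h
    · exact hw0.2 ⟨y, h, mem_nb.mpr hy.symm⟩
  -- the degrees
  have hpar : ∃ e : ℕ, e ≤ 1 ∧ Even (∑ z ∈ Z, dg K z + (t * (univ \ Z).card - e)) := by
    rcases Nat.even_or_odd (∑ z ∈ Z, dg K z + t * (univ \ Z).card) with h | h
    · exact ⟨0, by omega, h⟩
    · refine ⟨1, le_rfl, ?_⟩
      have h1 : 1 ≤ t * (univ \ Z).card := by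
        refine Nat.mul_pos (by omega) (Finset.card_pos.mpr ⟨w0, ?_⟩)
        rw [Finset.mem_sdiff]
        exact ⟨Finset.mem_univ _, hw0.1⟩
      obtain ⟨q, hq⟩ := h
      exact ⟨q, by omega⟩
  obtain ⟨e, he1, heven⟩ := hpar
  let f : V → ℕ := fun v => if v ∈ Z then dg K v else (if v = w0 then t - e else t)
  have hfZ : ∀ z ∈ Z, f z = dg K z := fun z hz => if_pos hz
  have hfW : ∀ w, w ∉ Z → f w = if w = w0 then t - e else t := fun w hw => if_neg hw
  have hft : ∀ v, f v ≤ t := by
    intro v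
    by_cases hv : v ∈ Z
    · rw [hfZ v hv]
      exact hKt v
    · rw [hfW v hv]
      split_ifs <;> omega
  have hf1 : ∀ v, dg K v ≤ f v := by
    intro v
    by_cases hv : v ∈ Z
    · exact (hfZ v hv).ge
    · rw [hfW v hv]
      split_ifs with h
      · rw [h, hKw0]
        exact Nat.zero_le _
      · exact hKt v
  have hsumW : ∑ w ∈ univ \ Z, f w + e = t * (univ \ Z).card := by
    have hw0' : w0 ∈ univ \ Z := by
      rw [Finset.mem_sdiff]
      exact ⟨Finset.mem_univ _, hw0.1⟩
    have h1 : ∑ w ∈ univ \ Z, (f w + (if w = w0 then e else 0)) = ∑ _w ∈ univ \ Z, t := by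
      refine Finset.sum_congr rfl (fun w hw => ?_)
      rw [hfW w (Finset.mem_sdiff.mp hw).2]
      split_ifs <;> omega
    rw [Finset.sum_add_distrib, Finset.sum_const, smul_eq_mul, Finset.sum_ite_eq' (univ \ Z) w0,
      if_pos hw0'] at h1
    rw [h1, Nat.mul_comm]
  have hsumV : ∑ v, f v = ∑ z ∈ Z, dg K z + ∑ w ∈ univ \ Z, f w := by
    rw [← Finset.sum_sdiff (Finset.subset_univ Z), Nat.add_comm]
    congr 1
    exact Finset.sum_congr rfl hfZ
  have hWcard : (univ \ Z).card + Z.card = n := by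
    rw [Finset.card_sdiff_add_card_eq_card (Finset.subset_univ _), Finset.card_univ, hnn]
  have hφd : ∀ v, v ∉ Z → dg G v ≤ φ := by
    intro v hv
    rw [hmemZ', not_lt] at hv
    exact hv
  have hevenf : Even (∑ v, f v) := by
    rw [hsumV]
    have h1 : ∑ w ∈ univ \ Z, f w = t * (univ \ Z).card - e := by omega
    rw [h1]
    exact heven
  have hsumf : t * Fintype.card V ≤ ∑ v, f v + t * Z.card + 1 := by
    rw [← hnn, ← hWcard, Nat.mul_add]
    omega
  -- the graph
  have hex : ∃ M ∈ Om (GpK G K Z) f, SepFree Mᶜ k := by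
    by_cases hbig : 24 * (Z.card + 1) + 6000 ≤ t
    · obtain ⟨M, hM, hMK, hcod⟩ := exists_small_codH G K Z f t φ num_twentyfour hφd
        hK1' hK2 hfZ hft hf1 hevenf hbig hsumf (by rw [← hnn]; omega) (by rw [← hnn]; omega)
        (by rw [← hnn]; omega) (by rw [← hnn]; omega)
      refine ⟨M, hM, ?_⟩
      refine sepFree_complH M Z t k (fun v => by rw [(mem_Om.mp hM).2 v]; exact hft v)
        (by rw [← hnn]; exact hn) hcod ?_
      intro S hS hSne T hT
      rcases T.eq_empty_or_nonempty with h0 | h0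
      · rw [h0, Finset.card_empty]
        have h1 := Finset.card_le_card hS
        omega
      · refine hKcard S T hSne h0 ?_
        intro y hy z hz
        exact hMK z y (hT y hy z hz) (Or.inl (hS hz))
    · have ht4 : t ≤ 10000 * (D + 1) := by omega
      have h30 : 30 * t ^ 3 ≤ n := by
        have h1 : t ^ 3 ≤ (10000 * (D + 1)) ^ 3 := Nat.pow_le_pow_left ht4 3
        have h2 : (10000 * (D + 1)) ^ 3 = 1000000000000 * (D + 1) ^ 3 := by ring
        omega
      have hne : (Om (GpK G K Z) f).Nonempty := by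
        refine Om_K_nonempty G K Z f t φ hφd hK1' hK2 hfZ hft hf1 hevenf ?_
        have h1 : 2 * (t + φ + 1) + 2 * Z.card + 1 + Z.card + 2 ≤ n := by omega
        have h2 := Nat.mul_le_mul_left t h1
        have h3 : t * (2 * (t + φ + 1) + 2 * Z.card + 1 + Z.card + 2) =
          t * (2 * (t + φ + 1) + 2 * Z.card + 1) + t * Z.card + 2 * t := by ring
        rw [← hnn] at hsumf
        omega
      have hsumlow : t * (n - Z.card - 1) ≤ ∑ v, f v := by
        rw [← hnn] at hsumf
        have h1 : t * n = t * (n - Z.card - 1) + t * (Z.card + 1) := by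
          rw [← Nat.mul_add]
          congr 1
          omega
        have h2 : t * (Z.card + 1) = t * Z.card + t := by ring
        omega
      have hdW : ∀ v ∈ univ \ Z, dg (GpK G K Z) v ≤ φ + Z.card := by
        intro v hv
        have hv' : v ∉ Z := (Finset.mem_sdiff.mp hv).2
        have h1 := dg_GpK G K Z v hv'
        have h2 := hφd v hv'
        omega
      obtain ⟨M, hM, hc⟩ := exists_c4W2 (GpK G K Z) f (univ \ Z) (φ + Z.card) t hdW hft ht hne (by
        have h1 : 16 * t ^ 4 = t * (16 * t ^ 3) := by ring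
        have h2 : 2 * (t * (1 + (φ + Z.card) + t)) = t * (2 * (1 + (φ + Z.card) + t)) := by
          ring
        rw [h1, h2, ← Nat.mul_add]
        refine lt_of_lt_of_le ?_ hsumlow
        refine Nat.mul_lt_mul_of_pos_left ?_ ht
        omega)
      refine ⟨M, hM, ?_⟩
      refine sepFree_complC M Z t k (fun v => by rw [(mem_Om.mp hM).2 v]; exact hft v)
        (by rw [← hnn]; exact hn) hc ?_
      intro S hS hSne T hTne hT
      refine hKcard S T hSne hTne ?_
      intro y hy z hz
      exact adj_K G K Z f M hM z y (hT y hy z hz) (Or.inl (hS hz))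
  obtain ⟨M, hM, hsep⟩ := hex
  have hM' := mem_Om.mp hM
  have hdn : ∀ v, dg G v + 1 ≤ n := by
    intro v
    have := dg_compl G v
    rw [← hnn] at this
    omega
  refine ⟨Mᶜ, ?_, hsep, ?_⟩
  · intro x y hxy
    rw [SimpleGraph.compl_adj]
    exact ⟨hxy.ne, fun h => hM'.1 x y h ⟨hxy.ne, Or.inl hxy⟩⟩
  · have h1 : ∀ v, dg Mᶜ v + (if n < 16 * dg G v then dg K v else 0) ≤
        (if n < 16 * dg G v then n - 1 else k) + (if v = w0 then 1 else 0) := by
      intro v
      have e1 := dg_compl M v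
      rw [hM'.2 v, ← hnn] at e1
      by_cases hv : v ∈ Z
      · have e2 := (hmemZ v).mp hv
        rw [hfZ v hv] at e1
        rw [if_pos e2, if_pos e2]
        omega
      · have e2 : ¬ n < 16 * dg G v := fun h => hv ((hmemZ v).mpr h)
        rw [hfW v hv] at e1
        rw [if_neg e2, if_neg e2]
        split_ifs at e1 ⊢ <;> omega
    rw [← Finset.sum_add_distrib]
    refine le_trans (Finset.sum_le_sum (fun v _ => h1 v)) ?_
    rw [Finset.sum_add_distrib, Finset.sum_ite_eq' univ w0, if_pos (Finset.mem_univ _)]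

end Pool.Agent.BD48
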