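import Mathlib
import Pool.Agent.BD48.HubsD
import Pool.Agent.BD48.Fam

/-!
Separations in a graph with hubs.
-/

namespace Pool.Agent.BD48

open Finset

attribute [local instance] Classical.propDecidable

variable {V : Type*} [Fintype V]

/-- one side of a separation consists of hubs and at most one other vertex: impossible -/
lemma side_hubsG (H : SimpleGraph V) (W : Finset V) (k c : ℕ)
    (F3 : ∀ S : Finset V, (∀ v ∈ S, v ∉ W) → c + 1 ≤ S.card →
      k + 1 ≤ ((S.biUnion (fun z => nb H z)) \ S).card)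
    (F5 : ∀ C : Finset V, C.Nonempty → (C ∩ W).card ≤ 1 → (C \ W).card ≤ c →
      k ≤ (onb H C).card)
    (C D X : Finset V) (hcov : ∀ x, x ∈ C ∨ x ∈ D ∨ x ∈ X) (hC : C.Nonempty)
    (hX : X.card + 1 ≤ k) (hno : ∀ x ∈ C, ∀ y ∈ D, ¬ H.Adj x y) (hCW : (C ∩ W).card ≤ 1) :
    False := by
  have hN : ∀ x ∈ C, ∀ y, H.Adj x y → y ∈ X ∪ C := by
    intro x hx y hxy
    rw [Finset.mem_union]
    rcases hcov y with h | h | h
    · exact Or.inr h
    · exact absurd hxy (hno x hx y h)
    · exact Or.inl h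
  by_cases h1 : c + 1 ≤ (C \ W).card
  · have h2 := F3 (C \ W) (fun v hv => (Finset.mem_sdiff.mp hv).2) h1
    have h3 : ((C \ W).biUnion (fun z => nb H z)) \ (C \ W) ⊆ X ∪ (C ∩ W) := by
      intro y hy
      rw [Finset.mem_sdiff, Finset.mem_biUnion] at hy
      obtain ⟨⟨z, hz, hzy⟩, hyS⟩ := hy
      rw [mem_nb] at hzy
      have h4 := hN z (Finset.mem_sdiff.mp hz).1 y hzy
      rw [Finset.mem_union] at h4 ⊢
      rcases h4 with h4 | h4
      · exact Or.inl h4
      · right
        rw [Finset.mem_inter]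
        refine ⟨h4, ?_⟩
        by_contra hcon
        exact hyS (Finset.mem_sdiff.mpr ⟨h4, hcon⟩)
    have h4 := Finset.card_le_card h3
    have h5 := Finset.card_union_le X (C ∩ W)
    omega
  · have h2 := F5 C hC hCW (by omega)
    have h3 : onb H C ⊆ X := by
      intro y hy
      unfold onb at hy
      rw [Finset.mem_sdiff, Finset.mem_biUnion] at hy
      obtain ⟨⟨z, hz, hzy⟩, hyS⟩ := hy
      rw [mem_nb] at hzy
      have h4 := hN z hz y hzy
      rw [Finset.mem_union] at h4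
      exact h4.resolve_right hyS
    have h4 := Finset.card_le_card h3
    omega

/-- the separation theorem with hubs -/
theorem sep_hubsG (H : SimpleGraph V) (W : Finset V) (k c : ℕ)
    (F2 : ∀ C D X : Finset V, (∀ x, x ∈ C ∨ x ∈ D ∨ x ∈ X) → (∀ x, x ∈ C → x ∉ D) →
      (∀ x, x ∈ C → x ∉ X) → (∀ x, x ∈ D → x ∉ X) → (C ∩ W).Nonempty → (D ∩ W).Nonempty →
      X.card + 1 ≤ k → (∀ x ∈ C, ∀ y ∈ D, ¬ H.Adj x y) → (C ∩ W).card = 1 ∨ (D ∩ W).card = 1)
    (F3 : ∀ S : Finset V, (∀ v ∈ S, v ∉ W) → c + 1 ≤ S.card →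
      k + 1 ≤ ((S.biUnion (fun z => nb H z)) \ S).card)
    (F5 : ∀ C : Finset V, C.Nonempty → (C ∩ W).card ≤ 1 → (C \ W).card ≤ c →
      k ≤ (onb H C).card) : SepFree H k := by
  intro C D X hcov hCD hCX hDX hC hD hX hno
  have hcov' : ∀ x, x ∈ D ∨ x ∈ C ∨ x ∈ X := by
    intro x
    rcases hcov x with h | h | h
    · exact Or.inr (Or.inl h)
    · exact Or.inl h
    · exact Or.inr (Or.inr h)
  have hno' : ∀ x ∈ D, ∀ y ∈ C, ¬ H.Adj x y := fun x hx y hy h => hno y hy x hx h.symm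
  have hone : (C ∩ W).card ≤ 1 ∨ (D ∩ W).card ≤ 1 := by
    by_cases h1 : (C ∩ W).Nonempty
    · by_cases h2 : (D ∩ W).Nonempty
      · rcases F2 C D X hcov hCD hCX hDX h1 h2 hX hno with h | h
        · exact Or.inl h.le
        · exact Or.inr h.le
      · rw [Finset.not_nonempty_iff_eq_empty] at h2
        right
        rw [h2]
        simp
    · rw [Finset.not_nonempty_iff_eq_empty] at h1
      left
      rw [h1]
      simp
  rcases hone with h | h
  · exact side_hubsG H W k c F3 F5 C D X hcov hC hX hno h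
  · exact side_hubsG H W k c F3 F5 D C X hcov' hD hX hno' h

end Pool.Agent.BD48
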