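import Mathlib
import Pool.Agent.BD48.RegAD
import Pool.Agent.BD48.MinR
import Pool.Agent.BD48.ProtD
import Pool.Agent.BD48.SepG
import Pool.Agent.BD48.FamLe

/-!
Highly connected supergraphs of graphs with an orientation of bounded outdegree, sparse case.
-/

namespace Pool.Agent.BD48

open Finset

attribute [local instance] Classical.propDecidable

universe u

variable {V : Type u} [Fintype V]

lemma onb_of_two (H : SimpleGraph V) (C : Finset V) (k c : ℕ) (hC : C.card ≤ c + 1) (x y : V)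
    (hx : x ∈ C) (hy : y ∈ C) (h : k + c + 2 ≤ (nb H x ∪ nb H y).card) : k ≤ (onb H C).card := by
  have h1 : nb H x ∪ nb H y ⊆ onb H C ∪ C := by
    intro w hw
    rw [Finset.mem_union] at hw ⊢
    by_cases h2 : w ∈ C
    · exact Or.inr h2
    · left
      unfold onb
      rw [Finset.mem_sdiff, Finset.mem_biUnion]
      refine ⟨?_, h2⟩
      rcases hw with hw | hw
      · exact ⟨x, hx, hw⟩
      · exact ⟨y, hy, hw⟩
  have h2 := Finset.card_le_card h1
  have h3 := Finset.card_union_le (onb H C) C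
  omega

lemma onb_single (H : SimpleGraph V) (v : V) : (nb H v).card ≤ (onb H {v}).card := by
  refine Finset.card_le_card ?_
  intro w hw
  unfold onb
  rw [Finset.mem_sdiff, Finset.mem_biUnion, Finset.mem_singleton]
  refine ⟨⟨v, Finset.mem_singleton_self v, hw⟩, ?_⟩
  rintro rfl
  exact (mem_nb.mp hw).ne rfl

lemma win_num (k n nW h t d E c Q g y δ : ℕ) (hn : n = k + 1 + t) (hnW : nW = n - h)
    (ht : 5000 * d + 14000 + 300 * E + 20 * (c + 4) + h + Q < t) (hg : g = 204 * E + 14 * (c + 4) + Q)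
    (hy : y = 50 * d + 144 + (c + 4)) (hQ : Q ≤ δ) (hcd : 100 * c ≤ d) (hEd : 1000 * E ≤ d)
    (hd : d ≤ 2 * δ) (hk : 100000000 * δ ≤ k) (hδ : 10 ≤ δ) :
    k + g + 4 * y + 8 ≤ nW ∧ g + 2 * y + 4 ≤ k := by
  constructor <;> omega

/-- the sparse case, with all constants -/
theorem regimeG_aux (E C c gg Q mP pp A₁ l B : ℕ) (hE : 1 ≤ E) (hC : C = 100000000 * E)
    (hc : c = 2 * (C * E)) (hgg : gg = 2 * E * (c + 4)) (hQ : Q = 8 * (c * (c + 4)))
    (hmP : mP = gg + 2 * E + 1) (hpp : pp = mP + gg + (c + 4) + 1)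
    (hA₁ : A₁ = 10000 * (E * (4 * pp + 1))) (hl : l = 80000 * (C * (E * E)))
    (hB : B = 1000000000 * (E * E) + 2 * (E * A₁) + 8 * (C * E) + l + mP + 100 * c + pp + gg
      + Q + 10)
    (G : SimpleGraph V) (out : V → Finset V) (k t : ℕ)
    (hD : ∀ v, (out v).card ≤ E) (hout : ∀ x y, G.Adj x y → y ∈ out x ∨ x ∈ out y)
    (hn : Fintype.card V = k + 1 + t) (ht : Fintype.card V < 1000 * (E * t))
    (hk : C * (B + 1) ≤ k) :
    ∃ H : SimpleGraph V, G ≤ H ∧ SepFree H k ∧
      ∃ F : Finset (Finset V), Fam k F ∧ (∀ X ∈ F, X.card ≤ c + 1) ∧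
        (∀ F', Fam k F' → val G k F' ≤ val G k F) ∧
        ∑ v, dg H v ≤ ∑ v, dg G v + val G k F + 1 := by
  obtain ⟨n, hnn⟩ : ∃ n, n = Fintype.card V := ⟨_, rfl⟩
  rw [← hnn] at hn ht
  have hC0 : 0 < C := by omega
  obtain ⟨δ, hδ⟩ : ∃ δ, δ = k / C := ⟨_, rfl⟩
  have hδ1 : C * δ ≤ k := by
    rw [hδ]
    exact Nat.mul_div_le k C
  have hδ2 : k < C * (δ + 1) := by
    rw [hδ]
    exact Nat.lt_mul_div_succ k hC0
  have hδB : B ≤ δ := by
    have h1 : C * (B + 1) < C * (δ + 1) := lt_of_le_of_lt hk hδ2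
    have h2 := Nat.lt_of_mul_lt_mul_left h1
    omega
  have hEδ : 100000000 * (E * δ) ≤ k := by
    have h1 : C * δ = 100000000 * (E * δ) := by
      rw [hC]
      ring
    omega
  have hEδ' : δ ≤ E * δ := Nat.le_mul_of_pos_left _ (by omega)
  have hBE : B ≤ E * δ := le_trans hδB hEδ'
  have hEE : 1 ≤ E * E := Nat.mul_pos (by omega) (by omega)
  have hEE' : E ≤ E * E := Nat.le_mul_of_pos_left _ (by omega)
  have hnk : k ≤ n := by omega
  -- the gap
  have hgap : ∀ Y : ℕ, 1000 * (E * Y) ≤ n → Y < t := by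
    intro Y hY
    by_contra hcon
    push Not at hcon
    have h1 : E * t ≤ E * Y := Nat.mul_le_mul_left _ hcon
    omega
  let Z : Finset V := univ.filter (fun v => δ < dg G v)
  have hZ : ∀ v, v ∈ Z ↔ δ < dg G v := by
    intro v
    simp [Z]
  obtain ⟨h, hh⟩ : ∃ h, h = Z.card := ⟨_, rfl⟩
  -- the number of hubs
  have hZ1 : (δ + 1) * h ≤ 2 * E * n := by
    have h1 := sum_dg_outD G out E hD hout
    have h2 : ∑ z ∈ Z, (δ + 1) ≤ ∑ z ∈ Z, dg G z :=
      Finset.sum_le_sum (fun z hz => (hZ z).mp hz)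
    have h3 : ∑ z ∈ Z, dg G z ≤ ∑ v, dg G v :=
      Finset.sum_le_sum_of_subset (Finset.subset_univ _)
    rw [Finset.sum_const, smul_eq_mul, Nat.mul_comm, ← hh] at h2
    rw [← hnn] at h1
    omega
  have hZ2 : A₁ * h ≤ n := by
    have h1 : 2 * (E * A₁) * h ≤ (δ + 1) * h := Nat.mul_le_mul_right _ (by omega)
    have h2 : 2 * E * (A₁ * h) ≤ 2 * E * n := by
      calc 2 * E * (A₁ * h) = 2 * (E * A₁) * h := by ring
        _ ≤ (δ + 1) * h := h1
        _ ≤ 2 * E * n := hZ1
    exact Nat.le_of_mul_le_mul_left h2 (by omega)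
  have hZ2' : 40000 * (E * (h * pp)) + 10000 * (E * h) ≤ n := by
    have h1 : A₁ * h = 40000 * (E * (h * pp)) + 10000 * (E * h) := by
      rw [hA₁]
      ring
    omega
  have hEh : h ≤ E * h := Nat.le_mul_of_pos_left _ (by omega)
  have hZ3 : k * h ≤ 2 * (C * (E * n)) := by
    have h1 : k * h ≤ C * (δ + 1) * h := Nat.mul_le_mul_right _ hδ2.le
    have h2 : C * ((δ + 1) * h) ≤ C * (2 * E * n) := Nat.mul_le_mul_left _ hZ1
    have h3 : C * (δ + 1) * h = C * ((δ + 1) * h) := by ring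
    have h4 : C * (2 * E * n) = 2 * (C * (E * n)) := by ring
    omega
  obtain ⟨nW, hnW⟩ : ∃ nW, nW = n - h := ⟨_, rfl⟩
  have hnW0 : NeZero nW := ⟨by omega⟩
  -- the placement
  let Sz : V → Finset {w // w ∈ univ \ Z} :=
    fun z => univ.filter (fun w => G.Adj z w.1 ∧ z ∈ out w.1)
  have hSz : ∀ z w, w ∈ Sz z ↔ G.Adj z w.1 ∧ z ∈ out w.1 := by
    intro z w
    simp only [Sz, Finset.mem_filter, Finset.mem_univ, true_and]
  obtain ⟨π, hπ⟩ := placementD' nW E (by
    rw [Fintype.card_coe, Finset.card_sdiff_of_subset (Finset.subset_univ _), Finset.card_univ,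
      ← hnn, ← hh, hnW]) Z Sz (by
    intro w Y' _ hY'
    refine le_trans (Finset.card_le_card ?_) (hD w.1)
    intro z hz
    exact ((hSz z w).mp (hY' z hz)).2)
  let p : V → ZMod nW := fun x => if hx : x ∈ univ \ Z then π ⟨x, hx⟩ else 0
  let q : ZMod nW → V := fun a => (π.symm a).1
  have hq : ∀ a, q a ∉ Z := fun a => (Finset.mem_sdiff.mp (π.symm a).2).2
  have hpq : ∀ a, p (q a) = a := by
    intro a
    simp only [p, q]
    rw [dif_pos (π.symm a).2]
    simp
  have hqp : ∀ x, x ∉ Z → q (p x) = x := by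
    intro x hx
    have hx' : x ∈ univ \ Z := Finset.mem_sdiff.mpr ⟨Finset.mem_univ _, hx⟩
    simp only [p, q]
    rw [dif_pos hx', π.symm_apply_apply]
  have hqinj : Function.Injective q := fun a a' h' => by rw [← hpq a, ← hpq a', h']
  -- the neighbours of a vertex in a block
  have hblock : ∀ z ∈ Z, ∀ j < 4, ∀ T : Finset (ZMod nW),
      (∀ a ∈ T, G.Adj z (q a) ∧ inBlock nW j a) → 4 * T.card ≤ dg G z + 204 * E := by
    intro z hz j hj T hT
    let T1 : Finset (ZMod nW) := T.filter (fun a => z ∈ out (q a))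
    let T2 : Finset (ZMod nW) := T.filter (fun a => ¬ z ∈ out (q a))
    have hT12 : T1.card + T2.card = T.card :=
      Finset.card_filter_add_card_filter_not (s := T) (fun a => z ∈ out (q a))
    have hT2 : T2.card ≤ E := by
      refine le_trans ?_ (hD z)
      refine Finset.card_le_card_of_injOn q ?_ (hqinj.injOn)
      intro a ha
      rw [Finset.mem_coe] at ha
      simp only [T2, Finset.mem_filter] at ha
      exact (hout z (q a) (hT a ha.1).1).resolve_right ha.2
    have hT1 : 4 * T1.card ≤ dg G z + 100 * (E + 1) := by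
      have hU : (Sz z).card ≤ dg G z := by
        unfold dg
        refine Finset.card_le_card_of_injOn (fun w => w.1) ?_ ?_
        · intro w hw
          rw [Finset.mem_coe, hSz] at hw
          rw [Finset.mem_coe, mem_nb]
          exact hw.1
        · intro a _ b _ hab
          exact Subtype.ext hab
      have h1 := hπ z hz j hj (T1.image π.symm) (by
        intro w hw
        obtain ⟨a, ha, rfl⟩ := Finset.mem_image.mp hw
        simp only [T1, Finset.mem_filter] at ha
        have h2 := hT a ha.1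
        rw [hSz, π.apply_symm_apply]
        exact ⟨⟨h2.1, ha.2⟩, h2.2⟩)
      rw [Finset.card_image_of_injective _ π.symm.injective] at h1
      omega
    omega
  -- many hubs have many outer neighbours
  have hcδ : 4 * E ≤ δ := by omega
  have hQδ : Q ≤ δ := by omega
  have hδ10 : 10 ≤ δ := by omega
  have hEδ1000 : 1000 * E ≤ δ := by omega
  have hcδ100 : 100 * c ≤ δ := by omega
  have hkδ : 100000000 * δ ≤ k := by omega
  have hSG : ∀ S : Finset V, (∀ v ∈ S, δ < dg G v) → c + 1 ≤ S.card → k + 1 ≤ (onb G S).card := by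
    intro S hS hScard
    have h1 := card_union_in G out E hD hout S (δ + 1) hS
    by_contra hcon
    have h3 : ((S.biUnion (fun z => nb G z)) \ S).card ≤ k := by
      unfold onb at hcon
      omega
    have h4 : E * ((S.biUnion (fun z => nb G z)) \ S).card ≤ E * k := Nat.mul_le_mul_left _ h3
    have h5 : 4 * E * S.card ≤ S.card * (δ + 1) := by
      rw [Nat.mul_comm (4 * E)]
      exact Nat.mul_le_mul_left _ (by omega)
    have h6 : (c + 1) * (δ + 1) ≤ S.card * (δ + 1) := Nat.mul_le_mul_right _ hScard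
    have h7 : (c + 1) * (δ + 1) = 2 * (E * (C * (δ + 1))) + (δ + 1) := by
      rw [hc]
      ring
    have h8 : E * k ≤ E * (C * (δ + 1)) := Nat.mul_le_mul_left _ hδ2.le
    have h9 : 4 * E * S.card = 2 * (2 * E * S.card) := by ring
    omega
  have hgapc := hgap (2 * c + 4) (by
    have h1 : E * (2 * c + 4) = 2 * (E * c) + 4 * E := by ring
    have h2 : c ≤ δ := by omega
    have h3 : E * c ≤ E * δ := Nat.mul_le_mul_left _ h2
    omega)
  -- the demands
  obtain ⟨dem, F, hF, hFc, hsumdem, hdemP, hdem0, hdemW, hdem2, hdemk⟩ :=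
    exists_min_r G k c δ hSG (by omega) (by rw [← hnn]; omega)
  have hmaxF : ∀ F', Fam k F' → val G k F' ≤ val G k F := by
    intro F' hF'
    rw [← hsumdem]
    exact fam_le G k dem hdemP F' hF'
  rw [← hnn] at hdemP
  -- the protected neighbours
  have hPex : ∀ z, ∃ P : Finset V, z ∈ Z → P ⊆ nb G z ∧ P.card ≤ mP + gg ∧
      ∀ v, v ≠ z → c + 4 ≤ (P \ nb G v).card ∨ (nb G z \ nb G v).card < c + 4 := by
    intro z
    by_cases hz : z ∈ Z
    · have h2 := (hZ z).mp hz
      obtain ⟨P, hP1, hP2, hP3⟩ := exists_protectedD G out E hE hD hout c mP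
        (by rw [hmP, hgg]) z (by omega)
      exact ⟨P, fun _ => ⟨hP1, by rw [hgg]; exact hP2, hP3⟩⟩
    · exact ⟨∅, fun h' => absurd h' hz⟩
  choose P hP using hPex
  let PP : Finset V := Z.biUnion P
  have hPP : PP.card ≤ h * (mP + gg) := by
    refine le_trans Finset.card_biUnion_le ?_
    refine le_trans (Finset.sum_le_sum (fun z hz => (hP z hz).2.1)) ?_
    rw [Finset.sum_const, smul_eq_mul, ← hh]
  have hPPmem : ∀ z ∈ Z, ∀ w ∈ P z, w ∈ PP := fun z hz w hw =>
    Finset.mem_biUnion.mpr ⟨z, hz, hw⟩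
  let ext : V → ℕ := fun z => dem z - (k - dg G z)
  have hext1 : ∀ z, ext z + (k - dg G z) = dem z := fun z => Nat.sub_add_cancel (hdem0 z)
  -- the twins
  let tw : V → Finset V := fun z => univ.filter
    (fun v => v ≠ z ∧ (nb G z \ nb G v).card < c + 4 ∧ (nb G v \ nb G z).card < c + 4)
  have htw : ∀ z v, v ∈ tw z ↔
      v ≠ z ∧ (nb G z \ nb G v).card < c + 4 ∧ (nb G v \ nb G z).card < c + 4 := by
    intro z v
    simp only [tw, Finset.mem_filter, Finset.mem_univ, true_and]
  have htwcard : ∀ z ∈ Z, (nb G z ∪ (tw z).biUnion (fun v => nb G v)).card ≤ dg G z + gg := by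
    intro z hz
    have h0 := (hZ z).mp hz
    have h1 := card_contain G out E hE hD hout (c + 4) z (nb G z) (Finset.Subset.refl _)
      (by
        have h2 : (nb G z).card = dg G z := rfl
        rw [h2, ← hgg]
        omega) (tw z) (fun v hv => ⟨((htw z v).mp hv).1, ((htw z v).mp hv).2.1⟩)
    have h2 : nb G z ∪ (tw z).biUnion (fun v => nb G v) ⊆
        nb G z ∪ (tw z).biUnion (fun v => nb G v \ nb G z) := by
      intro w hw
      rw [Finset.mem_union, Finset.mem_biUnion] at hw
      rw [Finset.mem_union, Finset.mem_biUnion]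
      by_cases h3 : w ∈ nb G z
      · exact Or.inl h3
      · right
        rcases hw with hw | ⟨v, hv, hw⟩
        · exact absurd hw h3
        · exact ⟨v, hv, Finset.mem_sdiff.mpr ⟨hw, h3⟩⟩
    have h3 := Finset.card_le_card h2
    have h4 := Finset.card_union_le (nb G z) ((tw z).biUnion (fun v => nb G v \ nb G z))
    have h5 : ((tw z).biUnion (fun v => nb G v \ nb G z)).card ≤ (tw z).card * (c + 4) := by
      refine Finset.card_biUnion_le_card_mul _ _ _ ?_
      intro v hv
      exact ((htw z v).mp hv).2.2.le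
    have h6 : (tw z).card * (c + 4) ≤ gg := by
      rw [hgg]
      exact Nat.mul_le_mul_right _ h1.le
    have h7 : (nb G z).card = dg G z := rfl
    omega
  -- the reserved sets
  let Bz : V → Finset V := fun z => if dem z = 0 then ∅ else
    Z ∪ (nb G z ∪ (tw z).biUnion (fun v => nb G v)) ∪ PP
  let qz : V → ℕ := fun z => min (dem z) (c + 4)
  have hsumq : ∑ z ∈ Z, qz z ≤ h * (c + 4) := by
    refine le_trans (Finset.sum_le_sum (fun z _ => min_le_right (dem z) (c + 4))) ?_
    rw [Finset.sum_const, smul_eq_mul, ← hh]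
  have hhpp : h * (mP + gg) + h * (c + 4) + h ≤ h * pp := by
    have h1 : h * (mP + gg) + h * (c + 4) + h = h * (mP + gg + (c + 4) + 1) := by ring
    rw [h1]
    exact Nat.mul_le_mul_left _ (by omega)
  have hEhpp : h * pp ≤ E * (h * pp) := Nat.le_mul_of_pos_left _ (by omega)
  obtain ⟨R, hR1, hR2⟩ := exists_reserved Z Bz qz (by
    intro z hz
    by_cases h0 : dem z = 0
    · simp only [Bz]
      rw [if_pos h0, Finset.card_empty]
      omega
    · simp only [Bz]
      rw [if_neg h0]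
      have h1 := Finset.card_union_le (Z ∪ (nb G z ∪ (tw z).biUnion (fun v => nb G v))) PP
      have h2 := Finset.card_union_le Z (nb G z ∪ (tw z).biUnion (fun v => nb G v))
      have h3 := htwcard z hz
      have h4 := hdemk z (by omega)
      have h5 := hgap (c + gg + 4 + h * pp) (by
        have h6 : E * (c + gg + 4 + h * pp) = E * (c + gg) + 4 * E + E * (h * pp) := by ring
        have h7 : c + gg ≤ δ := by omega
        have h8 : E * (c + gg) ≤ E * δ := Nat.mul_le_mul_left _ h7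
        omega)
      omega)
  have hR3 : ∀ z ∈ Z, ∀ w ∈ R z, 1 ≤ dem z ∧ w ∉ Z ∧ w ∉ nb G z ∧
      (∀ v ∈ tw z, w ∉ nb G v) ∧ w ∉ PP := by
    intro z hz w hw
    have h1 := hR1 z hz
    have h2 : 0 < (R z).card := Finset.card_pos.mpr ⟨w, hw⟩
    rw [h1.2] at h2
    have h3 : 0 < dem z := lt_of_lt_of_le h2 (min_le_left _ _)
    have h4 : w ∉ Bz z := fun h => (Finset.disjoint_left.mp h1.1) hw h
    simp only [Bz] at h4
    rw [if_neg (by omega), Finset.mem_union, Finset.mem_union, Finset.mem_union,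
      Finset.mem_biUnion, not_or, not_or, not_or] at h4
    refine ⟨h3, h4.1.1, h4.1.2.1, ?_, h4.2⟩
    intro v hv hw'
    exact h4.1.2.2 ⟨v, hv, hw'⟩
  let RR : Finset V := Z.biUnion R
  have hRR : RR.card ≤ h * (c + 4) := by
    rw [hh]
    refine Finset.card_biUnion_le_card_mul _ _ _ ?_
    intro z hz
    rw [(hR1 z hz).2]
    exact min_le_right _ _
  have hNRR : ∀ z ∈ Z, ∀ w ∈ R z, w ∈ RR := fun z hz w hw =>
    Finset.mem_biUnion.mpr ⟨z, hz, hw⟩
  -- the remaining new edges
  let rem : V → ℕ := fun z => dem z - qz z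
  have hrem : ∀ z, rem z + qz z = dem z := fun z =>
    Nat.sub_add_cancel (min_le_left (dem z) (c + 4))
  obtain ⟨sat, hsat⟩ : ∃ sat, sat = n / (10000 * E) := ⟨_, rfl⟩
  have hsat1 : 10000 * (E * sat) ≤ n := by
    have h1 : 10000 * E * sat ≤ n := by
      rw [hsat]
      exact Nat.mul_div_le n _
    have h2 : 10000 * E * sat = 10000 * (E * sat) := by ring
    omega
  have hsat2 : n < 10000 * E * (sat + 1) := by
    rw [hsat]
    exact Nat.lt_mul_div_succ n (by omega)
  let A : V → ℕ → Finset V := fun z j =>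
    ((univ : Finset (ZMod nW)).filter
      (fun a => inBlock nW j a ∧ ¬ G.Adj z (q a) ∧ q a ∉ PP ∧ q a ∉ RR)).image q
  have hA : ∀ z j w, w ∈ A z j ↔
      w ∉ Z ∧ inBlock nW j (p w) ∧ ¬ G.Adj z w ∧ w ∉ PP ∧ w ∉ RR := by
    intro z j w
    simp only [A, Finset.mem_image, Finset.mem_filter, Finset.mem_univ, true_and]
    constructor
    · rintro ⟨a, ⟨h1, h2, h3, h4⟩, rfl⟩
      rw [hpq]
      exact ⟨hq a, h1, h2, h3, h4⟩
    · rintro ⟨h1, h2, h3, h4, h5⟩
      refine ⟨p w, ?_, hqp w h1⟩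
      rw [hqp w h1]
      exact ⟨h2, h3, h4, h5⟩
  let Z' : Finset V := Z.filter (fun z => 1 ≤ rem z)
  have hZ' : ∀ z, z ∈ Z' ↔ z ∈ Z ∧ 1 ≤ rem z := by
    intro z
    simp only [Z', Finset.mem_filter]
  let dm : V → ℕ → ℕ := fun z j => (rem z + j) / 4
  have hdm : ∀ z, ∑ j ∈ range 4, dm z j = rem z := by
    intro z
    simp only [dm, Finset.sum_range_succ, Finset.sum_range_zero]
    omega
  have hdm4 : ∀ z j, j < 4 → 4 * dm z j ≤ rem z + 3 := by
    intro z j hj
    simp only [dm]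
    omega
  obtain ⟨N, hN1, hN2, hN3⟩ := greedy Z' A dm l sat
    (by
      intro z _ i _ j _ hij
      rw [Finset.disjoint_left]
      intro w h1 h2
      rw [hA] at h1 h2
      exact hij (inBlock_unique h1.2.1 h2.2.1))
    (by
      intro z hz j hj
      rw [hZ'] at hz
      have h1 : (A z j).card = ((univ : Finset (ZMod nW)).filter
          (fun a => inBlock nW j a ∧ ¬ G.Adj z (q a) ∧ q a ∉ PP ∧ q a ∉ RR)).card :=
        Finset.card_image_of_injective _ hqinj
      have h2 := card_block nW j hj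
      let T : Finset (ZMod nW) := univ.filter (fun a => inBlock nW j a ∧ G.Adj z (q a))
      have h3 : 4 * T.card ≤ dg G z + 204 * E := by
        refine hblock z hz.1 j hj T ?_
        intro a ha
        simp only [T, Finset.mem_filter, Finset.mem_univ, true_and] at ha
        exact ⟨ha.2, ha.1⟩
      let T' : Finset (ZMod nW) := univ.filter (fun a => q a ∈ PP ∪ RR)
      have h4 : T'.card ≤ (PP ∪ RR).card := by
        refine Finset.card_le_card_of_injOn q ?_ (hqinj.injOn)
        intro a ha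
        rw [Finset.mem_coe] at ha
        simp only [T', Finset.mem_filter, Finset.mem_univ, true_and] at ha
        exact ha
      have h4' := Finset.card_union_le PP RR
      have h5 : (univ.filter (fun x : ZMod nW => inBlock nW j x)) ⊆
          (((univ : Finset (ZMod nW)).filter
            (fun a => inBlock nW j a ∧ ¬ G.Adj z (q a) ∧ q a ∉ PP ∧ q a ∉ RR)) ∪ T) ∪ T' := by
        intro a ha
        simp only [Finset.mem_filter, Finset.mem_univ, true_and] at ha
        simp only [Finset.mem_union, T, T', Finset.mem_filter, Finset.mem_univ, true_and]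
        by_cases h6 : G.Adj z (q a)
        · exact Or.inl (Or.inr ⟨ha, h6⟩)
        · by_cases h7 : q a ∈ PP
          · exact Or.inr (Or.inl h7)
          · by_cases h8 : q a ∈ RR
            · exact Or.inr (Or.inr h8)
            · exact Or.inl (Or.inl ⟨ha, h6, h7, h8⟩)
      have h6 := Finset.card_le_card h5
      have h7 := Finset.card_union_le (((univ : Finset (ZMod nW)).filter
            (fun a => inBlock nW j a ∧ ¬ G.Adj z (q a) ∧ q a ∉ PP ∧ q a ∉ RR)) ∪ T) T'
      have h8 := Finset.card_union_le ((univ : Finset (ZMod nW)).filter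
            (fun a => inBlock nW j a ∧ ¬ G.Adj z (q a) ∧ q a ∉ PP ∧ q a ∉ RR)) T
      have h9 := hdm4 z j hj
      have h10 := hrem z
      have h11 := hdemk z (by omega)
      have h12 := hdem2 z
      have h13 := hgap (8 + 2 * c + 4 * sat + 204 * E + 4 * (h * pp) + h) (by
        have h14 : E * (8 + 2 * c + 4 * sat + 204 * E + 4 * (h * pp) + h)
            = 8 * E + 2 * (E * c) + 4 * (E * sat) + 204 * (E * E) + 4 * (E * (h * pp))
              + E * h := by ring
        have h15 : 100 * c ≤ δ := by omega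
        have h16 : E * (100 * c) ≤ E * δ := Nat.mul_le_mul_left _ h15
        have h17 : E * (100 * c) = 100 * (E * c) := by ring
        omega)
      omega)
    (by
      have h1 : ∑ z ∈ Z', ∑ j ∈ range 4, dm z j ≤ ∑ z ∈ Z', 2 * k := by
        refine Finset.sum_le_sum (fun z _ => ?_)
        rw [hdm]
        have h2 := hrem z
        have h3 := hdem2 z
        omega
      have h2 : ∑ z ∈ Z', 2 * k ≤ ∑ z ∈ Z, 2 * k :=
        Finset.sum_le_sum_of_subset (Finset.filter_subset _ _)
      rw [Finset.sum_const (s := Z), smul_eq_mul, ← hh] at h2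
      have h3 : h * (2 * k) ≤ 2 * (k * h) := by
        have h4 : h * (2 * k) = 2 * (k * h) := by ring
        omega
      have h4 : 2 * (k * h) ≤ 4 * (C * (E * n)) := by omega
      have h5 : n ≤ 20000 * (E * sat) := by
        have h6 : 10000 * E * (sat + 1) = 10000 * (E * sat) + 10000 * E := by ring
        omega
      have h6 : 4 * (C * (E * n)) ≤ l * sat := by
        calc 4 * (C * (E * n)) ≤ 4 * (C * (E * (20000 * (E * sat)))) :=
              Nat.mul_le_mul_left _ (Nat.mul_le_mul_left _ (Nat.mul_le_mul_left _ h5))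
          _ = l * sat := by
              rw [hl]
              ring
      omega)
  let N' : V → Finset V := fun z => (if z ∈ Z' then N z else ∅) ∪ R z
  have hN'mem : ∀ z w, w ∈ N' z ↔ (z ∈ Z' ∧ w ∈ N z) ∨ w ∈ R z := by
    intro z w
    simp only [N', Finset.mem_union]
    split_ifs with h1
    · simp [h1]
    · simp [h1]
  have hNA : ∀ z ∈ Z', ∀ w ∈ N z, w ∉ Z ∧ ¬ G.Adj z w ∧ w ∉ PP ∧ w ∉ RR := by
    intro z hz w hw
    obtain ⟨j, _, hj⟩ := hN1 z hz w hw
    rw [hA] at hj
    exact ⟨hj.1, hj.2.2.1, hj.2.2.2.1, hj.2.2.2.2⟩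
  have hN'1 : ∀ z ∈ Z, ∀ w, w ∈ N' z → w ∉ Z ∧ ¬ G.Adj z w ∧ w ∉ PP := by
    intro z hz w hw
    rcases (hN'mem z w).mp hw with ⟨h1, h2⟩ | h1
    · have h3 := hNA z h1 w h2
      exact ⟨h3.1, h3.2.1, h3.2.2.1⟩
    · have h2 := hR3 z hz w h1
      exact ⟨h2.2.1, fun h' => h2.2.2.1 (mem_nb.mpr h'), h2.2.2.2.2⟩
  have hNcard : ∀ z ∈ Z', (N z).card = rem z := by
    intro z h1
    have h2 : N z = (range 4).biUnion (fun j => N z ∩ A z j) := by
      ext w
      rw [Finset.mem_biUnion]
      constructor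
      · intro hw
        obtain ⟨j, hj, hwj⟩ := hN1 z h1 w hw
        exact ⟨j, Finset.mem_range.mpr hj, Finset.mem_inter.mpr ⟨hw, hwj⟩⟩
      · rintro ⟨j, _, hw⟩
        exact (Finset.mem_inter.mp hw).1
    rw [h2, Finset.card_biUnion, Finset.sum_congr rfl
      (fun j hj => hN2 z h1 j (Finset.mem_range.mp hj)), hdm]
    intro i _ j _ hij
    show Disjoint (N z ∩ A z i) (N z ∩ A z j)
    rw [Finset.disjoint_left]
    intro w h3 h4
    have h5 := (hA z i w).mp (Finset.mem_inter.mp h3).2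
    have h6 := (hA z j w).mp (Finset.mem_inter.mp h4).2
    exact hij (inBlock_unique h5.2.1 h6.2.1)
  have hN'card : ∀ z ∈ Z, (N' z).card = dem z := by
    intro z hz
    simp only [N']
    split_ifs with h1
    · rw [Finset.card_union_of_disjoint, hNcard z h1, (hR1 z hz).2]
      · exact hrem z
      · rw [Finset.disjoint_left]
        intro w h2 h3
        exact (hNA z h1 w h2).2.2.2 (hNRR z hz w h3)
    · rw [Finset.empty_union, (hR1 z hz).2]
      rw [hZ', not_and, not_le] at h1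
      have h2 := h1 hz
      have h3 := hrem z
      omega
  have hN'2 : ∀ z ∈ Z, dg G z + (N' z).card = max k (dg G z) + ext z := by
    intro z hz
    rw [hN'card z hz]
    have h1 := hext1 z
    omega
  have hN'3 : ∀ w, w ∉ Z → (Z.filter (fun z => G.Adj w z ∨ w ∈ N' z)).card
      ≤ δ + l + 1 := by
    intro w hw
    have h1 : Z.filter (fun z => G.Adj w z ∨ w ∈ N' z) ⊆
        (nb G w ∪ Z'.filter (fun z => w ∈ N z)) ∪ Z.filter (fun z => w ∈ R z) := by
      intro z hz
      obtain ⟨hz1, hz2⟩ := Finset.mem_filter.mp hz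
      rcases hz2 with h2 | h2
      · exact Finset.mem_union_left _ (Finset.mem_union_left _ (mem_nb.mpr h2))
      · rcases (hN'mem z w).mp h2 with h3 | h3
        · exact Finset.mem_union_left _ (Finset.mem_union_right _ (Finset.mem_filter.mpr h3))
        · exact Finset.mem_union_right _ (Finset.mem_filter.mpr ⟨hz1, h3⟩)
    have h2 := Finset.card_le_card h1
    have h3 := Finset.card_union_le (nb G w ∪ Z'.filter (fun z => w ∈ N z))
      (Z.filter (fun z => w ∈ R z))
    have h3' := Finset.card_union_le (nb G w) (Z'.filter (fun z => w ∈ N z))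
    have h4 := hN3 w
    have h5 : (nb G w).card ≤ δ := by
      rw [hZ, not_lt] at hw
      exact hw
    have h6 : (Z.filter (fun z => w ∈ R z)).card ≤ 1 := by
      rw [Finset.card_le_one]
      intro a ha b hb
      rw [Finset.mem_filter] at ha hb
      by_contra hab
      exact (Finset.disjoint_left.mp (hR2 a ha.1 b hb.1 hab)) ha.2 hb.2
    omega
  -- the numbers
  obtain ⟨d, hd⟩ : ∃ d, d = δ + l + 1 := ⟨_, rfl⟩
  obtain ⟨K, hK1, hK2⟩ := exists_pow_two (12 * d + 36) (by omega)
  obtain ⟨N0, hN0⟩ : ∃ N0, N0 = 2 ^ K := ⟨_, rfl⟩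
  obtain ⟨s₀, hs₀⟩ : ∃ s₀, s₀ = N0 - (d + 8) := ⟨_, rfl⟩
  obtain ⟨b, hb⟩ : ∃ b, b = 3 * (4 * d + 16 + (2 * s₀ + d) + 1) + 2 := ⟨_, rfl⟩
  obtain ⟨m, hm⟩ : ∃ m, m = 2 * b := ⟨_, rfl⟩
  obtain ⟨r, hr⟩ : ∃ r, r = k / 2 := ⟨_, rfl⟩
  rw [← hN0] at hK1 hK2
  have hdδ : d ≤ 2 * δ := by omega
  have hδd : δ ≤ d := by omega
  have hcd : 100 * c ≤ d := le_trans hcδ100 hδd
  have hEd2 : 1000 * E ≤ d := le_trans hEδ1000 hδd
  have hk2r : k ≤ 2 * r + 1 := by omega
  have hEd : E * d ≤ 2 * (E * δ) := by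
    have h1 := Nat.mul_le_mul_left E hdδ
    have h2 : E * (2 * δ) = 2 * (E * δ) := by ring
    omega
  have hdEd : d ≤ E * d := Nat.le_mul_of_pos_left _ (by omega)
  have hgap2 := hgap (5000 * d + 14000 + 300 * E + 20 * (c + 4) + h + Q) (by
    have h0 : E * Q ≤ E * δ := Nat.mul_le_mul_left _ (by omega)
    have h1 : E * (5000 * d + 14000 + 300 * E + 20 * (c + 4) + h + Q)
        = 5000 * (E * d) + 14080 * E + 300 * (E * E) + 20 * (E * c) + E * h + E * Q := by ring
    have h2 : 100 * c ≤ δ := by omega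
    have h3 : E * (100 * c) ≤ E * δ := Nat.mul_le_mul_left _ h2
    have h4 : E * (100 * c) = 100 * (E * c) := by ring
    omega)
  have hr2n : 2 * r + 1 ≤ nW := by omega
  obtain ⟨H, hH1, hH2, hH3, hH4, hH5, hH6, hH7⟩ := assembleD G Z N' ext nW p q hq hpq hqp
    d k r K s₀ b m
    (by
      intro v hv
      rw [hZ, not_lt] at hv
      omega)
    (fun z hz w hw => ⟨(hN'1 z hz w hw).1, (hN'1 z hz w hw).2.1⟩) hN'2
    (fun w hw => by rw [hd]; exact hN'3 w hw) (by omega) (by omega) (by omega) (by omega) hb hm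
    (by omega) (by omega)
  refine ⟨H, hH1, ?_, F, hF, hFc, hmaxF, ?_⟩
  swap
  · have h1 : ∑ v, ext v + ∑ v, max k (dg G v) = ∑ v, dg G v + ∑ v, dem v := by
      rw [← Finset.sum_add_distrib, ← Finset.sum_add_distrib]
      refine Finset.sum_congr rfl (fun v _ => ?_)
      have h2 := hext1 v
      omega
    omega
  have hGH : ∀ v, nb G v ⊆ nb H v := by
    intro v w hw
    rw [mem_nb] at hw ⊢
    exact hH1 hw
  -- hubs with a private protected neighbour
  have hfirst : ∀ z ∈ Z, ∀ v ∈ Z, c + 4 ≤ (P z \ nb G v).card →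
      k + c + 2 ≤ (nb H z ∪ nb H v).card := by
    intro z hz v hv hcard
    have h1 : P z \ nb G v ⊆ nb H z \ nb H v := by
      intro w hw
      rw [Finset.mem_sdiff] at hw
      rw [Finset.mem_sdiff]
      refine ⟨hGH z ((hP z hz).1 hw.1), ?_⟩
      rw [mem_nb, hH2 v hv]
      rintro (h3 | h3)
      · exact hw.2 (mem_nb.mpr h3)
      · exact (hN'1 v hv w h3).2.2 (hPPmem z hz w hw.1)
    have h2 := Finset.card_le_card h1
    have h5 := Finset.card_sdiff_add_card (nb H z) (nb H v)
    have h6 : k ≤ (nb H v).card := hH3 v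
    omega
  -- hubs with many private new neighbours
  have hfirst2 : ∀ z ∈ Z, ∀ v ∈ Z, v ∈ tw z → c + 4 ≤ dem z →
      k + c + 2 ≤ (nb H z ∪ nb H v).card := by
    intro z hz v hv hvtw hcard
    have hvz : v ≠ z := ((htw z v).mp hvtw).1
    have h1 : R z ⊆ nb H z \ nb H v := by
      intro w hw
      have h2 := hR3 z hz w hw
      rw [Finset.mem_sdiff, mem_nb, mem_nb, hH2 z hz, hH2 v hv]
      refine ⟨Or.inr ((hN'mem z w).mpr (Or.inr hw)), ?_⟩
      rintro (h3 | h3)
      · exact h2.2.2.2.1 v hvtw (mem_nb.mpr h3)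
      · rcases (hN'mem v w).mp h3 with h4 | h4
        · exact (hNA v h4.1 w h4.2).2.2.2 (hNRR z hz w hw)
        · exact (Finset.disjoint_left.mp (hR2 z hz v hv hvz.symm)) hw h4
    have h2 := Finset.card_le_card h1
    have h3 : (R z).card = min (dem z) (c + 4) := (hR1 z hz).2
    rw [min_eq_right hcard] at h3
    have h5 := Finset.card_sdiff_add_card (nb H z) (nb H v)
    have h6 : k ≤ (nb H v).card := hH3 v
    omega
  -- windows
  have hwin : ∀ u, u ∉ Z → ∀ U : Finset V,
      (∀ j < 4, ∀ T : Finset (ZMod nW), (∀ a ∈ T, q a ∈ U ∧ inBlock nW j a) →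
        4 * T.card ≤ k + (204 * E + 14 * (c + 4) + Q)) → c + 2 ≤ (nb H u \ U).card := by
    intro u hu U hU
    obtain ⟨T, hT1, hT2⟩ := hH7 u hu
    obtain ⟨g, hg⟩ : ∃ g, g = 204 * E + 14 * (c + 4) + Q := ⟨_, rfl⟩
    obtain ⟨y, hy⟩ : ∃ y, y = 50 * d + 144 + (c + 4) := ⟨_, rfl⟩
    let NU : Finset (ZMod nW) := univ.filter (fun a => q a ∈ U)
    have hNU : ∀ a, a ∈ NU ↔ q a ∈ U := by
      intro a
      simp only [NU, Finset.mem_filter, Finset.mem_univ, true_and]
    have hwn := win_num k n nW h t d E c Q g y δ hn hnW hgap2 hg hy hQδ hcd hEd2 hdδ hkδ hδ10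
    have h0 := block_window nW r k g y NU hk2r hr2n
      (by
        intro j hj
        rw [hg]
        refine hU j hj _ ?_
        intro a ha
        rw [Finset.mem_filter, hNU] at ha
        exact ha)
      hwn.1 hwn.2 (p u)
    have h1 : ((ball r (p u) \ NU) \ T).image q ⊆ nb H u \ U := by
      intro w hw
      obtain ⟨a, ha, rfl⟩ := Finset.mem_image.mp hw
      rw [Finset.mem_sdiff, Finset.mem_sdiff, hNU] at ha
      rw [Finset.mem_sdiff, mem_nb]
      exact ⟨hT2 a ha.1.1 ha.2, ha.1.2⟩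
    have h2 := Finset.card_le_card h1
    rw [Finset.card_image_of_injective _ hqinj] at h2
    have h3 := Finset.le_card_sdiff T (ball r (p u) \ NU)
    rw [← hN0] at hT1
    omega
  -- the neighbours of a hub in a block
  have hblk : ∀ z ∈ Z, dg G z ≤ k + c + 2 → ∀ j < 4, ∀ T : Finset (ZMod nW),
      (∀ a ∈ T, q a ∈ nb H z ∧ inBlock nW j a) →
      4 * T.card ≤ k + (204 * E + 7 * (c + 4) + 4) := by
    intro z hz hdz j hj T hT
    let T1 : Finset (ZMod nW) := T.filter (fun a => q a ∈ nb G z)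
    let T2 : Finset (ZMod nW) := T.filter (fun a => ¬ q a ∈ nb G z)
    have h1 : T1.card + T2.card = T.card :=
      Finset.card_filter_add_card_filter_not (s := T) (fun a => q a ∈ nb G z)
    have h2 : 4 * T1.card ≤ dg G z + 204 * E := by
      refine hblock z hz j hj T1 ?_
      intro a ha
      simp only [T1, Finset.mem_filter, mem_nb] at ha
      exact ⟨ha.2, (hT a ha.1).2⟩
    have h3 : T2.card ≤ dm z j + (R z).card := by
      have h4 : T2.image q ⊆ (if z ∈ Z' then N z ∩ A z j else ∅) ∪ R z := by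
        intro w hw
        obtain ⟨a, ha, rfl⟩ := Finset.mem_image.mp hw
        simp only [T2, Finset.mem_filter, mem_nb] at ha
        have h5 := hT a ha.1
        rw [mem_nb, hH2 z hz] at h5
        have h6 := h5.1.resolve_left ha.2
        rw [Finset.mem_union]
        rcases (hN'mem z _).mp h6 with h7 | h7
        · left
          rw [if_pos h7.1, Finset.mem_inter, hA, hpq]
          have h8 := hNA z h7.1 _ h7.2
          exact ⟨h7.2, h8.1, h5.2, h8.2.1, h8.2.2.1, h8.2.2.2⟩
        · exact Or.inr h7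
      have h5 := Finset.card_le_card h4
      rw [Finset.card_image_of_injective _ hqinj] at h5
      have h6 := Finset.card_union_le (if z ∈ Z' then N z ∩ A z j else ∅) (R z)
      have h7 : (if z ∈ Z' then N z ∩ A z j else ∅).card ≤ dm z j := by
        split_ifs with h8
        · exact (hN2 z h8 j hj).le
        · simp
      omega
    have h4 := hdm4 z j hj
    have h5 : (R z).card = qz z := (hR1 z hz).2
    have h6 : qz z ≤ c + 4 := min_le_right _ _
    have h7 := hrem z
    have h8 := hdem2 z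
    omega
  refine sep_hubsG H (univ \ Z) k c hH6 ?_ ?_
  · intro S hS hScard
    have hSZ : ∀ v ∈ S, v ∈ Z := by
      intro v hv
      have h1 := hS v hv
      rw [Finset.mem_sdiff, not_and, not_not] at h1
      exact h1 (Finset.mem_univ _)
    have h1 := hSG S (fun z hz => (hZ z).mp (hSZ z hz)) hScard
    refine le_trans h1 ?_
    unfold onb
    refine Finset.card_le_card (Finset.sdiff_subset_sdiff ?_ (Finset.Subset.refl _))
    exact Finset.biUnion_mono (fun z _ => hGH z)
  · intro C₁ hC₁ hCW hCZ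
    have hcZ : ∀ x, x ∈ C₁ → (x ∈ Z ∨ x ∈ C₁ ∩ (univ \ Z)) := by
      intro x hx
      by_cases h1 : x ∈ Z
      · exact Or.inl h1
      · right
        rw [Finset.mem_inter, Finset.mem_sdiff]
        exact ⟨hx, Finset.mem_univ _, h1⟩
    have hC₁card : C₁.card ≤ c + 1 := by
      have h1 := Finset.card_sdiff_add_card_inter C₁ (univ \ Z)
      omega
    have hC₁Z : ∀ S : Finset V, (∀ v ∈ S, v ∈ C₁ ∧ v ∈ Z) → S.card ≤ c := by
      intro S hS
      refine le_trans (Finset.card_le_card ?_) hCZ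
      intro v hv
      rw [Finset.mem_sdiff, Finset.mem_sdiff, not_and, not_not]
      exact ⟨(hS v hv).1, fun _ => (hS v hv).2⟩
    by_cases hbig : ∃ z ∈ C₁, z ∈ Z ∧ k + c + 2 ≤ dg G z
    · obtain ⟨z, hz, hzZ, hzbig⟩ := hbig
      refine onb_of_two H C₁ k c hC₁card z z hz hz ?_
      have h1 := hH4 z hzZ
      have h2 : (nb H z).card = max k (dg G z) + ext z := h1
      rw [Finset.union_self, h2]
      have h3 := le_max_right k (dg G z)
      omega
    have hsmall : ∀ z ∈ C₁, z ∈ Z → dg G z ≤ k + c + 2 := by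
      intro z hz hzZ
      by_contra hcon
      exact hbig ⟨z, hz, hzZ, by omega⟩
    by_cases hpr : ∃ z ∈ C₁, ∃ v ∈ C₁, z ∈ Z ∧ v ∈ Z ∧ c + 4 ≤ (P z \ nb G v).card
    · obtain ⟨z, hz, v, hv, hzZ, hvZ, h1⟩ := hpr
      exact onb_of_two H C₁ k c hC₁card z v hz hv (hfirst z hzZ v hvZ h1)
    have hnear : ∀ z ∈ C₁, ∀ v ∈ C₁, z ∈ Z → v ∈ Z → v ≠ z →
        (nb G z \ nb G v).card < c + 4 := by
      intro z hz v hv hzZ hvZ hvz
      exact ((hP z hzZ).2.2 v hvz).resolve_left (fun h1 => hpr ⟨z, hz, v, hv, hzZ, hvZ, h1⟩)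
    have htwin : ∀ z ∈ C₁, ∀ v ∈ C₁, z ∈ Z → v ∈ Z → v ≠ z → v ∈ tw z := by
      intro z hz v hv hzZ hvZ hvz
      exact (htw z v).mpr ⟨hvz, hnear z hz v hv hzZ hvZ hvz, hnear v hv z hz hvZ hzZ hvz.symm⟩
    by_cases hdm' : ∃ z ∈ C₁, ∃ v ∈ C₁, z ∈ Z ∧ v ∈ Z ∧ v ≠ z ∧ c + 4 ≤ dem z
    · obtain ⟨z, hz, v, hv, hzZ, hvZ, hvz, h1⟩ := hdm'
      exact onb_of_two H C₁ k c hC₁card z v hz hv
        (hfirst2 z hzZ v hvZ (htwin z hz v hv hzZ hvZ hvz) h1)
    have hsmalldem : ∀ z ∈ C₁, ∀ v ∈ C₁, z ∈ Z → v ∈ Z → v ≠ z →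
        (R z).card = dem z ∧ dem z < c + 4 ∧ z ∉ Z' := by
      intro z hz v hv hzZ hvZ hvz
      have h1 : dem z < c + 4 := by
        by_contra hcon
        exact hdm' ⟨z, hz, v, hv, hzZ, hvZ, hvz, by omega⟩
      have h2 : (R z).card = min (dem z) (c + 4) := (hR1 z hzZ).2
      have h3 : qz z = dem z := min_eq_left (by omega)
      refine ⟨?_, h1, ?_⟩
      · rw [h2]
        exact min_eq_left (by omega)
      · rw [hZ', not_and]
        intro _ h7
        have h8 := hrem z
        omega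
    by_cases hu : ∃ u ∈ C₁, u ∉ Z
    · obtain ⟨u, huC, huZ⟩ := hu
      have honly : ∀ x ∈ C₁, x ∉ Z → x = u := by
        intro x hx hxZ
        have h1 : x ∈ C₁ ∩ (univ \ Z) := (hcZ x hx).resolve_left hxZ
        have h2 : u ∈ C₁ ∩ (univ \ Z) := (hcZ u huC).resolve_left huZ
        exact Finset.card_le_one.mp hCW x h1 u h2
      by_cases hz : ∃ z ∈ C₁, z ∈ Z
      · obtain ⟨z, hz, hzZ⟩ := hz
        refine onb_of_two H C₁ k c hC₁card u z huC hz ?_
        obtain ⟨S, hS⟩ : ∃ S, S = C₁ ∩ Z := ⟨_, rfl⟩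
        have hSmem : ∀ v, v ∈ S ↔ v ∈ C₁ ∧ v ∈ Z := by
          intro v
          rw [hS, Finset.mem_inter]
        have hScard : S.card ≤ c := hC₁Z S (fun v hv => (hSmem v).mp hv)
        have h7 := hwin u huZ (S.biUnion (fun v => nb H v)) (by
          intro j hj T hT
          let T1 : Finset (ZMod nW) := T.filter (fun a => q a ∈ nb H z)
          let T2 : Finset (ZMod nW) := T.filter (fun a => ¬ q a ∈ nb H z)
          have g1 : T1.card + T2.card = T.card :=
            Finset.card_filter_add_card_filter_not (s := T) (fun a => q a ∈ nb H z)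
          have g2 : 4 * T1.card ≤ k + (204 * E + 7 * (c + 4) + 4) := by
            refine hblk z hzZ (hsmall z hz hzZ) j hj T1 ?_
            intro a ha
            simp only [T1, Finset.mem_filter] at ha
            exact ⟨ha.2, (hT a ha.1).2⟩
          have g3 : T2.card ≤ (S.erase z).card * (2 * (c + 4)) := by
            have g4 : T2.image q ⊆ (S.erase z).biUnion
                (fun v => (nb G v \ nb G z) ∪ R v) := by
              intro w hw
              obtain ⟨a, ha, rfl⟩ := Finset.mem_image.mp hw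
              simp only [T2, Finset.mem_filter] at ha
              have g5 := (hT a ha.1).1
              rw [Finset.mem_biUnion] at g5
              obtain ⟨v, hvS, g6⟩ := g5
              have hv := (hSmem v).mp hvS
              have hvz : v ≠ z := by
                rintro rfl
                exact ha.2 g6
              rw [mem_nb, hH2 v hv.2] at g6
              rw [Finset.mem_biUnion]
              refine ⟨v, Finset.mem_erase.mpr ⟨hvz, hvS⟩, ?_⟩
              rw [Finset.mem_union, Finset.mem_sdiff]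
              rcases g6 with g6 | g6
              · left
                exact ⟨mem_nb.mpr g6, fun g7 => ha.2 (hGH z g7)⟩
              · rcases (hN'mem v _).mp g6 with g7 | g7
                · exact absurd g7.1 (hsmalldem v hv.1 z hz hv.2 hzZ hvz.symm).2.2
                · exact Or.inr g7
            have g5 := Finset.card_le_card g4
            rw [Finset.card_image_of_injective _ hqinj] at g5
            refine le_trans g5 (Finset.card_biUnion_le_card_mul _ _ _ ?_)
            intro v hv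
            rw [Finset.mem_erase] at hv
            have hv' := (hSmem v).mp hv.2
            have g6 := Finset.card_union_le (nb G v \ nb G z) (R v)
            have g7 := hnear v hv'.1 z hz hv'.2 hzZ hv.1.symm
            have g8 := hsmalldem v hv'.1 z hz hv'.2 hzZ hv.1.symm
            omega
          have g4 : (S.erase z).card * (2 * (c + 4)) ≤ c * (2 * (c + 4)) :=
            Nat.mul_le_mul_right _ (le_trans (Finset.card_erase_le) hScard)
          have g5 : 4 * (c * (2 * (c + 4))) = Q := by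
            rw [hQ]
            ring
          clear_value T1 T2
          clear hQ hB hc hgg hmP hpp hA₁ hl hC
          omega)
        have h8 := Finset.card_sdiff_add_card (nb H u) (S.biUnion (fun v => nb H v))
        have h9 : (nb H u \ S.biUnion (fun v => nb H v)) ⊆ nb H u \ nb H z := by
          refine Finset.sdiff_subset_sdiff (Finset.Subset.refl _) ?_
          exact Finset.subset_biUnion_of_mem (fun v => nb H v) ((hSmem z).mpr ⟨hz, hzZ⟩)
        have h10 := Finset.card_le_card h9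
        have h11 := Finset.card_sdiff_add_card (nb H u) (nb H z)
        have h13 : k ≤ (nb H z).card := hH3 z
        omega
      · have h1 : C₁ = {u} := by
          ext x
          rw [Finset.mem_singleton]
          constructor
          · intro hx
            exact honly x hx (fun h => hz ⟨x, hx, h⟩)
          · rintro rfl
            exact huC
        rw [h1]
        exact le_trans (hH3 u) (onb_single H u)
    · have hCsub : ∀ x ∈ C₁, x ∈ Z := by
        intro x hx
        by_contra hcon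
        exact hu ⟨x, hx, hcon⟩
      by_cases hone : C₁.card = 1
      · obtain ⟨z, hz⟩ := Finset.card_eq_one.mp hone
        rw [hz]
        exact le_trans (hH3 z) (onb_single H z)
      · have hpos := Finset.card_pos.mpr hC₁
        have hother : ∀ z ∈ C₁, ∃ v ∈ C₁, v ≠ z := fun z _ =>
          Finset.exists_mem_ne (by omega) z
        have hRdem : ∀ z ∈ C₁, (R z).card = dem z := by
          intro z hz
          obtain ⟨v, hv, hvz⟩ := hother z hz
          exact (hsmalldem z hz v hv (hCsub z hz) (hCsub v hv) hvz).1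
        have h1 : onb G C₁ ∪ C₁.biUnion R ⊆ onb H C₁ := by
          intro w hw
          rw [Finset.mem_union] at hw
          rcases hw with hw | hw
          · unfold onb at hw ⊢
            rw [Finset.mem_sdiff, Finset.mem_biUnion] at hw ⊢
            obtain ⟨⟨v, hv, hwv⟩, hwC⟩ := hw
            exact ⟨⟨v, hv, hGH v hwv⟩, hwC⟩
          · rw [Finset.mem_biUnion] at hw
            obtain ⟨z, hz, hwz⟩ := hw
            have h2 := hR3 z (hCsub z hz) w hwz
            unfold onb
            rw [Finset.mem_sdiff, Finset.mem_biUnion]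
            refine ⟨⟨z, hz, ?_⟩, fun h3 => h2.2.1 (hCsub w h3)⟩
            rw [mem_nb, hH2 z (hCsub z hz)]
            exact Or.inr ((hN'mem z w).mpr (Or.inr hwz))
        have h2 : Disjoint (onb G C₁) (C₁.biUnion R) := by
          rw [Finset.disjoint_left]
          intro w hw hw'
          rw [Finset.mem_biUnion] at hw'
          obtain ⟨z, hz, hwz⟩ := hw'
          have h3 := hR3 z (hCsub z hz) w hwz
          unfold onb at hw
          rw [Finset.mem_sdiff, Finset.mem_biUnion] at hw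
          obtain ⟨⟨v, hv, hwv⟩, _⟩ := hw
          by_cases hvz : v = z
          · rw [hvz] at hwv
            exact h3.2.2.1 hwv
          · exact h3.2.2.2.1 v (htwin z hz v hv (hCsub z hz) (hCsub v hv) hvz) hwv
        have h3 : (C₁.biUnion R).card = ∑ z ∈ C₁, dem z := by
          rw [Finset.card_biUnion]
          · exact Finset.sum_congr rfl hRdem
          · intro z hz v hv hzv
            exact hR2 z (hCsub z hz) v (hCsub v hv) hzv
        have h4 := Finset.card_le_card h1
        rw [Finset.card_union_of_disjoint h2, h3] at h4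
        have h5 := hdemP C₁ hC₁ (by omega)
        omega

/-- the sparse case -/
theorem regimeG (E : ℕ) (hE : 1 ≤ E) (V : Type u) [Fintype V]
    (G : SimpleGraph V) (out : V → Finset V) (k t : ℕ) (hD : ∀ v, (out v).card ≤ E)
    (hout : ∀ x y, G.Adj x y → y ∈ out x ∨ x ∈ out y)
    (hn : Fintype.card V = k + 1 + t) (ht : Fintype.card V < 1000 * (E * t))
    (hk : 100000000000000000000000000 * E ^ 6 ≤ k) :
    ∃ H : SimpleGraph V, G ≤ H ∧ SepFree H k ∧
      ∃ F : Finset (Finset V), Fam k F ∧ (∀ X ∈ F, X.card ≤ 1000000000 * E ^ 2) ∧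
        (∀ F', Fam k F' → val G k F' ≤ val G k F) ∧
        ∑ v, dg H v ≤ ∑ v, dg G v + val G k F + 1 := by
  obtain ⟨C, hC⟩ : ∃ C, C = 100000000 * E := ⟨_, rfl⟩
  obtain ⟨c, hc⟩ : ∃ c, c = 2 * (C * E) := ⟨_, rfl⟩
  obtain ⟨gg, hgg⟩ : ∃ gg, gg = 2 * E * (c + 4) := ⟨_, rfl⟩
  obtain ⟨Q, hQ⟩ : ∃ Q, Q = 8 * (c * (c + 4)) := ⟨_, rfl⟩
  obtain ⟨mP, hmP⟩ : ∃ mP, mP = gg + 2 * E + 1 := ⟨_, rfl⟩
  obtain ⟨pp, hpp⟩ : ∃ pp, pp = mP + gg + (c + 4) + 1 := ⟨_, rfl⟩
  obtain ⟨A₁, hA₁⟩ : ∃ A₁, A₁ = 10000 * (E * (4 * pp + 1)) := ⟨_, rfl⟩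
  obtain ⟨l, hl⟩ : ∃ l, l = 80000 * (C * (E * E)) := ⟨_, rfl⟩
  obtain ⟨B, hB⟩ : ∃ B, B = 1000000000 * (E * E) + 2 * (E * A₁) + 8 * (C * E) + l + mP
    + 100 * c + pp + gg + Q + 10 := ⟨_, rfl⟩
  have hCB : C * (B + 1) = 6400000000000000000000 * E ^ 6 + 32001600000000000000000000 * E ^ 5
      + 800160144000000000000 * E ^ 4 + 2840050000000000000 * E ^ 3 + 3600000000 * E ^ 2
      + 1800000000 * E := by
    rw [hB, hA₁, hpp, hmP, hQ, hgg, hl, hc, hC]
    ring
  have h1 : E ≤ E ^ 6 := Nat.le_self_pow (by norm_num) _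
  have h2 : E ^ 2 ≤ E ^ 6 := Nat.pow_le_pow_right hE (by norm_num)
  have h3 : E ^ 3 ≤ E ^ 6 := Nat.pow_le_pow_right hE (by norm_num)
  have h4 : E ^ 4 ≤ E ^ 6 := Nat.pow_le_pow_right hE (by norm_num)
  have h5 : E ^ 5 ≤ E ^ 6 := Nat.pow_le_pow_right hE (by norm_num)
  have h6 : E ≤ E ^ 2 := Nat.le_self_pow (by norm_num) _
  have hcE : c = 200000000 * E ^ 2 := by
    rw [hc, hC]
    ring
  obtain ⟨H, hH1, hH2, F, hF, hFc, hmax, hsum⟩ := regimeG_aux E C c gg Q mP pp A₁ l B hE hC hc hgg hQ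
    hmP hpp hA₁ hl hB G out k t hD hout hn ht (by
      rw [hCB]
      linarith)
  refine ⟨H, hH1, hH2, F, hF, ?_, hmax, hsum⟩
  intro X hX
  refine le_trans (hFc X hX) ?_
  rw [hcE]
  linarith

/-- the sparse case without three vertices with many common neighbours -/
theorem regimeAX (E s : ℕ) (hE : 1 ≤ E) (V : Type u) [Fintype V]
    (G : SimpleGraph V) (out : V → Finset V) (k t : ℕ) (hD : ∀ v, (out v).card ≤ E)
    (hout : ∀ x y, G.Adj x y → y ∈ out x ∨ x ∈ out y)
    (hK3 : ∀ x y z, x ≠ y → x ≠ z → y ≠ z → (nb G x ∩ nb G y ∩ nb G z).card < s)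
    (hn : Fintype.card V = k + 1 + t) (ht : Fintype.card V < 1000 * (E * t))
    (hk : 100000000000000000000000000 * E ^ 6 + 100000000000000000000000000 * (E ^ 3 * s) ≤ k) :
    ∃ H : SimpleGraph V, G ≤ H ∧ SepFree H k ∧
      ∑ v, dg H v ≤ ∑ v, max k (dg G v) + tau G k + 1 := by
  obtain ⟨C, hC⟩ : ∃ C, C = 100000000 * E := ⟨_, rfl⟩
  obtain ⟨c, hc⟩ : ∃ c, c = 2 * (C * E) := ⟨_, rfl⟩
  obtain ⟨mP, hmP⟩ : ∃ mP, mP = s + 4 * (c + 4) := ⟨_, rfl⟩
  obtain ⟨pp, hpp⟩ : ∃ pp, pp = s + 6 * (c + 4) + 1 := ⟨_, rfl⟩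
  obtain ⟨A₁, hA₁⟩ : ∃ A₁, A₁ = 10000 * (E * (4 * pp + 1)) := ⟨_, rfl⟩
  obtain ⟨l, hl⟩ : ∃ l, l = 80000 * (C * (E * E)) := ⟨_, rfl⟩
  obtain ⟨B, hB⟩ : ∃ B, B = 1000000000 * (E * E) + 2 * (E * A₁) + 8 * (C * E) + l + mP
    + 100 * c + pp + s + 10 := ⟨_, rfl⟩
  have hCB : C * (B + 1) = 9600000000000000000000 * E ^ 5 + 800000000000000000000 * E ^ 4
      + 8000000000000 * (E ^ 3 * s) + 2380202000000000000 * E ^ 3 + 300000000 * (E * s)
      + 5200000000 * E := by
    rw [hB, hA₁, hpp, hmP, hl, hc, hC]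
    ring
  have h1 : E ≤ E ^ 6 := Nat.le_self_pow (by norm_num) _
  have h3 : E ^ 3 ≤ E ^ 6 := Nat.pow_le_pow_right hE (by norm_num)
  have h4 : E ^ 4 ≤ E ^ 6 := Nat.pow_le_pow_right hE (by norm_num)
  have h5 : E ^ 5 ≤ E ^ 6 := Nat.pow_le_pow_right hE (by norm_num)
  have h6 : E * s ≤ E ^ 3 * s := Nat.mul_le_mul_right _ (Nat.le_self_pow (by norm_num) _)
  have hCk : C * (B + 1) ≤ k := by
    rw [hCB]
    obtain ⟨e1, he1⟩ : ∃ e1, e1 = E ^ 3 * s := ⟨_, rfl⟩
    obtain ⟨e2, he2⟩ : ∃ e2, e2 = E * s := ⟨_, rfl⟩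
    obtain ⟨e3, he3⟩ : ∃ e3, e3 = E ^ 3 := ⟨_, rfl⟩
    obtain ⟨e4, he4⟩ : ∃ e4, e4 = E ^ 4 := ⟨_, rfl⟩
    obtain ⟨e5, he5⟩ : ∃ e5, e5 = E ^ 5 := ⟨_, rfl⟩
    obtain ⟨e6, he6⟩ : ∃ e6, e6 = E ^ 6 := ⟨_, rfl⟩
    rw [← he1, ← he2] at h6
    rw [← he6, ← he1] at hk
    rw [← he6] at h1 h3 h4 h5
    rw [← he3] at h3
    rw [← he4] at h4
    rw [← he5] at h5
    rw [← he1, ← he2, ← he3, ← he4, ← he5]
    clear hC hc hmP hpp hA₁ hl hB hCB ht hn hK3 hout hD
    omega
  exact regimeAD_aux E s C c mP pp A₁ l B hE hC hc hmP hpp hA₁ hl hB G out k t hD hout hK3 hn ht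
    hCk

end Pool.Agent.BD48
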